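import Mathlib
import Pool.Agent.H789R2.FR.Weak
import Pool.Agent.H789R2.FR.L2
set_option autoImplicit false

/-! Task P: the `L^p` bound on balls, `2 < p < 2(n+1)/(n-1)`. -/

namespace Pool.Agent.H789R2.FR

open MeasureTheory Measure Set Metric Complex
open scoped ENNReal Pointwise RealInnerProductSpace

theorem Lp_T_meas {n : ℕ} {g : E n → ℂ} (hg : Measurable g) : StronglyMeasurable (T g) := by
  have := sg_finite n
  have h : StronglyMeasurable (fun q : E n × E n =>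
      Complex.exp (-((⟪q.1, q.2⟫ : ℝ) : ℂ) * I) * g q.2) := by
    apply Measurable.stronglyMeasurable
    have h1 : Measurable fun q : E n × E n => (⟪q.1, q.2⟫ : ℝ) :=
      (continuous_fst.inner continuous_snd).measurable
    have h2 : Measurable fun q : E n × E n => Complex.exp (-((⟪q.1, q.2⟫ : ℝ) : ℂ) * I) :=
      Complex.measurable_exp.comp ((Complex.measurable_ofReal.comp h1).neg.mul_const I)
    exact h2.mul (hg.comp measurable_snd)
  exact h.integral_prod_right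

theorem Lp_T_bdd {n : ℕ} {g : E n → ℂ} {M : ℝ} (hM : ∀ x, ‖g x‖ ≤ M) (x : E n) :
    ‖T g x‖ ≤ M * (sg n).real univ := by
  have := sg_finite n
  unfold T
  refine norm_integral_le_of_norm_le_const (Filter.Eventually.of_forall fun w => ?_)
  rw [norm_mul]
  have : ‖Complex.exp (-((⟪x, w⟫ : ℝ) : ℂ) * I)‖ = 1 := by
    rw [Complex.norm_exp]
    simp
  rw [this, one_mul]
  exact hM w

/-- pointwise dyadic decomposition -/
theorem Lp_pointwise {p lam u : ℝ} (hp : 2 < p) (hlam : 0 < lam) (hu : 0 ≤ u) :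
    ENNReal.ofReal (u ^ p) ≤ ENNReal.ofReal (lam ^ (p - 2) * u ^ 2) +
      ∑' k : ℕ, ENNReal.ofReal ((2 ^ (k + 1) * lam) ^ p) *
        (if 2 ^ k * lam ≤ u then 1 else 0) := by
  rcases le_or_gt u lam with h | h
  · refine le_trans ?_ le_self_add
    apply ENNReal.ofReal_le_ofReal
    rcases hu.eq_or_lt with h0 | h0
    · rw [← h0, Real.zero_rpow (by linarith)]
      simp
    · have h1 : u ^ p = u ^ (p - 2) * u ^ 2 := by
        rw [← Real.rpow_natCast u 2, ← Real.rpow_add h0]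
        congr 1
        push_cast
        ring
      rw [h1]
      exact mul_le_mul_of_nonneg_right (Real.rpow_le_rpow hu h (by linarith)) (by positivity)
  · refine le_trans ?_ le_add_self
    obtain ⟨k, hk1, hk2⟩ := exists_nat_pow_near (x := u / lam) (y := 2)
      (by rw [le_div_iff₀ hlam]; linarith) (by norm_num)
    rw [le_div_iff₀ hlam] at hk1
    rw [div_lt_iff₀ hlam] at hk2
    calc ENNReal.ofReal (u ^ p) ≤ ENNReal.ofReal ((2 ^ (k + 1) * lam) ^ p) *
          (if 2 ^ k * lam ≤ u then 1 else 0) := by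
          rw [if_pos hk1, mul_one]
          exact ENNReal.ofReal_le_ofReal (Real.rpow_le_rpow hu hk2.le (by linarith))
      _ ≤ _ := ENNReal.le_tsum k

theorem Lp_alg1 {p q lam H C : ℝ} (hlam : 0 < lam) (hH : 0 < H) (k : ℕ) :
    (2 ^ (k + 1) * lam) ^ p * (C * (H / (2 ^ k * lam) ^ 2) ^ q) =
      C * 2 ^ p * lam ^ p * (H / lam ^ 2) ^ q * (2 ^ (p - 2 * q)) ^ k := by
  obtain ⟨l, rfl⟩ : ∃ l, lam = Real.exp l := ⟨Real.log lam, (Real.exp_log hlam).symm⟩
  obtain ⟨h, rfl⟩ : ∃ h, H = Real.exp h := ⟨Real.log H, (Real.exp_log hH).symm⟩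
  obtain ⟨t, ht⟩ : ∃ t, (2 : ℝ) = Real.exp t := ⟨Real.log 2, (Real.exp_log two_pos).symm⟩
  have e1 : ∀ m : ℕ, (2 : ℝ) ^ m = Real.exp (m * t) := by
    intro m
    rw [Real.exp_nat_mul, ← ht]
  have e2 : ∀ (x : ℝ) (m : ℕ), Real.exp x ^ m = Real.exp (m * x) := by
    intro x m
    rw [Real.exp_nat_mul]
  have e3 : ∀ x y : ℝ, Real.exp x ^ y = Real.exp (x * y) := fun x y => (Real.exp_mul x y).symm
  have e4 : ∀ x : ℝ, (2 : ℝ) ^ x = Real.exp (t * x) := by
    intro x
    rw [ht, e3]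
  rw [e1, e1, e4, e4, ← Real.exp_add, ← Real.exp_add, e2, e2, e2, ← Real.exp_sub, ← Real.exp_sub,
    e3, e3, e3, e3]
  have : ∀ a b c d : ℝ, C * Real.exp a * Real.exp b * Real.exp c * Real.exp d =
      C * Real.exp (a + b + c + d) := by
    intro a b c d
    rw [Real.exp_add, Real.exp_add, Real.exp_add]
    ring
  rw [this]
  have h5 : ∀ a b : ℝ, Real.exp a * (C * Real.exp b) = C * Real.exp (a + b) := by
    intro a b
    rw [Real.exp_add]
    ring
  rw [h5]
  congr 2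
  push_cast
  ring

theorem Lp_gauss {n : ℕ} {l : ℝ} (hl : 0 < l) (u : E n) :
    Integrable fun x : E n => Real.exp (-‖x - u‖ ^ 2 / l ^ 2) := by
  have h1 : Integrable fun x : E n => Real.exp (-‖x‖ ^ 2 / l ^ 2) := by
    have hb : 0 < ((1 / l ^ 2 : ℝ) : ℂ).re := by
      rw [Complex.ofReal_re]
      positivity
    have h2 := (GaussianFourier.integrable_cexp_neg_mul_sq_norm_add (V := E n) hb 0 0).norm
    refine h2.congr (Filter.Eventually.of_forall fun x => ?_)
    simp only [Complex.norm_exp]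
    congr 1
    rw [zero_mul, add_zero]
    have : (-((1 / l ^ 2 : ℝ) : ℂ) * (‖x‖ : ℂ) ^ 2) = ((-‖x‖ ^ 2 / l ^ 2 : ℝ) : ℂ) := by
      push_cast
      ring
    rw [this, Complex.ofReal_re]
  exact h1.comp_sub_right u

theorem Lp_low {n : ℕ} {C : ℝ} {g : E n → ℂ} (hg : Measurable g) (hb : ∃ M : ℝ, ∀ x, ‖g x‖ ≤ M)
    {L : ℝ} (hL : 1 ≤ L)
    (h : ∫ x, Real.exp (-‖x - 0‖ ^ 2 / L ^ 2) * ‖T g x‖ ^ 2 ≤ C) :
    ∫⁻ x in closedBall (0 : E n) L, ENNReal.ofReal (‖T g x‖ ^ 2) ≤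
      ENNReal.ofReal (Real.exp 1 * C) := by
  obtain ⟨M, hM⟩ := hb
  have hL0 : 0 < L := by linarith
  have hint : Integrable fun x : E n => Real.exp (-‖x - 0‖ ^ 2 / L ^ 2) * ‖T g x‖ ^ 2 := by
    refine (Lp_gauss hL0 0).mul_bdd (c := (M * (sg n).real univ) ^ 2) ?_ ?_
    · exact ((Lp_T_meas hg).norm.pow 2).aestronglyMeasurable
    · refine Filter.Eventually.of_forall fun x => ?_
      rw [Real.norm_of_nonneg (by positivity)]
      exact pow_le_pow_left₀ (norm_nonneg _) (Lp_T_bdd hM x) 2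
  calc ∫⁻ x in closedBall (0 : E n) L, ENNReal.ofReal (‖T g x‖ ^ 2)
      ≤ ∫⁻ x in closedBall (0 : E n) L, ENNReal.ofReal
          (Real.exp 1 * (Real.exp (-‖x - 0‖ ^ 2 / L ^ 2) * ‖T g x‖ ^ 2)) := by
        refine setLIntegral_mono' measurableSet_closedBall fun x hx => ?_
        apply ENNReal.ofReal_le_ofReal
        rw [← mul_assoc, ← Real.exp_add]
        have h1 : (1 : ℝ) ≤ Real.exp (1 + -‖x - 0‖ ^ 2 / L ^ 2) := by
          apply Real.one_le_exp
          rw [mem_closedBall, dist_eq_norm] at hx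
          have h2 : ‖x - 0‖ ^ 2 / L ^ 2 ≤ 1 := by
            rw [div_le_one (by positivity)]
            exact pow_le_pow_left₀ (norm_nonneg _) hx 2
          rw [neg_div]
          linarith
        nlinarith [sq_nonneg ‖T g x‖]
    _ ≤ ∫⁻ x, ENNReal.ofReal
          (Real.exp 1 * (Real.exp (-‖x - 0‖ ^ 2 / L ^ 2) * ‖T g x‖ ^ 2)) :=
        setLIntegral_le_lintegral _ _
    _ = ENNReal.ofReal (∫ x, Real.exp 1 * (Real.exp (-‖x - 0‖ ^ 2 / L ^ 2) * ‖T g x‖ ^ 2)) := by
        rw [ofReal_integral_eq_lintegral_ofReal (hint.const_mul _)]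
        exact Filter.Eventually.of_forall fun x => by positivity
    _ ≤ _ := by
        apply ENNReal.ofReal_le_ofReal
        rw [integral_const_mul]
        exact mul_le_mul_of_nonneg_left h (Real.exp_pos _).le

theorem Lp_high {n : ℕ} {C q p lam : ℝ} {g : E n → ℂ} (hg : Measurable g)
    (hC : 0 < C) (hp : 2 < p) (hpq : p < 2 * q) {H : ℝ} (hH : 0 < H) (hlam : 0 < lam)
    {L : ℝ}
    (h : ∀ t : ℝ, 0 < t → ∀ S : Set (E n), MeasurableSet S →
      Bornology.IsBounded S → (∀ x ∈ S, t ≤ ‖T g x‖) →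
      volume.real S ≤ C * (H / t ^ 2) ^ q) :
    ∫⁻ x in closedBall (0 : E n) L, ENNReal.ofReal (‖T g x‖ ^ p) ≤
      ENNReal.ofReal (lam ^ (p - 2)) * (∫⁻ x in closedBall (0 : E n) L,
        ENNReal.ofReal (‖T g x‖ ^ 2)) +
      ENNReal.ofReal (C * 2 ^ p * lam ^ p * (H / lam ^ 2) ^ q / (1 - 2 ^ (p - 2 * q))) := by
  have hTm : Measurable fun x : E n => ‖T g x‖ := (Lp_T_meas hg).norm.measurable
  have hSm : ∀ k : ℕ, MeasurableSet {x : E n | 2 ^ k * lam ≤ ‖T g x‖} := fun k =>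
    measurableSet_le measurable_const hTm
  have hvol : ∀ k : ℕ, volume (closedBall (0 : E n) L ∩ {x : E n | 2 ^ k * lam ≤ ‖T g x‖}) ≤
      ENNReal.ofReal (C * (H / (2 ^ k * lam) ^ 2) ^ q) := by
    intro k
    have hb : Bornology.IsBounded (closedBall (0 : E n) L ∩ {x : E n | 2 ^ k * lam ≤ ‖T g x‖}) :=
      isBounded_closedBall.subset inter_subset_left
    have h1 := h (2 ^ k * lam) (by positivity) _ (measurableSet_closedBall.inter (hSm k)) hb
      (fun x hx => hx.2)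
    rw [← ENNReal.ofReal_toReal (hb.measure_lt_top (μ := volume)).ne]
    exact ENNReal.ofReal_le_ofReal h1
  calc ∫⁻ x in closedBall (0 : E n) L, ENNReal.ofReal (‖T g x‖ ^ p)
      ≤ ∫⁻ x in closedBall (0 : E n) L, (ENNReal.ofReal (lam ^ (p - 2) * ‖T g x‖ ^ 2) +
        ∑' k : ℕ, ENNReal.ofReal ((2 ^ (k + 1) * lam) ^ p) *
          (if 2 ^ k * lam ≤ ‖T g x‖ then 1 else 0)) :=
        lintegral_mono fun x => Lp_pointwise hp hlam (norm_nonneg _)
    _ = (∫⁻ x in closedBall (0 : E n) L, ENNReal.ofReal (lam ^ (p - 2) * ‖T g x‖ ^ 2)) +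
        ∫⁻ x in closedBall (0 : E n) L, ∑' k : ℕ, ENNReal.ofReal ((2 ^ (k + 1) * lam) ^ p) *
          (if 2 ^ k * lam ≤ ‖T g x‖ then 1 else 0) := by
        rw [lintegral_add_left]
        exact ENNReal.measurable_ofReal.comp ((hTm.pow_const 2).const_mul _)
    _ ≤ _ := by
        refine add_le_add (le_of_eq ?_) ?_
        · have hm2 : Measurable fun x : E n => ENNReal.ofReal (‖T g x‖ ^ 2) :=
            ENNReal.measurable_ofReal.comp (hTm.pow_const 2)
          rw [← lintegral_const_mul _ hm2]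
          refine lintegral_congr fun x => ?_
          rw [ENNReal.ofReal_mul (by positivity)]
        · have hmeas : ∀ k : ℕ, Measurable fun x : E n =>
              (if 2 ^ k * lam ≤ ‖T g x‖ then (1 : ℝ≥0∞) else 0) := fun k =>
            Measurable.ite (hSm k) measurable_const measurable_const
          rw [lintegral_tsum fun k => ((hmeas k).const_mul _).aemeasurable]
          have hterm : ∀ k : ℕ, ∫⁻ x in closedBall (0 : E n) L,
              ENNReal.ofReal ((2 ^ (k + 1) * lam) ^ p) *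
              (if 2 ^ k * lam ≤ ‖T g x‖ then 1 else 0) ≤
              ENNReal.ofReal (C * 2 ^ p * lam ^ p * (H / lam ^ 2) ^ q *
                (2 ^ (p - 2 * q)) ^ k) := by
            intro k
            rw [lintegral_const_mul _ (hmeas k)]
            have h1 : ∫⁻ x in closedBall (0 : E n) L,
                (if 2 ^ k * lam ≤ ‖T g x‖ then (1 : ℝ≥0∞) else 0) =
                volume (closedBall (0 : E n) L ∩ {x : E n | 2 ^ k * lam ≤ ‖T g x‖}) := by
              have : (fun x : E n => if 2 ^ k * lam ≤ ‖T g x‖ then (1 : ℝ≥0∞) else 0) =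
                  indicator {x : E n | 2 ^ k * lam ≤ ‖T g x‖} 1 := by
                funext x
                simp only [indicator, Set.mem_ofPred_eq, Pi.one_apply]
              rw [this, lintegral_indicator_one (hSm k), Measure.restrict_apply (hSm k),
                inter_comm]
            rw [h1]
            refine (mul_le_mul_right (hvol k) _).trans ?_
            rw [← ENNReal.ofReal_mul (by positivity), Lp_alg1 hlam hH k]
          refine (ENNReal.tsum_le_tsum hterm).trans ?_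
          have hr0 : (0 : ℝ) ≤ 2 ^ (p - 2 * q) := by positivity
          have hr1 : (2 : ℝ) ^ (p - 2 * q) < 1 :=
            Real.rpow_lt_one_of_one_lt_of_neg one_lt_two (by linarith)
          rw [← ENNReal.ofReal_tsum_of_nonneg]
          · rw [tsum_mul_left, tsum_geometric_of_lt_one hr0 hr1]
            rfl
          · intro k
            positivity
          · exact (summable_geometric_of_lt_one hr0 hr1).mul_left _

theorem Lp_alg2 {p m H L : ℝ} (hH : 0 < H) (hL : 0 < L) :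
    (H ^ ((1 : ℝ) / 2) * L ^ (-m / 4)) ^ (p - 2) * (L * H) =
      H ^ (p / 2) * L ^ (1 - m * (p - 2) / 4) := by
  obtain ⟨l, rfl⟩ : ∃ l, L = Real.exp l := ⟨Real.log L, (Real.exp_log hL).symm⟩
  obtain ⟨h, rfl⟩ : ∃ h, H = Real.exp h := ⟨Real.log H, (Real.exp_log hH).symm⟩
  have e3 : ∀ x y : ℝ, Real.exp x ^ y = Real.exp (x * y) := fun x y => (Real.exp_mul x y).symm
  rw [e3, e3, e3, e3, ← Real.exp_add, ← Real.exp_add, ← Real.exp_add, e3, ← Real.exp_add]
  congr 1
  ring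

theorem Lp_alg3 {p m H L : ℝ} (hH : 0 < H) (hL : 0 < L) (hm : 0 < m) :
    (H ^ ((1 : ℝ) / 2) * L ^ (-m / 4)) ^ p *
      (H / (H ^ ((1 : ℝ) / 2) * L ^ (-m / 4)) ^ 2) ^ ((m + 2) / m) =
      H ^ (p / 2) * L ^ (1 - m * (p - 2) / 4) := by
  obtain ⟨l, rfl⟩ : ∃ l, L = Real.exp l := ⟨Real.log L, (Real.exp_log hL).symm⟩
  obtain ⟨h, rfl⟩ : ∃ h, H = Real.exp h := ⟨Real.log H, (Real.exp_log hH).symm⟩
  have e3 : ∀ x y : ℝ, Real.exp x ^ y = Real.exp (x * y) := fun x y => (Real.exp_mul x y).symm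
  rw [e3, e3, e3, e3, ← Real.exp_add, ← Real.exp_add, ← Real.exp_nat_mul, ← Real.exp_sub, e3, e3,
    ← Real.exp_add]
  congr 1
  field_simp
  push_cast
  ring

/-- Task P. -/
theorem Lp_bound (n : ℕ) (hn : 2 ≤ n) (p : ℝ) (hp : 2 < p)
    (hp' : p < 2 * ((n : ℝ) + 1) / ((n : ℝ) - 1)) : ∃ C : ℝ, 0 < C ∧ ∀ g : E n → ℂ,
    Measurable g → (∃ M : ℝ, ∀ x, ‖g x‖ ≤ M) → ∀ L : ℝ, 1 ≤ L →
    ∫⁻ x in closedBall (0 : E n) L, ENNReal.ofReal (‖T g x‖ ^ p) ≤
      ENNReal.ofReal (C * (∫ w, ‖g w‖ ^ 2 ∂(sg n)) ^ (p / 2) *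
        L ^ (1 - ((n : ℝ) - 1) * (p - 2) / 4)) := by
  have := sg_finite n
  have hn1 : (0 : ℝ) < (n : ℝ) - 1 := by
    have : (2 : ℝ) ≤ n := by exact_mod_cast hn
    linarith
  obtain ⟨C₁, hC₁, h1⟩ := L2_bound n hn
  obtain ⟨C₂, hC₂, h2⟩ := weak n hn
  set q : ℝ := ((n : ℝ) + 1) / ((n : ℝ) - 1) with hq
  have hpq : p < 2 * q := by rw [hq, ← mul_div_assoc]; exact hp'
  have hr1 : (2 : ℝ) ^ (p - 2 * q) < 1 :=
    Real.rpow_lt_one_of_one_lt_of_neg one_lt_two (by linarith)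
  have hr : 0 < 1 - (2 : ℝ) ^ (p - 2 * q) := by linarith
  refine ⟨Real.exp 1 * C₁ + C₂ * 2 ^ p / (1 - 2 ^ (p - 2 * q)), by positivity, ?_⟩
  intro g hg hb L hL
  have hL0 : 0 < L := by linarith
  have hH0 : 0 ≤ ∫ w, ‖g w‖ ^ 2 ∂(sg n) := integral_nonneg fun w => by positivity
  rcases hH0.eq_or_lt with hH | hH
  · -- zero density
    obtain ⟨M, hM⟩ := hb
    have hint : Integrable (fun w => ‖g w‖ ^ 2) (sg n) := by
      refine Integrable.of_bound (hg.norm.pow_const 2).aestronglyMeasurable (M ^ 2)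
        (Filter.Eventually.of_forall fun w => ?_)
      rw [Real.norm_of_nonneg (by positivity)]
      exact pow_le_pow_left₀ (norm_nonneg _) (hM w) 2
    have hz := (integral_eq_zero_iff_of_nonneg (fun w => by positivity) hint).1 hH.symm
    have hT : ∀ x, T g x = 0 := by
      intro x
      unfold T
      rw [integral_eq_zero_of_ae]
      filter_upwards [hz] with w hw
      have : g w = 0 := by simpa using hw
      rw [this, mul_zero]
      rfl
    simp_rw [hT, norm_zero, Real.zero_rpow (by linarith : p ≠ 0), ENNReal.ofReal_zero]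
    simp
  · set H := ∫ w, ‖g w‖ ^ 2 ∂(sg n) with hHdef
    set lam : ℝ := H ^ ((1 : ℝ) / 2) * L ^ (-((n : ℝ) - 1) / 4) with hlamdef
    have hlam : 0 < lam := by positivity
    have h3 := Lp_high (C := C₂) (q := q) hg hC₂ hp hpq hH hlam (L := L)
      (fun t ht S hS hSb hSt => h2 g hg hb t ht S hS hSb hSt)
    have h4 := Lp_low hg hb hL (h1 g hg hb L hL0 0)
    refine h3.trans ?_
    have hq' : q = (((n : ℝ) - 1) + 2) / ((n : ℝ) - 1) := by rw [hq]; congr 1; ring
    have e2 : lam ^ (p - 2) * (L * H) = H ^ (p / 2) * L ^ (1 - ((n : ℝ) - 1) * (p - 2) / 4) :=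
      Lp_alg2 hH hL0
    have e3 : lam ^ p * (H / lam ^ 2) ^ q =
        H ^ (p / 2) * L ^ (1 - ((n : ℝ) - 1) * (p - 2) / 4) := by
      rw [hq']
      exact Lp_alg3 hH hL0 hn1
    calc ENNReal.ofReal (lam ^ (p - 2)) * (∫⁻ x in closedBall (0 : E n) L,
          ENNReal.ofReal (‖T g x‖ ^ 2)) +
          ENNReal.ofReal (C₂ * 2 ^ p * lam ^ p * (H / lam ^ 2) ^ q / (1 - 2 ^ (p - 2 * q)))
        ≤ ENNReal.ofReal (lam ^ (p - 2)) * ENNReal.ofReal (Real.exp 1 * (C₁ * L * H)) +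
          ENNReal.ofReal (C₂ * 2 ^ p * lam ^ p * (H / lam ^ 2) ^ q / (1 - 2 ^ (p - 2 * q))) :=
          add_le_add_left (mul_le_mul_right h4 _) _
      _ = ENNReal.ofReal (lam ^ (p - 2) * (Real.exp 1 * (C₁ * L * H)) +
          C₂ * 2 ^ p * lam ^ p * (H / lam ^ 2) ^ q / (1 - 2 ^ (p - 2 * q))) := by
          rw [← ENNReal.ofReal_mul (by positivity), ← ENNReal.ofReal_add (by positivity)]
          positivity
      _ ≤ _ := by
          apply ENNReal.ofReal_le_ofReal
          apply le_of_eq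
          have e4 : C₂ * 2 ^ p * lam ^ p * (H / lam ^ 2) ^ q / (1 - 2 ^ (p - 2 * q)) =
              C₂ * 2 ^ p / (1 - 2 ^ (p - 2 * q)) * (lam ^ p * (H / lam ^ 2) ^ q) := by ring
          rw [e4, e3]
          linear_combination (Real.exp 1 * C₁) * e2

end Pool.Agent.H789R2.FR
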