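import Mathlib
import Pool.Agent.H789R2.FR.Defs
import Pool.Agent.H789R2.FR.Sph
set_option autoImplicit false

/-! Fourier restriction: the difference of a density with `H^s` regularity and its smoothing at
scale `R^{-1/2}` is small in `L^2`. -/

namespace Pool.Agent.H789R2.FR

open MeasureTheory Measure Set Metric Complex
open scoped ENNReal Pointwise RealInnerProductSpace

/-- `e^{-v} ≤ C_a v^{-a}`. -/
private lemma exp_neg_le_rpow {a v : ℝ} (ha : 0 < a) (hv : 0 < v) :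
    Real.exp (-v) ≤ Real.exp (a * Real.log a - a) * v ^ (-a) := by
  have h1 : Real.log (v / a) ≤ v / a - 1 := Real.log_le_sub_one_of_pos (div_pos hv ha)
  rw [Real.log_div hv.ne' ha.ne'] at h1
  have h2 : a * (Real.log v - Real.log a) ≤ v - a := by
    calc a * (Real.log v - Real.log a) ≤ a * (v / a - 1) := mul_le_mul_of_nonneg_left h1 ha.le
      _ = v - a := by field_simp
  rw [Real.rpow_def_of_pos hv, ← Real.exp_add]
  apply Real.exp_le_exp.2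
  nlinarith

/-- Weighted Jensen inequality for the average of a bounded function. -/
private lemma avg_sq {α : Type*} [MeasurableSpace α] (μ : Measure α) [IsFiniteMeasure μ]
    (ρ : α → ℝ) (hρm : Measurable ρ) (hρ0 : ∀ y, 0 ≤ ρ y) (hρ1 : ∀ y, ρ y ≤ 1)
    (g : α → ℂ) (hg : Measurable g) (M : ℝ) (hM : ∀ y, ‖g y‖ ≤ M) (z : ℂ)
    (hD : 0 < ∫ y, ρ y ∂μ) :
    ‖z - (∫ y, ((ρ y : ℝ) : ℂ) * g y ∂μ) / ((∫ y, ρ y ∂μ : ℝ) : ℂ)‖ ^ 2 ≤
      (∫ y, ρ y ∂μ)⁻¹ * ∫ y, ‖z - g y‖ ^ 2 * ρ y ∂μ := by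
  set Dd : ℝ := ∫ y, ρ y ∂μ with hDd
  have hρi : Integrable ρ μ := by
    refine Integrable.of_bound hρm.aestronglyMeasurable 1 (Filter.Eventually.of_forall fun y => ?_)
    rw [Real.norm_eq_abs, abs_of_nonneg (hρ0 y)]
    exact hρ1 y
  have hfm : Measurable (fun y => ‖z - g y‖) := (measurable_const.sub hg).norm
  have hfb : ∀ y, ‖z - g y‖ ≤ ‖z‖ + M := fun y =>
    (norm_sub_le _ _).trans (by linarith [hM y])
  have hf1 : Integrable (fun y => ρ y * ‖z - g y‖) μ := by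
    refine Integrable.of_bound (hρm.mul hfm).aestronglyMeasurable (‖z‖ + M)
      (Filter.Eventually.of_forall fun y => ?_)
    rw [Real.norm_eq_abs, abs_of_nonneg (mul_nonneg (hρ0 y) (norm_nonneg _))]
    calc ρ y * ‖z - g y‖ ≤ 1 * ‖z - g y‖ :=
          mul_le_mul_of_nonneg_right (hρ1 y) (norm_nonneg _)
      _ ≤ ‖z‖ + M := by rw [one_mul]; exact hfb y
  have hf2 : Integrable (fun y => ‖z - g y‖ ^ 2 * ρ y) μ := by
    refine Integrable.of_bound ((hfm.pow_const 2).mul hρm).aestronglyMeasurable ((‖z‖ + M) ^ 2)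
      (Filter.Eventually.of_forall fun y => ?_)
    rw [Real.norm_eq_abs, abs_of_nonneg (mul_nonneg (sq_nonneg _) (hρ0 y))]
    calc ‖z - g y‖ ^ 2 * ρ y ≤ ‖z - g y‖ ^ 2 * 1 :=
          mul_le_mul_of_nonneg_left (hρ1 y) (sq_nonneg _)
      _ ≤ (‖z‖ + M) ^ 2 := by
          rw [mul_one]
          exact pow_le_pow_left₀ (norm_nonneg _) (hfb y) 2
  have hgi : Integrable (fun y => ((ρ y : ℝ) : ℂ) * g y) μ := by
    refine Integrable.of_bound ((measurable_ofReal.comp hρm).mul hg).aestronglyMeasurable M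
      (Filter.Eventually.of_forall fun y => ?_)
    rw [norm_mul, Complex.norm_real, Real.norm_eq_abs, abs_of_nonneg (hρ0 y)]
    calc ρ y * ‖g y‖ ≤ 1 * ‖g y‖ := mul_le_mul_of_nonneg_right (hρ1 y) (norm_nonneg _)
      _ ≤ M := by rw [one_mul]; exact hM y
  have hρc : Integrable (fun y => ((ρ y : ℝ) : ℂ) * z) μ := hρi.ofReal.mul_const z
  -- the difference as an average
  have h1 : z - (∫ y, ((ρ y : ℝ) : ℂ) * g y ∂μ) / (Dd : ℂ) =
      (∫ y, ((ρ y : ℝ) : ℂ) * (z - g y) ∂μ) / (Dd : ℂ) := by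
    have hDc : (Dd : ℂ) ≠ 0 := by exact_mod_cast hD.ne'
    have h2 : ∫ y, ((ρ y : ℝ) : ℂ) * (z - g y) ∂μ =
        (Dd : ℂ) * z - ∫ y, ((ρ y : ℝ) : ℂ) * g y ∂μ := by
      simp_rw [mul_sub]
      rw [integral_sub hρc hgi, integral_mul_const, hDd, integral_complex_ofReal]
    rw [h2]
    field_simp
  have h3 : ‖∫ y, ((ρ y : ℝ) : ℂ) * (z - g y) ∂μ‖ ≤ ∫ y, ρ y * ‖z - g y‖ ∂μ := by
    refine (norm_integral_le_integral_norm _).trans (le_of_eq (integral_congr_ae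
      (Filter.Eventually.of_forall fun y => ?_)))
    simp only
    rw [norm_mul, Complex.norm_real, Real.norm_eq_abs, abs_of_nonneg (hρ0 y)]
  -- Jensen
  set I1 : ℝ := ∫ y, ρ y * ‖z - g y‖ ∂μ with hI1
  set I2 : ℝ := ∫ y, ‖z - g y‖ ^ 2 * ρ y ∂μ with hI2
  have hI1n : 0 ≤ I1 := integral_nonneg fun y => mul_nonneg (hρ0 y) (norm_nonneg _)
  have h4 : 0 ≤ I2 - 2 * (I1 / Dd) * I1 + (I1 / Dd) ^ 2 * Dd := by
    have h5 : 0 ≤ ∫ y, (‖z - g y‖ ^ 2 * ρ y - 2 * (I1 / Dd) * (ρ y * ‖z - g y‖)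
        + (I1 / Dd) ^ 2 * ρ y) ∂μ := by
      refine integral_nonneg fun y => ?_
      have : ‖z - g y‖ ^ 2 * ρ y - 2 * (I1 / Dd) * (ρ y * ‖z - g y‖) + (I1 / Dd) ^ 2 * ρ y =
        ρ y * (‖z - g y‖ - I1 / Dd) ^ 2 := by ring
      simp only [Pi.zero_apply]
      rw [this]
      exact mul_nonneg (hρ0 y) (sq_nonneg _)
    have e1 : Integrable (fun y => ‖z - g y‖ ^ 2 * ρ y -
        2 * (I1 / Dd) * (ρ y * ‖z - g y‖)) μ := hf2.sub (hf1.const_mul _)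
    have e2 : Integrable (fun y => (I1 / Dd) ^ 2 * ρ y) μ := hρi.const_mul _
    rw [integral_add e1 e2, integral_sub hf2 (hf1.const_mul _), integral_const_mul,
      integral_const_mul] at h5
    exact h5
  have h6 : I1 ^ 2 ≤ Dd * I2 := by
    have h7 : I2 - 2 * (I1 / Dd) * I1 + (I1 / Dd) ^ 2 * Dd = I2 - I1 ^ 2 / Dd := by
      field_simp
      ring
    rw [h7] at h4
    have h8 : I1 ^ 2 / Dd ≤ I2 := by linarith
    rw [div_le_iff₀ hD] at h8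
    linarith
  rw [h1, norm_div, Complex.norm_real, Real.norm_eq_abs, abs_of_pos hD, div_pow,
    div_le_iff₀ (by positivity)]
  calc ‖∫ y, ((ρ y : ℝ) : ℂ) * (z - g y) ∂μ‖ ^ 2 ≤ I1 ^ 2 :=
        pow_le_pow_left₀ (norm_nonneg _) h3 2
    _ ≤ Dd * I2 := h6
    _ = Dd⁻¹ * I2 * Dd ^ 2 := by field_simp

theorem rem_bound (n : ℕ) (hn : 2 ≤ n) (s : ℝ) (hs : 0 < s) : ∃ C : ℝ, 0 < C ∧
    ∀ g : E n → ℂ, Measurable g → (∃ M : ℝ, ∀ x, ‖g x‖ ≤ M) → ∀ K : ℝ, 0 ≤ K →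
    (∫⁻ x, ∫⁻ y, ENNReal.ofReal (‖g x - g y‖ ^ 2 / ‖x - y‖ ^ ((n : ℝ) - 1 + 2 * s))
      ∂(sg n) ∂(sg n)) ≤ ENNReal.ofReal K → ∀ R : ℝ, 1 ≤ R →
    ∫ w, ‖g w - A R g w‖ ^ 2 ∂(sg n) ≤ C * K * R ^ (-s) := by
  have := sg_finite n
  obtain ⟨c, hc, hDl⟩ := D_lower n hn
  have hn' : (2 : ℝ) ≤ n := by exact_mod_cast hn
  set a : ℝ := ((n : ℝ) - 1) / 2 + s with ha
  have ha0 : 0 < a := by rw [ha]; linarith
  set Ca : ℝ := Real.exp (a * Real.log a - a) with hCa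
  have hCa0 : 0 < Ca := Real.exp_pos _
  refine ⟨c⁻¹ * (Ca * 2 ^ a), by positivity, ?_⟩
  intro g hg ⟨M, hM⟩ K hK hle R hR
  have hR0 : 0 < R := by linarith
  by_cases hint : Integrable (fun w => ‖g w - A R g w‖ ^ 2) (sg n)
  swap
  · rw [integral_undef hint]
    positivity
  -- pointwise bound of the kernel
  have hker : ∀ w y : E n, ‖g w - g y‖ ^ 2 * Real.exp (-(R / 2) * ‖w - y‖ ^ 2) ≤
      (Ca * 2 ^ a * R ^ (-a)) * (‖g w - g y‖ ^ 2 / ‖w - y‖ ^ ((n : ℝ) - 1 + 2 * s)) := by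
    intro w y
    rcases eq_or_ne w y with rfl | hwy
    · simp
    · have hr : 0 < ‖w - y‖ := norm_pos_iff.2 (sub_ne_zero.2 hwy)
      have hv : 0 < (R / 2) * ‖w - y‖ ^ 2 := by positivity
      have h1 := exp_neg_le_rpow ha0 hv
      have h2 : ((R / 2) * ‖w - y‖ ^ 2) ^ (-a) =
          2 ^ a * R ^ (-a) * (‖w - y‖ ^ ((n : ℝ) - 1 + 2 * s))⁻¹ := by
        rw [Real.mul_rpow (by positivity) (by positivity), Real.div_rpow hR0.le (by norm_num),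
          ← Real.rpow_natCast, ← Real.rpow_mul hr.le, ← Real.rpow_neg hr.le,
          Real.rpow_neg (by norm_num : (0:ℝ) ≤ 2)]
        have : ((2 : ℕ) : ℝ) * -a = -((n : ℝ) - 1 + 2 * s) := by
          rw [ha]; push_cast; ring
        rw [this]
        field_simp
      rw [h2] at h1
      calc ‖g w - g y‖ ^ 2 * Real.exp (-(R / 2) * ‖w - y‖ ^ 2)
          = ‖g w - g y‖ ^ 2 * Real.exp (-((R / 2) * ‖w - y‖ ^ 2)) := by
            rw [neg_mul]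
        _ ≤ ‖g w - g y‖ ^ 2 * (Ca * (2 ^ a * R ^ (-a) *
            (‖w - y‖ ^ ((n : ℝ) - 1 + 2 * s))⁻¹)) :=
            mul_le_mul_of_nonneg_left h1 (sq_nonneg _)
        _ = _ := by rw [div_eq_mul_inv]; ring
  have hρm : ∀ w : E n, Measurable (fun y : E n => Real.exp (-(R / 2) * ‖w - y‖ ^ 2)) := by
    intro w
    fun_prop
  have hρ1 : ∀ w y : E n, Real.exp (-(R / 2) * ‖w - y‖ ^ 2) ≤ 1 := by
    intro w y
    apply Real.exp_le_one_iff.2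
    have : 0 ≤ (R / 2) * ‖w - y‖ ^ 2 := by positivity
    linarith [neg_mul (R / 2) (‖w - y‖ ^ 2)]
  -- pointwise bound
  have hpt : ∀ w : E n, ‖w‖ = 1 → ENNReal.ofReal (‖g w - A R g w‖ ^ 2) ≤
      ENNReal.ofReal (c⁻¹ * (Ca * 2 ^ a) * R ^ (-s)) *
      ∫⁻ y, ENNReal.ofReal (‖g w - g y‖ ^ 2 / ‖w - y‖ ^ ((n : ℝ) - 1 + 2 * s)) ∂(sg n) := by
    intro w hw
    have hD0 : c * R ^ (-((n : ℝ) - 1) / 2) ≤ D R w := hDl R hR w hw
    have hcR : 0 < c * R ^ (-((n : ℝ) - 1) / 2) := by positivity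
    have hDpos : 0 < D R w := lt_of_lt_of_le hcR hD0
    have h1 := avg_sq (sg n) (fun y => Real.exp (-(R / 2) * ‖w - y‖ ^ 2)) (hρm w)
      (fun y => (Real.exp_pos _).le) (hρ1 w) g hg M hM (g w) hDpos
    have h2 : ‖g w - A R g w‖ ^ 2 ≤ (D R w)⁻¹ *
      ∫ y, ‖g w - g y‖ ^ 2 * Real.exp (-(R / 2) * ‖w - y‖ ^ 2) ∂(sg n) := h1
    have hI0 : 0 ≤ ∫ y, ‖g w - g y‖ ^ 2 * Real.exp (-(R / 2) * ‖w - y‖ ^ 2) ∂(sg n) :=
      integral_nonneg fun y => mul_nonneg (sq_nonneg _) (Real.exp_pos _).le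
    have h3 : ‖g w - A R g w‖ ^ 2 ≤ (c⁻¹ * R ^ (((n : ℝ) - 1) / 2)) *
      ∫ y, ‖g w - g y‖ ^ 2 * Real.exp (-(R / 2) * ‖w - y‖ ^ 2) ∂(sg n) := by
      refine h2.trans (mul_le_mul_of_nonneg_right ?_ hI0)
      have h4 : (D R w)⁻¹ ≤ (c * R ^ (-((n : ℝ) - 1) / 2))⁻¹ := inv_anti₀ hcR hD0
      refine h4.trans (le_of_eq ?_)
      rw [mul_inv, ← Real.rpow_neg hR0.le]
      congr 2
      ring
    have h5 : ENNReal.ofReal (∫ y, ‖g w - g y‖ ^ 2 *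
        Real.exp (-(R / 2) * ‖w - y‖ ^ 2) ∂(sg n)) ≤
        ENNReal.ofReal (Ca * 2 ^ a * R ^ (-a)) *
        ∫⁻ y, ENNReal.ofReal (‖g w - g y‖ ^ 2 / ‖w - y‖ ^ ((n : ℝ) - 1 + 2 * s)) ∂(sg n) := by
      rw [← lintegral_const_mul' _ _ ENNReal.ofReal_ne_top]
      by_cases hi : Integrable (fun y => ‖g w - g y‖ ^ 2 *
        Real.exp (-(R / 2) * ‖w - y‖ ^ 2)) (sg n)
      · rw [ofReal_integral_eq_lintegral_ofReal hi
          (Filter.Eventually.of_forall fun y => mul_nonneg (sq_nonneg _) (Real.exp_pos _).le)]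
        refine lintegral_mono fun y => ?_
        rw [← ENNReal.ofReal_mul (by positivity)]
        exact ENNReal.ofReal_le_ofReal (hker w y)
      · rw [integral_undef hi]
        simp
    calc ENNReal.ofReal (‖g w - A R g w‖ ^ 2)
        ≤ ENNReal.ofReal ((c⁻¹ * R ^ (((n : ℝ) - 1) / 2)) *
          ∫ y, ‖g w - g y‖ ^ 2 * Real.exp (-(R / 2) * ‖w - y‖ ^ 2) ∂(sg n)) :=
          ENNReal.ofReal_le_ofReal h3
      _ = ENNReal.ofReal (c⁻¹ * R ^ (((n : ℝ) - 1) / 2)) * ENNReal.ofReal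
          (∫ y, ‖g w - g y‖ ^ 2 * Real.exp (-(R / 2) * ‖w - y‖ ^ 2) ∂(sg n)) :=
          ENNReal.ofReal_mul (by positivity)
      _ ≤ ENNReal.ofReal (c⁻¹ * R ^ (((n : ℝ) - 1) / 2)) *
          (ENNReal.ofReal (Ca * 2 ^ a * R ^ (-a)) *
          ∫⁻ y, ENNReal.ofReal (‖g w - g y‖ ^ 2 / ‖w - y‖ ^ ((n : ℝ) - 1 + 2 * s)) ∂(sg n)) :=
          mul_le_mul_right h5 _
      _ = _ := by
          rw [← mul_assoc, ← ENNReal.ofReal_mul (by positivity)]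
          congr 2
          have : R ^ (-s) = R ^ (((n : ℝ) - 1) / 2) * R ^ (-a) := by
            rw [← Real.rpow_add hR0]
            congr 1
            rw [ha]; ring
          rw [this]
          ring
  -- integrate
  have hfin : ENNReal.ofReal (∫ w, ‖g w - A R g w‖ ^ 2 ∂(sg n)) ≤
      ENNReal.ofReal (c⁻¹ * (Ca * 2 ^ a) * K * R ^ (-s)) := by
    rw [ofReal_integral_eq_lintegral_ofReal hint
      (Filter.Eventually.of_forall fun y => sq_nonneg _)]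
    calc ∫⁻ w, ENNReal.ofReal (‖g w - A R g w‖ ^ 2) ∂(sg n)
        ≤ ∫⁻ w, ENNReal.ofReal (c⁻¹ * (Ca * 2 ^ a) * R ^ (-s)) *
          (∫⁻ y, ENNReal.ofReal (‖g w - g y‖ ^ 2 / ‖w - y‖ ^ ((n : ℝ) - 1 + 2 * s)) ∂(sg n))
          ∂(sg n) := lintegral_mono_ae ((sg_ae n).mono hpt)
      _ = ENNReal.ofReal (c⁻¹ * (Ca * 2 ^ a) * R ^ (-s)) *
          ∫⁻ w, (∫⁻ y, ENNReal.ofReal (‖g w - g y‖ ^ 2 /
            ‖w - y‖ ^ ((n : ℝ) - 1 + 2 * s)) ∂(sg n)) ∂(sg n) :=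
          lintegral_const_mul' _ _ ENNReal.ofReal_ne_top
      _ ≤ ENNReal.ofReal (c⁻¹ * (Ca * 2 ^ a) * R ^ (-s)) * ENNReal.ofReal K :=
          mul_le_mul_right hle _
      _ = _ := by
          rw [← ENNReal.ofReal_mul (by positivity)]
          congr 1
          ring
  exact (ENNReal.ofReal_le_ofReal_iff (by positivity)).1 hfin

end Pool.Agent.H789R2.FR
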