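import Mathlib
import Pool.Agent.H789R2.FR.Defs3
set_option autoImplicit false

/-! Cartesian and cylindrical integration in `ℝ^3`. -/

namespace Pool.Agent.H789R2.FR

open MeasureTheory Measure Set Metric Complex
open scoped ENNReal Pointwise RealInnerProductSpace

lemma measurable_vec3 : Measurable fun p : ℝ × ℝ × ℝ => (!₂[p.1, p.2.1, p.2.2] : E 3) := by
  apply Measurable.comp (WithLp.measurable_toLp 2 _)
  rw [measurable_pi_iff]
  intro i
  fin_cases i
  · exact measurable_fst
  · exact measurable_fst.comp measurable_snd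
  · exact measurable_snd.comp measurable_snd

theorem cart_lint (F : E 3 → ℝ≥0∞) (hF : Measurable F) :
    ∫⁻ x, F x = ∫⁻ a : ℝ, ∫⁻ b : ℝ, ∫⁻ z : ℝ, F !₂[a, b, z] := by
  have h1 : ∫⁻ x : E 3, F x = ∫⁻ y : Fin 3 → ℝ, F (WithLp.toLp 2 y) :=
    ((PiLp.volume_preserving_toLp (Fin 3)).lintegral_comp hF).symm
  have hG : Measurable fun y : Fin 3 → ℝ => F (WithLp.toLp 2 y) :=
    hF.comp (WithLp.measurable_toLp 2 _)
  have h2 := (volume_preserving_piFinSuccAbove (fun _ : Fin 3 => ℝ) 0).symm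
  have h3 := (volume_preserving_finTwoArrow ℝ).symm
  have hGc : Measurable fun p : ℝ × (Fin 2 → ℝ) =>
      F (WithLp.toLp 2 ((MeasurableEquiv.piFinSuccAbove (fun _ : Fin 3 => ℝ) 0).symm p)) :=
    hG.comp h2.measurable
  rw [h1, ← h2.lintegral_comp hG, Measure.volume_eq_prod, lintegral_prod _ hGc.aemeasurable]
  apply lintegral_congr
  intro a
  have hGa : Measurable fun y : Fin 2 → ℝ =>
      F (WithLp.toLp 2 ((MeasurableEquiv.piFinSuccAbove (fun _ : Fin 3 => ℝ) 0).symm (a, y))) :=
    (hG.comp h2.measurable).comp measurable_prodMk_left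
  have h4 : ∫⁻ y : Fin 2 → ℝ,
      F (WithLp.toLp 2 ((MeasurableEquiv.piFinSuccAbove (fun _ : Fin 3 => ℝ) 0).symm (a, y))) =
      ∫⁻ q : ℝ × ℝ, F !₂[a, q.1, q.2] := by
    rw [← h3.lintegral_comp hGa]
    apply lintegral_congr
    intro q
    congr 1
    ext i
    fin_cases i <;> rfl
  refine Eq.trans h4 ?_
  rw [Measure.volume_eq_prod, lintegral_prod]
  apply Measurable.aemeasurable
  exact hF.comp (measurable_vec3.comp measurable_prodMk_left)

theorem cyl_lint (F : E 3 → ℝ≥0∞) (hF : Measurable F) :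
    ∫⁻ x, F x = ∫⁻ r in Ioi (0 : ℝ), ∫⁻ α in Ioo (-Real.pi) Real.pi, ∫⁻ z : ℝ,
      ENNReal.ofReal r * F (cyl r α z) := by
  rw [cart_lint F hF]
  have hm : Measurable fun p : (ℝ × ℝ) × ℝ => F !₂[p.1.1, p.1.2, p.2] :=
    hF.comp (measurable_vec3.comp ((measurable_fst.comp measurable_fst).prodMk
      ((measurable_snd.comp measurable_fst).prodMk measurable_snd)))
  have hg : Measurable fun p : ℝ × ℝ => ∫⁻ z : ℝ, F !₂[p.1, p.2, z] := hm.lintegral_prod_right
  have h1 : ∫⁻ a : ℝ, ∫⁻ b : ℝ, ∫⁻ z : ℝ, F !₂[a, b, z] =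
      ∫⁻ p : ℝ × ℝ, ∫⁻ z : ℝ, F !₂[p.1, p.2, z] := by
    rw [Measure.volume_eq_prod, lintegral_prod _ hg.aemeasurable]
  rw [h1, ← lintegral_comp_polarCoord_symm, polarCoord_target, Measure.volume_eq_prod,
    setLIntegral_prod]
  · apply lintegral_congr
    intro r
    apply lintegral_congr
    intro α
    rw [smul_eq_mul, ← lintegral_const_mul]
    · rfl
    · exact hF.comp (measurable_vec3.comp (measurable_const.prodMk
        (measurable_const.prodMk measurable_id)))
  · apply Measurable.aemeasurable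
    apply Measurable.mul
    · exact measurable_fst.ennreal_ofReal
    · refine hg.comp ?_
      exact ((measurable_fst.mul (Real.measurable_cos.comp measurable_snd)).prodMk
        (measurable_fst.mul (Real.measurable_sin.comp measurable_snd)))

end Pool.Agent.H789R2.FR
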