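import Mathlib
import Pool.Agent.H789R2.FR.Defs3
import Pool.Agent.H789R2.FR.Sph
import Pool.Agent.H789R2.FR.Cyl
set_option autoImplicit false

/-! Surface measure of the sphere in cylindrical coordinates (Archimedes). -/

namespace Pool.Agent.H789R2.FR

open MeasureTheory Measure Set Metric Complex
open scoped ENNReal Pointwise RealInnerProductSpace

lemma measurable_sc : Measurable sc := by
  unfold sc
  exact Real.continuous_sqrt.measurable.comp (measurable_const.sub (measurable_id.pow_const 2))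

lemma measurable_pt : Measurable fun p : ℝ × ℝ => pt p.1 p.2 := by
  unfold pt
  exact measurable_vec3.comp
    (((measurable_sc.comp measurable_fst).mul (Real.measurable_cos.comp measurable_snd)).prodMk
      (((measurable_sc.comp measurable_fst).mul
        (Real.measurable_sin.comp measurable_snd)).prodMk measurable_fst))

/-- Substitution `c = cos t`. -/
lemma subst_cos (h : ℝ → ℝ≥0∞) :
    ∫⁻ c in Ioo (-1 : ℝ) 1, h c =
      ∫⁻ t in Ioo (0 : ℝ) Real.pi, ENNReal.ofReal (Real.sin t) * h (Real.cos t) := by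
  have himg : Real.cos '' Ioo (0 : ℝ) Real.pi = Ioo (-1 : ℝ) 1 := by
    ext c
    constructor
    · rintro ⟨t, ht, rfl⟩
      have h1 := Real.strictAntiOn_cos (show (0:ℝ) ∈ Icc 0 Real.pi from ⟨le_rfl, Real.pi_pos.le⟩)
        (show t ∈ Icc 0 Real.pi from ⟨ht.1.le, ht.2.le⟩) ht.1
      have h2 := Real.strictAntiOn_cos (show t ∈ Icc 0 Real.pi from ⟨ht.1.le, ht.2.le⟩)
        (show Real.pi ∈ Icc 0 Real.pi from ⟨Real.pi_pos.le, le_rfl⟩) ht.2
      rw [Real.cos_zero] at h1
      rw [Real.cos_pi] at h2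
      exact ⟨h2, h1⟩
    · intro hc
      refine ⟨Real.arccos c, ⟨Real.arccos_pos.2 hc.2, ?_⟩, Real.cos_arccos hc.1.le hc.2.le⟩
      rw [Real.arccos_lt_pi]
      exact hc.1
  have hinj : InjOn Real.cos (Ioo (0 : ℝ) Real.pi) :=
    Real.injOn_cos.mono Ioo_subset_Icc_self
  rw [← himg, lintegral_image_eq_lintegral_abs_deriv_mul measurableSet_Ioo
    (fun t _ => (Real.hasDerivAt_cos t).hasDerivWithinAt) hinj]
  apply setLIntegral_congr_fun measurableSet_Ioo
  intro t ht
  simp only
  rw [abs_neg, abs_of_pos (Real.sin_pos_of_mem_Ioo ht)]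

/-- Polar coordinates in the half plane. -/
lemma half_polar (G : ℝ → ℝ → ℝ≥0∞) (hG : Measurable fun p : ℝ × ℝ => G p.1 p.2) :
    ∫⁻ r in Ioi (0 : ℝ), ∫⁻ z : ℝ, ENNReal.ofReal r * G z r =
      ∫⁻ R in Ioi (0 : ℝ), ∫⁻ c in Ioo (-1 : ℝ) 1,
        ENNReal.ofReal (R ^ 2) * G (R * c) (R * sc c) := by
  have hf : Measurable fun p : ℝ × ℝ => (Ioi (0 : ℝ)).indicator
      (fun r => ENNReal.ofReal r * G p.1 r) p.2 := by
    have : (fun p : ℝ × ℝ => (Ioi (0 : ℝ)).indicator
      (fun r => ENNReal.ofReal r * G p.1 r) p.2) =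
      (Prod.snd ⁻¹' (Ioi (0 : ℝ))).indicator
        (fun p : ℝ × ℝ => ENNReal.ofReal p.2 * G p.1 p.2) := by
      ext p
      simp only [indicator, mem_preimage]
    rw [this]
    exact (measurable_snd.ennreal_ofReal.mul hG).indicator
      (measurable_snd measurableSet_Ioi)
  have h1 : ∫⁻ r in Ioi (0 : ℝ), ∫⁻ z : ℝ, ENNReal.ofReal r * G z r =
      ∫⁻ p : ℝ × ℝ, (Ioi (0 : ℝ)).indicator (fun r => ENNReal.ofReal r * G p.1 r) p.2 := by
    rw [Measure.volume_eq_prod, lintegral_prod_symm _ hf.aemeasurable,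
      ← lintegral_indicator measurableSet_Ioi]
    apply lintegral_congr
    intro r
    by_cases hr : r ∈ Ioi (0 : ℝ)
    · simp [indicator_of_mem hr]
    · simp [indicator_of_notMem hr]
  rw [h1, ← lintegral_comp_polarCoord_symm, polarCoord_target, Measure.volume_eq_prod,
    setLIntegral_prod]
  · apply setLIntegral_congr_fun measurableSet_Ioi
    intro R hR
    have hR' : (0 : ℝ) < R := hR
    simp only [polarCoord_symm_apply, smul_eq_mul]
    rw [subst_cos (fun c => ENNReal.ofReal (R ^ 2) * G (R * c) (R * sc c))]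
    rw [← lintegral_indicator measurableSet_Ioo, ← lintegral_indicator measurableSet_Ioo]
    apply lintegral_congr
    intro t
    by_cases ht : t ∈ Ioo (0 : ℝ) Real.pi
    · have ht2 : t ∈ Ioo (-Real.pi) Real.pi := ⟨by linarith [ht.1, Real.pi_pos], ht.2⟩
      have hs : 0 < Real.sin t := Real.sin_pos_of_mem_Ioo ht
      rw [indicator_of_mem ht2, indicator_of_mem ht,
        indicator_of_mem (show R * Real.sin t ∈ Ioi (0 : ℝ) from mul_pos hR' hs)]
      have hsc : sc (Real.cos t) = Real.sin t := by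
        unfold sc
        rw [← Real.sin_sq, Real.sqrt_sq hs.le]
      rw [hsc, ← mul_assoc, ← mul_assoc, ← ENNReal.ofReal_mul hR'.le,
        ← ENNReal.ofReal_mul hs.le]
      congr 2
      ring
    · rw [indicator_of_notMem ht]
      by_cases ht2 : t ∈ Ioo (-Real.pi) Real.pi
      · rw [indicator_of_mem ht2]
        have hs : Real.sin t ≤ 0 := by
          apply Real.sin_nonpos_of_nonpos_of_neg_pi_le _ ht2.1.le
          by_contra hcon
          exact ht ⟨not_le.1 hcon, ht2.2⟩
        rw [indicator_of_notMem, mul_zero]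
        simp only [mem_Ioi, not_lt]
        exact mul_nonpos_of_nonneg_of_nonpos hR'.le hs
      · rw [indicator_of_notMem ht2]
  · apply Measurable.aemeasurable
    apply Measurable.mul
    · exact measurable_fst.ennreal_ofReal
    · refine hf.comp ?_
      exact ((measurable_fst.mul (Real.measurable_cos.comp measurable_snd)).prodMk
        (measurable_fst.mul (Real.measurable_sin.comp measurable_snd)))

lemma measurable_cyl : Measurable fun p : ℝ × ℝ × ℝ => cyl p.1 p.2.1 p.2.2 := by
  unfold cyl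
  exact measurable_vec3.comp
    ((measurable_fst.mul (Real.measurable_cos.comp (measurable_fst.comp measurable_snd))).prodMk
      ((measurable_fst.mul (Real.measurable_sin.comp (measurable_fst.comp measurable_snd))).prodMk
        (measurable_snd.comp measurable_snd)))

lemma cyl_pt (R α c : ℝ) : cyl (R * sc c) α (R * c) = R • pt c α := by
  unfold cyl pt
  ext i
  fin_cases i <;> simp [mul_assoc]

lemma norm_pt {c : ℝ} (hc : c ∈ Ioo (-1 : ℝ) 1) (φ : ℝ) : ‖pt c φ‖ = 1 := by
  have h1 : 0 ≤ 1 - c ^ 2 := by nlinarith [hc.1, hc.2]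
  have h2 : sc c ^ 2 = 1 - c ^ 2 := Real.sq_sqrt h1
  rw [EuclideanSpace.norm_eq]
  unfold pt
  simp only [Fin.sum_univ_three, Real.norm_eq_abs, sq_abs]
  have : (sc c * Real.cos φ) ^ 2 + (sc c * Real.sin φ) ^ 2 + c ^ 2 = 1 := by
    have h3 := Real.sin_sq_add_cos_sq φ
    have : (sc c * Real.cos φ) ^ 2 + (sc c * Real.sin φ) ^ 2 + c ^ 2 =
      sc c ^ 2 * (Real.sin φ ^ 2 + Real.cos φ ^ 2) + c ^ 2 := by ring
    rw [this, h3, h2]; ring
  simpa using this

/-- Archimedes: the surface measure in the coordinates height and longitude. -/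
theorem arch (F : E 3 → ℝ≥0∞) (hF : Measurable F) :
    ∫⁻ x, F x ∂(sg 3) =
      ∫⁻ c in Ioo (-1 : ℝ) 1, ∫⁻ φ in Ioo (-Real.pi) Real.pi, F (pt c φ) := by
  set Φ : E 3 → ℝ≥0∞ := fun x => (ball (0 : E 3) 1).indicator (fun x => F (‖x‖⁻¹ • x)) x with hΦ
  have hΦm : Measurable Φ := by
    apply Measurable.indicator _ measurableSet_ball
    exact hF.comp (measurable_norm.inv.smul measurable_id)
  set c₀ : ℝ≥0∞ := ∫⁻ r in Ioo (0 : ℝ) 1, ENNReal.ofReal (r ^ 2) with hc₀
  have hc0 : c₀ ≠ 0 := by
    rw [hc₀]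
    intro hcon
    rw [lintegral_eq_zero_iff (by fun_prop)] at hcon
    have h1 : ∀ᵐ r ∂(volume.restrict (Ioo (0 : ℝ) 1)), False := by
      filter_upwards [hcon, ae_restrict_mem measurableSet_Ioo] with r hr hr2
      simp only [Pi.zero_apply, ENNReal.ofReal_eq_zero] at hr
      have : 0 < r ^ 2 := pow_pos hr2.1 2
      linarith
    rw [Filter.eventually_false_iff_eq_bot, ae_eq_bot, restrict_eq_zero, Real.volume_Ioo] at h1
    norm_num at h1
  have hc1 : c₀ ≠ ∞ := by
    have h1 : c₀ ≤ ∫⁻ r in Ioo (0 : ℝ) 1, 1 := by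
      apply setLIntegral_mono' measurableSet_Ioo
      intro r hr
      rw [← ENNReal.ofReal_one]
      apply ENNReal.ofReal_le_ofReal
      exact pow_le_one₀ hr.1.le hr.2.le
    rw [setLIntegral_const, Real.volume_Ioo] at h1
    exact ne_top_of_le_ne_top (by simp) h1
  -- radial computation
  have hrad : ∀ w : E 3, ‖w‖ = 1 →
      ∫⁻ r in Ioi (0 : ℝ), ENNReal.ofReal (r ^ 2) * Φ (r • w) = c₀ * F w := by
    intro w hw
    rw [hc₀, ← lintegral_mul_const _ (by fun_prop), ← lintegral_indicator measurableSet_Ioi,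
      ← lintegral_indicator measurableSet_Ioo]
    apply lintegral_congr
    intro r
    by_cases hr : r ∈ Ioi (0 : ℝ)
    · have hr0 : (0 : ℝ) < r := hr
      rw [indicator_of_mem hr]
      have hn : ‖r • w‖ = r := by rw [norm_smul, hw, mul_one, Real.norm_of_nonneg hr0.le]
      by_cases hr1 : r < 1
      · rw [indicator_of_mem (show r ∈ Ioo (0 : ℝ) 1 from ⟨hr0, hr1⟩)]
        simp only [hΦ]
        rw [indicator_of_mem (by rw [mem_ball_zero_iff, hn]; exact hr1), hn, smul_smul,
          inv_mul_cancel₀ hr0.ne', one_smul]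
      · rw [indicator_of_notMem (show r ∉ Ioo (0 : ℝ) 1 from fun h => hr1 h.2)]
        simp only [hΦ]
        rw [indicator_of_notMem (by rw [mem_ball_zero_iff, hn]; exact hr1), mul_zero]
    · rw [indicator_of_notMem hr, indicator_of_notMem fun h => hr h.1]
  have hA : ∫⁻ x, Φ x = c₀ * ∫⁻ x, F x ∂(sg 3) := by
    rw [polar (by norm_num) Φ hΦm, ← lintegral_const_mul _ hF]
    apply lintegral_congr_ae
    filter_upwards [sg_ae 3] with w hw
    exact hrad w hw
  -- cylindrical computation
  have hm3 : Measurable fun p : (ℝ × ℝ) × ℝ => ENNReal.ofReal p.1.1 * Φ (cyl p.1.1 p.1.2 p.2) :=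
    (measurable_fst.comp measurable_fst).ennreal_ofReal.mul
      (hΦm.comp (measurable_cyl.comp ((measurable_fst.comp measurable_fst).prodMk
        ((measurable_snd.comp measurable_fst).prodMk measurable_snd))))
  have hm2 : Measurable fun p : ℝ × ℝ => ∫⁻ z : ℝ, ENNReal.ofReal p.1 * Φ (cyl p.1 p.2 z) :=
    hm3.lintegral_prod_right
  have hmF : Measurable fun p : ℝ × ℝ => F (pt p.1 p.2) := hF.comp measurable_pt
  have hB : ∫⁻ x, Φ x = c₀ * ∫⁻ α in Ioo (-Real.pi) Real.pi, ∫⁻ c in Ioo (-1 : ℝ) 1,
      F (pt c α) := by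
    rw [cyl_lint Φ hΦm, lintegral_lintegral_swap hm2.aemeasurable, ← lintegral_const_mul]
    · apply lintegral_congr
      intro α
      rw [half_polar (fun z r => Φ (cyl r α z))]
      · rw [hc₀, ← lintegral_mul_const _ (by fun_prop), ← lintegral_indicator measurableSet_Ioi,
          ← lintegral_indicator measurableSet_Ioo]
        apply lintegral_congr
        intro R
        by_cases hR : R ∈ Ioi (0 : ℝ)
        · have hR0 : (0 : ℝ) < R := hR
          rw [indicator_of_mem hR]
          by_cases hR1 : R < 1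
          · rw [indicator_of_mem (show R ∈ Ioo (0 : ℝ) 1 from ⟨hR0, hR1⟩), ← lintegral_const_mul]
            · apply setLIntegral_congr_fun measurableSet_Ioo
              intro c hc
              simp only [hΦ]
              have hn : ‖R • pt c α‖ = R := by
                rw [norm_smul, norm_pt hc, mul_one, Real.norm_of_nonneg hR0.le]
              rw [cyl_pt, indicator_of_mem (by rw [mem_ball_zero_iff, hn]; exact hR1), hn,
                smul_smul, inv_mul_cancel₀ hR0.ne', one_smul]
            · exact hmF.comp (measurable_id.prodMk measurable_const)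
          · rw [indicator_of_notMem (show R ∉ Ioo (0 : ℝ) 1 from fun h => hR1 h.2)]
            rw [setLIntegral_congr_fun (g := fun _ => 0) measurableSet_Ioo]
            · simp
            · intro c hc
              have hn : ‖R • pt c α‖ = R := by
                rw [norm_smul, norm_pt hc, mul_one, Real.norm_of_nonneg hR0.le]
              simp only [hΦ]
              rw [cyl_pt, indicator_of_notMem (by rw [mem_ball_zero_iff, hn]; exact hR1),
                mul_zero]
        · rw [indicator_of_notMem hR, indicator_of_notMem fun h => hR h.1]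
      · exact hΦm.comp (measurable_cyl.comp (measurable_snd.prodMk
          (measurable_const.prodMk measurable_fst)))
    · have hsw : Measurable fun p : ℝ × ℝ => F (pt p.2 p.1) := hmF.comp measurable_swap
      exact hsw.lintegral_prod_right
  have hC : ∫⁻ α in Ioo (-Real.pi) Real.pi, ∫⁻ c in Ioo (-1 : ℝ) 1, F (pt c α) =
      ∫⁻ c in Ioo (-1 : ℝ) 1, ∫⁻ α in Ioo (-Real.pi) Real.pi, F (pt c α) :=
    lintegral_lintegral_swap (hmF.comp measurable_swap).aemeasurable
  rw [hC, hA] at hB
  exact (ENNReal.mul_right_inj hc0 hc1).1 hB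

lemma sg_eq_map : sg 3 = Measure.map (fun p : ℝ × ℝ => pt p.1 p.2)
    ((volume.restrict (Ioo (-1 : ℝ) 1)).prod (volume.restrict (Ioo (-Real.pi) Real.pi))) := by
  ext A hA
  have h1 := arch (A.indicator 1) (measurable_one.indicator hA)
  rw [lintegral_indicator_one hA] at h1
  rw [h1, ← lintegral_indicator_one hA, lintegral_map (measurable_one.indicator hA) measurable_pt,
    lintegral_prod]
  exact ((measurable_one.indicator hA).comp measurable_pt).aemeasurable

theorem arch_int (F : E 3 → ℂ) (hF : Measurable F) (hb : ∃ M : ℝ, ∀ x, ‖F x‖ ≤ M) :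
    ∫ x, F x ∂(sg 3) =
      ∫ c in Ioo (-1 : ℝ) 1, ∫ φ in Ioo (-Real.pi) Real.pi, F (pt c φ) := by
  obtain ⟨M, hM⟩ := hb
  rw [sg_eq_map, integral_map measurable_pt.aemeasurable hF.aestronglyMeasurable, integral_prod]
  apply Integrable.of_bound (C := M)
  · exact (hF.comp measurable_pt).aestronglyMeasurable
  · exact Filter.Eventually.of_forall fun p => hM _

end Pool.Agent.H789R2.FR
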