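import Mathlib
import Pool.Agent.H789R2.FR.Defs3
set_option autoImplicit false

/-! Definitions for the refined theorem in `ℝ^3` (regularity only in longitude, threshold `1/5`). -/

namespace Pool.Agent.H789R2.FR

open MeasureTheory Measure Set Metric Complex
open scoped ENNReal Pointwise RealInnerProductSpace

/-- Total mass of the weight `exp (-κ (1 - cos h))` on the circle. -/
noncomputable def kz (κ : ℝ) : ℝ :=
  ∫ h in Ioo (-Real.pi) Real.pi, Real.exp (-κ * (1 - Real.cos h))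

/-- Average over longitudes with the weight `exp (-κ (1 - cos h))`. -/
noncomputable def Av (κ : ℝ) (G : E 3 → ℂ) (x : E 3) : ℂ :=
  (kz κ : ℂ)⁻¹ * ∫ h in Ioo (-Real.pi) Real.pi,
    ((Real.exp (-κ * (1 - Real.cos h)) : ℝ) : ℂ) * G (rot (-h) x)

/-- Points whose longitude `φ` satisfies `|sin (φ - a)| ≤ w`. -/
def St (a w : ℝ) : Set (E 3) :=
  {x | |x 1 * Real.cos a - x 0 * Real.sin a| ≤ w * Real.sqrt (x 0 ^ 2 + x 1 ^ 2)}

/-- Cylindrical shell. -/
def shl (ρ : ℝ) : Set (E 3) :=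
  {x | ρ ^ 2 ≤ x 0 ^ 2 + x 1 ^ 2 ∧ x 0 ^ 2 + x 1 ^ 2 < (2 * ρ) ^ 2}

end Pool.Agent.H789R2.FR
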