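import Mathlib
import Pool.Agent.H789R2.FR.Defs6
import Pool.Agent.H789R2.FR.Sph
set_option autoImplicit false

/-! Task V2: elementary facts on the averages `Av`. -/

namespace Pool.Agent.H789R2.FR

open MeasureTheory Measure Set Metric Complex
open scoped ENNReal Pointwise RealInnerProductSpace

namespace AvP

/-! ### rotations -/

theorem rot_rot (a b : ℝ) (x : E 3) : rot a (rot b x) = rot (a + b) x := by
  ext i
  fin_cases i
  · simp [rot, Real.cos_add, Real.sin_add]; ring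
  · simp [rot, Real.cos_add, Real.sin_add]; ring
  · simp [rot]

theorem rot_zero (x : E 3) : rot 0 x = x := by
  ext i
  fin_cases i <;> simp [rot]

theorem rot_norm (h : ℝ) (x : E 3) : ‖rot h x‖ = ‖x‖ := by
  rw [EuclideanSpace.norm_eq, EuclideanSpace.norm_eq]
  congr 1
  simp only [Fin.sum_univ_three, Real.norm_eq_abs, sq_abs]
  simp [rot]
  have := Real.sin_sq_add_cos_sq h
  linear_combination (x 0 ^ 2 + x 1 ^ 2) * this

/-- rotation as a linear isometry equivalence -/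
noncomputable def rotL (h : ℝ) : E 3 ≃ₗᵢ[ℝ] E 3 where
  toFun := rot h
  invFun := rot (-h)
  left_inv x := by rw [rot_rot, neg_add_cancel, rot_zero]
  right_inv x := by rw [rot_rot, add_neg_cancel, rot_zero]
  map_add' x y := by
    ext i
    fin_cases i
    · simp [rot]; ring
    · simp [rot]; ring
    · simp [rot]
  map_smul' c x := by
    ext i
    fin_cases i
    · simp [rot]; ring
    · simp [rot]; ring
    · simp [rot]
  norm_map' x := rot_norm h x

theorem rot_mp (h : ℝ) : MeasurePreserving (rot h) (sg 3) (sg 3) := sg_inv (rotL h)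

theorem rot_comp (h : ℝ) (f : E 3 → ℝ) : ∫ x, f (rot h x) ∂(sg 3) = ∫ x, f x ∂(sg 3) :=
  (rot_mp h).integral_comp (rotL h).toHomeomorph.measurableEmbedding f

theorem rot_cont : Continuous (fun p : E 3 × ℝ => rot (-p.2) p.1) := by
  unfold rot
  refine (PiLp.continuous_toLp 2 _).comp ?_
  refine continuous_pi ?_
  intro i
  fin_cases i
  · simp only [Fin.zero_eta, Matrix.cons_val_zero]
    fun_prop
  · simp only [Fin.mk_one, Matrix.cons_val_one, Matrix.cons_val_zero]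
    fun_prop
  · simp only [Fin.reduceFinMk, Matrix.cons_val]
    fun_prop

theorem G_meas (G : E 3 → ℂ) (hG : Measurable G) :
    Measurable (fun p : E 3 × ℝ => G (rot (-p.2) p.1)) :=
  hG.comp rot_cont.measurable

theorem G_meas_x (G : E 3 → ℂ) (hG : Measurable G) (x : E 3) :
    Measurable (fun h : ℝ => G (rot (-h) x)) :=
  (G_meas G hG).comp (measurable_const.prodMk measurable_id)

theorem G_meas_h (G : E 3 → ℂ) (hG : Measurable G) (h : ℝ) :
    Measurable (fun x : E 3 => G (rot (-h) x)) :=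
  (G_meas G hG).comp (measurable_id.prodMk measurable_const)

/-! ### the probability measure -/

/-- the weight -/
noncomputable def wt (κ h : ℝ) : ℝ := Real.exp (-κ * (1 - Real.cos h))

theorem wt_pos (κ h : ℝ) : 0 < wt κ h := Real.exp_pos _

theorem wt_cont (κ : ℝ) : Continuous (wt κ) := by
  unfold wt
  fun_prop

theorem wt_int (κ : ℝ) : IntegrableOn (wt κ) (Ioo (-Real.pi) Real.pi) :=
  ((wt_cont κ).integrableOn_Icc).mono_set Ioo_subset_Icc_self

theorem kz_eq (κ : ℝ) : kz κ = ∫ h in Ioo (-Real.pi) Real.pi, wt κ h := rfl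

theorem kz_pos (κ : ℝ) : 0 < kz κ := by
  rw [kz_eq]
  have h1 : ∀ h : ℝ, Real.exp (-(2 * |κ|)) ≤ wt κ h := by
    intro h
    unfold wt
    apply Real.exp_le_exp.2
    have h2 := Real.cos_le_one h
    have h3 := Real.neg_one_le_cos h
    have h4 : κ * (1 - Real.cos h) ≤ |κ| * 2 := by
      calc κ * (1 - Real.cos h) ≤ |κ| * (1 - Real.cos h) :=
            mul_le_mul_of_nonneg_right (le_abs_self κ) (by linarith)
        _ ≤ |κ| * 2 := mul_le_mul_of_nonneg_left (by linarith) (abs_nonneg κ)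
    linarith
  have h2 : ∫ h in Ioo (-Real.pi) Real.pi, Real.exp (-(2 * |κ|)) ≤
      ∫ h in Ioo (-Real.pi) Real.pi, wt κ h :=
    integral_mono (integrable_const _) (wt_int κ) (fun h => h1 h)
  refine lt_of_lt_of_le ?_ h2
  rw [integral_const]
  simp only [MeasurableSet.univ, measureReal_restrict_apply, univ_inter, Real.volume_real_Ioo,
    smul_eq_mul]
  have hpi := Real.pi_pos
  rw [max_eq_left (by linarith)]
  have := Real.exp_pos (-(2 * |κ|))
  have h5 : 0 < Real.pi - -Real.pi := by linarith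
  positivity

/-- the probability measure whose averages are `Av` -/
noncomputable def Pm (κ : ℝ) : Measure ℝ :=
  (volume.restrict (Ioo (-Real.pi) Real.pi)).withDensity
    (fun h => ENNReal.ofReal ((kz κ)⁻¹ * wt κ h))

theorem den_meas (κ : ℝ) : Measurable (fun h => ENNReal.ofReal ((kz κ)⁻¹ * wt κ h)) :=
  ((wt_cont κ).measurable.const_mul _).ennreal_ofReal

instance Pm_prob (κ : ℝ) : IsProbabilityMeasure (Pm κ) := by
  refine ⟨?_⟩
  unfold Pm
  rw [withDensity_apply _ MeasurableSet.univ, Measure.restrict_univ,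
    ← ofReal_integral_eq_lintegral_ofReal ((wt_int κ).const_mul _)
      (Filter.Eventually.of_forall fun h => ?_)]
  · rw [integral_const_mul, ← kz_eq, inv_mul_cancel₀ (kz_pos κ).ne']
    simp
  · have := kz_pos κ
    have := wt_pos κ h
    positivity

/-- integrals with respect to `Pm` -/
theorem Pm_int {F : Type*} [NormedAddCommGroup F] [NormedSpace ℝ F] (κ : ℝ) (f : ℝ → F) :
    ∫ h, f h ∂(Pm κ) = ∫ h in Ioo (-Real.pi) Real.pi, ((kz κ)⁻¹ * wt κ h) • f h := by
  unfold Pm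
  rw [integral_withDensity_eq_integral_toReal_smul (den_meas κ)
    (Filter.Eventually.of_forall fun h => ENNReal.ofReal_lt_top)]
  refine integral_congr_ae (Filter.Eventually.of_forall fun h => ?_)
  have h1 := kz_pos κ
  have h2 := wt_pos κ h
  simp only
  rw [ENNReal.toReal_ofReal (by positivity)]

theorem Av_eq (κ : ℝ) (G : E 3 → ℂ) (x : E 3) : Av κ G x = ∫ h, G (rot (-h) x) ∂(Pm κ) := by
  rw [Pm_int]
  unfold Av
  rw [← integral_const_mul]
  refine integral_congr_ae (Filter.Eventually.of_forall fun h => ?_)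
  simp only [wt, Complex.real_smul]
  push_cast
  ring

theorem G_int (G : E 3 → ℂ) (hG : Measurable G) (M : ℝ) (hM : ∀ x, ‖G x‖ ≤ M) (κ : ℝ) (x : E 3) :
    Integrable (fun h : ℝ => G (rot (-h) x)) (Pm κ) :=
  Integrable.of_bound (G_meas_x G hG x).aestronglyMeasurable M
    (Filter.Eventually.of_forall fun h => hM _)

theorem jensen (P : Measure ℝ) [IsProbabilityMeasure P] (u : ℝ → ℝ) (hu : Measurable u) (M : ℝ)
    (hM : ∀ h, |u h| ≤ M) : (∫ h, u h ∂P) ^ 2 ≤ ∫ h, u h ^ 2 ∂P := by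
  set I := ∫ h, u h ∂P with hI
  have h1 : Integrable u P :=
    Integrable.of_bound hu.aestronglyMeasurable M
      (Filter.Eventually.of_forall (fun h => by simpa using hM h))
  have h2 : Integrable (fun h => u h ^ 2) P := by
    refine Integrable.of_bound (hu.pow_const 2).aestronglyMeasurable (M ^ 2)
      (Filter.Eventually.of_forall (fun h => ?_))
    rw [norm_pow, Real.norm_eq_abs]
    exact pow_le_pow_left₀ (abs_nonneg _) (hM h) 2
  have h3 : 0 ≤ ∫ h, (u h - I) ^ 2 ∂P := integral_nonneg (fun h => sq_nonneg _)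
  have h4 : ∫ h, (u h - I) ^ 2 ∂P = (∫ h, u h ^ 2 ∂P) - 2 * I * I + I ^ 2 := by
    have h5 : ∀ h, (u h - I) ^ 2 = (u h ^ 2 - 2 * I * u h) + I ^ 2 := by
      intro h; ring
    simp_rw [h5]
    rw [integral_add (f := fun h => u h ^ 2 - 2 * I * u h) (g := fun _ => I ^ 2)
      (h2.sub (h1.const_mul _)) (integrable_const _),
      integral_sub h2 (h1.const_mul _), integral_const_mul, integral_const]
    simp [hI]
  rw [h4] at h3
  nlinarith [h3]

theorem Av_norm_sq (κ : ℝ) (f : E 3 → ℂ) (hf : Measurable f) (M : ℝ) (hM : ∀ x, ‖f x‖ ≤ M)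
    (x : E 3) : ‖Av κ f x‖ ^ 2 ≤ ∫ h, ‖f (rot (-h) x)‖ ^ 2 ∂(Pm κ) := by
  rw [Av_eq]
  have h1 : ‖∫ h, f (rot (-h) x) ∂(Pm κ)‖ ≤ ∫ h, ‖f (rot (-h) x)‖ ∂(Pm κ) :=
    norm_integral_le_integral_norm _
  calc ‖∫ h, f (rot (-h) x) ∂(Pm κ)‖ ^ 2 ≤ (∫ h, ‖f (rot (-h) x)‖ ∂(Pm κ)) ^ 2 :=
        pow_le_pow_left₀ (norm_nonneg _) h1 2
    _ ≤ _ := jensen _ _ (G_meas_x f hf x).norm M
        (fun h => by rw [abs_of_nonneg (norm_nonneg _)]; exact hM _)

end AvP

open AvP

theorem Av_meas (κ : ℝ) (G : E 3 → ℂ) (hG : Measurable G) : Measurable (Av κ G) := by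
  have h0 : Av κ G = fun x => ∫ h, G (rot (-h) x) ∂(Pm κ) := by
    ext x
    exact Av_eq κ G x
  rw [h0]
  have h1 : StronglyMeasurable (fun p : E 3 × ℝ => G (rot (-p.2) p.1)) :=
    (G_meas G hG).stronglyMeasurable
  exact (h1.integral_prod_right' (ν := Pm κ)).measurable

theorem Av_bound (κ : ℝ) (G : E 3 → ℂ) (M : ℝ) (hM : ∀ x, ‖G x‖ ≤ M) (x : E 3) :
    ‖Av κ G x‖ ≤ M := by
  rw [Av_eq]
  have := norm_integral_le_of_norm_le_const (μ := Pm κ) (f := fun h => G (rot (-h) x)) (C := M)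
    (Filter.Eventually.of_forall fun h => hM _)
  simpa using this

theorem Av_supp (κ μ : ℝ) (G : E 3 → ℂ) (hs : ∀ x, x 2 ∉ band μ → G x = 0) (x : E 3)
    (hx : x 2 ∉ band μ) : Av κ G x = 0 := by
  rw [Av_eq]
  have h : ∀ h : ℝ, G (rot (-h) x) = 0 := by
    intro h
    apply hs
    have : rot (-h) x 2 = x 2 := by simp [rot]
    rw [this]
    exact hx
  simp [h]

theorem Av_L2 (κ : ℝ) (G : E 3 → ℂ) (hG : Measurable G) (M : ℝ) (hM : ∀ x, ‖G x‖ ≤ M) :
    ∫ x, ‖Av κ G x‖ ^ 2 ∂(sg 3) ≤ ∫ x, ‖G x‖ ^ 2 ∂(sg 3) := by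
  have hfin := sg_finite 3
  have hmeas2 : Measurable (fun p : E 3 × ℝ => ‖G (rot (-p.2) p.1)‖ ^ 2) :=
    ((G_meas G hG).norm).pow_const 2
  have hprod : Integrable (Function.uncurry fun (x : E 3) (h : ℝ) => ‖G (rot (-h) x)‖ ^ 2)
      ((sg 3).prod (Pm κ)) := by
    refine Integrable.of_bound hmeas2.aestronglyMeasurable (M ^ 2)
      (Filter.Eventually.of_forall (fun p => ?_))
    simp only [Function.uncurry]
    rw [norm_pow, norm_norm]
    exact pow_le_pow_left₀ (norm_nonneg _) (hM _) 2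
  have hint_l : Integrable (fun x : E 3 => ‖Av κ G x‖ ^ 2) (sg 3) := by
    refine Integrable.of_bound
      (((Av_meas κ G hG).norm).pow_const 2).aestronglyMeasurable (M ^ 2)
      (Filter.Eventually.of_forall (fun x => ?_))
    rw [norm_pow, norm_norm]
    exact pow_le_pow_left₀ (norm_nonneg _) (Av_bound κ G M hM x) 2
  calc ∫ x, ‖Av κ G x‖ ^ 2 ∂(sg 3)
      ≤ ∫ x, (∫ h, ‖G (rot (-h) x)‖ ^ 2 ∂(Pm κ)) ∂(sg 3) :=
        integral_mono hint_l hprod.integral_prod_left (Av_norm_sq κ G hG M hM)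
    _ = ∫ h, (∫ x, ‖G (rot (-h) x)‖ ^ 2 ∂(sg 3)) ∂(Pm κ) := by
        rw [integral_integral_swap hprod]
    _ = ∫ x, ‖G x‖ ^ 2 ∂(sg 3) := by
        simp_rw [fun h : ℝ => rot_comp (-h) (fun x => ‖G x‖ ^ 2)]
        rw [integral_const]
        simp

theorem Av_add (κ : ℝ) (G H : E 3 → ℂ) (hG : Measurable G) (hH : Measurable H) (M : ℝ)
    (hM : ∀ x, ‖G x‖ ≤ M) (hM' : ∀ x, ‖H x‖ ≤ M) (x : E 3) :
    Av κ (fun y => G y + H y) x = Av κ G x + Av κ H x := by
  rw [Av_eq, Av_eq, Av_eq]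
  exact integral_add (G_int G hG M hM κ x) (G_int H hH M hM' κ x)

theorem Av_sub (κ : ℝ) (G H : E 3 → ℂ) (hG : Measurable G) (hH : Measurable H) (M : ℝ)
    (hM : ∀ x, ‖G x‖ ≤ M) (hM' : ∀ x, ‖H x‖ ≤ M) (x : E 3) :
    Av κ (fun y => G y - H y) x = Av κ G x - Av κ H x := by
  rw [Av_eq, Av_eq, Av_eq]
  exact integral_sub (G_int G hG M hM κ x) (G_int H hH M hM' κ x)

theorem Av_comm (κ κ' : ℝ) (G : E 3 → ℂ) (hG : Measurable G) (M : ℝ) (hM : ∀ x, ‖G x‖ ≤ M)
    (x : E 3) : Av κ (Av κ' G) x = Av κ' (Av κ G) x := by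
  have key : ∀ a b : ℝ, Av a (Av b G) x = ∫ h, ∫ t, G (rot (-(h + t)) x) ∂(Pm b) ∂(Pm a) := by
    intro a b
    rw [Av_eq]
    refine integral_congr_ae (Filter.Eventually.of_forall fun h => ?_)
    simp only
    rw [Av_eq]
    refine integral_congr_ae (Filter.Eventually.of_forall fun t => ?_)
    simp only
    rw [rot_rot]
    congr 2
    ring
  rw [key, key]
  have hm : Measurable (fun q : ℝ × ℝ => G (rot (-(q.1 + q.2)) x)) :=
    (G_meas_x G hG x).comp (measurable_fst.add measurable_snd)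
  rw [integral_integral_swap (f := fun h t => G (rot (-(h + t)) x))
    (Integrable.of_bound hm.aestronglyMeasurable M (Filter.Eventually.of_forall fun q => hM _))]
  refine integral_congr_ae (Filter.Eventually.of_forall fun t => ?_)
  refine integral_congr_ae (Filter.Eventually.of_forall fun h => ?_)
  simp only
  rw [add_comm]

theorem Av_reg (κ : ℝ) (G : E 3 → ℂ) (hG : Measurable G) (M : ℝ) (hM : ∀ x, ‖G x‖ ≤ M)
    (h : ℝ) :
    ∫ x, ‖Av κ G (rot (-h) x) - Av κ G x‖ ^ 2 ∂(sg 3) ≤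
      ∫ x, ‖G (rot (-h) x) - G x‖ ^ 2 ∂(sg 3) := by
  have e : ∀ x, Av κ G (rot (-h) x) - Av κ G x = Av κ (fun y => G (rot (-h) y) - G y) x := by
    intro x
    rw [Av_sub κ (fun y => G (rot (-h) y)) G (G_meas_h G hG h) hG M (fun y => hM _) hM]
    congr 1
    rw [Av_eq, Av_eq]
    refine integral_congr_ae (Filter.Eventually.of_forall fun t => ?_)
    simp only
    rw [rot_rot, rot_rot (-h) (-t), add_comm (-t) (-h)]
  simp_rw [e]
  exact Av_L2 κ (fun y => G (rot (-h) y) - G y) ((G_meas_h G hG h).sub hG) (M + M)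
    (fun x => (norm_sub_le _ _).trans (add_le_add (hM _) (hM _)))

namespace AvP

/-- modulus of continuity -/
noncomputable def md (G : E 3 → ℂ) (h : ℝ) : ℝ := ∫ x, ‖G (rot (-h) x) - G x‖ ^ 2 ∂(sg 3)

theorem md_int (G : E 3 → ℂ) (hG : Measurable G) (M : ℝ) (hM : ∀ x, ‖G x‖ ≤ M) (h : ℝ) :
    Integrable (fun x => ‖G (rot (-h) x) - G x‖ ^ 2) (sg 3) := by
  have hfin := sg_finite 3
  refine Integrable.of_bound
    ((((G_meas_h G hG h).sub hG).norm).pow_const 2).aestronglyMeasurable ((M + M) ^ 2)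
    (Filter.Eventually.of_forall (fun x => ?_))
  rw [norm_pow, norm_norm]
  exact pow_le_pow_left₀ (norm_nonneg _) ((norm_sub_le _ _).trans (add_le_add (hM _) (hM _))) 2

theorem md_double (G : E 3 → ℂ) (hG : Measurable G) (M : ℝ) (hM : ∀ x, ‖G x‖ ≤ M) (h : ℝ) :
    md G (2 * h) ≤ 4 * md G h := by
  have hfin := sg_finite 3
  have hi := md_int G hG M hM h
  have hi' : Integrable (fun x => ‖G (rot (-h) (rot (-h) x)) - G (rot (-h) x)‖ ^ 2) (sg 3) :=
    (rot_mp (-h)).integrable_comp_of_integrable hi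
  have e1 : ∫ x, ‖G (rot (-h) (rot (-h) x)) - G (rot (-h) x)‖ ^ 2 ∂(sg 3) = md G h :=
    rot_comp (-h) (fun x => ‖G (rot (-h) x) - G x‖ ^ 2)
  calc md G (2 * h) ≤ ∫ x, (2 * ‖G (rot (-h) (rot (-h) x)) - G (rot (-h) x)‖ ^ 2 +
        2 * ‖G (rot (-h) x) - G x‖ ^ 2) ∂(sg 3) := by
        refine integral_mono (md_int G hG M hM (2 * h)) ((hi'.const_mul 2).add (hi.const_mul 2))
          (fun x => ?_)
        simp only
        have e2 : rot (-(2 * h)) x = rot (-h) (rot (-h) x) := by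
          rw [rot_rot]; congr 1; ring
        rw [e2]
        set a := ‖G (rot (-h) (rot (-h) x)) - G (rot (-h) x)‖
        set b := ‖G (rot (-h) x) - G x‖
        have h3 : ‖G (rot (-h) (rot (-h) x)) - G x‖ ≤ a + b := by
          have : G (rot (-h) (rot (-h) x)) - G x =
            (G (rot (-h) (rot (-h) x)) - G (rot (-h) x)) + (G (rot (-h) x) - G x) := by ring
          rw [this]
          exact norm_add_le _ _
        calc ‖G (rot (-h) (rot (-h) x)) - G x‖ ^ 2 ≤ (a + b) ^ 2 :=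
              pow_le_pow_left₀ (norm_nonneg _) h3 2
          _ ≤ 2 * a ^ 2 + 2 * b ^ 2 := by nlinarith [sq_nonneg (a - b)]
    _ = 4 * md G h := by
        rw [integral_add (hi'.const_mul 2) (hi.const_mul 2), integral_const_mul,
          integral_const_mul, e1]
        unfold md
        ring

theorem md_neg (G : E 3 → ℂ) (h : ℝ) : md G (-h) = md G h := by
  unfold md
  rw [← rot_comp (-h) (fun x => ‖G (rot (- -h) x) - G x‖ ^ 2)]
  refine integral_congr_ae (Filter.Eventually.of_forall fun x => ?_)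
  simp only
  rw [rot_rot, neg_neg, add_neg_cancel, rot_zero, norm_sub_rev]

theorem md_zero (G : E 3 → ℂ) : md G 0 = 0 := by
  unfold md
  simp [rot_zero]

theorem md_bound (G : E 3 → ℂ) (hG : Measurable G) (M : ℝ) (hM : ∀ x, ‖G x‖ ≤ M) (K s : ℝ)
    (hK : 0 ≤ K) (hs : 0 ≤ s) (hreg : ∀ h : ℝ, 0 < h → h ≤ 1 → md G h ≤ K * h ^ (2 * s)) (h : ℝ)
    (hh : |h| ≤ 4) : md G h ≤ 16 * K * |h| ^ (2 * s) := by
  have key : ∀ h : ℝ, 0 < h → h ≤ 4 → md G h ≤ 16 * K * h ^ (2 * s) := by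
    intro h h0 h4
    have e1 := md_double G hG M hM (h / 2)
    have e2 := md_double G hG M hM (h / 4)
    have e3 := hreg (h / 4) (by linarith) (by linarith)
    rw [show 2 * (h / 2) = h by ring] at e1
    rw [show 2 * (h / 4) = h / 2 by ring] at e2
    have e4 : (h / 4) ^ (2 * s) ≤ h ^ (2 * s) :=
      Real.rpow_le_rpow (by linarith) (by linarith) (by linarith)
    have e5 : K * (h / 4) ^ (2 * s) ≤ K * h ^ (2 * s) := mul_le_mul_of_nonneg_left e4 hK
    linarith
  rcases lt_trichotomy h 0 with h0 | h0 | h0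
  · rw [abs_of_neg h0] at hh ⊢
    rw [← md_neg]
    exact key (-h) (by linarith) hh
  · subst h0
    rw [md_zero]
    positivity
  · rw [abs_of_pos h0] at hh ⊢
    exact key h h0 hh

theorem kz_ge (κ : ℝ) (hκ : 1 ≤ κ) : κ ^ (-(1 / 2 : ℝ)) ≤ kz κ := by
  have hκ0 : 0 < κ := by linarith
  set r : ℝ := κ ^ (-(1 / 2 : ℝ)) with hr
  have hr0 : 0 < r := by positivity
  have hr1 : r ≤ 1 := Real.rpow_le_one_of_one_le_of_nonpos hκ (by norm_num)
  have hr2 : r ^ 2 = κ⁻¹ := by
    rw [hr, ← Real.rpow_natCast, ← Real.rpow_mul hκ0.le]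
    norm_num
    exact Real.rpow_neg_one κ
  have hpi : (3 : ℝ) < Real.pi := Real.pi_gt_three
  have hsub : Ioo (-r) r ⊆ Ioo (-Real.pi) Real.pi := by
    intro h hh
    exact ⟨by linarith [hh.1], by linarith [hh.2]⟩
  have h1 : ∫ h in Ioo (-r) r, wt κ h ≤ kz κ := by
    rw [kz_eq]
    exact setIntegral_mono_set (wt_int κ) (Filter.Eventually.of_forall fun h => (wt_pos κ h).le)
      (Filter.Eventually.of_forall hsub)
  have h2 : ∫ h in Ioo (-r) r, (1 / 2 : ℝ) ≤ ∫ h in Ioo (-r) r, wt κ h := by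
    refine setIntegral_mono_on (integrable_const _) ((wt_int κ).mono_set hsub) measurableSet_Ioo ?_
    intro h hh
    have h3 : 1 - Real.cos h ≤ h ^ 2 / 2 := by
      have := Real.one_sub_sq_div_two_le_cos (x := h)
      linarith
    have h4 : h ^ 2 ≤ r ^ 2 := sq_le_sq' hh.1.le hh.2.le
    have h5 : κ * (1 - Real.cos h) ≤ 1 / 2 := by
      calc κ * (1 - Real.cos h) ≤ κ * (r ^ 2 / 2) := by
            apply mul_le_mul_of_nonneg_left _ hκ0.le
            linarith
        _ = 1 / 2 := by rw [hr2]; field_simp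
    unfold wt
    have h6 := Real.add_one_le_exp (-κ * (1 - Real.cos h))
    linarith
  rw [integral_const] at h2
  simp only [MeasurableSet.univ, measureReal_restrict_apply, univ_inter, Real.volume_real_Ioo,
    smul_eq_mul] at h2
  rw [max_eq_left (by linarith)] at h2
  linarith

/-- second moment -/
theorem mom2 (κ : ℝ) (hκ : 1 ≤ κ) :
    ∫ h, κ * h ^ 2 ∂(Pm κ) ≤ Real.pi ^ 2 * (Real.pi * Real.sqrt Real.pi) := by
  have hκ0 : 0 < κ := by linarith
  have hpi := Real.pi_pos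
  have hkz := kz_pos κ
  have hge := kz_ge κ hκ
  rw [Pm_int]
  have hb : 0 < κ / Real.pi ^ 2 := by positivity
  have hgi := integrable_exp_neg_mul_sq hb
  have hpt : ∀ h ∈ Ioo (-Real.pi) Real.pi, ((kz κ)⁻¹ * wt κ h) • (κ * h ^ 2) ≤
      (kz κ)⁻¹ * (Real.pi ^ 2 * Real.exp (-(κ / Real.pi ^ 2) * h ^ 2)) := by
    intro h hh
    rw [smul_eq_mul, mul_assoc]
    refine mul_le_mul_of_nonneg_left ?_ (by positivity)
    have h1 : 2 / Real.pi ^ 2 * h ^ 2 ≤ 1 - Real.cos h := by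
      have := Real.cos_le_one_sub_mul_cos_sq (x := h) (abs_le.2 ⟨hh.1.le, hh.2.le⟩)
      linarith
    set t : ℝ := κ / Real.pi ^ 2 * h ^ 2 with ht
    have ht0 : 0 ≤ t := by positivity
    have h2 : wt κ h ≤ Real.exp (-t) * Real.exp (-t) := by
      unfold wt
      rw [← Real.exp_add]
      apply Real.exp_le_exp.2
      have : κ * (2 / Real.pi ^ 2 * h ^ 2) ≤ κ * (1 - Real.cos h) :=
        mul_le_mul_of_nonneg_left h1 hκ0.le
      have e : κ * (2 / Real.pi ^ 2 * h ^ 2) = 2 * t := by rw [ht]; ring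
      linarith
    have h3 : κ * h ^ 2 = Real.pi ^ 2 * t := by rw [ht]; field_simp
    have h4 : t * Real.exp (-t) ≤ 1 := by
      have := Real.add_one_le_exp t
      rw [Real.exp_neg, ← div_eq_mul_inv, div_le_one (Real.exp_pos t)]
      linarith
    rw [h3]
    have h5 : Real.exp (-(κ / Real.pi ^ 2) * h ^ 2) = Real.exp (-t) := by
      rw [ht]; congr 1; ring
    rw [h5]
    have h6 := Real.exp_pos (-t)
    calc wt κ h * (Real.pi ^ 2 * t) ≤ Real.exp (-t) * Real.exp (-t) * (Real.pi ^ 2 * t) := by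
          apply mul_le_mul_of_nonneg_right h2; positivity
      _ = Real.pi ^ 2 * (Real.exp (-t) * (t * Real.exp (-t))) := by ring
      _ ≤ Real.pi ^ 2 * (Real.exp (-t) * 1) := by gcongr
      _ = _ := by ring
  calc ∫ h in Ioo (-Real.pi) Real.pi, ((kz κ)⁻¹ * wt κ h) • (κ * h ^ 2)
      ≤ ∫ h in Ioo (-Real.pi) Real.pi,
        (kz κ)⁻¹ * (Real.pi ^ 2 * Real.exp (-(κ / Real.pi ^ 2) * h ^ 2)) := by
        refine setIntegral_mono_on ?_ ((hgi.const_mul _).const_mul _).integrableOn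
          measurableSet_Ioo hpt
        have hc : Continuous fun h => ((kz κ)⁻¹ * wt κ h) • (κ * h ^ 2) := by
          have := wt_cont κ
          fun_prop
        exact hc.integrableOn_Icc.mono_set Ioo_subset_Icc_self
    _ ≤ ∫ h, (kz κ)⁻¹ * (Real.pi ^ 2 * Real.exp (-(κ / Real.pi ^ 2) * h ^ 2)) := by
        refine setIntegral_le_integral ((hgi.const_mul _).const_mul _)
          (Filter.Eventually.of_forall fun h => ?_)
        simp only [Pi.zero_apply]
        positivity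
    _ = (kz κ)⁻¹ * (Real.pi ^ 2 * Real.sqrt (Real.pi / (κ / Real.pi ^ 2))) := by
        rw [integral_const_mul, integral_const_mul, integral_gaussian]
    _ ≤ Real.pi ^ 2 * (Real.pi * Real.sqrt Real.pi) := by
        have e1 : Real.sqrt (Real.pi / (κ / Real.pi ^ 2)) =
            Real.pi * Real.sqrt Real.pi * κ ^ (-(1 / 2 : ℝ)) := by
          have : Real.pi / (κ / Real.pi ^ 2) = Real.pi ^ 2 * Real.pi * κ⁻¹ := by field_simp
          rw [this, Real.sqrt_mul (by positivity), Real.sqrt_mul (by positivity),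
            Real.sqrt_sq hpi.le, Real.sqrt_inv, Real.rpow_neg hκ0.le, ← Real.sqrt_eq_rpow]
        rw [e1, inv_mul_le_iff₀ hkz]
        have : 0 ≤ Real.pi ^ 2 * (Real.pi * Real.sqrt Real.pi) := by positivity
        nlinarith [mul_le_mul_of_nonneg_left hge this]

end AvP

theorem Av_diff : ∃ C : ℝ, 0 < C ∧ ∀ κ : ℝ, 1 ≤ κ → ∀ s : ℝ, 0 ≤ s → s ≤ 1 →
    ∀ G : E 3 → ℂ, Measurable G → (∃ M : ℝ, ∀ x, ‖G x‖ ≤ M) → ∀ K : ℝ, 0 ≤ K →
    (∀ h : ℝ, 0 < h → h ≤ 1 →
      ∫ x, ‖G (rot (-h) x) - G x‖ ^ 2 ∂(sg 3) ≤ K * h ^ (2 * s)) →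
    ∫ x, ‖G x - Av κ G x‖ ^ 2 ∂(sg 3) ≤ C * K * κ ^ (-s) := by
  refine ⟨16 * (1 + Real.pi ^ 2 * (Real.pi * Real.sqrt Real.pi)), by positivity, ?_⟩
  intro κ hκ s hs hs1 G hG hb K hK hreg
  obtain ⟨M, hM⟩ := hb
  have hfin := sg_finite 3
  have hκ0 : 0 < κ := by linarith
  have hpi := Real.pi_pos
  have hM0 : 0 ≤ M := le_trans (norm_nonneg _) (hM 0)
  have hdM : ∀ (h : ℝ) (x : E 3), ‖G (rot (-h) x) - G x‖ ≤ M + M := fun h x =>
    (norm_sub_le _ _).trans (add_le_add (hM _) (hM _))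
  have hmeas2 : Measurable (fun p : E 3 × ℝ => ‖G (rot (-p.2) p.1) - G p.1‖ ^ 2) :=
    (((G_meas G hG).sub (hG.comp measurable_fst)).norm).pow_const 2
  have hpt : ∀ x : E 3, ‖G x - Av κ G x‖ ^ 2 ≤ ∫ h, ‖G (rot (-h) x) - G x‖ ^ 2 ∂(Pm κ) := by
    intro x
    have he : Av κ G x - G x = ∫ h, (G (rot (-h) x) - G x) ∂(Pm κ) := by
      rw [integral_sub (G_int G hG M hM κ x) (integrable_const _), integral_const, Av_eq]
      simp
    rw [norm_sub_rev, he]
    calc ‖∫ h, (G (rot (-h) x) - G x) ∂(Pm κ)‖ ^ 2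
        ≤ (∫ h, ‖G (rot (-h) x) - G x‖ ∂(Pm κ)) ^ 2 :=
          pow_le_pow_left₀ (norm_nonneg _) (norm_integral_le_integral_norm _) 2
      _ ≤ _ := jensen _ _ (((G_meas_x G hG x).sub measurable_const).norm) (M + M)
          (fun h => by rw [abs_of_nonneg (norm_nonneg _)]; exact hdM h x)
  have hprod : Integrable (Function.uncurry fun (x : E 3) (h : ℝ) => ‖G (rot (-h) x) - G x‖ ^ 2)
      ((sg 3).prod (Pm κ)) := by
    refine Integrable.of_bound hmeas2.aestronglyMeasurable ((M + M) ^ 2)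
      (Filter.Eventually.of_forall (fun p => ?_))
    simp only [Function.uncurry]
    rw [norm_pow, norm_norm]
    exact pow_le_pow_left₀ (norm_nonneg _) (hdM _ _) 2
  have hint_l : Integrable (fun x : E 3 => ‖G x - Av κ G x‖ ^ 2) (sg 3) := by
    refine Integrable.of_bound
      (((hG.sub (Av_meas κ G hG)).norm).pow_const 2).aestronglyMeasurable ((M + M) ^ 2)
      (Filter.Eventually.of_forall (fun x => ?_))
    rw [norm_pow, norm_norm]
    exact pow_le_pow_left₀ (norm_nonneg _)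
      ((norm_sub_le _ _).trans (add_le_add (hM x) (Av_bound κ G M hM x))) 2
  have hab : ∀ᵐ h ∂(Pm κ), md G h ≤ 16 * K * (κ ^ (-s) * (1 + κ * h ^ 2)) := by
    have h1 : ∀ᵐ h ∂(Pm κ), h ∈ Ioo (-Real.pi) Real.pi := by
      unfold Pm
      exact (withDensity_absolutelyContinuous _ _).ae_le (ae_restrict_mem measurableSet_Ioo)
    filter_upwards [h1] with h hh
    have habs : |h| ≤ 4 := by
      have h4 : Real.pi ≤ 4 := Real.pi_le_four
      rw [abs_le]
      exact ⟨by linarith [hh.1], by linarith [hh.2]⟩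
    refine (md_bound G hG M hM K s hK hs hreg h habs).trans ?_
    refine mul_le_mul_of_nonneg_left ?_ (by positivity)
    -- |h|^(2s) <= κ^(-s) (1 + κ h^2)
    have h2 : |h| ^ (2 * s) = κ ^ (-s) * (κ * h ^ 2) ^ s := by
      rw [Real.mul_rpow hκ0.le (sq_nonneg h), ← mul_assoc, ← Real.rpow_add hκ0, neg_add_cancel,
        Real.rpow_zero, one_mul, ← sq_abs h, Real.rpow_mul (abs_nonneg h) 2 s]
      congr 1
      norm_cast
    rw [h2]
    refine mul_le_mul_of_nonneg_left ?_ (by positivity)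
    have h3 : 0 ≤ κ * h ^ 2 := by positivity
    rcases le_total (κ * h ^ 2) 1 with h4 | h4
    · have := Real.rpow_le_one h3 h4 hs
      linarith
    · have : (κ * h ^ 2) ^ s ≤ (κ * h ^ 2) ^ (1 : ℝ) := Real.rpow_le_rpow_of_exponent_le h4 hs1
      rw [Real.rpow_one] at this
      linarith
  have hmi : Integrable (fun h : ℝ => κ * h ^ 2) (Pm κ) := by
    refine Integrable.of_bound (by fun_prop) (κ * 4 ^ 2) ?_
    have h1 : ∀ᵐ h ∂(Pm κ), h ∈ Ioo (-Real.pi) Real.pi := by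
      unfold Pm
      exact (withDensity_absolutelyContinuous _ _).ae_le (ae_restrict_mem measurableSet_Ioo)
    filter_upwards [h1] with h hh
    have h4 : Real.pi ≤ 4 := Real.pi_le_four
    rw [Real.norm_of_nonneg (by positivity)]
    gcongr 1
    exact sq_le_sq' (by linarith [hh.1]) (by linarith [hh.2])
  calc ∫ x, ‖G x - Av κ G x‖ ^ 2 ∂(sg 3)
      ≤ ∫ x, (∫ h, ‖G (rot (-h) x) - G x‖ ^ 2 ∂(Pm κ)) ∂(sg 3) :=
        integral_mono hint_l hprod.integral_prod_left hpt
    _ = ∫ h, md G h ∂(Pm κ) := by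
        rw [integral_integral_swap hprod]
        rfl
    _ ≤ ∫ h, 16 * K * (κ ^ (-s) * (1 + κ * h ^ 2)) ∂(Pm κ) := by
        refine integral_mono_ae hprod.integral_prod_right ?_ hab
        exact (((integrable_const _).add hmi).const_mul _).const_mul _
    _ = 16 * K * (κ ^ (-s) * (1 + ∫ h, κ * h ^ 2 ∂(Pm κ))) := by
        rw [integral_const_mul, integral_const_mul, integral_add (integrable_const _) hmi]
        simp
    _ ≤ 16 * K * (κ ^ (-s) * (1 + Real.pi ^ 2 * (Real.pi * Real.sqrt Real.pi))) := by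
        have := mom2 κ hκ
        gcongr
    _ = _ := by ring

end Pool.Agent.H789R2.FR
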