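import Mathlib
import Pool.Agent.H789R2.FR.Defs3
import Pool.Agent.H789R2.FR.Arch
set_option autoImplicit false

/-! Elementary facts on `avg`, `rot`, `band`. -/

namespace Pool.Agent.H789R2.FR

open MeasureTheory Measure Set Metric Complex
open scoped ENNReal Pointwise RealInnerProductSpace

private theorem rot_cont : Continuous (fun p : E 3 × ℝ => rot (-p.2) p.1) := by
  unfold rot
  refine (PiLp.continuous_toLp 2 _).comp ?_
  refine continuous_pi ?_
  intro i
  fin_cases i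
  · simp only [Fin.zero_eta, Matrix.cons_val_zero]
    fun_prop
  · simp only [Fin.mk_one, Matrix.cons_val_one, Matrix.cons_val_zero]
    fun_prop
  · simp only [Fin.reduceFinMk, Matrix.cons_val]
    fun_prop

private theorem G_rot_meas (G : E 3 → ℂ) (hG : Measurable G) :
    Measurable (fun p : E 3 × ℝ => G (rot (-p.2) p.1)) :=
  hG.comp rot_cont.measurable

private theorem G_rot_meas_x (G : E 3 → ℂ) (hG : Measurable G) (x : E 3) :
    Measurable (fun h : ℝ => G (rot (-h) x)) :=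
  (G_rot_meas G hG).comp (measurable_const.prodMk measurable_id)

private theorem G_rot_meas_h (G : E 3 → ℂ) (hG : Measurable G) (h : ℝ) :
    Measurable (fun x : E 3 => G (rot (-h) x)) :=
  (G_rot_meas G hG).comp (measurable_id.prodMk measurable_const)

theorem avg_meas (δ : ℝ) (G : E 3 → ℂ) (hG : Measurable G) : Measurable (avg δ G) := by
  unfold avg
  refine Measurable.const_mul ?_ _
  have h1 : StronglyMeasurable (fun p : E 3 × ℝ => G (rot (-p.2) p.1)) :=
    (G_rot_meas G hG).stronglyMeasurable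
  have h2 := h1.integral_prod_right' (ν := volume.restrict (Ioo (0:ℝ) δ))
  exact h2.measurable

theorem avg_bound (δ : ℝ) (hδ : 0 < δ) (G : E 3 → ℂ) (M : ℝ) (hM : ∀ x, ‖G x‖ ≤ M) (x : E 3) :
    ‖avg δ G x‖ ≤ M := by
  unfold avg
  rw [norm_mul, norm_inv, Complex.norm_real, Real.norm_of_nonneg hδ.le]
  have h1 : ‖∫ h in Ioo (0 : ℝ) δ, G (rot (-h) x)‖ ≤ M * (volume (Ioo (0:ℝ) δ)).toReal := by
    refine norm_setIntegral_le_of_norm_le_const ?_ ?_
    · simp
    · intro h _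
      exact hM _
  rw [Real.volume_Ioo, sub_zero, ENNReal.toReal_ofReal hδ.le] at h1
  rw [inv_mul_le_iff₀ hδ]
  linarith

theorem avg_supp (δ μ : ℝ) (G : E 3 → ℂ) (hs : ∀ x, x 2 ∉ band μ → G x = 0) (x : E 3)
    (hx : x 2 ∉ band μ) : avg δ G x = 0 := by
  unfold avg
  have h : ∀ h : ℝ, G (rot (-h) x) = 0 := by
    intro h
    apply hs
    have : rot (-h) x 2 = x 2 := by simp [rot]
    rw [this]
    exact hx
  simp [h]

instance sg3_finite : IsFiniteMeasure (sg 3) := by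
  unfold sg
  infer_instance

private theorem band_meas (μ : ℝ) : MeasurableSet (band μ) := by
  unfold band sc
  measurability

private theorem band_vol (μ : ℝ) (hμ : 0 < μ) (hμ' : μ ≤ 1) :
    volume (band μ) ≤ ENNReal.ofReal (2 * μ ^ 2) := by
  set A := Real.sqrt (1 - μ ^ 2) with hA
  set B := Real.sqrt (1 - μ ^ 2 / 4) with hB
  have hμ2 : μ ^ 2 ≤ 1 := by nlinarith
  have hA0 : 0 ≤ A := Real.sqrt_nonneg _
  have hB0 : 0 ≤ B := Real.sqrt_nonneg _
  have hA2 : A ^ 2 = 1 - μ ^ 2 := Real.sq_sqrt (by linarith)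
  have hB2 : B ^ 2 = 1 - μ ^ 2 / 4 := Real.sq_sqrt (by linarith)
  have hB34 : 3 / 4 ≤ B := by
    by_contra hcon
    push Not at hcon
    nlinarith
  have hBA : B - A ≤ μ ^ 2 := by
    have hsum : (B - A) * (B + A) = 3 / 4 * μ ^ 2 := by nlinarith
    have hAB : A ≤ B := by
      rw [hA, hB]
      apply Real.sqrt_le_sqrt
      nlinarith
    nlinarith
  have hsub : band μ ⊆ Icc A B ∪ Icc (-B) (-A) := by
    intro c hc
    obtain ⟨hc1, hc2, hc3⟩ := hc
    have hc2' : c ^ 2 ≤ 1 := by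
      have := abs_lt.1 hc1
      nlinarith
    have hs2 : sc c ^ 2 = 1 - c ^ 2 := Real.sq_sqrt (by linarith)
    have h1 : A ^ 2 ≤ c ^ 2 := by
      have : sc c ^ 2 ≤ μ ^ 2 := by
        have h0 : 0 ≤ sc c := Real.sqrt_nonneg _
        nlinarith
      linarith
    have h2 : c ^ 2 ≤ B ^ 2 := by
      have : (μ / 2) ^ 2 ≤ sc c ^ 2 := by nlinarith
      nlinarith
    have h3 : A ≤ |c| := by
      rw [← sq_abs c] at h1
      exact (pow_le_pow_iff_left₀ hA0 (abs_nonneg c) two_ne_zero).1 h1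
    have h4 : |c| ≤ B := by
      exact abs_le_of_sq_le_sq h2 hB0
    rcases le_or_gt 0 c with h0 | h0
    · left
      rw [abs_of_nonneg h0] at h3 h4
      exact ⟨h3, h4⟩
    · right
      rw [abs_of_neg h0] at h3 h4
      exact ⟨by linarith, by linarith⟩
  calc volume (band μ) ≤ volume (Icc A B ∪ Icc (-B) (-A)) := measure_mono hsub
    _ ≤ volume (Icc A B) + volume (Icc (-B) (-A)) := measure_union_le _ _
    _ = ENNReal.ofReal (B - A) + ENNReal.ofReal (-A - -B) := by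
        rw [Real.volume_Icc, Real.volume_Icc]
    _ ≤ ENNReal.ofReal (μ ^ 2) + ENNReal.ofReal (μ ^ 2) := by
        gcongr
        linarith
    _ = ENNReal.ofReal (2 * μ ^ 2) := by
        rw [← ENNReal.ofReal_add (by positivity) (by positivity)]
        congr 1
        ring

private theorem cs_aux (δ : ℝ) (hδ : 0 < δ) (u : ℝ → ℝ) (hu : Measurable u) (M : ℝ)
    (hM : ∀ h, |u h| ≤ M) :
    (∫ h in Ioo (0:ℝ) δ, u h) ^ 2 ≤ δ * ∫ h in Ioo (0:ℝ) δ, u h ^ 2 := by
  set I := ∫ h in Ioo (0:ℝ) δ, u h with hI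
  have h1 : Integrable u (volume.restrict (Ioo (0:ℝ) δ)) :=
    Integrable.of_bound hu.aestronglyMeasurable M
      (Filter.Eventually.of_forall (fun h => by simpa using hM h))
  have h2 : Integrable (fun h => u h ^ 2) (volume.restrict (Ioo (0:ℝ) δ)) := by
    refine Integrable.of_bound (hu.pow_const 2).aestronglyMeasurable (M ^ 2)
      (Filter.Eventually.of_forall (fun h => ?_))
    rw [norm_pow, Real.norm_eq_abs]
    exact pow_le_pow_left₀ (abs_nonneg _) (hM h) 2
  have h3 : 0 ≤ ∫ h in Ioo (0:ℝ) δ, (u h - I / δ) ^ 2 := integral_nonneg (fun h => sq_nonneg _)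
  have h4 : ∫ h in Ioo (0:ℝ) δ, (u h - I / δ) ^ 2 =
      (∫ h in Ioo (0:ℝ) δ, u h ^ 2) - 2 * (I / δ) * I + (I / δ) ^ 2 * δ := by
    have h5 : ∀ h, (u h - I / δ) ^ 2 = (u h ^ 2 - 2 * (I / δ) * u h) + (I / δ) ^ 2 := by
      intro h; ring
    simp_rw [h5]
    rw [integral_add (f := fun h => u h ^ 2 - 2 * (I / δ) * u h) (g := fun _ => (I / δ) ^ 2)
      (h2.sub (h1.const_mul _)) (integrable_const _),
      integral_sub h2 (h1.const_mul _), integral_const_mul, integral_const]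
    simp only [MeasurableSet.univ, measureReal_restrict_apply, univ_inter, Real.volume_real_Ioo,
      sub_zero, smul_eq_mul]
    rw [max_eq_left hδ.le]
    ring
  rw [h4] at h3
  have h6 : 2 * (I / δ) * I - (I / δ) ^ 2 * δ = I ^ 2 / δ := by
    field_simp
    ring
  have h7 : I ^ 2 / δ ≤ ∫ h in Ioo (0:ℝ) δ, u h ^ 2 := by linarith
  rw [div_le_iff₀ hδ] at h7
  linarith

theorem avg_diff (δ : ℝ) (hδ : 0 < δ) (G : E 3 → ℂ) (hG : Measurable G)
    (hb : ∃ M : ℝ, ∀ x, ‖G x‖ ≤ M) (K s : ℝ) (hK : 0 ≤ K) (hs : 0 ≤ s)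
    (hreg : ∀ h : ℝ, 0 < h → h ≤ δ →
      ∫ x, ‖G (rot (-h) x) - G x‖ ^ 2 ∂(sg 3) ≤ K * h ^ (2 * s)) :
    ∫ x, ‖G x - avg δ G x‖ ^ 2 ∂(sg 3) ≤ K * δ ^ (2 * s) := by
  obtain ⟨M, hM⟩ := hb
  have hM0 : 0 ≤ M := le_trans (norm_nonneg _) (hM 0)
  have hdM : ∀ (h : ℝ) (x : E 3), ‖G (rot (-h) x) - G x‖ ≤ 2 * M := by
    intro h x
    calc ‖G (rot (-h) x) - G x‖ ≤ ‖G (rot (-h) x)‖ + ‖G x‖ := norm_sub_le _ _
      _ ≤ M + M := add_le_add (hM _) (hM _)
      _ = 2 * M := by ring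
  have hmeas2 : Measurable (fun p : E 3 × ℝ => ‖G (rot (-p.2) p.1) - G p.1‖ ^ 2) :=
    (((G_rot_meas G hG).sub (hG.comp measurable_fst)).norm).pow_const 2
  -- pointwise
  have hpt : ∀ x : E 3, ‖G x - avg δ G x‖ ^ 2 ≤
      δ⁻¹ * ∫ h in Ioo (0:ℝ) δ, ‖G (rot (-h) x) - G x‖ ^ 2 := by
    intro x
    have hi1 : Integrable (fun h : ℝ => G (rot (-h) x)) (volume.restrict (Ioo (0:ℝ) δ)) :=
      Integrable.of_bound (G_rot_meas_x G hG x).aestronglyMeasurable M
        (Filter.Eventually.of_forall (fun h => hM _))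
    have he : avg δ G x - G x = (δ : ℂ)⁻¹ * ∫ h in Ioo (0:ℝ) δ, (G (rot (-h) x) - G x) := by
      rw [integral_sub hi1 (integrable_const _), integral_const]
      simp only [MeasurableSet.univ, measureReal_restrict_apply, univ_inter, Real.volume_real_Ioo,
        sub_zero]
      rw [max_eq_left hδ.le, mul_sub]
      unfold avg
      congr 1
      rw [Complex.real_smul, ← mul_assoc, inv_mul_cancel₀ (by exact_mod_cast hδ.ne'), one_mul]
    have h1 : ‖G x - avg δ G x‖ ≤ δ⁻¹ * ∫ h in Ioo (0:ℝ) δ, ‖G (rot (-h) x) - G x‖ := by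
      rw [norm_sub_rev, he, norm_mul, norm_inv, Complex.norm_real, Real.norm_of_nonneg hδ.le]
      gcongr
      exact norm_integral_le_integral_norm _
    have h2 := cs_aux δ hδ (fun h => ‖G (rot (-h) x) - G x‖)
      (((G_rot_meas_x G hG x).sub measurable_const).norm) (2 * M)
      (fun h => by rw [abs_of_nonneg (norm_nonneg _)]; exact hdM h x)
    calc ‖G x - avg δ G x‖ ^ 2 ≤ (δ⁻¹ * ∫ h in Ioo (0:ℝ) δ, ‖G (rot (-h) x) - G x‖) ^ 2 :=
          pow_le_pow_left₀ (norm_nonneg _) h1 2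
      _ = δ⁻¹ ^ 2 * (∫ h in Ioo (0:ℝ) δ, ‖G (rot (-h) x) - G x‖) ^ 2 := by ring
      _ ≤ δ⁻¹ ^ 2 * (δ * ∫ h in Ioo (0:ℝ) δ, ‖G (rot (-h) x) - G x‖ ^ 2) := by
          gcongr
      _ = δ⁻¹ * ∫ h in Ioo (0:ℝ) δ, ‖G (rot (-h) x) - G x‖ ^ 2 := by
          field_simp
  have hprod : Integrable (Function.uncurry fun (x : E 3) (h : ℝ) => ‖G (rot (-h) x) - G x‖ ^ 2)
      ((sg 3).prod (volume.restrict (Ioo (0:ℝ) δ))) := by
    refine Integrable.of_bound hmeas2.aestronglyMeasurable ((2 * M) ^ 2)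
      (Filter.Eventually.of_forall (fun p => ?_))
    simp only [Function.uncurry]
    rw [norm_pow, norm_norm]
    exact pow_le_pow_left₀ (norm_nonneg _) (hdM _ _) 2
  have hint_r : Integrable (fun x : E 3 => δ⁻¹ * ∫ h in Ioo (0:ℝ) δ, ‖G (rot (-h) x) - G x‖ ^ 2)
      (sg 3) := by
    refine Integrable.const_mul ?_ _
    exact hprod.integral_prod_left
  have hint_l : Integrable (fun x : E 3 => ‖G x - avg δ G x‖ ^ 2) (sg 3) := by
    refine Integrable.of_bound
      (((hG.sub (avg_meas δ G hG)).norm).pow_const 2).aestronglyMeasurable ((2 * M) ^ 2)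
      (Filter.Eventually.of_forall (fun x => ?_))
    rw [norm_pow, norm_norm]
    refine pow_le_pow_left₀ (norm_nonneg _) ?_ 2
    calc ‖G x - avg δ G x‖ ≤ ‖G x‖ + ‖avg δ G x‖ := norm_sub_le _ _
      _ ≤ M + M := add_le_add (hM _) (avg_bound δ hδ G M hM x)
      _ = 2 * M := by ring
  calc ∫ x, ‖G x - avg δ G x‖ ^ 2 ∂(sg 3)
      ≤ ∫ x, (δ⁻¹ * ∫ h in Ioo (0:ℝ) δ, ‖G (rot (-h) x) - G x‖ ^ 2) ∂(sg 3) :=
        integral_mono hint_l hint_r hpt
    _ = δ⁻¹ * ∫ x, (∫ h in Ioo (0:ℝ) δ, ‖G (rot (-h) x) - G x‖ ^ 2) ∂(sg 3) :=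
        integral_const_mul _ _
    _ = δ⁻¹ * ∫ h in Ioo (0:ℝ) δ, (∫ x, ‖G (rot (-h) x) - G x‖ ^ 2 ∂(sg 3)) := by
        rw [integral_integral_swap hprod]
    _ ≤ δ⁻¹ * ∫ h in Ioo (0:ℝ) δ, K * δ ^ (2 * s) := by
        refine mul_le_mul_of_nonneg_left ?_ (by positivity)
        refine setIntegral_mono_on ?_ (integrable_const _) measurableSet_Ioo ?_
        · exact hprod.integral_prod_right
        · intro h hh
          refine (hreg h hh.1 hh.2.le).trans ?_
          gcongr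
          · exact hh.1.le
          · exact hh.2.le
    _ = K * δ ^ (2 * s) := by
        rw [integral_const]
        simp only [MeasurableSet.univ, measureReal_restrict_apply, univ_inter,
          Real.volume_real_Ioo, sub_zero, smul_eq_mul]
        rw [max_eq_left hδ.le]
        field_simp

private theorem pt_meas : Measurable (fun p : ℝ × ℝ => pt p.1 p.2) := by
  unfold pt sc
  refine (PiLp.continuous_toLp 2 _).measurable.comp ?_
  refine measurable_pi_iff.2 ?_
  intro i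
  fin_cases i
  · simp only [Fin.zero_eta, Matrix.cons_val_zero]
    fun_prop
  · simp only [Fin.mk_one, Matrix.cons_val_one, Matrix.cons_val_zero]
    fun_prop
  · simp only [Fin.reduceFinMk, Matrix.cons_val]
    fun_prop

/-- lintegral bound for functions supported in the band. -/
private theorem band_lint (μ : ℝ) (hμ : 0 < μ) (hμ' : μ ≤ 1) (F : E 3 → ℝ≥0∞) (hF : Measurable F)
    (M : ℝ) (hM0 : 0 ≤ M) (hM : ∀ x, F x ≤ ENNReal.ofReal M) (hs : ∀ x, x 2 ∉ band μ → F x = 0) :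
    ∫⁻ x, F x ∂(sg 3) ≤ ENNReal.ofReal (20 * M * μ ^ 2) := by
  rw [arch F hF]
  have h1 : ∀ c : ℝ, ∫⁻ φ in Ioo (-Real.pi) Real.pi, F (pt c φ) ≤
      (band μ).indicator (fun _ => ENNReal.ofReal (2 * Real.pi * M)) c := by
    intro c
    by_cases hc : c ∈ band μ
    · rw [indicator_of_mem hc]
      calc ∫⁻ φ in Ioo (-Real.pi) Real.pi, F (pt c φ)
          ≤ ∫⁻ φ in Ioo (-Real.pi) Real.pi, ENNReal.ofReal M := lintegral_mono (fun φ => hM _)
        _ = ENNReal.ofReal M * volume (Ioo (-Real.pi) Real.pi) := by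
            rw [lintegral_const, Measure.restrict_apply MeasurableSet.univ, univ_inter]
        _ = ENNReal.ofReal (2 * Real.pi * M) := by
            rw [Real.volume_Ioo, ← ENNReal.ofReal_mul hM0]
            congr 1
            ring
    · rw [indicator_of_notMem hc]
      have : ∀ φ, F (pt c φ) = 0 := by
        intro φ
        apply hs
        have : pt c φ 2 = c := by simp [pt]
        rw [this]
        exact hc
      simp [this]
  calc ∫⁻ c in Ioo (-1 : ℝ) 1, ∫⁻ φ in Ioo (-Real.pi) Real.pi, F (pt c φ)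
      ≤ ∫⁻ c in Ioo (-1 : ℝ) 1, (band μ).indicator (fun _ => ENNReal.ofReal (2 * Real.pi * M)) c :=
        lintegral_mono h1
    _ ≤ ∫⁻ c, (band μ).indicator (fun _ => ENNReal.ofReal (2 * Real.pi * M)) c :=
        lintegral_mono' Measure.restrict_le_self le_rfl
    _ = ENNReal.ofReal (2 * Real.pi * M) * volume (band μ) := by
        rw [lintegral_indicator (band_meas μ), lintegral_const,
          Measure.restrict_apply MeasurableSet.univ, univ_inter]
    _ ≤ ENNReal.ofReal (2 * Real.pi * M) * ENNReal.ofReal (2 * μ ^ 2) := by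
        gcongr
        exact band_vol μ hμ hμ'
    _ = ENNReal.ofReal (2 * Real.pi * M * (2 * μ ^ 2)) := by
        rw [← ENNReal.ofReal_mul (by positivity)]
    _ ≤ ENNReal.ofReal (20 * M * μ ^ 2) := by
        apply ENNReal.ofReal_le_ofReal
        have h4 : Real.pi ≤ 4 := Real.pi_le_four
        have h5 : 0 ≤ M * μ ^ 2 := by positivity
        nlinarith

theorem band_mass (μ : ℝ) (hμ : 0 < μ) (hμ' : μ ≤ 1) (f : E 3 → ℂ) (hf : Measurable f) (M : ℝ)
    (hM : ∀ x, ‖f x‖ ≤ M) (hs : ∀ x, x 2 ∉ band μ → f x = 0) :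
    ∫ x, ‖f x‖ ∂(sg 3) ≤ 20 * M * μ ^ 2 ∧ ∫ x, ‖f x‖ ^ 2 ∂(sg 3) ≤ 20 * M ^ 2 * μ ^ 2 := by
  have hM0 : 0 ≤ M := le_trans (norm_nonneg _) (hM 0)
  constructor
  · rw [integral_eq_lintegral_of_nonneg_ae (Filter.Eventually.of_forall (fun x => norm_nonneg _))
      hf.norm.aestronglyMeasurable]
    refine ENNReal.toReal_le_of_le_ofReal (by positivity) ?_
    refine band_lint μ hμ hμ' _ hf.norm.ennreal_ofReal M hM0 ?_ ?_
    · intro x
      exact ENNReal.ofReal_le_ofReal (hM x)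
    · intro x hx
      simp [hs x hx]
  · rw [integral_eq_lintegral_of_nonneg_ae (Filter.Eventually.of_forall (fun x => sq_nonneg _))
      (hf.norm.pow_const 2).aestronglyMeasurable]
    refine ENNReal.toReal_le_of_le_ofReal (by positivity) ?_
    refine band_lint μ hμ hμ' _ (hf.norm.pow_const 2).ennreal_ofReal (M ^ 2) (sq_nonneg M) ?_ ?_
    · intro x
      exact ENNReal.ofReal_le_ofReal (pow_le_pow_left₀ (norm_nonneg _) (hM x) 2)
    · intro x hx
      simp [hs x hx]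

end Pool.Agent.H789R2.FR
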