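import Mathlib
import Pool.Agent.H789R2.FR.Sph
set_option autoImplicit false

/-! Measure of spherical caps (task U1, helper379). -/

namespace Pool.Agent.H789R2.FR

open MeasureTheory Measure Set Metric Complex
open scoped ENNReal Pointwise RealInnerProductSpace

lemma cap_meas {n : ℕ} (κ : ℝ) (y : E n) : MeasurableSet {w : E n | ‖y - w‖ < κ} := by
  apply measurableSet_lt _ measurable_const
  exact Continuous.measurable (by fun_prop)

lemma gauss_integrable {n : ℕ} (R : ℝ) (hR : 0 ≤ R) (y : E n) :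
    Integrable (fun w : E n => Real.exp (-(R / 2) * ‖y - w‖ ^ 2)) (sg n) := by
  haveI := sg_finite n
  apply Integrable.of_bound (C := 1)
  · exact (Continuous.measurable (by fun_prop)).aestronglyMeasurable
  · refine Filter.Eventually.of_forall fun w => ?_
    rw [Real.norm_eq_abs, abs_of_pos (Real.exp_pos _)]
    apply Real.exp_le_one_iff.mpr
    have : 0 ≤ (R / 2) * ‖y - w‖ ^ 2 := by positivity
    linarith

lemma cap_rpow (n : ℕ) (hn : 2 ≤ n) (a κ : ℝ) (ha : 0 < a) (hκ : 0 < κ) :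
    (a / κ ^ 2) ^ (-((n : ℝ) - 1) / 2) = a ^ (-((n : ℝ) - 1) / 2) * κ ^ (n - 1) := by
  rw [Real.div_rpow ha.le (by positivity), div_eq_mul_inv]
  congr 1
  rw [← Real.rpow_natCast κ 2, ← Real.rpow_mul hκ.le, ← Real.rpow_neg hκ.le,
    ← Real.rpow_natCast κ (n - 1)]
  congr 1
  rw [Nat.cast_sub (by omega)]
  push_cast
  ring

theorem cap_upper (n : ℕ) (hn : 2 ≤ n) : ∃ C : ℝ, 0 < C ∧ ∀ κ : ℝ, 0 < κ → ∀ y : E n,
    ‖y‖ = 1 → (sg n).real {w | ‖y - w‖ < κ} ≤ C * κ ^ (n - 1) := by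
  haveI := sg_finite n
  obtain ⟨C, hC, h⟩ := D_upper n hn
  refine ⟨Real.exp (1 / 2) * C, by positivity, ?_⟩
  intro κ hκ y hy
  have hR : 0 < 1 / κ ^ 2 := by positivity
  have h1 := h (1 / κ ^ 2) hR y hy
  rw [cap_rpow n hn 1 κ one_pos hκ, Real.one_rpow, one_mul] at h1
  have h2 : Real.exp (-(1 / 2)) * (sg n).real {w | ‖y - w‖ < κ} ≤ D (1 / κ ^ 2) y := by
    have e1 : Real.exp (-(1 / 2)) * (sg n).real {w | ‖y - w‖ < κ} =
        ∫ w, ({w | ‖y - w‖ < κ} : Set (E n)).indicator (fun _ => Real.exp (-(1 / 2))) w ∂(sg n) := by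
      rw [integral_indicator_const _ (cap_meas κ y), smul_eq_mul, mul_comm]
    rw [e1]
    unfold D
    apply integral_mono
    · exact (integrable_const _).indicator (cap_meas κ y)
    · exact gauss_integrable _ hR.le y
    · intro w
      simp only
      by_cases hw : w ∈ ({w | ‖y - w‖ < κ} : Set (E n))
      · rw [indicator_of_mem hw]
        apply Real.exp_le_exp.mpr
        have hw' : ‖y - w‖ < κ := hw
        have h3 : ‖y - w‖ ^ 2 ≤ κ ^ 2 := by
          apply pow_le_pow_left₀ (norm_nonneg _) hw'.le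
        have h4 : 1 / κ ^ 2 / 2 * ‖y - w‖ ^ 2 ≤ 1 / κ ^ 2 / 2 * κ ^ 2 :=
          mul_le_mul_of_nonneg_left h3 (by positivity)
        have h5 : 1 / κ ^ 2 / 2 * κ ^ 2 = 1 / 2 := by
          field_simp
        linarith
      · rw [indicator_of_notMem hw]
        exact (Real.exp_pos _).le
  have h6 : (sg n).real {w | ‖y - w‖ < κ} =
      Real.exp (1 / 2) * (Real.exp (-(1 / 2)) * (sg n).real {w | ‖y - w‖ < κ}) := by
    rw [← mul_assoc, ← Real.exp_add]
    norm_num
  rw [h6, mul_assoc]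
  exact mul_le_mul_of_nonneg_left (h2.trans h1) (Real.exp_pos _).le

theorem cap_lower (n : ℕ) (hn : 2 ≤ n) : ∃ c : ℝ, 0 < c ∧ ∀ κ : ℝ, 0 < κ → κ ≤ 1 →
    ∀ y : E n, ‖y‖ = 1 → c * κ ^ (n - 1) ≤ (sg n).real {w | ‖y - w‖ < κ} := by
  haveI := sg_finite n
  obtain ⟨C, hC, hup⟩ := D_upper n hn
  obtain ⟨c0, hc0, hlow⟩ := D_lower n hn
  set B : ℝ := 2 * C * 2 ^ (((n : ℝ) - 1) / 2) / c0 with hB
  have hBpos : 0 < B := by positivity
  set a : ℝ := max 1 (4 * Real.log B) with ha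
  have ha1 : 1 ≤ a := le_max_left _ _
  have ha0 : 0 < a := by linarith
  have hexp : Real.exp (-(a / 4)) ≤ 1 / B := by
    rw [one_div, ← Real.exp_log (inv_pos.mpr hBpos), Real.log_inv]
    apply Real.exp_le_exp.mpr
    have : 4 * Real.log B ≤ a := le_max_right _ _
    linarith
  have hq : Real.exp (-(a / 4)) * (C * 2 ^ (((n : ℝ) - 1) / 2)) ≤ c0 / 2 := by
    have h1 : Real.exp (-(a / 4)) * (C * 2 ^ (((n : ℝ) - 1) / 2)) ≤
        1 / B * (C * 2 ^ (((n : ℝ) - 1) / 2)) :=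
      mul_le_mul_of_nonneg_right hexp (by positivity)
    refine h1.trans (le_of_eq ?_)
    rw [hB]
    field_simp
  refine ⟨c0 / 2 * a ^ (-((n : ℝ) - 1) / 2), by positivity, ?_⟩
  intro κ hκ hκ1 y hy
  set R : ℝ := a / κ ^ 2 with hR
  have hR1 : 1 ≤ R := by
    rw [hR, le_div_iff₀ (by positivity), one_mul]
    have : κ ^ 2 ≤ 1 := pow_le_one₀ hκ.le hκ1
    linarith
  have hR0 : 0 < R := by linarith
  have h1 := hlow R hR1 y hy
  have h2 := hup (R / 2) (by linarith) y hy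
  have e2 : (R / 2) ^ (-((n : ℝ) - 1) / 2) = R ^ (-((n : ℝ) - 1) / 2) * 2 ^ (((n : ℝ) - 1) / 2) := by
    rw [Real.div_rpow hR0.le (by norm_num), div_eq_mul_inv]
    congr 1
    rw [← Real.rpow_neg (by norm_num)]
    congr 1
    ring
  rw [e2] at h2
  have h3 : D R y ≤ (sg n).real {w | ‖y - w‖ < κ} + Real.exp (-(a / 4)) * D (R / 2) y := by
    have e1 : (sg n).real {w | ‖y - w‖ < κ} =
        ∫ w, ({w | ‖y - w‖ < κ} : Set (E n)).indicator (fun _ => (1 : ℝ)) w ∂(sg n) := by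
      rw [integral_indicator_const _ (cap_meas κ y), smul_eq_mul, mul_one]
    have i1 : Integrable (({w | ‖y - w‖ < κ} : Set (E n)).indicator (fun _ => (1 : ℝ))) (sg n) :=
      (integrable_const _).indicator (cap_meas κ y)
    have i2 := gauss_integrable (n := n) (R / 2) (by linarith) y
    rw [e1]
    unfold D
    rw [← integral_const_mul, ← integral_add i1 (i2.const_mul _)]
    apply integral_mono
    · exact gauss_integrable _ hR0.le y
    · exact i1.add (i2.const_mul _)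
    · intro w
      simp only
      by_cases hw : w ∈ ({w | ‖y - w‖ < κ} : Set (E n))
      · rw [indicator_of_mem hw]
        have h4 : Real.exp (-(R / 2) * ‖y - w‖ ^ 2) ≤ 1 := by
          apply Real.exp_le_one_iff.mpr
          have : 0 ≤ (R / 2) * ‖y - w‖ ^ 2 := by positivity
          linarith
        have h5 : 0 ≤ Real.exp (-(a / 4)) * Real.exp (-(R / 2 / 2) * ‖y - w‖ ^ 2) := by positivity
        linarith
      · rw [indicator_of_notMem hw, zero_add, ← Real.exp_add]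
        apply Real.exp_le_exp.mpr
        have hw' : κ ≤ ‖y - w‖ := not_lt.mp hw
        have h4 : κ ^ 2 ≤ ‖y - w‖ ^ 2 := pow_le_pow_left₀ hκ.le hw' 2
        have h5 : a / 4 ≤ R / 4 * ‖y - w‖ ^ 2 := by
          have : R / 4 * κ ^ 2 = a / 4 := by
            rw [hR]; field_simp
          rw [← this]
          exact mul_le_mul_of_nonneg_left h4 (by positivity)
        linarith
  have h4 : Real.exp (-(a / 4)) * D (R / 2) y ≤ c0 / 2 * R ^ (-((n : ℝ) - 1) / 2) := by
    have h5 : Real.exp (-(a / 4)) * D (R / 2) y ≤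
        Real.exp (-(a / 4)) * (C * (R ^ (-((n : ℝ) - 1) / 2) * 2 ^ (((n : ℝ) - 1) / 2))) :=
      mul_le_mul_of_nonneg_left h2 (Real.exp_pos _).le
    have h6 : Real.exp (-(a / 4)) * (C * (R ^ (-((n : ℝ) - 1) / 2) * 2 ^ (((n : ℝ) - 1) / 2))) =
        (Real.exp (-(a / 4)) * (C * 2 ^ (((n : ℝ) - 1) / 2))) * R ^ (-((n : ℝ) - 1) / 2) := by ring
    rw [h6] at h5
    exact h5.trans (mul_le_mul_of_nonneg_right hq (by positivity))
  have h7 : R ^ (-((n : ℝ) - 1) / 2) = a ^ (-((n : ℝ) - 1) / 2) * κ ^ (n - 1) :=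
    cap_rpow n hn a κ ha0 hκ
  have h8 : c0 / 2 * a ^ (-((n : ℝ) - 1) / 2) * κ ^ (n - 1) = c0 / 2 * R ^ (-((n : ℝ) - 1) / 2) := by
    rw [h7]; ring
  rw [h8]
  linarith

end Pool.Agent.H789R2.FR
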