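import Mathlib
import Pool.Agent.H789R2.FR.Core
import Pool.Agent.H789R2.FR.Caps
import Pool.Agent.H789R2.FR.Tail
import Pool.Agent.H789R2.FR.AOp
set_option autoImplicit false

/-! L^p bound for one frequency block (task U4, helper379). -/

namespace Pool.Agent.H789R2.FR

open MeasureTheory Measure Set Metric Complex
open scoped ENNReal Pointwise RealInnerProductSpace

/-- statement of the tail lemma (task U2) -/
def TailProp (n : ℕ) : Prop := ∃ C : ℝ, 0 < C ∧ ∀ R : ℝ, 1 ≤ R → ∀ x : E n, x ≠ 0 →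
    ‖x‖ ≤ 4 * R → ∀ g : E n → ℂ, Measurable g → ∀ M : ℝ, (∀ y, ‖g y‖ ≤ M) → ∀ κ : ℝ, 0 < κ →
    (∀ w : E n, ‖w‖ = 1 → ‖(‖x‖⁻¹ • x) - w‖ < κ → g w = 0) →
    (∀ w : E n, ‖w‖ = 1 → ‖(‖x‖⁻¹ • x) + w‖ < κ → g w = 0) →
    ‖T (A R g) x‖ ≤ C * M * Real.exp (-(‖x‖ ^ 2 * κ ^ 2 / (200 * R)))

/-- statement of the `L^2` contraction (task U3) -/
def AL2Prop (n : ℕ) : Prop := ∀ (R : ℝ), 0 < R → ∀ (g : E n → ℂ), Measurable g →
    (∃ M : ℝ, ∀ x, ‖g x‖ ≤ M) →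
    ∫ w, ‖A R g w‖ ^ 2 ∂(sg n) ≤ ∫ w, ‖g w‖ ^ 2 ∂(sg n)

/-- the two caps around `e` and `-e` -/
def Nb {n : ℕ} (κ : ℝ) (e : E n) : Set (E n) := {w | ‖e - w‖ < 2 * κ ∨ ‖e + w‖ < 2 * κ}

lemma Nb_meas {n : ℕ} (κ : ℝ) (e : E n) : MeasurableSet (Nb κ e) := by
  have h1 : MeasurableSet {w : E n | ‖e - w‖ < 2 * κ} :=
    measurableSet_lt (Continuous.measurable (by fun_prop)) measurable_const
  have h2 : MeasurableSet {w : E n | ‖e + w‖ < 2 * κ} :=
    measurableSet_lt (Continuous.measurable (by fun_prop)) measurable_const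
  exact h1.union h2

lemma Nb_meas2 {n : ℕ} (κ : ℝ) : MeasurableSet {z : E n × E n | z.2 ∈ Nb κ z.1} := by
  have h1 : MeasurableSet {z : E n × E n | ‖z.1 - z.2‖ < 2 * κ} :=
    measurableSet_lt (Continuous.measurable (by fun_prop)) measurable_const
  have h2 : MeasurableSet {z : E n × E n | ‖z.1 + z.2‖ < 2 * κ} :=
    measurableSet_lt (Continuous.measurable (by fun_prop)) measurable_const
  exact h1.union h2

lemma Nb_symm {n : ℕ} (κ : ℝ) (e w : E n) : w ∈ Nb κ e ↔ e ∈ Nb κ w := by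
  change (‖e - w‖ < 2 * κ ∨ ‖e + w‖ < 2 * κ) ↔ (‖w - e‖ < 2 * κ ∨ ‖w + e‖ < 2 * κ)
  rw [norm_sub_rev, add_comm]

lemma Nb_upper {n : ℕ} {C : ℝ} (hC : ∀ κ : ℝ, 0 < κ → ∀ y : E n,
    ‖y‖ = 1 → (sg n).real {w | ‖y - w‖ < κ} ≤ C * κ ^ (n - 1)) (κ : ℝ) (hκ : 0 < κ) (e : E n)
    (he : ‖e‖ = 1) : (sg n).real (Nb κ e) ≤ 2 * C * (2 * κ) ^ (n - 1) := by
  haveI := sg_finite n
  have h1 := hC (2 * κ) (by linarith) e he
  have h2 := hC (2 * κ) (by linarith) (-e) (by rw [norm_neg, he])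
  have e2 : {w : E n | ‖-e - w‖ < 2 * κ} = {w | ‖e + w‖ < 2 * κ} := by
    ext w
    change ‖-e - w‖ < 2 * κ ↔ ‖e + w‖ < 2 * κ
    rw [show -e - w = -(e + w) by abel, norm_neg]
  rw [e2] at h2
  have h3 : (sg n).real (Nb κ e) ≤
      (sg n).real {w | ‖e - w‖ < 2 * κ} + (sg n).real {w | ‖e + w‖ < 2 * κ} :=
    measureReal_union_le _ _
  linarith

lemma A_integrable {n : ℕ} (R : ℝ) (hR : 0 ≤ R) {g : E n → ℂ} (hg : Measurable g) {M : ℝ}
    (hM : ∀ x, ‖g x‖ ≤ M) (y : E n) :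
    Integrable (fun w => ((Real.exp (-(R / 2) * ‖y - w‖ ^ 2) : ℝ) : ℂ) * g w) (sg n) := by
  haveI := sg_finite n
  have hM0 : 0 ≤ M := (norm_nonneg _).trans (hM y)
  have hc : Continuous (fun w : E n => ((Real.exp (-(R / 2) * ‖y - w‖ ^ 2) : ℝ) : ℂ)) := by
    fun_prop
  refine Integrable.of_bound (hc.measurable.mul hg).aestronglyMeasurable M ?_
  filter_upwards with w
  rw [norm_mul, Complex.norm_real, Real.norm_eq_abs, Real.abs_exp]
  calc Real.exp (-(R / 2) * ‖y - w‖ ^ 2) * ‖g w‖ ≤ 1 * M :=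
        mul_le_mul (w_le R hR y w) (hM w) (norm_nonneg _) (by norm_num)
    _ = M := one_mul _

lemma A_sub_aux {n : ℕ} (R : ℝ) (hR : 0 ≤ R) {g h : E n → ℂ} (hg : Measurable g)
    (hh : Measurable h) {M M' : ℝ} (hM : ∀ x, ‖g x‖ ≤ M) (hM' : ∀ x, ‖h x‖ ≤ M') (y : E n) :
    A R (fun x => g x - h x) y = A R g y - A R h y := by
  unfold A
  rw [← sub_div, ← integral_sub (A_integrable R hR hg hM y) (A_integrable R hR hh hM' y)]
  congr 1
  refine integral_congr_ae ?_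
  filter_upwards with w
  ring

/-- pointwise splitting -/
lemma block_split {n : ℕ} {Ct : ℝ} (hCt : ∀ R : ℝ, 1 ≤ R → ∀ x : E n, x ≠ 0 →
    ‖x‖ ≤ 4 * R → ∀ g : E n → ℂ, Measurable g → ∀ M : ℝ, (∀ y, ‖g y‖ ≤ M) → ∀ κ : ℝ, 0 < κ →
    (∀ w : E n, ‖w‖ = 1 → ‖(‖x‖⁻¹ • x) - w‖ < κ → g w = 0) →
    (∀ w : E n, ‖w‖ = 1 → ‖(‖x‖⁻¹ • x) + w‖ < κ → g w = 0) →
    ‖T (A R g) x‖ ≤ Ct * M * Real.exp (-(‖x‖ ^ 2 * κ ^ 2 / (200 * R))))
    (R : ℝ) (hR : 1 ≤ R) (x : E n) (hx : x ≠ 0) (hxR : ‖x‖ ≤ 4 * R) (g : E n → ℂ)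
    (hg : Measurable g) (M : ℝ) (hM : ∀ y, ‖g y‖ ≤ M) (κ : ℝ) (hκ : 0 < κ) (e : E n)
    (he : ‖(‖x‖⁻¹ • x) - e‖ < κ) :
    ‖T (A R g) x‖ ≤ ‖T (A R ((Nb κ e).indicator g)) x‖ +
      Ct * M * Real.exp (-(‖x‖ ^ 2 * κ ^ 2 / (200 * R))) := by
  have hR0 : (0 : ℝ) ≤ R := by linarith
  have hM0 : 0 ≤ M := (norm_nonneg _).trans (hM x)
  have hN := Nb_meas κ e
  have hg1 : Measurable ((Nb κ e).indicator g) := hg.indicator hN
  have hb1 : ∀ y, ‖(Nb κ e).indicator g y‖ ≤ M := fun y =>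
    (norm_indicator_le_norm_self _ _).trans (hM y)
  set g2 : E n → ℂ := fun y => g y - (Nb κ e).indicator g y with hg2
  have hg2m : Measurable g2 := hg.sub hg1
  have hg2v : ∀ y, g2 y = (Nb κ e)ᶜ.indicator g y := by
    intro y
    rw [hg2]
    by_cases hy : y ∈ Nb κ e
    · rw [indicator_of_notMem (by simpa using hy)]
      simp [indicator_of_mem hy]
    · rw [indicator_of_mem (by simpa using hy)]
      simp [indicator_of_notMem hy]
  have hb2 : ∀ y, ‖g2 y‖ ≤ M := fun y => by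
    rw [hg2v]
    exact (norm_indicator_le_norm_self _ _).trans (hM y)
  have hadd := T_add (A_meas R hg) (A_meas R hg1) (A_bound R hR0 hM) (A_bound R hR0 hb1) x
  have hfun : (fun y => A R g y - A R ((Nb κ e).indicator g) y) = A R g2 := by
    funext y
    exact (A_sub_aux R hR0 hg hg1 hM hb1 y).symm
  rw [hfun] at hadd
  rw [hadd]
  refine (norm_add_le _ _).trans (add_le_add le_rfl ?_)
  apply hCt R hR x hx hxR g2 hg2m M hb2 κ hκ
  · intro w _ hw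
    rw [hg2v]
    apply indicator_of_notMem
    rw [mem_compl_iff, not_not]
    left
    have : e - w = -((‖x‖⁻¹ • x) - e) + ((‖x‖⁻¹ • x) - w) := by abel
    rw [this]
    refine (norm_add_le _ _).trans_lt ?_
    rw [norm_neg]
    linarith
  · intro w _ hw
    rw [hg2v]
    apply indicator_of_notMem
    rw [mem_compl_iff, not_not]
    right
    have : e + w = -((‖x‖⁻¹ • x) - e) + ((‖x‖⁻¹ • x) + w) := by abel
    rw [this]
    refine (norm_add_le _ _).trans_lt ?_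
    rw [norm_neg]
    linarith

/-- exponential decay beats powers -/
lemma exp_beats (n : ℕ) (p ε : ℝ) (hp : 0 < p) (hε : 0 < ε) : ∃ C : ℝ, 0 < C ∧
    ∀ ρ : ℝ, 1 ≤ ρ → ρ ^ (2 * n) * Real.exp (-(p / 200 * ρ ^ (2 * ε))) ≤ C := by
  set m : ℕ := ⌈(n : ℝ) / ε⌉₊ with hm
  refine ⟨(m.factorial : ℝ) / (p / 200) ^ m, by positivity, ?_⟩
  intro ρ hρ
  have hρ0 : 0 < ρ := by linarith
  have hm1 : (n : ℝ) / ε ≤ m := Nat.le_ceil _
  have hm2 : (n : ℝ) ≤ m * ε := by rwa [div_le_iff₀ hε] at hm1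
  have h1 : ρ ^ (2 * n) ≤ (ρ ^ (2 * ε)) ^ m := by
    rw [← Real.rpow_natCast, ← Real.rpow_natCast, ← Real.rpow_mul hρ0.le]
    apply Real.rpow_le_rpow_of_exponent_le hρ
    push_cast
    nlinarith
  have hy : 0 ≤ p / 200 * ρ ^ (2 * ε) := by positivity
  have h2 := Real.pow_div_factorial_le_exp _ hy m
  have h3 : (ρ ^ (2 * ε)) ^ m * Real.exp (-(p / 200 * ρ ^ (2 * ε))) ≤
      (m.factorial : ℝ) / (p / 200) ^ m := by
    rw [Real.exp_neg, ← div_eq_mul_inv, div_le_div_iff₀ (Real.exp_pos _) (by positivity)]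
    rw [div_le_iff₀ (by positivity), mul_pow] at h2
    linarith
  exact (mul_le_mul_of_nonneg_right h1 (Real.exp_pos _).le).trans h3

lemma cone_meas {n : ℕ} (κ : ℝ) :
    MeasurableSet {z : E n × E n | ‖(‖z.1‖⁻¹ • z.1) - z.2‖ < κ} := by
  apply measurableSet_lt _ measurable_const
  apply Measurable.norm
  apply Measurable.sub _ measurable_snd
  exact (measurable_fst.norm.inv).smul measurable_fst

/-- the measure of directions: `∫ σ(Nb e) |g|^2` -/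
lemma Nb_fubini {n : ℕ} {B : ℝ} (hB : 0 ≤ B) (κ : ℝ)
    (hNb : ∀ e : E n, ‖e‖ = 1 → (sg n).real (Nb κ e) ≤ B) (g : E n → ℂ) (hg : Measurable g)
    (M : ℝ) (hM : ∀ y, ‖g y‖ ≤ M) :
    ∫⁻ e, ENNReal.ofReal (∫ w, ‖(Nb κ e).indicator g w‖ ^ 2 ∂(sg n)) ∂(sg n) ≤
      ENNReal.ofReal (B * ∫ w, ‖g w‖ ^ 2 ∂(sg n)) := by
  haveI := sg_finite n
  have hint : ∀ h : E n → ℂ, Measurable h → (∀ y, ‖h y‖ ≤ M) →
      ENNReal.ofReal (∫ w, ‖h w‖ ^ 2 ∂(sg n)) = ∫⁻ w, ENNReal.ofReal (‖h w‖ ^ 2) ∂(sg n) := by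
    intro h hh hb
    rw [ofReal_integral_eq_lintegral_ofReal]
    · apply Integrable.of_bound (C := M ^ 2) (hh.norm.pow_const 2).aestronglyMeasurable
      filter_upwards with w
      rw [Real.norm_eq_abs, abs_of_nonneg (by positivity)]
      exact pow_le_pow_left₀ (norm_nonneg _) (hb w) 2
    · filter_upwards with w
      positivity
  have h1 : ∀ e : E n, ENNReal.ofReal (∫ w, ‖(Nb κ e).indicator g w‖ ^ 2 ∂(sg n)) =
      ∫⁻ w, ({z : E n × E n | z.2 ∈ Nb κ z.1}).indicator (fun z => ENNReal.ofReal (‖g z.2‖ ^ 2))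
        (e, w) ∂(sg n) := by
    intro e
    rw [hint _ (hg.indicator (Nb_meas κ e))
      (fun y => (norm_indicator_le_norm_self _ _).trans (hM y))]
    apply lintegral_congr
    intro w
    by_cases hw : w ∈ Nb κ e
    · rw [indicator_of_mem hw, indicator_of_mem (show (e, w) ∈ {z : E n × E n | z.2 ∈ Nb κ z.1}
        from hw)]
    · rw [indicator_of_notMem hw, indicator_of_notMem
        (show (e, w) ∉ {z : E n × E n | z.2 ∈ Nb κ z.1} from hw)]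
      simp
  simp_rw [h1]
  rw [lintegral_lintegral_swap]
  · rw [ENNReal.ofReal_mul hB, hint g hg hM, ← lintegral_const_mul' _ _ ENNReal.ofReal_ne_top]
    apply lintegral_mono_ae
    filter_upwards [sg_ae n] with w hw
    have h2 : ∫⁻ e, ({z : E n × E n | z.2 ∈ Nb κ z.1}).indicator
        (fun z => ENNReal.ofReal (‖g z.2‖ ^ 2)) (e, w) ∂(sg n) =
        ∫⁻ e, (Nb κ w).indicator (fun _ => ENNReal.ofReal (‖g w‖ ^ 2)) e ∂(sg n) := by
      apply lintegral_congr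
      intro e
      by_cases he : e ∈ Nb κ w
      · rw [indicator_of_mem he, indicator_of_mem (show (e, w) ∈ {z : E n × E n | z.2 ∈ Nb κ z.1}
          from (Nb_symm κ e w).mpr he)]
      · rw [indicator_of_notMem he, indicator_of_notMem
          (show (e, w) ∉ {z : E n × E n | z.2 ∈ Nb κ z.1} from
            fun h => he ((Nb_symm κ e w).mp h))]
    rw [h2, lintegral_indicator_const (Nb_meas κ w), mul_comm]
    apply mul_le_mul_left
    rw [← ENNReal.ofReal_toReal (measure_ne_top (sg n) (Nb κ w))]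
    exact ENNReal.ofReal_le_ofReal (hNb w hw)
  · apply Measurable.aemeasurable
    apply Measurable.indicator _ (Nb_meas2 κ)
    exact ((hg.comp measurable_snd).norm.pow_const 2).ennreal_ofReal

/-- the main inequality with all constants kept -/
lemma block_main {n : ℕ} (hn : 2 ≤ n) (p : ℝ) (hp : 2 < p) {Ct Cu cl Cp : ℝ}
    (hCt0 : 0 < Ct) (hCu0 : 0 < Cu) (hcl0 : 0 < cl) (hCp0 : 0 < Cp)
    (hCt : ∀ R : ℝ, 1 ≤ R → ∀ x : E n, x ≠ 0 →
      ‖x‖ ≤ 4 * R → ∀ g : E n → ℂ, Measurable g → ∀ M : ℝ, (∀ y, ‖g y‖ ≤ M) → ∀ κ : ℝ, 0 < κ →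
      (∀ w : E n, ‖w‖ = 1 → ‖(‖x‖⁻¹ • x) - w‖ < κ → g w = 0) →
      (∀ w : E n, ‖w‖ = 1 → ‖(‖x‖⁻¹ • x) + w‖ < κ → g w = 0) →
      ‖T (A R g) x‖ ≤ Ct * M * Real.exp (-(‖x‖ ^ 2 * κ ^ 2 / (200 * R))))
    (hCu : ∀ κ : ℝ, 0 < κ → ∀ y : E n,
      ‖y‖ = 1 → (sg n).real {w | ‖y - w‖ < κ} ≤ Cu * κ ^ (n - 1))
    (hcl : ∀ κ : ℝ, 0 < κ → κ ≤ 1 →
      ∀ y : E n, ‖y‖ = 1 → cl * κ ^ (n - 1) ≤ (sg n).real {w | ‖y - w‖ < κ})
    (hCp : ∀ g : E n → ℂ,
      Measurable g → (∃ M : ℝ, ∀ x, ‖g x‖ ≤ M) → ∀ L : ℝ, 1 ≤ L →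
      ∫⁻ x in closedBall (0 : E n) L, ENNReal.ofReal (‖T g x‖ ^ p) ≤
        ENNReal.ofReal (Cp * (∫ w, ‖g w‖ ^ 2 ∂(sg n)) ^ (p / 2) *
          L ^ (1 - ((n : ℝ) - 1) * (p - 2) / 4)))
    (ρ : ℝ) (hρ : 1 ≤ ρ) (R : ℝ) (hR : 1 ≤ R) (hρR : ρ / 2 ≤ R) (κ : ℝ) (hκ : 0 < κ)
    (hκ1 : κ ≤ 1) (g : E n → ℂ) (hg : Measurable g) (M : ℝ) (hM : ∀ x, ‖g x‖ ≤ M) :
    ENNReal.ofReal (cl * κ ^ (n - 1)) *
      ∫⁻ x in {x : E n | ρ ≤ ‖x‖ ∧ ‖x‖ < 2 * ρ}, ENNReal.ofReal (‖T (A R g) x‖ ^ p) ≤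
    ENNReal.ofReal (2 ^ p * (Cp * (M ^ 2 * (2 * Cu * (2 * κ) ^ (n - 1))) ^ ((p - 2) / 2) *
      (2 * ρ) ^ (1 - ((n : ℝ) - 1) * (p - 2) / 4) * ((2 * Cu * (2 * κ) ^ (n - 1)) *
        ∫ w, ‖g w‖ ^ 2 ∂(sg n)) +
      (Ct * M * Real.exp (-(ρ ^ 2 * κ ^ 2 / (200 * R)))) ^ p *
        ((volume : Measure (E n)).real (closedBall 0 (2 * ρ))) * (sg n).real univ)) := by
  haveI := sg_finite n
  have hM0 : 0 ≤ M := (norm_nonneg _).trans (hM 0)
  have hR0 : (0 : ℝ) < R := by linarith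
  have hρ0 : (0 : ℝ) < ρ := by linarith
  set F : E n → ℝ≥0∞ := fun x => ENNReal.ofReal (‖T (A R g) x‖ ^ p) with hF
  have hTm : Measurable (T (A R g)) := T_meas (A_meas R hg)
  have hFm : Measurable F := (hTm.norm.pow_const p).ennreal_ofReal
  set Sh : Set (E n) := {x : E n | ρ ≤ ‖x‖ ∧ ‖x‖ < 2 * ρ} with hSh
  have hShm : MeasurableSet Sh :=
    (measurableSet_le measurable_const measurable_norm).inter
      (measurableSet_lt measurable_norm measurable_const)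
  set Z : Set (E n × E n) := {z : E n × E n | ‖(‖z.1‖⁻¹ • z.1) - z.2‖ < κ} with hZ
  have hZm : MeasurableSet Z := cone_meas κ
  -- step 1
  have s1 : ∀ x ∈ Sh, ENNReal.ofReal (cl * κ ^ (n - 1)) * F x ≤
      ∫⁻ e, Z.indicator (fun z => F z.1) (x, e) ∂(sg n) := by
    intro x hx
    have hx0 : x ≠ 0 := by
      rintro rfl
      have := hx.1
      rw [norm_zero] at this
      linarith
    have hxn : 0 < ‖x‖ := norm_pos_iff.mpr hx0
    have hxh : ‖(‖x‖⁻¹ • x)‖ = 1 := by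
      rw [norm_smul, norm_inv, norm_norm, inv_mul_cancel₀ hxn.ne']
    have e1 : ∫⁻ e, Z.indicator (fun z => F z.1) (x, e) ∂(sg n) =
        ∫⁻ e, ({e : E n | ‖(‖x‖⁻¹ • x) - e‖ < κ}).indicator (fun _ => F x) e ∂(sg n) := by
      apply lintegral_congr
      intro e
      by_cases he : ‖(‖x‖⁻¹ • x) - e‖ < κ
      · rw [indicator_of_mem (show (x, e) ∈ Z from he),
          indicator_of_mem (show e ∈ {e : E n | ‖(‖x‖⁻¹ • x) - e‖ < κ} from he)]
      · rw [indicator_of_notMem (show (x, e) ∉ Z from he),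
          indicator_of_notMem (show e ∉ {e : E n | ‖(‖x‖⁻¹ • x) - e‖ < κ} from he)]
    rw [e1, lintegral_indicator_const (cap_meas κ _), mul_comm]
    apply mul_le_mul_right
    rw [← ENNReal.ofReal_toReal (measure_ne_top (sg n) {e : E n | ‖(‖x‖⁻¹ • x) - e‖ < κ})]
    exact ENNReal.ofReal_le_ofReal (hcl κ hκ hκ1 _ hxh)
  -- step 2
  have s2 : ENNReal.ofReal (cl * κ ^ (n - 1)) * ∫⁻ x in Sh, F x ≤
      ∫⁻ e, (∫⁻ x in Sh, Z.indicator (fun z => F z.1) (x, e)) ∂(sg n) := by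
    rw [← lintegral_const_mul' _ _ ENNReal.ofReal_ne_top]
    refine (setLIntegral_mono' hShm s1).trans (le_of_eq ?_)
    rw [lintegral_lintegral_swap]
    apply Measurable.aemeasurable
    exact (hFm.comp measurable_fst).indicator hZm
  -- step 3
  set τ : ℝ := (Ct * M * Real.exp (-(ρ ^ 2 * κ ^ 2 / (200 * R)))) ^ p with hτ
  have hτ0 : 0 ≤ τ := by positivity
  set V : ℝ := (volume : Measure (E n)).real (closedBall 0 (2 * ρ)) with hV
  set B : ℝ := 2 * Cu * (2 * κ) ^ (n - 1) with hB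
  have hB0 : 0 ≤ B := by positivity
  set α : ℝ := 1 - ((n : ℝ) - 1) * (p - 2) / 4 with hα
  set K : ℝ := Cp * (M ^ 2 * B) ^ ((p - 2) / 2) * (2 * ρ) ^ α with hK
  have hK0 : 0 ≤ K := by positivity
  have hVeq : (volume : Measure (E n)) (closedBall 0 (2 * ρ)) = ENNReal.ofReal V := by
    rw [hV, measureReal_def, ENNReal.ofReal_toReal measure_closedBall_lt_top.ne]
  have s3 : ∀ e : E n, ‖e‖ = 1 → ∫⁻ x in Sh, Z.indicator (fun z => F z.1) (x, e) ≤
      ENNReal.ofReal (2 ^ p) * (ENNReal.ofReal K *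
        ENNReal.ofReal (∫ w, ‖(Nb κ e).indicator g w‖ ^ 2 ∂(sg n)) +
        ENNReal.ofReal (τ * V)) := by
    intro e he
    have hg1 : Measurable ((Nb κ e).indicator g) := hg.indicator (Nb_meas κ e)
    have hb1 : ∀ y, ‖(Nb κ e).indicator g y‖ ≤ M := fun y =>
      (norm_indicator_le_norm_self _ _).trans (hM y)
    have hpt : ∀ x ∈ Sh, Z.indicator (fun z => F z.1) (x, e) ≤
        ENNReal.ofReal (2 ^ p) *
          (ENNReal.ofReal (‖T (A R ((Nb κ e).indicator g)) x‖ ^ p) + ENNReal.ofReal τ) := by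
      intro x hx
      by_cases hxe : ‖(‖x‖⁻¹ • x) - e‖ < κ
      · rw [indicator_of_mem (show (x, e) ∈ Z from hxe)]
        have hx0 : x ≠ 0 := by
          rintro rfl
          have := hx.1
          rw [norm_zero] at this
          linarith
        have hx4 : ‖x‖ ≤ 4 * R := by
          have := hx.2
          linarith
        have h1 := block_split hCt R hR x hx0 hx4 g hg M hM κ hκ e hxe
        have h2 : Ct * M * Real.exp (-(‖x‖ ^ 2 * κ ^ 2 / (200 * R))) ≤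
            Ct * M * Real.exp (-(ρ ^ 2 * κ ^ 2 / (200 * R))) := by
          apply mul_le_mul_of_nonneg_left _ (by positivity)
          apply Real.exp_le_exp.mpr
          apply neg_le_neg
          apply div_le_div_of_nonneg_right _ (by positivity)
          apply mul_le_mul_of_nonneg_right _ (by positivity)
          exact pow_le_pow_left₀ hρ0.le hx.1 2
        have h3 : ‖T (A R g) x‖ ^ p ≤ 2 ^ p *
            (‖T (A R ((Nb κ e).indicator g)) x‖ ^ p + τ) := by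
          refine (Real.rpow_le_rpow (norm_nonneg _) (h1.trans (add_le_add le_rfl h2))
            (by linarith)).trans ?_
          exact add_rpow_le _ _ _ (norm_nonneg _) (by positivity) (by linarith)
        change ENNReal.ofReal (‖T (A R g) x‖ ^ p) ≤ _
        refine (ENNReal.ofReal_le_ofReal h3).trans (le_of_eq ?_)
        rw [ENNReal.ofReal_mul (by positivity), ENNReal.ofReal_add (by positivity) hτ0]
      · rw [indicator_of_notMem (show (x, e) ∉ Z from hxe)]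
        exact zero_le
    refine (setLIntegral_mono' hShm hpt).trans ?_
    rw [lintegral_const_mul' _ _ ENNReal.ofReal_ne_top]
    apply mul_le_mul_right
    rw [lintegral_add_right _ measurable_const]
    have hsub : Sh ⊆ closedBall (0 : E n) (2 * ρ) := by
      intro x hx
      rw [mem_closedBall_zero_iff]
      exact hx.2.le
    apply add_le_add
    · refine (lintegral_mono_set hsub).trans ?_
      have h1 := hCp (A R ((Nb κ e).indicator g)) (A_meas R hg1)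
        ⟨M, A_bound R hR0.le hb1⟩ (2 * ρ) (by linarith)
      refine h1.trans ?_
      rw [← ENNReal.ofReal_mul hK0]
      apply ENNReal.ofReal_le_ofReal
      set I : ℝ := ∫ w, ‖(Nb κ e).indicator g w‖ ^ 2 ∂(sg n) with hI
      have hI0 : 0 ≤ I := integral_nonneg fun _ => by positivity
      have hJ0 : 0 ≤ ∫ w, ‖A R ((Nb κ e).indicator g) w‖ ^ 2 ∂(sg n) :=
        integral_nonneg fun _ => by positivity
      have h2 : ∫ w, ‖A R ((Nb κ e).indicator g) w‖ ^ 2 ∂(sg n) ≤ I :=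
        A_L2 n hn R hR0 _ hg1 ⟨M, hb1⟩
      have h3 : I ≤ M ^ 2 * B := by
        have h4 : I ≤ ∫ w, (Nb κ e).indicator (fun _ => M ^ 2) w ∂(sg n) := by
          apply integral_mono_of_nonneg
          · exact Filter.Eventually.of_forall fun _ => by positivity
          · exact (integrable_const _).indicator (Nb_meas κ e)
          · refine Filter.Eventually.of_forall fun w => ?_
            by_cases hw : w ∈ Nb κ e
            · simp only [indicator_of_mem hw]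
              exact pow_le_pow_left₀ (norm_nonneg _) (hM w) 2
            · simp only [indicator_of_notMem hw]
              simp
        refine h4.trans ?_
        rw [integral_indicator_const _ (Nb_meas κ e), smul_eq_mul, mul_comm]
        exact mul_le_mul_of_nonneg_left (Nb_upper hCu κ hκ e he) (by positivity)
      have h5 : (∫ w, ‖A R ((Nb κ e).indicator g) w‖ ^ 2 ∂(sg n)) ^ (p / 2) ≤
          (M ^ 2 * B) ^ ((p - 2) / 2) * I := by
        refine (Real.rpow_le_rpow hJ0 h2 (by linarith)).trans ?_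
        rcases hI0.eq_or_lt with h | h
        · rw [← h, Real.zero_rpow (by linarith), mul_zero]
        · have e5 : I ^ (p / 2) = I ^ ((p - 2) / 2) * I := by
            rw [← Real.rpow_add_one h.ne']
            congr 1
            ring
          rw [e5]
          exact mul_le_mul_of_nonneg_right (Real.rpow_le_rpow hI0 h3 (by linarith)) hI0
      have hρα : 0 ≤ (2 * ρ) ^ α := by positivity
      calc Cp * (∫ w, ‖A R ((Nb κ e).indicator g) w‖ ^ 2 ∂(sg n)) ^ (p / 2) * (2 * ρ) ^ α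
          ≤ Cp * ((M ^ 2 * B) ^ ((p - 2) / 2) * I) * (2 * ρ) ^ α :=
            mul_le_mul_of_nonneg_right (mul_le_mul_of_nonneg_left h5 hCp0.le) hρα
        _ = K * I := by rw [hK]; ring
    · rw [setLIntegral_const, ENNReal.ofReal_mul hτ0, ← hVeq]
      apply mul_le_mul_right
      exact measure_mono hsub
  -- step 4
  refine s2.trans ?_
  have s4 : ∫⁻ e, (∫⁻ x in Sh, Z.indicator (fun z => F z.1) (x, e)) ∂(sg n) ≤
      ∫⁻ e, ENNReal.ofReal (2 ^ p) * (ENNReal.ofReal K *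
        ENNReal.ofReal (∫ w, ‖(Nb κ e).indicator g w‖ ^ 2 ∂(sg n)) +
        ENNReal.ofReal (τ * V)) ∂(sg n) := by
    apply lintegral_mono_ae
    filter_upwards [sg_ae n] with e he
    exact s3 e he
  refine s4.trans ?_
  rw [lintegral_const_mul' _ _ ENNReal.ofReal_ne_top, lintegral_add_right _ measurable_const,
    lintegral_const_mul' _ _ ENNReal.ofReal_ne_top, lintegral_const]
  have hVn : 0 ≤ V := measureReal_nonneg
  have hG0 : 0 ≤ ∫ w, ‖g w‖ ^ 2 ∂(sg n) := integral_nonneg fun _ => by positivity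
  have hSeq : (sg n) univ = ENNReal.ofReal ((sg n).real univ) := by
    rw [measureReal_def, ENNReal.ofReal_toReal (measure_ne_top _ _)]
  have hτV : 0 ≤ τ * V := mul_nonneg hτ0 hVn
  have hS0 : 0 ≤ (sg n).real univ := measureReal_nonneg
  have hfin : ENNReal.ofReal (2 ^ p * (K * (B * ∫ w, ‖g w‖ ^ 2 ∂(sg n)) +
      τ * V * (sg n).real univ)) = ENNReal.ofReal (2 ^ p) * (ENNReal.ofReal K *
        ENNReal.ofReal (B * ∫ w, ‖g w‖ ^ 2 ∂(sg n)) +
        ENNReal.ofReal (τ * V) * ENNReal.ofReal ((sg n).real univ)) := by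
    rw [ENNReal.ofReal_mul (p := 2 ^ p) (by positivity),
      ENNReal.ofReal_add (mul_nonneg hK0 (mul_nonneg hB0 hG0)) (mul_nonneg hτV hS0),
      ENNReal.ofReal_mul (p := K) hK0, ENNReal.ofReal_mul (p := τ * V) hτV]
  change _ ≤ ENNReal.ofReal (2 ^ p * (K * (B * ∫ w, ‖g w‖ ^ 2 ∂(sg n)) +
      τ * V * (sg n).real univ))
  rw [hfin, hSeq]
  apply mul_le_mul_right
  apply add_le_add _ le_rfl
  apply mul_le_mul_right
  exact Nb_fubini hB0 κ (fun e he => Nb_upper hCu κ hκ e he) g hg M hM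

/-- Task U4. -/
theorem block (n : ℕ) (hn : 2 ≤ n) (p : ℝ) (hp : 2 < p)
    (hp' : p < 2 * ((n : ℝ) + 1) / ((n : ℝ) - 1)) (ε : ℝ) (hε : 0 < ε) : ∃ C : ℝ, 0 < C ∧
    ∀ ρ : ℝ, 1 ≤ ρ → ∀ R : ℝ, 1 ≤ R → ρ / 2 ≤ R → ρ ^ ε * R ^ (1 / 2 : ℝ) ≤ ρ →
    ∀ g : E n → ℂ, Measurable g → ∀ M : ℝ, (∀ x, ‖g x‖ ≤ M) →
    ∫⁻ x in {x : E n | ρ ≤ ‖x‖ ∧ ‖x‖ < 2 * ρ}, ENNReal.ofReal (‖T (A R g) x‖ ^ p) ≤
      ENNReal.ofReal (C * (ρ ^ (1 - ((n : ℝ) - 1) * (p - 2) / 4) *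
        (ρ ^ ε * R ^ (1 / 2 : ℝ) / ρ) ^ (((n : ℝ) - 1) * (p - 2) / 2) * M ^ (p - 2) *
          (∫ w, ‖g w‖ ^ 2 ∂(sg n)) + M ^ p * ρ ^ (-1 : ℝ))) := by
  haveI := sg_finite n
  obtain ⟨Ct, hCt0, hCt⟩ := tail n hn
  obtain ⟨Cu, hCu0, hCu⟩ := cap_upper n hn
  obtain ⟨cl, hcl0, hcl⟩ := cap_lower n hn
  obtain ⟨Cp, hCp0, hCp⟩ := Lp_bound n hn p hp hp'
  obtain ⟨Ce, hCe0, hCe⟩ := exp_beats n p ε (by linarith) hε
  set α : ℝ := 1 - ((n : ℝ) - 1) * (p - 2) / 4 with hα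
  set V1 : ℝ := (volume : Measure (E n)).real (closedBall 0 1) with hV1
  set S1 : ℝ := (sg n).real univ with hS1
  have hV10 : 0 ≤ V1 := measureReal_nonneg
  have hS10 : 0 ≤ S1 := measureReal_nonneg
  set A1 : ℝ := 2 ^ p / cl * (Cp * (2 * Cu * 2 ^ (n - 1)) ^ ((p - 2) / 2) * 2 ^ α *
    (2 * Cu * 2 ^ (n - 1))) with hA1
  set A2 : ℝ := 2 ^ p / cl * (Ct ^ p * (2 ^ n * V1) * S1 * Ce) with hA2
  have hA10 : 0 < A1 := by positivity
  have hA20 : 0 ≤ A2 := by positivity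
  refine ⟨A1 + A2, by positivity, ?_⟩
  intro ρ hρ R hR hρR hκc g hg M hM
  have hM0 : 0 ≤ M := (norm_nonneg _).trans (hM 0)
  have hR0 : (0 : ℝ) < R := by linarith
  have hρ0 : (0 : ℝ) < ρ := by linarith
  set κ : ℝ := ρ ^ ε * R ^ (1 / 2 : ℝ) / ρ with hκd
  have hκ : 0 < κ := by positivity
  have hκ1 : κ ≤ 1 := by
    rw [hκd, div_le_one hρ0]
    exact hκc
  have hmain := block_main hn p hp hCt0 hCu0 hcl0 hCp0 hCt hCu hcl hCp ρ hρ R hR hρR κ hκ hκ1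
    g hg M hM
  set G : ℝ := ∫ w, ‖g w‖ ^ 2 ∂(sg n) with hG
  have hG0 : 0 ≤ G := integral_nonneg fun _ => by positivity
  set X : ℝ≥0∞ := ∫⁻ x in {x : E n | ρ ≤ ‖x‖ ∧ ‖x‖ < 2 * ρ},
    ENNReal.ofReal (‖T (A R g) x‖ ^ p) with hX
  have hcκ : 0 < cl * κ ^ (n - 1) := by positivity
  -- rewrite the right-hand side
  have hVρ : (volume : Measure (E n)).real (closedBall 0 (2 * ρ)) = (2 * ρ) ^ n * V1 := by
    rw [hV1, measureReal_def, measureReal_def]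
    have h1 := Measure.addHaar_closedBall (volume : Measure (E n)) 0
      (show (0 : ℝ) ≤ 2 * ρ by positivity)
    have h2 := Measure.addHaar_closedBall (volume : Measure (E n)) 0
      (show (0 : ℝ) ≤ 1 by norm_num)
    rw [h1, h2]
    have hfr : Module.finrank ℝ (E n) = n := by simp
    rw [hfr, ENNReal.toReal_mul, ENNReal.toReal_mul, ENNReal.toReal_ofReal (by positivity),
      ENNReal.toReal_ofReal (by positivity)]
    ring
  have hexp : ρ ^ 2 * κ ^ 2 / (200 * R) = ρ ^ (2 * ε) / 200 := by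
    have h1 : (R ^ (1 / 2 : ℝ)) ^ 2 = R := by
      rw [← Real.rpow_natCast, ← Real.rpow_mul hR0.le]
      norm_num
    have h2 : (ρ ^ ε) ^ 2 = ρ ^ (2 * ε) := by
      rw [← Real.rpow_natCast, ← Real.rpow_mul hρ0.le]
      congr 1
      push_cast
      ring
    rw [hκd, div_pow, mul_pow, h1, h2]
    field_simp
  have hτ : (Ct * M * Real.exp (-(ρ ^ 2 * κ ^ 2 / (200 * R)))) ^ p =
      Ct ^ p * M ^ p * Real.exp (-(p / 200 * ρ ^ (2 * ε))) := by
    rw [hexp, Real.mul_rpow (by positivity) (Real.exp_pos _).le, Real.mul_rpow hCt0.le hM0,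
      ← Real.exp_mul]
    congr 2
    ring
  have hMpow : (M ^ 2 * (2 * Cu * (2 * κ) ^ (n - 1))) ^ ((p - 2) / 2) =
      M ^ (p - 2) * (2 * Cu * 2 ^ (n - 1)) ^ ((p - 2) / 2) *
        κ ^ (((n : ℝ) - 1) * (p - 2) / 2) := by
    have e1 : M ^ 2 * (2 * Cu * (2 * κ) ^ (n - 1)) =
        M ^ 2 * (2 * Cu * 2 ^ (n - 1)) * κ ^ (n - 1) := by
      rw [mul_pow]; ring
    rw [e1, Real.mul_rpow (by positivity) (by positivity), Real.mul_rpow (by positivity)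
      (by positivity), ← Real.rpow_natCast M 2, ← Real.rpow_mul hM0,
      ← Real.rpow_natCast κ (n - 1), ← Real.rpow_mul hκ.le]
    congr 2
    · congr 1
      push_cast
      ring
    · rw [Nat.cast_sub (by omega)]
      push_cast
      ring
  have hρpow : (2 * ρ) ^ α = 2 ^ α * ρ ^ α := Real.mul_rpow (by norm_num) hρ0.le
  have hκinv : 1 ≤ κ * ρ := by
    rw [hκd, div_mul_cancel₀ _ hρ0.ne']
    have h1 : 1 ≤ ρ ^ ε := Real.one_le_rpow hρ hε.le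
    have h2 : 1 ≤ R ^ (1 / 2 : ℝ) := Real.one_le_rpow hR (by norm_num)
    nlinarith
  have hκinv2 : 1 ≤ κ ^ (n - 1) * ρ ^ (n - 1) := by
    rw [← mul_pow]
    exact one_le_pow₀ hκinv
  -- the real inequality
  set Y : ℝ := 2 ^ p * (Cp * (M ^ 2 * (2 * Cu * (2 * κ) ^ (n - 1))) ^ ((p - 2) / 2) *
      (2 * ρ) ^ α * ((2 * Cu * (2 * κ) ^ (n - 1)) * G) +
      (Ct * M * Real.exp (-(ρ ^ 2 * κ ^ 2 / (200 * R)))) ^ p *
        ((volume : Measure (E n)).real (closedBall 0 (2 * ρ))) * S1) with hY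
  have hfirst : Cp * (M ^ 2 * (2 * Cu * (2 * κ) ^ (n - 1))) ^ ((p - 2) / 2) *
      (2 * ρ) ^ α * ((2 * Cu * (2 * κ) ^ (n - 1)) * G) =
      κ ^ (n - 1) * ((Cp * (2 * Cu * 2 ^ (n - 1)) ^ ((p - 2) / 2) * 2 ^ α *
        (2 * Cu * 2 ^ (n - 1))) * (ρ ^ α * κ ^ (((n : ℝ) - 1) * (p - 2) / 2) *
          M ^ (p - 2) * G)) := by
    rw [hMpow, hρpow, mul_pow]
    ring
  have hsecond : (Ct * M * Real.exp (-(ρ ^ 2 * κ ^ 2 / (200 * R)))) ^ p *
        ((volume : Measure (E n)).real (closedBall 0 (2 * ρ))) * S1 ≤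
      κ ^ (n - 1) * ((Ct ^ p * (2 ^ n * V1) * S1 * Ce) * (M ^ p * ρ ^ (-1 : ℝ))) := by
    rw [hτ, hVρ]
    have h1 := hCe ρ hρ
    set ex : ℝ := Real.exp (-(p / 200 * ρ ^ (2 * ε))) with hex
    have hex0 : 0 < ex := Real.exp_pos _
    have h2 : ρ ^ (2 * n) = ρ ^ n * ρ ^ (n - 1) * ρ := by
      rw [← pow_add, ← pow_succ]
      congr 1
      omega
    have h3 : ρ ^ n * ex ≤ κ ^ (n - 1) * (Ce * ρ ^ (-1 : ℝ)) := by
      rw [Real.rpow_neg_one]
      have h4 : ρ ^ n * ex ≤ (κ ^ (n - 1) * ρ ^ (n - 1)) * (ρ ^ n * ex) :=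
        le_mul_of_one_le_left (by positivity) hκinv2
      have h5 : ρ ^ (n - 1) * (ρ ^ n * ex) ≤ Ce * ρ⁻¹ := by
        rw [← div_eq_mul_inv, le_div_iff₀ hρ0]
        calc ρ ^ (n - 1) * (ρ ^ n * ex) * ρ = ρ ^ (2 * n) * ex := by rw [h2]; ring
          _ ≤ Ce := h1
      calc ρ ^ n * ex ≤ (κ ^ (n - 1) * ρ ^ (n - 1)) * (ρ ^ n * ex) := h4
        _ = κ ^ (n - 1) * (ρ ^ (n - 1) * (ρ ^ n * ex)) := by ring
        _ ≤ κ ^ (n - 1) * (Ce * ρ⁻¹) := mul_le_mul_of_nonneg_left h5 (by positivity)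
    have h6 : 0 ≤ Ct ^ p * M ^ p * (2 ^ n * V1) * S1 := by positivity
    calc Ct ^ p * M ^ p * ex * ((2 * ρ) ^ n * V1) * S1 =
        Ct ^ p * M ^ p * (2 ^ n * V1) * S1 * (ρ ^ n * ex) := by rw [mul_pow]; ring
      _ ≤ Ct ^ p * M ^ p * (2 ^ n * V1) * S1 * (κ ^ (n - 1) * (Ce * ρ ^ (-1 : ℝ))) :=
          mul_le_mul_of_nonneg_left h3 h6
      _ = κ ^ (n - 1) * ((Ct ^ p * (2 ^ n * V1) * S1 * Ce) * (M ^ p * ρ ^ (-1 : ℝ))) := by ring
  set U1 : ℝ := ρ ^ α * κ ^ (((n : ℝ) - 1) * (p - 2) / 2) * M ^ (p - 2) * G with hU1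
  set U2 : ℝ := M ^ p * ρ ^ (-1 : ℝ) with hU2
  have hU10 : 0 ≤ U1 := by positivity
  have hU20 : 0 ≤ U2 := by positivity
  have hYle : Y ≤ (cl * κ ^ (n - 1)) * (A1 * U1 + A2 * U2) := by
    have h1 : Y ≤ 2 ^ p * (κ ^ (n - 1) * ((Cp * (2 * Cu * 2 ^ (n - 1)) ^ ((p - 2) / 2) * 2 ^ α *
        (2 * Cu * 2 ^ (n - 1))) * U1) + κ ^ (n - 1) * ((Ct ^ p * (2 ^ n * V1) * S1 * Ce) * U2)) := by
      rw [hY, hfirst]
      apply mul_le_mul_of_nonneg_left _ (by positivity)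
      exact add_le_add le_rfl hsecond
    refine h1.trans (le_of_eq ?_)
    rw [hA1, hA2]
    field_simp
  have hYle2 : Y ≤ (cl * κ ^ (n - 1)) * ((A1 + A2) * (U1 + U2)) := by
    refine hYle.trans (mul_le_mul_of_nonneg_left ?_ hcκ.le)
    nlinarith [mul_nonneg hA10.le hU20, mul_nonneg hA20 hU10]
  have hfin : ENNReal.ofReal (cl * κ ^ (n - 1)) * X ≤
      ENNReal.ofReal (cl * κ ^ (n - 1)) * ENNReal.ofReal ((A1 + A2) * (U1 + U2)) := by
    rw [← ENNReal.ofReal_mul hcκ.le]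
    exact hmain.trans (ENNReal.ofReal_le_ofReal hYle2)
  have hne : ENNReal.ofReal (cl * κ ^ (n - 1)) ≠ 0 := by
    rw [Ne, ENNReal.ofReal_eq_zero, not_le]
    exact hcκ
  exact (ENNReal.mul_le_mul_iff_right hne ENNReal.ofReal_ne_top).mp hfin

end Pool.Agent.H789R2.FR
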