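import Mathlib
import Pool.Agent.H789R2.FR.Core
import Pool.Agent.H789R2.FR.Arch
set_option autoImplicit false

/-! Task Q14: summation over the latitude rings. -/

namespace Pool.Agent.H789R2.FR

open MeasureTheory Measure Set Metric Complex Filter Topology
open scoped ENNReal Pointwise RealInnerProductSpace

namespace C3

lemma sc_cont : Continuous sc := by
  unfold sc
  fun_prop

lemma sc_le_one (c : ℝ) : sc c ≤ 1 := by
  unfold sc
  rw [Real.sqrt_le_one]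
  nlinarith [sq_nonneg c]

lemma sc_pos {c : ℝ} (hc : |c| < 1) : 0 < sc c := by
  unfold sc
  apply Real.sqrt_pos.mpr
  have := sq_lt_one_iff_abs_lt_one c |>.mpr hc
  linarith

lemma band_meas (μ : ℝ) : MeasurableSet (band μ) := by
  unfold band
  refine MeasurableSet.inter ?_ (MeasurableSet.inter ?_ ?_)
  · exact measurableSet_lt continuous_abs.measurable measurable_const
  · exact measurableSet_lt measurable_const sc_cont.measurable
  · exact measurableSet_le sc_cont.measurable measurable_const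

lemma coord_meas : Measurable (fun x : E 3 => x 2) := by fun_prop

lemma rot_meas (h : ℝ) : Measurable (rot h) := by
  have : Continuous (rot h) := by
    unfold rot
    fun_prop
  exact this.measurable

lemma rot_two (h : ℝ) (x : E 3) : (rot h x) 2 = x 2 := by
  simp [rot]

/-- the heights of a ring are contained in two intervals of length `μ^2` -/
lemma band_sub {μ : ℝ} (hμ : 0 < μ) (hμ1 : μ ≤ 1) {c : ℝ} (hc : c ∈ band μ) :
    (Real.sqrt (1 - μ ^ 2 / 4) - μ ^ 2 < c ∧ c ≤ Real.sqrt (1 - μ ^ 2 / 4)) ∨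
    (-Real.sqrt (1 - μ ^ 2 / 4) < c ∧ c ≤ -Real.sqrt (1 - μ ^ 2 / 4) + μ ^ 2) := by
  obtain ⟨h1, h2, h3⟩ := hc
  have hμ2 : μ ^ 2 ≤ 1 := by nlinarith
  have hμ2' : 0 < μ ^ 2 := by positivity
  have hcc : c ^ 2 < 1 := (sq_lt_one_iff_abs_lt_one c).mpr h1
  set q := Real.sqrt (1 - μ ^ 2 / 4) with hq
  have hq0 : 0 ≤ q := Real.sqrt_nonneg _
  have hqq : q ^ 2 = 1 - μ ^ 2 / 4 := Real.sq_sqrt (by nlinarith)
  have hq34 : 3 / 4 < q := by nlinarith
  have hs : sc c ^ 2 = 1 - c ^ 2 := Real.sq_sqrt (by linarith)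
  have hs0 : 0 ≤ sc c := Real.sqrt_nonneg _
  have h4 : 1 - c ^ 2 ≤ μ ^ 2 := by rw [← hs]; exact pow_le_pow_left₀ hs0 h3 2
  have h5 : μ ^ 2 / 4 < 1 - c ^ 2 := by
    rw [← hs]
    have : (μ / 2) ^ 2 < sc c ^ 2 := pow_lt_pow_left₀ h2 (by positivity) two_ne_zero
    nlinarith
  rcases le_or_gt 0 c with hc0 | hc0
  · left
    constructor
    · by_contra hcon
      push Not at hcon
      have h6 : μ ^ 2 ≤ q - c := by linarith
      have h7 : 3 / 4 < q + c := by linarith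
      have h8 : μ ^ 2 * (3 / 4) < (q - c) * (q + c) := by
        have h9 : μ ^ 2 * (3 / 4) < μ ^ 2 * (q + c) := by
          apply mul_lt_mul_of_pos_left h7 hμ2'
        have h10 : μ ^ 2 * (q + c) ≤ (q - c) * (q + c) := by
          apply mul_le_mul_of_nonneg_right h6 (by linarith)
        linarith
      nlinarith
    · apply le_of_lt
      apply lt_of_pow_lt_pow_left₀ 2 hq0
      rw [hqq]
      linarith
  · right
    have hc0' : 0 < -c := by linarith
    constructor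
    · have : -c < q := by
        apply lt_of_pow_lt_pow_left₀ 2 hq0
        rw [hqq]
        nlinarith
      linarith
    · by_contra hcon
      push Not at hcon
      have h6 : μ ^ 2 ≤ q - -c := by linarith
      have h7 : 3 / 4 < q + -c := by linarith
      have h8 : μ ^ 2 * (3 / 4) < (q - -c) * (q + -c) := by
        have h9 : μ ^ 2 * (3 / 4) < μ ^ 2 * (q + -c) := by
          apply mul_lt_mul_of_pos_left h7 hμ2'
        have h10 : μ ^ 2 * (q + -c) ≤ (q - -c) * (q + -c) := by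
          apply mul_le_mul_of_nonneg_right h6 (by linarith)
        linarith
      nlinarith

/-- the part of `G` in the ring `μ` -/
noncomputable def Gm (G : E 3 → ℂ) (μ : ℝ) (x : E 3) : ℂ :=
  ({x : E 3 | x 2 ∈ band μ}).indicator G x

lemma Gm_meas {G : E 3 → ℂ} (hG : Measurable G) (μ : ℝ) : Measurable (Gm G μ) := by
  unfold Gm
  exact hG.indicator (coord_meas (band_meas μ))

lemma Gm_bound {G : E 3 → ℂ} {M : ℝ} (hM : ∀ x, ‖G x‖ ≤ M) (μ : ℝ) (x : E 3) :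
    ‖Gm G μ x‖ ≤ M := by
  have hM0 : 0 ≤ M := (norm_nonneg _).trans (hM x)
  unfold Gm
  by_cases h : x ∈ {x : E 3 | x 2 ∈ band μ}
  · rw [indicator_of_mem h]
    exact hM x
  · rw [indicator_of_notMem h]
    simpa using hM0

lemma Gm_supp (G : E 3 → ℂ) (μ : ℝ) (x : E 3) (hx : x 2 ∉ band μ) : Gm G μ x = 0 := by
  unfold Gm
  exact indicator_of_notMem (s := {x : E 3 | x 2 ∈ band μ}) hx G

lemma Gm_reg {G : E 3 → ℂ} (hG : Measurable G) {M : ℝ} (hM : ∀ x, ‖G x‖ ≤ M) {s K : ℝ}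
    (hreg : ∀ h : ℝ, 0 < h → h ≤ 1 → ∀ a b : ℝ, -1 ≤ a → a < b → b ≤ 1 →
      ∫ x in {x : E 3 | a < x 2 ∧ x 2 ≤ b}, ‖G (rot (-h) x) - G x‖ ^ 2 ∂(sg 3) ≤
        K * h ^ (2 * s) * (b - a)) {μ : ℝ} (hμ : 0 < μ) (hμ1 : μ ≤ 1) (h : ℝ) (h0 : 0 < h)
    (h1 : h ≤ 1) :
    ∫ x, ‖Gm G μ (rot (-h) x) - Gm G μ x‖ ^ 2 ∂(sg 3) ≤ (2 * K) * h ^ (2 * s) * μ ^ 2 := by
  have := sg_finite 3
  set q := Real.sqrt (1 - μ ^ 2 / 4) with hq
  have hq0 : 0 ≤ q := Real.sqrt_nonneg _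
  have hq1 : q ≤ 1 := by
    rw [hq, Real.sqrt_le_one]
    nlinarith [sq_nonneg μ]
  have hμ2 : μ ^ 2 ≤ 1 := by nlinarith
  have hμ2' : 0 < μ ^ 2 := by positivity
  set f : E 3 → ℝ := fun x => ‖G (rot (-h) x) - G x‖ ^ 2 with hf
  have hfm : Measurable f := by
    have : Measurable (fun x => G (rot (-h) x) - G x) := (hG.comp (rot_meas (-h))).sub hG
    exact this.norm.pow_const 2
  have hfi : Integrable f (sg 3) := by
    refine Integrable.of_bound hfm.aestronglyMeasurable ((2 * M) ^ 2) ?_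
    filter_upwards with x
    rw [hf]
    simp only
    rw [Real.norm_eq_abs, abs_of_nonneg (sq_nonneg _)]
    apply pow_le_pow_left₀ (norm_nonneg _)
    calc ‖G (rot (-h) x) - G x‖ ≤ ‖G (rot (-h) x)‖ + ‖G x‖ := norm_sub_le _ _
      _ ≤ 2 * M := by
        have := hM (rot (-h) x)
        have := hM x
        linarith
  set S1 : Set (E 3) := {x : E 3 | q - μ ^ 2 < x 2 ∧ x 2 ≤ q} with hS1
  set S2 : Set (E 3) := {x : E 3 | -q < x 2 ∧ x 2 ≤ -q + μ ^ 2} with hS2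
  have hS1m : MeasurableSet S1 :=
    (measurableSet_lt measurable_const coord_meas).inter
      (measurableSet_le coord_meas measurable_const)
  have hS2m : MeasurableSet S2 :=
    (measurableSet_lt measurable_const coord_meas).inter
      (measurableSet_le coord_meas measurable_const)
  have e1 : ∫ x in S1, f x ∂(sg 3) ≤ K * h ^ (2 * s) * μ ^ 2 := by
    have := hreg h h0 h1 (q - μ ^ 2) q (by linarith) (by linarith) hq1
    have e : q - (q - μ ^ 2) = μ ^ 2 := by ring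
    rwa [e] at this
  have e2 : ∫ x in S2, f x ∂(sg 3) ≤ K * h ^ (2 * s) * μ ^ 2 := by
    have := hreg h h0 h1 (-q) (-q + μ ^ 2) (by linarith) (by linarith) (by linarith)
    have e : -q + μ ^ 2 - -q = μ ^ 2 := by ring
    rwa [e] at this
  have hpt : ∀ x, ‖Gm G μ (rot (-h) x) - Gm G μ x‖ ^ 2 ≤ S1.indicator f x + S2.indicator f x := by
    intro x
    have hf0 : ∀ y, 0 ≤ f y := fun y => sq_nonneg _
    have hi1 : 0 ≤ S1.indicator f x := indicator_nonneg (fun y _ => hf0 y) x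
    have hi2 : 0 ≤ S2.indicator f x := indicator_nonneg (fun y _ => hf0 y) x
    by_cases hx : x 2 ∈ band μ
    · have hx' : (rot (-h) x) 2 ∈ band μ := by rw [rot_two]; exact hx
      have ea : Gm G μ (rot (-h) x) = G (rot (-h) x) := by
        unfold Gm
        exact indicator_of_mem (s := {x : E 3 | x 2 ∈ band μ}) hx' G
      have eb : Gm G μ x = G x := by
        unfold Gm
        exact indicator_of_mem (s := {x : E 3 | x 2 ∈ band μ}) hx G
      rw [ea, eb]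
      rcases band_sub hμ hμ1 hx with h5 | h5
      · have h6 : x ∈ S1 := h5
        rw [indicator_of_mem h6]
        linarith
      · have h6 : x ∈ S2 := h5
        rw [indicator_of_mem h6]
        linarith
    · have hx' : (rot (-h) x) 2 ∉ band μ := by rw [rot_two]; exact hx
      rw [Gm_supp G μ x hx, Gm_supp G μ _ hx']
      simp only [sub_zero, norm_zero, ne_eq, OfNat.ofNat_ne_zero, not_false_eq_true, zero_pow]
      linarith
  have hi1 : Integrable (S1.indicator f) (sg 3) := hfi.indicator hS1m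
  have hi2 : Integrable (S2.indicator f) (sg 3) := hfi.indicator hS2m
  calc ∫ x, ‖Gm G μ (rot (-h) x) - Gm G μ x‖ ^ 2 ∂(sg 3)
      ≤ ∫ x, (S1.indicator f x + S2.indicator f x) ∂(sg 3) := by
        refine integral_mono_of_nonneg ?_ (hi1.add hi2) ?_
        · filter_upwards with x
          exact sq_nonneg _
        · filter_upwards with x
          exact hpt x
    _ = ∫ x in S1, f x ∂(sg 3) + ∫ x in S2, f x ∂(sg 3) := by
        rw [integral_add hi1 hi2, integral_indicator hS1m, integral_indicator hS2m]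
    _ ≤ (2 * K) * h ^ (2 * s) * μ ^ 2 := by linarith

/-- the part of `G` in the first `n` rings -/
noncomputable def Hn (G : E 3 → ℂ) (n : ℕ) (x : E 3) : ℂ :=
  ({x : E 3 | |x 2| < 1 ∧ (1 / 2 : ℝ) ^ n < sc (x 2)}).indicator G x

lemma Hn_bound {G : E 3 → ℂ} {M : ℝ} (hM : ∀ x, ‖G x‖ ≤ M) (n : ℕ) (x : E 3) :
    ‖Hn G n x‖ ≤ M := by
  have hM0 : 0 ≤ M := (norm_nonneg _).trans (hM x)
  unfold Hn
  by_cases h : x ∈ {x : E 3 | |x 2| < 1 ∧ (1 / 2 : ℝ) ^ n < sc (x 2)}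
  · rw [indicator_of_mem h]
    exact hM x
  · rw [indicator_of_notMem h]
    simpa using hM0

lemma Hn_sum (G : E 3 → ℂ) (n : ℕ) (x : E 3) :
    Hn G n x = ∑ m ∈ Finset.range n, Gm G ((1 / 2 : ℝ) ^ m) x := by
  induction n with
  | zero =>
    rw [Finset.sum_range_zero]
    unfold Hn
    apply indicator_of_notMem
    rintro ⟨_, h⟩
    rw [pow_zero] at h
    exact absurd h (not_lt.mpr (sc_le_one _))
  | succ n ih =>
    rw [Finset.sum_range_succ, ← ih]
    unfold Hn Gm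
    have e : (1 / 2 : ℝ) ^ (n + 1) = (1 / 2 : ℝ) ^ n / 2 := by rw [pow_succ]; ring
    have hp : 0 < (1 / 2 : ℝ) ^ n := by positivity
    by_cases h1 : |x 2| < 1
    · by_cases h2 : (1 / 2 : ℝ) ^ n < sc (x 2)
      · have ha : x ∈ {x : E 3 | |x 2| < 1 ∧ (1 / 2 : ℝ) ^ (n + 1) < sc (x 2)} :=
          ⟨h1, by rw [e]; linarith⟩
        have hb : x ∈ {x : E 3 | |x 2| < 1 ∧ (1 / 2 : ℝ) ^ n < sc (x 2)} := ⟨h1, h2⟩
        have hc : x ∉ {x : E 3 | x 2 ∈ band ((1 / 2 : ℝ) ^ n)} := by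
          rintro ⟨_, _, h3⟩
          linarith
        rw [indicator_of_mem ha, indicator_of_mem hb, indicator_of_notMem hc, add_zero]
      · have hb : x ∉ {x : E 3 | |x 2| < 1 ∧ (1 / 2 : ℝ) ^ n < sc (x 2)} := fun h => h2 h.2
        rw [indicator_of_notMem hb, zero_add]
        by_cases h3 : (1 / 2 : ℝ) ^ (n + 1) < sc (x 2)
        · have ha : x ∈ {x : E 3 | |x 2| < 1 ∧ (1 / 2 : ℝ) ^ (n + 1) < sc (x 2)} := ⟨h1, h3⟩
          have hc : x ∈ {x : E 3 | x 2 ∈ band ((1 / 2 : ℝ) ^ n)} :=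
            ⟨h1, by rw [← e]; exact h3, not_lt.mp h2⟩
          rw [indicator_of_mem ha, indicator_of_mem hc]
        · have ha : x ∉ {x : E 3 | |x 2| < 1 ∧ (1 / 2 : ℝ) ^ (n + 1) < sc (x 2)} :=
            fun h => h3 h.2
          have hc : x ∉ {x : E 3 | x 2 ∈ band ((1 / 2 : ℝ) ^ n)} := by
            rintro ⟨_, h4, _⟩
            rw [e] at h3
            exact h3 h4
          rw [indicator_of_notMem ha, indicator_of_notMem hc]
    · have ha : x ∉ {x : E 3 | |x 2| < 1 ∧ (1 / 2 : ℝ) ^ (n + 1) < sc (x 2)} := fun h => h1 h.1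
      have hb : x ∉ {x : E 3 | |x 2| < 1 ∧ (1 / 2 : ℝ) ^ n < sc (x 2)} := fun h => h1 h.1
      have hc : x ∉ {x : E 3 | x 2 ∈ band ((1 / 2 : ℝ) ^ n)} := fun h => h1 h.1
      rw [indicator_of_notMem ha, indicator_of_notMem hb, indicator_of_notMem hc, add_zero]

lemma Hn_meas {G : E 3 → ℂ} (hG : Measurable G) (n : ℕ) : Measurable (Hn G n) := by
  have : Hn G n = fun x => ∑ m ∈ Finset.range n, Gm G ((1 / 2 : ℝ) ^ m) x := by
    funext x
    exact Hn_sum G n x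
  rw [this]
  exact Finset.measurable_fun_sum _ fun m _ => Gm_meas hG _

/-- the poles have measure zero -/
lemma poles : ∀ᵐ w ∂(sg 3), |w 2| < 1 := by
  rw [ae_iff]
  have hS : MeasurableSet {w : E 3 | ¬ |w 2| < 1} :=
    (measurableSet_lt coord_meas.abs measurable_const).compl
  have h1 := arch ({w : E 3 | ¬ |w 2| < 1}.indicator 1) (measurable_one.indicator hS)
  rw [lintegral_indicator_one hS] at h1
  rw [h1]
  rw [setLIntegral_congr_fun (g := fun _ => 0) measurableSet_Ioo]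
  · simp
  · intro c hc
    have : ∀ φ : ℝ, ({w : E 3 | ¬ |w 2| < 1}.indicator (1 : E 3 → ℝ≥0∞)) (pt c φ) = 0 := by
      intro φ
      apply indicator_of_notMem
      intro h
      apply h
      have : (pt c φ) 2 = c := by simp [pt]
      rw [this, abs_lt]
      exact hc
    show ∫⁻ φ in Ioo (-Real.pi) Real.pi,
      ({w : E 3 | ¬ |w 2| < 1}.indicator (1 : E 3 → ℝ≥0∞)) (pt c φ) = 0
    rw [lintegral_congr this, lintegral_zero]

lemma T_tendsto {G : E 3 → ℂ} (hG : Measurable G) {M : ℝ} (hM : ∀ x, ‖G x‖ ≤ M) (x : E 3) :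
    Tendsto (fun n => T (Hn G n) x) atTop (𝓝 (T G x)) := by
  have := sg_finite 3
  unfold T
  refine tendsto_integral_of_dominated_convergence (fun _ => M) ?_ (integrable_const M) ?_ ?_
  · intro n
    exact ((kern_cont x).measurable.mul (Hn_meas hG n)).aestronglyMeasurable
  · intro n
    filter_upwards with w
    rw [norm_mul, kern_norm, one_mul]
    exact Hn_bound hM n w
  · filter_upwards [poles] with w hw
    have h1 : ∀ᶠ n : ℕ in atTop, (1 / 2 : ℝ) ^ n < sc (w 2) := by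
      have := tendsto_pow_atTop_nhds_zero_of_lt_one (r := (1 / 2 : ℝ)) (by norm_num) (by norm_num)
      exact this.eventually (gt_mem_nhds (sc_pos hw))
    refine tendsto_const_nhds.congr' ?_
    filter_upwards [h1] with n hn
    have : w ∈ {x : E 3 | |x 2| < 1 ∧ (1 / 2 : ℝ) ^ n < sc (x 2)} := ⟨hw, hn⟩
    unfold Hn
    rw [indicator_of_mem this]

lemma T_sum {G : E 3 → ℂ} (hG : Measurable G) {M : ℝ} (hM : ∀ x, ‖G x‖ ≤ M) (n : ℕ) (x : E 3) :
    T (Hn G n) x = ∑ m ∈ Finset.range n, T (Gm G ((1 / 2 : ℝ) ^ m)) x := by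
  unfold T
  rw [← integral_finsetSum]
  · refine integral_congr_ae ?_
    filter_upwards with w
    rw [Hn_sum, Finset.mul_sum]
  · intro m _
    exact T_integrable (Gm_meas hG _) (Gm_bound hM _) x

lemma sum_Lp (p : ℝ) (hp : 1 ≤ p) (f : ℕ → E 3 → ℂ) (hf : ∀ m, Measurable (f m)) (C ρ : ℝ)
    (hC : 0 ≤ C) (hρ0 : 0 ≤ ρ) (hρ1 : ρ < 1)
    (h : ∀ m, ∫⁻ x, ENNReal.ofReal (‖f m x‖ ^ p) ≤ ENNReal.ofReal (C * ρ ^ m)) (n : ℕ) :
    ∫⁻ x, ENNReal.ofReal (‖∑ m ∈ Finset.range n, f m x‖ ^ p) ≤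
      ENNReal.ofReal ((C ^ (1 / p) * (1 - ρ ^ (1 / p))⁻¹) ^ p) := by
  have hp0 : 0 < p := by linarith
  have hconv : ∀ g : E 3 → ℂ, ∫⁻ x, ENNReal.ofReal (‖g x‖ ^ p) =
      (eLpNorm g (ENNReal.ofReal p) volume) ^ p := by
    intro g
    rw [eLpNorm_eq_lintegral_rpow_enorm_toReal (by simpa using hp0) ENNReal.ofReal_ne_top]
    rw [ENNReal.toReal_ofReal hp0.le, ← ENNReal.rpow_mul, one_div, inv_mul_cancel₀ hp0.ne',
      ENNReal.rpow_one]
    refine lintegral_congr fun x => ?_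
    rw [← ofReal_norm, ENNReal.ofReal_rpow_of_nonneg (norm_nonneg _) hp0.le]
  have hρp : ρ ^ (1 / p) < 1 := Real.rpow_lt_one hρ0 hρ1 (by positivity)
  have hρp0 : 0 ≤ ρ ^ (1 / p) := Real.rpow_nonneg hρ0 _
  have hCp : 0 ≤ C ^ (1 / p) := Real.rpow_nonneg hC _
  have hm : ∀ m, eLpNorm (f m) (ENNReal.ofReal p) volume ≤
      ENNReal.ofReal (C ^ (1 / p) * (ρ ^ (1 / p)) ^ m) := by
    intro m
    have h1 := h m
    rw [hconv] at h1
    have h2 : eLpNorm (f m) (ENNReal.ofReal p) volume =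
        ((eLpNorm (f m) (ENNReal.ofReal p) volume) ^ p) ^ (1 / p) := by
      rw [← ENNReal.rpow_mul, mul_one_div, div_self hp0.ne', ENNReal.rpow_one]
    rw [h2]
    refine (ENNReal.rpow_le_rpow h1 (by positivity)).trans (le_of_eq ?_)
    rw [ENNReal.ofReal_rpow_of_nonneg (by positivity) (by positivity)]
    congr 1
    rw [Real.mul_rpow hC (by positivity)]
    congr 1
    rw [← Real.rpow_natCast, ← Real.rpow_natCast, ← Real.rpow_mul hρ0, ← Real.rpow_mul hρ0,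
      mul_comm]
  have h3 : eLpNorm (∑ m ∈ Finset.range n, f m) (ENNReal.ofReal p) volume ≤
      ENNReal.ofReal (C ^ (1 / p) * (1 - ρ ^ (1 / p))⁻¹) := by
    refine (eLpNorm_sum_le (fun m _ => (hf m).aestronglyMeasurable) (by
      rw [← ENNReal.ofReal_one]
      exact ENNReal.ofReal_le_ofReal hp)).trans ?_
    refine (Finset.sum_le_sum fun m _ => hm m).trans ?_
    rw [← ENNReal.ofReal_sum_of_nonneg (fun m _ => by positivity)]
    apply ENNReal.ofReal_le_ofReal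
    rw [← Finset.mul_sum]
    apply mul_le_mul_of_nonneg_left _ hCp
    have h4 := (summable_geometric_of_lt_one hρp0 hρp).sum_le_tsum (Finset.range n)
      (fun m _ => by positivity)
    rwa [tsum_geometric_of_lt_one hρp0 hρp] at h4
  have h5 : ∫⁻ x, ENNReal.ofReal (‖∑ m ∈ Finset.range n, f m x‖ ^ p) =
      (eLpNorm (∑ m ∈ Finset.range n, f m) (ENNReal.ofReal p) volume) ^ p := by
    rw [← hconv]
    refine lintegral_congr fun x => ?_
    rw [Finset.sum_apply]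
  rw [h5]
  refine (ENNReal.rpow_le_rpow h3 hp0.le).trans (le_of_eq ?_)
  rw [ENNReal.ofReal_rpow_of_nonneg _ hp0.le]
  apply mul_nonneg hCp
  rw [inv_nonneg]
  linarith

/-- the conclusion of `piece` -/
def PieceStmt (p s : ℝ) : Prop := ∀ M K : ℝ,
    0 ≤ M → 0 ≤ K → ∃ C : ℝ, 0 < C ∧ ∀ μ : ℝ, 0 < μ → μ ≤ 1 →
    ∀ G : E 3 → ℂ, Measurable G → (∀ x, ‖G x‖ ≤ M) → (∀ x, x 2 ∉ band μ → G x = 0) →
    (∀ h : ℝ, 0 < h → h ≤ 1 →
      ∫ x, ‖G (rot (-h) x) - G x‖ ^ 2 ∂(sg 3) ≤ K * h ^ (2 * s) * μ ^ 2) →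
    ∫⁻ x, ENNReal.ofReal (‖T G x‖ ^ p) ≤ ENNReal.ofReal (C * μ ^ (2 * (p - 2)))

/-- the case `p < 4` -/
theorem core3_small (s : ℝ) (K : ℝ) (hK : 0 ≤ K) (G : E 3 → ℂ)
    (hG : Measurable G) (M : ℝ) (hM : ∀ x, ‖G x‖ ≤ M)
    (hreg : ∀ h : ℝ, 0 < h → h ≤ 1 → ∀ a b : ℝ, -1 ≤ a → a < b → b ≤ 1 →
      ∫ x in {x : E 3 | a < x 2 ∧ x 2 ≤ b}, ‖G (rot (-h) x) - G x‖ ^ 2 ∂(sg 3) ≤
        K * h ^ (2 * s) * (b - a)) (p : ℝ) (hp : 3 < p)
    (hps : PieceStmt p s) :
    ∫⁻ x, ENNReal.ofReal (‖T G x‖ ^ p) < ∞ := by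
  have hM0 : 0 ≤ M := (norm_nonneg _).trans (hM 0)
  obtain ⟨C, hC, hpiece⟩ := hps M (2 * K) hM0 (by linarith)
  set ρ : ℝ := (1 / 2 : ℝ) ^ (2 * (p - 2)) with hρ
  have hρ0 : 0 ≤ ρ := by positivity
  have hρ1 : ρ < 1 := Real.rpow_lt_one (by norm_num) (by norm_num) (by linarith)
  have hm : ∀ m : ℕ, ∫⁻ x, ENNReal.ofReal (‖T (Gm G ((1 / 2 : ℝ) ^ m)) x‖ ^ p) ≤
      ENNReal.ofReal (C * ρ ^ m) := by
    intro m
    have hμ0 : 0 < (1 / 2 : ℝ) ^ m := by positivity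
    have hμ1 : (1 / 2 : ℝ) ^ m ≤ 1 := pow_le_one₀ (by norm_num) (by norm_num)
    have h1 := hpiece ((1 / 2 : ℝ) ^ m) hμ0 hμ1 (Gm G ((1 / 2 : ℝ) ^ m)) (Gm_meas hG _)
      (Gm_bound hM _) (Gm_supp G _) (fun h h0 h1 => Gm_reg hG hM hreg hμ0 hμ1 h h0 h1)
    have h2 : ((1 / 2 : ℝ) ^ m) ^ (2 * (p - 2)) = ρ ^ m := by
      rw [hρ, ← Real.rpow_natCast, ← Real.rpow_natCast, ← Real.rpow_mul (by norm_num),
        ← Real.rpow_mul (by norm_num), mul_comm]
    rwa [h2] at h1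
  have hn := sum_Lp p (by linarith) (fun m => T (Gm G ((1 / 2 : ℝ) ^ m)))
    (fun m => T_meas (Gm_meas hG _)) C ρ hC.le hρ0 hρ1 hm
  have hlim : ∀ x, liminf (fun n => ENNReal.ofReal (‖T (Hn G n) x‖ ^ p)) atTop =
      ENNReal.ofReal (‖T G x‖ ^ p) := by
    intro x
    apply Tendsto.liminf_eq
    apply ENNReal.tendsto_ofReal
    have h1 := (T_tendsto hG hM x).norm
    exact h1.rpow_const (Or.inr (by linarith))
  calc ∫⁻ x, ENNReal.ofReal (‖T G x‖ ^ p)
      = ∫⁻ x, liminf (fun n => ENNReal.ofReal (‖T (Hn G n) x‖ ^ p)) atTop := by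
        refine lintegral_congr fun x => ?_
        rw [hlim]
    _ ≤ liminf (fun n => ∫⁻ x, ENNReal.ofReal (‖T (Hn G n) x‖ ^ p)) atTop := by
        apply lintegral_liminf_le
        intro n
        have h1 : Measurable (T (Hn G n)) := T_meas (Hn_meas hG n)
        exact (h1.norm.pow_const p).ennreal_ofReal
    _ ≤ ENNReal.ofReal ((C ^ (1 / p) * (1 - ρ ^ (1 / p))⁻¹) ^ p) := by
        apply liminf_le_of_frequently_le'
        apply Frequently.of_forall
        intro n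
        have h1 : ∀ x, T (Hn G n) x = ∑ m ∈ Finset.range n, T (Gm G ((1 / 2 : ℝ) ^ m)) x :=
          fun x => T_sum hG hM n x
        simp only [h1]
        exact hn n
    _ < ∞ := ENNReal.ofReal_lt_top

/-- the summation, from the bound for one ring -/
theorem core3_gen (s : ℝ) (hps : ∀ p : ℝ, 3 < p → p < 4 → PieceStmt p s) (K : ℝ) (hK : 0 ≤ K)
    (G : E 3 → ℂ) (hG : Measurable G) (M : ℝ) (hM : ∀ x, ‖G x‖ ≤ M)
    (hreg : ∀ h : ℝ, 0 < h → h ≤ 1 → ∀ a b : ℝ, -1 ≤ a → a < b → b ≤ 1 →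
      ∫ x in {x : E 3 | a < x 2 ∧ x 2 ≤ b}, ‖G (rot (-h) x) - G x‖ ^ 2 ∂(sg 3) ≤
        K * h ^ (2 * s) * (b - a)) (p : ℝ) (hp : 3 < p) :
    ∫⁻ x, ENNReal.ofReal (‖T G x‖ ^ p) < ∞ := by
  set p' : ℝ := min p (7 / 2) with hp'
  have h3 : 3 < p' := lt_min hp (by norm_num)
  have h4 : p' < 4 := (min_le_right _ _).trans_lt (by norm_num)
  have h5 : p' ≤ p := min_le_left _ _
  have h6 := core3_small s K hK G hG M hM hreg p' h3 (hps p' h3 h4)
  have hM0 : 0 ≤ M := (norm_nonneg _).trans (hM 0)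
  set B : ℝ := M * (sg 3).real univ with hB
  have hB0 : 0 ≤ B := mul_nonneg hM0 measureReal_nonneg
  have hpt : ∀ x, ENNReal.ofReal (‖T G x‖ ^ p) ≤
      ENNReal.ofReal (B ^ (p - p')) * ENNReal.ofReal (‖T G x‖ ^ p') := by
    intro x
    rw [← ENNReal.ofReal_mul (by positivity)]
    apply ENNReal.ofReal_le_ofReal
    have h7 : ‖T G x‖ ^ p = ‖T G x‖ ^ (p - p') * ‖T G x‖ ^ p' := by
      rw [← Real.rpow_add_of_nonneg (norm_nonneg _) (by linarith) (by linarith)]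
      congr 1
      ring
    rw [h7]
    apply mul_le_mul_of_nonneg_right _ (by positivity)
    exact Real.rpow_le_rpow (norm_nonneg _) (T_bound hM x) (by linarith)
  calc ∫⁻ x, ENNReal.ofReal (‖T G x‖ ^ p)
      ≤ ∫⁻ x, ENNReal.ofReal (B ^ (p - p')) * ENNReal.ofReal (‖T G x‖ ^ p') :=
        lintegral_mono hpt
    _ = ENNReal.ofReal (B ^ (p - p')) * ∫⁻ x, ENNReal.ofReal (‖T G x‖ ^ p') :=
        lintegral_const_mul' _ _ ENNReal.ofReal_ne_top
    _ < ∞ := ENNReal.mul_lt_top ENNReal.ofReal_lt_top h6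

end C3

end Pool.Agent.H789R2.FR
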