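import Mathlib
import Pool.Agent.H789R2.FR.Defs
set_option autoImplicit false

/-! Stubs (statements only). Each task proves its statement(s) in its own file, SAME name with the
suffix removed, inside the namespace `Pool.Agent.H789R2.FR`. -/

namespace Pool.Agent.H789R2.FR

open MeasureTheory Measure Set Metric Complex
open scoped ENNReal Pointwise RealInnerProductSpace

/- Task A  -> file Pool/Agent/H789R2/FR/Sph.lean -/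
theorem sg_finite_stub (n : ℕ) : IsFiniteMeasure (sg n) := sorry

theorem sg_ae_stub (n : ℕ) : ∀ᵐ w ∂(sg n), ‖w‖ = 1 := sorry

theorem sg_inv_stub {n : ℕ} (L : E n ≃ₗᵢ[ℝ] E n) : MeasurePreserving L (sg n) (sg n) := sorry

theorem D_const_stub {n : ℕ} (R : ℝ) (y y' : E n) (hy : ‖y‖ = 1) (hy' : ‖y'‖ = 1) :
    D R y = D R y' := sorry

theorem D_upper_stub (n : ℕ) (hn : 2 ≤ n) : ∃ C : ℝ, 0 < C ∧ ∀ R : ℝ, 0 < R → ∀ y : E n,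
    ‖y‖ = 1 → D R y ≤ C * R ^ (-((n : ℝ) - 1) / 2) := sorry

theorem D_lower_stub (n : ℕ) (hn : 2 ≤ n) : ∃ c : ℝ, 0 < c ∧ ∀ R : ℝ, 1 ≤ R → ∀ y : E n,
    ‖y‖ = 1 → c * R ^ (-((n : ℝ) - 1) / 2) ≤ D R y := sorry

/- Task B -> file Pool/Agent/H789R2/FR/GB.lean -/
theorem G_bound_stub (n : ℕ) (hn : 2 ≤ n) (a b e : E n) (he : ‖e‖ = 1) (w : ℂ) (hw0 : w ≠ 0)
    (hw : w ^ 2 = ((‖a‖ ^ 2 - ‖b‖ ^ 2 : ℝ) : ℂ) - 2 * ((⟪a, b⟫ : ℝ) : ℂ) * I) :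
    ‖∫ x, Complex.exp (((⟪a, x⟫ : ℝ) : ℂ) - ((⟪b, x⟫ : ℝ) : ℂ) * I) ∂(sg n)‖ ≤
      ∫ x, Real.exp (|w.re| * ⟪e, x⟫) ∂(sg n) := sorry

/- Task C -> file Pool/Agent/H789R2/FR/Smooth.lean (uses A, B) -/
theorem smooth_bound_stub (n : ℕ) (hn : 2 ≤ n) : ∃ C : ℝ, 0 < C ∧ ∀ g : E n → ℂ, Measurable g →
    ∀ M : ℝ, (∀ x, ‖g x‖ ≤ M) → ∀ R : ℝ, 1 ≤ R → ∀ x : E n, 2 * R ≤ ‖x‖ →
    ‖T (A R g) x‖ ≤ C * M * R ^ (-((n : ℝ) - 1) / 2) := sorry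

theorem decay_stub (n : ℕ) (hn : 2 ≤ n) : ∃ C : ℝ, 0 < C ∧ ∀ x : E n, x ≠ 0 →
    ‖T (fun _ : E n => (1 : ℂ)) x‖ ≤ C * ‖x‖ ^ (-((n : ℝ) - 1) / 2) := sorry

/- Task L -> file Pool/Agent/H789R2/FR/L2.lean (uses A) -/
theorem L2_bound_stub (n : ℕ) (hn : 2 ≤ n) : ∃ C : ℝ, 0 < C ∧ ∀ g : E n → ℂ, Measurable g →
    (∃ M : ℝ, ∀ x, ‖g x‖ ≤ M) → ∀ l : ℝ, 0 < l → ∀ u : E n,
    ∫ x, Real.exp (-‖x - u‖ ^ 2 / l ^ 2) * ‖T g x‖ ^ 2 ≤ C * l * ∫ w, ‖g w‖ ^ 2 ∂(sg n) := sorry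

theorem L2_dual_stub (n : ℕ) (hn : 2 ≤ n) : ∃ C : ℝ, 0 < C ∧ ∀ f : E n → ℂ, Measurable f →
    (∃ M : ℝ, ∀ x, ‖f x‖ ≤ M) → Integrable f → ∀ l : ℝ, 0 < l → ∀ u : E n,
    ∫ w, ‖∫ x, Complex.exp (-((⟪x, w⟫ : ℝ) : ℂ) * I) *
        (((Real.exp (-‖x - u‖ ^ 2 / l ^ 2) : ℝ) : ℂ) * f x)‖ ^ 2 ∂(sg n) ≤
      C * l * ∫ x, Real.exp (-‖x - u‖ ^ 2 / l ^ 2) * ‖f x‖ ^ 2 := sorry

/- Task W -> file Pool/Agent/H789R2/FR/Weak.lean (uses C, L) -/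
theorem weak_stub (n : ℕ) (hn : 2 ≤ n) : ∃ C : ℝ, 0 < C ∧ ∀ g : E n → ℂ, Measurable g →
    (∃ M : ℝ, ∀ x, ‖g x‖ ≤ M) → ∀ t : ℝ, 0 < t → ∀ S : Set (E n), MeasurableSet S →
    Bornology.IsBounded S → (∀ x ∈ S, t ≤ ‖T g x‖) →
    volume.real S ≤ C * ((∫ w, ‖g w‖ ^ 2 ∂(sg n)) / t ^ 2) ^ (((n : ℝ) + 1) / ((n : ℝ) - 1)) :=
  sorry

/- Task P -> file Pool/Agent/H789R2/FR/Lp.lean (uses L, W) -/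
theorem Lp_bound_stub (n : ℕ) (hn : 2 ≤ n) (p : ℝ) (hp : 2 < p)
    (hp' : p < 2 * ((n : ℝ) + 1) / ((n : ℝ) - 1)) : ∃ C : ℝ, 0 < C ∧ ∀ g : E n → ℂ,
    Measurable g → (∃ M : ℝ, ∀ x, ‖g x‖ ≤ M) → ∀ L : ℝ, 1 ≤ L →
    ∫⁻ x in closedBall (0 : E n) L, ENNReal.ofReal (‖T g x‖ ^ p) ≤
      ENNReal.ofReal (C * (∫ w, ‖g w‖ ^ 2 ∂(sg n)) ^ (p / 2) *
        L ^ (1 - ((n : ℝ) - 1) * (p - 2) / 4)) := sorry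

/- Task R -> file Pool/Agent/H789R2/FR/Rem.lean (uses A) -/
theorem rem_bound_stub (n : ℕ) (hn : 2 ≤ n) (s : ℝ) (hs : 0 < s) : ∃ C : ℝ, 0 < C ∧
    ∀ g : E n → ℂ, Measurable g → (∃ M : ℝ, ∀ x, ‖g x‖ ≤ M) → ∀ K : ℝ, 0 ≤ K →
    (∫⁻ x, ∫⁻ y, ENNReal.ofReal (‖g x - g y‖ ^ 2 / ‖x - y‖ ^ ((n : ℝ) - 1 + 2 * s))
      ∂(sg n) ∂(sg n)) ≤ ENNReal.ofReal K → ∀ R : ℝ, 1 ≤ R →
    ∫ w, ‖g w - A R g w‖ ^ 2 ∂(sg n) ≤ C * K * R ^ (-s) := sorry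

end Pool.Agent.H789R2.FR
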