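import Mathlib
import Pool.Agent.H789R2.FR.Defs3
import Pool.Agent.H789R2.FR.Stubs
set_option autoImplicit false

/-! Stubs for the theorem in `ℝ^3` (regularity only in longitude). -/

namespace Pool.Agent.H789R2.FR

open MeasureTheory Measure Set Metric Complex
open scoped ENNReal Pointwise RealInnerProductSpace

/- Task Q1 -> Pool/Agent/H789R2/FR/Arch.lean -/
theorem arch_stub (F : E 3 → ℝ≥0∞) (hF : Measurable F) :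
    ∫⁻ x, F x ∂(sg 3) =
      ∫⁻ c in Ioo (-1 : ℝ) 1, ∫⁻ φ in Ioo (-Real.pi) Real.pi, F (pt c φ) := sorry

theorem arch_int_stub (F : E 3 → ℂ) (hF : Measurable F) (hb : ∃ M : ℝ, ∀ x, ‖F x‖ ≤ M) :
    ∫ x, F x ∂(sg 3) =
      ∫ c in Ioo (-1 : ℝ) 1, ∫ φ in Ioo (-Real.pi) Real.pi, F (pt c φ) := sorry

/- Task Q2 -> Pool/Agent/H789R2/FR/Cyl.lean -/
theorem cart_lint_stub (F : E 3 → ℝ≥0∞) (hF : Measurable F) :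
    ∫⁻ x, F x = ∫⁻ a : ℝ, ∫⁻ b : ℝ, ∫⁻ z : ℝ, F !₂[a, b, z] := sorry

theorem cyl_lint_stub (F : E 3 → ℝ≥0∞) (hF : Measurable F) :
    ∫⁻ x, F x = ∫⁻ r in Ioi (0 : ℝ), ∫⁻ α in Ioo (-Real.pi) Real.pi, ∫⁻ z : ℝ,
      ENNReal.ofReal r * F (cyl r α z) := sorry

/- Task Q3 -> Pool/Agent/H789R2/FR/Planch.lean -/
theorem pl_phase_stub (S : Set ℝ) (hS : MeasurableSet S) (hSf : volume S < ∞) (ψ ψ' : ℝ → ℝ)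
    (hψ : Measurable ψ) (hψ' : Measurable ψ') (hd : ∀ c ∈ S, HasDerivWithinAt ψ (ψ' c) S c)
    (hne : ∀ c ∈ S, ψ' c ≠ 0) (hinj : InjOn ψ S) (F : ℝ → ℂ) (hF : Measurable F)
    (hb : ∃ M : ℝ, ∀ x, ‖F x‖ ≤ M) :
    ∫⁻ y : ℝ, ENNReal.ofReal (‖∫ c in S, Complex.exp (-((y * ψ c : ℝ) : ℂ) * I) * F c‖ ^ 2) ≤
      ENNReal.ofReal (2 * Real.pi) * ∫⁻ c in S, ENNReal.ofReal (‖F c‖ ^ 2 / |ψ' c|) := sorry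

/- Task Q4 -> Pool/Agent/H789R2/FR/L2Cyl.lean (uses Q1, Q2) -/
theorem L2_cyl_stub : ∃ C : ℝ, 0 < C ∧ ∀ μ : ℝ, 0 < μ → μ ≤ 1 → ∀ L : ℝ, 0 < L →
    ∀ f : E 3 → ℂ, Measurable f → (∃ M : ℝ, ∀ x, ‖f x‖ ≤ M) → (∀ x, x 2 ∉ band μ → f x = 0) →
    ∫⁻ x in {x : E 3 | x 0 ^ 2 + x 1 ^ 2 ≤ L ^ 2}, ENNReal.ofReal (‖T f x‖ ^ 2) ≤
      ENNReal.ofReal (C * min (L / μ) (L ^ 2) * ∫ w, ‖f w‖ ^ 2 ∂(sg 3)) := sorry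

/- Task Q5 -> Pool/Agent/H789R2/FR/E4.lean (uses Q3) -/
theorem E4_stub : ∃ C : ℝ, 0 < C ∧ ∀ μ : ℝ, 0 < μ → μ ≤ 1 → ∀ Y : ℝ, 1 ≤ Y * μ →
    ∀ (b : ℝ → ℂ), Measurable b → ∀ B : ℝ, (∀ c, ‖b c‖ ≤ B) → (∀ c, c ∉ band μ → b c = 0) →
    ∫⁻ y in Icc (-Y) Y, ∫⁻ z : ℝ, ENNReal.ofReal (‖Ex b y z‖ ^ 4) ≤
      ENNReal.ofReal (C * B ^ 4 * μ ^ 5 * (1 + Real.log (Y * μ))) := sorry

/- Task Q6 -> Pool/Agent/H789R2/FR/Zl.lean (uses Q3, Q5) -/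
theorem Zl_stub : ∃ C : ℝ, 0 < C ∧ ∀ μ : ℝ, 0 < μ → μ ≤ 1 → ∀ ρ : ℝ, 1 ≤ ρ * μ →
    ∀ (b : ℝ → ℂ), Measurable b → ∀ B : ℝ, (∀ c, ‖b c‖ ≤ B) → (∀ c, c ∉ band μ → b c = 0) →
    ∀ θ : ℝ, ∫⁻ r in Icc ρ (2 * ρ), ∫⁻ z : ℝ, ENNReal.ofReal (‖Ex b (r * Real.cos θ) z‖ ^ 4) ≤
      ENNReal.ofReal (C * B ^ 4 * μ ^ 5 * (1 + Real.log (ρ * μ)) *
        (ρ * μ / (1 + ρ * μ * |Real.cos θ|))) := sorry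

/- Task Q7 -> Pool/Agent/H789R2/FR/Trig.lean -/
theorem kap_int_stub : ∃ C : ℝ, 0 < C ∧ ∀ N : ℝ, 1 ≤ N → ∀ h : ℝ,
    ∫⁻ β in Ioo (-Real.pi) Real.pi, ENNReal.ofReal (N / (1 + N * |Real.cos (β + h)|)) ≤
      ENNReal.ofReal (C * (1 + Real.log N)) := sorry

theorem sin_int_stub : ∃ C : ℝ, 0 < C ∧ ∀ δ : ℝ, 0 < δ → δ ≤ 1 / 8 →
    ∫⁻ β in {β | β ∈ Ioo (-Real.pi) Real.pi ∧ 4 * δ ≤ |Real.sin β|},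
      ENNReal.ofReal (1 / |Real.sin β|) ≤ ENNReal.ofReal (C * (1 + Real.log (1 / δ))) := sorry

theorem bad_vol_stub : ∀ δ : ℝ, 0 < δ → δ ≤ 1 / 8 →
    volume {β | β ∈ Ioo (-Real.pi) Real.pi ∧ |Real.sin β| < 4 * δ} ≤ ENNReal.ofReal (30 * δ) :=
  sorry

/- Task Q8 -> Pool/Agent/H789R2/FR/Ibp.lean -/
theorem ibp_stub (μ : ℝ) (hμ : 0 < μ) (b : ℝ → ℂ) (hb : Measurable b) (hB : ∃ B : ℝ, ∀ c, ‖b c‖ ≤ B)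
    (hs : ∀ c, c ∉ band μ → b c = 0) (r z β δ : ℝ) (hr : 0 < r) (hδ : 0 < δ)
    (hsin : 4 * δ ≤ |Real.sin β|) :
    ‖∫ h in Ioo (0 : ℝ) δ, Ex b (r * Real.cos (β + h)) z‖ ≤
      2 / (r * |Real.sin β|) *
        (‖Ex (fun c => b c / (-I * (sc c : ℂ))) (r * Real.cos (β + δ)) z‖ +
          ‖Ex (fun c => b c / (-I * (sc c : ℂ))) (r * Real.cos β) z‖ +
          δ⁻¹ * ∫ h in Ioo (0 : ℝ) δ,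
            ‖Ex (fun c => b c / (-I * (sc c : ℂ))) (r * Real.cos (β + h)) z‖) := sorry

/- Task Q9 -> Pool/Agent/H789R2/FR/Rep.lean (uses Q1): polar representation of T (avg δ G) -/
theorem rep_stub (G : E 3 → ℂ) (hG : Measurable G) (hb : ∃ M : ℝ, ∀ x, ‖G x‖ ≤ M) (δ : ℝ)
    (hδ : 0 < δ) (r α z : ℝ) :
    T (avg δ G) (cyl r α z) = ∫ β in Ioo (-Real.pi) Real.pi,
      (δ : ℂ)⁻¹ * ∫ h in Ioo (0 : ℝ) δ, Ex (fun c => G (pt c (α + β))) (r * Real.cos (β + h)) z :=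
  sorry

/- Task Q10 -> Pool/Agent/H789R2/FR/M4.lean (uses Q2, Q6, Q7, Q8, Q9) -/
theorem M4_stub : ∃ C : ℝ, 0 < C ∧ ∀ μ : ℝ, 0 < μ → μ ≤ 1 → ∀ ρ : ℝ, 64 ≤ ρ * μ →
    ∀ G : E 3 → ℂ, Measurable G → ∀ M : ℝ, (∀ x, ‖G x‖ ≤ M) → (∀ x, x 2 ∉ band μ → G x = 0) →
    ∫⁻ x in {x : E 3 | ρ ^ 2 ≤ x 0 ^ 2 + x 1 ^ 2 ∧ x 0 ^ 2 + x 1 ^ 2 < (2 * ρ) ^ 2},
      ENNReal.ofReal (‖T (avg ((ρ * μ) ^ (-(1 / 2 : ℝ))) G) x‖ ^ 4) ≤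
      ENNReal.ofReal (C * M ^ 4 * ρ⁻¹ * μ ^ 3 * (1 + Real.log (ρ * μ)) ^ 5) := sorry

/- Task Q11 -> Pool/Agent/H789R2/FR/Interp.lean: abstract interpolation lemmas -/
theorem interp_weak_stub (p : ℝ) (hp : 2 < p) (hp' : p < 4) : ∃ C : ℝ, 0 < C ∧
    ∀ (S : Set (E 3)), MeasurableSet S → ∀ f : E 3 → ℝ, Measurable f → (∀ x, 0 ≤ f x) →
    ∀ X Y : ℝ, 0 ≤ X → 0 ≤ Y → ∫⁻ x in S, ENNReal.ofReal (f x ^ 2) ≤ ENNReal.ofReal X →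
    (∀ t : ℝ, 0 < t → volume (S ∩ {x | t ≤ f x}) ≤ ENNReal.ofReal ((Y / t ^ 2) ^ 2)) →
    ∫⁻ x in S, ENNReal.ofReal (f x ^ p) ≤
      ENNReal.ofReal (C * X ^ ((4 - p) / 2) * Y ^ (p - 2)) := sorry

theorem interp_24_stub (p : ℝ) (hp : 2 < p) (hp' : p < 4)
    (S : Set (E 3)) (hS : MeasurableSet S) (f : E 3 → ℝ) (hf : Measurable f) (hf0 : ∀ x, 0 ≤ f x)
    (X Y : ℝ) (hX : 0 ≤ X) (hY : 0 ≤ Y) (h2 : ∫⁻ x in S, ENNReal.ofReal (f x ^ 2) ≤ ENNReal.ofReal X)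
    (h4 : ∫⁻ x in S, ENNReal.ofReal (f x ^ 4) ≤ ENNReal.ofReal Y) :
    ∫⁻ x in S, ENNReal.ofReal (f x ^ p) ≤
      ENNReal.ofReal (X ^ ((4 - p) / 2) * Y ^ ((p - 2) / 2)) := sorry

/- Task Q12 -> Pool/Agent/H789R2/FR/Avg.lean (uses Q1): elementary facts on avg, rot -/
theorem avg_meas_stub (δ : ℝ) (G : E 3 → ℂ) (hG : Measurable G) : Measurable (avg δ G) := sorry

theorem avg_bound_stub (δ : ℝ) (hδ : 0 < δ) (G : E 3 → ℂ) (M : ℝ) (hM : ∀ x, ‖G x‖ ≤ M) (x : E 3) :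
    ‖avg δ G x‖ ≤ M := sorry

theorem avg_supp_stub (δ μ : ℝ) (G : E 3 → ℂ) (hs : ∀ x, x 2 ∉ band μ → G x = 0) (x : E 3)
    (hx : x 2 ∉ band μ) : avg δ G x = 0 := sorry

theorem avg_diff_stub (δ : ℝ) (hδ : 0 < δ) (G : E 3 → ℂ) (hG : Measurable G)
    (hb : ∃ M : ℝ, ∀ x, ‖G x‖ ≤ M) (K s : ℝ) (hK : 0 ≤ K) (hs : 0 ≤ s)
    (hreg : ∀ h : ℝ, 0 < h → h ≤ δ →
      ∫ x, ‖G (rot (-h) x) - G x‖ ^ 2 ∂(sg 3) ≤ K * h ^ (2 * s)) :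
    ∫ x, ‖G x - avg δ G x‖ ^ 2 ∂(sg 3) ≤ K * δ ^ (2 * s) := sorry

theorem band_mass_stub (μ : ℝ) (hμ : 0 < μ) (hμ' : μ ≤ 1) (f : E 3 → ℂ) (hf : Measurable f) (M : ℝ)
    (hM : ∀ x, ‖f x‖ ≤ M) (hs : ∀ x, x 2 ∉ band μ → f x = 0) :
    ∫ x, ‖f x‖ ∂(sg 3) ≤ 20 * M * μ ^ 2 ∧ ∫ x, ‖f x‖ ^ 2 ∂(sg 3) ≤ 20 * M ^ 2 * μ ^ 2 := sorry

/- Task Q13 -> Pool/Agent/H789R2/FR/Piece.lean (uses Q4, Q10, Q11, Q12, weak) -/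
theorem piece_stub (p s : ℝ) (hp : 3 < p) (hp' : p < 4) (hs : 1 / 3 < s) : ∀ M K : ℝ,
    0 ≤ M → 0 ≤ K → ∃ C : ℝ, 0 < C ∧ ∀ μ : ℝ, 0 < μ → μ ≤ 1 →
    ∀ G : E 3 → ℂ, Measurable G → (∀ x, ‖G x‖ ≤ M) → (∀ x, x 2 ∉ band μ → G x = 0) →
    (∀ h : ℝ, 0 < h → h ≤ 1 →
      ∫ x, ‖G (rot (-h) x) - G x‖ ^ 2 ∂(sg 3) ≤ K * h ^ (2 * s) * μ ^ 2) →
    ∫⁻ x, ENNReal.ofReal (‖T G x‖ ^ p) ≤ ENNReal.ofReal (C * μ ^ (2 * (p - 2))) := sorry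

/- Task Q14 -> Pool/Agent/H789R2/FR/Core3.lean (uses Q13, Q12) -/
theorem core3_stub (s : ℝ) (hs : 1 / 3 < s) (K : ℝ) (hK : 0 ≤ K) (G : E 3 → ℂ)
    (hG : Measurable G) (M : ℝ) (hM : ∀ x, ‖G x‖ ≤ M)
    (hreg : ∀ h : ℝ, 0 < h → h ≤ 1 → ∀ a b : ℝ, -1 ≤ a → a < b → b ≤ 1 →
      ∫ x in {x : E 3 | a < x 2 ∧ x 2 ≤ b}, ‖G (rot (-h) x) - G x‖ ^ 2 ∂(sg 3) ≤
        K * h ^ (2 * s) * (b - a)) (p : ℝ) (hp : 3 < p) :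
    ∫⁻ x, ENNReal.ofReal (‖T G x‖ ^ p) < ∞ := sorry

end Pool.Agent.H789R2.FR
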