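import Mathlib
import Pool.Agent.H789R2.FR.Defs3
import Pool.Agent.H789R2.FR.Stubs3
set_option autoImplicit false

/-! Refined stubs for the theorem in `ℝ^3` (threshold `1/4` instead of `1/3`). -/

namespace Pool.Agent.H789R2.FR

open MeasureTheory Measure Set Metric Complex
open scoped ENNReal Pointwise RealInnerProductSpace

/- Task Q5 refined (E4r implies E4 since ∫|b|^2 ≤ 2 B^2 μ^2) -/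
theorem E4r_stub : ∃ C : ℝ, 0 < C ∧ ∀ μ : ℝ, 0 < μ → μ ≤ 1 → ∀ Y : ℝ, 1 ≤ Y * μ →
    ∀ (b : ℝ → ℂ), Measurable b → ∀ B : ℝ, (∀ c, ‖b c‖ ≤ B) → (∀ c, c ∉ band μ → b c = 0) →
    ∫⁻ y in Icc (-Y) Y, ∫⁻ z : ℝ, ENNReal.ofReal (‖Ex b y z‖ ^ 4) ≤
      ENNReal.ofReal (C * B ^ 2 * μ ^ 3 * (1 + Real.log (Y * μ)) * ∫ c, ‖b c‖ ^ 2) := sorry

/- Task Q6 refined -/
theorem Zlr_stub : ∃ C : ℝ, 0 < C ∧ ∀ μ : ℝ, 0 < μ → μ ≤ 1 → ∀ ρ : ℝ, 1 ≤ ρ * μ →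
    ∀ (b : ℝ → ℂ), Measurable b → ∀ B : ℝ, (∀ c, ‖b c‖ ≤ B) → (∀ c, c ∉ band μ → b c = 0) →
    ∀ θ : ℝ, ∫⁻ r in Icc ρ (2 * ρ), ∫⁻ z : ℝ, ENNReal.ofReal (‖Ex b (r * Real.cos θ) z‖ ^ 4) ≤
      ENNReal.ofReal (C * B ^ 2 * μ ^ 3 * (1 + Real.log (ρ * μ)) *
        (ρ * μ / (1 + ρ * μ * |Real.cos θ|)) * ∫ c, ‖b c‖ ^ 2) := sorry

/- Task Q10 refined: general averaging length δ, 8/N ≤ δ ≤ N^{-1/2}, N = ρ μ -/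
theorem M4r_stub : ∃ C : ℝ, 0 < C ∧ ∀ μ : ℝ, 0 < μ → μ ≤ 1 → ∀ ρ : ℝ, 64 ≤ ρ * μ →
    ∀ δ : ℝ, 8 / (ρ * μ) ≤ δ → δ ≤ (ρ * μ) ^ (-(1 / 2 : ℝ)) →
    ∀ G : E 3 → ℂ, Measurable G → ∀ M : ℝ, (∀ x, ‖G x‖ ≤ M) → (∀ x, x 2 ∉ band μ → G x = 0) →
    ∫⁻ x in {x : E 3 | ρ ^ 2 ≤ x 0 ^ 2 + x 1 ^ 2 ∧ x 0 ^ 2 + x 1 ^ 2 < (2 * ρ) ^ 2},
      ENNReal.ofReal (‖T (avg δ G) x‖ ^ 4) ≤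
      ENNReal.ofReal (C * M ^ 2 * ρ * μ ^ 3 * (δ * (ρ * μ)) ^ (-4 : ℤ) *
        (1 + Real.log (ρ * μ)) ^ 5 * ∫ w, ‖G w‖ ^ 2 ∂(sg 3)) := sorry

/- Task Q13a: the smoothed part, by induction on the smoothing scale N^{-lam}, 1/2 ≤ lam ≤ 2/3 -/
theorem smooth_part_stub (p s : ℝ) (hp : 3 < p) (hp' : p < 4) (hs : 1 / 4 < s) (hs' : s ≤ 1)
    (lam : ℝ) (hl : 1 / 2 ≤ lam) (hl' : lam ≤ 2 / 3) : ∀ M K : ℝ,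
    0 ≤ M → 0 ≤ K → ∃ C ε : ℝ, 0 < C ∧ 0 < ε ∧ ∀ μ : ℝ, 0 < μ → μ ≤ 1 → ∀ ρ : ℝ, 512 ≤ ρ * μ →
    ∀ G : E 3 → ℂ, Measurable G → (∀ x, ‖G x‖ ≤ M) → (∀ x, x 2 ∉ band μ → G x = 0) →
    (∀ h : ℝ, 0 < h → h ≤ 1 →
      ∫ x, ‖G (rot (-h) x) - G x‖ ^ 2 ∂(sg 3) ≤ K * h ^ (2 * s) * μ ^ 2) →
    ∫⁻ x in {x : E 3 | ρ ^ 2 ≤ x 0 ^ 2 + x 1 ^ 2 ∧ x 0 ^ 2 + x 1 ^ 2 < (2 * ρ) ^ 2},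
      ENNReal.ofReal (‖T (avg ((ρ * μ) ^ (-lam)) G) x‖ ^ p) ≤
      ENNReal.ofReal (C * μ ^ (2 * (p - 2)) * (ρ * μ) ^ (-ε)) := sorry

/- Task Q13r: same as piece but with 1/4 < s -/
theorem piecer_stub (p s : ℝ) (hp : 3 < p) (hp' : p < 4) (hs : 1 / 4 < s) : ∀ M K : ℝ,
    0 ≤ M → 0 ≤ K → ∃ C : ℝ, 0 < C ∧ ∀ μ : ℝ, 0 < μ → μ ≤ 1 →
    ∀ G : E 3 → ℂ, Measurable G → (∀ x, ‖G x‖ ≤ M) → (∀ x, x 2 ∉ band μ → G x = 0) →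
    (∀ h : ℝ, 0 < h → h ≤ 1 →
      ∫ x, ‖G (rot (-h) x) - G x‖ ^ 2 ∂(sg 3) ≤ K * h ^ (2 * s) * μ ^ 2) →
    ∫⁻ x, ENNReal.ofReal (‖T G x‖ ^ p) ≤ ENNReal.ofReal (C * μ ^ (2 * (p - 2))) := sorry

/- Task Q14r: same as core3 but with 1/4 < s -/
theorem core3r_stub (s : ℝ) (hs : 1 / 4 < s) (K : ℝ) (hK : 0 ≤ K) (G : E 3 → ℂ)
    (hG : Measurable G) (M : ℝ) (hM : ∀ x, ‖G x‖ ≤ M)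
    (hreg : ∀ h : ℝ, 0 < h → h ≤ 1 → ∀ a b : ℝ, -1 ≤ a → a < b → b ≤ 1 →
      ∫ x in {x : E 3 | a < x 2 ∧ x 2 ≤ b}, ‖G (rot (-h) x) - G x‖ ^ 2 ∂(sg 3) ≤
        K * h ^ (2 * s) * (b - a)) (p : ℝ) (hp : 3 < p) :
    ∫⁻ x, ENNReal.ofReal (‖T G x‖ ^ p) < ∞ := sorry

end Pool.Agent.H789R2.FR
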