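import Mathlib
import Pool.Agent.H789R2.FR.Defs3
import Pool.Agent.H789R2.FR.L2
import Pool.Agent.H789R2.FR.Arch
set_option autoImplicit false

/-! Task Q4: `L^2` bound on infinite cylinders. -/

namespace Pool.Agent.H789R2.FR

open MeasureTheory Measure Set Metric Complex
open scoped ENNReal Pointwise RealInnerProductSpace

namespace L2C

open L2

/-- the anisotropic Gaussian weight -/
noncomputable def W3 (L Z : ℝ) (x : E 3) : ℝ :=
  Real.exp (-((x 0 ^ 2 + x 1 ^ 2) / L ^ 2 + x 2 ^ 2 / Z ^ 2))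

theorem W3_pos (L Z : ℝ) (x : E 3) : 0 < W3 L Z x := Real.exp_pos _

theorem continuous_W3 (L Z : ℝ) : Continuous (W3 L Z) := by
  unfold W3
  fun_prop

/-- the coefficients -/
noncomputable def b3 (L Z : ℝ) : Fin 3 → ℂ :=
  ![((1 / L ^ 2 : ℝ) : ℂ), ((1 / L ^ 2 : ℝ) : ℂ), ((1 / Z ^ 2 : ℝ) : ℂ)]

theorem b3_0 (L Z : ℝ) : b3 L Z 0 = ((1 / L ^ 2 : ℝ) : ℂ) := rfl

theorem b3_1 (L Z : ℝ) : b3 L Z 1 = ((1 / L ^ 2 : ℝ) : ℂ) := rfl

theorem b3_2 (L Z : ℝ) : b3 L Z 2 = ((1 / Z ^ 2 : ℝ) : ℂ) := rfl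

theorem b3_re {L Z : ℝ} (hL : 0 < L) (hZ : 0 < Z) (i : Fin 3) : 0 < (b3 L Z i).re := by
  fin_cases i
  · show 0 < ((1 / L ^ 2 : ℝ) : ℂ).re
    rw [Complex.ofReal_re]; positivity
  · show 0 < ((1 / L ^ 2 : ℝ) : ℂ).re
    rw [Complex.ofReal_re]; positivity
  · show 0 < ((1 / Z ^ 2 : ℝ) : ℂ).re
    rw [Complex.ofReal_re]; positivity

theorem W3_ph (L Z : ℝ) (v : E 3) (y : Fin 3 → ℝ) :
    ((W3 L Z (WithLp.toLp 2 y) : ℝ) : ℂ) * ph (WithLp.toLp 2 y) v =
      cexp (-∑ i, b3 L Z i * (y i : ℂ) ^ 2 + ∑ i, (-I * (v i : ℂ)) * y i) := by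
  unfold W3 ph
  rw [Complex.ofReal_exp, ← Complex.exp_add, Fin.sum_univ_three, Fin.sum_univ_three,
    PiLp.inner_apply, Fin.sum_univ_three, b3_0, b3_1, b3_2]
  congr 1
  simp only [RCLike.inner_apply, conj_trivial]
  push_cast
  ring

theorem integrable_W3 {L Z : ℝ} (hL : 0 < L) (hZ : 0 < Z) : Integrable (W3 L Z) := by
  have h := (GaussianFourier.integrable_cexp_neg_sum_mul_add (b3_re hL hZ)
    (fun i => -I * (((0 : E 3) i : ℝ) : ℂ))).norm
  have h2 := (PiLp.volume_preserving_toLp (Fin 3)).integrable_comp_emb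
    (MeasurableEquiv.toLp 2 _).measurableEmbedding (g := W3 L Z)
  rw [← h2]
  refine h.congr (Filter.Eventually.of_forall fun y => ?_)
  simp only [Function.comp]
  rw [← W3_ph, norm_mul, norm_ph, mul_one, Complex.norm_real, Real.norm_eq_abs,
    abs_of_pos (W3_pos _ _ _)]

/-- the kernel -/
noncomputable def K3 (L Z : ℝ) (v : E 3) : ℝ :=
  Real.exp (-(L ^ 2 * (v 0 ^ 2 + v 1 ^ 2) + Z ^ 2 * v 2 ^ 2) / 4)

theorem K3_pos (L Z : ℝ) (x : E 3) : 0 < K3 L Z x := Real.exp_pos _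

theorem K3_le_one (L Z : ℝ) (x : E 3) : K3 L Z x ≤ 1 := by
  unfold K3
  rw [Real.exp_le_one_iff]
  have : 0 ≤ L ^ 2 * (x 0 ^ 2 + x 1 ^ 2) + Z ^ 2 * x 2 ^ 2 := by positivity
  linarith

theorem K3_neg (L Z : ℝ) (x y : E 3) : K3 L Z (x - y) = K3 L Z (y - x) := by
  unfold K3
  congr 1
  simp only [PiLp.sub_apply]
  ring

theorem continuous_K3 (L Z : ℝ) : Continuous (K3 L Z) := by
  unfold K3
  fun_prop

/-- the constant -/
noncomputable def P3 (L Z : ℝ) : ℝ := Real.pi * L ^ 2 * (Real.sqrt Real.pi * Z)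

theorem norm_K3 {L Z : ℝ} (hL : 0 < L) (hZ : 0 < Z) (v : E 3) :
    ‖∫ x, ((W3 L Z x : ℝ) : ℂ) * ph x v‖ = P3 L Z * K3 L Z v := by
  rw [← (PiLp.volume_preserving_toLp (Fin 3)).integral_comp
    (MeasurableEquiv.toLp 2 _).measurableEmbedding]
  rw [integral_congr_ae (Filter.Eventually.of_forall fun y => W3_ph L Z v y),
    GaussianFourier.integral_cexp_neg_sum_mul_add (b3_re hL hZ), Fin.prod_univ_three]
  have key : ∀ (A : ℝ) (hA : 0 < A) (t : ℝ),
      ‖((Real.pi : ℂ) / ((1 / A ^ 2 : ℝ) : ℂ)) ^ (1 / 2 : ℂ) *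
        cexp ((-I * (t : ℂ)) ^ 2 / (4 * ((1 / A ^ 2 : ℝ) : ℂ)))‖ =
      Real.sqrt Real.pi * A * Real.exp (-(A ^ 2 * t ^ 2) / 4) := by
    intro A hA t
    have hAc : (A : ℂ) ≠ 0 := by exact_mod_cast hA.ne'
    rw [norm_mul]
    congr 1
    · rw [show ((Real.pi : ℂ) / ((1 / A ^ 2 : ℝ) : ℂ)) = ((Real.pi * A ^ 2 : ℝ) : ℂ) by
        push_cast
        field_simp]
      rw [Complex.norm_cpow_eq_rpow_re_of_pos (by positivity)]
      have : (1 / 2 : ℂ).re = 1 / 2 := by
        rw [show (1 / 2 : ℂ) = ((1 / 2 : ℝ) : ℂ) by push_cast; rfl, Complex.ofReal_re]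
      rw [this, ← Real.sqrt_eq_rpow, Real.sqrt_mul Real.pi_pos.le, Real.sqrt_sq hA.le]
    · rw [Complex.norm_exp]
      congr 1
      have : (-I * (t : ℂ)) ^ 2 / (4 * ((1 / A ^ 2 : ℝ) : ℂ)) =
          ((-(A ^ 2 * t ^ 2) / 4 : ℝ) : ℂ) := by
        push_cast
        rw [mul_pow, neg_sq, Complex.I_sq]
        field_simp
      rw [this, Complex.ofReal_re]
  rw [norm_mul, norm_mul]
  have k0 := key L hL (v 0)
  have k1 := key L hL (v 1)
  have k2 := key Z hZ (v 2)
  rw [b3_0, b3_1, b3_2, k0, k1, k2]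
  unfold P3 K3
  have e : Real.exp (-(L ^ 2 * (v 0 ^ 2 + v 1 ^ 2) + Z ^ 2 * v 2 ^ 2) / 4) =
      Real.exp (-(L ^ 2 * v 0 ^ 2) / 4) * Real.exp (-(L ^ 2 * v 1 ^ 2) / 4) *
        Real.exp (-(Z ^ 2 * v 2 ^ 2) / 4) := by
    rw [← Real.exp_add, ← Real.exp_add]
    congr 1
    ring
  rw [e]
  have hs : Real.pi = Real.sqrt Real.pi * Real.sqrt Real.pi :=
    (Real.mul_self_sqrt Real.pi_pos.le).symm
  nth_rewrite 4 [hs]
  ring

/-- the main inequality -/
theorem main3 [IsFiniteMeasure (sg 3)] (g : E 3 → ℂ) (hg : Measurable g)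
    (M : ℝ) (hM : ∀ x, ‖g x‖ ≤ M) (S : Set (E 3)) (hS : MeasurableSet S)
    (hgS : ∀ w ∉ S, g w = 0) {L Z : ℝ} (hL : 0 < L) (hZ : 0 < Z) :
    ∫ x, W3 L Z x * ‖T g x‖ ^ 2 ≤ P3 L Z *
      ∫ w, ‖g w‖ ^ 2 * (∫ w', S.indicator (fun w' => K3 L Z (w - w')) w' ∂(sg 3)) ∂(sg 3) := by
  have hM0 : 0 ≤ M := (norm_nonneg _).trans (hM 0)
  set σ := sg 3 with hσ
  set P : ℝ := P3 L Z with hP
  have hP0 : 0 ≤ P := by rw [hP]; unfold P3; positivity
  -- the kernel
  let F : E 3 → E 3 × E 3 → ℂ := fun x p =>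
    ((W3 L Z x : ℝ) : ℂ) * ((ph x p.1 * g p.1) * (starRingEnd ℂ) (ph x p.2 * g p.2))
  have hFm : Measurable (Function.uncurry F) := by
    have h1 : Measurable fun q : E 3 × (E 3 × E 3) => ((W3 L Z q.1 : ℝ) : ℂ) :=
      Complex.measurable_ofReal.comp ((continuous_W3 L Z).measurable.comp measurable_fst)
    have h2 : Measurable fun q : E 3 × (E 3 × E 3) => ph q.1 q.2.1 * g q.2.1 :=
      (continuous_ph.measurable.comp (measurable_fst.prodMk (measurable_fst.comp measurable_snd))).mul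
        (hg.comp (measurable_fst.comp measurable_snd))
    have h3 : Measurable fun q : E 3 × (E 3 × E 3) => ph q.1 q.2.2 * g q.2.2 :=
      (continuous_ph.measurable.comp (measurable_fst.prodMk (measurable_snd.comp measurable_snd))).mul
        (hg.comp (measurable_snd.comp measurable_snd))
    exact h1.mul (h2.mul (Complex.continuous_conj.measurable.comp h3))
  have hFb : ∀ x p, ‖F x p‖ ≤ W3 L Z x * M ^ 2 := by
    intro x p
    simp only [F, norm_mul, norm_ph, one_mul, RCLike.norm_conj, Complex.norm_real, Real.norm_eq_abs,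
      abs_of_pos (W3_pos L Z x)]
    apply mul_le_mul_of_nonneg_left _ (W3_pos L Z x).le
    rw [sq]
    exact mul_le_mul (hM _) (hM _) (norm_nonneg _) hM0
  have hFi : Integrable (Function.uncurry F) (volume.prod (σ.prod σ)) := by
    have h1 : Integrable (fun q : E 3 × (E 3 × E 3) => W3 L Z q.1 * (fun _ => M ^ 2) q.2)
        (volume.prod (σ.prod σ)) :=
      (integrable_W3 hL hZ).mul_prod (integrable_const (M ^ 2))
    exact h1.mono' hFm.aestronglyMeasurable (Filter.Eventually.of_forall fun q => hFb q.1 q.2)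
  have h1 : ((∫ x, W3 L Z x * ‖T g x‖ ^ 2 : ℝ) : ℂ) = ∫ x, ∫ p, F x p ∂(σ.prod σ) := by
    rw [← integral_complex_ofReal]
    apply integral_congr_ae
    refine Filter.Eventually.of_forall fun x => ?_
    simp only [F]
    rw [integral_const_mul]
    have h2 : ∫ p : E 3 × E 3, (ph x p.1 * g p.1) * (starRingEnd ℂ) (ph x p.2 * g p.2) ∂(σ.prod σ)
        = T g x * (starRingEnd ℂ) (T g x) := by
      rw [integral_prod_mul (fun w => ph x w * g w) (fun w => (starRingEnd ℂ) (ph x w * g w)),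
        integral_conj, T_eq]
    rw [h2, Complex.mul_conj, Complex.normSq_eq_norm_sq]
    push_cast
    rfl
  have h2 : ∫ x, ∫ p, F x p ∂(σ.prod σ) = ∫ p, (∫ x, F x p) ∂(σ.prod σ) :=
    integral_integral_swap hFi
  have h3 : ∀ p : E 3 × E 3, ‖∫ x, F x p‖ =
      ‖g p.1‖ * ‖g p.2‖ * (P * K3 L Z (p.1 - p.2)) := by
    intro p
    have h4 : ∀ x, F x p = (((W3 L Z x : ℝ) : ℂ) * ph x (p.1 - p.2)) *
        (g p.1 * (starRingEnd ℂ) (g p.2)) := by
      intro x
      simp only [F]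
      rw [← ph_mul_conj, map_mul]
      ring
    rw [integral_congr_ae (Filter.Eventually.of_forall h4), integral_mul_const, norm_mul,
      norm_K3 hL hZ, norm_mul, RCLike.norm_conj]
    ring
  -- integrability on the product of the spheres
  have hkm : Measurable fun p : E 3 × E 3 => S.indicator (fun w' => K3 L Z (p.1 - w')) p.2 := by
    have : (fun p : E 3 × E 3 => S.indicator (fun w' => K3 L Z (p.1 - w')) p.2) =
        (Prod.snd ⁻¹' S).indicator (fun p : E 3 × E 3 => K3 L Z (p.1 - p.2)) := by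
      funext p
      by_cases h : p.2 ∈ S
      · rw [indicator_of_mem h, indicator_of_mem (show p ∈ Prod.snd ⁻¹' S from h)]
      · rw [indicator_of_notMem h, indicator_of_notMem (show p ∉ Prod.snd ⁻¹' S from h)]
    rw [this]
    refine Measurable.indicator ?_ (measurable_snd hS)
    exact (continuous_K3 L Z).measurable.comp (measurable_fst.sub measurable_snd)
  have hk0 : ∀ p : E 3 × E 3, 0 ≤ S.indicator (fun w' => K3 L Z (p.1 - w')) p.2 := fun p =>
    indicator_nonneg (fun _ _ => (K3_pos _ _ _).le) _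
  have hk1 : ∀ p : E 3 × E 3, S.indicator (fun w' => K3 L Z (p.1 - w')) p.2 ≤ 1 := by
    intro p
    by_cases h : p.2 ∈ S
    · rw [indicator_of_mem h]; exact K3_le_one _ _ _
    · rw [indicator_of_notMem h]; exact zero_le_one
  have hint1 : Integrable (fun p : E 3 × E 3 => ‖g p.1‖ ^ 2 *
      S.indicator (fun w' => K3 L Z (p.1 - w')) p.2) (σ.prod σ) := by
    refine Integrable.mono' (integrable_const (M ^ 2)) ?_ (Filter.Eventually.of_forall fun p => ?_)
    · exact (((hg.comp measurable_fst).norm.pow_const 2).mul hkm).aestronglyMeasurable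
    · rw [norm_mul, Real.norm_eq_abs, Real.norm_eq_abs, abs_of_nonneg (by positivity),
        abs_of_nonneg (hk0 p)]
      calc ‖g p.1‖ ^ 2 * S.indicator (fun w' => K3 L Z (p.1 - w')) p.2 ≤ M ^ 2 * 1 :=
            mul_le_mul (pow_le_pow_left₀ (norm_nonneg _) (hM _) 2) (hk1 p) (hk0 p)
              (by positivity)
        _ = M ^ 2 := mul_one _
  have hint2 : Integrable (fun p : E 3 × E 3 => ‖g p.2‖ ^ 2 *
      S.indicator (fun w' => K3 L Z (p.2 - w')) p.1) (σ.prod σ) := hint1.swap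
  have hI : ∫ p : E 3 × E 3, ‖g p.1‖ ^ 2 *
      S.indicator (fun w' => K3 L Z (p.1 - w')) p.2 ∂(σ.prod σ) =
      ∫ w, ‖g w‖ ^ 2 * (∫ w', S.indicator (fun w' => K3 L Z (w - w')) w' ∂σ) ∂σ := by
    rw [integral_prod _ hint1]
    apply integral_congr_ae
    refine Filter.Eventually.of_forall fun w => ?_
    simp only
    rw [integral_const_mul]
  have hI2 : ∫ p : E 3 × E 3, ‖g p.2‖ ^ 2 *
      S.indicator (fun w' => K3 L Z (p.2 - w')) p.1 ∂(σ.prod σ) =
      ∫ w, ‖g w‖ ^ 2 * (∫ w', S.indicator (fun w' => K3 L Z (w - w')) w' ∂σ) ∂σ := by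
    rw [← hI, ← integral_prod_swap]
    rfl
  have h5 : ∫ x, W3 L Z x * ‖T g x‖ ^ 2 ≤ ‖((∫ x, W3 L Z x * ‖T g x‖ ^ 2 : ℝ) : ℂ)‖ := by
    rw [Complex.norm_real]
    exact le_abs_self _
  calc ∫ x, W3 L Z x * ‖T g x‖ ^ 2 ≤ ‖((∫ x, W3 L Z x * ‖T g x‖ ^ 2 : ℝ) : ℂ)‖ := h5
    _ = ‖∫ p, (∫ x, F x p) ∂(σ.prod σ)‖ := by rw [h1, h2]
    _ ≤ ∫ p, ‖∫ x, F x p‖ ∂(σ.prod σ) := norm_integral_le_integral_norm _
    _ ≤ ∫ p : E 3 × E 3, ((P / 2) * (‖g p.1‖ ^ 2 *
          S.indicator (fun w' => K3 L Z (p.1 - w')) p.2) +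
          (P / 2) * (‖g p.2‖ ^ 2 *
          S.indicator (fun w' => K3 L Z (p.2 - w')) p.1)) ∂(σ.prod σ) := by
        apply integral_mono_of_nonneg
        · exact Filter.Eventually.of_forall fun p => norm_nonneg _
        · exact (hint1.const_mul _).add (hint2.const_mul _)
        · refine Filter.Eventually.of_forall fun p => ?_
          simp only
          rw [h3 p]
          by_cases hp1 : p.1 ∈ S
          · by_cases hp2 : p.2 ∈ S
            · rw [indicator_of_mem hp1, indicator_of_mem hp2, K3_neg L Z p.2 p.1]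
              have h6 : 0 ≤ P * K3 L Z (p.1 - p.2) := mul_nonneg hP0 (K3_pos _ _ _).le
              nlinarith [mul_nonneg h6 (sq_nonneg (‖g p.1‖ - ‖g p.2‖))]
            · rw [hgS _ hp2, norm_zero]
              have e1 := hk0 p
              have e2 := hk0 p.swap
              simp only [Prod.fst_swap, Prod.snd_swap] at e2
              have : 0 ≤ P / 2 * (‖g p.1‖ ^ 2 * S.indicator (fun w' => K3 L Z (p.1 - w')) p.2) :=
                mul_nonneg (by positivity) (mul_nonneg (by positivity) e1)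
              simp only [mul_zero, zero_mul]
              have h0 : P / 2 * ((0:ℝ) ^ 2 * S.indicator (fun w' => K3 L Z (p.2 - w')) p.1) = 0 := by
                ring
              rw [h0]
              linarith
          · rw [hgS _ hp1, norm_zero]
            have e1 := hk0 p
            have e2 := hk0 p.swap
            simp only [Prod.fst_swap, Prod.snd_swap] at e2
            have : 0 ≤ P / 2 * (‖g p.2‖ ^ 2 * S.indicator (fun w' => K3 L Z (p.2 - w')) p.1) :=
              mul_nonneg (by positivity) (mul_nonneg (by positivity) e2)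
            simp only [mul_zero, zero_mul]
            have h0 : P / 2 * ((0:ℝ) ^ 2 * S.indicator (fun w' => K3 L Z (p.1 - w')) p.2) = 0 := by
              ring
            rw [h0]
            linarith
    _ = P * ∫ w, ‖g w‖ ^ 2 * (∫ w', S.indicator (fun w' => K3 L Z (w - w')) w' ∂σ) ∂σ := by
        rw [integral_add (hint1.const_mul _) (hint2.const_mul _), integral_const_mul,
          integral_const_mul, hI, hI2]
        ring

theorem gauss_lint (b : ℝ) (hb : 0 < b) (a : ℝ) :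
    ∫⁻ c : ℝ, ENNReal.ofReal (Real.exp (-b * (c - a) ^ 2)) =
      ENNReal.ofReal (Real.sqrt (Real.pi / b)) := by
  have h := integral_gaussian b
  have hi := integrable_exp_neg_mul_sq hb
  rw [← h, ofReal_integral_eq_lintegral_ofReal hi
    (Filter.Eventually.of_forall fun x => (Real.exp_pos _).le)]
  exact lintegral_sub_right_eq_self (fun c => ENNReal.ofReal (Real.exp (-b * c ^ 2))) a

theorem phi_int1 (κ φ0 : ℝ) (hκ : 0 ≤ κ) :
    ∫⁻ φ in Ioo (-Real.pi) Real.pi, ENNReal.ofReal (Real.exp (-κ * (1 - Real.cos (φ0 - φ)))) ≤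
      ENNReal.ofReal (2 * Real.pi) := by
  calc ∫⁻ φ in Ioo (-Real.pi) Real.pi, ENNReal.ofReal (Real.exp (-κ * (1 - Real.cos (φ0 - φ))))
      ≤ ∫⁻ φ in Ioo (-Real.pi) Real.pi, 1 := by
        apply lintegral_mono
        intro φ
        simp only
        rw [← ENNReal.ofReal_one]
        apply ENNReal.ofReal_le_ofReal
        rw [Real.exp_le_one_iff]
        have := Real.cos_le_one (φ0 - φ)
        nlinarith
    _ = ENNReal.ofReal (2 * Real.pi) := by
        rw [lintegral_const, one_mul, Measure.restrict_apply_univ, Real.volume_Ioo]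
        congr 1
        ring

theorem phi_int2 (κ φ0 : ℝ) (hκ : 0 < κ) :
    ∫⁻ φ in Ioo (-Real.pi) Real.pi, ENNReal.ofReal (Real.exp (-κ * (1 - Real.cos (φ0 - φ)))) ≤
      ENNReal.ofReal (Real.sqrt (Real.pi / (κ * (2 / Real.pi ^ 2)))) := by
  have hpi := Real.pi_pos
  set h : ℝ → ℝ := fun φ => Real.exp (-κ * (1 - Real.cos (φ0 - φ))) with hh
  have hc : Continuous h := by rw [hh]; fun_prop
  have hper : Function.Periodic h (2 * Real.pi) := by
    intro x
    simp only [hh]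
    rw [show φ0 - (x + 2 * Real.pi) = φ0 - x - 2 * Real.pi by ring, Real.cos_sub_two_pi]
  have e1 : ∫⁻ φ in Ioo (-Real.pi) Real.pi, ENNReal.ofReal (h φ) =
      ENNReal.ofReal (∫ φ in (-Real.pi)..Real.pi, h φ) := by
    rw [intervalIntegral.integral_of_le (by linarith), integral_Ioc_eq_integral_Ioo]
    rw [ofReal_integral_eq_lintegral_ofReal]
    · exact (hc.integrableOn_Icc (a := -Real.pi) (b := Real.pi)).mono_set Ioo_subset_Icc_self
    · exact Filter.Eventually.of_forall fun x => (Real.exp_pos _).le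
  have e2 : ∫ φ in (-Real.pi)..Real.pi, h φ = ∫ φ in (φ0 - Real.pi)..(φ0 + Real.pi), h φ := by
    have := hper.intervalIntegral_add_eq (-Real.pi) (φ0 - Real.pi)
    rw [show -Real.pi + 2 * Real.pi = Real.pi by ring,
      show φ0 - Real.pi + 2 * Real.pi = φ0 + Real.pi by ring] at this
    exact this
  have e3 : ∫ φ in (φ0 - Real.pi)..(φ0 + Real.pi), h φ =
      ∫ t in (-Real.pi)..Real.pi, Real.exp (-κ * (1 - Real.cos t)) := by
    have := intervalIntegral.integral_comp_sub_left (a := φ0 - Real.pi) (b := φ0 + Real.pi)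
      (fun t => Real.exp (-κ * (1 - Real.cos t))) φ0
    rw [show φ0 - (φ0 + Real.pi) = -Real.pi by ring,
      show φ0 - (φ0 - Real.pi) = Real.pi by ring] at this
    exact this
  have hb : 0 < κ * (2 / Real.pi ^ 2) := by positivity
  have e4 : ∫ t in (-Real.pi)..Real.pi, Real.exp (-κ * (1 - Real.cos t)) ≤
      ∫ t in (-Real.pi)..Real.pi, Real.exp (-(κ * (2 / Real.pi ^ 2)) * t ^ 2) := by
    apply intervalIntegral.integral_mono_on (by linarith)
    · apply Continuous.intervalIntegrable; fun_prop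
    · apply Continuous.intervalIntegrable; fun_prop
    · intro t ht
      apply Real.exp_le_exp.2
      have := Real.cos_le_one_sub_mul_cos_sq (abs_le.2 ht)
      nlinarith
  have e5 : ∫ t in (-Real.pi)..Real.pi, Real.exp (-(κ * (2 / Real.pi ^ 2)) * t ^ 2) ≤
      Real.sqrt (Real.pi / (κ * (2 / Real.pi ^ 2))) := by
    rw [← integral_gaussian, intervalIntegral.integral_of_le (by linarith)]
    exact setIntegral_le_integral (integrable_exp_neg_mul_sq hb)
      (Filter.Eventually.of_forall fun x => (Real.exp_pos _).le)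
  rw [e1, e2, e3]
  exact ENNReal.ofReal_le_ofReal (e4.trans e5)

theorem exists_angle (a b s : ℝ) (hs : 0 ≤ s) (h : a ^ 2 + b ^ 2 = s ^ 2) :
    ∃ φ : ℝ, a = s * Real.cos φ ∧ b = s * Real.sin φ := by
  have hn : ‖(⟨a, b⟩ : ℂ)‖ = s := by
    rw [Complex.norm_def, Complex.normSq_mk, ← sq, ← sq, h, Real.sqrt_sq hs]
  refine ⟨Complex.arg ⟨a, b⟩, ?_, ?_⟩
  · rw [← hn, Complex.norm_mul_cos_arg]
  · rw [← hn, Complex.norm_mul_sin_arg]

theorem measurableSet_band (μ : ℝ) : MeasurableSet (band μ) := by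
  have h1 : Measurable sc := by unfold sc; fun_prop
  have e : band μ = {c | |c| < 1} ∩ ({c | μ / 2 < sc c} ∩ {c | sc c ≤ μ}) := rfl
  rw [e]
  exact (measurableSet_lt measurable_id.abs measurable_const).inter
    ((measurableSet_lt measurable_const h1).inter (measurableSet_le h1 measurable_const))

/-- the bound for the integral over the longitudes -/
noncomputable def Bd (L μ : ℝ) : ℝ :=
  min (2 * Real.pi) (2 * Real.pi * Real.sqrt Real.pi / (L * μ))

theorem phi_int (L μ φ0 : ℝ) (hL : 0 < L) (hμ : 0 < μ) :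
    ∫⁻ φ in Ioo (-Real.pi) Real.pi,
      ENNReal.ofReal (Real.exp (-(L ^ 2 * μ ^ 2 / 8) * (1 - Real.cos (φ0 - φ)))) ≤
      ENNReal.ofReal (Bd L μ) := by
  have hpi := Real.pi_pos
  have hκ : 0 < L ^ 2 * μ ^ 2 / 8 := by positivity
  have h1 := phi_int1 (L ^ 2 * μ ^ 2 / 8) φ0 hκ.le
  have h2 := phi_int2 (L ^ 2 * μ ^ 2 / 8) φ0 hκ
  have e : Real.sqrt (Real.pi / (L ^ 2 * μ ^ 2 / 8 * (2 / Real.pi ^ 2))) =
      2 * Real.pi * Real.sqrt Real.pi / (L * μ) := by
    have : Real.pi / (L ^ 2 * μ ^ 2 / 8 * (2 / Real.pi ^ 2)) =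
        (2 * Real.pi / (L * μ)) ^ 2 * Real.pi := by
      field_simp
      ring
    rw [this, Real.sqrt_mul (by positivity), Real.sqrt_sq (by positivity)]
    ring
  rw [e] at h2
  unfold Bd
  rcases le_total (2 * Real.pi) (2 * Real.pi * Real.sqrt Real.pi / (L * μ)) with h | h
  · rw [min_eq_left h]; exact h1
  · rw [min_eq_right h]; exact h2

theorem kern_le {L Z μ : ℝ} (hL : 0 < L) (hZ : 0 < Z) (hμ : 0 < μ) (w : E 3) (hw : ‖w‖ = 1)
    (hwb : w 2 ∈ band μ) :
    ∫ w', ({x : E 3 | x 2 ∈ band μ}).indicator (fun w' => K3 L Z (w - w')) w' ∂(sg 3) ≤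
      2 * Real.sqrt Real.pi / Z * Bd L μ := by
  have hpi := Real.pi_pos
  have hBd : 0 ≤ Bd L μ := by unfold Bd; positivity
  have hSm : MeasurableSet {x : E 3 | x 2 ∈ band μ} := by
    have : Measurable fun x : E 3 => x 2 := by fun_prop
    exact this (measurableSet_band μ)
  have hm : Measurable (({x : E 3 | x 2 ∈ band μ}).indicator (fun w' => K3 L Z (w - w'))) := by
    refine Measurable.indicator ?_ hSm
    exact (continuous_K3 L Z).measurable.comp (measurable_const.sub measurable_id)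
  rw [integral_eq_lintegral_of_nonneg_ae (Filter.Eventually.of_forall fun x =>
    indicator_nonneg (fun _ _ => (K3_pos _ _ _).le) _) hm.aestronglyMeasurable]
  refine ENNReal.toReal_le_of_le_ofReal (by positivity) ?_
  rw [arch _ hm.ennreal_ofReal]
  -- the angle of w
  have hsc : ∀ c : ℝ, 0 ≤ sc c := fun c => Real.sqrt_nonneg _
  obtain ⟨hw1, hw2, hw3⟩ := hwb
  have hsc2 : ∀ c : ℝ, |c| < 1 → sc c ^ 2 = 1 - c ^ 2 := by
    intro c hc
    unfold sc
    rw [Real.sq_sqrt]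
    have := (abs_lt.1 hc)
    nlinarith
  have hnw : w 0 ^ 2 + w 1 ^ 2 = sc (w 2) ^ 2 := by
    rw [hsc2 _ hw1]
    have h := EuclideanSpace.norm_sq_eq w
    rw [hw, Fin.sum_univ_three] at h
    simp only [Real.norm_eq_abs, sq_abs] at h
    linarith
  obtain ⟨φ0, h0, h1⟩ := exists_angle (w 0) (w 1) (sc (w 2)) (hsc _) hnw
  have key : ∀ c φ : ℝ, ENNReal.ofReal (({x : E 3 | x 2 ∈ band μ}).indicator
      (fun w' => K3 L Z (w - w')) (pt c φ)) ≤
      ENNReal.ofReal (Real.exp (-(Z ^ 2 / 4) * (c - w 2) ^ 2)) *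
      ENNReal.ofReal (Real.exp (-(L ^ 2 * μ ^ 2 / 8) * (1 - Real.cos (φ0 - φ)))) := by
    intro c φ
    by_cases hc : pt c φ ∈ {x : E 3 | x 2 ∈ band μ}
    · rw [indicator_of_mem hc, ← ENNReal.ofReal_mul (Real.exp_pos _).le]
      apply ENNReal.ofReal_le_ofReal
      rw [← Real.exp_add]
      unfold K3
      apply Real.exp_le_exp.2
      have hc' : c ∈ band μ := hc
      obtain ⟨hc1, hc2, hc3⟩ := hc'
      have p0 : (w - pt c φ) 0 = sc (w 2) * Real.cos φ0 - sc c * Real.cos φ := by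
        rw [PiLp.sub_apply, h0]; rfl
      have p1 : (w - pt c φ) 1 = sc (w 2) * Real.sin φ0 - sc c * Real.sin φ := by
        rw [PiLp.sub_apply, h1]; rfl
      have p2 : (w - pt c φ) 2 = w 2 - c := rfl
      rw [p0, p1, p2]
      set s := sc (w 2)
      set s' := sc c
      have hid : (s * Real.cos φ0 - s' * Real.cos φ) ^ 2 + (s * Real.sin φ0 - s' * Real.sin φ) ^ 2 =
          (s - s') ^ 2 + 2 * (s * s') * (1 - Real.cos (φ0 - φ)) := by
        rw [Real.cos_sub]
        have q1 := Real.sin_sq_add_cos_sq φ0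
        have q2 := Real.sin_sq_add_cos_sq φ
        linear_combination s ^ 2 * q1 + s' ^ 2 * q2
      rw [hid]
      have hcos : 0 ≤ 1 - Real.cos (φ0 - φ) := by linarith [Real.cos_le_one (φ0 - φ)]
      have hss : μ ^ 2 / 4 ≤ s * s' := by nlinarith
      have h3 : μ ^ 2 / 4 * (1 - Real.cos (φ0 - φ)) ≤ s * s' * (1 - Real.cos (φ0 - φ)) :=
        mul_le_mul_of_nonneg_right hss hcos
      have h4 : L ^ 2 * (μ ^ 2 / 4 * (1 - Real.cos (φ0 - φ))) ≤
          L ^ 2 * (s * s' * (1 - Real.cos (φ0 - φ))) :=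
        mul_le_mul_of_nonneg_left h3 (by positivity)
      have h5 : 0 ≤ L ^ 2 * (s - s') ^ 2 := by positivity
      nlinarith
    · rw [indicator_of_notMem hc, ENNReal.ofReal_zero]
      exact zero_le
  calc ∫⁻ c in Ioo (-1 : ℝ) 1, ∫⁻ φ in Ioo (-Real.pi) Real.pi,
        ENNReal.ofReal (({x : E 3 | x 2 ∈ band μ}).indicator (fun w' => K3 L Z (w - w')) (pt c φ))
      ≤ ∫⁻ c in Ioo (-1 : ℝ) 1, ENNReal.ofReal (Real.exp (-(Z ^ 2 / 4) * (c - w 2) ^ 2)) *
          ENNReal.ofReal (Bd L μ) := by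
        apply lintegral_mono
        intro c
        simp only
        calc ∫⁻ φ in Ioo (-Real.pi) Real.pi, ENNReal.ofReal
              (({x : E 3 | x 2 ∈ band μ}).indicator (fun w' => K3 L Z (w - w')) (pt c φ))
            ≤ ∫⁻ φ in Ioo (-Real.pi) Real.pi,
              ENNReal.ofReal (Real.exp (-(Z ^ 2 / 4) * (c - w 2) ^ 2)) *
              ENNReal.ofReal (Real.exp (-(L ^ 2 * μ ^ 2 / 8) * (1 - Real.cos (φ0 - φ)))) :=
              lintegral_mono fun φ => key c φ
          _ = ENNReal.ofReal (Real.exp (-(Z ^ 2 / 4) * (c - w 2) ^ 2)) *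
              ∫⁻ φ in Ioo (-Real.pi) Real.pi,
              ENNReal.ofReal (Real.exp (-(L ^ 2 * μ ^ 2 / 8) * (1 - Real.cos (φ0 - φ)))) := by
              rw [lintegral_const_mul _ (by fun_prop)]
          _ ≤ _ := by gcongr; exact phi_int L μ φ0 hL hμ
    _ ≤ ∫⁻ c : ℝ, ENNReal.ofReal (Real.exp (-(Z ^ 2 / 4) * (c - w 2) ^ 2)) *
          ENNReal.ofReal (Bd L μ) := setLIntegral_le_lintegral _ _
    _ = ENNReal.ofReal (Real.sqrt (Real.pi / (Z ^ 2 / 4))) * ENNReal.ofReal (Bd L μ) := by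
        rw [lintegral_mul_const _ (by fun_prop), gauss_lint _ (by positivity)]
    _ = ENNReal.ofReal (2 * Real.sqrt Real.pi / Z * Bd L μ) := by
        rw [← ENNReal.ofReal_mul (Real.sqrt_nonneg _)]
        congr 2
        rw [show Real.pi / (Z ^ 2 / 4) = (2 / Z) ^ 2 * Real.pi by field_simp; ring,
          Real.sqrt_mul (by positivity), Real.sqrt_sq (by positivity)]
        ring

end L2C

open L2C L2 in
theorem L2_cyl : ∃ C : ℝ, 0 < C ∧ ∀ μ : ℝ, 0 < μ → μ ≤ 1 → ∀ L : ℝ, 0 < L →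
    ∀ f : E 3 → ℂ, Measurable f → (∃ M : ℝ, ∀ x, ‖f x‖ ≤ M) → (∀ x, x 2 ∉ band μ → f x = 0) →
    ∫⁻ x in {x : E 3 | x 0 ^ 2 + x 1 ^ 2 ≤ L ^ 2}, ENNReal.ofReal (‖T f x‖ ^ 2) ≤
      ENNReal.ofReal (C * min (L / μ) (L ^ 2) * ∫ w, ‖f w‖ ^ 2 ∂(sg 3)) := by
  have hpi := Real.pi_pos
  have hfin : IsFiniteMeasure (sg 3) := sg_finite 3
  refine ⟨Real.exp 1 * (4 * Real.pi ^ 3 * Real.sqrt Real.pi), by positivity, ?_⟩
  intro μ hμ hμ1 L hL f hf ⟨M, hM⟩ hs
  have hM0 : 0 ≤ M := (norm_nonneg _).trans (hM 0)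
  set S : Set (E 3) := {x : E 3 | x 2 ∈ band μ} with hS
  have hSm : MeasurableSet S := by
    have : Measurable fun x : E 3 => x 2 := by fun_prop
    exact this (measurableSet_band μ)
  have hfS : ∀ w ∉ S, f w = 0 := fun w hw => hs w hw
  set I2 : ℝ := ∫ w, ‖f w‖ ^ 2 ∂(sg 3) with hI2
  have hI20 : 0 ≤ I2 := integral_nonneg fun _ => by positivity
  have hTm : Measurable (T f) := (measurable_T f hf).measurable
  have hf2 : Integrable (fun w => ‖f w‖ ^ 2) (sg 3) := by
    refine Integrable.mono' (integrable_const (M ^ 2)) (hf.norm.pow_const 2).aestronglyMeasurable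
      (Filter.Eventually.of_forall fun w => ?_)
    rw [Real.norm_eq_abs, abs_of_nonneg (by positivity)]
    exact pow_le_pow_left₀ (norm_nonneg _) (hM _) 2
  -- bound with the weight
  have step1 : ∀ Z : ℝ, 0 < Z → ∫ x, W3 L Z x * ‖T f x‖ ^ 2 ≤
      4 * Real.pi ^ 3 * Real.sqrt Real.pi * min (L / μ) (L ^ 2) * I2 := by
    intro Z hZ
    have h1 := main3 f hf M hM S hSm hfS hL hZ
    have h2 : ∫ w, ‖f w‖ ^ 2 * (∫ w', S.indicator (fun w' => K3 L Z (w - w')) w' ∂(sg 3)) ∂(sg 3) ≤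
        ∫ w, (2 * Real.sqrt Real.pi / Z * Bd L μ) * ‖f w‖ ^ 2 ∂(sg 3) := by
      apply integral_mono_of_nonneg
      · refine Filter.Eventually.of_forall fun w => ?_
        apply mul_nonneg (by positivity)
        exact integral_nonneg fun _ => indicator_nonneg (fun _ _ => (K3_pos _ _ _).le) _
      · exact hf2.const_mul _
      · filter_upwards [sg_ae 3] with w hw
        by_cases hwS : w ∈ S
        · rw [mul_comm]
          exact mul_le_mul_of_nonneg_right (kern_le hL hZ hμ w hw hwS) (by positivity)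
        · rw [hfS w hwS]; simp
    rw [integral_const_mul] at h2
    have hP0 : 0 ≤ P3 L Z := by unfold P3; positivity
    refine h1.trans ((mul_le_mul_of_nonneg_left h2 hP0).trans ?_)
    have e : P3 L Z * (2 * Real.sqrt Real.pi / Z * Bd L μ * I2) =
        2 * Real.pi ^ 2 * L ^ 2 * Bd L μ * I2 := by
      unfold P3
      have hs : Real.sqrt Real.pi * Real.sqrt Real.pi = Real.pi := Real.mul_self_sqrt hpi.le
      have hZ' : Z * Z⁻¹ = 1 := mul_inv_cancel₀ hZ.ne'
      linear_combination (2 * Real.pi * L ^ 2 * Bd L μ * I2 * (Real.sqrt Real.pi *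
        Real.sqrt Real.pi)) * hZ' + (2 * Real.pi * L ^ 2 * Bd L μ * I2) * hs
    rw [e]
    apply mul_le_mul_of_nonneg_right _ hI20
    have hsq1 : 1 ≤ Real.sqrt Real.pi := by
      rw [Real.one_le_sqrt]
      linarith [Real.pi_gt_three]
    rcases le_total (L / μ) (L ^ 2) with h | h
    · rw [min_eq_left h]
      have : Bd L μ ≤ 2 * Real.pi * Real.sqrt Real.pi / (L * μ) := min_le_right _ _
      calc 2 * Real.pi ^ 2 * L ^ 2 * Bd L μ ≤
            2 * Real.pi ^ 2 * L ^ 2 * (2 * Real.pi * Real.sqrt Real.pi / (L * μ)) :=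
            mul_le_mul_of_nonneg_left this (by positivity)
        _ = 4 * Real.pi ^ 3 * Real.sqrt Real.pi * (L / μ) := by
            field_simp
            ring
    · rw [min_eq_right h]
      have : Bd L μ ≤ 2 * Real.pi := min_le_left _ _
      calc 2 * Real.pi ^ 2 * L ^ 2 * Bd L μ ≤ 2 * Real.pi ^ 2 * L ^ 2 * (2 * Real.pi) :=
            mul_le_mul_of_nonneg_left this (by positivity)
        _ = 4 * Real.pi ^ 3 * 1 * L ^ 2 := by ring
        _ ≤ 4 * Real.pi ^ 3 * Real.sqrt Real.pi * L ^ 2 := by gcongr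
  -- the weight is bounded below on the cylinder
  set Cy : Set (E 3) := {x : E 3 | x 0 ^ 2 + x 1 ^ 2 ≤ L ^ 2} with hCy
  have hCym : MeasurableSet Cy := measurableSet_le (by fun_prop) measurable_const
  have hTb : ∀ x, ‖T f x‖ ≤ M * (sg 3).real univ := norm_T_le f M hM
  have step2 : ∀ n : ℕ, ∫⁻ x in Cy, ENNReal.ofReal
      (Real.exp (-(x 2 ^ 2 / ((n : ℝ) + 1) ^ 2)) * ‖T f x‖ ^ 2) ≤
      ENNReal.ofReal (Real.exp 1 * (4 * Real.pi ^ 3 * Real.sqrt Real.pi) *
        min (L / μ) (L ^ 2) * I2) := by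
    intro n
    have hn : (0 : ℝ) < (n : ℝ) + 1 := by positivity
    have hint : Integrable (fun x => W3 L ((n : ℝ) + 1) x * ‖T f x‖ ^ 2) := by
      refine Integrable.mono' ((integrable_W3 hL hn).mul_const ((M * (sg 3).real univ) ^ 2)) ?_
        (Filter.Eventually.of_forall fun x => ?_)
      · exact ((continuous_W3 _ _).measurable.mul (hTm.norm.pow_const 2)).aestronglyMeasurable
      · rw [norm_mul, Real.norm_eq_abs, Real.norm_eq_abs, abs_of_pos (W3_pos _ _ x),
          abs_of_nonneg (by positivity)]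
        exact mul_le_mul_of_nonneg_left (pow_le_pow_left₀ (norm_nonneg _) (hTb _) 2) (W3_pos _ _ x).le
    calc ∫⁻ x in Cy, ENNReal.ofReal (Real.exp (-(x 2 ^ 2 / ((n : ℝ) + 1) ^ 2)) * ‖T f x‖ ^ 2)
        ≤ ∫⁻ x in Cy, ENNReal.ofReal (Real.exp 1 * (W3 L ((n : ℝ) + 1) x * ‖T f x‖ ^ 2)) := by
          apply setLIntegral_mono' hCym
          intro x hx
          apply ENNReal.ofReal_le_ofReal
          rw [← mul_assoc]
          apply mul_le_mul_of_nonneg_right _ (by positivity)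
          unfold W3
          rw [← Real.exp_add]
          apply Real.exp_le_exp.2
          have hx' : x 0 ^ 2 + x 1 ^ 2 ≤ L ^ 2 := hx
          have : (x 0 ^ 2 + x 1 ^ 2) / L ^ 2 ≤ 1 := by
            rw [div_le_one (by positivity)]; exact hx'
          linarith
      _ ≤ ∫⁻ x, ENNReal.ofReal (Real.exp 1 * (W3 L ((n : ℝ) + 1) x * ‖T f x‖ ^ 2)) :=
          setLIntegral_le_lintegral _ _
      _ = ENNReal.ofReal (∫ x, Real.exp 1 * (W3 L ((n : ℝ) + 1) x * ‖T f x‖ ^ 2)) := by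
          rw [ofReal_integral_eq_lintegral_ofReal (hint.const_mul _)]
          refine Filter.Eventually.of_forall fun x => ?_
          have := (W3_pos L ((n : ℝ) + 1) x).le
          positivity
      _ ≤ _ := by
          apply ENNReal.ofReal_le_ofReal
          rw [integral_const_mul]
          have := mul_le_mul_of_nonneg_left (step1 ((n : ℝ) + 1) hn) (Real.exp_pos 1).le
          refine this.trans (le_of_eq ?_)
          ring
  -- Fatou
  have hlim : ∀ x : E 3, Filter.liminf (fun n : ℕ => ENNReal.ofReal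
      (Real.exp (-(x 2 ^ 2 / ((n : ℝ) + 1) ^ 2)) * ‖T f x‖ ^ 2)) Filter.atTop =
      ENNReal.ofReal (‖T f x‖ ^ 2) := by
    intro x
    apply Filter.Tendsto.liminf_eq
    apply ENNReal.tendsto_ofReal
    have h1 : Filter.Tendsto (fun n : ℕ => (x 2 ^ 2 / ((n : ℝ) + 1) ^ 2)) Filter.atTop
        (nhds 0) := by
      apply Filter.Tendsto.div_atTop tendsto_const_nhds
      apply Filter.Tendsto.comp (Filter.tendsto_pow_atTop (by norm_num))
      exact Filter.tendsto_atTop_add_const_right _ _ tendsto_natCast_atTop_atTop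
    have h2 : Filter.Tendsto (fun n : ℕ => Real.exp (-(x 2 ^ 2 / ((n : ℝ) + 1) ^ 2)) *
        ‖T f x‖ ^ 2) Filter.atTop (nhds (Real.exp (-0) * ‖T f x‖ ^ 2)) :=
      ((Real.continuous_exp.tendsto _).comp h1.neg).mul_const _
    simpa using h2
  calc ∫⁻ x in Cy, ENNReal.ofReal (‖T f x‖ ^ 2)
      = ∫⁻ x in Cy, Filter.liminf (fun n : ℕ => ENNReal.ofReal
        (Real.exp (-(x 2 ^ 2 / ((n : ℝ) + 1) ^ 2)) * ‖T f x‖ ^ 2)) Filter.atTop := by
        simp only [hlim]
    _ ≤ Filter.liminf (fun n : ℕ => ∫⁻ x in Cy, ENNReal.ofReal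
        (Real.exp (-(x 2 ^ 2 / ((n : ℝ) + 1) ^ 2)) * ‖T f x‖ ^ 2)) Filter.atTop := by
        apply lintegral_liminf_le
        intro n
        apply Measurable.ennreal_ofReal
        refine Measurable.mul ?_ (hTm.norm.pow_const 2)
        fun_prop
    _ ≤ _ := by
        refine Filter.liminf_le_of_le (by isBoundedDefault) ?_
        intro b hb
        obtain ⟨n, hn⟩ := hb.exists
        exact hn.trans (step2 n)

end Pool.Agent.H789R2.FR
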