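import Mathlib
import Pool.Agent.H789R2.FR.Defs6
set_option autoImplicit false

/-! Task V1 (helper647): lower bound for `kz` and the bound for the circle integral, by shifting the
contour `h ↦ h + i t` with `sinh t = ν sin θ / (5 κ)`. -/

namespace Pool.Agent.H789R2.FR

open MeasureTheory Measure Set Metric Complex
open scoped ENNReal Pointwise RealInnerProductSpace

theorem kz_lower (κ : ℝ) (hκ : 1 ≤ κ) : κ ^ (-(1 / 2 : ℝ)) ≤ kz κ := by
  have hκ0 : 0 < κ := by linarith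
  set a : ℝ := κ ^ (-(1 / 2 : ℝ)) with ha
  have ha0 : 0 < a := Real.rpow_pos_of_pos hκ0 _
  have ha1 : a ≤ 1 := Real.rpow_le_one_of_one_le_of_nonpos hκ (by norm_num)
  have ha2 : κ * a ^ 2 = 1 := by
    rw [ha, ← Real.rpow_natCast, ← Real.rpow_mul hκ0.le]
    norm_num
    rw [Real.rpow_neg_one]
    field_simp
  have hint : IntegrableOn (fun h : ℝ => Real.exp (-κ * (1 - Real.cos h))) (Ioo (-Real.pi) Real.pi) := by
    apply (Continuous.integrableOn_Icc _).mono_set Ioo_subset_Icc_self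
    fun_prop
  have hsub : Ioo (-a) a ⊆ Ioo (-Real.pi) Real.pi := by
    intro x hx
    have := Real.pi_gt_three
    exact ⟨by linarith [hx.1], by linarith [hx.2]⟩
  have h1 : ∫ h in Ioo (-a) a, Real.exp (-κ * (1 - Real.cos h)) ≤ kz κ := by
    unfold kz
    exact setIntegral_mono_set hint (Filter.Eventually.of_forall fun x => (Real.exp_pos _).le)
      hsub.eventuallyLE
  have h2 : ∫ _ in Ioo (-a) a, (1 / 2 : ℝ) ≤ ∫ h in Ioo (-a) a, Real.exp (-κ * (1 - Real.cos h)) := by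
    apply setIntegral_mono_on
    · exact integrableOn_const (by rw [Real.volume_Ioo]; exact ENNReal.ofReal_ne_top)
    · exact hint.mono_set hsub
    · exact measurableSet_Ioo
    · intro x hx
      have hx2 : x ^ 2 ≤ a ^ 2 := by
        apply sq_le_sq'
        · exact hx.1.le
        · exact hx.2.le
      have hc : 1 - x ^ 2 / 2 ≤ Real.cos x := Real.one_sub_sq_div_two_le_cos
      have h3 : -(1 / 2) ≤ -κ * (1 - Real.cos x) := by nlinarith
      calc (1 / 2 : ℝ) = -(1 / 2) + 1 := by norm_num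
        _ ≤ Real.exp (-(1 / 2)) := Real.add_one_le_exp _
        _ ≤ _ := Real.exp_le_exp.2 h3
  have h3 : ∫ _ in Ioo (-a) a, (1 / 2 : ℝ) = a := by
    rw [setIntegral_const, measureReal_def, Real.volume_Ioo, ENNReal.toReal_ofReal (by linarith)]
    rw [smul_eq_mul]; ring
  linarith

namespace V1

/-- the integrand as an entire function -/
noncomputable def kf (κ ν θ : ℝ) (z : ℂ) : ℂ :=
  Complex.exp (-(κ : ℂ) * (1 - Complex.cos z)) * Complex.exp (-((ν : ℂ) * Complex.cos ((θ : ℂ) + z)) * I)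

theorem kf_diff (κ ν θ : ℝ) : Differentiable ℂ (kf κ ν θ) := by
  unfold kf
  fun_prop

theorem kf_per (κ ν θ : ℝ) (z : ℂ) : kf κ ν θ (z + 2 * Real.pi) = kf κ ν θ z := by
  unfold kf
  rw [← add_assoc, Complex.cos_add_two_pi, Complex.cos_add_two_pi]

theorem shift (κ ν θ t : ℝ) :
    ∫ h in (-Real.pi)..Real.pi, kf κ ν θ (h : ℂ) =
      ∫ h in (-Real.pi)..Real.pi, kf κ ν θ ((h : ℂ) + t * I) := by
  have h := Complex.integral_boundary_rect_eq_zero_of_differentiableOn (kf κ ν θ)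
    (-(Real.pi : ℂ)) ((Real.pi : ℂ) + t * I) (kf_diff κ ν θ).differentiableOn
  simp only [neg_re, ofReal_re, neg_im, ofReal_im, neg_zero, ofReal_zero, zero_mul, add_zero, add_re,
    mul_re, I_re, mul_zero, I_im, mul_one, sub_zero, add_im, mul_im, zero_add, sub_self] at h
  have e : ∀ y : ℝ, kf κ ν θ ((Real.pi : ℂ) + y * I) = kf κ ν θ (((-Real.pi : ℝ) : ℂ) + y * I) := by
    intro y
    rw [← kf_per κ ν θ (((-Real.pi : ℝ) : ℂ) + y * I)]
    congr 1
    push_cast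
    ring
  simp only [e] at h
  linear_combination h

theorem norm_kf (κ ν θ h t : ℝ) : ‖kf κ ν θ ((h : ℂ) + t * I)‖ =
    Real.exp (-κ + (κ * Real.cos h * Real.cosh t - ν * Real.sin (θ + h) * Real.sinh t)) := by
  unfold kf
  rw [norm_mul, Complex.norm_exp, Complex.norm_exp, ← Real.exp_add]
  congr 1
  have e1 : Complex.cos ((h : ℂ) + t * I) =
      ((Real.cos h * Real.cosh t : ℝ) : ℂ) - ((Real.sin h * Real.sinh t : ℝ) : ℂ) * I := by
    rw [Complex.cos_add_mul_I]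
    push_cast
    ring
  have e2 : Complex.cos ((θ : ℂ) + ((h : ℂ) + t * I)) =
      ((Real.cos (θ + h) * Real.cosh t : ℝ) : ℂ) - ((Real.sin (θ + h) * Real.sinh t : ℝ) : ℂ) * I := by
    rw [← add_assoc, ← Complex.ofReal_add, Complex.cos_add_mul_I]
    push_cast
    ring
  rw [e1, e2]
  simp only [mul_re, neg_re, ofReal_re, sub_re, one_re, ofReal_im, I_re, mul_zero, I_im, mul_one,
    sub_self, sub_zero, neg_im, neg_zero, sub_im, one_im, mul_im, zero_mul, add_zero, zero_sub]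
  ring

theorem exponent (κ : ℝ) (hκ : 1 ≤ κ) (ν θ : ℝ) (hν : |ν| ≤ 2 * κ) (h : ℝ) :
    κ * Real.cos h * Real.cosh (Real.arsinh (ν * Real.sin θ / (5 * κ))) -
      ν * Real.sin (θ + h) * Real.sinh (Real.arsinh (ν * Real.sin θ / (5 * κ))) ≤
      κ - ν ^ 2 * Real.sin θ ^ 2 / (10 * κ) := by
  have hκ0 : 0 < κ := by linarith
  rw [Real.sinh_arsinh]
  set t := Real.arsinh (ν * Real.sin θ / (5 * κ)) with ht
  set x := ν * Real.sin θ with hx
  set σ := x / (5 * κ) with hσ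
  set c := Real.cosh t with hc
  have hc1 : 1 ≤ c := Real.one_le_cosh t
  have hc2 : c ^ 2 = 1 + σ ^ 2 := by
    rw [hc, Real.cosh_sq, ht, Real.sinh_arsinh]; ring
  have hxσ : x * σ = 5 * κ * σ ^ 2 := by rw [hσ]; field_simp
  have hxs : x = 5 * κ * σ := by rw [hσ]; field_simp
  have hν2 : ν ^ 2 ≤ 4 * κ ^ 2 := by
    have := sq_le_sq' (by linarith [neg_abs_le ν, abs_nonneg ν, abs_le.1 hν]) (le_trans (le_abs_self ν) hν)
    nlinarith
  have hx2 : x ^ 2 ≤ ν ^ 2 := by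
    rw [hx, mul_pow]
    nlinarith [Real.sin_sq_le_one θ, sq_nonneg ν, sq_nonneg (Real.sin θ)]
  have e1 : ν ^ 2 * Real.sin θ ^ 2 / (10 * κ) = 5 / 2 * κ * σ ^ 2 := by
    rw [← mul_pow, ← hx, hxs]; field_simp; ring
  rw [e1]
  have hσ2 : 25 * κ ^ 2 * σ ^ 2 ≤ 4 * κ ^ 2 := by
    have : x ^ 2 = 25 * κ ^ 2 * σ ^ 2 := by rw [hxs]; ring
    linarith
  have hσ3 : 25 * σ ^ 2 ≤ 4 := by
    by_contra hcon
    push_neg at hcon
    nlinarith [mul_pos hκ0 hκ0]
  have hpos : 0 ≤ κ - 5 / 2 * κ * σ ^ 2 := by nlinarith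
  have hA : (κ * Real.cos h * c - ν * Real.sin (θ + h) * σ) =
      (κ * c - x * σ) * Real.cos h + (-(ν * σ * Real.cos θ)) * Real.sin h := by
    rw [Real.sin_add, hx]; ring
  rw [hA]
  set A := κ * c - x * σ with hAd
  set B := -(ν * σ * Real.cos θ) with hBd
  have hAB : (A * Real.cos h + B * Real.sin h) ^ 2 ≤ A ^ 2 + B ^ 2 := by
    nlinarith [sq_nonneg (A * Real.sin h - B * Real.cos h), Real.sin_sq_add_cos_sq h,
      sq_nonneg A, sq_nonneg B]
  have hAB2 : A ^ 2 + B ^ 2 ≤ κ ^ 2 - 5 * κ ^ 2 * σ ^ 2 := by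
    have e2 : A ^ 2 + B ^ 2 = κ ^ 2 * c ^ 2 - 2 * κ * (x * σ) * c + ν ^ 2 * σ ^ 2 := by
      rw [hAd, hBd, hx]
      linear_combination ν ^ 2 * σ ^ 2 * (Real.sin_sq_add_cos_sq θ)
    rw [e2, hxσ, hc2]
    have h3 : ν ^ 2 * σ ^ 2 ≤ 4 * κ ^ 2 * σ ^ 2 := by nlinarith [sq_nonneg σ]
    have h4 : κ ^ 2 * σ ^ 2 ≤ κ ^ 2 * σ ^ 2 * c := by nlinarith [sq_nonneg (κ * σ)]
    nlinarith
  have hfin : (A * Real.cos h + B * Real.sin h) ^ 2 ≤ (κ - 5 / 2 * κ * σ ^ 2) ^ 2 := by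
    nlinarith [sq_nonneg (κ * σ ^ 2)]
  exact abs_le_of_sq_le_sq' hfin hpos |>.2

end V1

theorem ker_bound (κ : ℝ) (hκ : 1 ≤ κ) (ν θ : ℝ) (hν : |ν| ≤ 2 * κ) :
    ‖∫ h in Ioo (-Real.pi) Real.pi, ((Real.exp (-κ * (1 - Real.cos h)) : ℝ) : ℂ) *
      Complex.exp (-((ν * Real.cos (θ + h) : ℝ) : ℂ) * I)‖ ≤
      2 * Real.pi * Real.exp (-(ν ^ 2 * Real.sin θ ^ 2) / (10 * κ)) := by
  have hπ := Real.pi_pos
  have e1 : ∫ h in Ioo (-Real.pi) Real.pi, ((Real.exp (-κ * (1 - Real.cos h)) : ℝ) : ℂ) *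
      Complex.exp (-((ν * Real.cos (θ + h) : ℝ) : ℂ) * I) =
      ∫ h in (-Real.pi)..Real.pi, V1.kf κ ν θ (h : ℂ) := by
    rw [intervalIntegral.integral_of_le (by linarith), integral_Ioc_eq_integral_Ioo]
    refine setIntegral_congr_fun measurableSet_Ioo fun h _ => ?_
    unfold V1.kf
    push_cast
    rfl
  rw [e1, V1.shift κ ν θ (Real.arsinh (ν * Real.sin θ / (5 * κ)))]
  refine (intervalIntegral.norm_integral_le_of_norm_le_const
    (C := Real.exp (-(ν ^ 2 * Real.sin θ ^ 2) / (10 * κ))) fun h _ => ?_).trans (le_of_eq ?_)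
  · rw [V1.norm_kf, Real.exp_le_exp]
    have := V1.exponent κ hκ ν θ hν h
    have e : -(ν ^ 2 * Real.sin θ ^ 2) / (10 * κ) = -(ν ^ 2 * Real.sin θ ^ 2 / (10 * κ)) := by ring
    rw [e]
    linarith
  · rw [abs_of_pos (by linarith)]
    ring

end Pool.Agent.H789R2.FR
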