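import Mathlib
import Pool.Agent.H789R2.FR.Defs3
import Pool.Agent.H789R2.FR.Planch
set_option autoImplicit false

/-! Task Q5: planar `L^4` estimate for the half circle band (Carleson–Sjölin/Zygmund). -/

namespace Pool.Agent.H789R2.FR

open MeasureTheory Measure Set Metric Complex
open scoped ENNReal Pointwise RealInnerProductSpace

namespace E4w

/-- bilinear phase integral -/
noncomputable def Phi (b : ℝ → ℂ) (y u : ℝ) : ℂ :=
  ∫ c : ℝ, Complex.exp (-((y * (sc c + sc (u - c)) : ℝ) : ℂ) * I) * (b c * b (u - c))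

theorem norm_phase (a : ℝ) : ‖Complex.exp (-((a : ℝ) : ℂ) * I)‖ = 1 := by
  rw [show (-((a : ℝ) : ℂ) * I) = (((-a : ℝ) : ℂ) * I) by push_cast; ring]
  exact Complex.norm_exp_ofReal_mul_I _

theorem sc_meas : Measurable sc := by
  unfold sc
  fun_prop

theorem int_of_bdd (b : ℝ → ℂ) (hb : Measurable b) (B : ℝ) (hB : ∀ c, ‖b c‖ ≤ B)
    (hs : ∀ c, c ∉ Icc (-1 : ℝ) 1 → b c = 0) : Integrable b := by
  have h1 : IntegrableOn b (Icc (-1 : ℝ) 1) := by
    apply Measure.integrableOn_of_bounded (M := B)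
    · simp
    · exact hb.aestronglyMeasurable
    · exact Filter.Eventually.of_forall hB
  exact h1.integrable_of_forall_notMem_eq_zero hs

theorem ex_sq (b : ℝ → ℂ) (hb : Measurable b) (B : ℝ) (hB : ∀ c, ‖b c‖ ≤ B)
    (hs : ∀ c, c ∉ Ioo (-1 : ℝ) 1 → b c = 0) (y z : ℝ) :
    (Ex b y z) ^ 2 = ∫ u : ℝ, Complex.exp (-((z * u : ℝ) : ℂ) * I) * Phi b y u := by
  set f : ℝ → ℂ := fun c => Complex.exp (-((y * sc c + z * c : ℝ) : ℂ) * I) * b c with hf
  have hfm : Measurable f := by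
    have := sc_meas
    fun_prop
  have hfi : Integrable f := by
    apply int_of_bdd f hfm B
    · intro c
      rw [hf]
      simp only [norm_mul, norm_phase, one_mul]
      exact hB c
    · intro c hc
      have : b c = 0 := hs c (fun h => hc (Ioo_subset_Icc_self h))
      simp [hf, this]
  have h1 : Ex b y z = ∫ c, f c := by
    unfold Ex
    apply setIntegral_eq_integral_of_forall_compl_eq_zero
    intro c hc
    simp [hs c hc]
  have h2 := integral_convolution (𝕜 := ℝ) (μ := volume) (ν := volume)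
    (ContinuousLinearMap.mul ℝ ℂ) hfi hfi
  rw [h1, sq]
  simp only [ContinuousLinearMap.mul_apply'] at h2
  rw [← h2]
  apply integral_congr_ae
  refine Filter.Eventually.of_forall (fun u => ?_)
  simp only [convolution_def, ContinuousLinearMap.mul_apply']
  unfold Phi
  rw [← integral_const_mul]
  apply integral_congr_ae
  refine Filter.Eventually.of_forall (fun c => ?_)
  simp only [hf]
  have : Complex.exp (-((y * sc c + z * c : ℝ) : ℂ) * I) *
      Complex.exp (-((y * sc (u - c) + z * (u - c) : ℝ) : ℂ) * I) =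
      Complex.exp (-((z * u : ℝ) : ℂ) * I) *
        Complex.exp (-((y * (sc c + sc (u - c)) : ℝ) : ℂ) * I) := by
    rw [← Complex.exp_add, ← Complex.exp_add]
    congr 1
    push_cast
    ring
  linear_combination (b c * b (u - c)) * this

theorem Phi_meas (b : ℝ → ℂ) (hb : Measurable b) : Measurable (Function.uncurry (Phi b)) := by
  have h : StronglyMeasurable (fun p : (ℝ × ℝ) × ℝ =>
      Complex.exp (-((p.1.1 * (sc p.2 + sc (p.1.2 - p.2)) : ℝ) : ℂ) * I) *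
        (b p.2 * b (p.1.2 - p.2))) := by
    have := sc_meas
    apply Measurable.stronglyMeasurable
    fun_prop
  have h2 := h.integral_prod_right' (ν := volume)
  exact h2.measurable

theorem Phi_bdd (b : ℝ → ℂ) (B : ℝ) (hB0 : 0 ≤ B) (hB : ∀ c, ‖b c‖ ≤ B)
    (hs : ∀ c, c ∉ Icc (-1 : ℝ) 1 → b c = 0) (y u : ℝ) : ‖Phi b y u‖ ≤ 2 * B ^ 2 := by
  unfold Phi
  have h1 : ∫ c : ℝ, Complex.exp (-((y * (sc c + sc (u - c)) : ℝ) : ℂ) * I) * (b c * b (u - c))
    = ∫ c in Icc (-1 : ℝ) 1,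
      Complex.exp (-((y * (sc c + sc (u - c)) : ℝ) : ℂ) * I) * (b c * b (u - c)) := by
    symm
    apply setIntegral_eq_integral_of_forall_compl_eq_zero
    intro c hc
    simp [hs c hc]
  rw [h1]
  have h2 := norm_setIntegral_le_of_norm_le_const (μ := volume) (s := Icc (-1 : ℝ) 1)
    (f := fun c => Complex.exp (-((y * (sc c + sc (u - c)) : ℝ) : ℂ) * I) * (b c * b (u - c)))
    (C := B ^ 2) (by simp) (by
      intro c _
      simp only [norm_mul, norm_phase, one_mul]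
      rw [sq]
      exact mul_le_mul (hB _) (hB _) (norm_nonneg _) hB0)
  refine h2.trans (le_of_eq ?_)
  simp [Measure.real]
  ring


/-- `z`-integral. -/
theorem z_bound (b : ℝ → ℂ) (hb : Measurable b) (B : ℝ) (hB0 : 0 ≤ B) (hB : ∀ c, ‖b c‖ ≤ B)
    (c1 c2 : ℝ) (h1 : 0 ≤ c1) (h2 : c2 < 1)
    (hs : ∀ c, c ∉ Icc c1 c2 → b c = 0) (y : ℝ) :
    ∫⁻ z : ℝ, ENNReal.ofReal (‖Ex b y z‖ ^ 4) ≤
      ENNReal.ofReal (2 * Real.pi) *
        ∫⁻ u in Icc (2 * c1) (2 * c2), ENNReal.ofReal (‖Phi b y u‖ ^ 2) := by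
  have hs1 : ∀ c, c ∉ Ioo (-1 : ℝ) 1 → b c = 0 := fun c hc =>
    hs c (fun h => hc ⟨by linarith [h.1], by linarith [h.2]⟩)
  have hs2 : ∀ c, c ∉ Icc (-1 : ℝ) 1 → b c = 0 := fun c hc =>
    hs c (fun h => hc ⟨by linarith [h.1], by linarith [h.2]⟩)
  have hsupp : ∀ u, u ∉ Icc (2 * c1) (2 * c2) → Phi b y u = 0 := by
    intro u hu
    unfold Phi
    have : ∀ c, Complex.exp (-((y * (sc c + sc (u - c)) : ℝ) : ℂ) * I) *
        (b c * b (u - c)) = 0 := by
      intro c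
      by_cases hc : c ∈ Icc c1 c2
      · have : b (u - c) = 0 := by
          apply hs
          intro h
          exact hu ⟨by linarith [h.1, hc.1], by linarith [h.2, hc.2]⟩
        simp [this]
      · simp [hs c hc]
    exact (integral_congr_ae (Filter.Eventually.of_forall this)).trans (by simp)
  have hPm : Measurable (fun u => Phi b y u) :=
    (Phi_meas b hb).comp (measurable_const.prodMk measurable_id)
  have hpl := pl_phase (Icc (2 * c1) (2 * c2)) measurableSet_Icc (by simp)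
    (fun c => c) (fun _ => 1) measurable_id measurable_const
    (fun c _ => hasDerivWithinAt_id c _) (fun c _ => one_ne_zero) (fun a _ b _ h => h)
    (fun u => Phi b y u) hPm ⟨2 * B ^ 2, fun u => Phi_bdd b B hB0 hB hs2 y u⟩
  simp only [abs_one, div_one] at hpl
  refine le_trans (le_of_eq ?_) hpl
  apply lintegral_congr
  intro z
  congr 1
  have : ‖Ex b y z‖ ^ 4 = ‖(Ex b y z) ^ 2‖ ^ 2 := by
    rw [norm_pow]; ring
  rw [this, ex_sq b hb B hB hs1 y z]
  congr 2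
  symm
  apply setIntegral_eq_integral_of_forall_compl_eq_zero
  intro u hu
  simp [hsupp u hu]

/-- derivative of `sc`. -/
theorem sc_deriv (c : ℝ) (hc : |c| < 1) : HasDerivAt sc (-c / sc c) c := by
  have hpos : 0 < 1 - c ^ 2 := by
    have := (sq_lt_one_iff_abs_lt_one c).2 hc
    linarith
  unfold sc
  have h1 : HasDerivAt (fun c : ℝ => 1 - c ^ 2) (-(2 * c)) c := by
    have := ((hasDerivAt_pow 2 c).const_sub 1)
    simpa using this
  have h2 := h1.sqrt hpos.ne'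
  convert h2 using 1
  have h3 : Real.sqrt (1 - c ^ 2) ≠ 0 := (Real.sqrt_pos.2 hpos).ne'
  field_simp

/-- Key inequality for the derivative of the phase. -/
theorem phase_deriv (μ c d : ℝ) (hμ : 0 < μ) (hc0 : 0 ≤ c) (hcd : c < d) (hd1 : d < 1)
    (hc : sc c ≤ μ) (hd : sc d ≤ μ) :
    (d - c) / μ ^ 3 ≤ d / sc d - c / sc c := by
  have hp : 0 < sc c := Real.sqrt_pos.2 (by nlinarith)
  have hq : 0 < sc d := Real.sqrt_pos.2 (by nlinarith)
  have hp2 : sc c ^ 2 = 1 - c ^ 2 := Real.sq_sqrt (by nlinarith)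
  have hq2 : sc d ^ 2 = 1 - d ^ 2 := Real.sq_sqrt (by nlinarith)
  set p := sc c
  set q := sc d
  have h1 : (d * p - c * q) * (d * p + c * q) = (d - c) * (d + c) := by
    have : (d * p - c * q) * (d * p + c * q) = d ^ 2 * p ^ 2 - c ^ 2 * q ^ 2 := by ring
    rw [this, hp2, hq2]; ring
  have h2 : d * p + c * q ≤ (d + c) * μ := by nlinarith
  have h0 : 0 ≤ d * p - c * q := by
    have : 0 < d * p + c * q := by
      have := mul_pos (lt_of_le_of_lt hc0 hcd) hp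
      have := mul_nonneg hc0 hq.le
      linarith
    by_contra hneg
    push Not at hneg
    nlinarith [mul_pos (sub_pos.2 hcd) (by linarith : 0 < d + c)]
  have h3 : (d - c) ≤ (d * p - c * q) * μ := by
    have hdc : 0 < d + c := by linarith
    have : (d - c) * (d + c) ≤ ((d * p - c * q) * μ) * (d + c) := by
      rw [← h1]
      nlinarith
    exact le_of_mul_le_mul_right this hdc
  have h4 : d / q - c / p = (d * p - c * q) / (q * p) := by
    field_simp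
  rw [h4, div_le_div_iff₀ (by positivity) (by positivity)]
  have h5 : q * p ≤ μ * μ := mul_le_mul hd hc hp.le hμ.le
  calc (d - c) * (q * p) ≤ ((d * p - c * q) * μ) * (μ * μ) := by
        apply mul_le_mul h3 h5 (by positivity) (by positivity)
    _ = (d * p - c * q) * μ ^ 3 := by ring

/-- kernel of the far part -/
noncomputable def K (κ M : ℝ) : ℝ → ℝ≥0∞ :=
  (Icc κ M).indicator (fun t => ENNReal.ofReal t⁻¹)

theorem K_meas (κ M : ℝ) : Measurable (K κ M) := by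
  unfold K
  exact (ENNReal.measurable_ofReal.comp measurable_inv).indicator measurableSet_Icc

theorem K_int (κ M : ℝ) (hκ : 0 < κ) (hM : κ ≤ M) :
    ∫⁻ t, K κ M t = ENNReal.ofReal (Real.log (M / κ)) := by
  unfold K
  rw [lintegral_indicator measurableSet_Icc, ← ofReal_integral_eq_lintegral_ofReal]
  · congr 1
    rw [integral_Icc_eq_integral_Ioc, ← intervalIntegral.integral_of_le hM,
      integral_inv_of_pos hκ (by linarith)]
  · apply ContinuousOn.integrableOn_Icc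
    apply ContinuousOn.inv₀
    · fun_prop
    · intro c hc
      have := hc.1
      intro h
      linarith
  · rw [Filter.EventuallyLE, ae_restrict_iff' measurableSet_Icc]
    refine Filter.Eventually.of_forall (fun c hc => ?_)
    have := hc.1
    simp only [Pi.zero_apply]
    apply inv_nonneg.2
    linarith

theorem K_le (κ M : ℝ) (t : ℝ) (h1 : κ ≤ t) (h2 : t ≤ M) : K κ M t = ENNReal.ofReal t⁻¹ := by
  unfold K
  rw [indicator_of_mem (show t ∈ Icc κ M from ⟨h1, h2⟩)]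

theorem far (μ : ℝ) (hμ : 0 < μ) (b : ℝ → ℂ) (hb : Measurable b) (B : ℝ) (hB0 : 0 ≤ B)
    (hB : ∀ c, ‖b c‖ ≤ B) (c1 c2 : ℝ) (h1 : 0 ≤ c1) (h2 : c2 < 1) (h21 : c2 - c1 ≤ μ ^ 2)
    (hJ : ∀ c ∈ Icc c1 c2, sc c ≤ μ) (u κ : ℝ) (hκ : 0 < κ) :
    ∫⁻ y : ℝ, ENNReal.ofReal (‖∫ c in {c | c ∈ Icc c1 c2 ∧ u - c ∈ Icc c1 c2 ∧ c ≤ (u - κ) / 2},
      Complex.exp (-((y * (sc c + sc (u - c)) : ℝ) : ℂ) * I) * (b c * b (u - c))‖ ^ 2) ≤
      ENNReal.ofReal (2 * Real.pi * B ^ 2 * μ ^ 3) *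
        ∫⁻ c, ENNReal.ofReal (‖b c‖ ^ 2) * K κ (μ ^ 2) (u - 2 * c) := by
  set S : Set ℝ := {c | c ∈ Icc c1 c2 ∧ u - c ∈ Icc c1 c2 ∧ c ≤ (u - κ) / 2} with hS
  have hSm : MeasurableSet S := by
    have e : S = Icc c1 c2 ∩ ((fun c => u - c) ⁻¹' Icc c1 c2 ∩ Iic ((u - κ) / 2)) := by
      ext c; simp only [hS, mem_ofPred_eq, mem_inter_iff, mem_preimage, mem_Iic]
    rw [e]
    exact measurableSet_Icc.inter
      ((measurableSet_Icc.preimage (by fun_prop)).inter measurableSet_Iic)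
  have hSf : volume S < ∞ := lt_of_le_of_lt (measure_mono (fun c hc => hc.1))
    (by simp : volume (Icc c1 c2) < ∞)
  set ψ : ℝ → ℝ := fun c => sc c + sc (u - c) with hψ
  set ψ' : ℝ → ℝ := fun c => (u - c) / sc (u - c) - c / sc c with hψ'
  have hlow : ∀ c ∈ S, (u - 2 * c) / μ ^ 3 ≤ ψ' c := by
    intro c hc
    have := phase_deriv μ c (u - c) hμ (h1.trans hc.1.1) (by linarith [hc.2.2])
      (lt_of_le_of_lt hc.2.1.2 h2) (hJ c hc.1) (hJ _ hc.2.1)
    rw [show u - 2 * c = u - c - c by ring]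
    exact this
  have hpos : ∀ c ∈ S, 0 < ψ' c := by
    intro c hc
    refine lt_of_lt_of_le ?_ (hlow c hc)
    have : 0 < u - 2 * c := by linarith [hc.2.2]
    positivity
  have hder : ∀ c ∈ S, HasDerivAt ψ (ψ' c) c := by
    intro c hc
    have a1 : |c| < 1 := by
      rw [abs_lt]; constructor <;> linarith [hc.1.1, hc.1.2]
    have a2 : |u - c| < 1 := by
      rw [abs_lt]; constructor <;> linarith [hc.2.1.1, hc.2.1.2]
    have d1 := sc_deriv c a1
    have d2 := (sc_deriv (u - c) a2).comp c ((hasDerivAt_id c).const_sub u)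
    have d3 := d1.add d2
    have e : ψ' c = -c / sc c + -(u - c) / sc (u - c) * -1 := by
      simp only [hψ']
      ring
    rw [e]
    exact d3
  have hinj : InjOn ψ S := by
    have key : ∀ c ∈ S, ∀ c' ∈ S, c < c' → ψ c ≠ ψ c' := by
      intro c hc c' hc' hlt heq
      have hmem : ∀ x ∈ Icc c c', x ∈ S := by
        intro x hx
        refine ⟨⟨hc.1.1.trans hx.1, hx.2.trans hc'.1.2⟩, ⟨?_, ?_⟩, ?_⟩
        · linarith [hc'.2.1.1, hx.2]
        · linarith [hc.2.1.2, hx.1]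
        · linarith [hc'.2.2, hx.2]
      obtain ⟨x, hx, hx0⟩ := exists_hasDerivAt_eq_zero hlt
        (fun x hx => (hder x (hmem x hx)).continuousAt.continuousWithinAt) heq
        (fun x hx => hder x (hmem x (Ioo_subset_Icc_self hx)))
      exact (hpos x (hmem x (Ioo_subset_Icc_self hx))).ne' hx0
    intro c hc c' hc' heq
    rcases lt_trichotomy c c' with h | h | h
    · exact absurd heq (key c hc c' hc' h)
    · exact h
    · exact absurd heq.symm (key c' hc' c hc h)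
  have hscm := sc_meas
  have hF : ∀ x, ‖b x * b (u - x)‖ ≤ B ^ 2 := by
    intro x
    rw [norm_mul, sq]
    exact mul_le_mul (hB _) (hB _) (norm_nonneg _) hB0
  have hpl := pl_phase S hSm hSf ψ ψ' (by simp only [hψ]; fun_prop)
    (by simp only [hψ']; fun_prop) (fun c hc => (hder c hc).hasDerivWithinAt)
    (fun c hc => (hpos c hc).ne') hinj (fun c => b c * b (u - c)) (by fun_prop) ⟨B ^ 2, hF⟩
  refine hpl.trans ?_
  have hKm := K_meas κ (μ ^ 2)
  have hbd : ∫⁻ c in S, ENNReal.ofReal (‖b c * b (u - c)‖ ^ 2 / |ψ' c|) ≤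
      ENNReal.ofReal (B ^ 2 * μ ^ 3) *
        ∫⁻ c, ENNReal.ofReal (‖b c‖ ^ 2) * K κ (μ ^ 2) (u - 2 * c) := by
    rw [← lintegral_const_mul _ (by fun_prop)]
    calc ∫⁻ c in S, ENNReal.ofReal (‖b c * b (u - c)‖ ^ 2 / |ψ' c|)
        ≤ ∫⁻ c in S, ENNReal.ofReal (B ^ 2 * μ ^ 3) *
            (ENNReal.ofReal (‖b c‖ ^ 2) * K κ (μ ^ 2) (u - 2 * c)) := by
          apply setLIntegral_mono' hSm
          intro c hc
          have hu' : κ ≤ u - 2 * c := by linarith [hc.2.2]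
          have hu'' : u - 2 * c ≤ μ ^ 2 := by linarith [hc.2.1.2, hc.1.1]
          rw [K_le κ _ _ hu' hu'', ← ENNReal.ofReal_mul (by positivity),
            ← ENNReal.ofReal_mul (by positivity)]
          apply ENNReal.ofReal_le_ofReal
          have hp := hpos c hc
          have hu : 0 < u - 2 * c := by linarith
          rw [abs_of_pos hp, div_le_iff₀ hp]
          have hl := hlow c hc
          have e1 : B ^ 2 * μ ^ 3 * (‖b c‖ ^ 2 * (u - 2 * c)⁻¹) * ((u - 2 * c) / μ ^ 3) =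
              ‖b c‖ ^ 2 * B ^ 2 := by
            field_simp
          calc ‖b c * b (u - c)‖ ^ 2 = ‖b c‖ ^ 2 * ‖b (u - c)‖ ^ 2 := by
                rw [norm_mul, mul_pow]
            _ ≤ ‖b c‖ ^ 2 * B ^ 2 := by
                gcongr
                exact hB _
            _ = B ^ 2 * μ ^ 3 * (‖b c‖ ^ 2 * (u - 2 * c)⁻¹) * ((u - 2 * c) / μ ^ 3) := e1.symm
            _ ≤ _ := by
                apply mul_le_mul_of_nonneg_left hl
                positivity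
      _ ≤ _ := setLIntegral_le_lintegral _ _
  calc ENNReal.ofReal (2 * Real.pi) * ∫⁻ c in S, ENNReal.ofReal (‖b c * b (u - c)‖ ^ 2 / |ψ' c|)
      ≤ ENNReal.ofReal (2 * Real.pi) * (ENNReal.ofReal (B ^ 2 * μ ^ 3) *
        ∫⁻ c, ENNReal.ofReal (‖b c‖ ^ 2) * K κ (μ ^ 2) (u - 2 * c)) := by
        gcongr
    _ = _ := by
        rw [← mul_assoc, ← ENNReal.ofReal_mul (by positivity)]
        congr 2
        ring

/-- Cauchy–Schwarz on an interval. -/
theorem cs_int (f : ℝ → ℝ) (hf : Measurable f) (B : ℝ) (hB : ∀ x, |f x| ≤ B) (a κ : ℝ)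
    (hκ : 0 < κ) :
    (∫ x in Ioo a (a + κ), f x) ^ 2 ≤ κ * ∫ x in Ioo a (a + κ), f x ^ 2 := by
  have hi : IntegrableOn f (Ioo a (a + κ)) := by
    apply Measure.integrableOn_of_bounded (M := B)
    · simp
    · exact hf.aestronglyMeasurable
    · exact Filter.Eventually.of_forall hB
  have hi2 : IntegrableOn (fun x => f x ^ 2) (Ioo a (a + κ)) := by
    refine Measure.integrableOn_of_bounded (M := B ^ 2) (by simp)
      (hf.pow_const 2).aestronglyMeasurable (Filter.Eventually.of_forall (fun x => ?_))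
    rw [Real.norm_eq_abs, abs_pow]
    exact pow_le_pow_left₀ (abs_nonneg _) (hB x) 2
  set m := (∫ x in Ioo a (a + κ), f x) with hm
  have h0 : 0 ≤ ∫ x in Ioo a (a + κ), (κ * f x - m) ^ 2 :=
    integral_nonneg (fun x => sq_nonneg _)
  have e : ∫ x in Ioo a (a + κ), (κ * f x - m) ^ 2 =
      κ ^ 2 * (∫ x in Ioo a (a + κ), f x ^ 2) - 2 * κ * m * m + m ^ 2 * κ := by
    have e1 : ∀ x, (κ * f x - m) ^ 2 = κ ^ 2 * f x ^ 2 - 2 * κ * m * f x + m ^ 2 := by
      intro x; ring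
    simp_rw [e1]
    have i0 : IntegrableOn (fun _ : ℝ => m ^ 2) (Ioo a (a + κ)) := by simp
    have i2 : IntegrableOn (fun x => κ ^ 2 * f x ^ 2) (Ioo a (a + κ)) := hi2.const_mul _
    have i3 : IntegrableOn (fun x => 2 * κ * m * f x) (Ioo a (a + κ)) := hi.const_mul _
    have i4 : IntegrableOn (fun x => κ ^ 2 * f x ^ 2 - 2 * κ * m * f x) (Ioo a (a + κ)) :=
      i2.sub i3
    rw [integral_add i4 i0, integral_sub i2 i3, integral_const_mul, integral_const_mul,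
      setIntegral_const, Real.volume_real_Ioo_of_le (by linarith)]
    simp only [smul_eq_mul]
    ring
  rw [e] at h0
  have h2 : 0 ≤ κ * (κ * (∫ x in Ioo a (a + κ), f x ^ 2) - m ^ 2) := by nlinarith
  have h3 := nonneg_of_mul_nonneg_right h2 hκ
  linarith

theorem Phi_split (b : ℝ → ℂ) (hb : Measurable b) (B : ℝ) (hB0 : 0 ≤ B)
    (hB : ∀ c, ‖b c‖ ≤ B) (c1 c2 : ℝ) (h1 : 0 ≤ c1) (h2 : c2 < 1)
    (hs : ∀ c, c ∉ Icc c1 c2 → b c = 0) (u κ : ℝ) (hκ : 0 < κ) (y : ℝ) :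
    ‖Phi b y u‖ ^ 2 ≤ 2 * (B ^ 2 * κ * ∫ c in Ioo ((u - κ) / 2) ((u - κ) / 2 + κ), ‖b c‖ ^ 2) + 8 *
      ‖∫ c in {c | c ∈ Icc c1 c2 ∧ u - c ∈ Icc c1 c2 ∧ c ≤ (u - κ) / 2},
      Complex.exp (-((y * (sc c + sc (u - c)) : ℝ) : ℂ) * I) * (b c * b (u - c))‖ ^ 2 := by
  set W : ℝ → ℂ := fun c =>
    Complex.exp (-((y * (sc c + sc (u - c)) : ℝ) : ℂ) * I) * (b c * b (u - c)) with hW
  have hscm := sc_meas
  have hWm : Measurable W := by
    simp only [hW]; fun_prop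
  have hWb : ∀ c, ‖W c‖ ≤ B ^ 2 := by
    intro c
    simp only [hW, norm_mul, norm_phase, one_mul]
    rw [sq]
    exact mul_le_mul (hB _) (hB _) (norm_nonneg _) hB0
  have hWi : Integrable W := by
    apply int_of_bdd W hWm (B ^ 2) hWb
    intro c hc
    have : b c = 0 := hs c (fun h => hc ⟨by linarith [h.1], by linarith [h.2]⟩)
    simp [hW, this]
  set a1 := (u - κ) / 2 with ha1
  set a2 := (u + κ) / 2 with ha2
  have ha : a1 < a2 := by simp only [ha1, ha2]; linarith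
  have e1 : Phi b y u = (∫ c in Iic a1, W c) + ((∫ c in Ioo a1 a2, W c) + ∫ c in Ici a2, W c) := by
    have x1 : Phi b y u = ∫ c, W c := rfl
    rw [x1, ← setIntegral_union _ measurableSet_Ici hWi.integrableOn hWi.integrableOn,
      Ioo_union_Ici_eq_Ioi ha, ← setIntegral_union _ measurableSet_Ioi hWi.integrableOn
        hWi.integrableOn, Iic_union_Ioi, setIntegral_univ]
    · rw [disjoint_left]
      intro c hc hc'
      exact absurd (mem_Ioi.1 hc') (not_lt.2 (mem_Iic.1 hc))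
    · rw [disjoint_left]
      intro c hc hc'
      exact absurd (mem_Ici.1 hc') (not_le.2 hc.2)
  have e2 : ∫ c in Ici a2, W c = ∫ c in Iic a1, W c := by
    rw [← integral_indicator measurableSet_Ici, ← integral_indicator measurableSet_Iic,
      ← integral_sub_left_eq_self _ volume u]
    apply integral_congr_ae
    refine Filter.Eventually.of_forall (fun c => ?_)
    have hWs : W (u - c) = W c := by
      simp only [hW, sub_sub_cancel]
      rw [add_comm (sc (u - c)), mul_comm (b (u - c))]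
    by_cases hc : c ≤ a1
    · have hc' : u - c ∈ Ici a2 := by
        simp only [mem_Ici, ha1, ha2] at hc ⊢
        linarith
      simp only [indicator_of_mem hc', indicator_of_mem (mem_Iic.2 hc), hWs]
    · have hc' : u - c ∉ Ici a2 := by
        simp only [mem_Ici, ha1, ha2] at hc ⊢
        linarith
      simp only [indicator_of_notMem hc', indicator_of_notMem (fun h => hc (mem_Iic.1 h))]
  have e3 : ∫ c in Iic a1, W c =
      ∫ c in {c | c ∈ Icc c1 c2 ∧ u - c ∈ Icc c1 c2 ∧ c ≤ a1}, W c := by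
    apply setIntegral_eq_of_subset_of_forall_sdiff_eq_zero measurableSet_Iic
    · intro c hc
      exact hc.2.2
    · intro c hc
      by_cases h : c ∈ Icc c1 c2
      · by_cases h' : u - c ∈ Icc c1 c2
        · exact absurd ⟨h, h', hc.1⟩ hc.2
        · simp [hW, hs _ h']
      · simp [hW, hs _ h]
  have ea2 : a2 = a1 + κ := by simp only [ha1, ha2]; ring
  have hbi : IntegrableOn (fun c => ‖b c‖) (Ioo a1 a2) := by
    refine Measure.integrableOn_of_bounded (M := B) (by simp)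
      hb.norm.aestronglyMeasurable (Filter.Eventually.of_forall (fun x => ?_))
    rw [norm_norm]; exact hB x
  have e4 : ‖∫ c in Ioo a1 a2, W c‖ ^ 2 ≤ B ^ 2 * κ * ∫ c in Ioo a1 a2, ‖b c‖ ^ 2 := by
    have s1 : ‖∫ c in Ioo a1 a2, W c‖ ≤ B * ∫ c in Ioo a1 a2, ‖b c‖ := by
      refine (norm_integral_le_integral_norm _).trans ?_
      rw [← integral_const_mul]
      apply integral_mono hWi.integrableOn.norm (hbi.const_mul _)
      intro c
      simp only [hW, norm_mul, norm_phase, one_mul]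
      rw [mul_comm]
      exact mul_le_mul_of_nonneg_right (hB _) (norm_nonneg _)
    have s2 := cs_int (fun c => ‖b c‖) hb.norm B (fun x => by rw [abs_norm]; exact hB x) a1 κ hκ
    rw [← ea2] at s2
    calc ‖∫ c in Ioo a1 a2, W c‖ ^ 2 ≤ (B * ∫ c in Ioo a1 a2, ‖b c‖) ^ 2 :=
          pow_le_pow_left₀ (norm_nonneg _) s1 2
      _ = B ^ 2 * (∫ c in Ioo a1 a2, ‖b c‖) ^ 2 := by ring
      _ ≤ B ^ 2 * (κ * ∫ c in Ioo a1 a2, ‖b c‖ ^ 2) := by gcongr
      _ = _ := by ring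
  rw [← e3, e1, e2, ← ea2]
  set X := ∫ c in Iic a1, W c
  set Z := ∫ c in Ioo a1 a2, W c
  have h5 : ‖X + (Z + X)‖ ≤ ‖Z‖ + 2 * ‖X‖ := by
    calc ‖X + (Z + X)‖ ≤ ‖X‖ + (‖Z‖ + ‖X‖) := (norm_add_le _ _).trans
          (by gcongr; exact norm_add_le _ _)
      _ = _ := by ring
  calc ‖X + (Z + X)‖ ^ 2 ≤ (‖Z‖ + 2 * ‖X‖) ^ 2 := pow_le_pow_left₀ (norm_nonneg _) h5 2
    _ ≤ 2 * ‖Z‖ ^ 2 + 8 * ‖X‖ ^ 2 := by nlinarith [sq_nonneg (‖Z‖ - 2 * ‖X‖)]
    _ ≤ _ := by linarith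

/-- kernel of the near part -/
noncomputable def N (κ : ℝ) : ℝ → ℝ≥0∞ := (Ioo (-κ) κ).indicator (fun _ => 1)

theorem N_meas (κ : ℝ) : Measurable (N κ) := measurable_const.indicator measurableSet_Ioo

theorem N_int (κ : ℝ) : ∫⁻ t, N κ t = ENNReal.ofReal (2 * κ) := by
  unfold N
  rw [lintegral_indicator measurableSet_Ioo, setLIntegral_const, Real.volume_Ioo, one_mul]
  congr 1
  ring

theorem near_eq (b : ℝ → ℂ) (hb : Measurable b) (B : ℝ)
    (hB : ∀ c, ‖b c‖ ≤ B) (u κ : ℝ) :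
    ENNReal.ofReal (∫ c in Ioo ((u - κ) / 2) ((u - κ) / 2 + κ), ‖b c‖ ^ 2) =
      ∫⁻ c, ENNReal.ofReal (‖b c‖ ^ 2) * N κ (u - 2 * c) := by
  rw [ofReal_integral_eq_lintegral_ofReal]
  · rw [← lintegral_indicator measurableSet_Ioo]
    apply lintegral_congr
    intro c
    unfold N
    by_cases hc : c ∈ Ioo ((u - κ) / 2) ((u - κ) / 2 + κ)
    · have : u - 2 * c ∈ Ioo (-κ) κ := ⟨by linarith [hc.2], by linarith [hc.1]⟩
      rw [indicator_of_mem hc, indicator_of_mem this, mul_one]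
    · have : u - 2 * c ∉ Ioo (-κ) κ := fun h => hc ⟨by linarith [h.2], by linarith [h.1]⟩
      rw [indicator_of_notMem hc, indicator_of_notMem this, mul_zero]
  · refine Measure.integrableOn_of_bounded (M := B ^ 2) (by simp)
      (hb.norm.pow_const 2).aestronglyMeasurable (Filter.Eventually.of_forall (fun x => ?_))
    rw [Real.norm_eq_abs, abs_pow, abs_norm]
    exact pow_le_pow_left₀ (norm_nonneg _) (hB x) 2
  · exact Filter.Eventually.of_forall (fun x => sq_nonneg _)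

/-- `y`-integral for fixed `u`. -/
theorem y_bound (μ : ℝ) (hμ : 0 < μ) (b : ℝ → ℂ) (hb : Measurable b) (B : ℝ) (hB0 : 0 ≤ B)
    (hB : ∀ c, ‖b c‖ ≤ B) (c1 c2 : ℝ) (h1 : 0 ≤ c1) (h2 : c2 < 1) (h21 : c2 - c1 ≤ μ ^ 2)
    (hJ : ∀ c ∈ Icc c1 c2, sc c ≤ μ) (hs : ∀ c, c ∉ Icc c1 c2 → b c = 0) (u Y κ : ℝ)
    (hκ : 0 < κ) (hY : 0 ≤ Y) :
    ∫⁻ y in Icc (-Y) Y, ENNReal.ofReal (‖Phi b y u‖ ^ 2) ≤
      ENNReal.ofReal (4 * Y * B ^ 2 * κ) *
        (∫⁻ c, ENNReal.ofReal (‖b c‖ ^ 2) * N κ (u - 2 * c)) +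
      ENNReal.ofReal (16 * Real.pi * B ^ 2 * μ ^ 3) *
        ∫⁻ c, ENNReal.ofReal (‖b c‖ ^ 2) * K κ (μ ^ 2) (u - 2 * c) := by
  have hfar := far μ hμ b hb B hB0 hB c1 c2 h1 h2 h21 hJ u κ hκ
  have hnn : 0 ≤ ∫ c in Ioo ((u - κ) / 2) ((u - κ) / 2 + κ), ‖b c‖ ^ 2 :=
    integral_nonneg (fun _ => sq_nonneg _)
  calc ∫⁻ y in Icc (-Y) Y, ENNReal.ofReal (‖Phi b y u‖ ^ 2)
      ≤ ∫⁻ y in Icc (-Y) Y, (ENNReal.ofReal (2 * (B ^ 2 * κ *
          ∫ c in Ioo ((u - κ) / 2) ((u - κ) / 2 + κ), ‖b c‖ ^ 2)) + ENNReal.ofReal 8 *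
        ENNReal.ofReal (‖∫ c in {c | c ∈ Icc c1 c2 ∧ u - c ∈ Icc c1 c2 ∧ c ≤ (u - κ) / 2},
      Complex.exp (-((y * (sc c + sc (u - c)) : ℝ) : ℂ) * I) * (b c * b (u - c))‖ ^ 2)) := by
        apply lintegral_mono
        intro y
        simp only
        rw [← ENNReal.ofReal_mul (by norm_num), ← ENNReal.ofReal_add (by positivity)
          (by positivity)]
        exact ENNReal.ofReal_le_ofReal (Phi_split b hb B hB0 hB c1 c2 h1 h2 hs u κ hκ y)
    _ = ENNReal.ofReal (2 * (B ^ 2 * κ *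
          ∫ c in Ioo ((u - κ) / 2) ((u - κ) / 2 + κ), ‖b c‖ ^ 2)) * volume (Icc (-Y) Y) +
        ENNReal.ofReal 8 * ∫⁻ y in Icc (-Y) Y,
        ENNReal.ofReal (‖∫ c in {c | c ∈ Icc c1 c2 ∧ u - c ∈ Icc c1 c2 ∧ c ≤ (u - κ) / 2},
      Complex.exp (-((y * (sc c + sc (u - c)) : ℝ) : ℂ) * I) * (b c * b (u - c))‖ ^ 2) := by
        rw [lintegral_add_left (by fun_prop), lintegral_const, Measure.restrict_apply_univ,
          lintegral_const_mul' _ _ (by simp)]
    _ ≤ ENNReal.ofReal (2 * (B ^ 2 * κ *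
          ∫ c in Ioo ((u - κ) / 2) ((u - κ) / 2 + κ), ‖b c‖ ^ 2)) * ENNReal.ofReal (2 * Y) +
        ENNReal.ofReal 8 * (ENNReal.ofReal (2 * Real.pi * B ^ 2 * μ ^ 3) *
        ∫⁻ c, ENNReal.ofReal (‖b c‖ ^ 2) * K κ (μ ^ 2) (u - 2 * c)) := by
        rw [Real.volume_Icc, show Y - -Y = 2 * Y by ring]
        gcongr
        exact (setLIntegral_le_lintegral _ _).trans hfar
    _ = _ := by
        rw [← near_eq b hb B hB u κ, ← ENNReal.ofReal_mul (by positivity),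
          ← ENNReal.ofReal_mul (by positivity), ← mul_assoc (ENNReal.ofReal 8),
          ← ENNReal.ofReal_mul (by norm_num : (0 : ℝ) ≤ 8)]
        congr 2
        · ring
        · congr 1
          ring

theorem conv_int (b : ℝ → ℂ) (hb : Measurable b) (k : ℝ → ℝ≥0∞) (hk : Measurable k) :
    ∫⁻ u, ∫⁻ c, ENNReal.ofReal (‖b c‖ ^ 2) * k (u - 2 * c) =
      (∫⁻ c, ENNReal.ofReal (‖b c‖ ^ 2)) * ∫⁻ t, k t := by
  rw [lintegral_lintegral_swap (by
    apply Measurable.aemeasurable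
    fun_prop)]
  rw [← lintegral_mul_const _ (by fun_prop)]
  apply lintegral_congr
  intro c
  rw [lintegral_const_mul _ (by fun_prop), lintegral_sub_right_eq_self]

/-- The estimate for half bands. -/
theorem half (μ : ℝ) (hμ : 0 < μ) (b : ℝ → ℂ) (hb : Measurable b) (B : ℝ) (hB0 : 0 ≤ B)
    (hB : ∀ c, ‖b c‖ ≤ B) (c1 c2 : ℝ) (h1 : 0 ≤ c1) (h2 : c2 < 1)
    (h21 : c2 - c1 ≤ μ ^ 2)
    (hJ : ∀ c ∈ Icc c1 c2, sc c ≤ μ) (hs : ∀ c, c ∉ Icc c1 c2 → b c = 0) (Y : ℝ)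
    (hY : 1 ≤ Y * μ) :
    ∫⁻ y in Icc (-Y) Y, ∫⁻ z : ℝ, ENNReal.ofReal (‖Ex b y z‖ ^ 4) ≤
      ENNReal.ofReal (160 * B ^ 2 * μ ^ 3 * (1 + Real.log (Y * μ))) *
        ∫⁻ c, ENNReal.ofReal (‖b c‖ ^ 2) := by
  have hlog0 : 0 ≤ Real.log (Y * μ) := Real.log_nonneg hY
  have hYpos : 0 < Y := by
    by_contra h
    push Not at h
    nlinarith
  have hYμ : 0 < Y * μ := by positivity
  set κ := μ ^ 2 / Real.sqrt (Y * μ) with hκd
  have hsq1 : 1 ≤ Real.sqrt (Y * μ) := by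
    rw [Real.one_le_sqrt]; exact hY
  have hκ : 0 < κ := by positivity
  have hκ' : κ ≤ μ ^ 2 := div_le_self (by positivity) hsq1
  have hlogκ : Real.log (μ ^ 2 / κ) = 1 / 2 * Real.log (Y * μ) := by
    have : μ ^ 2 / κ = Real.sqrt (Y * μ) := by
      rw [hκd]; field_simp
    rw [this, Real.log_sqrt hYμ.le]
    ring
  have hκ2 : Y * κ ^ 2 = μ ^ 3 := by
    rw [hκd, div_pow, Real.sq_sqrt hYμ.le]
    field_simp
  have hKm := K_meas κ (μ ^ 2)
  have hNm := N_meas κ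
  set A := ∫⁻ c, ENNReal.ofReal (‖b c‖ ^ 2) with hA
  calc ∫⁻ y in Icc (-Y) Y, ∫⁻ z : ℝ, ENNReal.ofReal (‖Ex b y z‖ ^ 4)
      ≤ ∫⁻ y in Icc (-Y) Y, ENNReal.ofReal (2 * Real.pi) *
        ∫⁻ u in Icc (2 * c1) (2 * c2), ENNReal.ofReal (‖Phi b y u‖ ^ 2) :=
        lintegral_mono (fun y => z_bound b hb B hB0 hB c1 c2 h1 h2 hs y)
    _ = ENNReal.ofReal (2 * Real.pi) * ∫⁻ y in Icc (-Y) Y,
        ∫⁻ u in Icc (2 * c1) (2 * c2), ENNReal.ofReal (‖Phi b y u‖ ^ 2) := by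
        rw [lintegral_const_mul' _ _ ENNReal.ofReal_ne_top]
    _ = ENNReal.ofReal (2 * Real.pi) * ∫⁻ u in Icc (2 * c1) (2 * c2),
        ∫⁻ y in Icc (-Y) Y, ENNReal.ofReal (‖Phi b y u‖ ^ 2) := by
        congr 1
        apply lintegral_lintegral_swap
        apply Measurable.aemeasurable
        have := Phi_meas b hb
        exact ENNReal.measurable_ofReal.comp ((this.norm).pow_const 2)
    _ ≤ ENNReal.ofReal (2 * Real.pi) * ∫⁻ u, (ENNReal.ofReal (4 * Y * B ^ 2 * κ) *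
        (∫⁻ c, ENNReal.ofReal (‖b c‖ ^ 2) * N κ (u - 2 * c)) +
        ENNReal.ofReal (16 * Real.pi * B ^ 2 * μ ^ 3) *
        ∫⁻ c, ENNReal.ofReal (‖b c‖ ^ 2) * K κ (μ ^ 2) (u - 2 * c)) := by
        gcongr ENNReal.ofReal (2 * Real.pi) * ?_
        refine (setLIntegral_le_lintegral _ _).trans (lintegral_mono (fun u => ?_))
        exact y_bound μ hμ b hb B hB0 hB c1 c2 h1 h2 h21 hJ hs u Y κ hκ hYpos.le
    _ = ENNReal.ofReal (2 * Real.pi) * (ENNReal.ofReal (4 * Y * B ^ 2 * κ) *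
        (A * ENNReal.ofReal (2 * κ)) + ENNReal.ofReal (16 * Real.pi * B ^ 2 * μ ^ 3) *
        (A * ENNReal.ofReal (1 / 2 * Real.log (Y * μ)))) := by
        congr 1
        have m1 : Measurable (fun u => ∫⁻ c, ENNReal.ofReal (‖b c‖ ^ 2) * N κ (u - 2 * c)) := by
          apply Measurable.lintegral_prod_right'
            (f := fun p : ℝ × ℝ => ENNReal.ofReal (‖b p.2‖ ^ 2) * N κ (p.1 - 2 * p.2))
          fun_prop
        rw [lintegral_add_left (m1.const_mul _), lintegral_const_mul' _ _ ENNReal.ofReal_ne_top,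
          lintegral_const_mul' _ _ ENNReal.ofReal_ne_top, conv_int b hb _ hNm,
          conv_int b hb _ hKm, N_int, K_int κ _ hκ hκ', hlogκ]
    _ = ENNReal.ofReal (2 * Real.pi * (4 * Y * B ^ 2 * κ * (2 * κ) +
        16 * Real.pi * B ^ 2 * μ ^ 3 * (1 / 2 * Real.log (Y * μ)))) * A := by
        rw [ENNReal.ofReal_mul (by positivity : (0 : ℝ) ≤ 2 * Real.pi),
          ENNReal.ofReal_add (by positivity)
          (by positivity), ENNReal.ofReal_mul (by positivity : 0 ≤ 4 * Y * B ^ 2 * κ),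
          ENNReal.ofReal_mul (by positivity : 0 ≤ 16 * Real.pi * B ^ 2 * μ ^ 3)]
        ring
    _ ≤ _ := by
        gcongr ?_ * A
        apply ENNReal.ofReal_le_ofReal
        have e1 : 2 * Real.pi * (4 * Y * B ^ 2 * κ * (2 * κ) +
          16 * Real.pi * B ^ 2 * μ ^ 3 * (1 / 2 * Real.log (Y * μ))) =
          B ^ 2 * (16 * Real.pi * (Y * κ ^ 2)
            + 16 * (Real.pi * Real.pi) * μ ^ 3 * Real.log (Y * μ)) := by ring
        rw [e1, hκ2]
        have hpi := Real.pi_lt_d2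
        have hpi0 := Real.pi_pos
        have hpp : Real.pi * Real.pi ≤ 10 := by nlinarith
        have h6 : 0 ≤ μ ^ 3 := by positivity
        have h7 : 0 ≤ μ ^ 3 * Real.log (Y * μ) := by positivity
        have : 16 * Real.pi * μ ^ 3 + 16 * (Real.pi * Real.pi) * μ ^ 3 * Real.log (Y * μ) ≤
          160 * μ ^ 3 * (1 + Real.log (Y * μ)) := by nlinarith
        calc B ^ 2 * (16 * Real.pi * μ ^ 3 + 16 * (Real.pi * Real.pi) * μ ^ 3 *
              Real.log (Y * μ)) ≤ B ^ 2 * (160 * μ ^ 3 * (1 + Real.log (Y * μ))) := by gcongr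
          _ = _ := by ring

theorem Ex_add (b b' : ℝ → ℂ) (hb : Integrable b) (hb' : Integrable b') (y z : ℝ) :
    Ex (fun c => b c + b' c) y z = Ex b y z + Ex b' y z := by
  unfold Ex
  have hscm := sc_meas
  rw [← integral_add]
  · apply integral_congr_ae
    refine Filter.Eventually.of_forall (fun c => ?_)
    simp only []
    ring
  · apply Integrable.bdd_mul (c := 1) hb.integrableOn
    · exact (by fun_prop : Measurable fun c : ℝ =>
        Complex.exp (-((y * sc c + z * c : ℝ) : ℂ) * I)).aestronglyMeasurable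
    · exact Filter.Eventually.of_forall (fun c => (norm_phase _).le)
  · apply Integrable.bdd_mul (c := 1) hb'.integrableOn
    · exact (by fun_prop : Measurable fun c : ℝ =>
        Complex.exp (-((y * sc c + z * c : ℝ) : ℂ) * I)).aestronglyMeasurable
    · exact Filter.Eventually.of_forall (fun c => (norm_phase _).le)

theorem Ex_neg (b : ℝ → ℂ) (y z : ℝ) :
    Ex b y z = Ex (fun c => b (-c)) y (-z) := by
  unfold Ex
  rw [← integral_indicator measurableSet_Ioo, ← integral_indicator measurableSet_Ioo,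
    ← integral_sub_left_eq_self _ volume 0]
  apply integral_congr_ae
  refine Filter.Eventually.of_forall (fun c => ?_)
  by_cases hc : c ∈ Ioo (-1 : ℝ) 1
  · have hc' : 0 - c ∈ Ioo (-1 : ℝ) 1 := ⟨by linarith [hc.2], by linarith [hc.1]⟩
    simp only [indicator_of_mem hc, indicator_of_mem hc']
    rw [zero_sub]
    have : sc (-c) = sc c := by unfold sc; rw [neg_sq]
    rw [this]
    congr 3
    push_cast
    ring
  · have hc' : 0 - c ∉ Ioo (-1 : ℝ) 1 := fun h => hc ⟨by linarith [h.2], by linarith [h.1]⟩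
    simp only [indicator_of_notMem hc, indicator_of_notMem hc']

theorem Ex_meas (b : ℝ → ℂ) (hb : Measurable b) : Measurable (Function.uncurry (Ex b)) := by
  have h : StronglyMeasurable (fun p : (ℝ × ℝ) × ℝ =>
      Complex.exp (-((p.1.1 * sc p.2 + p.1.2 * p.2 : ℝ) : ℂ) * I) * b p.2) := by
    have := sc_meas
    apply Measurable.stronglyMeasurable
    fun_prop
  have h2 := h.integral_prod_right' (ν := volume.restrict (Ioo (-1 : ℝ) 1))
  exact h2.measurable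

theorem four_ineq (p q : ℝ) : (p + q) ^ 4 ≤ 8 * p ^ 4 + 8 * q ^ 4 := by
  have h1 : (p + q) ^ 2 ≤ 2 * (p ^ 2 + q ^ 2) := by nlinarith [sq_nonneg (p - q)]
  have h2 : ((p + q) ^ 2) ^ 2 ≤ (2 * (p ^ 2 + q ^ 2)) ^ 2 := pow_le_pow_left₀ (sq_nonneg _) h1 2
  nlinarith [sq_nonneg (p ^ 2 - q ^ 2)]

theorem sc_neg (c : ℝ) : sc (-c) = sc c := by
  unfold sc; rw [neg_sq]

theorem band_neg (μ c : ℝ) (hc : c ∈ band μ) : -c ∈ band μ :=
  ⟨by rw [abs_neg]; exact hc.1, by rw [sc_neg]; exact hc.2.1, by rw [sc_neg]; exact hc.2.2⟩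

theorem band_geom (μ : ℝ) (hμ : 0 < μ) (hμ1 : μ ≤ 1) : ∃ c1 c2 : ℝ, 0 ≤ c1 ∧ c1 ≤ c2 ∧ c2 < 1 ∧
    c2 - c1 ≤ μ ^ 2 ∧ (∀ c ∈ Icc c1 c2, sc c ≤ μ) ∧ ∀ c, 0 ≤ c → c ∈ band μ → c ∈ Icc c1 c2 := by
  have hμ2 : μ ^ 2 ≤ 1 := by nlinarith
  have q1 : Real.sqrt (1 - μ ^ 2) ^ 2 = 1 - μ ^ 2 := Real.sq_sqrt (by linarith)
  have q2 : Real.sqrt (1 - μ ^ 2 / 4) ^ 2 = 1 - μ ^ 2 / 4 := Real.sq_sqrt (by nlinarith)
  refine ⟨Real.sqrt (1 - μ ^ 2), Real.sqrt (1 - μ ^ 2 / 4), Real.sqrt_nonneg _,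
    Real.sqrt_le_sqrt (by nlinarith), ?_, ?_, ?_, ?_⟩
  · rw [Real.sqrt_lt' one_pos]
    nlinarith
  · have a : (3 : ℝ) / 4 ≤ Real.sqrt (1 - μ ^ 2 / 4) := by
      apply Real.le_sqrt_of_sq_le
      nlinarith
    have a0 := Real.sqrt_nonneg (1 - μ ^ 2)
    have a1 : Real.sqrt (1 - μ ^ 2) ≤ Real.sqrt (1 - μ ^ 2 / 4) :=
      Real.sqrt_le_sqrt (by nlinarith)
    set c1 := Real.sqrt (1 - μ ^ 2)
    set c2 := Real.sqrt (1 - μ ^ 2 / 4)
    have e : (c2 - c1) * (c2 + c1) = 3 / 4 * μ ^ 2 := by nlinarith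
    have : (c2 - c1) * (3 / 4) ≤ 3 / 4 * μ ^ 2 := by
      rw [← e]
      apply mul_le_mul_of_nonneg_left _ (by linarith)
      linarith
    linarith
  · intro c hc
    have h0 := Real.sqrt_nonneg (1 - μ ^ 2)
    unfold sc
    rw [Real.sqrt_le_left hμ.le]
    have := hc.1
    set c1 := Real.sqrt (1 - μ ^ 2)
    nlinarith
  · intro c hc0 hc
    obtain ⟨hc1', hc2', hc3'⟩ := hc
    have hlt : c < 1 := (le_abs_self c).trans_lt hc1'
    have hq : sc c ^ 2 = 1 - c ^ 2 := Real.sq_sqrt (by nlinarith)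
    have hsn : 0 ≤ sc c := Real.sqrt_nonneg _
    constructor
    · rw [Real.sqrt_le_left hc0]
      nlinarith
    · apply Real.le_sqrt_of_sq_le
      nlinarith

theorem split_pt (b1 b2 b : ℝ → ℂ) (hb1i : Integrable b1)
    (hb2i : Integrable b2) (hsum : b = fun c => b1 c + b2 c) (y z : ℝ) :
    ENNReal.ofReal (‖Ex b y z‖ ^ 4) ≤ ENNReal.ofReal 8 * ENNReal.ofReal (‖Ex b1 y z‖ ^ 4) +
      ENNReal.ofReal 8 * ENNReal.ofReal (‖Ex b2 y z‖ ^ 4) := by
  rw [← ENNReal.ofReal_mul (by norm_num), ← ENNReal.ofReal_mul (by norm_num),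
    ← ENNReal.ofReal_add (by positivity) (by positivity)]
  apply ENNReal.ofReal_le_ofReal
  have e : Ex b y z = Ex b1 y z + Ex b2 y z := by
    rw [hsum]
    exact Ex_add b1 b2 hb1i hb2i y z
  rw [e]
  have h1 := norm_add_le (Ex b1 y z) (Ex b2 y z)
  have h2 := pow_le_pow_left₀ (norm_nonneg _) h1 4
  exact h2.trans (four_ineq _ _)

theorem lint_add2 (f g h : ℝ → ℝ → ℝ≥0∞) (hg : Measurable (Function.uncurry g)) (a : ℝ≥0∞)
    (ha : a ≠ ∞) (hle : ∀ y z, f y z ≤ a * g y z + a * h y z) (S : Set ℝ) :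
    ∫⁻ y in S, ∫⁻ z : ℝ, f y z ≤ a * (∫⁻ y in S, ∫⁻ z : ℝ, g y z) +
      a * ∫⁻ y in S, ∫⁻ z : ℝ, h y z := by
  have m1' : ∀ y, Measurable (fun z : ℝ => g y z) := fun y =>
    hg.comp (measurable_const.prodMk measurable_id)
  have m1'' : Measurable (fun y : ℝ => ∫⁻ z, g y z) := hg.lintegral_prod_right'
  rw [← lintegral_const_mul' _ _ ha, ← lintegral_const_mul' _ _ ha,
    ← lintegral_add_left (m1''.const_mul _)]
  apply lintegral_mono
  intro y
  simp only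
  rw [← lintegral_const_mul' _ _ ha, ← lintegral_const_mul' _ _ ha,
    ← lintegral_add_left ((m1' y).const_mul _)]
  exact lintegral_mono (hle y)

theorem split_lint (b1 b2 b : ℝ → ℂ) (hb1m : Measurable b1) (hb1i : Integrable b1)
    (hb2i : Integrable b2) (hsum : b = fun c => b1 c + b2 c) (Y : ℝ) :
    ∫⁻ y in Icc (-Y) Y, ∫⁻ z : ℝ, ENNReal.ofReal (‖Ex b y z‖ ^ 4) ≤
      ENNReal.ofReal 8 * (∫⁻ y in Icc (-Y) Y, ∫⁻ z : ℝ, ENNReal.ofReal (‖Ex b1 y z‖ ^ 4)) +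
        ENNReal.ofReal 8 * ∫⁻ y in Icc (-Y) Y, ∫⁻ z : ℝ, ENNReal.ofReal (‖Ex b2 y z‖ ^ 4) := by
  have m1 : Measurable (fun p : ℝ × ℝ => ENNReal.ofReal (‖Ex b1 p.1 p.2‖ ^ 4)) :=
    ENNReal.measurable_ofReal.comp (((Ex_meas b1 hb1m).norm).pow_const 4)
  exact lint_add2 (fun y z => ENNReal.ofReal (‖Ex b y z‖ ^ 4))
    (fun y z => ENNReal.ofReal (‖Ex b1 y z‖ ^ 4)) (fun y z => ENNReal.ofReal (‖Ex b2 y z‖ ^ 4))
    m1 _ ENNReal.ofReal_ne_top (split_pt b1 b2 b hb1i hb2i hsum) _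

theorem flip_lint (b : ℝ → ℂ) (Y : ℝ) :
    ∫⁻ y in Icc (-Y) Y, ∫⁻ z : ℝ, ENNReal.ofReal (‖Ex b y z‖ ^ 4) =
      ∫⁻ y in Icc (-Y) Y, ∫⁻ z : ℝ, ENNReal.ofReal (‖Ex (fun c => b (-c)) y z‖ ^ 4) := by
  apply lintegral_congr
  intro y
  rw [← lintegral_sub_left_eq_self _ 0]
  apply lintegral_congr
  intro z
  rw [Ex_neg b y (0 - z)]
  simp

end E4w

open E4w in
theorem E4r : ∃ C : ℝ, 0 < C ∧ ∀ μ : ℝ, 0 < μ → μ ≤ 1 → ∀ Y : ℝ, 1 ≤ Y * μ →
    ∀ (b : ℝ → ℂ), Measurable b → ∀ B : ℝ, (∀ c, ‖b c‖ ≤ B) → (∀ c, c ∉ band μ → b c = 0) →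
    ∫⁻ y in Icc (-Y) Y, ∫⁻ z : ℝ, ENNReal.ofReal (‖Ex b y z‖ ^ 4) ≤
      ENNReal.ofReal (C * B ^ 2 * μ ^ 3 * (1 + Real.log (Y * μ)) * ∫ c, ‖b c‖ ^ 2) := by
  refine ⟨2560, by norm_num, ?_⟩
  intro μ hμ hμ1 Y hY b hb B hB hs
  have hB0 : 0 ≤ B := (norm_nonneg _).trans (hB 0)
  have hlog0 : 0 ≤ Real.log (Y * μ) := Real.log_nonneg hY
  obtain ⟨c1, c2, h1, h12, h2, h21, hJ, hband⟩ := band_geom μ hμ hμ1
  set b1 : ℝ → ℂ := (Ici (0 : ℝ)).indicator b with hb1
  set b2 : ℝ → ℂ := (Iio (0 : ℝ)).indicator b with hb2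
  have hb1m : Measurable b1 := hb.indicator measurableSet_Ici
  have hb2m : Measurable b2 := hb.indicator measurableSet_Iio
  have hb1n : ∀ c, ‖b1 c‖ ≤ ‖b c‖ := fun c => norm_indicator_le_norm_self _ _
  have hb2n : ∀ c, ‖b2 c‖ ≤ ‖b c‖ := fun c => norm_indicator_le_norm_self _ _
  have hsum : b = fun c => b1 c + b2 c := by
    ext c
    by_cases h : 0 ≤ c
    · have h' : c ∉ Iio (0 : ℝ) := not_lt.2 h
      rw [hb1, hb2, indicator_of_mem (mem_Ici.2 h), indicator_of_notMem h', add_zero]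
    · have h' : c ∈ Iio (0 : ℝ) := not_le.1 h
      have h'' : c ∉ Ici (0 : ℝ) := h
      rw [hb1, hb2, indicator_of_notMem h'', indicator_of_mem h', zero_add]
  have hs1 : ∀ c, c ∉ Icc c1 c2 → b1 c = 0 := by
    intro c hc
    by_cases h : 0 ≤ c
    · rw [hb1, indicator_of_mem (mem_Ici.2 h)]
      exact hs c (fun h3 => hc (hband c h h3))
    · exact indicator_of_notMem h _
  have hs2 : ∀ c, c ∉ Icc c1 c2 → b2 (-c) = 0 := by
    intro c hc
    by_cases h : 0 < c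
    · have h' : -c ∈ Iio (0 : ℝ) := neg_lt_zero.2 h
      rw [hb2, indicator_of_mem h']
      apply hs
      intro h3
      have := band_neg _ _ h3
      rw [neg_neg] at this
      exact hc (hband c h.le this)
    · apply indicator_of_notMem
      intro h'
      exact h (neg_lt_zero.1 h')
  have hbi : ∀ c, c ∉ Icc (-1 : ℝ) 1 → b c = 0 := by
    intro c hc
    apply hs
    intro h
    have := abs_lt.1 h.1
    exact hc ⟨this.1.le, this.2.le⟩
  have hbI := int_of_bdd b hb B hB hbi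
  have hb1i : Integrable b1 := hbI.indicator measurableSet_Ici
  have hb2i : Integrable b2 := hbI.indicator measurableSet_Iio
  have H1 := half μ hμ b1 hb1m B hB0 (fun c => (hb1n c).trans (hB c)) c1 c2 h1 h2 h21 hJ hs1 Y hY
  have H2 := half μ hμ (fun c => b2 (-c)) (hb2m.comp measurable_neg) B hB0
    (fun c => (hb2n _).trans (hB _)) c1 c2 h1 h2 h21 hJ hs2 Y hY
  rw [← flip_lint] at H2
  have A1 : ∫⁻ c, ENNReal.ofReal (‖b1 c‖ ^ 2) ≤ ∫⁻ c, ENNReal.ofReal (‖b c‖ ^ 2) :=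
    lintegral_mono (fun c => ENNReal.ofReal_le_ofReal
      (pow_le_pow_left₀ (norm_nonneg _) (hb1n c) 2))
  have A2 : ∫⁻ c, ENNReal.ofReal (‖b2 (-c)‖ ^ 2) ≤ ∫⁻ c, ENNReal.ofReal (‖b c‖ ^ 2) := by
    calc ∫⁻ c, ENNReal.ofReal (‖b2 (-c)‖ ^ 2) = ∫⁻ c, ENNReal.ofReal (‖b2 c‖ ^ 2) := by
          have := lintegral_sub_left_eq_self (μ := volume)
            (fun c : ℝ => ENNReal.ofReal (‖b2 c‖ ^ 2)) 0
          simpa only [zero_sub] using this
      _ ≤ _ := lintegral_mono (fun c => ENNReal.ofReal_le_ofReal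
          (pow_le_pow_left₀ (norm_nonneg _) (hb2n c) 2))
  have hb2int : Integrable (fun c => ‖b c‖ ^ 2) := by
    apply Integrable.mono' (hbI.norm.const_mul B) (hb.norm.pow_const 2).aestronglyMeasurable
    refine Filter.Eventually.of_forall (fun c => ?_)
    rw [Real.norm_eq_abs, abs_pow, abs_norm, sq]
    exact mul_le_mul_of_nonneg_right (hB c) (norm_nonneg _)
  have A3 : ∫⁻ c, ENNReal.ofReal (‖b c‖ ^ 2) = ENNReal.ofReal (∫ c, ‖b c‖ ^ 2) :=
    (ofReal_integral_eq_lintegral_ofReal hb2int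
      (Filter.Eventually.of_forall (fun c => sq_nonneg _))).symm
  have hI0 : 0 ≤ ∫ c, ‖b c‖ ^ 2 := integral_nonneg (fun c => sq_nonneg _)
  have hK0 : 0 ≤ 160 * B ^ 2 * μ ^ 3 * (1 + Real.log (Y * μ)) := by positivity
  set Q := 160 * B ^ 2 * μ ^ 3 * (1 + Real.log (Y * μ)) with hQ
  have H1' := H1.trans (mul_le_mul_right A1 (ENNReal.ofReal Q))
  have H2' := H2.trans (mul_le_mul_right A2 (ENNReal.ofReal Q))
  refine (split_lint b1 b2 b hb1m hb1i hb2i hsum Y).trans ?_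
  refine (add_le_add (mul_le_mul_right H1' _) (mul_le_mul_right H2' _)).trans ?_
  rw [A3, ← ENNReal.ofReal_mul hK0, ← ENNReal.ofReal_mul (by norm_num),
    ← ENNReal.ofReal_add (by positivity) (by positivity)]
  apply ENNReal.ofReal_le_ofReal
  rw [hQ]
  apply le_of_eq
  ring

open E4w in
theorem E4 : ∃ C : ℝ, 0 < C ∧ ∀ μ : ℝ, 0 < μ → μ ≤ 1 → ∀ Y : ℝ, 1 ≤ Y * μ →
    ∀ (b : ℝ → ℂ), Measurable b → ∀ B : ℝ, (∀ c, ‖b c‖ ≤ B) → (∀ c, c ∉ band μ → b c = 0) →
    ∫⁻ y in Icc (-Y) Y, ∫⁻ z : ℝ, ENNReal.ofReal (‖Ex b y z‖ ^ 4) ≤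
      ENNReal.ofReal (C * B ^ 4 * μ ^ 5 * (1 + Real.log (Y * μ))) := by
  obtain ⟨C, hC, h⟩ := E4r
  refine ⟨2 * C, by positivity, ?_⟩
  intro μ hμ hμ1 Y hY b hb B hB hs
  refine (h μ hμ hμ1 Y hY b hb B hB hs).trans ?_
  apply ENNReal.ofReal_le_ofReal
  have hB0 : 0 ≤ B := (norm_nonneg _).trans (hB 0)
  have hlog0 : 0 ≤ Real.log (Y * μ) := Real.log_nonneg hY
  obtain ⟨c1, c2, h1, h12, h2, h21, hJ, hband⟩ := band_geom μ hμ hμ1
  have key : ∫ c, ‖b c‖ ^ 2 ≤ B ^ 2 * (2 * μ ^ 2) := by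
    have e : ∫ c, ‖b c‖ ^ 2 = ∫ c in Icc c1 c2 ∪ Icc (-c2) (-c1), ‖b c‖ ^ 2 := by
      symm
      apply setIntegral_eq_integral_of_forall_compl_eq_zero
      intro c hc
      have : b c = 0 := by
        apply hs
        intro h3
        apply hc
        rcases le_total 0 c with h0 | h0
        · exact Or.inl (hband c h0 h3)
        · have := hband (-c) (by linarith) (band_neg _ _ h3)
          exact Or.inr ⟨by linarith [this.2], by linarith [this.1]⟩
      simp [this]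
    have v : volume (Icc c1 c2 ∪ Icc (-c2) (-c1)) ≤ ENNReal.ofReal (2 * μ ^ 2) := by
      refine (measure_union_le _ _).trans ?_
      rw [Real.volume_Icc, Real.volume_Icc, ← ENNReal.ofReal_add (by linarith) (by linarith)]
      apply ENNReal.ofReal_le_ofReal
      linarith
    rw [e]
    have n := norm_setIntegral_le_of_norm_le_const (μ := volume)
      (s := Icc c1 c2 ∪ Icc (-c2) (-c1)) (f := fun c => ‖b c‖ ^ 2) (C := B ^ 2)
      (lt_of_le_of_lt v ENNReal.ofReal_lt_top) (by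
        intro c _
        rw [Real.norm_eq_abs, abs_pow, abs_norm]
        exact pow_le_pow_left₀ (norm_nonneg _) (hB c) 2)
    refine (le_abs_self _).trans (n.trans ?_)
    apply mul_le_mul_of_nonneg_left _ (by positivity)
    exact ENNReal.toReal_le_of_le_ofReal (by positivity) v
  calc C * B ^ 2 * μ ^ 3 * (1 + Real.log (Y * μ)) * ∫ c, ‖b c‖ ^ 2
      ≤ C * B ^ 2 * μ ^ 3 * (1 + Real.log (Y * μ)) * (B ^ 2 * (2 * μ ^ 2)) := by gcongr
    _ = _ := by ring

end Pool.Agent.H789R2.FR
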