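import Mathlib
import Pool.Agent.H789R2.FR.Defs3
import Pool.Agent.H789R2.FR.E4
import Pool.Agent.H789R2.FR.Planch
set_option autoImplicit false

/-! Task Q6: `L^4` estimate along rays. -/

namespace Pool.Agent.H789R2.FR

open MeasureTheory Measure Set Metric Complex
open scoped ENNReal Pointwise RealInnerProductSpace

namespace ZlAux

theorem band_sub (μ : ℝ) (hμ : 0 < μ) (hμ' : μ ≤ 1) : ∃ u v : ℝ, v - u ≤ μ ^ 2 ∧
    band μ ⊆ Icc u v ∪ Icc (-v) (-u) := by
  refine ⟨Real.sqrt (1 - μ ^ 2), Real.sqrt (1 - μ ^ 2 / 4), ?_, ?_⟩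
  · have h1 : 0 ≤ 1 - μ ^ 2 := by nlinarith
    have h2 : 0 ≤ 1 - μ ^ 2 / 4 := by nlinarith
    have h3 : (3 : ℝ) / 4 ≤ Real.sqrt (1 - μ ^ 2 / 4) := by
      apply Real.le_sqrt_of_sq_le
      nlinarith
    have h4 := Real.sq_sqrt h1
    have h5 := Real.sq_sqrt h2
    have h6 := Real.sqrt_nonneg (1 - μ ^ 2)
    nlinarith
  · rintro c ⟨hc1, hc2, hc3⟩
    have hc : 0 ≤ 1 - c ^ 2 := by
      have := abs_lt.1 hc1
      nlinarith
    have hs : sc c ^ 2 = 1 - c ^ 2 := Real.sq_sqrt hc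
    have hs0 : 0 ≤ sc c := Real.sqrt_nonneg _
    have h1 : 1 - μ ^ 2 ≤ c ^ 2 := by nlinarith
    have h2 : c ^ 2 ≤ 1 - μ ^ 2 / 4 := by nlinarith
    have h3 : Real.sqrt (1 - μ ^ 2) ≤ |c| := by
      rw [← Real.sqrt_sq_eq_abs]
      exact Real.sqrt_le_sqrt h1
    have h4 : |c| ≤ Real.sqrt (1 - μ ^ 2 / 4) := by
      rw [← Real.sqrt_sq_eq_abs]
      exact Real.sqrt_le_sqrt h2
    rcases le_total 0 c with h | h
    · left
      rw [abs_of_nonneg h] at h3 h4
      exact ⟨h3, h4⟩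
    · right
      rw [abs_of_nonpos h] at h3 h4
      exact ⟨by linarith, by linarith⟩

theorem vol_band (μ : ℝ) (hμ : 0 < μ) (hμ' : μ ≤ 1) :
    volume (band μ) ≤ ENNReal.ofReal (2 * μ ^ 2) := by
  obtain ⟨u, v, h, hs⟩ := band_sub μ hμ hμ'
  calc volume (band μ) ≤ volume (Icc u v ∪ Icc (-v) (-u)) := measure_mono hs
    _ ≤ volume (Icc u v) + volume (Icc (-v) (-u)) := measure_union_le _ _
    _ = ENNReal.ofReal (v - u) + ENNReal.ofReal (-u - -v) := by
        rw [Real.volume_Icc, Real.volume_Icc]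
    _ ≤ ENNReal.ofReal (μ ^ 2) + ENNReal.ofReal (μ ^ 2) := by
        gcongr
        linarith
    _ = ENNReal.ofReal (2 * μ ^ 2) := by
        rw [← ENNReal.ofReal_add (by positivity) (by positivity)]
        congr 1
        ring

theorem norm_phase (t : ℝ) : ‖Complex.exp (-((t : ℝ) : ℂ) * I)‖ = 1 := by
  rw [← Complex.ofReal_neg]
  exact Complex.norm_exp_ofReal_mul_I _

theorem Ex_bound (μ : ℝ) (hμ : 0 < μ) (hμ' : μ ≤ 1) (b : ℝ → ℂ) (B : ℝ) (hB : ∀ c, ‖b c‖ ≤ B)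
    (hs : ∀ c, c ∉ band μ → b c = 0) (y z : ℝ) : ‖Ex b y z‖ ≤ B * (2 * μ ^ 2) := by
  have hB0 : 0 ≤ B := (norm_nonneg _).trans (hB 0)
  have h1 : ‖Ex b y z‖ₑ ≤ ENNReal.ofReal (B * (2 * μ ^ 2)) := by
    unfold Ex
    refine (enorm_integral_le_lintegral_enorm _).trans ?_
    calc ∫⁻ c in Ioo (-1 : ℝ) 1, ‖Complex.exp (-((y * sc c + z * c : ℝ) : ℂ) * I) * b c‖ₑ
        ≤ ∫⁻ c, (band μ).indicator (fun _ => ENNReal.ofReal B) c := by
          refine (setLIntegral_le_lintegral _ _).trans (lintegral_mono fun c => ?_)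
          by_cases hc : c ∈ band μ
          · rw [indicator_of_mem hc, enorm_mul, ← ofReal_norm, norm_phase,
              ENNReal.ofReal_one, one_mul, ← ofReal_norm]
            exact ENNReal.ofReal_le_ofReal (hB c)
          · rw [indicator_of_notMem hc, hs c hc, mul_zero, enorm_zero]
      _ ≤ ENNReal.ofReal B * volume (band μ) := lintegral_indicator_const_le _ _
      _ ≤ ENNReal.ofReal B * ENNReal.ofReal (2 * μ ^ 2) := by
          gcongr
          exact vol_band μ hμ hμ'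
      _ = ENNReal.ofReal (B * (2 * μ ^ 2)) := (ENNReal.ofReal_mul hB0).symm
  rw [← ofReal_norm] at h1
  exact (ENNReal.ofReal_le_ofReal_iff (by positivity)).1 h1

theorem Ex_sq (μ : ℝ) (hμ : 0 < μ) (hμ' : μ ≤ 1) (b : ℝ → ℂ) (hb : Measurable b) (B : ℝ)
    (hB : ∀ c, ‖b c‖ ≤ B) (hs : ∀ c, c ∉ band μ → b c = 0) (y : ℝ) :
    ∫⁻ z : ℝ, ENNReal.ofReal (‖Ex b y z‖ ^ 2) ≤
      ENNReal.ofReal (2 * Real.pi * (B ^ 2 * (2 * μ ^ 2))) := by
  have hB0 : 0 ≤ B := (norm_nonneg _).trans (hB 0)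
  have hsc : Measurable sc := by
    unfold sc
    exact (Continuous.sqrt (by fun_prop)).measurable
  have hF : Measurable fun c : ℝ => Complex.exp (-((y * sc c : ℝ) : ℂ) * I) * b c := by
    refine Measurable.mul ?_ hb
    refine Complex.continuous_exp.measurable.comp ?_
    refine Measurable.mul_const ?_ _
    refine Measurable.neg ?_
    exact Complex.measurable_ofReal.comp (hsc.const_mul y)
  have h1 := pl_phase (Ioo (-1 : ℝ) 1) measurableSet_Ioo (by
      rw [Real.volume_Ioo]; exact ENNReal.ofReal_lt_top) (fun c => c) (fun _ => 1)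
    measurable_id measurable_const (fun c _ => hasDerivWithinAt_id c _)
    (fun _ _ => one_ne_zero) (fun x _ y _ h => h)
    (fun c : ℝ => Complex.exp (-((y * sc c : ℝ) : ℂ) * I) * b c) hF
    ⟨B, fun c => by rw [norm_mul, norm_phase, one_mul]; exact hB c⟩
  calc ∫⁻ z : ℝ, ENNReal.ofReal (‖Ex b y z‖ ^ 2)
      = ∫⁻ z : ℝ, ENNReal.ofReal (‖∫ c in Ioo (-1 : ℝ) 1,
        Complex.exp (-((z * c : ℝ) : ℂ) * I) *
          (Complex.exp (-((y * sc c : ℝ) : ℂ) * I) * b c)‖ ^ 2) := by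
        refine lintegral_congr fun z => ?_
        congr 3
        unfold Ex
        refine setIntegral_congr_fun measurableSet_Ioo fun c _ => ?_
        rw [← mul_assoc, ← Complex.exp_add]
        congr 2
        push_cast
        ring
    _ ≤ _ := h1
    _ ≤ ENNReal.ofReal (2 * Real.pi) * ∫⁻ c, (band μ).indicator
        (fun _ => ENNReal.ofReal (B ^ 2)) c := by
        refine mul_le_mul_right ?_ _
        refine (setLIntegral_le_lintegral _ _).trans (lintegral_mono fun c => ?_)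
        simp only [abs_one, div_one]
        by_cases hc : c ∈ band μ
        · rw [indicator_of_mem hc, norm_mul, norm_phase, one_mul]
          exact ENNReal.ofReal_le_ofReal (pow_le_pow_left₀ (norm_nonneg _) (hB c) 2)
        · rw [indicator_of_notMem hc, hs c hc, mul_zero, norm_zero]
          simp
    _ ≤ ENNReal.ofReal (2 * Real.pi) * (ENNReal.ofReal (B ^ 2) *
        ENNReal.ofReal (2 * μ ^ 2)) := by
        gcongr
        exact (lintegral_indicator_const_le _ _).trans (by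
          gcongr
          exact vol_band μ hμ hμ')
    _ = ENNReal.ofReal (2 * Real.pi * (B ^ 2 * (2 * μ ^ 2))) := by
        rw [← ENNReal.ofReal_mul (by positivity), ← ENNReal.ofReal_mul (by positivity)]

theorem Ex_four (μ : ℝ) (hμ : 0 < μ) (hμ' : μ ≤ 1) (b : ℝ → ℂ) (hb : Measurable b) (B : ℝ)
    (hB : ∀ c, ‖b c‖ ≤ B) (hs : ∀ c, c ∉ band μ → b c = 0) (y : ℝ) :
    ∫⁻ z : ℝ, ENNReal.ofReal (‖Ex b y z‖ ^ 4) ≤
      ENNReal.ofReal (16 * Real.pi * B ^ 4 * μ ^ 6) := by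
  have hB0 : 0 ≤ B := (norm_nonneg _).trans (hB 0)
  calc ∫⁻ z : ℝ, ENNReal.ofReal (‖Ex b y z‖ ^ 4)
      ≤ ∫⁻ z : ℝ, ENNReal.ofReal ((B * (2 * μ ^ 2)) ^ 2) * ENNReal.ofReal (‖Ex b y z‖ ^ 2) := by
        refine lintegral_mono fun z => ?_
        simp only
        rw [← ENNReal.ofReal_mul (by positivity)]
        apply ENNReal.ofReal_le_ofReal
        have h1 := Ex_bound μ hμ hμ' b B hB hs y z
        have h2 := pow_le_pow_left₀ (norm_nonneg _) h1 2
        calc ‖Ex b y z‖ ^ 4 = ‖Ex b y z‖ ^ 2 * ‖Ex b y z‖ ^ 2 := by ring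
          _ ≤ _ := by gcongr
    _ = ENNReal.ofReal ((B * (2 * μ ^ 2)) ^ 2) * ∫⁻ z : ℝ, ENNReal.ofReal (‖Ex b y z‖ ^ 2) :=
        lintegral_const_mul' _ _ ENNReal.ofReal_ne_top
    _ ≤ ENNReal.ofReal ((B * (2 * μ ^ 2)) ^ 2) *
        ENNReal.ofReal (2 * Real.pi * (B ^ 2 * (2 * μ ^ 2))) := by
        gcongr
        exact Ex_sq μ hμ hμ' b hb B hB hs y
    _ = ENNReal.ofReal (16 * Real.pi * B ^ 4 * μ ^ 6) := by
        rw [← ENNReal.ofReal_mul (by positivity)]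
        congr 1
        ring

theorem scale (g : ℝ → ℝ≥0∞) (c ρ : ℝ) (hc : c ≠ 0) (hc1 : |c| ≤ 1) (hρ : 0 ≤ ρ) :
    ∫⁻ r in Icc ρ (2 * ρ), g (r * c) ≤
      ENNReal.ofReal (1 / |c|) * ∫⁻ y in Icc (-(2 * ρ)) (2 * ρ), g y := by
  calc ∫⁻ r in Icc ρ (2 * ρ), g (r * c)
      = ∫⁻ r, (Icc ρ (2 * ρ)).indicator (fun r => g (r * c)) r :=
        (lintegral_indicator measurableSet_Icc _).symm
    _ ≤ ∫⁻ r, (Icc (-(2 * ρ)) (2 * ρ)).indicator g (c * r) := by
        refine lintegral_mono fun r => ?_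
        simp only
        by_cases hr : r ∈ Icc ρ (2 * ρ)
        · rw [indicator_of_mem hr, indicator_of_mem, mul_comm]
          have h1 : |c * r| ≤ 2 * ρ := by
            rw [abs_mul, abs_of_nonneg (hρ.trans hr.1)]
            calc |c| * r ≤ 1 * (2 * ρ) := by
                  have h3 := hr.2
                  have h4 : 0 ≤ r := hρ.trans hr.1
                  gcongr
              _ = 2 * ρ := one_mul _
          exact abs_le.1 h1
        · rw [indicator_of_notMem hr]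
          exact bot_le
    _ = ∫⁻ y, (Icc (-(2 * ρ)) (2 * ρ)).indicator g y ∂(Measure.map (c * ·) volume) :=
        (lintegral_map_equiv _ (MeasurableEquiv.mulLeft₀ c hc)).symm
    _ = ENNReal.ofReal (1 / |c|) * ∫⁻ y in Icc (-(2 * ρ)) (2 * ρ), g y := by
        rw [Real.map_volume_mul_left hc, lintegral_smul_measure,
          lintegral_indicator measurableSet_Icc, abs_inv, one_div, smul_eq_mul]

end ZlAux

open ZlAux in
theorem Zl : ∃ C : ℝ, 0 < C ∧ ∀ μ : ℝ, 0 < μ → μ ≤ 1 → ∀ ρ : ℝ, 1 ≤ ρ * μ →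
    ∀ (b : ℝ → ℂ), Measurable b → ∀ B : ℝ, (∀ c, ‖b c‖ ≤ B) → (∀ c, c ∉ band μ → b c = 0) →
    ∀ θ : ℝ, ∫⁻ r in Icc ρ (2 * ρ), ∫⁻ z : ℝ, ENNReal.ofReal (‖Ex b (r * Real.cos θ) z‖ ^ 4) ≤
      ENNReal.ofReal (C * B ^ 4 * μ ^ 5 * (1 + Real.log (ρ * μ)) *
        (ρ * μ / (1 + ρ * μ * |Real.cos θ|))) := by
  obtain ⟨C4, hC4, h4⟩ := E4
  have hpi := Real.pi_pos
  refine ⟨4 * C4 + 32 * Real.pi, by positivity, ?_⟩
  intro μ hμ hμ' ρ hρ b hb B hB hs θ
  have hB0 : 0 ≤ B := (norm_nonneg _).trans (hB 0)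
  have hρ0 : 0 < ρ := by
    by_contra h
    push Not at h
    nlinarith
  have hN0 : 0 < ρ * μ := by positivity
  have hlog : 0 ≤ Real.log (ρ * μ) := Real.log_nonneg hρ
  set a := |Real.cos θ| with ha
  have ha0 : 0 ≤ a := abs_nonneg _
  have ha1 : a ≤ 1 := Real.abs_cos_le_one θ
  rcases le_or_gt 1 (ρ * μ * a) with hN | hN
  · have hapos : 0 < a := by
      rcases ha0.lt_or_eq with h | h
      · exact h
      · rw [← h] at hN; norm_num at hN
    have hc : Real.cos θ ≠ 0 := abs_pos.1 hapos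
    refine (scale (fun y => ∫⁻ z : ℝ, ENNReal.ofReal (‖Ex b y z‖ ^ 4)) (Real.cos θ) ρ hc ha1
      hρ0.le).trans ?_
    have h5 := h4 μ hμ hμ' (2 * ρ) (by nlinarith) b hb B hB hs
    refine (mul_le_mul_right h5 _).trans ?_
    rw [← ENNReal.ofReal_mul (by positivity)]
    apply ENNReal.ofReal_le_ofReal
    have hl2 : Real.log (2 * ρ * μ) = Real.log 2 + Real.log (ρ * μ) := by
      rw [mul_assoc, Real.log_mul (by norm_num) hN0.ne']
    have hlog2 : Real.log 2 ≤ 1 := by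
      have := Real.log_two_lt_d9
      linarith
    have e1 : 1 + Real.log (2 * ρ * μ) ≤ 2 * (1 + Real.log (ρ * μ)) := by
      rw [hl2]; linarith
    have e2 : 1 / a ≤ 2 * (ρ * μ / (1 + ρ * μ * a)) := by
      rw [div_le_iff₀ hapos]
      have : 2 * (ρ * μ / (1 + ρ * μ * a)) * a = 2 * (ρ * μ * a) / (1 + ρ * μ * a) := by ring
      rw [this, le_div_iff₀ (by positivity)]
      linarith
    have e0 : 0 ≤ ρ * μ / (1 + ρ * μ * a) := by positivity
    have e4 : 0 ≤ Real.log (2 * ρ * μ) := by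
      rw [hl2]
      have := Real.log_nonneg (one_le_two (α := ℝ))
      linarith
    calc 1 / a * (C4 * B ^ 4 * μ ^ 5 * (1 + Real.log (2 * ρ * μ)))
        ≤ 2 * (ρ * μ / (1 + ρ * μ * a)) * (C4 * B ^ 4 * μ ^ 5 *
          (2 * (1 + Real.log (ρ * μ)))) := by gcongr
      _ = 4 * C4 * (B ^ 4 * μ ^ 5 * (1 + Real.log (ρ * μ)) * (ρ * μ / (1 + ρ * μ * a))) := by
          ring
      _ ≤ (4 * C4 + 32 * Real.pi) * (B ^ 4 * μ ^ 5 * (1 + Real.log (ρ * μ)) *
          (ρ * μ / (1 + ρ * μ * a))) := by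
          gcongr
          linarith
      _ = _ := by ring
  · calc ∫⁻ r in Icc ρ (2 * ρ), ∫⁻ z : ℝ, ENNReal.ofReal (‖Ex b (r * Real.cos θ) z‖ ^ 4)
        ≤ ∫⁻ r in Icc ρ (2 * ρ), ENNReal.ofReal (16 * Real.pi * B ^ 4 * μ ^ 6) :=
          lintegral_mono fun r => Ex_four μ hμ hμ' b hb B hB hs _
      _ = ENNReal.ofReal (16 * Real.pi * B ^ 4 * μ ^ 6) * ENNReal.ofReal (2 * ρ - ρ) := by
          rw [setLIntegral_const, Real.volume_Icc]
      _ = ENNReal.ofReal (16 * Real.pi * B ^ 4 * μ ^ 6 * (2 * ρ - ρ)) :=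
          (ENNReal.ofReal_mul (by positivity)).symm
      _ ≤ _ := by
          apply ENNReal.ofReal_le_ofReal
          have e2 : 1 ≤ 2 * (1 / (1 + ρ * μ * a)) := by
            rw [mul_one_div, le_div_iff₀ (by positivity)]
            linarith
          have e3 : 1 ≤ 1 + Real.log (ρ * μ) := by linarith
          calc 16 * Real.pi * B ^ 4 * μ ^ 6 * (2 * ρ - ρ)
              = 16 * Real.pi * (B ^ 4 * μ ^ 5 * 1 * (ρ * μ * 1)) := by ring
            _ ≤ 16 * Real.pi * (B ^ 4 * μ ^ 5 * (1 + Real.log (ρ * μ)) *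
                (ρ * μ * (2 * (1 / (1 + ρ * μ * a))))) := by gcongr
            _ = 32 * Real.pi * (B ^ 4 * μ ^ 5 * (1 + Real.log (ρ * μ)) *
                (ρ * μ / (1 + ρ * μ * a))) := by ring
            _ ≤ (4 * C4 + 32 * Real.pi) * (B ^ 4 * μ ^ 5 * (1 + Real.log (ρ * μ)) *
                (ρ * μ / (1 + ρ * μ * a))) := by
                gcongr
                linarith
            _ = _ := by ring

end Pool.Agent.H789R2.FR
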