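import Mathlib
import Pool.Agent.H789R2.FR.Defs6
import Pool.Agent.H789R2.FR.Arch
import Pool.Agent.H789R2.FR.Cyl
import Pool.Agent.H789R2.FR.Zl
import Pool.Agent.H789R2.FR.Ker
set_option autoImplicit false

/-! Task V3: localisation of `T (Av κ G)` (`far`, `near_tail`). -/

namespace Pool.Agent.H789R2.FR

open MeasureTheory Measure Set Metric Complex
open scoped ENNReal Pointwise RealInnerProductSpace

namespace Loc

/-- powers are dominated by `exp (b N^(2ε))` -/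
theorem dom (ε : ℝ) (hε : 0 < ε) (p : ℝ) (b : ℝ) (hb : 0 < b) : ∃ C : ℝ, 0 < C ∧
    ∀ N : ℝ, 1 ≤ N → N ^ p * Real.exp (-b * N ^ (2 * ε)) ≤ C := by
  obtain ⟨n, hn⟩ := exists_nat_ge (p / (2 * ε))
  refine ⟨(n.factorial : ℝ) / b ^ n, by positivity, fun N hN => ?_⟩
  have hN0 : 0 < N := by linarith
  set t : ℝ := N ^ (2 * ε) with ht
  have ht1 : 1 ≤ t := Real.one_le_rpow hN (by positivity)
  have ht0 : 0 < t := by linarith
  have h1 : N ^ p ≤ t ^ n := by
    have e1 : N ^ p = t ^ (p / (2 * ε)) := by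
      rw [ht, ← Real.rpow_mul hN0.le]
      congr 1
      field_simp
    rw [e1, ← Real.rpow_natCast]
    exact Real.rpow_le_rpow_of_exponent_le ht1 hn
  have h2 : (b * t) ^ n / (n.factorial : ℝ) ≤ Real.exp (b * t) :=
    Real.pow_div_factorial_le_exp (b * t) (by positivity) n
  have hf : (0 : ℝ) < (n.factorial : ℝ) := by exact_mod_cast Nat.factorial_pos n
  have h3 : t ^ n ≤ (n.factorial : ℝ) / b ^ n * Real.exp (b * t) := by
    rw [mul_pow] at h2
    rw [div_le_iff₀ hf] at h2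
    rw [div_mul_eq_mul_div, le_div_iff₀ (by positivity)]
    linarith
  calc N ^ p * Real.exp (-b * t) ≤ t ^ n * Real.exp (-b * t) :=
        mul_le_mul_of_nonneg_right h1 (Real.exp_pos _).le
    _ ≤ ((n.factorial : ℝ) / b ^ n * Real.exp (b * t)) * Real.exp (-b * t) :=
        mul_le_mul_of_nonneg_right h3 (Real.exp_pos _).le
    _ = (n.factorial : ℝ) / b ^ n := by
        rw [mul_assoc, ← Real.exp_add]
        simp

theorem dom' (ε : ℝ) (hε : 0 < ε) (p m : ℝ) (b : ℝ) (hb : 0 < b) : ∃ C : ℝ, 0 < C ∧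
    ∀ N : ℝ, 1 ≤ N → N ^ p * Real.exp (-b * N ^ (2 * ε)) ≤ C * N ^ (-m) := by
  obtain ⟨C, hC, h⟩ := dom ε hε (p + m) b hb
  refine ⟨C, hC, fun N hN => ?_⟩
  have hN0 : 0 < N := by linarith
  have h1 := h N hN
  rw [Real.rpow_add hN0] at h1
  calc N ^ p * Real.exp (-b * N ^ (2 * ε))
      = (N ^ p * N ^ m * Real.exp (-b * N ^ (2 * ε))) * N ^ (-m) := by
        rw [Real.rpow_neg hN0.le]
        have : N ^ m ≠ 0 := (Real.rpow_pos_of_pos hN0 m).ne'
        field_simp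
    _ ≤ C * N ^ (-m) := mul_le_mul_of_nonneg_right h1 (Real.rpow_nonneg hN0.le _)

theorem kz_inv (κ : ℝ) (hκ : 1 ≤ κ) : 0 < kz κ ∧ (kz κ)⁻¹ ≤ κ ^ (1 / 2 : ℝ) := by
  have h := kz_lower κ hκ
  have hk : 0 < κ := by linarith
  have h0 : 0 < κ ^ (-(1 / 2 : ℝ)) := Real.rpow_pos_of_pos hk _
  refine ⟨by linarith, ?_⟩
  calc (kz κ)⁻¹ ≤ (κ ^ (-(1 / 2 : ℝ)))⁻¹ := inv_anti₀ h0 h
    _ = κ ^ (1 / 2 : ℝ) := by rw [Real.rpow_neg hk.le, inv_inv]

theorem W_sq (ε N κ W : ℝ) (hN : 1 ≤ N) (hκ : N ≤ κ) (hW : W = N ^ ε * κ ^ (1 / 2 : ℝ) / N) :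
    0 < W ∧ W ^ 2 = N ^ (2 * ε) * κ / N ^ 2 := by
  have hN0 : 0 < N := by linarith
  have hk : 0 < κ := by linarith
  have h1 : 0 < N ^ ε := Real.rpow_pos_of_pos hN0 _
  have h2 : 0 < κ ^ (1 / 2 : ℝ) := Real.rpow_pos_of_pos hk _
  refine ⟨by rw [hW]; positivity, ?_⟩
  have h3 : (κ ^ (1 / 2 : ℝ)) ^ 2 = κ := by
    rw [← Real.rpow_natCast, ← Real.rpow_mul hk.le]
    norm_num
  have h4 : (N ^ ε) ^ 2 = N ^ (2 * ε) := by
    rw [← Real.rpow_natCast, ← Real.rpow_mul hN0.le]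
    congr 1
    push_cast
    ring
  rw [hW, div_pow, mul_pow, h3, h4]

theorem sqrt_kappa (N κ : ℝ) (hN : 1 ≤ N) (hκ : N ≤ κ) (hκ2 : κ ≤ N ^ 2) :
    κ ^ (1 / 2 : ℝ) ≤ N := by
  have hk : 0 ≤ κ := by linarith
  rw [← Real.sqrt_eq_rpow]
  calc Real.sqrt κ ≤ Real.sqrt (N ^ 2) := Real.sqrt_le_sqrt hκ2
    _ = N := Real.sqrt_sq (by linarith)

theorem trig (x0 x1 a h W : ℝ) (hW0 : 0 < W)
    (hmem : |(-(x0 * Real.sin h) + x1 * Real.cos h) * Real.cos a -
      (x0 * Real.cos h + x1 * Real.sin h) * Real.sin a| ≤ 2 * W * Real.sqrt (x0 ^ 2 + x1 ^ 2))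
    (hx' : 4 * W * Real.sqrt (x0 ^ 2 + x1 ^ 2) < |x1 * Real.cos a - x0 * Real.sin a|) :
    2 * W ^ 2 ≤ 1 - Real.cos h := by
  have hsc := Real.sin_sq_add_cos_sq h
  have hsa := Real.sin_sq_add_cos_sq a
  obtain ⟨t, ht⟩ : ∃ t, t = Real.sqrt (x0 ^ 2 + x1 ^ 2) := ⟨_, rfl⟩
  have ht2 : t ^ 2 = x0 ^ 2 + x1 ^ 2 := by rw [ht]; exact Real.sq_sqrt (by positivity)
  have ht0 : 0 ≤ t := by rw [ht]; exact Real.sqrt_nonneg _
  rw [← ht] at hmem hx'
  obtain ⟨sh, hsh⟩ : ∃ s, s = Real.sin h := ⟨_, rfl⟩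
  obtain ⟨ch, hch⟩ : ∃ s, s = Real.cos h := ⟨_, rfl⟩
  obtain ⟨sa, hsa'⟩ : ∃ s, s = Real.sin a := ⟨_, rfl⟩
  obtain ⟨ca, hca⟩ : ∃ s, s = Real.cos a := ⟨_, rfl⟩
  have hch1 : |ch| ≤ 1 := by rw [hch]; exact Real.abs_cos_le_one h
  rw [← hsh, ← hch] at hsc
  rw [← hsa', ← hca] at hsa
  rw [← hsh, ← hch, ← hsa', ← hca] at hmem
  rw [← hsa', ← hca] at hx'
  rw [← hch]
  obtain ⟨S', hS'⟩ : ∃ S', S' = (-(x0 * sh) + x1 * ch) * ca - (x0 * ch + x1 * sh) * sa := ⟨_, rfl⟩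
  obtain ⟨Q', hQ'⟩ : ∃ Q', Q' = (x0 * ch + x1 * sh) * ca + (-(x0 * sh) + x1 * ch) * sa := ⟨_, rfl⟩
  rw [← hS'] at hmem
  have e2 : x1 * ca - x0 * sa = ch * S' + sh * Q' := by
    calc x1 * ca - x0 * sa = (x1 * ca - x0 * sa) * (sh ^ 2 + ch ^ 2) := by
          rw [hsc, mul_one]
      _ = _ := by rw [hS', hQ']; ring
  have e3 : |Q'| ≤ t := by
    apply abs_le_of_sq_le_sq _ ht0
    have : S' ^ 2 + Q' ^ 2 = t ^ 2 := by
      calc S' ^ 2 + Q' ^ 2 = (x0 ^ 2 + x1 ^ 2) * (sh ^ 2 + ch ^ 2) * (sa ^ 2 + ca ^ 2) := by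
            rw [hS', hQ']; ring
        _ = t ^ 2 := by rw [hsc, hsa, mul_one, mul_one, ht2]
    nlinarith [sq_nonneg S']
  have e4 : |x1 * ca - x0 * sa| ≤ 2 * W * t + |sh| * t := by
    rw [e2]
    calc |ch * S' + sh * Q'| ≤ |ch * S'| + |sh * Q'| := abs_add_le _ _
      _ = |ch| * |S'| + |sh| * |Q'| := by rw [abs_mul, abs_mul]
      _ ≤ 1 * (2 * W * t) + |sh| * t := by
          apply add_le_add
          · exact mul_le_mul hch1 hmem (abs_nonneg _) zero_le_one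
          · exact mul_le_mul_of_nonneg_left e3 (abs_nonneg _)
      _ = 2 * W * t + |sh| * t := by ring
  have e5 : 2 * W * t < |sh| * t := by linarith
  have e6 : 2 * W < |sh| := lt_of_mul_lt_mul_right e5 ht0
  have e7 : (2 * W) ^ 2 ≤ sh ^ 2 := by
    rw [← sq_abs sh]
    exact pow_le_pow_left₀ (by positivity) e6.le 2
  have e8 : sh ^ 2 ≤ 2 * (1 - ch) := by
    nlinarith [(abs_le.mp hch1).1, (abs_le.mp hch1).2]
  linarith [show (2 * W) ^ 2 = 4 * W ^ 2 by ring]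

end Loc

theorem near_tail (ε : ℝ) (hε : 0 < ε) (m : ℝ) (hm : 0 < m) : ∃ C : ℝ, 0 < C ∧
    ∀ N : ℝ, 1 ≤ N → ∀ κ : ℝ, N ≤ κ → κ ≤ N ^ 2 → ∀ W : ℝ, W = N ^ ε * κ ^ (1 / 2 : ℝ) / N →
    ∀ a : ℝ, ∀ G : E 3 → ℂ, ∀ M : ℝ, (∀ x, ‖G x‖ ≤ M) → (∀ x, x ∉ St a (2 * W) → G x = 0) →
    ∀ x : E 3, x ∉ St a (4 * W) → ‖Av κ G x‖ ≤ C * M * N ^ (-m) := by
  obtain ⟨C, hC, hdom⟩ := Loc.dom' ε hε 1 m 2 (by norm_num)
  refine ⟨2 * Real.pi * C, by positivity, ?_⟩
  intro N hN κ hκ hκ2 W hW a G M hM hs x hx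
  have hN0 : 0 < N := by linarith
  have hM0 : 0 ≤ M := (norm_nonneg _).trans (hM 0)
  obtain ⟨hW0, hW2⟩ := Loc.W_sq ε N κ W hN hκ hW
  obtain ⟨hkz, hkz'⟩ := Loc.kz_inv κ (by linarith)
  have hpw : ∀ h : ℝ, ‖((Real.exp (-κ * (1 - Real.cos h)) : ℝ) : ℂ) * G (rot (-h) x)‖ ≤
      Real.exp (-2 * N ^ (2 * ε)) * M := by
    intro h
    rw [norm_mul, Complex.norm_real, Real.norm_of_nonneg (Real.exp_pos _).le]
    by_cases hG : rot (-h) x ∈ St a (2 * W)
    · apply mul_le_mul _ (hM _) (norm_nonneg _) (Real.exp_pos _).le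
      apply Real.exp_le_exp.mpr
      have hmem : |rot (-h) x 1 * Real.cos a - rot (-h) x 0 * Real.sin a| ≤
          2 * W * Real.sqrt (rot (-h) x 0 ^ 2 + rot (-h) x 1 ^ 2) := hG
      have r0 : rot (-h) x 0 = x 0 * Real.cos h + x 1 * Real.sin h := by
        simp [rot]
      have r1 : rot (-h) x 1 = -(x 0 * Real.sin h) + x 1 * Real.cos h := by
        simp [rot]
      rw [r0, r1] at hmem
      have hx' : 4 * W * Real.sqrt (x 0 ^ 2 + x 1 ^ 2) < |x 1 * Real.cos a - x 0 * Real.sin a| :=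
        not_le.mp hx
      have e1 : (x 0 * Real.cos h + x 1 * Real.sin h) ^ 2 +
          (-(x 0 * Real.sin h) + x 1 * Real.cos h) ^ 2 = x 0 ^ 2 + x 1 ^ 2 := by
        calc _ = (x 0 ^ 2 + x 1 ^ 2) * (Real.sin h ^ 2 + Real.cos h ^ 2) := by ring
          _ = _ := by rw [Real.sin_sq_add_cos_sq h, mul_one]
      rw [e1] at hmem
      have e9 := Loc.trig (x 0) (x 1) a h W hW0 hmem hx'
      have e10 : N ^ (2 * ε) ≤ κ * W ^ 2 := by
        rw [hW2]
        have hNp : 0 < N ^ (2 * ε) := Real.rpow_pos_of_pos hN0 _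
        rw [← mul_div_assoc, le_div_iff₀ (by positivity)]
        have : N ^ 2 ≤ κ ^ 2 := pow_le_pow_left₀ hN0.le hκ 2
        nlinarith
      have hk0 : 0 < κ := by linarith
      nlinarith
    · rw [hs _ hG, norm_zero, mul_zero]
      positivity
  unfold Av
  rw [norm_mul, norm_inv, Complex.norm_real, Real.norm_of_nonneg hkz.le]
  have h1 : ‖∫ h in Ioo (-Real.pi) Real.pi,
      ((Real.exp (-κ * (1 - Real.cos h)) : ℝ) : ℂ) * G (rot (-h) x)‖ ≤
      (Real.exp (-2 * N ^ (2 * ε)) * M) * (volume.real (Ioo (-Real.pi) Real.pi)) := by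
    apply norm_setIntegral_le_of_norm_le_const
    · simp
    · intro h _
      exact hpw h
  rw [Real.volume_real_Ioo_of_le (by linarith [Real.pi_pos])] at h1
  have h2 := hdom N hN
  rw [Real.rpow_one] at h2
  calc (kz κ)⁻¹ * ‖∫ h in Ioo (-Real.pi) Real.pi,
      ((Real.exp (-κ * (1 - Real.cos h)) : ℝ) : ℂ) * G (rot (-h) x)‖
      ≤ N * ((Real.exp (-2 * N ^ (2 * ε)) * M) * (Real.pi - -Real.pi)) := by
        apply mul_le_mul (hkz'.trans (Loc.sqrt_kappa N κ hN hκ hκ2)) h1 (norm_nonneg _) hN0.le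
    _ = 2 * Real.pi * M * (N * Real.exp (-2 * N ^ (2 * ε))) := by ring
    _ ≤ 2 * Real.pi * M * (C * N ^ (-m)) := by
        apply mul_le_mul_of_nonneg_left h2 (by positivity)
    _ = 2 * Real.pi * C * M * N ^ (-m) := by ring

end Pool.Agent.H789R2.FR

namespace Pool.Agent.H789R2.FR

open MeasureTheory Measure Set Metric Complex
open scoped ENNReal Pointwise RealInnerProductSpace

namespace Loc

theorem norm_phase (t : ℝ) : ‖Complex.exp (-((t : ℝ) : ℂ) * I)‖ = 1 := by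
  rw [← Complex.ofReal_neg]
  exact Complex.norm_exp_ofReal_mul_I _

theorem swap (μ ν : Measure ℝ) [IsFiniteMeasure μ] [IsFiniteMeasure ν] (f : ℝ → ℝ → ℂ)
    (hf : StronglyMeasurable (Function.uncurry f)) (M : ℝ) (hM : ∀ x y, ‖f x y‖ ≤ M) :
    ∫ x, ∫ y, f x y ∂ν ∂μ = ∫ y, ∫ x, f x y ∂μ ∂ν := by
  apply integral_integral_swap
  exact Integrable.of_bound hf.aestronglyMeasurable M (Filter.Eventually.of_forall fun p => hM p.1 p.2)

theorem pt_cont : Continuous (fun p : ℝ × ℝ => pt p.1 p.2) := by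
  unfold pt sc
  apply (PiLp.continuous_toLp 2 _).comp
  apply continuous_pi
  intro i
  fin_cases i <;> simp <;> fun_prop

theorem rot_cont : Continuous (fun p : E 3 × ℝ => rot (-p.2) p.1) := by
  unfold rot
  apply (PiLp.continuous_toLp 2 _).comp
  apply continuous_pi
  intro i
  fin_cases i <;> simp <;> fun_prop

theorem rot_pt (h c φ : ℝ) : rot (-h) (pt c φ) = pt c (φ - h) := by
  unfold rot pt
  ext i
  fin_cases i
  · simp [Real.cos_sub]; ring
  · simp [Real.sin_sub]; ring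
  · simp

theorem inner_cyl (r α z c φ : ℝ) :
    (⟪cyl r α z, pt c φ⟫ : ℝ) = r * Real.cos (φ - α) * sc c + z * c := by
  unfold cyl pt
  rw [PiLp.inner_apply, Fin.sum_univ_three]
  simp [Real.cos_sub]
  ring

theorem shift (f : ℝ → ℂ) (hper : Function.Periodic f (2 * Real.pi)) (t : ℝ) :
    ∫ φ in Ioo (-Real.pi) Real.pi, f φ = ∫ β in Ioo (-Real.pi) Real.pi, f (β + t) := by
  have hpi : -Real.pi ≤ Real.pi := by linarith [Real.pi_pos]
  rw [← integral_Ioc_eq_integral_Ioo, ← integral_Ioc_eq_integral_Ioo,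
    ← intervalIntegral.integral_of_le hpi, ← intervalIntegral.integral_of_le hpi]
  have e3 := hper.intervalIntegral_add_eq (-Real.pi) (-Real.pi + t)
  have a3 : -Real.pi + 2 * Real.pi = Real.pi := by ring
  have a4 : -Real.pi + t + 2 * Real.pi = Real.pi + t := by ring
  rw [a3, a4] at e3
  rw [e3, ← intervalIntegral.integral_comp_add_right f t]

/-- weight -/
noncomputable def wt (κ h : ℝ) : ℂ := ((Real.exp (-κ * (1 - Real.cos h)) : ℝ) : ℂ)

theorem wt_cont (κ : ℝ) : Continuous (wt κ) := by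
  unfold wt
  fun_prop

theorem wt_bound (κ : ℝ) (hκ : 0 ≤ κ) (h : ℝ) : ‖wt κ h‖ ≤ 1 := by
  unfold wt
  rw [Complex.norm_real, Real.norm_of_nonneg (Real.exp_pos _).le]
  apply Real.exp_le_one_iff.mpr
  have := Real.cos_le_one h
  nlinarith

/-- inner kernel -/
noncomputable def Kh (κ ν θ : ℝ) : ℂ := ∫ h in Ioo (-Real.pi) Real.pi,
  wt κ h * Complex.exp (-((ν * Real.cos (θ + h) : ℝ) : ℂ) * I)

/-- the density after the average -/
noncomputable def Qc (κ : ℝ) (G : E 3 → ℂ) (r α c : ℝ) : ℂ :=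
  (kz κ : ℂ)⁻¹ * ∫ g in Ioo (-Real.pi) Real.pi, G (pt c g) * Kh κ (r * sc c) (g - α)

theorem Av_meas (κ : ℝ) (G : E 3 → ℂ) (hG : Measurable G) : Measurable (Av κ G) := by
  unfold Av
  apply Measurable.const_mul
  apply StronglyMeasurable.measurable
  have h1 : StronglyMeasurable (fun p : E 3 × ℝ =>
      ((Real.exp (-κ * (1 - Real.cos p.2)) : ℝ) : ℂ) * G (rot (-p.2) p.1)) := by
    apply Measurable.stronglyMeasurable
    apply Measurable.mul
    · apply Continuous.measurable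
      fun_prop
    · exact hG.comp rot_cont.measurable
  exact h1.integral_prod_right'

theorem Av_bd (κ : ℝ) (hκ : 1 ≤ κ) (G : E 3 → ℂ) (M : ℝ) (hM : ∀ x, ‖G x‖ ≤ M) (x : E 3) :
    ‖Av κ G x‖ ≤ (kz κ)⁻¹ * (M * (Real.pi - -Real.pi)) := by
  obtain ⟨hkz, _⟩ := kz_inv κ hκ
  unfold Av
  rw [norm_mul, norm_inv, Complex.norm_real, Real.norm_of_nonneg hkz.le]
  apply mul_le_mul_of_nonneg_left _ (inv_nonneg.mpr hkz.le)
  have h1 : ‖∫ h in Ioo (-Real.pi) Real.pi,
      ((Real.exp (-κ * (1 - Real.cos h)) : ℝ) : ℂ) * G (rot (-h) x)‖ ≤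
      M * (volume.real (Ioo (-Real.pi) Real.pi)) := by
    apply norm_setIntegral_le_of_norm_le_const
    · simp
    · intro h _
      rw [norm_mul]
      calc _ ≤ 1 * M := mul_le_mul (wt_bound κ (by linarith) h) (hM _) (norm_nonneg _) zero_le_one
        _ = M := one_mul M
  rwa [Real.volume_real_Ioo_of_le (by linarith [Real.pi_pos])] at h1

theorem rep_c (κ : ℝ) (hκ : 0 ≤ κ) (G : E 3 → ℂ) (hG : Measurable G) (M : ℝ)
    (hM : ∀ x, ‖G x‖ ≤ M) (r α z c : ℝ) :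
    ∫ φ in Ioo (-Real.pi) Real.pi,
      Complex.exp (-((r * Real.cos (φ - α) * sc c + z * c : ℝ) : ℂ) * I) * Av κ G (pt c φ) =
      Complex.exp (-((z * c : ℝ) : ℂ) * I) * Qc κ G r α c := by
  have hM0 : 0 ≤ M := (norm_nonneg _).trans (hM 0)
  set Φ : ℝ → ℝ → ℂ := fun φ h =>
    Complex.exp (-((r * Real.cos (φ - α) * sc c + z * c : ℝ) : ℂ) * I) *
      (wt κ h * G (pt c (φ - h))) with hΦ
  set Ψ : ℝ → ℝ → ℂ := fun g h =>
    Complex.exp (-((r * Real.cos (g + h - α) * sc c + z * c : ℝ) : ℂ) * I) *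
      (wt κ h * G (pt c g)) with hΨ
  have hΦm : StronglyMeasurable (Function.uncurry Φ) := by
    apply Measurable.stronglyMeasurable
    simp only [hΦ, Function.uncurry_def]
    apply Measurable.mul
    · apply Continuous.measurable
      fun_prop
    · apply Measurable.mul
      · exact ((wt_cont κ).comp continuous_snd).measurable
      · exact hG.comp (pt_cont.comp
          (by fun_prop : Continuous fun p : ℝ × ℝ => (c, p.1 - p.2))).measurable
  have hΨm : StronglyMeasurable (Function.uncurry Ψ) := by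
    apply Measurable.stronglyMeasurable
    simp only [hΨ, Function.uncurry_def]
    apply Measurable.mul
    · apply Continuous.measurable
      fun_prop
    · apply Measurable.mul
      · exact ((wt_cont κ).comp continuous_snd).measurable
      · exact hG.comp (pt_cont.comp
          (by fun_prop : Continuous fun p : ℝ × ℝ => (c, p.1))).measurable
  have hΦb : ∀ x y, ‖Φ x y‖ ≤ M := by
    intro x y
    simp only [hΦ]
    rw [norm_mul, norm_phase, one_mul, norm_mul]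
    calc _ ≤ 1 * M := mul_le_mul (wt_bound κ hκ y) (hM _) (norm_nonneg _) zero_le_one
      _ = M := one_mul M
  have hΨb : ∀ x y, ‖Ψ x y‖ ≤ M := by
    intro x y
    simp only [hΨ]
    rw [norm_mul, norm_phase, one_mul, norm_mul]
    calc _ ≤ 1 * M := mul_le_mul (wt_bound κ hκ y) (hM _) (norm_nonneg _) zero_le_one
      _ = M := one_mul M
  have h1 : ∀ φ : ℝ, Complex.exp (-((r * Real.cos (φ - α) * sc c + z * c : ℝ) : ℂ) * I) *
      Av κ G (pt c φ) = (kz κ : ℂ)⁻¹ * ∫ h in Ioo (-Real.pi) Real.pi, Φ φ h := by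
    intro φ
    simp only [hΦ]
    rw [integral_const_mul]
    unfold Av
    simp only [rot_pt]
    unfold wt
    ring
  have h2 : ∀ h : ℝ, ∫ φ in Ioo (-Real.pi) Real.pi, Φ φ h =
      ∫ g in Ioo (-Real.pi) Real.pi, Ψ g h := by
    intro h
    have hper : Function.Periodic (fun φ => Φ φ h) (2 * Real.pi) := by
      intro φ
      simp only [hΦ, pt]
      have a1 : φ + 2 * Real.pi - α = (φ - α) + 2 * Real.pi := by ring
      have a2 : φ + 2 * Real.pi - h = (φ - h) + 2 * Real.pi := by ring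
      rw [a1, a2, Real.cos_add_two_pi, Real.cos_add_two_pi, Real.sin_add_two_pi]
    rw [shift _ hper h]
    apply integral_congr_ae
    filter_upwards with g
    simp only [hΦ, hΨ]
    rw [show g + h - h = g by ring]
  simp only [h1]
  rw [integral_const_mul, swap _ _ Φ hΦm M hΦb]
  simp only [h2]
  rw [← swap _ _ Ψ hΨm M hΨb]
  unfold Qc
  rw [mul_left_comm]
  congr 1
  rw [← integral_const_mul]
  apply integral_congr_ae
  filter_upwards with g
  simp only [hΨ, Kh]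
  rw [mul_left_comm, ← integral_const_mul, ← integral_const_mul]
  apply integral_congr_ae
  filter_upwards with h
  have e1 : Complex.exp (-((r * Real.cos (g + h - α) * sc c + z * c : ℝ) : ℂ) * I) =
      Complex.exp (-((z * c : ℝ) : ℂ) * I) *
        Complex.exp (-((r * sc c * Real.cos (g - α + h) : ℝ) : ℂ) * I) := by
    rw [← Complex.exp_add]
    congr 1
    rw [show g + h - α = g - α + h by ring]
    push_cast
    ring
  rw [e1]
  ring

theorem rep_T (κ : ℝ) (hκ : 1 ≤ κ) (G : E 3 → ℂ) (hG : Measurable G) (M : ℝ)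
    (hM : ∀ x, ‖G x‖ ≤ M) (r α z : ℝ) :
    T (Av κ G) (cyl r α z) = Ex (Qc κ G r α) 0 z := by
  unfold T
  rw [arch_int]
  · unfold Ex
    apply integral_congr_ae
    filter_upwards with c
    have h := rep_c κ (by linarith) G hG M hM r α z c
    simp only [inner_cyl]
    rw [h, zero_mul, zero_add]
  · apply Measurable.mul
    · apply Continuous.measurable
      fun_prop
    · exact Av_meas κ G hG
  · refine ⟨(kz κ)⁻¹ * (M * (Real.pi - -Real.pi)), fun x => ?_⟩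
    rw [norm_mul, norm_phase, one_mul]
    exact Av_bd κ hκ G M hM x

theorem Kh_meas (κ : ℝ) : StronglyMeasurable (fun p : ℝ × ℝ => Kh κ p.1 p.2) := by
  unfold Kh
  have h1 : StronglyMeasurable (fun p : (ℝ × ℝ) × ℝ =>
      wt κ p.2 * Complex.exp (-((p.1.1 * Real.cos (p.1.2 + p.2) : ℝ) : ℂ) * I)) := by
    apply Continuous.stronglyMeasurable
    apply Continuous.mul
    · exact (wt_cont κ).comp continuous_snd
    · fun_prop
  exact h1.integral_prod_right'

theorem Qc_meas (κ : ℝ) (G : E 3 → ℂ) (hG : Measurable G) (r α : ℝ) :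
    Measurable (Qc κ G r α) := by
  unfold Qc
  apply Measurable.const_mul
  apply StronglyMeasurable.measurable
  have hsc : Continuous sc := by unfold sc; fun_prop
  have h1 : StronglyMeasurable (fun p : ℝ × ℝ =>
      G (pt p.1 p.2) * Kh κ (r * sc p.1) (p.2 - α)) := by
    apply Measurable.stronglyMeasurable
    apply Measurable.mul
    · exact hG.comp pt_cont.measurable
    · exact (Kh_meas κ).measurable.comp
        (by fun_prop : Continuous fun p : ℝ × ℝ => (r * sc p.1, p.2 - α)).measurable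
  exact h1.integral_prod_right'

theorem Qc_bound (κ : ℝ) (hκ : 1 ≤ κ) (G : E 3 → ℂ) (M q : ℝ) (hM : ∀ x, ‖G x‖ ≤ M)
    (hq : 0 ≤ q) (r α c : ℝ)
    (h : ∀ g, G (pt c g) ≠ 0 → ‖Kh κ (r * sc c) (g - α)‖ ≤ q) :
    ‖Qc κ G r α c‖ ≤ κ ^ (1 / 2 : ℝ) * (M * q * (2 * Real.pi)) := by
  obtain ⟨hkz, hkz'⟩ := kz_inv κ hκ
  have hM0 : 0 ≤ M := (norm_nonneg _).trans (hM 0)
  unfold Qc
  rw [norm_mul, norm_inv, Complex.norm_real, Real.norm_of_nonneg hkz.le]
  have h1 : ‖∫ g in Ioo (-Real.pi) Real.pi, G (pt c g) * Kh κ (r * sc c) (g - α)‖ ≤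
      M * q * (volume.real (Ioo (-Real.pi) Real.pi)) := by
    apply norm_setIntegral_le_of_norm_le_const
    · simp
    · intro g _
      rw [norm_mul]
      by_cases hg : G (pt c g) = 0
      · rw [hg, norm_zero, zero_mul]; positivity
      · exact mul_le_mul (hM _) (h g hg) (norm_nonneg _) hM0
  rw [Real.volume_real_Ioo_of_le (by linarith [Real.pi_pos]),
    show Real.pi - -Real.pi = 2 * Real.pi by ring] at h1
  exact mul_le_mul hkz' h1 (norm_nonneg _) (Real.rpow_nonneg (by linarith) _)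


theorem T_meas (g : E 3 → ℂ) (hg : Measurable g) : Measurable (T g) := by
  have := sg_finite 3
  apply StronglyMeasurable.measurable
  have h : StronglyMeasurable (fun p : E 3 × E 3 =>
      Complex.exp (-((⟪p.1, p.2⟫ : ℝ) : ℂ) * I) * g p.2) := by
    apply Measurable.stronglyMeasurable
    apply Measurable.mul
    · apply Continuous.measurable
      fun_prop
    · exact hg.comp measurable_snd
  exact h.integral_prod_right'

theorem sin_tri (u v w W : ℝ) (h1 : 2 * W < |Real.sin (u - w)|) (h2 : |Real.sin (v - w)| ≤ W) :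
    W ≤ |Real.sin (u - v)| := by
  have e : Real.sin (u - w) = Real.sin (u - v) * Real.cos (v - w) +
      Real.cos (u - v) * Real.sin (v - w) := by
    rw [← Real.sin_add]
    congr 1
    ring
  have h3 : |Real.sin (u - w)| ≤ |Real.sin (u - v)| + |Real.sin (v - w)| := by
    rw [e]
    refine (abs_add_le _ _).trans ?_
    rw [abs_mul, abs_mul]
    apply add_le_add
    · calc _ ≤ |Real.sin (u - v)| * 1 :=
            mul_le_mul_of_nonneg_left (Real.abs_cos_le_one _) (abs_nonneg _)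
        _ = _ := mul_one _
    · calc _ ≤ 1 * |Real.sin (v - w)| :=
            mul_le_mul_of_nonneg_right (Real.abs_cos_le_one _) (abs_nonneg _)
        _ = _ := one_mul _
  linarith

theorem cyl_St (r α z a W : ℝ) (hr : 0 < r) (h : cyl r α z ∈ St a W) :
    |Real.sin (α - a)| ≤ W := by
  have h1 : |cyl r α z 1 * Real.cos a - cyl r α z 0 * Real.sin a| ≤
      W * Real.sqrt (cyl r α z 0 ^ 2 + cyl r α z 1 ^ 2) := h
  have r0 : cyl r α z 0 = r * Real.cos α := by simp [cyl]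
  have r1 : cyl r α z 1 = r * Real.sin α := by simp [cyl]
  rw [r0, r1] at h1
  have e1 : (r * Real.cos α) ^ 2 + (r * Real.sin α) ^ 2 = r ^ 2 := by
    calc _ = r ^ 2 * (Real.sin α ^ 2 + Real.cos α ^ 2) := by ring
      _ = r ^ 2 := by rw [Real.sin_sq_add_cos_sq, mul_one]
  have e2 : r * Real.sin α * Real.cos a - r * Real.cos α * Real.sin a = r * Real.sin (α - a) := by
    rw [Real.sin_sub]; ring
  rw [e1, e2, Real.sqrt_sq hr.le, abs_mul, abs_of_pos hr, mul_comm W r] at h1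
  exact le_of_mul_le_mul_left h1 hr

theorem pt_St (c g a W : ℝ) (hc : 0 < sc c) (h : pt c g ∉ St a W) :
    W < |Real.sin (g - a)| := by
  have h1 : ¬ (|pt c g 1 * Real.cos a - pt c g 0 * Real.sin a| ≤
      W * Real.sqrt (pt c g 0 ^ 2 + pt c g 1 ^ 2)) := h
  have r0 : pt c g 0 = sc c * Real.cos g := by simp [pt]
  have r1 : pt c g 1 = sc c * Real.sin g := by simp [pt]
  rw [r0, r1] at h1
  have e1 : (sc c * Real.cos g) ^ 2 + (sc c * Real.sin g) ^ 2 = sc c ^ 2 := by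
    calc _ = sc c ^ 2 * (Real.sin g ^ 2 + Real.cos g ^ 2) := by ring
      _ = sc c ^ 2 := by rw [Real.sin_sq_add_cos_sq, mul_one]
  have e2 : sc c * Real.sin g * Real.cos a - sc c * Real.cos g * Real.sin a =
      sc c * Real.sin (g - a) := by
    rw [Real.sin_sub]; ring
  rw [e1, e2, Real.sqrt_sq hc.le, abs_mul, abs_of_pos hc, mul_comm W (sc c), not_le] at h1
  exact lt_of_mul_lt_mul_left h1 hc.le

theorem shl_cyl (r α z ρ : ℝ) (hr : 0 < r) (hρ : 0 < ρ) (h : cyl r α z ∈ shl ρ) :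
    ρ ≤ r ∧ r < 2 * ρ := by
  obtain ⟨h1, h2⟩ : ρ ^ 2 ≤ cyl r α z 0 ^ 2 + cyl r α z 1 ^ 2 ∧
    cyl r α z 0 ^ 2 + cyl r α z 1 ^ 2 < (2 * ρ) ^ 2 := h
  have r0 : cyl r α z 0 = r * Real.cos α := by simp [cyl]
  have r1 : cyl r α z 1 = r * Real.sin α := by simp [cyl]
  rw [r0, r1] at h1 h2
  have e1 : (r * Real.cos α) ^ 2 + (r * Real.sin α) ^ 2 = r ^ 2 := by
    calc _ = r ^ 2 * (Real.sin α ^ 2 + Real.cos α ^ 2) := by ring
      _ = r ^ 2 := by rw [Real.sin_sq_add_cos_sq, mul_one]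
  rw [e1] at h1 h2
  exact ⟨le_of_sq_le_sq h1 hr.le, lt_of_pow_lt_pow_left₀ 2 (by positivity) h2⟩

theorem shl_meas (ρ : ℝ) : MeasurableSet (shl ρ) := by
  have h : Measurable (fun x : E 3 => x 0 ^ 2 + x 1 ^ 2) := by
    apply Continuous.measurable
    fun_prop
  exact (measurableSet_le measurable_const h).inter (measurableSet_lt h measurable_const)

theorem St_meas (a w : ℝ) : MeasurableSet (St a w) := by
  have h : Measurable (fun x : E 3 => |x 1 * Real.cos a - x 0 * Real.sin a|) := by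
    apply Continuous.measurable
    fun_prop
  have h' : Measurable (fun x : E 3 => w * Real.sqrt (x 0 ^ 2 + x 1 ^ 2)) := by
    apply Continuous.measurable
    fun_prop
  exact measurableSet_le h h'

/-- bound of the kernel in the far region -/
theorem Kh_far (ε N κ W ν θ : ℝ) (hN : 1 ≤ N) (hκ : N ≤ κ)
    (hW : W = N ^ ε * κ ^ (1 / 2 : ℝ) / N) (h1 : N / 2 ≤ ν) (h2 : ν ≤ 2 * N)
    (h3 : W ≤ |Real.sin θ|) :
    ‖Kh κ ν θ‖ ≤ 2 * Real.pi * Real.exp (-(1 / 40) * N ^ (2 * ε)) := by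
  have hk : 0 < κ := by linarith
  have hN0 : 0 < N := by linarith
  obtain ⟨hW0, hW2⟩ := W_sq ε N κ W hN hκ hW
  refine (ker_bound κ (by linarith) ν θ (by rw [abs_of_pos (by linarith)]; linarith)).trans ?_
  apply mul_le_mul_of_nonneg_left _ (by positivity)
  apply Real.exp_le_exp.mpr
  have h4 : (N / 2) ^ 2 ≤ ν ^ 2 := pow_le_pow_left₀ (by positivity) h1 2
  have h5 : W ^ 2 ≤ Real.sin θ ^ 2 := by
    rw [← sq_abs (Real.sin θ)]
    exact pow_le_pow_left₀ hW0.le h3 2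
  have h6 : (N / 2) ^ 2 * W ^ 2 ≤ ν ^ 2 * Real.sin θ ^ 2 :=
    mul_le_mul h4 h5 (by positivity) (by positivity)
  have h7 : (N / 2) ^ 2 * W ^ 2 = N ^ (2 * ε) * κ / 4 := by
    rw [hW2]
    field_simp
    norm_num
  rw [h7] at h6
  rw [neg_div, neg_mul, neg_le_neg_iff, le_div_iff₀ (by positivity)]
  linarith

end Loc

open Loc in
theorem far (ε : ℝ) (hε : 0 < ε) (m : ℝ) (hm : 0 < m) : ∃ C : ℝ, 0 < C ∧
    ∀ μ : ℝ, 0 < μ → μ ≤ 1 → ∀ ρ : ℝ, 1 ≤ ρ * μ → ∀ κ : ℝ, ρ * μ ≤ κ → κ ≤ (ρ * μ) ^ 2 →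
    ∀ W : ℝ, W = (ρ * μ) ^ ε * κ ^ (1 / 2 : ℝ) / (ρ * μ) → ∀ a : ℝ,
    ∀ G : E 3 → ℂ, Measurable G → ∀ M : ℝ, (∀ x, ‖G x‖ ≤ M) → (∀ x, x 2 ∉ band μ → G x = 0) →
    (∀ x ∈ St a (2 * W), G x = 0) →
    ∫⁻ x in shl ρ ∩ St a W, ENNReal.ofReal (‖T (Av κ G) x‖ ^ 4) ≤
      ENNReal.ofReal (C * M ^ 4 * μ ^ 4 * (ρ * μ) ^ (-m)) := by
  obtain ⟨C, hC, hdom⟩ := Loc.dom' ε hε 6 m (1 / 10) (by norm_num)
  refine ⟨64 * Real.pi ^ 2 * (4 * Real.pi ^ 2) ^ 4 * C, by positivity, ?_⟩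
  intro μ hμ hμ' ρ hρμ κ hκ hκ2 W hW a G hG M hM hs hfar
  obtain ⟨N, hN⟩ : ∃ N, N = ρ * μ := ⟨_, rfl⟩
  rw [← hN] at hρμ hκ hκ2 hW ⊢
  have hN0 : 0 < N := by linarith
  have hρ : 0 < ρ := by
    by_contra h
    have : ρ * μ ≤ 0 := mul_nonpos_of_nonpos_of_nonneg (not_lt.mp h) hμ.le
    linarith
  have hκ1 : 1 ≤ κ := by linarith
  have hM0 : 0 ≤ M := (norm_nonneg _).trans (hM 0)
  have hsN : κ ^ (1 / 2 : ℝ) ≤ N := Loc.sqrt_kappa N κ hρμ hκ hκ2
  set q : ℝ := 2 * Real.pi * Real.exp (-(1 / 40) * N ^ (2 * ε)) with hq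
  have hq0 : 0 ≤ q := by positivity
  set B : ℝ := N * (M * q * (2 * Real.pi)) with hB
  have hB0 : 0 ≤ B := by positivity
  -- the bound for fixed r and α
  have hray : ∀ r α : ℝ, ρ ≤ r → r < 2 * ρ → |Real.sin (α - a)| ≤ W →
      ∫⁻ z : ℝ, ENNReal.ofReal (‖T (Av κ G) (cyl r α z)‖ ^ 4) ≤
        ENNReal.ofReal (16 * Real.pi * B ^ 4 * μ ^ 6) := by
    intro r α hr1 hr2 hα
    simp only [Loc.rep_T κ hκ1 G hG M hM r α]
    have hz : ∀ c, c ∉ band μ → ∀ g, G (pt c g) = 0 := by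
      intro c hc g
      apply hs
      simpa [pt] using hc
    apply ZlAux.Ex_four μ hμ hμ' (Qc κ G r α) (Qc_meas κ G hG r α) B
    · intro c
      by_cases hc : c ∈ band μ
      · refine (Qc_bound κ hκ1 G M q hM hq0 r α c ?_).trans ?_
        · intro g hg
          obtain ⟨_, hc2, hc3⟩ := hc
          have hsc0 : 0 < sc c := by linarith
          have hg1 : pt c g ∉ St a (2 * W) := fun h => hg (hfar _ h)
          have hg2 := pt_St c g a (2 * W) hsc0 hg1
          have hr0 : 0 < r := by linarith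
          apply Kh_far ε N κ W _ _ hρμ hκ hW
          · rw [hN]
            have : ρ * (μ / 2) ≤ r * sc c := mul_le_mul hr1 hc2.le (by positivity) hr0.le
            linarith
          · rw [hN]
            have : r * sc c ≤ (2 * ρ) * μ := mul_le_mul hr2.le hc3 hsc0.le (by positivity)
            linarith
          · exact sin_tri g α a W hg2 hα
        · exact mul_le_mul_of_nonneg_right hsN (by positivity)
      · have : Qc κ G r α c = 0 := by
          unfold Qc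
          simp only [hz c hc, zero_mul]
          simp
        rw [this, norm_zero]
        exact hB0
    · intro c hc
      unfold Qc
      simp only [hz c hc, zero_mul]
      simp
  -- cylindrical coordinates
  have hTm : Measurable (fun x : E 3 => ENNReal.ofReal (‖T (Av κ G) x‖ ^ 4)) :=
    (((T_meas _ (Loc.Av_meas κ G hG)).norm).pow_const 4).ennreal_ofReal
  have hSm : MeasurableSet (shl ρ ∩ St a W) := (shl_meas ρ).inter (St_meas a W)
  set Fi : E 3 → ℝ≥0∞ := (shl ρ ∩ St a W).indicator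
    (fun x : E 3 => ENNReal.ofReal (‖T (Av κ G) x‖ ^ 4)) with hFi
  have hin : ∀ r α : ℝ, r ∈ Ico ρ (2 * ρ) → ∫⁻ z : ℝ, ENNReal.ofReal r * Fi (cyl r α z) ≤
      ENNReal.ofReal (2 * ρ) * ENNReal.ofReal (16 * Real.pi * B ^ 4 * μ ^ 6) := by
    intro r α hrI
    have hr0 : 0 < r := hρ.trans_le hrI.1
    by_cases hα : |Real.sin (α - a)| ≤ W
    · have h1 : ∫⁻ z : ℝ, ENNReal.ofReal r * Fi (cyl r α z) ≤ ∫⁻ z : ℝ, ENNReal.ofReal (2 * ρ) *
          ENNReal.ofReal (‖T (Av κ G) (cyl r α z)‖ ^ 4) := by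
        apply lintegral_mono
        intro z
        simp only
        apply mul_le_mul' (ENNReal.ofReal_le_ofReal hrI.2.le)
        exact indicator_le_self _ _ _
      refine h1.trans ?_
      rw [lintegral_const_mul' _ _ ENNReal.ofReal_ne_top]
      exact mul_le_mul' le_rfl (hray r α hrI.1 hrI.2 hα)
    · have h0 : ∀ z : ℝ, Fi (cyl r α z) = 0 := by
        intro z
        apply indicator_of_notMem
        intro hmem
        exact hα (cyl_St r α z a W hr0 hmem.2)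
      simp only [h0, mul_zero, lintegral_zero]
      exact bot_le
  have hout : ∀ r : ℝ, 0 < r → ∫⁻ α in Ioo (-Real.pi) Real.pi, ∫⁻ z : ℝ,
      ENNReal.ofReal r * Fi (cyl r α z) ≤ (Ico ρ (2 * ρ)).indicator (fun _ =>
          ENNReal.ofReal (2 * ρ) * ENNReal.ofReal (16 * Real.pi * B ^ 4 * μ ^ 6) *
            ENNReal.ofReal (2 * Real.pi)) r := by
    intro r hr0
    by_cases hrI : r ∈ Ico ρ (2 * ρ)
    · rw [indicator_of_mem hrI]
      have h1 : ∫⁻ α in Ioo (-Real.pi) Real.pi, ∫⁻ z : ℝ, ENNReal.ofReal r * Fi (cyl r α z) ≤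
          ∫⁻ α in Ioo (-Real.pi) Real.pi,
            ENNReal.ofReal (2 * ρ) * ENNReal.ofReal (16 * Real.pi * B ^ 4 * μ ^ 6) := by
        apply lintegral_mono
        intro α
        exact hin r α hrI
      refine h1.trans ?_
      rw [setLIntegral_const, Real.volume_Ioo, show Real.pi - -Real.pi = 2 * Real.pi by ring]
    · rw [indicator_of_notMem hrI]
      have h0 : ∀ α z : ℝ, Fi (cyl r α z) = 0 := by
        intro α z
        apply indicator_of_notMem
        intro hmem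
        exact hrI (shl_cyl r α z ρ hr0 hρ hmem.1)
      simp only [h0, mul_zero, lintegral_zero]
      exact le_rfl
  rw [← lintegral_indicator hSm, ← hFi, cyl_lint _ (hTm.indicator hSm)]
  calc ∫⁻ r in Ioi (0 : ℝ), ∫⁻ α in Ioo (-Real.pi) Real.pi, ∫⁻ z : ℝ,
        ENNReal.ofReal r * Fi (cyl r α z)
      ≤ ∫⁻ r in Ioi (0 : ℝ), (Ico ρ (2 * ρ)).indicator (fun _ =>
          ENNReal.ofReal (2 * ρ) * ENNReal.ofReal (16 * Real.pi * B ^ 4 * μ ^ 6) *
            ENNReal.ofReal (2 * Real.pi)) r := by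
        apply setLIntegral_mono' measurableSet_Ioi
        intro r hr
        exact hout r hr
    _ ≤ (ENNReal.ofReal (2 * ρ) * ENNReal.ofReal (16 * Real.pi * B ^ 4 * μ ^ 6) *
            ENNReal.ofReal (2 * Real.pi)) * ENNReal.ofReal ρ := by
        refine (setLIntegral_le_lintegral _ _).trans ?_
        refine (lintegral_indicator_const_le _ _).trans ?_
        rw [Real.volume_Ico, show 2 * ρ - ρ = ρ by ring]
    _ = ENNReal.ofReal ((2 * ρ) * (16 * Real.pi * B ^ 4 * μ ^ 6) * (2 * Real.pi) * ρ) := by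
        rw [← ENNReal.ofReal_mul (by positivity), ← ENNReal.ofReal_mul (by positivity),
          ← ENNReal.ofReal_mul (by positivity)]
    _ ≤ ENNReal.ofReal (64 * Real.pi ^ 2 * (4 * Real.pi ^ 2) ^ 4 * C * M ^ 4 * μ ^ 4 *
          N ^ (-m)) := by
        apply ENNReal.ofReal_le_ofReal
        have h1 := hdom N hρμ
        have h2 : Real.exp (-(1 / 40) * N ^ (2 * ε)) ^ 4 =
            Real.exp (-(1 / 10) * N ^ (2 * ε)) := by
          rw [← Real.exp_nat_mul]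
          congr 1
          push_cast
          ring
        have h3 : N ^ (6 : ℝ) = N ^ 6 := by
          rw [← Real.rpow_natCast]
          norm_num
        rw [h3] at h1
        calc (2 * ρ) * (16 * Real.pi * B ^ 4 * μ ^ 6) * (2 * Real.pi) * ρ
            = 64 * Real.pi ^ 2 * (4 * Real.pi ^ 2) ^ 4 * M ^ 4 * μ ^ 4 * N ^ 4 * (ρ * μ) ^ 2 *
              Real.exp (-(1 / 40) * N ^ (2 * ε)) ^ 4 := by
              rw [hB, hq]; ring
          _ = 64 * Real.pi ^ 2 * (4 * Real.pi ^ 2) ^ 4 * M ^ 4 * μ ^ 4 *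
              (N ^ 6 * Real.exp (-(1 / 10) * N ^ (2 * ε))) := by
              rw [h2, ← hN]; ring
          _ ≤ 64 * Real.pi ^ 2 * (4 * Real.pi ^ 2) ^ 4 * M ^ 4 * μ ^ 4 * (C * N ^ (-m)) :=
              mul_le_mul_of_nonneg_left h1 (by positivity)
          _ = _ := by ring

end Pool.Agent.H789R2.FR
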