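import Mathlib
import Pool.Agent.H789R2.FR.Defs3
import Pool.Agent.H789R2.FR.E4
set_option autoImplicit false

/-! Task V4b: planar `L^4` bound for circles of radius `τ` (helper836). -/

namespace Pool.Agent.H789R2.FR

open MeasureTheory Measure Set Metric Complex
open scoped ENNReal Pointwise RealInnerProductSpace

namespace E4tw

theorem scale (τ : ℝ) (hτ : 0 < τ) (f : ℝ → ℝ≥0∞) :
    ∫⁻ x, f (τ * x) = ENNReal.ofReal τ⁻¹ * ∫⁻ x, f x := by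
  have h := lintegral_map_equiv (μ := (volume : Measure ℝ)) f
    (Homeomorph.mulLeft₀ τ hτ.ne').toMeasurableEquiv
  have e1 : ∀ x : ℝ, (Homeomorph.mulLeft₀ τ hτ.ne').toMeasurableEquiv x = τ * x := fun x => rfl
  simp only [e1] at h
  rw [← h]
  have e2 : map ((Homeomorph.mulLeft₀ τ hτ.ne').toMeasurableEquiv) (volume : Measure ℝ) =
      ENNReal.ofReal |τ⁻¹| • (volume : Measure ℝ) := by
    rw [← Real.map_volume_mul_left hτ.ne']
    rfl
  rw [e2, lintegral_smul_measure, abs_of_pos (inv_pos.2 hτ), smul_eq_mul]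

theorem sqrt_scale (τ c : ℝ) (hτ : 0 < τ) : Real.sqrt (τ ^ 2 - (τ * c) ^ 2) = τ * sc c := by
  have e : τ ^ 2 - (τ * c) ^ 2 = τ ^ 2 * (1 - c ^ 2) := by ring
  rw [e, Real.sqrt_mul (sq_nonneg τ), Real.sqrt_sq hτ.le]
  rfl

theorem inner_eq (τ : ℝ) (hτ : 0 < τ) (b : ℝ → ℂ) (hs : ∀ c, b c ≠ 0 → |c| < τ) (y z : ℝ) :
    ∫ c : ℝ, Complex.exp (-((y * Real.sqrt (τ ^ 2 - c ^ 2) + z * c : ℝ) : ℂ) * I) * b c =
      (τ : ℂ) * Ex (fun c => b (τ * c)) (τ * y) (τ * z) := by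
  set F : ℝ → ℂ := fun c =>
    Complex.exp (-((y * Real.sqrt (τ ^ 2 - c ^ 2) + z * c : ℝ) : ℂ) * I) * b c with hF
  have h1 := Measure.integral_comp_mul_left F τ
  rw [abs_of_pos (inv_pos.2 hτ)] at h1
  have h2 : ∫ c : ℝ, F c = (τ : ℂ) * ∫ x : ℝ, F (τ * x) := by
    rw [h1, Complex.real_smul]
    push_cast
    rw [← mul_assoc, mul_inv_cancel₀ (by exact_mod_cast hτ.ne'), one_mul]
  rw [h2]
  congr 1
  unfold Ex
  rw [← setIntegral_eq_integral_of_forall_compl_eq_zero (s := Ioo (-1 : ℝ) 1)]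
  · refine integral_congr_ae (Filter.Eventually.of_forall fun x => ?_)
    simp only [hF]
    rw [sqrt_scale τ x hτ]
    congr 3
    push_cast
    ring
  · intro x hx
    simp only [hF]
    have : b (τ * x) = 0 := by
      by_contra h
      have h3 := hs _ h
      rw [abs_mul, abs_of_pos hτ] at h3
      have h4 : |x| < 1 := by
        by_contra h5
        push Not at h5
        nlinarith
      exact hx (abs_lt.1 h4)
    rw [this, mul_zero]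

theorem outer_le (τ : ℝ) (hτ : 0 < τ) (hτ1 : τ ≤ 1) (b : ℝ → ℂ) (hs : ∀ c, b c ≠ 0 → |c| < τ)
    (Y : ℝ) (hY : 0 < Y) :
    ∫⁻ y in Icc (-Y) Y, ∫⁻ z : ℝ, ENNReal.ofReal (‖∫ c : ℝ,
      Complex.exp (-((y * Real.sqrt (τ ^ 2 - c ^ 2) + z * c : ℝ) : ℂ) * I) * b c‖ ^ 4) ≤
      ENNReal.ofReal (τ ^ 2) * ∫⁻ y in Icc (-(3 * Y)) (3 * Y), ∫⁻ z : ℝ,
        ENNReal.ofReal (‖Ex (fun c => b (τ * c)) y z‖ ^ 4) := by
  set b' : ℝ → ℂ := fun c => b (τ * c) with hb'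
  set g : ℝ → ℝ≥0∞ := fun y => ∫⁻ z : ℝ, ENNReal.ofReal (‖Ex b' y z‖ ^ 4) with hg
  have h1 : ∀ y, ∫⁻ z : ℝ, ENNReal.ofReal (‖∫ c : ℝ,
      Complex.exp (-((y * Real.sqrt (τ ^ 2 - c ^ 2) + z * c : ℝ) : ℂ) * I) * b c‖ ^ 4) =
      ENNReal.ofReal (τ ^ 3) * g (τ * y) := by
    intro y
    have e1 : ∀ z, ENNReal.ofReal (‖∫ c : ℝ,
      Complex.exp (-((y * Real.sqrt (τ ^ 2 - c ^ 2) + z * c : ℝ) : ℂ) * I) * b c‖ ^ 4) =
        ENNReal.ofReal (τ ^ 4) * ENNReal.ofReal (‖Ex b' (τ * y) (τ * z)‖ ^ 4) := by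
      intro z
      rw [inner_eq τ hτ b hs y z, norm_mul, Complex.norm_real, Real.norm_eq_abs, abs_of_pos hτ,
        mul_pow, ENNReal.ofReal_mul (by positivity)]
    simp_rw [e1]
    rw [lintegral_const_mul' _ _ ENNReal.ofReal_ne_top,
      scale τ hτ (fun z => ENNReal.ofReal (‖Ex b' (τ * y) z‖ ^ 4)), ← mul_assoc,
      ← ENNReal.ofReal_mul (by positivity)]
    congr 2
    field_simp
  simp_rw [h1]
  rw [lintegral_const_mul' _ _ ENNReal.ofReal_ne_top]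
  have h2 : ∫⁻ y in Icc (-Y) Y, g (τ * y) ≤
      ENNReal.ofReal τ⁻¹ * ∫⁻ y in Icc (-(3 * Y)) (3 * Y), g y := by
    rw [← lintegral_indicator measurableSet_Icc, ← lintegral_indicator measurableSet_Icc,
      ← scale τ hτ]
    refine lintegral_mono fun y => ?_
    simp only
    by_cases hy : y ∈ Icc (-Y) Y
    · have hy' : τ * y ∈ Icc (-(3 * Y)) (3 * Y) := by
        have h3 := abs_le.2 ⟨hy.1, hy.2⟩
        have h4 : |τ * y| ≤ 3 * Y := by
          rw [abs_mul, abs_of_pos hτ]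
          nlinarith [abs_nonneg y]
        exact abs_le.1 h4
      rw [indicator_of_mem hy, indicator_of_mem hy']
    · rw [indicator_of_notMem hy]
      exact zero_le
  calc _ ≤ ENNReal.ofReal (τ ^ 3) * (ENNReal.ofReal τ⁻¹ *
        ∫⁻ y in Icc (-(3 * Y)) (3 * Y), g y) := by gcongr
    _ = _ := by
      rw [← mul_assoc, ← ENNReal.ofReal_mul (by positivity)]
      congr 2
      field_simp

end E4tw

open E4w E4tw in
theorem E4t : ∃ C : ℝ, 0 < C ∧ ∀ μ : ℝ, 0 < μ → μ ≤ 1 → ∀ Y : ℝ, 1 ≤ Y * μ →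
    ∀ τ : ℝ, 4 / 5 ≤ τ → τ ≤ 1 → ∀ b : ℝ → ℂ, Measurable b → ∀ B : ℝ, (∀ c, ‖b c‖ ≤ B) →
    (∀ c, b c ≠ 0 → |c| < τ ∧ 2 / 5 * μ ≤ Real.sqrt (τ ^ 2 - c ^ 2) ∧
      Real.sqrt (τ ^ 2 - c ^ 2) ≤ μ) →
    ∫⁻ y in Icc (-Y) Y, ∫⁻ z : ℝ, ENNReal.ofReal (‖∫ c : ℝ,
      Complex.exp (-((y * Real.sqrt (τ ^ 2 - c ^ 2) + z * c : ℝ) : ℂ) * I) * b c‖ ^ 4) ≤
      ENNReal.ofReal (C * B ^ 2 * μ ^ 3 * (1 + Real.log (Y * μ)) * ∫ c, ‖b c‖ ^ 2) := by
  obtain ⟨C, hC, h⟩ := E4r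
  refine ⟨125 * C, by positivity, ?_⟩
  intro μ hμ hμ1 Y hY τ hτ hτ1 b hb B hB hs
  have hτ0 : 0 < τ := by linarith
  have hY0 : 0 < Y := by
    by_contra hcon
    push Not at hcon
    nlinarith
  have hB0 : 0 ≤ B := (norm_nonneg _).trans (hB 0)
  have hlog0 : 0 ≤ Real.log (Y * μ) := Real.log_nonneg hY
  set b' : ℝ → ℂ := fun c => b (τ * c) with hb'
  have hb'm : Measurable b' := hb.comp (measurable_const_mul τ)
  have hb'B : ∀ c, ‖b' c‖ ≤ B := fun c => hB _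
  have hb's : ∀ c, b' c ≠ 0 → |c| < 1 ∧ 2 / 5 * μ ≤ sc c ∧ sc c ≤ 5 / 4 * μ := by
    intro c hc
    obtain ⟨h1, h2, h3⟩ := hs _ hc
    rw [sqrt_scale τ c hτ0] at h2 h3
    rw [abs_mul, abs_of_pos hτ0] at h1
    have hsc : 0 ≤ sc c := Real.sqrt_nonneg _
    refine ⟨?_, ?_, ?_⟩
    · by_contra h5
      push Not at h5
      nlinarith
    · nlinarith
    · nlinarith
  set μ1 := min 1 (5 / 4 * μ) with hμ1d
  have hμ1a : μ1 ≤ 1 := min_le_left _ _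
  have hμ1b : μ1 ≤ 5 / 4 * μ := min_le_right _ _
  have hμ1c : μ ≤ μ1 := le_min hμ1 (by linarith)
  have hμ10 : 0 < μ1 := lt_of_lt_of_le hμ hμ1c
  set b1 : ℝ → ℂ := (band μ1).indicator b' with hb1
  set b2 : ℝ → ℂ := (band μ1)ᶜ.indicator b' with hb2
  have hband : MeasurableSet (band μ1) := by
    have hscm := sc_meas
    have e1 : MeasurableSet {c : ℝ | |c| < 1} :=
      measurableSet_lt (f := fun c : ℝ => |c|) (by fun_prop) measurable_const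
    have e2 : MeasurableSet {c : ℝ | μ1 / 2 < sc c} := measurableSet_lt measurable_const hscm
    have e3 : MeasurableSet {c : ℝ | sc c ≤ μ1} := measurableSet_le hscm measurable_const
    exact e1.inter (e2.inter e3)
  have hb1m : Measurable b1 := hb'm.indicator hband
  have hb2m : Measurable b2 := hb'm.indicator hband.compl
  have hb1n : ∀ c, ‖b1 c‖ ≤ ‖b' c‖ := fun c => norm_indicator_le_norm_self _ _
  have hb2n : ∀ c, ‖b2 c‖ ≤ ‖b' c‖ := fun c => norm_indicator_le_norm_self _ _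
  have hsum : b' = fun c => b1 c + b2 c := by
    ext c
    by_cases hc : c ∈ band μ1
    · have hc' : c ∉ (band μ1)ᶜ := fun h => h hc
      rw [hb1, hb2, indicator_of_mem hc, indicator_of_notMem hc', add_zero]
    · have hc' : c ∈ (band μ1)ᶜ := hc
      rw [hb1, hb2, indicator_of_notMem hc, indicator_of_mem hc', zero_add]
  have hs1 : ∀ c, c ∉ band μ1 → b1 c = 0 := fun c hc => indicator_of_notMem hc _
  have hs2 : ∀ c, c ∉ band (μ1 / 2) → b2 c = 0 := by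
    intro c hc
    by_cases hc1 : c ∈ band μ1
    · exact indicator_of_notMem (show c ∉ (band μ1)ᶜ from fun h => h hc1) _
    · rw [hb2, indicator_of_mem (show c ∈ (band μ1)ᶜ from hc1)]
      by_contra h0
      obtain ⟨h1, h2, h3⟩ := hb's c h0
      have h4 : sc c ≤ 1 := by
        unfold sc
        exact Real.sqrt_le_iff.2 ⟨zero_le_one, by nlinarith [sq_nonneg c]⟩
      have h5 : sc c ≤ μ1 := le_min h4 h3
      have h6 : sc c ≤ μ1 / 2 := by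
        by_contra h7
        push Not at h7
        exact hc1 ⟨h1, h7, h5⟩
      exact hc ⟨h1, by linarith, h6⟩
  have hbi : ∀ c, c ∉ Icc (-1 : ℝ) 1 → b' c = 0 := by
    intro c hc
    by_contra h0
    have := abs_lt.1 (hb's c h0).1
    exact hc ⟨this.1.le, this.2.le⟩
  have hbI := int_of_bdd b' hb'm B hb'B hbi
  have hb1i : Integrable b1 := hbI.indicator hband
  have hb2i : Integrable b2 := hbI.indicator hband.compl
  have hsqI : ∀ f : ℝ → ℂ, Measurable f → (∀ c, ‖f c‖ ≤ ‖b' c‖) → Integrable (fun c => ‖f c‖ ^ 2) ∧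
      ∫ c, ‖f c‖ ^ 2 ≤ τ⁻¹ * ∫ c, ‖b c‖ ^ 2 := by
    have hI : Integrable (fun c => ‖b' c‖ ^ 2) := by
      apply Integrable.mono' (hbI.norm.const_mul B) (hb'm.norm.pow_const 2).aestronglyMeasurable
      refine Filter.Eventually.of_forall (fun c => ?_)
      rw [Real.norm_eq_abs, abs_pow, abs_norm, sq]
      exact mul_le_mul_of_nonneg_right (hb'B c) (norm_nonneg _)
    have he : ∫ c, ‖b' c‖ ^ 2 = τ⁻¹ * ∫ c, ‖b c‖ ^ 2 := by
      have := Measure.integral_comp_mul_left (fun c => ‖b c‖ ^ 2) τ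
      rw [abs_of_pos (inv_pos.2 hτ0), smul_eq_mul] at this
      exact this
    intro f hf hfb
    have hfI : Integrable (fun c => ‖f c‖ ^ 2) := by
      apply Integrable.mono' hI (hf.norm.pow_const 2).aestronglyMeasurable
      refine Filter.Eventually.of_forall (fun c => ?_)
      rw [Real.norm_eq_abs, abs_pow, abs_norm]
      exact pow_le_pow_left₀ (norm_nonneg _) (hfb c) 2
    refine ⟨hfI, ?_⟩
    rw [← he]
    exact integral_mono hfI hI fun c => pow_le_pow_left₀ (norm_nonneg _) (hfb c) 2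
  obtain ⟨-, hA1⟩ := hsqI b1 hb1m hb1n
  obtain ⟨-, hA2⟩ := hsqI b2 hb2m hb2n
  have hI0 : 0 ≤ ∫ c, ‖b c‖ ^ 2 := integral_nonneg (fun c => sq_nonneg _)
  have hYμ : 1 ≤ 3 * Y * μ1 := by nlinarith
  have hYμ' : 1 ≤ 3 * Y * (μ1 / 2) := by nlinarith
  have hlog : Real.log (3 * Y * μ1) ≤ 3 + Real.log (Y * μ) := by
    have h1 : 3 * Y * μ1 ≤ 15 / 4 * (Y * μ) := by nlinarith
    have h2 : Real.log (15 / 4) ≤ 15 / 4 - 1 := Real.log_le_sub_one_of_pos (by norm_num)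
    calc Real.log (3 * Y * μ1) ≤ Real.log (15 / 4 * (Y * μ)) := Real.log_le_log (by linarith) h1
      _ = Real.log (15 / 4) + Real.log (Y * μ) := Real.log_mul (by norm_num) (by positivity)
      _ ≤ _ := by linarith
  have hlog' : Real.log (3 * Y * (μ1 / 2)) ≤ 3 + Real.log (Y * μ) :=
    (Real.log_le_log (by linarith) (by nlinarith)).trans hlog
  have H1 := h μ1 hμ10 hμ1a (3 * Y) hYμ b1 hb1m B (fun c => (hb1n c).trans (hb'B c)) hs1
  have H2 := h (μ1 / 2) (by linarith) (by linarith) (3 * Y) hYμ' b2 hb2m B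
    (fun c => (hb2n c).trans (hb'B c)) hs2
  set J := ∫ c, ‖b c‖ ^ 2 with hJ
  set Λ := 1 + Real.log (Y * μ) with hΛ
  have hΛ1 : 1 ≤ Λ := by linarith
  have hμ3 : μ1 ^ 3 ≤ 125 / 64 * μ ^ 3 := by
    calc μ1 ^ 3 ≤ (5 / 4 * μ) ^ 3 := pow_le_pow_left₀ hμ10.le hμ1b 3
      _ = _ := by ring
  have hμ3' : (μ1 / 2) ^ 3 ≤ 125 / 64 * μ ^ 3 :=
    (pow_le_pow_left₀ (by linarith) (by linarith) 3).trans hμ3
  have bound : ∀ (ν lg I' : ℝ), 0 ≤ ν → ν ≤ 125 / 64 * μ ^ 3 → 0 ≤ lg →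
      lg ≤ 3 + Real.log (Y * μ) → 0 ≤ I' → I' ≤ τ⁻¹ * J →
      C * B ^ 2 * ν * (1 + lg) * I' ≤
        C * B ^ 2 * (125 / 64 * μ ^ 3) * (4 * Λ) * (τ⁻¹ * J) := by
    intro ν lg I' h1 h2 h3 h4 h5 h6
    have : 1 + lg ≤ 4 * Λ := by rw [hΛ]; linarith
    gcongr
  have E1 : C * B ^ 2 * μ1 ^ 3 * (1 + Real.log (3 * Y * μ1)) * ∫ c, ‖b1 c‖ ^ 2 ≤
      C * B ^ 2 * (125 / 64 * μ ^ 3) * (4 * Λ) * (τ⁻¹ * J) :=
    bound _ _ _ (by positivity) hμ3 (Real.log_nonneg hYμ) hlog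
      (integral_nonneg fun c => sq_nonneg _) hA1
  have E2 : C * B ^ 2 * (μ1 / 2) ^ 3 * (1 + Real.log (3 * Y * (μ1 / 2))) * ∫ c, ‖b2 c‖ ^ 2 ≤
      C * B ^ 2 * (125 / 64 * μ ^ 3) * (4 * Λ) * (τ⁻¹ * J) :=
    bound _ _ _ (by positivity) hμ3' (Real.log_nonneg hYμ') hlog'
      (integral_nonneg fun c => sq_nonneg _) hA2
  set Q := C * B ^ 2 * (125 / 64 * μ ^ 3) * (4 * Λ) * (τ⁻¹ * J) with hQ
  have hQ0 : 0 ≤ Q := by positivity
  have H1' := H1.trans (ENNReal.ofReal_le_ofReal E1)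
  have H2' := H2.trans (ENNReal.ofReal_le_ofReal E2)
  refine (outer_le τ hτ0 hτ1 b (fun c hc => (hs c hc).1) Y hY0).trans ?_
  change ENNReal.ofReal (τ ^ 2) * ∫⁻ y in Icc (-(3 * Y)) (3 * Y), ∫⁻ z : ℝ,
        ENNReal.ofReal (‖Ex b' y z‖ ^ 4) ≤ _
  have H3 := split_lint b1 b2 b' hb1m hb1i hb2i hsum (3 * Y)
  have H4 : ∫⁻ y in Icc (-(3 * Y)) (3 * Y), ∫⁻ z : ℝ, ENNReal.ofReal (‖Ex b' y z‖ ^ 4) ≤
      ENNReal.ofReal (16 * Q) := by
    refine H3.trans ?_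
    refine (add_le_add (mul_le_mul_right H1' _) (mul_le_mul_right H2' _)).trans ?_
    rw [← ENNReal.ofReal_mul (by norm_num), ← ENNReal.ofReal_add (by positivity) (by positivity)]
    apply ENNReal.ofReal_le_ofReal
    linarith
  calc _ ≤ ENNReal.ofReal (τ ^ 2) * ENNReal.ofReal (16 * Q) := by gcongr
    _ = ENNReal.ofReal (τ ^ 2 * (16 * Q)) := (ENNReal.ofReal_mul (by positivity)).symm
    _ ≤ _ := by
      apply ENNReal.ofReal_le_ofReal
      rw [hQ]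
      have e : τ ^ 2 * (16 * (C * B ^ 2 * (125 / 64 * μ ^ 3) * (4 * Λ) * (τ⁻¹ * J))) =
          τ * (125 * C * B ^ 2 * μ ^ 3 * Λ * J) := by
        field_simp
        ring
      rw [e]
      exact mul_le_of_le_one_left (by positivity) hτ1

end Pool.Agent.H789R2.FR
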