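import Mathlib
import Pool.Agent.H789R2.FR.Defs6
import Pool.Agent.H789R2.FR.Arch
import Pool.Agent.H789R2.FR.Sph
set_option autoImplicit false

/-! Rotations and graph coordinates on the half sphere (auxiliary file for `Strip.lean`). -/

namespace Pool.Agent.H789R2.FR

open MeasureTheory Measure Set Metric Complex
open scoped ENNReal Pointwise RealInnerProductSpace

namespace V4a

/-! ### Rotations -/

theorem rot_add (h : ℝ) (x y : E 3) : rot h (x + y) = rot h x + rot h y := by
  unfold rot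
  ext i
  fin_cases i <;> simp <;> ring

theorem rot_smul (h t : ℝ) (x : E 3) : rot h (t • x) = t • rot h x := by
  unfold rot
  ext i
  fin_cases i <;> simp <;> ring

theorem rot_rot (a b : ℝ) (x : E 3) : rot a (rot b x) = rot (a + b) x := by
  unfold rot
  ext i
  fin_cases i
  · simp [Real.cos_add, Real.sin_add]; ring
  · simp [Real.cos_add, Real.sin_add]; ring
  · simp

theorem rot_zero (x : E 3) : rot 0 x = x := by
  unfold rot
  ext i
  fin_cases i <;> simp

theorem rot_norm (a : ℝ) (x : E 3) : ‖rot a x‖ = ‖x‖ := by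
  rw [EuclideanSpace.norm_eq, EuclideanSpace.norm_eq]
  congr 1
  simp only [Fin.sum_univ_three, Real.norm_eq_abs, sq_abs, rot]
  have h := Real.sin_sq_add_cos_sq a
  have : (x 0 * Real.cos a - x 1 * Real.sin a) ^ 2 + (x 0 * Real.sin a + x 1 * Real.cos a) ^ 2 +
      x 2 ^ 2 = (x 0 ^ 2 + x 1 ^ 2) * (Real.sin a ^ 2 + Real.cos a ^ 2) + x 2 ^ 2 := by ring
  rw [h, mul_one] at this
  simpa using this

/-- Rotation about the third axis as a linear isometry. -/
noncomputable def rotL (a : ℝ) : E 3 ≃ₗᵢ[ℝ] E 3 where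
  toFun := rot a
  map_add' := rot_add a
  map_smul' := fun t x => rot_smul a t x
  invFun := rot (-a)
  left_inv := fun x => by rw [rot_rot, neg_add_cancel, rot_zero]
  right_inv := fun x => by rw [rot_rot, add_neg_cancel, rot_zero]
  norm_map' := fun x => rot_norm a x

theorem rotL_apply (a : ℝ) (x : E 3) : rotL a x = rot a x := rfl

theorem T_rot (a : ℝ) (H : E 3 → ℂ) (x : E 3) :
    T (fun y => H (rot a y)) x = T H (rot a x) := by
  unfold T
  have hmp := sg_inv (rotL a)
  have hemb : MeasurableEmbedding (rotL a) := (rotL a).toHomeomorph.measurableEmbedding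
  rw [← hmp.integral_comp hemb
    (fun w => Complex.exp (-((⟪rot a x, w⟫ : ℝ) : ℂ) * I) * H w)]
  congr 1
  ext w
  rw [← rotL_apply a x, (rotL a).inner_map_map, rotL_apply]

theorem lint_rot (a : ℝ) (F : E 3 → ℝ≥0∞) (ρ : ℝ) :
    ∫⁻ x in {x : E 3 | x 0 ^ 2 + x 1 ^ 2 < ρ}, F (rot a x) =
      ∫⁻ x in {x : E 3 | x 0 ^ 2 + x 1 ^ 2 < ρ}, F x := by
  have hmp : MeasurePreserving (rotL a) (volume : Measure (E 3)) volume :=
    (rotL a).measurePreserving
  have hemb : MeasurableEmbedding (rotL a) := (rotL a).toHomeomorph.measurableEmbedding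
  have h := hmp.setLIntegral_comp_preimage_emb hemb F {x : E 3 | x 0 ^ 2 + x 1 ^ 2 < ρ}
  rw [← h]
  congr 2
  ext x
  simp only [Set.mem_ofPred_eq, mem_preimage, rotL_apply, rot]
  have h := Real.sin_sq_add_cos_sq a
  have : (x 0 * Real.cos a - x 1 * Real.sin a) ^ 2 + (x 0 * Real.sin a + x 1 * Real.cos a) ^ 2 =
      (x 0 ^ 2 + x 1 ^ 2) * (Real.sin a ^ 2 + Real.cos a ^ 2) := by ring
  rw [h, mul_one] at this
  simp [this]

theorem int_rot (a : ℝ) (F : E 3 → ℝ) :
    ∫ x, F (rot a x) ∂(sg 3) = ∫ x, F x ∂(sg 3) := by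
  have hmp := sg_inv (rotL a)
  have hemb : MeasurableEmbedding (rotL a) := (rotL a).toHomeomorph.measurableEmbedding
  exact hmp.integral_comp hemb F

/-! ### Graph coordinates on the half sphere `x₀ > 0` -/

/-- Graph parametrisation. -/
noncomputable def P (η c : ℝ) : E 3 := !₂[Real.sqrt (1 - η ^ 2 - c ^ 2), η, c]

/-- Density of the surface measure. -/
noncomputable def dn (η c : ℝ) : ℝ :=
  if η ^ 2 + c ^ 2 < 1 then (Real.sqrt (1 - η ^ 2 - c ^ 2))⁻¹ else 0

theorem P_meas : Measurable fun p : ℝ × ℝ => P p.1 p.2 := by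
  unfold P
  exact measurable_vec3.comp
    ((Real.continuous_sqrt.measurable.comp (by fun_prop)).prodMk (measurable_fst.prodMk measurable_snd))

theorem dn_meas : Measurable fun p : ℝ × ℝ => dn p.1 p.2 := by
  unfold dn
  refine Measurable.ite ?_ ?_ measurable_const
  · exact measurableSet_lt (by fun_prop) measurable_const
  · exact (Real.continuous_sqrt.measurable.comp (by fun_prop)).inv

theorem dn_nonneg (η c : ℝ) : 0 ≤ dn η c := by
  unfold dn
  split_ifs
  · positivity
  · exact le_rfl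

theorem fib_lint (F : E 3 → ℝ≥0∞) (h0 : ∀ x : E 3, x 0 ≤ 0 → F x = 0) (c : ℝ)
    (hc : c ∈ Ioo (-1 : ℝ) 1) :
    ∫⁻ φ in Ioo (-Real.pi) Real.pi, F (pt c φ) = ∫⁻ η : ℝ, ENNReal.ofReal (dn η c) * F (P η c) := by
  have hpi := Real.pi_pos
  have hs2 : 0 < 1 - c ^ 2 := by nlinarith [hc.1, hc.2]
  set s := sc c with hs
  have hsp : 0 < s := Real.sqrt_pos.mpr hs2
  have hss : s ^ 2 = 1 - c ^ 2 := Real.sq_sqrt hs2.le
  -- restrict to |φ| < π/2
  have e1 : ∫⁻ φ in Ioo (-Real.pi) Real.pi, F (pt c φ) =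
      ∫⁻ φ in Ioo (-(Real.pi / 2)) (Real.pi / 2), F (pt c φ) := by
    rw [← lintegral_indicator measurableSet_Ioo, ← lintegral_indicator measurableSet_Ioo]
    apply lintegral_congr
    intro φ
    by_cases h1 : φ ∈ Ioo (-Real.pi) Real.pi
    · by_cases h2 : φ ∈ Ioo (-(Real.pi / 2)) (Real.pi / 2)
      · rw [indicator_of_mem h1, indicator_of_mem h2]
      · rw [indicator_of_mem h1, indicator_of_notMem h2]
        apply h0
        have hcos : Real.cos φ ≤ 0 := by
          simp only [mem_Ioo, not_and_or, not_lt] at h2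
          rcases h2 with h2 | h2
          · rw [← Real.cos_neg]
            apply Real.cos_nonpos_of_pi_div_two_le_of_le <;> linarith [h1.1]
          · apply Real.cos_nonpos_of_pi_div_two_le_of_le <;> linarith [h1.2]
        simp only [pt]
        exact mul_nonpos_of_nonneg_of_nonpos hsp.le hcos
    · have h2 : φ ∉ Ioo (-(Real.pi / 2)) (Real.pi / 2) := by
        intro h2
        exact h1 ⟨by linarith [h2.1], by linarith [h2.2]⟩
      rw [indicator_of_notMem h1, indicator_of_notMem h2]
  have e2 : ∫⁻ η : ℝ, ENNReal.ofReal (dn η c) * F (P η c) =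
      ∫⁻ η in Ioo (-s) s, ENNReal.ofReal (dn η c) * F (P η c) := by
    rw [← lintegral_indicator measurableSet_Ioo]
    apply lintegral_congr
    intro η
    by_cases h2 : η ∈ Ioo (-s) s
    · rw [indicator_of_mem h2]
    · rw [indicator_of_notMem h2]
      have : ¬ (η ^ 2 + c ^ 2 < 1) := by
        intro hlt
        have : η ^ 2 < s ^ 2 := by linarith
        exact h2 (abs_lt.mp (abs_lt_of_sq_lt_sq this hsp.le))
      rw [dn, if_neg this, ENNReal.ofReal_zero, zero_mul]
  have himg : (fun φ => s * Real.sin φ) '' Ioo (-(Real.pi / 2)) (Real.pi / 2) = Ioo (-s) s := by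
    ext v
    constructor
    · rintro ⟨t, ht, rfl⟩
      have h1 := Real.strictMonoOn_sin (show -(Real.pi / 2) ∈ Icc (-(Real.pi / 2)) (Real.pi / 2) from
        ⟨le_rfl, by linarith⟩) (show t ∈ Icc (-(Real.pi / 2)) (Real.pi / 2) from ⟨ht.1.le, ht.2.le⟩) ht.1
      have h2 := Real.strictMonoOn_sin (show t ∈ Icc (-(Real.pi / 2)) (Real.pi / 2) from
        ⟨ht.1.le, ht.2.le⟩) (show (Real.pi / 2) ∈ Icc (-(Real.pi / 2)) (Real.pi / 2) from
        ⟨by linarith, le_rfl⟩) ht.2
      rw [Real.sin_neg, Real.sin_pi_div_two] at h1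
      rw [Real.sin_pi_div_two] at h2
      constructor <;> simp only <;> nlinarith
    · intro hv
      refine ⟨Real.arcsin (v / s), ?_, ?_⟩
      · constructor
        · rw [Real.neg_pi_div_two_lt_arcsin, lt_div_iff₀ hsp]
          linarith [hv.1]
        · rw [Real.arcsin_lt_pi_div_two, div_lt_iff₀ hsp]
          linarith [hv.2]
      · simp only
        rw [Real.sin_arcsin]
        · field_simp
        · rw [le_div_iff₀ hsp]; linarith [hv.1]
        · rw [div_le_iff₀ hsp]; linarith [hv.2]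
  rw [e1, e2, ← himg, lintegral_image_eq_lintegral_abs_deriv_mul measurableSet_Ioo
    (f' := fun φ => s * Real.cos φ)]
  · apply setLIntegral_congr_fun measurableSet_Ioo
    intro φ hφ
    have hcos : 0 < Real.cos φ := Real.cos_pos_of_mem_Ioo hφ
    have hsc := Real.sin_sq_add_cos_sq φ
    have h1 : 1 - (s * Real.sin φ) ^ 2 - c ^ 2 = (s * Real.cos φ) ^ 2 := by
      have : (s * Real.cos φ) ^ 2 = s ^ 2 * (1 - Real.sin φ ^ 2) := by
        rw [mul_pow]; congr 1; linarith
      rw [this]
      have : s ^ 2 * (1 - Real.sin φ ^ 2) = s ^ 2 - (s * Real.sin φ) ^ 2 := by ring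
      rw [this, hss]; ring
    have h2 : Real.sqrt (1 - (s * Real.sin φ) ^ 2 - c ^ 2) = s * Real.cos φ := by
      rw [h1, Real.sqrt_sq (by positivity)]
    have h3 : (s * Real.sin φ) ^ 2 + c ^ 2 < 1 := by
      have : 0 < (s * Real.cos φ) ^ 2 := by positivity
      linarith
    have h4 : P (s * Real.sin φ) c = pt c φ := by
      unfold P pt
      rw [h2]
    simp only
    rw [dn, if_pos h3, h2, h4, ← mul_assoc, ← ENNReal.ofReal_mul (abs_nonneg _),
      abs_of_pos (by positivity), mul_inv_cancel₀ (by positivity), ENNReal.ofReal_one, one_mul]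
  · intro φ _
    exact ((Real.hasDerivAt_sin φ).const_mul s).hasDerivWithinAt
  · intro x hx y hy hxy
    have := mul_left_cancel₀ hsp.ne' hxy
    exact Real.injOn_sin ⟨hx.1.le, hx.2.le⟩ ⟨hy.1.le, hy.2.le⟩ this

theorem graph_lint (F : E 3 → ℝ≥0∞) (hF : Measurable F) (h0 : ∀ x : E 3, x 0 ≤ 0 → F x = 0) :
    ∫⁻ x, F x ∂(sg 3) = ∫⁻ η : ℝ, ∫⁻ c : ℝ, ENNReal.ofReal (dn η c) * F (P η c) := by
  rw [arch F hF]
  have e1 : ∫⁻ c in Ioo (-1 : ℝ) 1, ∫⁻ φ in Ioo (-Real.pi) Real.pi, F (pt c φ) =
      ∫⁻ c : ℝ, ∫⁻ η : ℝ, ENNReal.ofReal (dn η c) * F (P η c) := by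
    rw [setLIntegral_congr_fun measurableSet_Ioo (fun c hc => fib_lint F h0 c hc),
      ← lintegral_indicator measurableSet_Ioo]
    apply lintegral_congr
    intro c
    by_cases hc : c ∈ Ioo (-1 : ℝ) 1
    · rw [indicator_of_mem hc]
    · rw [indicator_of_notMem hc]
      symm
      rw [lintegral_eq_zero_iff']
      · apply Filter.Eventually.of_forall
        intro η
        have : ¬ (η ^ 2 + c ^ 2 < 1) := by
          intro hlt
          have : c ^ 2 < 1 ^ 2 := by nlinarith [sq_nonneg η]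
          exact hc (abs_lt.mp (abs_lt_of_sq_lt_sq this one_pos.le))
        simp only [Pi.zero_apply]
        rw [dn, if_neg this, ENNReal.ofReal_zero, zero_mul]
      · apply Measurable.aemeasurable
        exact ((dn_meas.comp (measurable_id.prodMk measurable_const)).ennreal_ofReal).mul
          (hF.comp (P_meas.comp (measurable_id.prodMk measurable_const)))
  have hm : Measurable fun p : ℝ × ℝ => ENNReal.ofReal (dn p.1 p.2) * F (P p.1 p.2) :=
    dn_meas.ennreal_ofReal.mul (hF.comp P_meas)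
  have hm2 : Measurable (Function.uncurry fun c η : ℝ => ENNReal.ofReal (dn η c) * F (P η c)) :=
    hm.comp measurable_swap
  rw [e1, lintegral_lintegral_swap hm2.aemeasurable]

theorem sg_graph : (sg 3).restrict {x : E 3 | 0 < x 0} =
    ((volume : Measure (ℝ × ℝ)).withDensity (fun p => ENNReal.ofReal (dn p.1 p.2))).map
      (fun p => P p.1 p.2) := by
  have hX : MeasurableSet {x : E 3 | 0 < x 0} := by
    apply measurableSet_lt measurable_const
    fun_prop
  ext A hA
  rw [Measure.restrict_apply hA, map_apply P_meas hA, withDensity_apply _ (P_meas hA),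
    ← lintegral_indicator_one (hA.inter hX), graph_lint _ (measurable_one.indicator (hA.inter hX)),
    ← lintegral_indicator (P_meas hA), Measure.volume_eq_prod, lintegral_prod]
  · apply lintegral_congr
    intro η
    apply lintegral_congr
    intro c
    by_cases h1 : η ^ 2 + c ^ 2 < 1
    · have h2 : 0 < (P η c) 0 := by
        simp only [P]
        apply Real.sqrt_pos.mpr
        linarith
      by_cases h3 : P η c ∈ A
      · rw [indicator_of_mem (show P η c ∈ A ∩ {x : E 3 | 0 < x 0} from ⟨h3, h2⟩),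
          indicator_of_mem (show (η, c) ∈ (fun p : ℝ × ℝ => P p.1 p.2) ⁻¹' A from h3),
          Pi.one_apply, mul_one]
      · rw [indicator_of_notMem (show P η c ∉ A ∩ {x : E 3 | 0 < x 0} from fun h => h3 h.1),
          indicator_of_notMem (show (η, c) ∉ (fun p : ℝ × ℝ => P p.1 p.2) ⁻¹' A from h3), mul_zero]
    · have hd : dn η c = 0 := by rw [dn, if_neg h1]
      rw [hd, ENNReal.ofReal_zero, zero_mul]
      symm
      by_cases h3 : P η c ∈ A
      · rw [indicator_of_mem (show (η, c) ∈ (fun p : ℝ × ℝ => P p.1 p.2) ⁻¹' A from h3)]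
        simp only
        rw [hd, ENNReal.ofReal_zero]
      · rw [indicator_of_notMem (show (η, c) ∉ (fun p : ℝ × ℝ => P p.1 p.2) ⁻¹' A from h3)]
  · apply Measurable.aemeasurable
    exact dn_meas.ennreal_ofReal.indicator (P_meas hA)
  · intro x hx
    apply indicator_of_notMem
    intro h
    exact absurd h.2 (not_lt.mpr hx)

end V4a

end Pool.Agent.H789R2.FR
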