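import Mathlib
import Pool.Agent.H789R2.FR.E4t
import Pool.Agent.H789R2.FR.StripA
import Pool.Agent.H789R2.FR.Planch
set_option autoImplicit false

/-! `L^4` bound for the extension of densities supported in a strip. -/

namespace Pool.Agent.H789R2.FR

open MeasureTheory Measure Set Metric Complex
open scoped ENNReal Pointwise RealInnerProductSpace

namespace V4a

theorem nrm_phase (a : ℝ) : ‖Complex.exp (-((a : ℝ) : ℂ) * I)‖ = 1 := by
  rw [show -((a : ℝ) : ℂ) * I = ((-a : ℝ) : ℂ) * I by push_cast; ring]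
  exact Complex.norm_exp_ofReal_mul_I _

/-! ### The fibre estimate -/

theorem cs_lint (S : Set ℝ) (f : ℝ → ℝ≥0∞) (hf : Measurable f) :
    (∫⁻ η in S, f η) ^ 2 ≤ volume S * ∫⁻ η in S, f η ^ 2 := by
  have h := ENNReal.lintegral_mul_le_Lp_mul_Lq (volume.restrict S) (p := 2) (q := 2)
    (by constructor <;> norm_num) (f := fun _ => (1 : ℝ≥0∞)) (g := f) aemeasurable_const
    hf.aemeasurable
  simp only [Pi.mul_apply, one_mul, ENNReal.one_rpow, lintegral_const,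
    Measure.restrict_apply_univ] at h
  calc (∫⁻ η in S, f η) ^ 2 ≤ (volume S ^ (1 / (2:ℝ)) * (∫⁻ η in S, f η ^ (2:ℝ)) ^ (1 / (2:ℝ))) ^ 2 :=
        pow_le_pow_left' h 2
    _ = volume S * ∫⁻ η in S, f η ^ 2 := by
        rw [mul_pow, ← ENNReal.rpow_natCast, ← ENNReal.rpow_natCast, ← ENNReal.rpow_mul,
          ← ENNReal.rpow_mul]
        norm_num

theorem fiber (L : ℝ) (hL : 0 < L) (F : ℝ → ℂ) (hF : Measurable F)
    (hb : ∃ M : ℝ, ∀ x, ‖F x‖ ≤ M) :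
    ∫⁻ u : ℝ, ENNReal.ofReal (‖∫ η in Icc (-L) L,
      Complex.exp (-((u * η : ℝ) : ℂ) * I) * F η‖ ^ 4) ≤
      ENNReal.ofReal (8 * Real.pi * L ^ 2) * ∫⁻ η in Icc (-L) L, ENNReal.ofReal (‖F η‖ ^ 4) := by
  have hvol : volume (Icc (-L) L) = ENNReal.ofReal (2 * L) := by
    rw [Real.volume_Icc]; congr 1; ring
  set X := ∫⁻ η in Icc (-L) L, ENNReal.ofReal (‖F η‖ ^ 2) with hX
  have h1 : ∀ u : ℝ, ENNReal.ofReal (‖∫ η in Icc (-L) L,
      Complex.exp (-((u * η : ℝ) : ℂ) * I) * F η‖ ^ 2) ≤ ENNReal.ofReal (2 * L) * X := by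
    intro u
    have hle : ‖∫ η in Icc (-L) L, Complex.exp (-((u * η : ℝ) : ℂ) * I) * F η‖ₑ ≤
        ∫⁻ η in Icc (-L) L, ‖F η‖ₑ := by
      refine (enorm_integral_le_lintegral_enorm _).trans (le_of_eq ?_)
      apply lintegral_congr
      intro η
      rw [enorm_mul]
      have : ‖Complex.exp (-((u * η : ℝ) : ℂ) * I)‖ₑ = 1 := by
        rw [← ofReal_norm, nrm_phase, ENNReal.ofReal_one]
      rw [this, one_mul]
    rw [ENNReal.ofReal_pow (norm_nonneg _), ofReal_norm]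
    calc ‖∫ η in Icc (-L) L, Complex.exp (-((u * η : ℝ) : ℂ) * I) * F η‖ₑ ^ 2
        ≤ (∫⁻ η in Icc (-L) L, ‖F η‖ₑ) ^ 2 := pow_le_pow_left' hle 2
      _ ≤ volume (Icc (-L) L) * ∫⁻ η in Icc (-L) L, ‖F η‖ₑ ^ 2 := cs_lint _ _ hF.enorm
      _ = ENNReal.ofReal (2 * L) * X := by
          rw [hvol, hX]
          congr 1
          apply lintegral_congr
          intro η
          rw [ENNReal.ofReal_pow (norm_nonneg _), ofReal_norm]
  have h2 : ∫⁻ u : ℝ, ENNReal.ofReal (‖∫ η in Icc (-L) L,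
      Complex.exp (-((u * η : ℝ) : ℂ) * I) * F η‖ ^ 2) ≤ ENNReal.ofReal (2 * Real.pi) * X := by
    have h := pl_phase (Icc (-L) L) measurableSet_Icc (by rw [hvol]; exact ENNReal.ofReal_lt_top)
      (fun t => t) (fun _ => 1) measurable_id measurable_const
      (fun c _ => (hasDerivAt_id c).hasDerivWithinAt) (fun _ _ => one_ne_zero)
      (fun x _ y _ h => h) F hF hb
    simpa [hX] using h
  have h3 : X ^ 2 ≤ ENNReal.ofReal (2 * L) * ∫⁻ η in Icc (-L) L, ENNReal.ofReal (‖F η‖ ^ 4) := by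
    refine (cs_lint _ _ (hF.norm.pow_const 2).ennreal_ofReal).trans (le_of_eq ?_)
    rw [hvol]
    congr 1
    apply lintegral_congr
    intro η
    rw [← ENNReal.ofReal_pow (by positivity), ← pow_mul]
  calc ∫⁻ u : ℝ, ENNReal.ofReal (‖∫ η in Icc (-L) L,
      Complex.exp (-((u * η : ℝ) : ℂ) * I) * F η‖ ^ 4)
      ≤ ∫⁻ u : ℝ, (ENNReal.ofReal (2 * L) * X) * ENNReal.ofReal (‖∫ η in Icc (-L) L,
        Complex.exp (-((u * η : ℝ) : ℂ) * I) * F η‖ ^ 2) := by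
        apply lintegral_mono
        intro u
        simp only
        rw [show ∀ t : ℝ, t ^ 4 = t ^ 2 * t ^ 2 from fun t => by ring,
          ENNReal.ofReal_mul (by positivity)]
        gcongr
        exact h1 u
    _ = (ENNReal.ofReal (2 * L) * X) * ∫⁻ u : ℝ, ENNReal.ofReal (‖∫ η in Icc (-L) L,
        Complex.exp (-((u * η : ℝ) : ℂ) * I) * F η‖ ^ 2) := by
        rw [lintegral_const_mul]
        apply Measurable.ennreal_ofReal
        apply Measurable.pow_const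
        apply Measurable.norm
        have hs : StronglyMeasurable (fun p : ℝ × ℝ =>
            Complex.exp (-((p.1 * p.2 : ℝ) : ℂ) * I) * F p.2) := by
          apply Measurable.stronglyMeasurable
          exact (Complex.measurable_exp.comp (by fun_prop)).mul (hF.comp measurable_snd)
        exact (hs.integral_prod_right' (ν := volume.restrict (Icc (-L) L))).measurable
    _ ≤ (ENNReal.ofReal (2 * L) * X) * (ENNReal.ofReal (2 * Real.pi) * X) := by gcongr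
    _ = ENNReal.ofReal (2 * L) * ENNReal.ofReal (2 * Real.pi) * X ^ 2 := by ring
    _ ≤ ENNReal.ofReal (2 * L) * ENNReal.ofReal (2 * Real.pi) *
        (ENNReal.ofReal (2 * L) * ∫⁻ η in Icc (-L) L, ENNReal.ofReal (‖F η‖ ^ 4)) := by gcongr
    _ = _ := by
        rw [← ENNReal.ofReal_mul (by positivity), ← mul_assoc, ← ENNReal.ofReal_mul (by positivity)]
        congr 2
        ring

/-! ### Geometry of the strip -/

theorem geom (μ w : ℝ) (hμ : 0 < μ) (hw : 0 < w) (hw' : w ≤ 1 / 2) (η c : ℝ)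
    (h1 : η ^ 2 + c ^ 2 < 1) (hc : c ∈ band μ)
    (hst : |η| ≤ w * Real.sqrt (Real.sqrt (1 - η ^ 2 - c ^ 2) ^ 2 + η ^ 2)) :
    |η| ≤ w * μ ∧ 2 / 5 * μ ≤ Real.sqrt (1 - η ^ 2 - c ^ 2) ∧ Real.sqrt (1 - η ^ 2 - c ^ 2) ≤ μ := by
  obtain ⟨hc1, hc2, hc3⟩ := hc
  have e1 : Real.sqrt (1 - η ^ 2 - c ^ 2) ^ 2 = 1 - η ^ 2 - c ^ 2 := Real.sq_sqrt (by linarith)
  have e2 : Real.sqrt (1 - η ^ 2 - c ^ 2) ^ 2 + η ^ 2 = 1 - c ^ 2 := by rw [e1]; ring
  rw [e2] at hst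
  have e3 : Real.sqrt (1 - c ^ 2) = sc c := rfl
  rw [e3] at hst
  have hscp : 0 < sc c := by linarith [half_pos hμ]
  have e4 : sc c ^ 2 = 1 - c ^ 2 := Real.sq_sqrt (by nlinarith [sq_nonneg η])
  have e5 : η ^ 2 ≤ (w * sc c) ^ 2 := by
    rw [← sq_abs η]
    exact pow_le_pow_left₀ (abs_nonneg _) hst 2
  have e6 : (w * sc c) ^ 2 ≤ 1 / 4 * sc c ^ 2 := by
    rw [mul_pow]
    have : w ^ 2 ≤ 1 / 4 := by nlinarith
    gcongr
  refine ⟨hst.trans (by gcongr), ?_, ?_⟩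
  · apply Real.le_sqrt_of_sq_le
    nlinarith
  · rw [show μ = Real.sqrt (μ ^ 2) from (Real.sqrt_sq hμ.le).symm]
    apply Real.sqrt_le_sqrt
    nlinarith [sq_nonneg η]

/-- The transferred density. -/
noncomputable def bb (H : E 3 → ℂ) (η c : ℝ) : ℂ := (dn η c : ℂ) * H (P η c)

/-- The inner integral. -/
noncomputable def VV (H : E 3 → ℂ) (y z η : ℝ) : ℂ :=
  ∫ c : ℝ, Complex.exp (-((y * Real.sqrt (1 - η ^ 2 - c ^ 2) + z * c : ℝ) : ℂ) * I) * bb H η c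

theorem bb_meas (H : E 3 → ℂ) (hH : Measurable H) : Measurable fun p : ℝ × ℝ => bb H p.1 p.2 := by
  unfold bb
  exact (Complex.measurable_ofReal.comp dn_meas).mul (hH.comp P_meas)

/-- Hypotheses for the half strip. -/
structure Half (μ w M : ℝ) (H : E 3 → ℂ) : Prop where
  hμ : 0 < μ
  hμ1 : μ ≤ 1
  hw : 0 < w
  hw1 : w ≤ 1 / 2
  meas : Measurable H
  bd : ∀ x, ‖H x‖ ≤ M
  band : ∀ x, x 2 ∉ band μ → H x = 0
  st : ∀ x, ¬ (|x 1| ≤ w * Real.sqrt (x 0 ^ 2 + x 1 ^ 2)) → H x = 0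
  pos : ∀ x, x 0 ≤ 0 → H x = 0

variable {μ w M : ℝ} {H : E 3 → ℂ}

theorem Half.supp (h : Half μ w M H) (η c : ℝ) (hne : bb H η c ≠ 0) :
    η ^ 2 + c ^ 2 < 1 ∧ |η| ≤ w * μ ∧ 2 / 5 * μ ≤ Real.sqrt (1 - η ^ 2 - c ^ 2) ∧
      Real.sqrt (1 - η ^ 2 - c ^ 2) ≤ μ := by
  have h1 : η ^ 2 + c ^ 2 < 1 := by
    by_contra hcon
    apply hne
    rw [bb, dn, if_neg hcon, Complex.ofReal_zero, zero_mul]
  have h2 : H (P η c) ≠ 0 := by
    intro h0
    apply hne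
    rw [bb, h0, mul_zero]
  refine ⟨h1, ?_⟩
  apply geom μ w h.hμ h.hw h.hw1 η c h1
  · by_contra hcon
    exact h2 (h.band _ hcon)
  · by_contra hcon
    exact h2 (h.st _ hcon)

theorem Half.bb_bd (h : Half μ w M H) (η c : ℝ) : ‖bb H η c‖ ≤ 5 / (2 * μ) * M := by
  have hM : 0 ≤ M := (norm_nonneg _).trans (h.bd 0)
  have hμ := h.hμ
  by_cases hne : bb H η c = 0
  · rw [hne, norm_zero]; positivity
  · obtain ⟨h1, -, h3, -⟩ := h.supp η c hne
    rw [bb, norm_mul, Complex.norm_real, Real.norm_of_nonneg (dn_nonneg _ _), dn, if_pos h1]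
    apply mul_le_mul _ (h.bd _) (norm_nonneg _) (by positivity)
    rw [show 5 / (2 * μ) = (2 / 5 * μ)⁻¹ by rw [mul_inv, inv_div]; field_simp]
    exact inv_anti₀ (by positivity) h3

theorem Half.bb_sq (h : Half μ w M H) (η c : ℝ) :
    ‖bb H η c‖ ^ 2 ≤ 5 / (2 * μ) * (dn η c * ‖H (P η c)‖ ^ 2) := by
  have hμ := h.hμ
  by_cases hne : bb H η c = 0
  · rw [hne, norm_zero, zero_pow two_ne_zero]
    exact mul_nonneg (by positivity) (mul_nonneg (dn_nonneg _ _) (sq_nonneg _))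
  · obtain ⟨h1, -, h3, -⟩ := h.supp η c hne
    have hd : dn η c ≤ 5 / (2 * μ) := by
      rw [dn, if_pos h1, show 5 / (2 * μ) = (2 / 5 * μ)⁻¹ by rw [mul_inv, inv_div]; field_simp]
      exact inv_anti₀ (by positivity) h3
    have h0 := dn_nonneg η c
    rw [bb, norm_mul, Complex.norm_real, Real.norm_of_nonneg (dn_nonneg _ _), mul_pow]
    calc dn η c ^ 2 * ‖H (P η c)‖ ^ 2 = dn η c * (dn η c * ‖H (P η c)‖ ^ 2) := by ring
      _ ≤ 5 / (2 * μ) * (dn η c * ‖H (P η c)‖ ^ 2) :=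
        mul_le_mul_of_nonneg_right hd (by positivity)

theorem Half.bb_zero_c (h : Half μ w M H) (η c : ℝ) (hc : c ∉ Icc (-1 : ℝ) 1) : bb H η c = 0 := by
  by_contra hne
  obtain ⟨h1, -⟩ := h.supp η c hne
  apply hc
  have : c ^ 2 < 1 ^ 2 := by nlinarith [sq_nonneg η]
  have := abs_lt.mp (abs_lt_of_sq_lt_sq this one_pos.le)
  exact ⟨this.1.le, this.2.le⟩

theorem Half.bb_zero_e (h : Half μ w M H) (η c : ℝ) (hc : η ∉ Icc (-(w * μ)) (w * μ)) :
    bb H η c = 0 := by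
  by_contra hne
  obtain ⟨-, h1, -⟩ := h.supp η c hne
  exact hc (abs_le.mp h1)

theorem Half.VV_zero (h : Half μ w M H) (y z η : ℝ) (hc : η ∉ Icc (-(w * μ)) (w * μ)) :
    VV H y z η = 0 := by
  unfold VV
  simp only [h.bb_zero_e η _ hc, mul_zero, integral_zero]

theorem phase_meas : Measurable fun q : ((ℝ × ℝ) × ℝ) × ℝ =>
    Complex.exp (-((q.1.1.1 * Real.sqrt (1 - q.1.2 ^ 2 - q.2 ^ 2) + q.1.1.2 * q.2 : ℝ) : ℂ) * I) := by
  apply Complex.measurable_exp.comp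
  apply Measurable.mul_const
  apply Measurable.neg
  apply Complex.measurable_ofReal.comp
  apply Measurable.add
  · apply Measurable.mul (by fun_prop)
    exact Real.continuous_sqrt.measurable.comp (by fun_prop)
  · fun_prop

theorem VV_meas (H : E 3 → ℂ) (hH : Measurable H) :
    Measurable fun q : (ℝ × ℝ) × ℝ => VV H q.1.1 q.1.2 q.2 := by
  unfold VV
  have hs : StronglyMeasurable (fun q : ((ℝ × ℝ) × ℝ) × ℝ =>
      Complex.exp (-((q.1.1.1 * Real.sqrt (1 - q.1.2 ^ 2 - q.2 ^ 2) + q.1.1.2 * q.2 : ℝ) : ℂ) * I) *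
        bb H q.1.2 q.2) := by
    apply Measurable.stronglyMeasurable
    have hp : Measurable fun q : ((ℝ × ℝ) × ℝ) × ℝ => (q.1.2, q.2) := by fun_prop
    have hb : Measurable fun q : ((ℝ × ℝ) × ℝ) × ℝ => bb H q.1.2 q.2 := (bb_meas H hH).comp hp
    exact phase_meas.mul hb
  exact (hs.integral_prod_right' (ν := volume)).measurable

theorem Half.VV_bd (h : Half μ w M H) (y z η : ℝ) : ‖VV H y z η‖ ≤ 5 / (2 * μ) * M * 2 := by
  unfold VV
  have e : ∫ c : ℝ, Complex.exp (-((y * Real.sqrt (1 - η ^ 2 - c ^ 2) + z * c : ℝ) : ℂ) * I) *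
      bb H η c = ∫ c in Icc (-1 : ℝ) 1,
        Complex.exp (-((y * Real.sqrt (1 - η ^ 2 - c ^ 2) + z * c : ℝ) : ℂ) * I) * bb H η c := by
    symm
    apply setIntegral_eq_integral_of_forall_compl_eq_zero
    intro c hc
    rw [h.bb_zero_c η c hc, mul_zero]
  rw [e]
  have := norm_setIntegral_le_of_norm_le_const (μ := volume) (s := Icc (-1 : ℝ) 1)
    (f := fun c => Complex.exp (-((y * Real.sqrt (1 - η ^ 2 - c ^ 2) + z * c : ℝ) : ℂ) * I) *
      bb H η c) (C := 5 / (2 * μ) * M) (by simp) (fun c _ => by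
        rw [norm_mul, nrm_phase, one_mul]; exact h.bb_bd η c)
  refine this.trans (le_of_eq ?_)
  rw [measureReal_def, Real.volume_Icc, ENNReal.toReal_ofReal (by norm_num)]
  norm_num

theorem Half.T_eq (h : Half μ w M H) (y u z : ℝ) :
    T H !₂[y, u, z] = ∫ η in Icc (-(w * μ)) (w * μ),
      Complex.exp (-((u * η : ℝ) : ℂ) * I) * VV H y z η := by
  have hinn : ∀ η c : ℝ, (⟪(!₂[y, u, z] : E 3), P η c⟫ : ℝ) =
      u * η + (y * Real.sqrt (1 - η ^ 2 - c ^ 2) + z * c) := by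
    intro η c
    simp only [P, PiLp.inner_apply, Fin.sum_univ_three]
    simp
    ring
  have hFm : Measurable fun x : E 3 => Complex.exp (-((⟪(!₂[y, u, z] : E 3), x⟫ : ℝ) : ℂ) * I) * H x := by
    refine Measurable.mul ?_ h.meas
    apply Complex.measurable_exp.comp
    apply Measurable.mul_const
    apply Measurable.neg
    apply Complex.measurable_ofReal.comp
    exact (Continuous.inner continuous_const continuous_id).measurable
  have e1 : T H !₂[y, u, z] = ∫ x in {x : E 3 | 0 < x 0},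
      Complex.exp (-((⟪(!₂[y, u, z] : E 3), x⟫ : ℝ) : ℂ) * I) * H x ∂(sg 3) := by
    unfold T
    symm
    apply setIntegral_eq_integral_of_forall_compl_eq_zero
    intro x hx
    rw [h.pos x (not_lt.mp hx), mul_zero]
  rw [e1, sg_graph, integral_map P_meas.aemeasurable hFm.aestronglyMeasurable,
    integral_withDensity_eq_integral_toReal_smul dn_meas.ennreal_ofReal
      (Filter.Eventually.of_forall fun _ => ENNReal.ofReal_lt_top)]
  have e2 : ∀ p : ℝ × ℝ, (ENNReal.ofReal (dn p.1 p.2)).toReal •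
      (Complex.exp (-((⟪(!₂[y, u, z] : E 3), P p.1 p.2⟫ : ℝ) : ℂ) * I) * H (P p.1 p.2)) =
      Complex.exp (-((u * p.1 : ℝ) : ℂ) * I) *
        (Complex.exp (-((y * Real.sqrt (1 - p.1 ^ 2 - p.2 ^ 2) + z * p.2 : ℝ) : ℂ) * I) *
          bb H p.1 p.2) := by
    intro p
    rw [ENNReal.toReal_ofReal (dn_nonneg _ _), hinn, bb, Complex.real_smul, ← mul_assoc, ← mul_assoc,
      ← mul_assoc, ← Complex.exp_add]
    have : -((u * p.1 + (y * Real.sqrt (1 - p.1 ^ 2 - p.2 ^ 2) + z * p.2) : ℝ) : ℂ) * I =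
        -((u * p.1 : ℝ) : ℂ) * I +
          -((y * Real.sqrt (1 - p.1 ^ 2 - p.2 ^ 2) + z * p.2 : ℝ) : ℂ) * I := by
      push_cast; ring
    rw [this]
    ring
  simp only [e2]
  rw [Measure.volume_eq_prod, integral_prod]
  · have e3 : ∀ η : ℝ, ∫ c : ℝ, Complex.exp (-((u * η : ℝ) : ℂ) * I) *
        (Complex.exp (-((y * Real.sqrt (1 - η ^ 2 - c ^ 2) + z * c : ℝ) : ℂ) * I) * bb H η c) =
        Complex.exp (-((u * η : ℝ) : ℂ) * I) * VV H y z η := by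
      intro η
      rw [integral_const_mul]
      rfl
    simp only [e3]
    symm
    apply setIntegral_eq_integral_of_forall_compl_eq_zero
    intro η hη
    rw [h.VV_zero y z η hη, mul_zero]
  · have hm : Measurable fun p : ℝ × ℝ => Complex.exp (-((u * p.1 : ℝ) : ℂ) * I) *
        (Complex.exp (-((y * Real.sqrt (1 - p.1 ^ 2 - p.2 ^ 2) + z * p.2 : ℝ) : ℂ) * I) *
          bb H p.1 p.2) := by
      have hp : Measurable fun q : ℝ × ℝ => (((y, z), q.1), q.2) := by fun_prop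
      have h1 : Measurable fun p : ℝ × ℝ => Complex.exp (-((u * p.1 : ℝ) : ℂ) * I) := by fun_prop
      have h2 : Measurable fun p : ℝ × ℝ =>
          Complex.exp (-((y * Real.sqrt (1 - p.1 ^ 2 - p.2 ^ 2) + z * p.2 : ℝ) : ℂ) * I) :=
        phase_meas.comp hp
      have h3 : Measurable fun p : ℝ × ℝ => bb H p.1 p.2 := bb_meas H h.meas
      exact h1.mul (h2.mul h3)
    have hon : IntegrableOn (fun p : ℝ × ℝ => Complex.exp (-((u * p.1 : ℝ) : ℂ) * I) *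
        (Complex.exp (-((y * Real.sqrt (1 - p.1 ^ 2 - p.2 ^ 2) + z * p.2 : ℝ) : ℂ) * I) *
          bb H p.1 p.2)) (Icc (-(w * μ)) (w * μ) ×ˢ Icc (-1 : ℝ) 1) (volume.prod volume) := by
      refine IntegrableOn.of_bound ?_ ?_ (5 / (2 * μ) * M) ?_
      · rw [Measure.prod_prod]
        exact ENNReal.mul_lt_top (by simp) (by simp)
      · exact hm.aestronglyMeasurable
      · apply Filter.Eventually.of_forall
        intro p
        rw [norm_mul, norm_mul, nrm_phase, nrm_phase, one_mul, one_mul]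
        exact h.bb_bd _ _
    refine hon.integrable_of_forall_notMem_eq_zero ?_
    intro p hp
    have : bb H p.1 p.2 = 0 := by
      simp only [mem_prod, not_and_or] at hp
      rcases hp with hp | hp
      · exact h.bb_zero_e _ _ hp
      · exact h.bb_zero_c _ _ hp
    rw [this, mul_zero, mul_zero]

theorem dens_meas (H : E 3 → ℂ) (hH : Measurable H) : Measurable fun p : ℝ × ℝ =>
    ENNReal.ofReal (dn p.1 p.2) * ENNReal.ofReal (‖H (P p.1 p.2)‖ ^ 2) := by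
  have h1 : Measurable fun p : ℝ × ℝ => H (P p.1 p.2) := hH.comp P_meas
  exact dn_meas.ennreal_ofReal.mul (h1.norm.pow_const 2).ennreal_ofReal

theorem dens_meas' (H : E 3 → ℂ) (hH : Measurable H) (η : ℝ) : Measurable fun c : ℝ =>
    ENNReal.ofReal (dn η c) * ENNReal.ofReal (‖H (P η c)‖ ^ 2) := by
  have h1 : Measurable fun c : ℝ => (η, c) := measurable_prodMk_left
  exact (dens_meas H hH).comp h1

theorem T_meas (H : E 3 → ℂ) (hH : Measurable H) : Measurable (T H) := by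
  have := sg_finite 3
  unfold T
  have hs : StronglyMeasurable (fun q : E 3 × E 3 =>
      Complex.exp (-((⟪q.1, q.2⟫ : ℝ) : ℂ) * I) * H q.2) := by
    apply Measurable.stronglyMeasurable
    refine Measurable.mul ?_ (hH.comp measurable_snd)
    apply Complex.measurable_exp.comp
    apply Measurable.mul_const
    apply Measurable.neg
    apply Complex.measurable_ofReal.comp
    exact (Continuous.inner continuous_fst continuous_snd).measurable
  exact (hs.integral_prod_right' (ν := sg 3)).measurable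

theorem Half.planar (h : Half μ w M H) (C4 : ℝ) (hC4 : 0 < C4)
    (hE : ∀ μ : ℝ, 0 < μ → μ ≤ 1 → ∀ Y : ℝ, 1 ≤ Y * μ →
    ∀ τ : ℝ, 4 / 5 ≤ τ → τ ≤ 1 → ∀ b : ℝ → ℂ, Measurable b → ∀ B : ℝ, (∀ c, ‖b c‖ ≤ B) →
    (∀ c, b c ≠ 0 → |c| < τ ∧ 2 / 5 * μ ≤ Real.sqrt (τ ^ 2 - c ^ 2) ∧
      Real.sqrt (τ ^ 2 - c ^ 2) ≤ μ) →
    ∫⁻ y in Icc (-Y) Y, ∫⁻ z : ℝ, ENNReal.ofReal (‖∫ c : ℝ,
      Complex.exp (-((y * Real.sqrt (τ ^ 2 - c ^ 2) + z * c : ℝ) : ℂ) * I) * b c‖ ^ 4) ≤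
      ENNReal.ofReal (C4 * B ^ 2 * μ ^ 3 * (1 + Real.log (Y * μ)) * ∫ c, ‖b c‖ ^ 2))
    (Y : ℝ) (hY : 1 ≤ Y * μ) (η : ℝ) (hη : η ∈ Icc (-(w * μ)) (w * μ)) :
    ∫⁻ y in Icc (-Y) Y, ∫⁻ z : ℝ, ENNReal.ofReal (‖VV H y z η‖ ^ 4) ≤
      ENNReal.ofReal (C4 * (5 / (2 * μ) * M) ^ 2 * μ ^ 3 * (1 + Real.log (Y * μ)) *
        (5 / (2 * μ))) * ∫⁻ c : ℝ, ENNReal.ofReal (dn η c) * ENNReal.ofReal (‖H (P η c)‖ ^ 2) := by
  have hμ := h.hμ
  have hμ1 := h.hμ1
  have hw := h.hw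
  have hw1 := h.hw1
  have hη2 : η ^ 2 ≤ 1 / 4 := by
    have h1 : |η| ≤ w * μ := abs_le.mpr hη
    have h2 : w * μ ≤ 1 / 2 * 1 := by gcongr
    have h3 : |η| ≤ 1 / 2 := by linarith
    rw [← sq_abs]
    nlinarith [abs_nonneg η]
  set τ := Real.sqrt (1 - η ^ 2) with hτ
  have hτ2 : τ ^ 2 = 1 - η ^ 2 := Real.sq_sqrt (by linarith)
  have hτ1 : 4 / 5 ≤ τ := by
    apply Real.le_sqrt_of_sq_le
    linarith
  have hτ1' : τ ≤ 1 := by
    rw [hτ, Real.sqrt_le_left one_pos.le]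
    nlinarith [sq_nonneg η]
  have hlog : 0 ≤ 1 + Real.log (Y * μ) := by linarith [Real.log_nonneg hY]
  have hbm : Measurable (bb H η) := (bb_meas H h.meas).comp (measurable_const.prodMk measurable_id)
  have key := hE μ hμ hμ1 Y hY τ hτ1 hτ1' (bb H η) hbm (5 / (2 * μ) * M) (h.bb_bd η) (by
    intro c hc
    obtain ⟨h1, -, h3, h4⟩ := h.supp η c hc
    rw [hτ2]
    refine ⟨?_, h3, h4⟩
    apply abs_lt_of_sq_lt_sq _ (Real.sqrt_nonneg _)
    linarith)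
  rw [hτ2] at key
  refine key.trans ?_
  have hint : Integrable (fun c => ‖bb H η c‖ ^ 2) := by
    have hon : IntegrableOn (fun c => ‖bb H η c‖ ^ 2) (Icc (-1 : ℝ) 1) := by
      refine IntegrableOn.of_bound ?_ ?_ ((5 / (2 * μ) * M) ^ 2) ?_
      · simp
      · exact (hbm.norm.pow_const 2).aestronglyMeasurable
      · apply Filter.Eventually.of_forall
        intro c
        rw [norm_pow, norm_norm]
        exact pow_le_pow_left₀ (norm_nonneg _) (h.bb_bd η c) 2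
    refine hon.integrable_of_forall_notMem_eq_zero ?_
    intro c hc
    rw [h.bb_zero_c η c hc]
    simp
  have h5 : ENNReal.ofReal (∫ c, ‖bb H η c‖ ^ 2) ≤ ENNReal.ofReal (5 / (2 * μ)) *
      ∫⁻ c : ℝ, ENNReal.ofReal (dn η c) * ENNReal.ofReal (‖H (P η c)‖ ^ 2) := by
    rw [ofReal_integral_eq_lintegral_ofReal hint
      (Filter.Eventually.of_forall fun c => by positivity), ← lintegral_const_mul]
    · apply lintegral_mono
      intro c
      simp only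
      rw [← ENNReal.ofReal_mul (dn_nonneg _ _), ← ENNReal.ofReal_mul (by positivity)]
      exact ENNReal.ofReal_le_ofReal (h.bb_sq η c)
    · exact dens_meas' H h.meas η
  have hK0 : 0 ≤ C4 * (5 / (2 * μ) * M) ^ 2 * μ ^ 3 * (1 + Real.log (Y * μ)) := by positivity
  rw [ENNReal.ofReal_mul hK0, ENNReal.ofReal_mul hK0, mul_assoc (ENNReal.ofReal _)]
  gcongr

theorem swap3 (f : E 3 → ℝ≥0∞) (hf : Measurable f) (a : ℝ) :
    ∫⁻ b : ℝ, ∫⁻ z : ℝ, f !₂[a, b, z] = ∫⁻ z : ℝ, ∫⁻ b : ℝ, f !₂[a, b, z] := by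
  have hvec : Measurable fun p : ℝ × ℝ × ℝ => f !₂[p.1, p.2.1, p.2.2] := hf.comp measurable_vec3
  have hp : Measurable fun q : ℝ × ℝ => ((a, q.1, q.2) : ℝ × ℝ × ℝ) := by fun_prop
  have h2 : Measurable fun q : ℝ × ℝ => f !₂[a, q.1, q.2] := hvec.comp hp
  have h3 : AEMeasurable (Function.uncurry fun b z : ℝ => f !₂[a, b, z])
    (volume.prod volume) := h2.aemeasurable
  exact lintegral_lintegral_swap h3

theorem swapV (g : ℝ → ℝ → ℝ → ℝ≥0∞) (hg : Measurable fun q : (ℝ × ℝ) × ℝ => g q.1.1 q.1.2 q.2)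
    (A S : Set ℝ) :
    ∫⁻ a in A, ∫⁻ z : ℝ, ∫⁻ η in S, g a z η = ∫⁻ η in S, ∫⁻ a in A, ∫⁻ z : ℝ, g a z η := by
  have e : ∀ a : ℝ, ∫⁻ z : ℝ, ∫⁻ η in S, g a z η = ∫⁻ η in S, ∫⁻ z : ℝ, g a z η := by
    intro a
    have hp : Measurable fun q : ℝ × ℝ => ((a, q.1), q.2) := by fun_prop
    have h2 : Measurable fun q : ℝ × ℝ => g a q.1 q.2 := hg.comp hp
    have h3 : AEMeasurable (Function.uncurry fun z η : ℝ => g a z η)
      (volume.prod (volume.restrict S)) := h2.aemeasurable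
    exact lintegral_lintegral_swap h3
  simp only [e]
  have hp : Measurable fun q : (ℝ × ℝ) × ℝ => ((q.1.1, q.2), q.1.2) := by fun_prop
  have hm : Measurable fun q : (ℝ × ℝ) × ℝ => g q.1.1 q.2 q.1.2 := hg.comp hp
  have hm2 : Measurable fun q : ℝ × ℝ => ∫⁻ z : ℝ, g q.1 z q.2 := hm.lintegral_prod_right'
  have h3 : AEMeasurable (Function.uncurry fun a η : ℝ => ∫⁻ z : ℝ, g a z η)
      ((volume.restrict A).prod (volume.restrict S)) := hm2.aemeasurable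
  exact lintegral_lintegral_swap h3

theorem half0 : ∃ C : ℝ, 0 < C ∧ ∀ μ w M : ℝ, ∀ H : E 3 → ℂ, Half μ w M H → ∀ ρ : ℝ,
    1 ≤ ρ * μ →
    ∫⁻ x in {x : E 3 | x 0 ^ 2 + x 1 ^ 2 < (2 * ρ) ^ 2}, ENNReal.ofReal (‖T H x‖ ^ 4) ≤
      ENNReal.ofReal (C * w ^ 2 * μ ^ 2 * M ^ 2 * (1 + Real.log (ρ * μ)) *
        ∫ x, ‖H x‖ ^ 2 ∂(sg 3)) := by
  obtain ⟨C4, hC4, hE⟩ := E4t
  have := sg_finite 3
  refine ⟨250 * Real.pi * C4, by positivity, ?_⟩
  intro μ w M H h ρ hρ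
  have hμ := h.hμ
  have hμ1 := h.hμ1
  have hw := h.hw
  have hM : 0 ≤ M := (norm_nonneg _).trans (h.bd 0)
  have hρ0 : 0 < ρ := by
    by_contra hcon
    have : ρ * μ ≤ 0 := mul_nonpos_of_nonpos_of_nonneg (not_lt.mp hcon) hμ.le
    linarith
  have hY : 1 ≤ (2 * ρ) * μ := by nlinarith
  have hTm := T_meas H h.meas
  set f : E 3 → ℝ≥0∞ := fun x => ENNReal.ofReal (‖T H x‖ ^ 4) with hf
  have hfm : Measurable f := (hTm.norm.pow_const 4).ennreal_ofReal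
  have hSm : MeasurableSet {x : E 3 | x 0 ^ 2 + x 1 ^ 2 < (2 * ρ) ^ 2} := by
    apply measurableSet_lt _ measurable_const
    fun_prop
  set S := Icc (-(w * μ)) (w * μ) with hS
  set K : ℝ := C4 * (5 / (2 * μ) * M) ^ 2 * μ ^ 3 * (1 + Real.log (2 * ρ * μ)) * (5 / (2 * μ))
    with hK
  have hVm : Measurable fun q : (ℝ × ℝ) × ℝ => ENNReal.ofReal (‖VV H q.1.1 q.1.2 q.2‖ ^ 4) :=
    ((VV_meas H h.meas).norm.pow_const 4).ennreal_ofReal
  -- step 1
  have s1 : ∫⁻ x in {x : E 3 | x 0 ^ 2 + x 1 ^ 2 < (2 * ρ) ^ 2}, f x ≤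
      ∫⁻ a in Icc (-(2 * ρ)) (2 * ρ), ∫⁻ b : ℝ, ∫⁻ z : ℝ, f !₂[a, b, z] := by
    rw [← lintegral_indicator hSm, cart_lint _ (hfm.indicator hSm),
      ← lintegral_indicator measurableSet_Icc]
    apply lintegral_mono
    intro a
    by_cases ha : a ∈ Icc (-(2 * ρ)) (2 * ρ)
    · rw [indicator_of_mem ha]
      apply lintegral_mono
      intro b
      apply lintegral_mono
      intro z
      exact indicator_le_self _ _ _
    · rw [indicator_of_notMem ha]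
      apply le_of_eq
      have : ∀ b z : ℝ, ({x : E 3 | x 0 ^ 2 + x 1 ^ 2 < (2 * ρ) ^ 2}).indicator f !₂[a, b, z] = 0 := by
        intro b z
        apply indicator_of_notMem
        intro hx
        have hx' : a ^ 2 + b ^ 2 < (2 * ρ) ^ 2 := hx
        have : a ^ 2 < (2 * ρ) ^ 2 := by nlinarith [sq_nonneg b]
        have := abs_lt.mp (abs_lt_of_sq_lt_sq this (by positivity))
        exact ha ⟨this.1.le, this.2.le⟩
      simp only [this, lintegral_zero]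
  -- step 2
  have s2 : ∀ a : ℝ, ∫⁻ b : ℝ, ∫⁻ z : ℝ, f !₂[a, b, z] = ∫⁻ z : ℝ, ∫⁻ b : ℝ, f !₂[a, b, z] :=
    fun a => swap3 f hfm a
  -- step 3
  have s3 : ∀ a z : ℝ, ∫⁻ b : ℝ, f !₂[a, b, z] ≤ ENNReal.ofReal (8 * Real.pi * (w * μ) ^ 2) *
      ∫⁻ η in S, ENNReal.ofReal (‖VV H a z η‖ ^ 4) := by
    intro a z
    have hp : Measurable fun η : ℝ => ((a, z), η) := by fun_prop
    have hv : Measurable (VV H a z) := (VV_meas H h.meas).comp hp
    have := fiber (w * μ) (by positivity) (VV H a z) hv ⟨_, fun η => h.VV_bd a z η⟩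
    simp only [hf, h.T_eq]
    exact this
  -- step 4
  have s4 : ∫⁻ a in Icc (-(2 * ρ)) (2 * ρ), ∫⁻ z : ℝ, ∫⁻ η in S,
      ENNReal.ofReal (‖VV H a z η‖ ^ 4) = ∫⁻ η in S, ∫⁻ a in Icc (-(2 * ρ)) (2 * ρ), ∫⁻ z : ℝ,
      ENNReal.ofReal (‖VV H a z η‖ ^ 4) := by
    exact swapV (fun a z η => ENNReal.ofReal (‖VV H a z η‖ ^ 4)) hVm _ _
  -- step 5
  have s5 : ∀ η ∈ S, ∫⁻ a in Icc (-(2 * ρ)) (2 * ρ), ∫⁻ z : ℝ, ENNReal.ofReal (‖VV H a z η‖ ^ 4) ≤
      ENNReal.ofReal K * ∫⁻ c : ℝ, ENNReal.ofReal (dn η c) * ENNReal.ofReal (‖H (P η c)‖ ^ 2) :=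
    fun η hη => h.planar C4 hC4 hE (2 * ρ) hY η hη
  -- step 6
  have s6 : ∫⁻ η in S, ∫⁻ c : ℝ, ENNReal.ofReal (dn η c) * ENNReal.ofReal (‖H (P η c)‖ ^ 2) ≤
      ENNReal.ofReal (∫ x, ‖H x‖ ^ 2 ∂(sg 3)) := by
    rw [ofReal_integral_eq_lintegral_ofReal]
    · rw [graph_lint (fun x => ENNReal.ofReal (‖H x‖ ^ 2)) (h.meas.norm.pow_const 2).ennreal_ofReal
        (fun x hx => by simp only [h.pos x hx]; simp)]
      exact setLIntegral_le_lintegral _ _
    · refine Integrable.of_bound (h.meas.norm.pow_const 2).aestronglyMeasurable (M ^ 2) ?_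
      apply Filter.Eventually.of_forall
      intro x
      rw [norm_pow, norm_norm]
      exact pow_le_pow_left₀ (norm_nonneg _) (h.bd x) 2
    · exact Filter.Eventually.of_forall fun x => by positivity
  have hlog0 : 0 ≤ Real.log (ρ * μ) := Real.log_nonneg hρ
  have hlog1 : 1 + Real.log (2 * ρ * μ) ≤ 2 * (1 + Real.log (ρ * μ)) := by
    rw [mul_assoc, Real.log_mul (by norm_num) (by positivity)]
    linarith [Real.log_two_lt_d9]
  have hlog2 : 0 ≤ 1 + Real.log (2 * ρ * μ) := by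
    linarith [Real.log_nonneg hY]
  have hI : 0 ≤ ∫ x, ‖H x‖ ^ 2 ∂(sg 3) := by positivity
  calc ∫⁻ x in {x : E 3 | x 0 ^ 2 + x 1 ^ 2 < (2 * ρ) ^ 2}, f x
      ≤ ∫⁻ a in Icc (-(2 * ρ)) (2 * ρ), ∫⁻ b : ℝ, ∫⁻ z : ℝ, f !₂[a, b, z] := s1
    _ = ∫⁻ a in Icc (-(2 * ρ)) (2 * ρ), ∫⁻ z : ℝ, ∫⁻ b : ℝ, f !₂[a, b, z] := by simp only [s2]
    _ ≤ ∫⁻ a in Icc (-(2 * ρ)) (2 * ρ), ∫⁻ z : ℝ, ENNReal.ofReal (8 * Real.pi * (w * μ) ^ 2) *
        ∫⁻ η in S, ENNReal.ofReal (‖VV H a z η‖ ^ 4) := by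
        apply lintegral_mono
        intro a
        apply lintegral_mono
        intro z
        exact s3 a z
    _ = ENNReal.ofReal (8 * Real.pi * (w * μ) ^ 2) * ∫⁻ a in Icc (-(2 * ρ)) (2 * ρ), ∫⁻ z : ℝ,
        ∫⁻ η in S, ENNReal.ofReal (‖VV H a z η‖ ^ 4) := by
        rw [← lintegral_const_mul']
        · apply lintegral_congr
          intro a
          rw [← lintegral_const_mul' _ _ ENNReal.ofReal_ne_top]
        · exact ENNReal.ofReal_ne_top
    _ = ENNReal.ofReal (8 * Real.pi * (w * μ) ^ 2) * ∫⁻ η in S, ∫⁻ a in Icc (-(2 * ρ)) (2 * ρ),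
        ∫⁻ z : ℝ, ENNReal.ofReal (‖VV H a z η‖ ^ 4) := by rw [s4]
    _ ≤ ENNReal.ofReal (8 * Real.pi * (w * μ) ^ 2) * ∫⁻ η in S, ENNReal.ofReal K *
        ∫⁻ c : ℝ, ENNReal.ofReal (dn η c) * ENNReal.ofReal (‖H (P η c)‖ ^ 2) := by
        exact mul_le_mul' le_rfl (setLIntegral_mono' measurableSet_Icc s5)
    _ = ENNReal.ofReal (8 * Real.pi * (w * μ) ^ 2) * (ENNReal.ofReal K * ∫⁻ η in S,
        ∫⁻ c : ℝ, ENNReal.ofReal (dn η c) * ENNReal.ofReal (‖H (P η c)‖ ^ 2)) := by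
        rw [lintegral_const_mul' _ _ ENNReal.ofReal_ne_top]
    _ ≤ ENNReal.ofReal (8 * Real.pi * (w * μ) ^ 2) * (ENNReal.ofReal K *
        ENNReal.ofReal (∫ x, ‖H x‖ ^ 2 ∂(sg 3))) := by gcongr
    _ = ENNReal.ofReal (8 * Real.pi * (w * μ) ^ 2 * K * ∫ x, ‖H x‖ ^ 2 ∂(sg 3)) := by
        rw [← ENNReal.ofReal_mul (by positivity), ← ENNReal.ofReal_mul (by positivity)]
        congr 1
        ring
    _ ≤ _ := by
        apply ENNReal.ofReal_le_ofReal
        apply mul_le_mul_of_nonneg_right _ hI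
        have e : 8 * Real.pi * (w * μ) ^ 2 * K =
            125 * Real.pi * C4 * w ^ 2 * μ ^ 2 * M ^ 2 * (1 + Real.log (2 * ρ * μ)) := by
          rw [hK]
          field_simp
          ring
        rw [e]
        calc 125 * Real.pi * C4 * w ^ 2 * μ ^ 2 * M ^ 2 * (1 + Real.log (2 * ρ * μ))
            ≤ 125 * Real.pi * C4 * w ^ 2 * μ ^ 2 * M ^ 2 * (2 * (1 + Real.log (ρ * μ))) := by gcongr
          _ = _ := by ring

theorem rot_meas (a : ℝ) : Measurable (rot a) := (rotL a).continuous.measurable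

/-- The bound for a rotated half strip. -/
theorem half_rot (C : ℝ) (hC : ∀ μ w M : ℝ, ∀ H : E 3 → ℂ, Half μ w M H → ∀ ρ : ℝ,
    1 ≤ ρ * μ →
    ∫⁻ x in {x : E 3 | x 0 ^ 2 + x 1 ^ 2 < (2 * ρ) ^ 2}, ENNReal.ofReal (‖T H x‖ ^ 4) ≤
      ENNReal.ofReal (C * w ^ 2 * μ ^ 2 * M ^ 2 * (1 + Real.log (ρ * μ)) *
        ∫ x, ‖H x‖ ^ 2 ∂(sg 3))) (a : ℝ) (μ w M : ℝ) (H : E 3 → ℂ)
    (h : Half μ w M (fun x => H (rot a x))) (ρ : ℝ) (hρ : 1 ≤ ρ * μ) :
    ∫⁻ x in {x : E 3 | x 0 ^ 2 + x 1 ^ 2 < (2 * ρ) ^ 2}, ENNReal.ofReal (‖T H x‖ ^ 4) ≤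
      ENNReal.ofReal (C * w ^ 2 * μ ^ 2 * M ^ 2 * (1 + Real.log (ρ * μ)) *
        ∫ x, ‖H x‖ ^ 2 ∂(sg 3)) := by
  have key := hC μ w M _ h ρ hρ
  simp only [T_rot] at key
  rw [lint_rot a (fun x => ENNReal.ofReal (‖T H x‖ ^ 4)), int_rot a (fun x => ‖H x‖ ^ 2)] at key
  exact key

theorem st_rot (a w : ℝ) (x : E 3) :
    (rot a x ∈ St a w ↔ |x 1| ≤ w * Real.sqrt (x 0 ^ 2 + x 1 ^ 2)) ∧
    (rot (a + Real.pi) x ∈ St a w ↔ |x 1| ≤ w * Real.sqrt (x 0 ^ 2 + x 1 ^ 2)) := by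
  have h := Real.sin_sq_add_cos_sq a
  constructor
  · have e1 : (rot a x) 0 = x 0 * Real.cos a - x 1 * Real.sin a := by simp [rot]
    have e2 : (rot a x) 1 = x 0 * Real.sin a + x 1 * Real.cos a := by simp [rot]
    have e3 : (rot a x) 1 * Real.cos a - (rot a x) 0 * Real.sin a = x 1 := by
      rw [e1, e2]
      have : (x 0 * Real.sin a + x 1 * Real.cos a) * Real.cos a -
        (x 0 * Real.cos a - x 1 * Real.sin a) * Real.sin a =
        x 1 * (Real.sin a ^ 2 + Real.cos a ^ 2) := by ring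
      rw [this, h, mul_one]
    have e4 : (rot a x) 0 ^ 2 + (rot a x) 1 ^ 2 = x 0 ^ 2 + x 1 ^ 2 := by
      rw [e1, e2]
      have : (x 0 * Real.cos a - x 1 * Real.sin a) ^ 2 +
        (x 0 * Real.sin a + x 1 * Real.cos a) ^ 2 =
        (x 0 ^ 2 + x 1 ^ 2) * (Real.sin a ^ 2 + Real.cos a ^ 2) := by ring
      rw [this, h, mul_one]
    unfold St
    rw [Set.mem_ofPred_eq, e3, e4]
  · have e1 : (rot (a + Real.pi) x) 0 = -(x 0 * Real.cos a - x 1 * Real.sin a) := by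
      simp [rot]; ring
    have e2 : (rot (a + Real.pi) x) 1 = -(x 0 * Real.sin a + x 1 * Real.cos a) := by
      simp [rot]; ring
    have e3 : (rot (a + Real.pi) x) 1 * Real.cos a - (rot (a + Real.pi) x) 0 * Real.sin a =
        -x 1 := by
      rw [e1, e2]
      have : -(x 0 * Real.sin a + x 1 * Real.cos a) * Real.cos a -
        -(x 0 * Real.cos a - x 1 * Real.sin a) * Real.sin a =
        -(x 1 * (Real.sin a ^ 2 + Real.cos a ^ 2)) := by ring
      rw [this, h, mul_one]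
    have e4 : (rot (a + Real.pi) x) 0 ^ 2 + (rot (a + Real.pi) x) 1 ^ 2 = x 0 ^ 2 + x 1 ^ 2 := by
      rw [e1, e2]
      have : (-(x 0 * Real.cos a - x 1 * Real.sin a)) ^ 2 +
        (-(x 0 * Real.sin a + x 1 * Real.cos a)) ^ 2 =
        (x 0 ^ 2 + x 1 ^ 2) * (Real.sin a ^ 2 + Real.cos a ^ 2) := by ring
      rw [this, h, mul_one]
    unfold St
    rw [Set.mem_ofPred_eq, e3, e4, abs_neg]

open Classical in
/-- Positive part. -/
noncomputable def Hp (a : ℝ) (H : E 3 → ℂ) (x : E 3) : ℂ :=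
  if 0 < (rot (-a) x) 0 then H x else 0

open Classical in
/-- Negative part. -/
noncomputable def Hn (a : ℝ) (H : E 3 → ℂ) (x : E 3) : ℂ :=
  if (rot (-a) x) 0 < 0 then H x else 0

theorem coord0_meas : Measurable fun x : E 3 => x 0 := by fun_prop

theorem Hp_meas (a : ℝ) (H : E 3 → ℂ) (hH : Measurable H) : Measurable (Hp a H) := by
  unfold Hp
  exact Measurable.ite (measurableSet_lt measurable_const (coord0_meas.comp (rot_meas (-a)))) hH
    measurable_const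

theorem Hn_meas (a : ℝ) (H : E 3 → ℂ) (hH : Measurable H) : Measurable (Hn a H) := by
  unfold Hn
  exact Measurable.ite (measurableSet_lt (coord0_meas.comp (rot_meas (-a))) measurable_const) hH
    measurable_const

theorem Hp_le (a : ℝ) (H : E 3 → ℂ) (x : E 3) : ‖Hp a H x‖ ≤ ‖H x‖ := by
  unfold Hp
  split_ifs
  · exact le_rfl
  · rw [norm_zero]; exact norm_nonneg _

theorem Hn_le (a : ℝ) (H : E 3 → ℂ) (x : E 3) : ‖Hn a H x‖ ≤ ‖H x‖ := by
  unfold Hn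
  split_ifs
  · exact le_rfl
  · rw [norm_zero]; exact norm_nonneg _

theorem split (a w μ : ℝ) (hw : w ≤ 1 / 2) (H : E 3 → ℂ)
    (hs : ∀ x, x 2 ∉ band μ → H x = 0) (hst : ∀ x, x ∉ St a w → H x = 0) (x : E 3)
    (hx : ‖x‖ = 1) : H x = Hp a H x + Hn a H x := by
  have e1 : (rot (-a) x) 0 = x 0 * Real.cos a + x 1 * Real.sin a := by simp [rot]
  unfold Hp Hn
  rcases lt_trichotomy ((rot (-a) x) 0) 0 with h | h | h
  · rw [if_neg (not_lt.mpr h.le), if_pos h, zero_add]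
  · rw [if_neg (not_lt.mpr h.le), if_neg (not_lt.mpr h.ge), add_zero]
    by_contra hne
    have hb : x 2 ∈ band μ := by
      by_contra hcon
      exact hne (hs x hcon)
    have hS : x ∈ St a w := by
      by_contra hcon
      exact hne (hst x hcon)
    unfold St at hS
    rw [Set.mem_ofPred_eq] at hS
    set q := x 1 * Real.cos a - x 0 * Real.sin a with hq
    have hsc := Real.sin_sq_add_cos_sq a
    have e2 : x 0 ^ 2 + x 1 ^ 2 = q ^ 2 := by
      have : x 0 ^ 2 + x 1 ^ 2 = (x 0 * Real.cos a + x 1 * Real.sin a) ^ 2 + q ^ 2 := by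
        have h3 : (x 0 * Real.cos a + x 1 * Real.sin a) ^ 2 + q ^ 2 =
          (x 0 ^ 2 + x 1 ^ 2) * (Real.sin a ^ 2 + Real.cos a ^ 2) := by rw [hq]; ring
        rw [h3, hsc, mul_one]
      rw [this, ← e1, h]; ring
    rw [e2, Real.sqrt_sq_eq_abs] at hS
    have h4 : |q| = 0 := by nlinarith [abs_nonneg q]
    have h5 : q = 0 := abs_eq_zero.mp h4
    rw [EuclideanSpace.norm_eq, Real.sqrt_eq_one] at hx
    simp only [Fin.sum_univ_three, Real.norm_eq_abs, sq_abs] at hx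
    have h6 : x 2 ^ 2 = 1 := by
      rw [h5] at e2
      linarith
    have h7 := hb.1
    have h8 : x 2 ^ 2 < 1 := by
      rw [← sq_abs]
      nlinarith [abs_nonneg (x 2)]
    linarith
  · rw [if_pos h, if_neg (not_lt.mpr h.le), add_zero]

theorem T_split (a w μ M : ℝ) (hw : w ≤ 1 / 2) (H : E 3 → ℂ) (hH : Measurable H)
    (hM : ∀ x, ‖H x‖ ≤ M)
    (hs : ∀ x, x 2 ∉ band μ → H x = 0) (hst : ∀ x, x ∉ St a w → H x = 0) (x : E 3) :
    T H x = T (Hp a H) x + T (Hn a H) x := by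
  have := sg_finite 3
  have hph : Measurable fun w : E 3 => Complex.exp (-((⟪x, w⟫ : ℝ) : ℂ) * I) := by
    apply Complex.measurable_exp.comp
    apply Measurable.mul_const
    apply Measurable.neg
    apply Complex.measurable_ofReal.comp
    exact (Continuous.inner continuous_const continuous_id).measurable
  have hint : ∀ G : E 3 → ℂ, Measurable G → (∀ x, ‖G x‖ ≤ M) →
      Integrable (fun w => Complex.exp (-((⟪x, w⟫ : ℝ) : ℂ) * I) * G w) (sg 3) := by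
    intro G hG hGM
    refine Integrable.of_bound (hph.mul hG).aestronglyMeasurable M ?_
    apply Filter.Eventually.of_forall
    intro w
    rw [norm_mul, nrm_phase, one_mul]
    exact hGM w
  unfold T
  rw [← integral_add (hint _ (Hp_meas a H hH) (fun x => (Hp_le a H x).trans (hM x)))
    (hint _ (Hn_meas a H hH) (fun x => (Hn_le a H x).trans (hM x)))]
  apply integral_congr_ae
  filter_upwards [sg_ae 3] with y hy
  rw [← mul_add, ← split a w μ hw H hs hst y hy]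

end V4a

theorem strip : ∃ C : ℝ, 0 < C ∧ ∀ μ : ℝ, 0 < μ → μ ≤ 1 → ∀ ρ : ℝ, 1 ≤ ρ * μ →
    ∀ w : ℝ, 0 < w → w ≤ 1 / 2 → ∀ a : ℝ, ∀ H : E 3 → ℂ, Measurable H →
    ∀ M : ℝ, (∀ x, ‖H x‖ ≤ M) → (∀ x, x 2 ∉ band μ → H x = 0) → (∀ x, x ∉ St a w → H x = 0) →
    ∫⁻ x in {x : E 3 | x 0 ^ 2 + x 1 ^ 2 < (2 * ρ) ^ 2}, ENNReal.ofReal (‖T H x‖ ^ 4) ≤
      ENNReal.ofReal (C * w ^ 2 * μ ^ 2 * M ^ 2 * (1 + Real.log (ρ * μ)) *
        ∫ x, ‖H x‖ ^ 2 ∂(sg 3)) := by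
  obtain ⟨C, hC0, hC⟩ := V4a.half0
  have := sg_finite 3
  refine ⟨16 * C, by positivity, ?_⟩
  intro μ hμ hμ1 ρ hρ w hw hw1 a H hH M hM hs hst
  have hM0 : 0 ≤ M := (norm_nonneg _).trans (hM 0)
  have hrot2 : ∀ (b : ℝ) (x : E 3), (rot b x) 2 = x 2 := by
    intro b x; simp [rot]
  have hHp : V4a.Half μ w M (fun x => V4a.Hp a H (rot a x)) := by
    refine ⟨hμ, hμ1, hw, hw1, (V4a.Hp_meas a H hH).comp (V4a.rot_meas a),
      fun x => (V4a.Hp_le a H _).trans (hM _), ?_, ?_, ?_⟩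
    · intro x hx
      simp only [V4a.Hp]
      rw [hs (rot a x) (by rw [hrot2]; exact hx), ite_self]
    · intro x hx
      simp only [V4a.Hp]
      rw [hst (rot a x) (fun h => hx ((V4a.st_rot a w x).1.mp h)), ite_self]
    · intro x hx
      simp only [V4a.Hp]
      rw [V4a.rot_rot, neg_add_cancel, V4a.rot_zero, if_neg (not_lt.mpr hx)]
  have hHn : V4a.Half μ w M (fun x => V4a.Hn a H (rot (a + Real.pi) x)) := by
    refine ⟨hμ, hμ1, hw, hw1, (V4a.Hn_meas a H hH).comp (V4a.rot_meas _),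
      fun x => (V4a.Hn_le a H _).trans (hM _), ?_, ?_, ?_⟩
    · intro x hx
      simp only [V4a.Hn]
      rw [hs (rot (a + Real.pi) x) (by rw [hrot2]; exact hx), ite_self]
    · intro x hx
      simp only [V4a.Hn]
      rw [hst (rot (a + Real.pi) x) (fun h => hx ((V4a.st_rot a w x).2.mp h)), ite_self]
    · intro x hx
      simp only [V4a.Hn]
      rw [V4a.rot_rot, show -a + (a + Real.pi) = Real.pi by ring, if_neg]
      have : (rot Real.pi x) 0 = - x 0 := by simp [rot]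
      rw [this]
      linarith
  have k1 := V4a.half_rot C hC a μ w M (V4a.Hp a H) hHp ρ hρ
  have k2 := V4a.half_rot C hC (a + Real.pi) μ w M (V4a.Hn a H) hHn ρ hρ
  have hlog0 : 0 ≤ Real.log (ρ * μ) := Real.log_nonneg hρ
  have hint : Integrable (fun x => ‖H x‖ ^ 2) (sg 3) := by
    refine Integrable.of_bound (hH.norm.pow_const 2).aestronglyMeasurable (M ^ 2) ?_
    apply Filter.Eventually.of_forall
    intro x
    rw [norm_pow, norm_norm]
    exact pow_le_pow_left₀ (norm_nonneg _) (hM x) 2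
  have i1 : ∫ x, ‖V4a.Hp a H x‖ ^ 2 ∂(sg 3) ≤ ∫ x, ‖H x‖ ^ 2 ∂(sg 3) := by
    apply integral_mono_of_nonneg (Filter.Eventually.of_forall fun x => by positivity) hint
    exact Filter.Eventually.of_forall fun x =>
      pow_le_pow_left₀ (norm_nonneg _) (V4a.Hp_le a H x) 2
  have i2 : ∫ x, ‖V4a.Hn a H x‖ ^ 2 ∂(sg 3) ≤ ∫ x, ‖H x‖ ^ 2 ∂(sg 3) := by
    apply integral_mono_of_nonneg (Filter.Eventually.of_forall fun x => by positivity) hint
    exact Filter.Eventually.of_forall fun x =>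
      pow_le_pow_left₀ (norm_nonneg _) (V4a.Hn_le a H x) 2
  set Q : ℝ := C * w ^ 2 * μ ^ 2 * M ^ 2 * (1 + Real.log (ρ * μ)) with hQ
  have hQ0 : 0 ≤ Q := by positivity
  set I0 : ℝ := ∫ x, ‖H x‖ ^ 2 ∂(sg 3) with hI0
  have hI00 : 0 ≤ I0 := by positivity
  have k1' := k1.trans (ENNReal.ofReal_le_ofReal (mul_le_mul_of_nonneg_left i1 hQ0))
  have k2' := k2.trans (ENNReal.ofReal_le_ofReal (mul_le_mul_of_nonneg_left i2 hQ0))
  have hm1 : Measurable fun x => ENNReal.ofReal (‖T (V4a.Hp a H) x‖ ^ 4) :=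
    ((V4a.T_meas _ (V4a.Hp_meas a H hH)).norm.pow_const 4).ennreal_ofReal
  calc ∫⁻ x in {x : E 3 | x 0 ^ 2 + x 1 ^ 2 < (2 * ρ) ^ 2}, ENNReal.ofReal (‖T H x‖ ^ 4)
      ≤ ∫⁻ x in {x : E 3 | x 0 ^ 2 + x 1 ^ 2 < (2 * ρ) ^ 2}, 8 *
        (ENNReal.ofReal (‖T (V4a.Hp a H) x‖ ^ 4) + ENNReal.ofReal (‖T (V4a.Hn a H) x‖ ^ 4)) := by
        apply lintegral_mono
        intro x
        simp only
        rw [V4a.T_split a w μ M hw1 H hH hM hs hst x, ← ENNReal.ofReal_add (by positivity)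
          (by positivity), show (8 : ℝ≥0∞) = ENNReal.ofReal 8 by simp,
          ← ENNReal.ofReal_mul (by norm_num)]
        apply ENNReal.ofReal_le_ofReal
        set p := ‖T (V4a.Hp a H) x‖
        set q := ‖T (V4a.Hn a H) x‖
        have h1 : ‖T (V4a.Hp a H) x + T (V4a.Hn a H) x‖ ≤ p + q := norm_add_le _ _
        calc ‖T (V4a.Hp a H) x + T (V4a.Hn a H) x‖ ^ 4 ≤ (p + q) ^ 4 :=
              pow_le_pow_left₀ (norm_nonneg _) h1 4
          _ ≤ 8 * (p ^ 4 + q ^ 4) := by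
            nlinarith [sq_nonneg (p - q), sq_nonneg (p ^ 2 - q ^ 2), sq_nonneg (p + q),
              mul_nonneg (sq_nonneg (p - q)) (sq_nonneg (p + q)), sq_nonneg (p * q),
              mul_nonneg (sq_nonneg (p - q)) (sq_nonneg (p - q)),
              mul_nonneg (sq_nonneg (p - q)) (add_nonneg (sq_nonneg p) (sq_nonneg q))]
    _ = 8 * ((∫⁻ x in {x : E 3 | x 0 ^ 2 + x 1 ^ 2 < (2 * ρ) ^ 2},
          ENNReal.ofReal (‖T (V4a.Hp a H) x‖ ^ 4)) +
        ∫⁻ x in {x : E 3 | x 0 ^ 2 + x 1 ^ 2 < (2 * ρ) ^ 2},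
          ENNReal.ofReal (‖T (V4a.Hn a H) x‖ ^ 4)) := by
        rw [lintegral_const_mul' _ _ (by norm_num), lintegral_add_left hm1]
    _ ≤ 8 * (ENNReal.ofReal (Q * I0) + ENNReal.ofReal (Q * I0)) := by gcongr
    _ = ENNReal.ofReal (16 * (Q * I0)) := by
        rw [← ENNReal.ofReal_add (by positivity) (by positivity),
          show (8 : ℝ≥0∞) = ENNReal.ofReal 8 by simp, ← ENNReal.ofReal_mul (by norm_num)]
        congr 1
        ring
    _ = _ := by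
        congr 1
        rw [hQ]
        ring

end Pool.Agent.H789R2.FR
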