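import Mathlib
import Pool.Agent.H789R2.FR.Defs6
import Pool.Agent.H789R2.FR.AvOp
import Pool.Agent.H789R2.FR.Loc
import Pool.Agent.H789R2.FR.Strip
import Pool.Agent.H789R2.FR.L2
import Pool.Agent.H789R2.FR.L2Cyl
import Pool.Agent.H789R2.FR.Avg
set_option autoImplicit false

/-! Task V5: `L^4` bound for the smoothed part, decomposition into sectors. -/

namespace Pool.Agent.H789R2.FR

open MeasureTheory Measure Set Metric Complex
open scoped ENNReal Pointwise RealInnerProductSpace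

namespace V5

open L2

/-! ### counting -/

theorem near_mult (u W : ℝ) (h : |Real.sin u| ≤ 2 * W) :
    ∃ j : ℤ, |u - j * Real.pi| ≤ Real.pi * W ∧ |u - j * Real.pi| ≤ Real.pi / 2 := by
  have hpi := Real.pi_pos
  set j : ℤ := round (u / Real.pi) with hj
  have h1 : |u / Real.pi - j| ≤ 1 / 2 := abs_sub_round (u / Real.pi)
  have h2 : |u - j * Real.pi| ≤ Real.pi / 2 := by
    have : u - j * Real.pi = Real.pi * (u / Real.pi - j) := by field_simp
    rw [this, abs_mul, abs_of_pos hpi]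
    nlinarith
  refine ⟨j, ?_, h2⟩
  have h3 := Real.mul_abs_le_abs_sin h2
  have h4 : |Real.sin (u - j * Real.pi)| = |Real.sin u| := by
    rw [Real.sin_sub_int_mul_pi, abs_mul]
    have : |((-1 : ℝ)) ^ j| = 1 := by
      rw [abs_zpow]; simp
    rw [this, one_mul]
  rw [h4] at h3
  have h5 : 2 / Real.pi * |u - j * Real.pi| ≤ 2 * W := h3.trans h
  rw [div_mul_eq_mul_div, div_le_iff₀ hpi] at h5
  linarith

open Classical in
theorem count (W : ℝ) (hW : 0 < W) (hW1 : W ≤ 1) (n : ℕ) (hn : (n : ℝ) * W ≤ Real.pi + 2) (φ : ℝ)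
    (hφ : |φ| ≤ Real.pi) :
    (((Finset.range (n + 1)).filter fun k : ℕ => |Real.sin (φ - k * W)| ≤ 2 * W).card : ℝ) ≤ 72 := by
  have hpi := Real.pi_pos
  have hpi3 := Real.pi_gt_three
  have hpi4 := Real.pi_lt_d2
  set K : Finset ℕ := (Finset.range (n + 1)).filter fun k : ℕ => |Real.sin (φ - k * W)| ≤ 2 * W
    with hK
  let y : ℤ → ℝ := fun j => (φ - j * Real.pi) / W
  let B : Finset ℤ := (Finset.Icc (-3 : ℤ) 3).biUnion fun j =>
    Finset.Icc ⌈y j - Real.pi⌉ ⌊y j + Real.pi⌋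
  have h1 : K.image (fun k : ℕ => (k : ℤ)) ⊆ B := by
    intro z hz
    rw [Finset.mem_image] at hz
    obtain ⟨k, hk, rfl⟩ := hz
    rw [hK, Finset.mem_filter, Finset.mem_range] at hk
    obtain ⟨hk1, hk2⟩ := hk
    obtain ⟨j, hj1, hj2⟩ := near_mult _ W hk2
    have hk3 : (k : ℝ) * W ≤ Real.pi + 2 := by
      have : (k : ℝ) ≤ n := by exact_mod_cast (by omega : k ≤ n)
      nlinarith
    have hk4 : 0 ≤ (k : ℝ) * W := by positivity
    rw [abs_le] at hφ hj2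
    have hj3 : (j : ℝ) * Real.pi < 4 * Real.pi := by nlinarith
    have hj4 : (-4 : ℝ) * Real.pi < (j : ℝ) * Real.pi := by nlinarith
    have hj5 : (j : ℝ) < 4 := lt_of_mul_lt_mul_right hj3 hpi.le
    have hj6 : (-4 : ℝ) < (j : ℝ) := lt_of_mul_lt_mul_right hj4 hpi.le
    have hj7 : j < 4 := by exact_mod_cast hj5
    have hj8 : -4 < j := by exact_mod_cast hj6
    refine Finset.mem_biUnion.mpr ⟨j, Finset.mem_Icc.mpr ⟨by omega, by omega⟩, ?_⟩
    rw [abs_le] at hj1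
    have e1 : y j - k = (φ - k * W - j * Real.pi) / W := by
      simp only [y]
      field_simp
      ring
    have e2 : y j - k ≤ Real.pi := by
      rw [e1, div_le_iff₀ hW]
      exact hj1.2
    have e3 : -Real.pi ≤ y j - k := by
      rw [e1, le_div_iff₀ hW]
      linarith [hj1.1]
    rw [Finset.mem_Icc]
    constructor
    · rw [Int.ceil_le]
      push_cast
      linarith
    · rw [Int.le_floor]
      push_cast
      linarith
  have h2 : K.card = (K.image (fun k : ℕ => (k : ℤ))).card :=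
    (Finset.card_image_of_injective _ Nat.cast_injective).symm
  have h3 : (B.card : ℝ) ≤ ∑ j ∈ Finset.Icc (-3 : ℤ) 3, (8 : ℝ) := by
    have h4 : B.card ≤ ∑ j ∈ Finset.Icc (-3 : ℤ) 3,
        (Finset.Icc ⌈y j - Real.pi⌉ ⌊y j + Real.pi⌋).card := Finset.card_biUnion_le
    have h5 : ∀ j : ℤ, (((Finset.Icc ⌈y j - Real.pi⌉ ⌊y j + Real.pi⌋).card : ℕ) : ℝ) ≤ 8 := by
      intro j
      rw [Int.card_Icc]
      have e1 : ((⌊y j + Real.pi⌋ + 1 - ⌈y j - Real.pi⌉ : ℤ) : ℝ) ≤ 8 := by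
        have := Int.floor_le (y j + Real.pi)
        have := Int.le_ceil (y j - Real.pi)
        push_cast
        linarith
      have e2 : (⌊y j + Real.pi⌋ + 1 - ⌈y j - Real.pi⌉ : ℤ) ≤ 8 := by exact_mod_cast e1
      have e3 : (⌊y j + Real.pi⌋ + 1 - ⌈y j - Real.pi⌉).toNat ≤ 8 := by omega
      exact_mod_cast e3
    calc (B.card : ℝ) ≤ ((∑ j ∈ Finset.Icc (-3 : ℤ) 3,
        (Finset.Icc ⌈y j - Real.pi⌉ ⌊y j + Real.pi⌋).card : ℕ) : ℝ) := by exact_mod_cast h4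
      _ = ∑ j ∈ Finset.Icc (-3 : ℤ) 3,
        ((Finset.Icc ⌈y j - Real.pi⌉ ⌊y j + Real.pi⌋).card : ℝ) := by push_cast; rfl
      _ ≤ _ := Finset.sum_le_sum fun j _ => h5 j
  have h6 : ∑ j ∈ Finset.Icc (-3 : ℤ) 3, (8 : ℝ) = 56 := by
    rw [Finset.sum_const, Int.card_Icc]
    have : ((3 + 1 - (-3) : ℤ)).toNat = 7 := rfl
    rw [this]
    norm_num
  have h7 : (K.card : ℝ) ≤ B.card := by
    rw [h2]
    exact_mod_cast Finset.card_le_card h1
  linarith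

/-! ### the sectors -/

theorem meas_coord (i : Fin 3) : Measurable fun x : E 3 => x i := by
  have : Continuous fun x : E 3 => x i := by fun_prop
  exact this.measurable

theorem meas_St (a w : ℝ) : MeasurableSet (St a w) := by
  unfold St
  refine measurableSet_le ?_ ?_
  · exact (((meas_coord 1).mul_const _).sub ((meas_coord 0).mul_const _)).abs
  · exact (((meas_coord 0).pow_const 2).add ((meas_coord 1).pow_const 2)).sqrt.const_mul _

theorem meas_shl (ρ : ℝ) : MeasurableSet (shl ρ) := by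
  unfold shl
  exact (measurableSet_le measurable_const
    (((meas_coord 0).pow_const 2).add ((meas_coord 1).pow_const 2))).inter
    (measurableSet_lt (((meas_coord 0).pow_const 2).add ((meas_coord 1).pow_const 2))
      measurable_const)

/-- polar angle -/
theorem exists_polar (x : E 3) : ∃ φ t : ℝ, 0 ≤ t ∧ |φ| ≤ Real.pi ∧
    t = Real.sqrt (x 0 ^ 2 + x 1 ^ 2) ∧ x 0 = t * Real.cos φ ∧ x 1 = t * Real.sin φ := by
  set z : ℂ := ⟨x 0, x 1⟩ with hz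
  have h1 : ‖z‖ = Real.sqrt (x 0 ^ 2 + x 1 ^ 2) := by
    rw [Complex.norm_def, Complex.normSq_apply]
    congr 1
    simp only [hz]
    ring
  refine ⟨Complex.arg z, ‖z‖, norm_nonneg _, Complex.abs_arg_le_pi z, h1, ?_, ?_⟩
  · rw [Complex.norm_mul_cos_arg]
  · rw [Complex.norm_mul_sin_arg]

theorem mem_St_iff (x : E 3) (φ t : ℝ) (ht : 0 < t) (htx : t = Real.sqrt (x 0 ^ 2 + x 1 ^ 2))
    (h0 : x 0 = t * Real.cos φ) (h1 : x 1 = t * Real.sin φ) (a w : ℝ) :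
    x ∈ St a w ↔ |Real.sin (φ - a)| ≤ w := by
  show |x 1 * Real.cos a - x 0 * Real.sin a| ≤ w * Real.sqrt (x 0 ^ 2 + x 1 ^ 2) ↔ _
  rw [← htx, h0, h1]
  have : t * Real.sin φ * Real.cos a - t * Real.cos φ * Real.sin a = t * Real.sin (φ - a) := by
    rw [Real.sin_sub]; ring
  rw [this, abs_mul, abs_of_pos ht, mul_comm w t]
  exact mul_le_mul_iff_of_pos_left ht

theorem cover (W : ℝ) (hW : 0 < W) (n : ℕ) (hn : Real.pi ≤ n * W) (ρ : ℝ) (hρ : 0 < ρ) :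
    shl ρ ⊆ ⋃ k : Fin (n + 1), (shl ρ ∩ St ((k : ℕ) * W) W) := by
  have hpi := Real.pi_pos
  intro x hx
  obtain ⟨φ, t, ht0, hφ, htx, h0, h1⟩ := exists_polar x
  have ht : 0 < t := by
    rw [htx]
    apply Real.sqrt_pos.mpr
    have := hx.1
    nlinarith
  rw [abs_le] at hφ
  -- an equivalent angle in `[0, π]`
  obtain ⟨ψ, hψ0, hψ1, hψ⟩ : ∃ ψ : ℝ, 0 ≤ ψ ∧ ψ ≤ Real.pi ∧
      ∀ a, |Real.sin (φ - a)| = |Real.sin (ψ - a)| := by
    by_cases h : 0 ≤ φ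
    · exact ⟨φ, h, hφ.2, fun a => rfl⟩
    · push Not at h
      refine ⟨φ + Real.pi, by linarith [hφ.1], by linarith, fun a => ?_⟩
      rw [show φ + Real.pi - a = (φ - a) + Real.pi by ring, Real.sin_add_pi, abs_neg]
  set k : ℕ := ⌊ψ / W⌋₊ with hk
  have hk1 : (k : ℝ) ≤ ψ / W := Nat.floor_le (by positivity)
  have hk2 : ψ / W < k + 1 := Nat.lt_floor_add_one _
  have hk3 : k ≤ n := by
    have h2 : ψ / W ≤ n := by
      rw [div_le_iff₀ hW]
      linarith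
    exact_mod_cast hk1.trans h2
  rw [le_div_iff₀ hW] at hk1
  rw [div_lt_iff₀ hW] at hk2
  refine mem_iUnion.mpr ⟨⟨k, by omega⟩, hx, ?_⟩
  rw [mem_St_iff x φ t ht htx h0 h1, hψ]
  calc |Real.sin (ψ - (k : ℝ) * W)| ≤ |ψ - (k : ℝ) * W| := Real.abs_sin_le_abs
    _ ≤ W := by
      rw [abs_le]
      constructor <;> nlinarith

/-! ### the operator `T` -/

theorem intg (f : E 3 → ℂ) (hf : Measurable f) (M : ℝ) (hM : ∀ x, ‖f x‖ ≤ M) (x : E 3) :
    Integrable (fun w => ph x w * f w) (sg 3) := by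
  haveI := sg_finite 3
  refine Integrable.of_bound (C := M) ?_ ?_
  · exact ((continuous_ph.comp (Continuous.prodMk_right x)).measurable.mul hf).aestronglyMeasurable
  · refine Filter.Eventually.of_forall fun w => ?_
    rw [norm_mul, norm_ph, one_mul]
    exact hM w

theorem T_add (f g : E 3 → ℂ) (hf : Measurable f) (hg : Measurable g) (M : ℝ)
    (hM : ∀ x, ‖f x‖ ≤ M) (hM' : ∀ x, ‖g x‖ ≤ M) (x : E 3) :
    T (fun y => f y + g y) x = T f x + T g x := by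
  rw [T_eq, T_eq, T_eq, ← integral_add (intg f hf M hM x) (intg g hg M hM' x)]
  congr 1
  funext w
  ring

theorem T_le (f : E 3 → ℂ) (x : E 3) : ‖T f x‖ ≤ ∫ w, ‖f w‖ ∂(sg 3) := by
  rw [T_eq]
  refine (norm_integral_le_integral_norm _).trans (le_of_eq ?_)
  congr 1
  funext w
  rw [norm_mul, norm_ph, one_mul]

theorem four_le (a b c : ℂ) : ‖a + b + c‖ ^ 4 ≤ 27 * ‖a‖ ^ 4 + 27 * ‖b‖ ^ 4 + 27 * ‖c‖ ^ 4 := by
  have h1 : ‖a + b + c‖ ≤ ‖a‖ + ‖b‖ + ‖c‖ := norm_add₃_le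
  have h2 : ‖a + b + c‖ ^ 4 ≤ (‖a‖ + ‖b‖ + ‖c‖) ^ 4 := by gcongr
  have ha := norm_nonneg a
  have hb := norm_nonneg b
  have hc := norm_nonneg c
  set u := ‖a‖
  set v := ‖b‖
  set w := ‖c‖
  have h3 : (u + v + w) ^ 2 ≤ 3 * (u ^ 2 + v ^ 2 + w ^ 2) := by
    nlinarith [sq_nonneg (u - v), sq_nonneg (v - w), sq_nonneg (u - w)]
  have h4 : (u ^ 2 + v ^ 2 + w ^ 2) ^ 2 ≤ 3 * (u ^ 4 + v ^ 4 + w ^ 4) := by
    nlinarith [sq_nonneg (u ^ 2 - v ^ 2), sq_nonneg (v ^ 2 - w ^ 2), sq_nonneg (u ^ 2 - w ^ 2)]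
  have h5 : (u + v + w) ^ 4 ≤ 27 * (u ^ 4 + v ^ 4 + w ^ 4) := by
    calc (u + v + w) ^ 4 = ((u + v + w) ^ 2) ^ 2 := by ring
      _ ≤ (3 * (u ^ 2 + v ^ 2 + w ^ 2)) ^ 2 := by gcongr
      _ = 9 * (u ^ 2 + v ^ 2 + w ^ 2) ^ 2 := by ring
      _ ≤ _ := by linarith
  linarith

/-- three-term splitting in `L^4` -/
theorem split4 (S : Set (E 3)) (F f g h : E 3 → ℂ) (hf : Measurable f) (hg : Measurable g)
    (hh : Measurable h) (M : ℝ) (hM : ∀ x, ‖f x‖ ≤ M) (hM' : ∀ x, ‖g x‖ ≤ M)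
    (hM'' : ∀ x, ‖h x‖ ≤ M) (hF : ∀ x, F x = f x + g x + h x) (Cf Cg Ch : ℝ) (h1 : 0 ≤ Cf)
    (h2 : 0 ≤ Cg) (h3 : 0 ≤ Ch)
    (hCf : ∫⁻ x in S, ENNReal.ofReal (‖T f x‖ ^ 4) ≤ ENNReal.ofReal Cf)
    (hCg : ∫⁻ x in S, ENNReal.ofReal (‖T g x‖ ^ 4) ≤ ENNReal.ofReal Cg)
    (hCh : ∫⁻ x in S, ENNReal.ofReal (‖T h x‖ ^ 4) ≤ ENNReal.ofReal Ch) :
    ∫⁻ x in S, ENNReal.ofReal (‖T F x‖ ^ 4) ≤ ENNReal.ofReal (27 * (Cf + Cg + Ch)) := by
  haveI := sg_finite 3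
  have hMM : 0 ≤ M := le_trans (norm_nonneg _) (hM 0)
  have e1 : ∀ x, T F x = T f x + T g x + T h x := by
    intro x
    have hFe : F = fun y => (fun z => f z + g z) y + h y := funext fun y => hF y
    have e0 := T_add (fun z => f z + g z) h (hf.add hg) hh (2 * M)
      (fun y => (norm_add_le _ _).trans (by linarith [hM y, hM' y]))
      (fun y => (hM'' y).trans (by linarith)) x
    rw [hFe, e0, T_add f g hf hg M hM hM' x]
  have mf : Measurable fun x => ENNReal.ofReal (‖T f x‖ ^ 4) :=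
    ((measurable_T f hf).measurable.norm.pow_const 4).ennreal_ofReal
  have mg : Measurable fun x => ENNReal.ofReal (‖T g x‖ ^ 4) :=
    ((measurable_T g hg).measurable.norm.pow_const 4).ennreal_ofReal
  have mh : Measurable fun x => ENNReal.ofReal (‖T h x‖ ^ 4) :=
    ((measurable_T h hh).measurable.norm.pow_const 4).ennreal_ofReal
  calc ∫⁻ x in S, ENNReal.ofReal (‖T F x‖ ^ 4)
      ≤ ∫⁻ x in S, (ENNReal.ofReal 27 * ENNReal.ofReal (‖T f x‖ ^ 4) +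
          ENNReal.ofReal 27 * ENNReal.ofReal (‖T g x‖ ^ 4) +
          ENNReal.ofReal 27 * ENNReal.ofReal (‖T h x‖ ^ 4)) := by
        refine lintegral_mono fun x => ?_
        rw [← ENNReal.ofReal_mul (by norm_num), ← ENNReal.ofReal_mul (by norm_num),
          ← ENNReal.ofReal_mul (by norm_num), ← ENNReal.ofReal_add (by positivity) (by positivity),
          ← ENNReal.ofReal_add (by positivity) (by positivity), e1]
        exact ENNReal.ofReal_le_ofReal (four_le _ _ _)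
    _ = ENNReal.ofReal 27 * (∫⁻ x in S, ENNReal.ofReal (‖T f x‖ ^ 4)) +
          ENNReal.ofReal 27 * (∫⁻ x in S, ENNReal.ofReal (‖T g x‖ ^ 4)) +
          ENNReal.ofReal 27 * (∫⁻ x in S, ENNReal.ofReal (‖T h x‖ ^ 4)) := by
        have m1 := mf.const_mul (ENNReal.ofReal 27)
        have m2 := mg.const_mul (ENNReal.ofReal 27)
        have m12 : Measurable fun x => ENNReal.ofReal 27 * ENNReal.ofReal (‖T f x‖ ^ 4) +
          ENNReal.ofReal 27 * ENNReal.ofReal (‖T g x‖ ^ 4) := m1.add m2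
        rw [lintegral_add_left m12, lintegral_add_left m1, lintegral_const_mul _ mf,
          lintegral_const_mul _ mg, lintegral_const_mul _ mh]
    _ ≤ ENNReal.ofReal 27 * ENNReal.ofReal Cf + ENNReal.ofReal 27 * ENNReal.ofReal Cg +
          ENNReal.ofReal 27 * ENNReal.ofReal Ch := by gcongr
    _ = ENNReal.ofReal (27 * (Cf + Cg + Ch)) := by
        rw [← ENNReal.ofReal_mul (by norm_num), ← ENNReal.ofReal_mul (by norm_num),
          ← ENNReal.ofReal_mul (by norm_num), ← ENNReal.ofReal_add (by positivity) (by positivity),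
          ← ENNReal.ofReal_add (by positivity) (by positivity)]
        congr 1
        ring

theorem sq_intg (f : E 3 → ℂ) (hf : Measurable f) (M : ℝ) (hM : ∀ x, ‖f x‖ ≤ M) :
    Integrable (fun w => ‖f w‖ ^ 2) (sg 3) := by
  haveI := sg_finite 3
  refine Integrable.of_bound (C := M ^ 2) (hf.norm.pow_const 2).aestronglyMeasurable ?_
  refine Filter.Eventually.of_forall fun w => ?_
  rw [Real.norm_of_nonneg (by positivity)]
  exact pow_le_pow_left₀ (norm_nonneg _) (hM w) 2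

theorem ind_le (S : Set (E 3)) (f : E 3 → ℂ) (x : E 3) : ‖S.indicator f x‖ ≤ ‖f x‖ :=
  norm_indicator_le_norm_self f x

/-- one sector -/
theorem sector (ε : ℝ) (hε : 0 < ε) : ∃ C : ℝ, 0 < C ∧ ∀ μ : ℝ, 0 < μ → μ ≤ 1 →
    ∀ ρ : ℝ, 1 ≤ ρ * μ → ∀ κ : ℝ, ρ * μ ≤ κ → κ ≤ (ρ * μ) ^ 2 →
    ∀ W : ℝ, W = (ρ * μ) ^ ε * κ ^ (1 / 2 : ℝ) / (ρ * μ) → W ≤ 1 / 8 → ∀ a : ℝ,
    ∀ G : E 3 → ℂ, Measurable G → ∀ M : ℝ, (∀ x, ‖G x‖ ≤ M) → (∀ x, x 2 ∉ band μ → G x = 0) →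
    ∫⁻ x in shl ρ ∩ St a W, ENNReal.ofReal (‖T (Av κ G) x‖ ^ 4) ≤
      ENNReal.ofReal (C * (M ^ 4 * μ ^ 4 * (ρ * μ) ^ (-3 : ℝ) +
        W ^ 2 * μ ^ 2 * M ^ 2 * (1 + Real.log (ρ * μ)) *
          ∫ x, ‖(St a (2 * W)).indicator G x‖ ^ 2 ∂(sg 3))) := by
  classical
  haveI := sg_finite 3
  obtain ⟨Cf, hCf, hfar⟩ := far ε hε 3 (by norm_num)
  obtain ⟨Cn, hCn, hnear⟩ := near_tail ε hε 1 (by norm_num)
  obtain ⟨Cs, hCs, hstrip⟩ := strip
  obtain ⟨C2, hC2, hL2⟩ := L2_cyl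
  refine ⟨27 * (Cf + 16000 * C2 * Cn ^ 4 + 16 * Cs), by positivity, ?_⟩
  intro μ hμ hμ1 ρ hρ κ hκ hκ2 W hW hW8 a G hG M hM hs
  set N : ℝ := ρ * μ with hN
  have hN0 : 0 < N := by linarith
  have hρ0 : 0 < ρ := by
    by_contra h
    push Not at h
    nlinarith
  have hM0 : 0 ≤ M := le_trans (norm_nonneg _) (hM 0)
  have hκ0 : 0 < κ := by linarith
  have hWpos : 0 < W := by rw [hW]; positivity
  have hlog : 0 ≤ Real.log N := Real.log_nonneg hρ
  set G1 : E 3 → ℂ := (St a (2 * W)).indicator G with hG1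
  set G2 : E 3 → ℂ := (St a (2 * W))ᶜ.indicator G with hG2
  have mG1 : Measurable G1 := hG.indicator (meas_St _ _)
  have mG2 : Measurable G2 := hG.indicator (meas_St _ _).compl
  have bG1 : ∀ x, ‖G1 x‖ ≤ M := fun x => (ind_le _ _ x).trans (hM x)
  have bG2 : ∀ x, ‖G2 x‖ ≤ M := fun x => (ind_le _ _ x).trans (hM x)
  have sG1 : ∀ x, x 2 ∉ band μ → G1 x = 0 := fun x hx => by
    rw [hG1, indicator_apply]; split_ifs
    · exact hs x hx
    · rfl
  have sG2 : ∀ x, x 2 ∉ band μ → G2 x = 0 := fun x hx => by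
    rw [hG2, indicator_apply]; split_ifs
    · exact hs x hx
    · rfl
  have hsum : ∀ x, Av κ G x = Av κ G2 x + Av κ G1 x := by
    intro x
    rw [← Av_add κ G2 G1 mG2 mG1 M bG2 bG1 x]
    congr 1
    funext y
    rw [hG1, hG2, add_comm]
    exact (indicator_self_add_compl_apply (St a (2 * W)) G y).symm
  set A1 : E 3 → ℂ := Av κ G1 with hA1
  have mA1 : Measurable A1 := Av_meas κ G1 mG1
  have bA1 : ∀ x, ‖A1 x‖ ≤ M := Av_bound κ G1 M bG1
  have sA1 : ∀ x, x 2 ∉ band μ → A1 x = 0 := Av_supp κ μ G1 sG1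
  set e : E 3 → ℂ := (St a (4 * W))ᶜ.indicator A1 with he
  set H : E 3 → ℂ := (St a (4 * W)).indicator A1 with hH
  have me : Measurable e := mA1.indicator (meas_St _ _).compl
  have mH : Measurable H := mA1.indicator (meas_St _ _)
  have be : ∀ x, ‖e x‖ ≤ M := fun x => (ind_le _ _ x).trans (bA1 x)
  have bH : ∀ x, ‖H x‖ ≤ M := fun x => (ind_le _ _ x).trans (bA1 x)
  have se : ∀ x, x 2 ∉ band μ → e x = 0 := fun x hx => by
    rw [he, indicator_apply]; split_ifs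
    · exact sA1 x hx
    · rfl
  have sH : ∀ x, x 2 ∉ band μ → H x = 0 := fun x hx => by
    rw [hH, indicator_apply]; split_ifs
    · exact sA1 x hx
    · rfl
  set Em : ℝ := Cn * M * N ^ (-1 : ℝ) with hEm
  have hEm0 : 0 ≤ Em := by positivity
  have be' : ∀ x, ‖e x‖ ≤ Em := by
    intro x
    by_cases hx : x ∈ St a (4 * W)
    · have : e x = 0 := by
        rw [he]
        exact indicator_of_notMem (Set.notMem_compl_iff.mpr hx) _
      rw [this, norm_zero]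
      exact hEm0
    · have h1 : e x = A1 x := by
        rw [he]
        exact indicator_of_mem hx _
      rw [h1]
      refine hnear N hρ κ hκ hκ2 W hW a G1 M bG1 (fun y hy => ?_) x hx
      rw [hG1]
      exact indicator_of_notMem hy _
  -- far part
  have P1 : ∫⁻ x in shl ρ ∩ St a W, ENNReal.ofReal (‖T (Av κ G2) x‖ ^ 4) ≤
      ENNReal.ofReal (Cf * M ^ 4 * μ ^ 4 * N ^ (-3 : ℝ)) := by
    refine hfar μ hμ hμ1 ρ hρ κ hκ hκ2 W hW a G2 mG2 M bG2 sG2 (fun x hx => ?_)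
    rw [hG2]
    exact indicator_of_notMem (Set.notMem_compl_iff.mpr hx) _
  -- error part
  have hNe : N ^ (-1 : ℝ) = N⁻¹ := Real.rpow_neg_one N
  have hN3 : N ^ (-3 : ℝ) = (N ^ 3)⁻¹ := by
    rw [Real.rpow_neg hN0.le]
    norm_cast
  have P2 : ∫⁻ x in shl ρ ∩ St a W, ENNReal.ofReal (‖T e x‖ ^ 4) ≤
      ENNReal.ofReal (16000 * C2 * Cn ^ 4 * (M ^ 4 * μ ^ 4 * N ^ (-3 : ℝ))) := by
    obtain ⟨hm1, hm2⟩ := band_mass μ hμ hμ1 e me Em be' se
    have h1 := hL2 μ hμ hμ1 (2 * ρ) (by positivity) e me ⟨M, be⟩ se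
    have hTe : ∀ x, ‖T e x‖ ≤ 20 * Em * μ ^ 2 := fun x => (T_le e x).trans hm1
    calc ∫⁻ x in shl ρ ∩ St a W, ENNReal.ofReal (‖T e x‖ ^ 4)
        ≤ ∫⁻ x in {x : E 3 | x 0 ^ 2 + x 1 ^ 2 ≤ (2 * ρ) ^ 2}, ENNReal.ofReal (‖T e x‖ ^ 4) :=
          lintegral_mono_set (fun x hx => Set.mem_ofPred_eq.mpr hx.1.2.le)
      _ ≤ ∫⁻ x in {x : E 3 | x 0 ^ 2 + x 1 ^ 2 ≤ (2 * ρ) ^ 2},
            ENNReal.ofReal ((20 * Em * μ ^ 2) ^ 2) * ENNReal.ofReal (‖T e x‖ ^ 2) := by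
          refine lintegral_mono fun x => ?_
          rw [← ENNReal.ofReal_mul (by positivity)]
          apply ENNReal.ofReal_le_ofReal
          have h2 : ‖T e x‖ ^ 2 ≤ (20 * Em * μ ^ 2) ^ 2 :=
            pow_le_pow_left₀ (norm_nonneg _) (hTe x) 2
          calc ‖T e x‖ ^ 4 = ‖T e x‖ ^ 2 * ‖T e x‖ ^ 2 := by ring
            _ ≤ _ := by gcongr
      _ = ENNReal.ofReal ((20 * Em * μ ^ 2) ^ 2) *
            ∫⁻ x in {x : E 3 | x 0 ^ 2 + x 1 ^ 2 ≤ (2 * ρ) ^ 2}, ENNReal.ofReal (‖T e x‖ ^ 2) := by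
          rw [lintegral_const_mul]
          exact ((measurable_T e me).measurable.norm.pow_const 2).ennreal_ofReal
      _ ≤ ENNReal.ofReal ((20 * Em * μ ^ 2) ^ 2) *
            ENNReal.ofReal (C2 * min (2 * ρ / μ) ((2 * ρ) ^ 2) * ∫ w, ‖e w‖ ^ 2 ∂(sg 3)) := by
          gcongr
      _ = ENNReal.ofReal ((20 * Em * μ ^ 2) ^ 2 *
            (C2 * min (2 * ρ / μ) ((2 * ρ) ^ 2) * ∫ w, ‖e w‖ ^ 2 ∂(sg 3))) := by
          rw [← ENNReal.ofReal_mul (by positivity)]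
      _ ≤ ENNReal.ofReal (16000 * C2 * Cn ^ 4 * (M ^ 4 * μ ^ 4 * N ^ (-3 : ℝ))) := by
          apply ENNReal.ofReal_le_ofReal
          have h3 : C2 * min (2 * ρ / μ) ((2 * ρ) ^ 2) * ∫ w, ‖e w‖ ^ 2 ∂(sg 3) ≤
              C2 * (2 * ρ / μ) * (20 * Em ^ 2 * μ ^ 2) := by
            have h4 : 0 ≤ ∫ w, ‖e w‖ ^ 2 ∂(sg 3) := integral_nonneg fun w => by positivity
            have h5 : min (2 * ρ / μ) ((2 * ρ) ^ 2) ≤ 2 * ρ / μ := min_le_left _ _
            gcongr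
          calc (20 * Em * μ ^ 2) ^ 2 *
              (C2 * min (2 * ρ / μ) ((2 * ρ) ^ 2) * ∫ w, ‖e w‖ ^ 2 ∂(sg 3))
              ≤ (20 * Em * μ ^ 2) ^ 2 * (C2 * (2 * ρ / μ) * (20 * Em ^ 2 * μ ^ 2)) := by gcongr
            _ = 16000 * C2 * Cn ^ 4 * (M ^ 4 * μ ^ 4 * N ^ (-3 : ℝ)) := by
              rw [hEm, hNe, hN3]
              have : ρ = N / μ := by rw [hN]; field_simp
              rw [this]
              field_simp
              ring
  -- main part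
  have P3 : ∫⁻ x in shl ρ ∩ St a W, ENNReal.ofReal (‖T H x‖ ^ 4) ≤
      ENNReal.ofReal (16 * Cs * (W ^ 2 * μ ^ 2 * M ^ 2 * (1 + Real.log N) *
        ∫ x, ‖G1 x‖ ^ 2 ∂(sg 3))) := by
    have h1 := hstrip μ hμ hμ1 ρ hρ (4 * W) (by positivity) (by linarith) a H mH M bH sH
      (fun x hx => by rw [hH]; exact indicator_of_notMem hx _)
    have h2 : ∫ x, ‖H x‖ ^ 2 ∂(sg 3) ≤ ∫ x, ‖G1 x‖ ^ 2 ∂(sg 3) := by
      calc ∫ x, ‖H x‖ ^ 2 ∂(sg 3) ≤ ∫ x, ‖A1 x‖ ^ 2 ∂(sg 3) := by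
            refine integral_mono (sq_intg H mH M bH) (sq_intg A1 mA1 M bA1) fun x => ?_
            exact pow_le_pow_left₀ (norm_nonneg _) (ind_le _ _ x) 2
        _ ≤ _ := Av_L2 κ G1 mG1 M bG1
    calc ∫⁻ x in shl ρ ∩ St a W, ENNReal.ofReal (‖T H x‖ ^ 4)
        ≤ ∫⁻ x in {x : E 3 | x 0 ^ 2 + x 1 ^ 2 < (2 * ρ) ^ 2}, ENNReal.ofReal (‖T H x‖ ^ 4) :=
          lintegral_mono_set (fun x hx => Set.mem_ofPred_eq.mpr hx.1.2)
      _ ≤ ENNReal.ofReal (Cs * (4 * W) ^ 2 * μ ^ 2 * M ^ 2 * (1 + Real.log N) *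
            ∫ x, ‖H x‖ ^ 2 ∂(sg 3)) := h1
      _ ≤ _ := by
          apply ENNReal.ofReal_le_ofReal
          calc Cs * (4 * W) ^ 2 * μ ^ 2 * M ^ 2 * (1 + Real.log N) * ∫ x, ‖H x‖ ^ 2 ∂(sg 3)
              ≤ Cs * (4 * W) ^ 2 * μ ^ 2 * M ^ 2 * (1 + Real.log N) *
                ∫ x, ‖G1 x‖ ^ 2 ∂(sg 3) := by gcongr
            _ = _ := by ring
  have hI : 0 ≤ ∫ x, ‖G1 x‖ ^ 2 ∂(sg 3) := integral_nonneg fun w => by positivity
  have hfin := split4 (shl ρ ∩ St a W) (Av κ G) (Av κ G2) e H (Av_meas κ G2 mG2) me mH M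
    (Av_bound κ G2 M bG2) be bH (fun x => by
      rw [hsum x, he, hH, add_assoc]
      congr 1
      rw [add_comm]
      exact (indicator_self_add_compl_apply (St a (4 * W)) A1 x).symm) _ _ _
      (by positivity) (by positivity) (by positivity) P1 P2 P3
  refine hfin.trans (ENNReal.ofReal_le_ofReal ?_)
  set X := M ^ 4 * μ ^ 4 * N ^ (-3 : ℝ) with hX
  set Y := W ^ 2 * μ ^ 2 * M ^ 2 * (1 + Real.log N) * ∫ x, ‖G1 x‖ ^ 2 ∂(sg 3) with hY
  have hX0 : 0 ≤ X := by positivity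
  have hY0 : 0 ≤ Y := by positivity
  have e1 : Cf * M ^ 4 * μ ^ 4 * N ^ (-3 : ℝ) = Cf * X := by rw [hX]; ring
  rw [e1]
  have p1 : 0 ≤ Cf * Y := by positivity
  have p2 : 0 ≤ 16000 * C2 * Cn ^ 4 * Y := by positivity
  have p3 : 0 ≤ 16 * Cs * X := by positivity
  calc 27 * (Cf * X + 16000 * C2 * Cn ^ 4 * X + 16 * Cs * Y)
      ≤ 27 * (Cf * X + 16000 * C2 * Cn ^ 4 * X + 16 * Cs * Y) +
        27 * (Cf * Y + 16000 * C2 * Cn ^ 4 * Y + 16 * Cs * X) := by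
        have : 0 ≤ 27 * (Cf * Y + 16000 * C2 * Cn ^ 4 * Y + 16 * Cs * X) := by positivity
        linarith
    _ = 27 * (Cf + 16000 * C2 * Cn ^ 4 + 16 * Cs) * (X + Y) := by ring

/-- overlap -/
theorem overlap (μ : ℝ) (W : ℝ) (hW : 0 < W) (hW1 : W ≤ 1) (n : ℕ)
    (hn : (n : ℝ) * W ≤ Real.pi + 2) (G : E 3 → ℂ) (hG : Measurable G) (M : ℝ)
    (hM : ∀ x, ‖G x‖ ≤ M) (hs : ∀ x, x 2 ∉ band μ → G x = 0) :
    ∑ k : Fin (n + 1), ∫ x, ‖(St ((k : ℕ) * W) (2 * W)).indicator G x‖ ^ 2 ∂(sg 3) ≤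
      72 * ∫ x, ‖G x‖ ^ 2 ∂(sg 3) := by
  classical
  have hbd : ∀ k : Fin (n + 1), ∀ x, ‖(St ((k : ℕ) * W) (2 * W)).indicator G x‖ ≤ M :=
    fun k x => (ind_le _ _ x).trans (hM x)
  rw [← integral_finsetSum _ (fun k _ => sq_intg _ (hG.indicator (meas_St _ _)) M (hbd k)),
    ← integral_const_mul]
  refine integral_mono_ae ?_ ((sq_intg G hG M hM).const_mul 72) ?_
  · exact integrable_finsetSum _ (fun k _ => sq_intg _ (hG.indicator (meas_St _ _)) M (hbd k))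
  filter_upwards [sg_ae 3] with x hx
  by_cases h0 : G x = 0
  · have : ∀ k : Fin (n + 1), ‖(St ((k : ℕ) * W) (2 * W)).indicator G x‖ ^ 2 = 0 := by
      intro k
      have := (ind_le (St ((k : ℕ) * W) (2 * W)) G x)
      rw [h0, norm_zero] at this
      have h2 := le_antisymm this (norm_nonneg _)
      rw [h2]; norm_num
    simp [this, h0]
  · have hb : x 2 ∈ band μ := by
      by_contra h
      exact h0 (hs x h)
    obtain ⟨φ, t, ht0, hφ, htx, hx0, hx1⟩ := exists_polar x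
    have hx2 : x 0 ^ 2 + x 1 ^ 2 = 1 - x 2 ^ 2 := by
      have : ‖x‖ ^ 2 = 1 := by rw [hx]; norm_num
      rw [EuclideanSpace.norm_sq_eq, Fin.sum_univ_three] at this
      simp only [Real.norm_eq_abs, sq_abs] at this
      linarith
    have ht : 0 < t := by
      rw [htx, hx2]
      apply Real.sqrt_pos.mpr
      have := hb.1
      rw [abs_lt] at this
      nlinarith
    have h1 : ∀ k : ℕ, ‖(St ((k : ℕ) * W) (2 * W)).indicator G x‖ ^ 2 =
        if |Real.sin (φ - k * W)| ≤ 2 * W then ‖G x‖ ^ 2 else 0 := by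
      intro k
      by_cases h : |Real.sin (φ - k * W)| ≤ 2 * W
      · rw [if_pos h, indicator_of_mem ((mem_St_iff x φ t ht htx hx0 hx1 _ _).mpr h)]
      · rw [if_neg h, indicator_of_notMem
          (fun h' => h ((mem_St_iff x φ t ht htx hx0 hx1 _ _).mp h'))]
        norm_num
    have h2 : ∑ k : Fin (n + 1), ‖(St ((k : ℕ) * W) (2 * W)).indicator G x‖ ^ 2 =
        ∑ k ∈ Finset.range (n + 1), if |Real.sin (φ - k * W)| ≤ 2 * W then ‖G x‖ ^ 2 else 0 := by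
      rw [← Fin.sum_univ_eq_sum_range (fun k : ℕ =>
        if |Real.sin (φ - k * W)| ≤ 2 * W then ‖G x‖ ^ 2 else 0) (n + 1)]
      exact Finset.sum_congr rfl fun k _ => h1 k
    show ∑ k : Fin (n + 1), ‖(St ((k : ℕ) * W) (2 * W)).indicator G x‖ ^ 2 ≤ 72 * ‖G x‖ ^ 2
    rw [h2, ← Finset.sum_filter, Finset.sum_const, nsmul_eq_mul]
    have h3 := count W hW hW1 n hn φ hφ
    gcongr

end V5

open V5 in
/-- Task V5. -/
theorem M4s (ε : ℝ) (hε : 0 < ε) : ∃ C : ℝ, 0 < C ∧ ∀ μ : ℝ, 0 < μ → μ ≤ 1 →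
    ∀ ρ : ℝ, 1 ≤ ρ * μ → ∀ κ : ℝ, ρ * μ ≤ κ → 8 * (ρ * μ) ^ ε * κ ^ (1 / 2 : ℝ) ≤ ρ * μ →
    ∀ G : E 3 → ℂ, Measurable G → ∀ M : ℝ, (∀ x, ‖G x‖ ≤ M) → (∀ x, x 2 ∉ band μ → G x = 0) →
    ∫⁻ x in shl ρ, ENNReal.ofReal (‖T (Av κ G) x‖ ^ 4) ≤
      ENNReal.ofReal (C * ((ρ * μ) ^ (3 * ε) * (κ / (ρ * μ) ^ 2) * μ ^ 2 * M ^ 2 *
        (∫ x, ‖G x‖ ^ 2 ∂(sg 3)) + M ^ 4 * μ ^ 4 * (ρ * μ) ^ (-2 : ℝ))) := by
  obtain ⟨C, hC, hsec⟩ := sector ε hε
  refine ⟨C * (6 + 72 * (1 + 1 / ε)), by positivity, ?_⟩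
  intro μ hμ hμ1 ρ hρ κ hκ hκN G hG M hM hs
  set N : ℝ := ρ * μ with hN
  have hN0 : 0 < N := by linarith
  have hρ0 : 0 < ρ := by
    by_contra h
    push Not at h
    nlinarith
  have hM0 : 0 ≤ M := le_trans (norm_nonneg _) (hM 0)
  have hκ0 : 0 < κ := by linarith
  have hκ1 : 1 ≤ κ := by linarith
  have hlog : 0 ≤ Real.log N := Real.log_nonneg hρ
  have hNε : 1 ≤ N ^ ε := Real.one_le_rpow hρ hε.le
  have hκh : 1 ≤ κ ^ (1 / 2 : ℝ) := Real.one_le_rpow hκ1 (by norm_num)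
  have hκh0 : 0 < κ ^ (1 / 2 : ℝ) := by positivity
  have hκsq : (κ ^ (1 / 2 : ℝ)) ^ 2 = κ := by
    rw [← Real.rpow_natCast, ← Real.rpow_mul hκ0.le]
    norm_num
  have hκ2 : κ ≤ N ^ 2 := by
    have h1 : κ ^ (1 / 2 : ℝ) ≤ N := by
      have : κ ^ (1 / 2 : ℝ) ≤ 8 * N ^ ε * κ ^ (1 / 2 : ℝ) := by
        nlinarith
      linarith
    rw [← hκsq]
    gcongr
  set W : ℝ := N ^ ε * κ ^ (1 / 2 : ℝ) / N with hW
  have hWpos : 0 < W := by positivity
  have hW8 : W ≤ 1 / 8 := by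
    rw [hW, div_le_iff₀ hN0]
    linarith
  have hWN : 1 / N ≤ W := by
    rw [hW]
    gcongr
    nlinarith
  set n : ℕ := ⌈Real.pi / W⌉₊ with hn
  have hn1 : Real.pi / W ≤ n := Nat.le_ceil _
  have hn2 : (n : ℝ) < Real.pi / W + 1 := Nat.ceil_lt_add_one (by positivity)
  have hn1' : Real.pi ≤ n * W := by rwa [div_le_iff₀ hWpos] at hn1
  have hn2' : (n : ℝ) * W ≤ Real.pi + 2 := by
    have : (n : ℝ) * W ≤ (Real.pi / W + 1) * W := by gcongr
    have e : (Real.pi / W + 1) * W = Real.pi + W := by field_simp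
    rw [e] at this
    linarith
  have hn3 : (n : ℝ) + 1 ≤ 6 * N := by
    have h1 : (n : ℝ) + 1 ≤ Real.pi / W + 2 := by linarith
    have h2 : Real.pi / W ≤ 4 * N := by
      rw [div_le_iff₀ hWpos]
      have h3 : 1 ≤ N * W := by
        rw [div_le_iff₀ hN0] at hWN
        linarith
      nlinarith [Real.pi_le_four]
    linarith
  have hI : 0 ≤ ∫ x, ‖G x‖ ^ 2 ∂(sg 3) := integral_nonneg fun w => by positivity
  set A : ℝ := M ^ 4 * μ ^ 4 * N ^ (-3 : ℝ) with hA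
  set B : ℝ := W ^ 2 * μ ^ 2 * M ^ 2 * (1 + Real.log N) with hB
  have hA0 : 0 ≤ A := by positivity
  have hB0 : 0 ≤ B := by positivity
  let J : Fin (n + 1) → ℝ := fun k => ∫ x, ‖(St ((k : ℕ) * W) (2 * W)).indicator G x‖ ^ 2 ∂(sg 3)
  have hJ0 : ∀ k, 0 ≤ J k := fun k => integral_nonneg fun w => by positivity
  have hJs : ∑ k, J k ≤ 72 * ∫ x, ‖G x‖ ^ 2 ∂(sg 3) :=
    overlap μ W hWpos (by linarith) n hn2' G hG M hM hs
  calc ∫⁻ x in shl ρ, ENNReal.ofReal (‖T (Av κ G) x‖ ^ 4)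
      ≤ ∫⁻ x in ⋃ k : Fin (n + 1), (shl ρ ∩ St ((k : ℕ) * W) W),
          ENNReal.ofReal (‖T (Av κ G) x‖ ^ 4) :=
        lintegral_mono_set (cover W hWpos n hn1' ρ hρ0)
    _ ≤ ∑' k : Fin (n + 1), ∫⁻ x in shl ρ ∩ St ((k : ℕ) * W) W,
          ENNReal.ofReal (‖T (Av κ G) x‖ ^ 4) := lintegral_iUnion_le _ _
    _ = ∑ k : Fin (n + 1), ∫⁻ x in shl ρ ∩ St ((k : ℕ) * W) W,
          ENNReal.ofReal (‖T (Av κ G) x‖ ^ 4) := tsum_fintype _
    _ ≤ ∑ k : Fin (n + 1), ENNReal.ofReal (C * (A + B * J k)) :=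
        Finset.sum_le_sum fun k _ =>
          hsec μ hμ hμ1 ρ hρ κ hκ hκ2 W hW hW8 _ G hG M hM hs
    _ = ENNReal.ofReal (∑ k : Fin (n + 1), C * (A + B * J k)) := by
        rw [ENNReal.ofReal_sum_of_nonneg]
        intro k _
        have := hJ0 k
        positivity
    _ ≤ _ := by
        apply ENNReal.ofReal_le_ofReal
        have e1 : ∑ k : Fin (n + 1), C * (A + B * J k) = C * ((n + 1) * A + B * ∑ k, J k) := by
          rw [Finset.mul_sum Finset.univ J B, ← Finset.mul_sum, Finset.sum_add_distrib,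
            Finset.sum_const, Finset.card_univ, Fintype.card_fin, nsmul_eq_mul]
          push_cast
          rfl
        rw [e1]
        have e2 : ((n : ℝ) + 1) * A ≤ 6 * (M ^ 4 * μ ^ 4 * N ^ (-2 : ℝ)) := by
          have h1 : N * N ^ (-3 : ℝ) = N ^ (-2 : ℝ) := by
            nth_rewrite 1 [← Real.rpow_one N]
            rw [← Real.rpow_add hN0]
            norm_num
          calc ((n : ℝ) + 1) * A ≤ 6 * N * A := by gcongr
            _ = 6 * (M ^ 4 * μ ^ 4 * (N * N ^ (-3 : ℝ))) := by rw [hA]; ring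
            _ = _ := by rw [h1]
        have e3 : B ≤ (1 + 1 / ε) * (N ^ (3 * ε) * (κ / N ^ 2) * μ ^ 2 * M ^ 2) := by
          have h1 : 1 + Real.log N ≤ (1 + 1 / ε) * N ^ ε := by
            have h2 := Real.log_le_rpow_div hN0.le hε
            have h3 : N ^ ε / ε = 1 / ε * N ^ ε := by ring
            rw [h3] at h2
            nlinarith
          have h4 : W ^ 2 = N ^ (2 * ε) * (κ / N ^ 2) := by
            rw [hW, div_pow, mul_pow, hκsq]
            have : (N ^ ε) ^ 2 = N ^ (2 * ε) := by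
              rw [← Real.rpow_natCast, ← Real.rpow_mul hN0.le]
              congr 1
              push_cast
              ring
            rw [this]
            ring
          have h5 : N ^ (3 * ε) = N ^ (2 * ε) * N ^ ε := by
            rw [← Real.rpow_add hN0]
            congr 1
            ring
          calc B ≤ W ^ 2 * μ ^ 2 * M ^ 2 * ((1 + 1 / ε) * N ^ ε) := by
                rw [hB]
                gcongr
            _ = _ := by rw [h4, h5]; ring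
        set P := N ^ (3 * ε) * (κ / N ^ 2) * μ ^ 2 * M ^ 2 with hP
        set I := ∫ x, ‖G x‖ ^ 2 ∂(sg 3) with hIdef
        set Q := M ^ 4 * μ ^ 4 * N ^ (-2 : ℝ) with hQ
        have hP0 : 0 ≤ P := by positivity
        have hQ0 : 0 ≤ Q := by positivity
        have hεi : 0 < 1 / ε := by positivity
        calc C * (((n : ℝ) + 1) * A + B * ∑ k, J k)
            ≤ C * (6 * Q + ((1 + 1 / ε) * P) * (72 * I)) := by
              have : 0 ≤ ∑ k, J k := Finset.sum_nonneg fun k _ => hJ0 k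
              gcongr
          _ ≤ C * (6 + 72 * (1 + 1 / ε)) * (P * I + Q) := by
              have h6 : 0 ≤ P * I := by positivity
              have h7 : C * (6 + 72 * (1 + 1 / ε)) * (P * I + Q) -
                C * (6 * Q + ((1 + 1 / ε) * P) * (72 * I)) =
                  C * (6 * (P * I) + 72 * (1 + 1 / ε) * Q) := by ring
              have h8 : 0 ≤ C * (6 * (P * I) + 72 * (1 + 1 / ε) * Q) := by positivity
              linarith

end Pool.Agent.H789R2.FR
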