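import Mathlib
import Pool.Agent.H789R2.FR.L2Cyl
import Pool.Agent.H789R2.FR.Interp
import Pool.Agent.H789R2.FR.Avg
import Pool.Agent.H789R2.FR.AvOp
import Pool.Agent.H789R2.FR.M4s
set_option autoImplicit false

/-! Task V6: the smoothed part, by induction on the smoothing scale. -/

namespace Pool.Agent.H789R2.FR

open MeasureTheory Measure Set Metric Complex
open scoped ENNReal Pointwise RealInnerProductSpace

namespace V6

/-! ### the operator `T` -/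

theorem T_cont {n : ℕ} (f : E n → ℂ) (hf : Measurable f) (M : ℝ) (hM : ∀ x, ‖f x‖ ≤ M) :
    Continuous (T f) := by
  have := sg_finite n
  unfold T
  refine continuous_of_dominated (F := fun (x : E n) (w : E n) =>
    Complex.exp (-((⟪x, w⟫ : ℝ) : ℂ) * I) * f w) (bound := fun _ => M) ?_ ?_ ?_ ?_
  · intro x
    have h1 : Measurable fun w : E n => (⟪x, w⟫ : ℝ) := measurable_const.inner measurable_id
    have h2 : Measurable fun w : E n => Complex.exp (-((⟪x, w⟫ : ℝ) : ℂ) * I) * f w := by fun_prop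
    exact h2.aestronglyMeasurable
  · intro x
    refine Filter.Eventually.of_forall fun w => ?_
    rw [norm_mul]
    have : -((⟪x, w⟫ : ℝ) : ℂ) * I = ((-⟪x, w⟫ : ℝ) : ℂ) * I := by push_cast; ring
    rw [this, Complex.norm_exp_ofReal_mul_I, one_mul]
    exact hM w
  · exact integrable_const _
  · refine Filter.Eventually.of_forall fun w => ?_
    fun_prop

theorem T_le {n : ℕ} (f : E n → ℂ) (x : E n) : ‖T f x‖ ≤ ∫ w, ‖f w‖ ∂(sg n) := by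
  unfold T
  refine (norm_integral_le_integral_norm _).trans (le_of_eq ?_)
  congr 1
  ext w
  rw [norm_mul]
  have : -((⟪x, w⟫ : ℝ) : ℂ) * I = ((-⟪x, w⟫ : ℝ) : ℂ) * I := by push_cast; ring
  rw [this, Complex.norm_exp_ofReal_mul_I, one_mul]

theorem T_add {n : ℕ} (f g : E n → ℂ) (hf : Measurable f) (hg : Measurable g) (M : ℝ)
    (hM : ∀ x, ‖f x‖ ≤ M) (hM' : ∀ x, ‖g x‖ ≤ M) (x : E n) :
    T (fun y => f y + g y) x = T f x + T g x := by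
  have := sg_finite n
  unfold T
  have h1 : Measurable fun w : E n => (⟪x, w⟫ : ℝ) := measurable_const.inner measurable_id
  have key : ∀ f : E n → ℂ, Measurable f → (∀ x, ‖f x‖ ≤ M) →
      Integrable (fun w => Complex.exp (-((⟪x, w⟫ : ℝ) : ℂ) * I) * f w) (sg n) := by
    intro f hf hM
    have h2 : Measurable fun w : E n => Complex.exp (-((⟪x, w⟫ : ℝ) : ℂ) * I) * f w := by fun_prop
    refine Integrable.of_bound h2.aestronglyMeasurable M (Filter.Eventually.of_forall fun w => ?_)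
    rw [norm_mul]
    have : -((⟪x, w⟫ : ℝ) : ℂ) * I = ((-⟪x, w⟫ : ℝ) : ℂ) * I := by push_cast; ring
    rw [this, Complex.norm_exp_ofReal_mul_I, one_mul]
    exact hM w
  rw [← integral_add (key f hf hM) (key g hg hM')]
  congr 1
  ext w
  ring

theorem meas_shl (ρ : ℝ) : MeasurableSet (shl ρ) := by
  have h1 : Measurable fun x : E 3 => x 0 ^ 2 + x 1 ^ 2 := by fun_prop
  exact (measurableSet_le measurable_const h1).inter (measurableSet_lt h1 measurable_const)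

theorem add_rpow_le (x y p : ℝ) (hx : 0 ≤ x) (hy : 0 ≤ y) (hp : 0 ≤ p) :
    (x + y) ^ p ≤ 2 ^ p * (x ^ p + y ^ p) := by
  have hx' : 0 ≤ x ^ p := Real.rpow_nonneg hx _
  have hy' : 0 ≤ y ^ p := Real.rpow_nonneg hy _
  have h2 : (0 : ℝ) < 2 ^ p := by positivity
  rcases le_total x y with h | h
  · calc (x + y) ^ p ≤ (2 * y) ^ p := Real.rpow_le_rpow (by positivity) (by linarith) hp
      _ = 2 ^ p * y ^ p := Real.mul_rpow (by norm_num) hy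
      _ ≤ _ := by nlinarith
  · calc (x + y) ^ p ≤ (2 * x) ^ p := Real.rpow_le_rpow (by positivity) (by linarith) hp
      _ = 2 ^ p * x ^ p := Real.mul_rpow (by norm_num) hx
      _ ≤ _ := by nlinarith

/-- numerical interpolation -/
theorem num (p A1 A2 a b N μ : ℝ) (hA1 : 0 ≤ A1) (hA2 : 0 ≤ A2)
    (hN0 : 0 < N) (hμ : 0 < μ) :
    (A1 * N ^ a) ^ ((4 - p) / 2) * (A2 * (μ ^ 4 * N ^ b)) ^ ((p - 2) / 2) =
      A1 ^ ((4 - p) / 2) * A2 ^ ((p - 2) / 2) *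
        (μ ^ (2 * (p - 2)) * N ^ (a * ((4 - p) / 2) + b * ((p - 2) / 2))) := by
  rw [Real.mul_rpow hA1 (by positivity), Real.mul_rpow hA2 (by positivity),
    Real.mul_rpow (by positivity) (by positivity)]
  have h1 : (μ ^ 4) ^ ((p - 2) / 2) = μ ^ (2 * (p - 2)) := by
    rw [← Real.rpow_natCast, ← Real.rpow_mul hμ.le]
    congr 1
    push_cast
    ring
  have h2 : (N ^ a) ^ ((4 - p) / 2) * (N ^ b) ^ ((p - 2) / 2) =
      N ^ (a * ((4 - p) / 2) + b * ((p - 2) / 2)) := by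
    rw [← Real.rpow_mul hN0.le, ← Real.rpow_mul hN0.le, ← Real.rpow_add hN0]
  rw [h1, ← h2]
  ring

/-- `κ = N^(2λ)`: its square root -/
theorem kappa_half (N lam : ℝ) (hN : 0 < N) : (N ^ (2 * lam)) ^ (1 / 2 : ℝ) = N ^ lam := by
  rw [← Real.rpow_mul hN.le]
  congr 1
  ring

/-- one application of the `L^2` and `L^4` bounds -/
theorem est (p : ℝ) (hp : 3 < p) (hp' : p < 4) (ε0 : ℝ) (hε0 : 0 < ε0) (hε0' : ε0 ≤ 1 / 12)
    (M K : ℝ) (_hM0 : 0 ≤ M) (hK : 0 ≤ K) :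
    ∃ C : ℝ, 0 ≤ C ∧ ∀ μ : ℝ, 0 < μ → μ ≤ 1 → ∀ ρ : ℝ, 8 ^ 12 ≤ ρ * μ →
    ∀ lam : ℝ, 1 / 2 ≤ lam → lam ≤ 5 / 6 →
    ∀ f : E 3 → ℂ, Measurable f → (∀ x, ‖f x‖ ≤ M) → (∀ x, x 2 ∉ band μ → f x = 0) →
    ∀ a : ℝ, ∫ x, ‖f x‖ ^ 2 ∂(sg 3) ≤ K * μ ^ 2 * (ρ * μ) ^ (-a) →
    -2 ≤ 3 * ε0 + 2 * lam - 2 - a →
    ∫⁻ x in shl ρ, ENNReal.ofReal (‖T (Av ((ρ * μ) ^ (2 * lam)) f) x‖ ^ p) ≤
      ENNReal.ofReal (C * (μ ^ (2 * (p - 2)) *
        (ρ * μ) ^ ((1 - a) * ((4 - p) / 2) + (3 * ε0 + 2 * lam - 2 - a) * ((p - 2) / 2)))) := by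
  obtain ⟨C2, hC2, h2⟩ := L2_cyl
  obtain ⟨C4, hC4, h4⟩ := M4s ε0 hε0
  refine ⟨(2 * C2 * K) ^ ((4 - p) / 2) * (C4 * (M ^ 2 * K + M ^ 4)) ^ ((p - 2) / 2),
    by positivity, ?_⟩
  intro μ hμ hμ1 ρ hρ lam hl hl' f hf hfM hfs a hfa hb
  set N : ℝ := ρ * μ with hN
  have hN1 : 1 ≤ N := by
    have : (1 : ℝ) ≤ 8 ^ 12 := by norm_num
    linarith
  have hN0 : 0 < N := by linarith
  have hρ0 : 0 < ρ := by
    by_contra hcon
    push Not at hcon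
    have : ρ * μ ≤ 0 := mul_nonpos_of_nonpos_of_nonneg hcon hμ.le
    linarith
  have hρN : ρ = N / μ := by rw [hN]; field_simp
  set κ : ℝ := N ^ (2 * lam) with hκ
  have hκ0 : 0 < κ := by positivity
  have hgm : Measurable (Av κ f) := Av_meas κ f hf
  have hgb : ∀ x, ‖Av κ f x‖ ≤ M := Av_bound κ f M hfM
  have hgs : ∀ x, x 2 ∉ band μ → Av κ f x = 0 := Av_supp κ μ f hfs
  have hg2 : ∫ x, ‖Av κ f x‖ ^ 2 ∂(sg 3) ≤ K * μ ^ 2 * N ^ (-a) :=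
    (Av_L2 κ f hf M hfM).trans hfa
  have hsub : shl ρ ⊆ {x : E 3 | x 0 ^ 2 + x 1 ^ 2 ≤ (2 * ρ) ^ 2} := fun x hx => hx.2.le
  have ea2 : ∫⁻ x in shl ρ, ENNReal.ofReal (‖T (Av κ f) x‖ ^ 2) ≤
      ENNReal.ofReal (2 * C2 * K * N ^ (1 - a)) := by
    refine (lintegral_mono_set hsub).trans ((h2 μ hμ hμ1 (2 * ρ) (by positivity) (Av κ f) hgm
      ⟨M, hgb⟩ hgs).trans (ENNReal.ofReal_le_ofReal ?_))
    have e2 : min (2 * ρ / μ) ((2 * ρ) ^ 2) ≤ 2 * ρ / μ := min_le_left _ _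
    have e3 : 0 ≤ ∫ w, ‖Av κ f w‖ ^ 2 ∂(sg 3) := integral_nonneg fun _ => by positivity
    have e4 : N ^ (1 - a) = N * N ^ (-a) := by
      rw [sub_eq_add_neg, Real.rpow_add hN0, Real.rpow_one]
    calc C2 * min (2 * ρ / μ) ((2 * ρ) ^ 2) * ∫ w, ‖Av κ f w‖ ^ 2 ∂(sg 3) ≤
        C2 * (2 * ρ / μ) * (K * μ ^ 2 * N ^ (-a)) := by gcongr
      _ = 2 * C2 * K * N ^ (1 - a) := by rw [e4, hρN]; field_simp
  have hd1 : 8 * (ρ * μ) ^ ε0 * κ ^ (1 / 2 : ℝ) ≤ ρ * μ := by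
    rw [← hN, hκ, kappa_half N lam hN0]
    have h8 : (8 : ℝ) ≤ N ^ (1 - ε0 - lam) := by
      have e1 : ((8 : ℝ) ^ 12) ^ (1 / 12 : ℝ) = 8 := by
        rw [← Real.rpow_natCast, ← Real.rpow_mul (by norm_num)]
        norm_num
      calc (8 : ℝ) = ((8 : ℝ) ^ 12) ^ (1 / 12 : ℝ) := e1.symm
        _ ≤ N ^ (1 / 12 : ℝ) := Real.rpow_le_rpow (by norm_num) hρ (by norm_num)
        _ ≤ N ^ (1 - ε0 - lam) := Real.rpow_le_rpow_of_exponent_le hN1 (by linarith)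
    have e2 : N = N ^ (1 - ε0 - lam) * N ^ ε0 * N ^ lam := by
      rw [← Real.rpow_add hN0, ← Real.rpow_add hN0]
      rw [show 1 - ε0 - lam + ε0 + lam = 1 by ring, Real.rpow_one]
    calc 8 * N ^ ε0 * N ^ lam ≤ N ^ (1 - ε0 - lam) * N ^ ε0 * N ^ lam := by gcongr
      _ = N := e2.symm
  have hd2 : ρ * μ ≤ κ := by
    rw [← hN, hκ]
    calc N = N ^ (1 : ℝ) := (Real.rpow_one N).symm
      _ ≤ N ^ (2 * lam) := Real.rpow_le_rpow_of_exponent_le hN1 (by linarith)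
  have ea4 : ∫⁻ x in shl ρ, ENNReal.ofReal (‖T (Av κ f) x‖ ^ 4) ≤
      ENNReal.ofReal (C4 * (M ^ 2 * K + M ^ 4) *
        (μ ^ 4 * N ^ (3 * ε0 + 2 * lam - 2 - a))) := by
    refine (h4 μ hμ hμ1 ρ (by linarith) κ hd2 hd1 f hf M hfM hfs).trans
      (ENNReal.ofReal_le_ofReal ?_)
    have e5 : κ / N ^ 2 = N ^ (2 * lam - 2) := by
      rw [hκ, Real.rpow_sub hN0]
      norm_num
    have e6 : N ^ (3 * ε0 + 2 * lam - 2 - a) = N ^ (3 * ε0) * N ^ (2 * lam - 2) * N ^ (-a) := by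
      rw [← Real.rpow_add hN0, ← Real.rpow_add hN0]
      congr 1
      ring
    have e7 : N ^ (-2 : ℝ) ≤ N ^ (3 * ε0 + 2 * lam - 2 - a) :=
      Real.rpow_le_rpow_of_exponent_le hN1 hb
    rw [← hN, e5]
    calc C4 * (N ^ (3 * ε0) * N ^ (2 * lam - 2) * μ ^ 2 * M ^ 2 * (∫ x, ‖f x‖ ^ 2 ∂(sg 3)) +
          M ^ 4 * μ ^ 4 * N ^ (-2 : ℝ)) ≤
        C4 * (N ^ (3 * ε0) * N ^ (2 * lam - 2) * μ ^ 2 * M ^ 2 * (K * μ ^ 2 * N ^ (-a)) +
          M ^ 4 * μ ^ 4 * N ^ (3 * ε0 + 2 * lam - 2 - a)) := by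
          gcongr
      _ = C4 * (M ^ 2 * K + M ^ 4) * (μ ^ 4 * N ^ (3 * ε0 + 2 * lam - 2 - a)) := by
          rw [e6]
          ring
  refine (interp_24 p (by linarith) hp' (shl ρ) (meas_shl ρ)
    (fun x => ‖T (Av κ f) x‖)
    (T_cont (Av κ f) hgm M hgb).norm.measurable (fun x => norm_nonneg _) _ _ ?_
    ?_ ea2 ea4).trans (ENNReal.ofReal_le_ofReal ?_)
  · positivity
  · positivity
  · exact (num p (2 * C2 * K) (C4 * (M ^ 2 * K + M ^ 4)) (1 - a)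
      (3 * ε0 + 2 * lam - 2 - a) N μ (by positivity) (by positivity) hN0 hμ).le

/-- the statement at the scale `κ = N^(2λ)` -/
def Stm (p s lam : ℝ) : Prop := ∀ M K : ℝ,
    0 ≤ M → 0 ≤ K → ∃ C ε : ℝ, 0 < C ∧ 0 < ε ∧ ∀ μ : ℝ, 0 < μ → μ ≤ 1 → ∀ ρ : ℝ,
    8 ^ 12 ≤ ρ * μ →
    ∀ G : E 3 → ℂ, Measurable G → (∀ x, ‖G x‖ ≤ M) → (∀ x, x 2 ∉ band μ → G x = 0) →
    (∀ h : ℝ, 0 < h → h ≤ 1 →
      ∫ x, ‖G (rot (-h) x) - G x‖ ^ 2 ∂(sg 3) ≤ K * h ^ (2 * s) * μ ^ 2) →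
    ∫⁻ x in shl ρ,
      ENNReal.ofReal (‖T (Av ((ρ * μ) ^ (2 * lam)) G) x‖ ^ p) ≤
      ENNReal.ofReal (C * μ ^ (2 * (p - 2)) * (ρ * μ) ^ (-ε))

theorem base (p s : ℝ) (hp : 3 < p) (hp' : p < 4) : Stm p s (1 / 2) := by
  intro M K hM0 hK0
  set ε0 : ℝ := (p - 3) / 12 with hε0d
  have hε0 : 0 < ε0 := by rw [hε0d]; linarith
  have hε0' : ε0 ≤ 1 / 12 := by rw [hε0d]; linarith
  obtain ⟨C, hC, h⟩ := est p hp hp' ε0 hε0 hε0' M (20 * M ^ 2) hM0 (by positivity)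
  refine ⟨C + 1, (p - 3) / 2, by positivity, by linarith, ?_⟩
  intro μ hμ hμ1 ρ hρ G hG hGM hGs hreg
  have hN1 : 1 ≤ ρ * μ := by
    have : (1 : ℝ) ≤ 8 ^ 12 := by norm_num
    linarith
  have e1 := h μ hμ hμ1 ρ hρ (1 / 2) le_rfl (by norm_num) G hG hGM hGs 0 (by
    rw [neg_zero, Real.rpow_zero, mul_one]
    exact (band_mass μ hμ hμ1 G hG M hGM hGs).2) (by linarith)
  refine e1.trans (ENNReal.ofReal_le_ofReal ?_)
  have hexp : (1 - 0) * ((4 - p) / 2) + (3 * ε0 + 2 * (1 / 2) - 2 - 0) * ((p - 2) / 2) ≤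
      -((p - 3) / 2) := by
    rw [hε0d]
    nlinarith
  have hm : 0 < μ ^ (2 * (p - 2)) := Real.rpow_pos_of_pos hμ _
  have hNε : 0 < (ρ * μ) ^ (-((p - 3) / 2)) := Real.rpow_pos_of_pos (by linarith) _
  calc C * (μ ^ (2 * (p - 2)) * (ρ * μ) ^
        ((1 - 0) * ((4 - p) / 2) + (3 * ε0 + 2 * (1 / 2) - 2 - 0) * ((p - 2) / 2))) ≤
      C * (μ ^ (2 * (p - 2)) * (ρ * μ) ^ (-((p - 3) / 2))) := by
        gcongr
    _ = C * μ ^ (2 * (p - 2)) * (ρ * μ) ^ (-((p - 3) / 2)) := by ring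
    _ ≤ _ := by
        gcongr
        linarith

theorem step (p s : ℝ) (hp : 3 < p) (hp' : p < 4) (hs : 1 / 5 < s) (hs' : s ≤ 1 / 2)
    (lam0 lam : ℝ) (hl0 : 1 / 2 ≤ lam0) (hll : lam0 ≤ lam) (hl' : lam ≤ 5 / 6)
    (hstep : lam - (5 * s - 1) / 12 ≤ lam0) (ih : Stm p s lam0) : Stm p s lam := by
  intro M K hM0 hK0
  obtain ⟨C1, ε1, hC1, hε1, h1⟩ := ih M K hM0 hK0
  obtain ⟨CD, hCD, hD⟩ := Av_diff
  set ε0 : ℝ := (5 * s - 1) / 18 with hε0d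
  have hε0 : 0 < ε0 := by rw [hε0d]; linarith
  have hε0' : ε0 ≤ 1 / 12 := by rw [hε0d]; linarith
  obtain ⟨C, hC, h⟩ := est p hp hp' ε0 hε0 hε0' (2 * M) (CD * K) (by positivity) (by positivity)
  set ε2 : ℝ := (5 * s - 1) / 6 with hε2d
  have hε2 : 0 < ε2 := by rw [hε2d]; linarith
  refine ⟨2 ^ p * (C1 + C), min ε1 ε2, by positivity, lt_min hε1 hε2, ?_⟩
  intro μ hμ hμ1 ρ hρ G hG hGM hGs hreg
  set N : ℝ := ρ * μ with hN
  have hN1 : 1 ≤ N := by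
    have : (1 : ℝ) ≤ 8 ^ 12 := by norm_num
    linarith
  have hN0 : 0 < N := by linarith
  set δ : ℝ := N ^ (2 * lam) with hδ
  set δ0 : ℝ := N ^ (2 * lam0) with hδ0d
  have hδ0 : 0 < δ := by positivity
  have hδ00 : 0 < δ0 := by positivity
  have hδ01 : 1 ≤ δ0 := Real.one_le_rpow hN1 (by linarith)
  set G1 : E 3 → ℂ := Av δ G with hG1
  set G2 : E 3 → ℂ := fun x => G x - Av δ0 G x with hG2
  have hG1m : Measurable G1 := Av_meas δ G hG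
  have hG1b : ∀ x, ‖G1 x‖ ≤ M := Av_bound δ G M hGM
  have hG1s : ∀ x, x 2 ∉ band μ → G1 x = 0 := Av_supp δ μ G hGs
  have ha0m : Measurable (Av δ0 G) := Av_meas δ0 G hG
  have ha0b : ∀ x, ‖Av δ0 G x‖ ≤ M := Av_bound δ0 G M hGM
  have ha0s : ∀ x, x 2 ∉ band μ → Av δ0 G x = 0 := Av_supp δ0 μ G hGs
  have hG2m : Measurable G2 := hG.sub ha0m
  have hG2b : ∀ x, ‖G2 x‖ ≤ 2 * M := by
    intro x
    calc ‖G x - Av δ0 G x‖ ≤ ‖G x‖ + ‖Av δ0 G x‖ := norm_sub_le _ _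
      _ ≤ 2 * M := by linarith [hGM x, ha0b x]
  have hG2s : ∀ x, x 2 ∉ band μ → G2 x = 0 := by
    intro x hx
    simp only [hG2]
    rw [hGs x hx, ha0s x hx, sub_zero]
  have hG2L : ∫ x, ‖G2 x‖ ^ 2 ∂(sg 3) ≤ CD * K * μ ^ 2 * N ^ (-(2 * lam0 * s)) := by
    have e1 := hD δ0 hδ01 s (by linarith) (by linarith) G hG ⟨M, hGM⟩ (K * μ ^ 2) (by positivity)
      (fun t ht ht' => (hreg t ht ht').trans (le_of_eq (by ring)))
    refine e1.trans (le_of_eq ?_)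
    rw [hδ0d, ← Real.rpow_mul hN0.le, show 2 * lam0 * -s = -(2 * lam0 * s) by ring]
    ring
  -- the two pieces
  have eA : ∫⁻ x in shl ρ, ENNReal.ofReal (‖T (Av δ0 G1) x‖ ^ p) ≤
      ENNReal.ofReal (C1 * μ ^ (2 * (p - 2)) * N ^ (-ε1)) :=
    h1 μ hμ hμ1 ρ hρ G1 hG1m hG1b hG1s (fun t ht ht' =>
      (Av_reg δ G hG M hGM t).trans (hreg t ht ht'))
  have hls : lam0 * s ≤ lam * s := by
    apply mul_le_mul_of_nonneg_right hll
    linarith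
  have hls' : lam * s ≤ lam * (1 / 2) := by
    apply mul_le_mul_of_nonneg_left hs'
    linarith
  have eB : ∫⁻ x in shl ρ, ENNReal.ofReal (‖T (Av δ G2) x‖ ^ p) ≤
      ENNReal.ofReal (C * μ ^ (2 * (p - 2)) * N ^ (-ε2)) := by
    refine (h μ hμ hμ1 ρ hρ lam (hl0.trans hll) hl' G2 hG2m hG2b hG2s (2 * lam0 * s) hG2L
      (by nlinarith)).trans (ENNReal.ofReal_le_ofReal ?_)
    have hexp : (1 - 2 * lam0 * s) * ((4 - p) / 2) +
        (3 * ε0 + 2 * lam - 2 - 2 * lam0 * s) * ((p - 2) / 2) ≤ -ε2 := by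
      have hs0 : 0 < s := by linarith
      have h3 : (lam - (5 * s - 1) / 12) * s ≤ lam0 * s := by gcongr
      have h5 : lam * (1 - 2 * s) ≤ 5 / 6 * (1 - 2 * s) := by
        apply mul_le_mul_of_nonneg_right hl'
        linarith
      have h6 : 0 ≤ (p - 3) * (3 - 3 * ε0 - 2 * lam) := mul_nonneg (by linarith) (by linarith)
      have h7 : (1 - 2 * lam0 * s) * ((4 - p) / 2) +
        (3 * ε0 + 2 * lam - 2 - 2 * lam0 * s) * ((p - 2) / 2) =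
          lam - 1 / 2 + 3 * ε0 / 2 - 2 * (lam0 * s) -
            (p - 3) * (3 - 3 * ε0 - 2 * lam) / 2 := by ring
      have h8 : 0 ≤ (5 * s - 1) * (1 / 2 - s) := mul_nonneg (by linarith) (by linarith)
      rw [h7]
      have h9 : lam - 1 / 2 + 3 * ε0 / 2 - 2 * (lam0 * s) ≤ -ε2 := by
        rw [hε2d, hε0d]
        nlinarith
      linarith
    calc C * (μ ^ (2 * (p - 2)) *
          N ^ ((1 - 2 * lam0 * s) * ((4 - p) / 2) +
            (3 * ε0 + 2 * lam - 2 - 2 * lam0 * s) * ((p - 2) / 2))) ≤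
        C * (μ ^ (2 * (p - 2)) * N ^ (-ε2)) := by gcongr
      _ = _ := by ring
  have hTG : ∀ x, T (Av δ G) x = T (Av δ0 G1) x + T (Av δ G2) x := by
    intro x
    have e1 : Av δ G = fun y => Av δ0 G1 y + Av δ G2 y := by
      ext y
      have e3 : Av δ G2 y = Av δ G y - Av δ (Av δ0 G) y :=
        Av_sub δ G (Av δ0 G) hG ha0m M hGM ha0b y
      rw [e3, Av_comm δ δ0 G hG M hGM y]
      ring
    have e2 := T_add (Av δ0 G1) (Av δ G2) (Av_meas δ0 G1 hG1m) (Av_meas δ G2 hG2m)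
      (2 * M) (fun y => (Av_bound δ0 G1 M hG1b y).trans (by linarith))
      (Av_bound δ G2 (2 * M) hG2b) x
    rw [← e1] at e2
    exact e2
  have hpt : ∀ x, ENNReal.ofReal (‖T (Av δ G) x‖ ^ p) ≤ ENNReal.ofReal (2 ^ p) *
      (ENNReal.ofReal (‖T (Av δ0 G1) x‖ ^ p) + ENNReal.ofReal (‖T (Av δ G2) x‖ ^ p)) := by
    intro x
    rw [← ENNReal.ofReal_add (by positivity) (by positivity), ← ENNReal.ofReal_mul (by positivity)]
    apply ENNReal.ofReal_le_ofReal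
    rw [hTG x]
    calc ‖T (Av δ0 G1) x + T (Av δ G2) x‖ ^ p ≤
        (‖T (Av δ0 G1) x‖ + ‖T (Av δ G2) x‖) ^ p :=
        Real.rpow_le_rpow (norm_nonneg _) (norm_add_le _ _) (by linarith)
      _ ≤ _ := add_rpow_le _ _ p (norm_nonneg _) (norm_nonneg _) (by linarith)
  have hTam : Measurable fun x => ENNReal.ofReal (‖T (Av δ0 G1) x‖ ^ p) := by
    have : Measurable fun x => ‖T (Av δ0 G1) x‖ :=
      (T_cont (Av δ0 G1) (Av_meas δ0 G1 hG1m) M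
        (Av_bound δ0 G1 M hG1b)).norm.measurable
    fun_prop
  have hμp : 0 < μ ^ (2 * (p - 2)) := Real.rpow_pos_of_pos hμ _
  calc ∫⁻ x in shl ρ, ENNReal.ofReal (‖T (Av δ G) x‖ ^ p) ≤
      ∫⁻ x in shl ρ, ENNReal.ofReal (2 ^ p) *
      (ENNReal.ofReal (‖T (Av δ0 G1) x‖ ^ p) + ENNReal.ofReal (‖T (Av δ G2) x‖ ^ p)) :=
        lintegral_mono hpt
    _ = ENNReal.ofReal (2 ^ p) * ((∫⁻ x in shl ρ, ENNReal.ofReal (‖T (Av δ0 G1) x‖ ^ p)) +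
        ∫⁻ x in shl ρ, ENNReal.ofReal (‖T (Av δ G2) x‖ ^ p)) := by
        rw [lintegral_const_mul' _ _ ENNReal.ofReal_ne_top, lintegral_add_left hTam]
    _ ≤ ENNReal.ofReal (2 ^ p) * (ENNReal.ofReal (C1 * μ ^ (2 * (p - 2)) * N ^ (-ε1)) +
        ENNReal.ofReal (C * μ ^ (2 * (p - 2)) * N ^ (-ε2))) := by
        gcongr
    _ = ENNReal.ofReal (2 ^ p * (C1 * μ ^ (2 * (p - 2)) * N ^ (-ε1) +
        C * μ ^ (2 * (p - 2)) * N ^ (-ε2))) := by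
        rw [← ENNReal.ofReal_add (by positivity) (by positivity),
          ← ENNReal.ofReal_mul (by positivity)]
    _ ≤ _ := by
        apply ENNReal.ofReal_le_ofReal
        have e1 : N ^ (-ε1) ≤ N ^ (-(min ε1 ε2)) :=
          Real.rpow_le_rpow_of_exponent_le hN1 (by linarith [min_le_left ε1 ε2])
        have e2 : N ^ (-ε2) ≤ N ^ (-(min ε1 ε2)) :=
          Real.rpow_le_rpow_of_exponent_le hN1 (by linarith [min_le_right ε1 ε2])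
        calc 2 ^ p * (C1 * μ ^ (2 * (p - 2)) * N ^ (-ε1) +
            C * μ ^ (2 * (p - 2)) * N ^ (-ε2)) ≤
            2 ^ p * (C1 * μ ^ (2 * (p - 2)) * N ^ (-(min ε1 ε2)) +
            C * μ ^ (2 * (p - 2)) * N ^ (-(min ε1 ε2))) := by gcongr
          _ = _ := by ring

theorem all (p s : ℝ) (hp : 3 < p) (hp' : p < 4) (hs : 1 / 5 < s) (hs' : s ≤ 1 / 2) (k : ℕ) :
    ∀ lam : ℝ, 1 / 2 ≤ lam → lam ≤ 5 / 6 → lam ≤ 1 / 2 + k * ((5 * s - 1) / 12) →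
      Stm p s lam := by
  have hη : 0 < (5 * s - 1) / 12 := by linarith
  induction k with
  | zero =>
    intro lam h1 _ h3
    have : lam = 1 / 2 := by
      apply le_antisymm _ h1
      simpa using h3
    rw [this]
    exact base p s hp hp'
  | succ k ih =>
    intro lam h1 h2 h3
    set η := (5 * s - 1) / 12 with hηd
    have hk : 0 ≤ (k : ℝ) * η := by positivity
    have hm1 : 1 / 2 ≤ max (1 / 2) (lam - η) := le_max_left _ _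
    have hm2 : max (1 / 2) (lam - η) ≤ lam := max_le h1 (by linarith)
    refine step p s hp hp' hs hs' (max (1 / 2) (lam - η)) lam hm1 hm2 h2 (le_max_right _ _) ?_
    apply ih _ hm1 (hm2.trans h2)
    apply max_le (by linarith)
    push_cast at h3
    linarith

/-- small `N` -/
theorem small (p : ℝ) (hp : 3 < p) (M : ℝ) (hM0 : 0 ≤ M) :
    ∃ C : ℝ, 0 ≤ C ∧ ∀ μ : ℝ, 0 < μ → μ ≤ 1 → ∀ ρ : ℝ, 2 ≤ ρ * μ → ∀ κ : ℝ,
    ∀ G : E 3 → ℂ, Measurable G → (∀ x, ‖G x‖ ≤ M) → (∀ x, x 2 ∉ band μ → G x = 0) →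
    ∫⁻ x in shl ρ, ENNReal.ofReal (‖T (Av κ G) x‖ ^ p) ≤
      ENNReal.ofReal (C * μ ^ (2 * (p - 2)) * (ρ * μ)) := by
  obtain ⟨C2, hC2, h2⟩ := L2_cyl
  refine ⟨(20 * M) ^ (p - 2) * (2 * C2 * (20 * M ^ 2)), by positivity, ?_⟩
  intro μ hμ hμ1 ρ hρ κ G hG hGM hGs
  have hρ0 : 0 < ρ := by
    by_contra hcon
    push Not at hcon
    have : ρ * μ ≤ 0 := mul_nonpos_of_nonpos_of_nonneg hcon hμ.le
    linarith
  have hgm : Measurable (Av κ G) := Av_meas κ G hG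
  have hgb : ∀ x, ‖Av κ G x‖ ≤ M := Av_bound κ G M hGM
  have hgs : ∀ x, x 2 ∉ band μ → Av κ G x = 0 := Av_supp κ μ G hGs
  obtain ⟨hm1, hm2⟩ := band_mass μ hμ hμ1 (Av κ G) hgm M hgb hgs
  have hsub : shl ρ ⊆ {x : E 3 | x 0 ^ 2 + x 1 ^ 2 ≤ (2 * ρ) ^ 2} := fun x hx => hx.2.le
  have hT : ∀ x, ‖T (Av κ G) x‖ ≤ 20 * M * μ ^ 2 := fun x => (T_le _ x).trans hm1
  have hpt : ∀ x, ENNReal.ofReal (‖T (Av κ G) x‖ ^ p) ≤
      ENNReal.ofReal ((20 * M * μ ^ 2) ^ (p - 2)) *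
        ENNReal.ofReal (‖T (Av κ G) x‖ ^ 2) := by
    intro x
    rw [← ENNReal.ofReal_mul (by positivity)]
    apply ENNReal.ofReal_le_ofReal
    rcases eq_or_lt_of_le (norm_nonneg (T (Av κ G) x)) with h0 | h0
    · rw [← h0, Real.zero_rpow (by linarith)]
      positivity
    · have e1 : ‖T (Av κ G) x‖ ^ p = ‖T (Av κ G) x‖ ^ (p - 2) * ‖T (Av κ G) x‖ ^ 2 := by
        rw [← Real.rpow_natCast ‖T (Av κ G) x‖ 2, ← Real.rpow_add h0]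
        congr 1
        push_cast
        ring
      rw [e1]
      gcongr
      · linarith
      · exact hT x
  have hkey := (lintegral_mono_set hsub).trans (h2 μ hμ hμ1 (2 * ρ) (by positivity) (Av κ G) hgm
      ⟨M, hgb⟩ hgs)
  calc ∫⁻ x in shl ρ, ENNReal.ofReal (‖T (Av κ G) x‖ ^ p) ≤
      ∫⁻ x in shl ρ, ENNReal.ofReal ((20 * M * μ ^ 2) ^ (p - 2)) *
        ENNReal.ofReal (‖T (Av κ G) x‖ ^ 2) := lintegral_mono hpt
    _ = ENNReal.ofReal ((20 * M * μ ^ 2) ^ (p - 2)) *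
        ∫⁻ x in shl ρ, ENNReal.ofReal (‖T (Av κ G) x‖ ^ 2) := by
        rw [lintegral_const_mul' _ _ ENNReal.ofReal_ne_top]
    _ ≤ ENNReal.ofReal ((20 * M * μ ^ 2) ^ (p - 2)) *
        ENNReal.ofReal (C2 * min (2 * ρ / μ) ((2 * ρ) ^ 2) * ∫ w, ‖Av κ G w‖ ^ 2 ∂(sg 3)) := by
        gcongr
    _ = ENNReal.ofReal ((20 * M * μ ^ 2) ^ (p - 2) *
        (C2 * min (2 * ρ / μ) ((2 * ρ) ^ 2) * ∫ w, ‖Av κ G w‖ ^ 2 ∂(sg 3))) := by
        rw [← ENNReal.ofReal_mul (by positivity)]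
    _ ≤ _ := by
        apply ENNReal.ofReal_le_ofReal
        have e2 : min (2 * ρ / μ) ((2 * ρ) ^ 2) ≤ 2 * ρ / μ := min_le_left _ _
        have e3 : 0 ≤ ∫ w, ‖Av κ G w‖ ^ 2 ∂(sg 3) := integral_nonneg fun _ => by positivity
        have e4 : (20 * M * μ ^ 2) ^ (p - 2) = (20 * M) ^ (p - 2) * μ ^ (2 * (p - 2)) := by
          rw [Real.mul_rpow (by positivity) (by positivity), ← Real.rpow_natCast μ 2,
            ← Real.rpow_mul hμ.le]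
          norm_num
        have hmp : 0 < μ ^ (2 * (p - 2)) := Real.rpow_pos_of_pos hμ _
        rw [e4]
        calc (20 * M) ^ (p - 2) * μ ^ (2 * (p - 2)) *
            (C2 * min (2 * ρ / μ) ((2 * ρ) ^ 2) * ∫ w, ‖Av κ G w‖ ^ 2 ∂(sg 3)) ≤
            (20 * M) ^ (p - 2) * μ ^ (2 * (p - 2)) *
            (C2 * (2 * ρ / μ) * (20 * M ^ 2 * μ ^ 2)) := by gcongr
          _ = _ := by field_simp

end V6

/-- Task V6: the smoothed part, by induction on the smoothing scale -/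
theorem smooth2 (p s : ℝ) (hp : 3 < p) (hp' : p < 4) (hs : 1 / 5 < s) (hs' : s ≤ 1 / 2)
    (lam : ℝ) (hl : 1 / 2 ≤ lam) (hl' : lam ≤ 5 / 6) (M K : ℝ) (hM : 0 ≤ M) (hK : 0 ≤ K) :
    ∃ C ε : ℝ, 0 < C ∧ 0 < ε ∧ ∀ μ : ℝ, 0 < μ → μ ≤ 1 → ∀ ρ : ℝ, 2 ≤ ρ * μ →
    ∀ G : E 3 → ℂ, Measurable G → (∀ x, ‖G x‖ ≤ M) → (∀ x, x 2 ∉ band μ → G x = 0) →
    (∀ h : ℝ, 0 < h → h ≤ 1 →
      ∫ x, ‖G (rot (-h) x) - G x‖ ^ 2 ∂(sg 3) ≤ K * h ^ (2 * s) * μ ^ 2) →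
    ∫⁻ x in shl ρ, ENNReal.ofReal (‖T (Av ((ρ * μ) ^ (2 * lam)) G) x‖ ^ p) ≤
      ENNReal.ofReal (C * μ ^ (2 * (p - 2)) * (ρ * μ) ^ (-ε)) := by
  have hη : 0 < (5 * s - 1) / 12 := by linarith
  obtain ⟨k, hk⟩ := exists_nat_gt (1 / ((5 * s - 1) / 12))
  have hk2 : 1 < k * ((5 * s - 1) / 12) := by
    rwa [div_lt_iff₀ hη] at hk
  obtain ⟨C, ε, hC, hε, h⟩ := V6.all p s hp hp' hs hs' k lam hl hl' (by linarith) M K hM hK
  obtain ⟨C', hC', h'⟩ := V6.small p hp M hM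
  refine ⟨C + C' * ((8 ^ 12) * (8 ^ 12) ^ ε), ε, by positivity, hε, ?_⟩
  intro μ hμ hμ1 ρ hρ G hG hGM hGs hreg
  have hN0 : 0 < ρ * μ := by linarith
  have hmp : 0 < μ ^ (2 * (p - 2)) := Real.rpow_pos_of_pos hμ _
  have hNε : 0 < (ρ * μ) ^ (-ε) := Real.rpow_pos_of_pos hN0 _
  rcases le_or_gt (8 ^ 12) (ρ * μ) with hbig | hsm
  · refine (h μ hμ hμ1 ρ hbig G hG hGM hGs hreg).trans (ENNReal.ofReal_le_ofReal ?_)
    gcongr
    have : 0 ≤ C' * ((8 ^ 12 : ℝ) * (8 ^ 12) ^ ε) := by positivity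
    linarith
  · refine (h' μ hμ hμ1 ρ hρ _ G hG hGM hGs).trans (ENNReal.ofReal_le_ofReal ?_)
    have e1 : ρ * μ ≤ (8 ^ 12) * (8 ^ 12 : ℝ) ^ ε * (ρ * μ) ^ (-ε) := by
      have e2 : 1 ≤ (8 ^ 12 : ℝ) ^ ε * (ρ * μ) ^ (-ε) := by
        rw [Real.rpow_neg hN0.le, ← div_eq_mul_inv, one_le_div (by positivity)]
        exact Real.rpow_le_rpow hN0.le hsm.le hε.le
      calc ρ * μ ≤ 8 ^ 12 * 1 := by rw [mul_one]; exact hsm.le
        _ ≤ 8 ^ 12 * ((8 ^ 12 : ℝ) ^ ε * (ρ * μ) ^ (-ε)) := by gcongr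
        _ = _ := by ring
    calc C' * μ ^ (2 * (p - 2)) * (ρ * μ) ≤
        C' * μ ^ (2 * (p - 2)) * ((8 ^ 12) * (8 ^ 12 : ℝ) ^ ε * (ρ * μ) ^ (-ε)) := by gcongr
      _ = C' * ((8 ^ 12) * (8 ^ 12 : ℝ) ^ ε) * μ ^ (2 * (p - 2)) * (ρ * μ) ^ (-ε) := by ring
      _ ≤ _ := by
        gcongr
        linarith

end Pool.Agent.H789R2.FR
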