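import Mathlib
import Pool.Agent.H789R2.FR.Sph
import Pool.Agent.H789R2.FR.L2Cyl
import Pool.Agent.H789R2.FR.Weak
import Pool.Agent.H789R2.FR.Interp
import Pool.Agent.H789R2.FR.Avg
import Pool.Agent.H789R2.FR.AvOp
import Pool.Agent.H789R2.FR.Smooth2
set_option autoImplicit false

/-! Task V7: the `L^p` bound for one latitude ring, threshold `1/5`. -/

namespace Pool.Agent.H789R2.FR

open MeasureTheory Measure Set Metric Complex
open scoped ENNReal Pointwise RealInnerProductSpace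

namespace Piece5

theorem T_cont {n : ℕ} (f : E n → ℂ) (hf : Measurable f) (M : ℝ) (hM : ∀ x, ‖f x‖ ≤ M) :
    Continuous (T f) := by
  have := sg_finite n
  unfold T
  refine continuous_of_dominated (F := fun (x : E n) (w : E n) =>
    Complex.exp (-((⟪x, w⟫ : ℝ) : ℂ) * I) * f w) (bound := fun _ => M) ?_ ?_ ?_ ?_
  · intro x
    have h1 : Measurable fun w : E n => (⟪x, w⟫ : ℝ) := measurable_const.inner measurable_id
    have h2 : Measurable fun w : E n => Complex.exp (-((⟪x, w⟫ : ℝ) : ℂ) * I) * f w := by fun_prop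
    exact h2.aestronglyMeasurable
  · intro x
    refine Filter.Eventually.of_forall fun w => ?_
    rw [norm_mul]
    have : -((⟪x, w⟫ : ℝ) : ℂ) * I = ((-⟪x, w⟫ : ℝ) : ℂ) * I := by push_cast; ring
    rw [this, Complex.norm_exp_ofReal_mul_I, one_mul]
    exact hM w
  · exact integrable_const _
  · refine Filter.Eventually.of_forall fun w => ?_
    fun_prop

theorem T_add {n : ℕ} (f g : E n → ℂ) (hf : Measurable f) (hg : Measurable g) (M : ℝ)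
    (hM : ∀ x, ‖f x‖ ≤ M) (hM' : ∀ x, ‖g x‖ ≤ M) (x : E n) :
    T (fun y => f y + g y) x = T f x + T g x := by
  have := sg_finite n
  unfold T
  have h1 : Measurable fun w : E n => (⟪x, w⟫ : ℝ) := measurable_const.inner measurable_id
  have key : ∀ f : E n → ℂ, Measurable f → (∀ x, ‖f x‖ ≤ M) →
      Integrable (fun w => Complex.exp (-((⟪x, w⟫ : ℝ) : ℂ) * I) * f w) (sg n) := by
    intro f hf hM
    have h2 : Measurable fun w : E n => Complex.exp (-((⟪x, w⟫ : ℝ) : ℂ) * I) * f w := by fun_prop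
    refine Integrable.of_bound h2.aestronglyMeasurable M (Filter.Eventually.of_forall fun w => ?_)
    rw [norm_mul]
    have : -((⟪x, w⟫ : ℝ) : ℂ) * I = ((-⟪x, w⟫ : ℝ) : ℂ) * I := by push_cast; ring
    rw [this, Complex.norm_exp_ofReal_mul_I, one_mul]
    exact hM w
  rw [← integral_add (key f hf hM) (key g hg hM')]
  congr 1
  ext w
  ring

theorem T_norm_le {n : ℕ} (f : E n → ℂ) (x : E n) : ‖T f x‖ ≤ ∫ w, ‖f w‖ ∂(sg n) := by
  unfold T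
  refine (norm_integral_le_integral_norm _).trans (le_of_eq ?_)
  congr 1
  ext w
  rw [norm_mul]
  have : -((⟪x, w⟫ : ℝ) : ℂ) * I = ((-⟪x, w⟫ : ℝ) : ℂ) * I := by push_cast; ring
  rw [this, Complex.norm_exp_ofReal_mul_I, one_mul]

/-- the disc part -/
theorem center (p : ℝ) (hp : 3 < p) (M : ℝ) (hM0 : 0 ≤ M) : ∃ C : ℝ, 0 < C ∧
    ∀ μ : ℝ, 0 < μ → μ ≤ 1 →
    ∀ G : E 3 → ℂ, Measurable G → (∀ x, ‖G x‖ ≤ M) → (∀ x, x 2 ∉ band μ → G x = 0) →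
    ∫⁻ x in {x : E 3 | x 0 ^ 2 + x 1 ^ 2 ≤ (64 / μ) ^ 2}, ENNReal.ofReal (‖T G x‖ ^ p) ≤
      ENNReal.ofReal (C * μ ^ (2 * (p - 2))) := by
  obtain ⟨C2, hC2, h2⟩ := L2_cyl
  refine ⟨(20 * M) ^ (p - 2) * (1280 * C2 * M ^ 2) + 1, by positivity, ?_⟩
  intro μ hμ hμ1 G hG hGM hGs
  obtain ⟨hm1, hm2⟩ := band_mass μ hμ hμ1 G hG M hGM hGs
  have h3 := h2 μ hμ hμ1 (64 / μ) (by positivity) G hG ⟨M, hGM⟩ hGs
  have hpt : ∀ x, ‖T G x‖ ^ p ≤ (20 * M * μ ^ 2) ^ (p - 2) * ‖T G x‖ ^ 2 := by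
    intro x
    have h4 : ‖T G x‖ ≤ 20 * M * μ ^ 2 := (T_norm_le G x).trans hm1
    have h5 : ‖T G x‖ ^ p = ‖T G x‖ ^ (p - 2) * ‖T G x‖ ^ 2 := by
      rw [← Real.rpow_natCast, ← Real.rpow_add' (norm_nonneg _) (by push_cast; linarith)]
      congr 1
      push_cast
      ring
    rw [h5]
    gcongr
    linarith
  calc ∫⁻ x in {x : E 3 | x 0 ^ 2 + x 1 ^ 2 ≤ (64 / μ) ^ 2}, ENNReal.ofReal (‖T G x‖ ^ p) ≤
      ∫⁻ x in {x : E 3 | x 0 ^ 2 + x 1 ^ 2 ≤ (64 / μ) ^ 2},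
        ENNReal.ofReal ((20 * M * μ ^ 2) ^ (p - 2)) * ENNReal.ofReal (‖T G x‖ ^ 2) := by
        refine lintegral_mono fun x => ?_
        rw [← ENNReal.ofReal_mul (by positivity)]
        exact ENNReal.ofReal_le_ofReal (hpt x)
    _ = ENNReal.ofReal ((20 * M * μ ^ 2) ^ (p - 2)) *
        ∫⁻ x in {x : E 3 | x 0 ^ 2 + x 1 ^ 2 ≤ (64 / μ) ^ 2}, ENNReal.ofReal (‖T G x‖ ^ 2) := by
        rw [lintegral_const_mul' _ _ ENNReal.ofReal_ne_top]
    _ ≤ ENNReal.ofReal ((20 * M * μ ^ 2) ^ (p - 2)) *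
        ENNReal.ofReal (C2 * min (64 / μ / μ) ((64 / μ) ^ 2) * ∫ w, ‖G w‖ ^ 2 ∂(sg 3)) := by
        gcongr
    _ ≤ ENNReal.ofReal ((20 * M * μ ^ 2) ^ (p - 2)) *
        ENNReal.ofReal (1280 * C2 * M ^ 2) := by
        gcongr ENNReal.ofReal _ * ?_
        apply ENNReal.ofReal_le_ofReal
        have h6 : min (64 / μ / μ) ((64 / μ) ^ 2) ≤ 64 / μ / μ := min_le_left _ _
        have h7 : 0 ≤ ∫ w, ‖G w‖ ^ 2 ∂(sg 3) := integral_nonneg fun _ => by positivity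
        calc C2 * min (64 / μ / μ) ((64 / μ) ^ 2) * ∫ w, ‖G w‖ ^ 2 ∂(sg 3) ≤
            C2 * (64 / μ / μ) * (20 * M ^ 2 * μ ^ 2) := by gcongr
          _ = 1280 * C2 * M ^ 2 := by field_simp; ring
    _ = ENNReal.ofReal ((20 * M * μ ^ 2) ^ (p - 2) * (1280 * C2 * M ^ 2)) := by
        rw [ENNReal.ofReal_mul (p := (20 * M * μ ^ 2) ^ (p - 2)) (by positivity)]
    _ ≤ _ := by
        apply ENNReal.ofReal_le_ofReal
        have h8 : (20 * M * μ ^ 2) ^ (p - 2) = (20 * M) ^ (p - 2) * μ ^ (2 * (p - 2)) := by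
          rw [Real.mul_rpow (by positivity) (by positivity), ← Real.rpow_natCast μ 2,
            ← Real.rpow_mul hμ.le]
          push_cast
          rfl
        rw [h8]
        have h9 : 0 < μ ^ (2 * (p - 2)) := Real.rpow_pos_of_pos hμ _
        nlinarith

/-- the shell -/
def shell (ρ : ℝ) : Set (E 3) :=
  {x : E 3 | ρ ^ 2 ≤ x 0 ^ 2 + x 1 ^ 2 ∧ x 0 ^ 2 + x 1 ^ 2 < (2 * ρ) ^ 2}

theorem meas_shell (ρ : ℝ) : MeasurableSet (shell ρ) := by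
  have h1 : Measurable fun x : E 3 => x 0 ^ 2 + x 1 ^ 2 := by fun_prop
  exact (measurableSet_le measurable_const h1).inter (measurableSet_lt h1 measurable_const)

/-- distributional bound for unbounded sets -/
theorem weak3 : ∃ C : ℝ, 0 < C ∧ ∀ g : E 3 → ℂ, Measurable g → ∀ M : ℝ, (∀ x, ‖g x‖ ≤ M) →
    ∀ H : ℝ, ∫ w, ‖g w‖ ^ 2 ∂(sg 3) ≤ H →
    ∀ t : ℝ, 0 < t → ∀ S : Set (E 3), MeasurableSet S →
    volume (S ∩ {x | t ≤ ‖T g x‖}) ≤ ENNReal.ofReal ((C * H / t ^ 2) ^ 2) := by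
  obtain ⟨C, hC, hw⟩ := weak 3 (by norm_num)
  refine ⟨Real.sqrt C, Real.sqrt_pos.2 hC, ?_⟩
  intro g hg M hM H hH t ht S hS
  have hT : Measurable (fun x => ‖T g x‖) := (T_cont g hg M hM).norm.measurable
  have hA : MeasurableSet (S ∩ {x | t ≤ ‖T g x‖}) := hS.inter (measurableSet_le measurable_const hT)
  set A : Set (E 3) := S ∩ {x | t ≤ ‖T g x‖} with hAdef
  have hAn : ∀ n : ℕ, volume (A ∩ closedBall 0 n) ≤
      ENNReal.ofReal ((Real.sqrt C * H / t ^ 2) ^ 2) := by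
    intro n
    have h1 := hw g hg ⟨M, hM⟩ t ht (A ∩ closedBall 0 n)
      (hA.inter measurableSet_closedBall) (isBounded_closedBall.subset inter_subset_right)
      (fun x hx => hx.1.2)
    have h2 : volume (A ∩ closedBall (0 : E 3) n) ≠ ∞ :=
      ((measure_mono inter_subset_right).trans_lt measure_closedBall_lt_top).ne
    rw [← ENNReal.ofReal_toReal h2]
    apply ENNReal.ofReal_le_ofReal
    have h3 : (((3 : ℕ) : ℝ) + 1) / (((3 : ℕ) : ℝ) - 1) = 2 := by norm_num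
    rw [h3] at h1
    refine h1.trans ?_
    have h0 : 0 ≤ ∫ w, ‖g w‖ ^ 2 ∂(sg 3) := integral_nonneg fun _ => by positivity
    have h4 : (Real.sqrt C * H / t ^ 2) ^ 2 = C * (H / t ^ 2) ^ 2 := by
      rw [mul_div_assoc, mul_pow, Real.sq_sqrt hC.le]
    rw [h4, Real.rpow_two]
    gcongr
  have hU : A = ⋃ n : ℕ, A ∩ closedBall (0 : E 3) n := by
    rw [← inter_iUnion, iUnion_closedBall_nat, inter_univ]
  have hmono : Monotone fun n : ℕ => A ∩ closedBall (0 : E 3) (n : ℝ) := by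
    intro a b hab
    apply inter_subset_inter_right
    exact closedBall_subset_closedBall (by exact_mod_cast hab)
  have ht := tendsto_measure_iUnion_atTop (μ := (volume : Measure (E 3))) hmono
  rw [← hU] at ht
  exact le_of_tendsto ht (Filter.Eventually.of_forall hAn)

theorem rem_num (p s B1 B2 N μ : ℝ) (hp : 3 < p) (hp' : p < 4) (hB1 : 0 ≤ B1)
    (hB2 : 0 ≤ B2) (hN : 64 ≤ N) (hμ : 0 < μ) :
    (B1 * N ^ (1 - s)) ^ ((4 - p) / 2) * (B2 * μ ^ 2 * N ^ (-s)) ^ (p - 2) =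
      B1 ^ ((4 - p) / 2) * B2 ^ (p - 2) * (μ ^ (2 * (p - 2)) * N ^ (-((s * p + p - 4) / 2))) := by
  have hN0 : 0 < N := by linarith
  rw [Real.mul_rpow hB1 (by positivity), Real.mul_rpow (by positivity) (by positivity),
    Real.mul_rpow hB2 (by positivity), ← Real.rpow_mul hN0.le, ← Real.rpow_mul hN0.le,
    ← Real.rpow_natCast μ 2, ← Real.rpow_mul hμ.le]
  have h2 : N ^ (-((s * p + p - 4) / 2)) = N ^ ((1 - s) * ((4 - p) / 2)) * N ^ (-s * (p - 2)) := by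
    rw [← Real.rpow_add hN0]
    congr 1
    ring
  rw [h2]
  push_cast
  ring

theorem add_rpow_le (x y p : ℝ) (hx : 0 ≤ x) (hy : 0 ≤ y) (hp : 0 ≤ p) :
    (x + y) ^ p ≤ 2 ^ p * (x ^ p + y ^ p) := by
  have hx' : 0 ≤ x ^ p := Real.rpow_nonneg hx _
  have hy' : 0 ≤ y ^ p := Real.rpow_nonneg hy _
  have h2 : (0 : ℝ) < 2 ^ p := by positivity
  rcases le_total x y with h | h
  · calc (x + y) ^ p ≤ (2 * y) ^ p := Real.rpow_le_rpow (by positivity) (by linarith) hp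
      _ = 2 ^ p * y ^ p := Real.mul_rpow (by norm_num) hy
      _ ≤ _ := by nlinarith
  · calc (x + y) ^ p ≤ (2 * x) ^ p := Real.rpow_le_rpow (by positivity) (by linarith) hp
      _ = 2 ^ p * x ^ p := Real.mul_rpow (by norm_num) hx
      _ ≤ _ := by nlinarith


/-- one shell -/
theorem shell_bound (p s : ℝ) (hp : 3 < p) (hp' : p < 4) (hs : 1 / 5 < s) (hs1 : s ≤ 1 / 2)
    (M K : ℝ) (hM0 : 0 ≤ M) (hK0 : 0 ≤ K) : ∃ C ε : ℝ, 0 < C ∧ 0 < ε ∧ ∀ μ : ℝ, 0 < μ → μ ≤ 1 →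
    ∀ G : E 3 → ℂ, Measurable G → (∀ x, ‖G x‖ ≤ M) → (∀ x, x 2 ∉ band μ → G x = 0) →
    (∀ h : ℝ, 0 < h → h ≤ 1 →
      ∫ x, ‖G (rot (-h) x) - G x‖ ^ 2 ∂(sg 3) ≤ K * h ^ (2 * s) * μ ^ 2) →
    ∀ N : ℝ, 64 ≤ N →
    ∫⁻ x in shell (N / μ), ENNReal.ofReal (‖T G x‖ ^ p) ≤
      ENNReal.ofReal (C * μ ^ (2 * (p - 2)) *
        (N ^ (-ε) + N ^ (-((5 / 3 * s * p + p - 4) / 2)))) := by
  obtain ⟨C2, hC2, h2⟩ := L2_cyl
  obtain ⟨Ci, hCi, hi⟩ := interp_weak p (by linarith) hp'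
  obtain ⟨Cw, hCw, hw⟩ := weak3
  obtain ⟨Cd, hCd, hd⟩ := Av_diff
  obtain ⟨Cs, ε, hCs, hε, hsm⟩ := smooth2 p s hp hp' hs hs1 (5 / 6) (by norm_num) le_rfl M K
    hM0 hK0
  set B1 : ℝ := 2 * C2 * (Cd * K) with hB1
  set B2 : ℝ := Cw * (Cd * K) with hB2
  refine ⟨2 ^ p * (Cs + Ci * (B1 ^ ((4 - p) / 2) * B2 ^ (p - 2))) + 1, ε, by positivity, hε, ?_⟩
  intro μ hμ hμ1 G hG hGM hGs hreg N hN
  have hN0 : 0 < N := by linarith
  set ρ : ℝ := N / μ with hρ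
  have hρ0 : 0 < ρ := by positivity
  have hρμ : ρ * μ = N := by rw [hρ]; field_simp
  set κ : ℝ := N ^ (2 * (5 / 6 : ℝ)) with hκ
  have hκ1 : 1 ≤ κ := Real.one_le_rpow (by linarith) (by norm_num)
  have hκ0 : 0 < κ := by linarith
  set a : E 3 → ℂ := Av κ G with ha
  set h : E 3 → ℂ := fun x => G x - a x with hh
  have ham : Measurable a := Av_meas κ G hG
  have hab : ∀ x, ‖a x‖ ≤ M := Av_bound κ G M hGM
  have has : ∀ x, x 2 ∉ band μ → a x = 0 := Av_supp κ μ G hGs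
  have hhm : Measurable h := hG.sub ham
  have hhb : ∀ x, ‖h x‖ ≤ 2 * M := by
    intro x
    calc ‖G x - a x‖ ≤ ‖G x‖ + ‖a x‖ := norm_sub_le _ _
      _ ≤ 2 * M := by linarith [hGM x, hab x]
  have hhs : ∀ x, x 2 ∉ band μ → h x = 0 := by
    intro x hx
    simp only [hh]
    rw [hGs x hx, has x hx, sub_zero]
  have hH : ∫ w, ‖h w‖ ^ 2 ∂(sg 3) ≤ Cd * K * μ ^ 2 * N ^ (-(5 / 3 * s)) := by
    have e1 := hd κ hκ1 s (by linarith) (by linarith) G hG ⟨M, hGM⟩ (K * μ ^ 2) (by positivity)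
      (fun t ht ht' => (hreg t ht ht').trans (le_of_eq (by ring)))
    refine e1.trans (le_of_eq ?_)
    rw [hκ, ← Real.rpow_mul hN0.le]
    have : 2 * (5 / 6 : ℝ) * -s = -(5 / 3 * s) := by ring
    rw [this]
    ring
  have hsub : shell ρ ⊆ {x : E 3 | x 0 ^ 2 + x 1 ^ 2 ≤ (2 * ρ) ^ 2} := fun x hx => hx.2.le
  have hρμ2 : 2 * ρ / μ = 2 * N / μ ^ 2 := by rw [hρ]; field_simp
  -- the smooth part
  have ea : ∫⁻ x in shell ρ, ENNReal.ofReal (‖T a x‖ ^ p) ≤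
      ENNReal.ofReal (Cs * μ ^ (2 * (p - 2)) * N ^ (-ε)) := by
    have e1 := hsm μ hμ hμ1 ρ (by rw [hρμ]; linarith) G hG hGM hGs hreg
    rw [hρμ] at e1
    exact e1
  -- the remainder
  have eh2 : ∫⁻ x in shell ρ, ENNReal.ofReal (‖T h x‖ ^ 2) ≤
      ENNReal.ofReal (B1 * N ^ (1 - 5 / 3 * s)) := by
    refine (lintegral_mono_set hsub).trans ((h2 μ hμ hμ1 (2 * ρ) (by positivity) h hhm
      ⟨2 * M, hhb⟩ hhs).trans (ENNReal.ofReal_le_ofReal ?_))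
    have e2 : min (2 * ρ / μ) ((2 * ρ) ^ 2) ≤ 2 * ρ / μ := min_le_left _ _
    have e3 : 0 ≤ ∫ w, ‖h w‖ ^ 2 ∂(sg 3) := integral_nonneg fun _ => by positivity
    have e4 : N ^ (1 - 5 / 3 * s) = N * N ^ (-(5 / 3 * s)) := by
      rw [sub_eq_add_neg, Real.rpow_add hN0, Real.rpow_one]
    calc C2 * min (2 * ρ / μ) ((2 * ρ) ^ 2) * ∫ w, ‖h w‖ ^ 2 ∂(sg 3) ≤
        C2 * (2 * ρ / μ) * (Cd * K * μ ^ 2 * N ^ (-(5 / 3 * s))) := by gcongr
      _ = B1 * N ^ (1 - 5 / 3 * s) := by rw [hρμ2, hB1, e4]; field_simp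
  have eh : ∫⁻ x in shell ρ, ENNReal.ofReal (‖T h x‖ ^ p) ≤
      ENNReal.ofReal (Ci * (B1 ^ ((4 - p) / 2) * B2 ^ (p - 2) *
        (μ ^ (2 * (p - 2)) * N ^ (-((5 / 3 * s * p + p - 4) / 2))))) := by
    refine (hi (shell ρ) (meas_shell ρ) (fun x => ‖T h x‖)
      (T_cont h hhm (2 * M) hhb).norm.measurable (fun x => norm_nonneg _)
      (B1 * N ^ (1 - 5 / 3 * s)) (B2 * μ ^ 2 * N ^ (-(5 / 3 * s))) (by positivity) (by positivity)
      eh2 ?_).trans (le_of_eq ?_)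
    · intro t ht
      have e1 := hw h hhm (2 * M) hhb _ hH t ht (shell ρ) (meas_shell ρ)
      refine e1.trans (le_of_eq ?_)
      congr 3
      rw [hB2]
      ring
    · congr 1
      rw [mul_assoc, rem_num p (5 / 3 * s) B1 B2 N μ hp hp' (by positivity) (by positivity) hN hμ]
  -- together
  have hTG : ∀ x, T G x = T a x + T h x := by
    intro x
    have e1 : G = fun y => a y + h y := by
      ext y
      simp only [hh]
      ring
    have e2 := T_add a h ham hhm (2 * M) (fun y => (hab y).trans (by linarith)) hhb x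
    rw [← e1] at e2
    exact e2
  have hpt : ∀ x, ENNReal.ofReal (‖T G x‖ ^ p) ≤ ENNReal.ofReal (2 ^ p) *
      (ENNReal.ofReal (‖T a x‖ ^ p) + ENNReal.ofReal (‖T h x‖ ^ p)) := by
    intro x
    rw [← ENNReal.ofReal_add (by positivity) (by positivity), ← ENNReal.ofReal_mul (by positivity)]
    apply ENNReal.ofReal_le_ofReal
    rw [hTG x]
    calc ‖T a x + T h x‖ ^ p ≤ (‖T a x‖ + ‖T h x‖) ^ p :=
        Real.rpow_le_rpow (norm_nonneg _) (norm_add_le _ _) (by linarith)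
      _ ≤ _ := add_rpow_le _ _ p (norm_nonneg _) (norm_nonneg _) (by linarith)
  have hTam : Measurable fun x => ENNReal.ofReal (‖T a x‖ ^ p) := by
    have : Measurable fun x => ‖T a x‖ := (T_cont a ham M hab).norm.measurable
    fun_prop
  have hμp : 0 < μ ^ (2 * (p - 2)) := Real.rpow_pos_of_pos hμ _
  calc ∫⁻ x in shell ρ, ENNReal.ofReal (‖T G x‖ ^ p) ≤
      ∫⁻ x in shell ρ, ENNReal.ofReal (2 ^ p) *
      (ENNReal.ofReal (‖T a x‖ ^ p) + ENNReal.ofReal (‖T h x‖ ^ p)) := lintegral_mono hpt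
    _ = ENNReal.ofReal (2 ^ p) * ((∫⁻ x in shell ρ, ENNReal.ofReal (‖T a x‖ ^ p)) +
        ∫⁻ x in shell ρ, ENNReal.ofReal (‖T h x‖ ^ p)) := by
        rw [lintegral_const_mul' _ _ ENNReal.ofReal_ne_top, lintegral_add_left hTam]
    _ ≤ ENNReal.ofReal (2 ^ p) * (ENNReal.ofReal (Cs * μ ^ (2 * (p - 2)) * N ^ (-ε)) +
        ENNReal.ofReal (Ci * (B1 ^ ((4 - p) / 2) * B2 ^ (p - 2) *
        (μ ^ (2 * (p - 2)) * N ^ (-((5 / 3 * s * p + p - 4) / 2)))))) := by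
        gcongr
    _ = ENNReal.ofReal (2 ^ p * (Cs * μ ^ (2 * (p - 2)) * N ^ (-ε) +
        Ci * (B1 ^ ((4 - p) / 2) * B2 ^ (p - 2) *
        (μ ^ (2 * (p - 2)) * N ^ (-((5 / 3 * s * p + p - 4) / 2)))))) := by
        rw [← ENNReal.ofReal_add (by positivity) (by positivity),
          ← ENNReal.ofReal_mul (by positivity)]
    _ ≤ _ := by
        apply ENNReal.ofReal_le_ofReal
        set X := N ^ (-ε)
        set Y := N ^ (-((5 / 3 * s * p + p - 4) / 2))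
        have hX : 0 ≤ X := by positivity
        have hY : 0 ≤ Y := by positivity
        set a2 := B1 ^ ((4 - p) / 2) * B2 ^ (p - 2)
        set m := μ ^ (2 * (p - 2))
        have ha2 : 0 ≤ a2 := by positivity
        have h2p : (0 : ℝ) < 2 ^ p := by positivity
        have e1 : 2 ^ p * (Cs * m * X + Ci * (a2 * (m * Y))) =
          2 ^ p * m * (Cs * X + Ci * a2 * Y) := by ring
        have e2 : (2 ^ p * (Cs + Ci * a2) + 1) * m * (X + Y) =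
          2 ^ p * m * (Cs * X + Ci * a2 * Y) + (2 ^ p * m * (Cs * Y + Ci * a2 * X) + m * (X + Y)) := by
            ring
        rw [e1, e2]
        have e3 : 0 ≤ 2 ^ p * m * (Cs * Y + Ci * a2 * X) + m * (X + Y) := by positivity
        linarith

/-- the sum over the shells -/
theorem summ (e1 e2 : ℝ) (h1 : 0 < e1) (h2 : 0 < e2) :
    Summable fun k : ℕ => (64 * 2 ^ k : ℝ) ^ (-e1) + (64 * 2 ^ k : ℝ) ^ (-e2) := by
  have hpow : ∀ e : ℝ, 0 < e → ∀ k : ℕ, (64 * 2 ^ k : ℝ) ^ (-e) ≤ ((2 : ℝ) ^ (-e)) ^ k := by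
    intro e he k
    have e3 : ((2 : ℝ) ^ (-e)) ^ k = ((2 : ℝ) ^ k) ^ (-e) := by
      rw [← Real.rpow_natCast, ← Real.rpow_mul (by norm_num), ← Real.rpow_natCast,
        ← Real.rpow_mul (by norm_num)]
      congr 1
      ring
    rw [e3]
    apply Real.rpow_le_rpow_of_nonpos (by positivity) _ (by linarith)
    have : (0 : ℝ) < 2 ^ k := by positivity
    linarith
  have hr : ∀ e : ℝ, 0 < e → ‖(2 : ℝ) ^ (-e)‖ < 1 := by
    intro e he
    rw [Real.norm_of_nonneg (by positivity)]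
    exact Real.rpow_lt_one_of_one_lt_of_neg (by norm_num) (by linarith)
  exact (Summable.of_nonneg_of_le (fun k => by positivity) (fun k => hpow e1 h1 k)
      (summable_geometric_of_norm_lt_one (hr e1 h1))).add
    (Summable.of_nonneg_of_le (fun k => by positivity) (fun k => hpow e2 h2 k)
      (summable_geometric_of_norm_lt_one (hr e2 h2)))

theorem piece_aux (p s : ℝ) (hp : 3 < p) (hp' : p < 4) (hs : 1 / 5 < s) (hs1 : s ≤ 1 / 2) :
    ∀ M K : ℝ,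
    0 ≤ M → 0 ≤ K → ∃ C : ℝ, 0 < C ∧ ∀ μ : ℝ, 0 < μ → μ ≤ 1 →
    ∀ G : E 3 → ℂ, Measurable G → (∀ x, ‖G x‖ ≤ M) → (∀ x, x 2 ∉ band μ → G x = 0) →
    (∀ h : ℝ, 0 < h → h ≤ 1 →
      ∫ x, ‖G (rot (-h) x) - G x‖ ^ 2 ∂(sg 3) ≤ K * h ^ (2 * s) * μ ^ 2) →
    ∫⁻ x, ENNReal.ofReal (‖T G x‖ ^ p) ≤ ENNReal.ofReal (C * μ ^ (2 * (p - 2))) := by
  intro M K hM0 hK0
  obtain ⟨C1, hC1, h1⟩ := center p hp M hM0
  obtain ⟨C2, ε, hC2, hε, h2⟩ := shell_bound p s hp hp' hs hs1 M K hM0 hK0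
  have hsum := summ ε ((5 / 3 * s * p + p - 4) / 2) hε (by nlinarith)
  set W : ℝ := ∑' k : ℕ, ((64 * 2 ^ k : ℝ) ^ (-ε) +
      (64 * 2 ^ k : ℝ) ^ (-((5 / 3 * s * p + p - 4) / 2))) with hW
  have hterm : ∀ k : ℕ, 0 ≤ (64 * 2 ^ k : ℝ) ^ (-ε) +
      (64 * 2 ^ k : ℝ) ^ (-((5 / 3 * s * p + p - 4) / 2)) := by
    intro k
    positivity
  have hW0 : 0 ≤ W := tsum_nonneg hterm
  refine ⟨C1 + C2 * W, by positivity, ?_⟩
  intro μ hμ hμ1 G hG hGM hGs hreg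
  have hμp : 0 < μ ^ (2 * (p - 2)) := Real.rpow_pos_of_pos hμ _
  have hcover : (univ : Set (E 3)) ⊆ {x : E 3 | x 0 ^ 2 + x 1 ^ 2 ≤ (64 / μ) ^ 2} ∪
      ⋃ k : ℕ, shell (64 * 2 ^ k / μ) := by
    intro x _
    by_cases hx : x 0 ^ 2 + x 1 ^ 2 ≤ (64 / μ) ^ 2
    · exact Or.inl hx
    · right
      rw [not_le] at hx
      set q : ℝ := Real.sqrt (x 0 ^ 2 + x 1 ^ 2) with hq
      have hq2 : q ^ 2 = x 0 ^ 2 + x 1 ^ 2 := Real.sq_sqrt (by positivity)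
      have hq0 : 0 ≤ q := Real.sqrt_nonneg _
      have h64 : (0 : ℝ) < 64 / μ := by positivity
      have hq1 : 64 / μ ≤ q := by
        rw [hq]
        exact Real.le_sqrt_of_sq_le hx.le
      obtain ⟨k, hk1, hk2⟩ := exists_nat_pow_near (x := q / (64 / μ)) (y := (2 : ℝ))
        ((one_le_div h64).2 hq1) (by norm_num)
      rw [le_div_iff₀ h64] at hk1
      rw [div_lt_iff₀ h64] at hk2
      refine mem_iUnion.2 ⟨k, ?_, ?_⟩
      · rw [← hq2]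
        apply pow_le_pow_left₀ (by positivity)
        calc 64 * 2 ^ k / μ = 2 ^ k * (64 / μ) := by ring
          _ ≤ q := hk1
      · rw [← hq2]
        apply pow_lt_pow_left₀ _ hq0 (by norm_num)
        calc q < 2 ^ (k + 1) * (64 / μ) := hk2
          _ = 2 * (64 * 2 ^ k / μ) := by rw [pow_succ]; ring
  calc ∫⁻ x, ENNReal.ofReal (‖T G x‖ ^ p) =
      ∫⁻ x in univ, ENNReal.ofReal (‖T G x‖ ^ p) := by rw [Measure.restrict_univ]
    _ ≤ ∫⁻ x in {x : E 3 | x 0 ^ 2 + x 1 ^ 2 ≤ (64 / μ) ^ 2} ∪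
      ⋃ k : ℕ, shell (64 * 2 ^ k / μ), ENNReal.ofReal (‖T G x‖ ^ p) := lintegral_mono_set hcover
    _ ≤ (∫⁻ x in {x : E 3 | x 0 ^ 2 + x 1 ^ 2 ≤ (64 / μ) ^ 2}, ENNReal.ofReal (‖T G x‖ ^ p)) +
      ∫⁻ x in ⋃ k : ℕ, shell (64 * 2 ^ k / μ), ENNReal.ofReal (‖T G x‖ ^ p) :=
        lintegral_union_le _ _ _
    _ ≤ ENNReal.ofReal (C1 * μ ^ (2 * (p - 2))) +
        ∑' k : ℕ, ∫⁻ x in shell (64 * 2 ^ k / μ), ENNReal.ofReal (‖T G x‖ ^ p) := by
        gcongr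
        · exact h1 μ hμ hμ1 G hG hGM hGs
        · exact lintegral_iUnion_le _ _
    _ ≤ ENNReal.ofReal (C1 * μ ^ (2 * (p - 2))) +
        ∑' k : ℕ, ENNReal.ofReal (C2 * μ ^ (2 * (p - 2)) *
          ((64 * 2 ^ k : ℝ) ^ (-ε) +
            (64 * 2 ^ k : ℝ) ^ (-((5 / 3 * s * p + p - 4) / 2)))) := by
        gcongr with k
        have h64 : (64 : ℝ) ≤ 64 * 2 ^ k := by
          have : (1 : ℝ) ≤ 2 ^ k := one_le_pow₀ (by norm_num)
          linarith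
        exact h2 μ hμ hμ1 G hG hGM hGs hreg (64 * 2 ^ k) h64
    _ = ENNReal.ofReal (C1 * μ ^ (2 * (p - 2))) + ENNReal.ofReal (C2 * μ ^ (2 * (p - 2)) * W) := by
        rw [hW, ← tsum_mul_left, ENNReal.ofReal_tsum_of_nonneg _ (hsum.mul_left _)]
        intro k
        exact mul_nonneg (by positivity) (hterm k)
    _ = ENNReal.ofReal ((C1 + C2 * W) * μ ^ (2 * (p - 2))) := by
        rw [← ENNReal.ofReal_add (by positivity) (by positivity)]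
        congr 1
        ring

end Piece5

open Piece5 in
theorem piece5 (p s : ℝ) (hp : 3 < p) (hp' : p < 4) (hs : 1 / 5 < s) : ∀ M K : ℝ,
    0 ≤ M → 0 ≤ K → ∃ C : ℝ, 0 < C ∧ ∀ μ : ℝ, 0 < μ → μ ≤ 1 →
    ∀ G : E 3 → ℂ, Measurable G → (∀ x, ‖G x‖ ≤ M) → (∀ x, x 2 ∉ band μ → G x = 0) →
    (∀ h : ℝ, 0 < h → h ≤ 1 →
      ∫ x, ‖G (rot (-h) x) - G x‖ ^ 2 ∂(sg 3) ≤ K * h ^ (2 * s) * μ ^ 2) →
    ∫⁻ x, ENNReal.ofReal (‖T G x‖ ^ p) ≤ ENNReal.ofReal (C * μ ^ (2 * (p - 2))) := by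
  intro M K hM0 hK0
  obtain ⟨C, hC, h1⟩ := piece_aux p (min s (1 / 2)) hp hp' (lt_min hs (by norm_num))
    (min_le_right _ _) M K hM0 hK0
  refine ⟨C, hC, ?_⟩
  intro μ hμ hμ1 G hG hGM hGs hreg
  refine h1 μ hμ hμ1 G hG hGM hGs ?_
  intro h hh hh1
  refine (hreg h hh hh1).trans ?_
  have e1 : h ^ (2 * s) ≤ h ^ (2 * min s (1 / 2)) :=
    Real.rpow_le_rpow_of_exponent_ge hh hh1 (by linarith [min_le_left s (1 / 2)])
  gcongr

end Pool.Agent.H789R2.FR
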