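import Mathlib
import Pool.Agent.H789R2.FR.Core3
import Pool.Agent.H789R2.FR.Piece5
set_option autoImplicit false

/-! Summation over the latitude rings, threshold `1/5`. -/

namespace Pool.Agent.H789R2.FR

open MeasureTheory Measure Set Metric Complex
open scoped ENNReal Pointwise RealInnerProductSpace

theorem core5 (s : ℝ) (hs : 1 / 5 < s) (K : ℝ) (hK : 0 ≤ K) (G : E 3 → ℂ)
    (hG : Measurable G) (M : ℝ) (hM : ∀ x, ‖G x‖ ≤ M)
    (hreg : ∀ h : ℝ, 0 < h → h ≤ 1 → ∀ a b : ℝ, -1 ≤ a → a < b → b ≤ 1 →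
      ∫ x in {x : E 3 | a < x 2 ∧ x 2 ≤ b}, ‖G (rot (-h) x) - G x‖ ^ 2 ∂(sg 3) ≤
        K * h ^ (2 * s) * (b - a)) (p : ℝ) (hp : 3 < p) :
    ∫⁻ x, ENNReal.ofReal (‖T G x‖ ^ p) < ∞ :=
  C3.core3_gen s (fun p h1 h2 => piece5 p s h1 h2 hs) K hK G hG M hM hreg p hp

end Pool.Agent.H789R2.FR
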