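import Mathlib
import Pool.Agent.H789R2.FR.Defs3
set_option autoImplicit false

/-! One integration by parts (task Q8). -/

namespace Pool.Agent.H789R2.FR

open MeasureTheory Measure Set Metric Complex
open scoped ENNReal Pointwise RealInnerProductSpace

theorem ibp_sc_continuous : Continuous sc := by
  unfold sc
  fun_prop

theorem ibp_sc_nonneg (c : ℝ) : 0 ≤ sc c := Real.sqrt_nonneg _

theorem ibp_sc_le_one (c : ℝ) : sc c ≤ 1 := by
  unfold sc
  rw [Real.sqrt_le_left (by norm_num)]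
  nlinarith [sq_nonneg c]

theorem ibp_norm_osc (x : ℝ) : ‖Complex.exp (-((x : ℝ) : ℂ) * I)‖ = 1 := by
  have : (-((x : ℝ) : ℂ) * I) = ((-x : ℝ) : ℂ) * I := by push_cast; ring
  rw [this, Complex.norm_exp_ofReal_mul_I]

/-- continuity of the extension operator in the first variable -/
theorem ibp_Ex_continuous {b : ℝ → ℂ} (hb : Measurable b) {B : ℝ} (hB : ∀ c, ‖b c‖ ≤ B) (z : ℝ) :
    Continuous fun y => Ex b y z := by
  unfold Ex
  refine MeasureTheory.continuous_of_dominated (bound := fun _ => B) ?_ ?_ ?_ ?_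
  · intro y
    have h1 : Measurable fun c : ℝ => Complex.exp (-((y * sc c + z * c : ℝ) : ℂ) * I) * b c := by
      have := ibp_sc_continuous.measurable
      fun_prop
    exact h1.aestronglyMeasurable
  · intro y
    refine Filter.Eventually.of_forall fun c => ?_
    rw [norm_mul, ibp_norm_osc, one_mul]
    exact hB c
  · exact integrableOn_const (measure_Ioo_lt_top.ne)
  · refine Filter.Eventually.of_forall fun c => ?_
    fun_prop

/-- the primitive in the first variable -/
theorem ibp_Ex_hasDerivAt {μ : ℝ} (hμ : 0 < μ) {b : ℝ → ℂ} (hb : Measurable b) {B : ℝ}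
    (hB : ∀ c, ‖b c‖ ≤ B) (hs : ∀ c, c ∉ band μ → b c = 0) (y z : ℝ) :
    HasDerivAt (fun y => Ex (fun c => b c / (-I * (sc c : ℂ))) y z) (Ex b y z) y := by
  have hB0 : 0 ≤ B := (norm_nonneg _).trans (hB 0)
  have hscm := ibp_sc_continuous.measurable
  set b1 : ℝ → ℂ := fun c => b c / (-I * (sc c : ℂ)) with hb1
  have hb1m : Measurable b1 := by
    apply hb.div
    fun_prop
  have hb1B : ∀ c, ‖b1 c‖ ≤ 2 * B / μ := by
    intro c
    by_cases hc : c ∈ band μ
    · have h1 : μ / 2 < sc c := hc.2.1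
      simp only [hb1]
      rw [norm_div, norm_mul, norm_neg, Complex.norm_I, one_mul, Complex.norm_real,
        Real.norm_eq_abs, abs_of_nonneg (ibp_sc_nonneg c)]
      calc ‖b c‖ / sc c ≤ B / (μ / 2) := by
            apply div_le_div₀ hB0 (hB c) (by linarith) h1.le
        _ = 2 * B / μ := by field_simp
    · simp only [hb1, hs c hc, zero_div, norm_zero]
      positivity
  have key : HasDerivAt (fun y => ∫ c in Ioo (-1 : ℝ) 1,
      Complex.exp (-((y * sc c + z * c : ℝ) : ℂ) * I) * b1 c)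
      (∫ c in Ioo (-1 : ℝ) 1, Complex.exp (-((y * sc c + z * c : ℝ) : ℂ) * I) * (-I * sc c) * b1 c) y := by
    refine (hasDerivAt_integral_of_dominated_loc_of_deriv_le (bound := fun _ => 2 * B / μ)
      (F := fun y c => Complex.exp (-((y * sc c + z * c : ℝ) : ℂ) * I) * b1 c)
      (F' := fun y c => Complex.exp (-((y * sc c + z * c : ℝ) : ℂ) * I) * (-I * sc c) * b1 c)
      (s := Set.univ) Filter.univ_mem ?_ ?_ ?_ ?_ ?_ ?_).2
    · refine Filter.Eventually.of_forall fun y => ?_
      have h1 : Measurable fun c : ℝ => Complex.exp (-((y * sc c + z * c : ℝ) : ℂ) * I) * b1 c := by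
        fun_prop
      exact h1.aestronglyMeasurable
    · have h1 : Measurable fun c : ℝ => Complex.exp (-((y * sc c + z * c : ℝ) : ℂ) * I) * b1 c := by
        fun_prop
      refine Integrable.mono' (g := fun _ => 2 * B / μ)
        (integrableOn_const (measure_Ioo_lt_top.ne)) h1.aestronglyMeasurable ?_
      refine Filter.Eventually.of_forall fun c => ?_
      rw [norm_mul, ibp_norm_osc, one_mul]
      exact hb1B c
    · have h1 : Measurable fun c : ℝ =>
          Complex.exp (-((y * sc c + z * c : ℝ) : ℂ) * I) * (-I * sc c) * b1 c := by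
        fun_prop
      exact h1.aestronglyMeasurable
    · refine Filter.Eventually.of_forall fun c y _ => ?_
      rw [norm_mul, norm_mul, ibp_norm_osc, one_mul, norm_mul, norm_neg, Complex.norm_I, one_mul,
        Complex.norm_real, Real.norm_eq_abs, abs_of_nonneg (ibp_sc_nonneg c)]
      calc sc c * ‖b1 c‖ ≤ 1 * (2 * B / μ) :=
            mul_le_mul (ibp_sc_le_one c) (hb1B c) (norm_nonneg _) zero_le_one
        _ = _ := one_mul _
    · exact integrableOn_const (measure_Ioo_lt_top.ne)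
    · refine Filter.Eventually.of_forall fun c y _ => ?_
      apply HasDerivAt.mul_const
      have h1 : HasDerivAt (fun y : ℝ => (-((y * sc c + z * c : ℝ) : ℂ) * I)) (-(sc c : ℂ) * I) y := by
        have h2 : HasDerivAt (fun y : ℝ => y * sc c + z * c) (sc c) y := by
          simpa using ((hasDerivAt_id y).mul_const (sc c)).add_const (z * c)
        exact (h2.ofReal_comp.neg).mul_const I
      have h3 := h1.cexp
      refine h3.congr_deriv ?_
      ring
  have e1 : (∫ c in Ioo (-1 : ℝ) 1, Complex.exp (-((y * sc c + z * c : ℝ) : ℂ) * I) * (-I * sc c) * b1 c) =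
      Ex b y z := by
    unfold Ex
    apply integral_congr_ae
    refine Filter.Eventually.of_forall fun c => ?_
    simp only [hb1]
    by_cases hc : c ∈ band μ
    · have h1 : 0 < sc c := by linarith [hc.2.1]
      have h2 : (-I * (sc c : ℂ)) ≠ 0 := by
        apply mul_ne_zero (neg_ne_zero.2 Complex.I_ne_zero)
        exact_mod_cast h1.ne'
      rw [mul_assoc, mul_div_cancel₀ _ h2]
    · rw [hs c hc]
      simp
  rw [e1] at key
  exact key

theorem ibp (μ : ℝ) (hμ : 0 < μ) (b : ℝ → ℂ) (hb : Measurable b) (hB : ∃ B : ℝ, ∀ c, ‖b c‖ ≤ B)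
    (hs : ∀ c, c ∉ band μ → b c = 0) (r z β δ : ℝ) (hr : 0 < r) (hδ : 0 < δ)
    (hsin : 4 * δ ≤ |Real.sin β|) :
    ‖∫ h in Ioo (0 : ℝ) δ, Ex b (r * Real.cos (β + h)) z‖ ≤
      2 / (r * |Real.sin β|) *
        (‖Ex (fun c => b c / (-I * (sc c : ℂ))) (r * Real.cos (β + δ)) z‖ +
          ‖Ex (fun c => b c / (-I * (sc c : ℂ))) (r * Real.cos β) z‖ +
          δ⁻¹ * ∫ h in Ioo (0 : ℝ) δ,
            ‖Ex (fun c => b c / (-I * (sc c : ℂ))) (r * Real.cos (β + h)) z‖) := by
  obtain ⟨B, hB⟩ := hB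
  set V : ℝ → ℂ := fun y => Ex (fun c => b c / (-I * (sc c : ℂ))) y z with hV
  set d : ℝ := |Real.sin β| with hd
  have hd0 : 0 < d := by linarith
  have hVd : ∀ y, HasDerivAt V (Ex b y z) y := fun y => ibp_Ex_hasDerivAt hμ hb hB hs y z
  have hVc : Continuous V := continuous_iff_continuousAt.2 fun y => (hVd y).continuousAt
  have hEc : Continuous fun y => Ex b y z := ibp_Ex_continuous hb hB z
  -- lower bound for the sine
  have hsl : ∀ h ∈ Icc 0 δ, 3 / 4 * d ≤ |Real.sin (β + h)| := by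
    intro h hh
    have h1 : |Real.sin β - Real.sin (β + h)| ≤ |β - (β + h)| := by
      have := Real.abs_sin_sub_sin_le β (β + h)
      exact this
    have h2 : |β - (β + h)| = h := by
      rw [show β - (β + h) = -h by ring, abs_neg, abs_of_nonneg hh.1]
    have h3 : d - |Real.sin (β + h)| ≤ |Real.sin β - Real.sin (β + h)| := abs_sub_abs_le_abs_sub _ _
    have h4 := hh.2
    linarith
  have hsn : ∀ h ∈ Icc 0 δ, Real.sin (β + h) ≠ 0 := by
    intro h hh h0
    have := hsl h hh
    rw [h0, abs_zero] at this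
    linarith
  set w : ℝ → ℝ := fun h => -(1 / (r * Real.sin (β + h))) with hw
  set w' : ℝ → ℝ := fun h => Real.cos (β + h) / (r * Real.sin (β + h) ^ 2) with hw'
  set f : ℝ → ℂ := fun h => V (r * Real.cos (β + h)) with hf
  set f' : ℝ → ℂ := fun h => -(r * Real.sin (β + h) : ℝ) * Ex b (r * Real.cos (β + h)) z with hf'
  have hu : ∀ h ∈ uIcc 0 δ, HasDerivAt (fun h => ((w h : ℝ) : ℂ)) ((w' h : ℝ) : ℂ) h := by
    intro h hh
    rw [uIcc_of_le hδ.le] at hh
    apply HasDerivAt.ofReal_comp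
    have h1 : HasDerivAt (fun h => r * Real.sin (β + h)) (r * Real.cos (β + h)) h := by
      have h2 : HasDerivAt (fun h => β + h) 1 h := by simpa using (hasDerivAt_id h).const_add β
      simpa using (h2.sin).const_mul r
    have h2 : r * Real.sin (β + h) ≠ 0 := mul_ne_zero hr.ne' (hsn h hh)
    have h3 := (h1.inv h2).neg
    have e : (fun h => w h) = -fun h => (r * Real.sin (β + h))⁻¹ := by
      funext h
      simp [hw]
    rw [show w = fun h => w h from rfl, e]
    refine h3.congr_deriv ?_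
    simp only [hw']
    have := hsn h hh
    field_simp
  have hv : ∀ h ∈ uIcc 0 δ, HasDerivAt f (f' h) h := by
    intro h _
    have h1 : HasDerivAt (fun h => r * Real.cos (β + h)) (-(r * Real.sin (β + h))) h := by
      have h2 : HasDerivAt (fun h => β + h) 1 h := by simpa using (hasDerivAt_id h).const_add β
      simpa using (h2.cos).const_mul r
    have h3 := (hVd (r * Real.cos (β + h))).scomp h h1
    refine h3.congr_deriv ?_
    simp only [hf', Complex.real_smul]
    push_cast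
    ring
  have hw'c : ContinuousOn w' (Icc 0 δ) := by
    apply ContinuousOn.div (by fun_prop) (by fun_prop)
    intro h hh
    exact mul_ne_zero hr.ne' (pow_ne_zero 2 (hsn h hh))
  have hu' : IntervalIntegrable (fun h => ((w' h : ℝ) : ℂ)) volume 0 δ := by
    apply ContinuousOn.intervalIntegrable
    rw [uIcc_of_le hδ.le]
    exact Complex.continuous_ofReal.comp_continuousOn hw'c
  have hv' : IntervalIntegrable f' volume 0 δ := by
    apply Continuous.intervalIntegrable
    have : Continuous fun h => Ex b (r * Real.cos (β + h)) z := hEc.comp (by fun_prop)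
    simp only [hf']
    fun_prop
  have hparts := intervalIntegral.integral_mul_deriv_eq_deriv_mul hu hv hu' hv'
  -- the left side is our integral
  have hleft : ∫ h in (0 : ℝ)..δ, ((w h : ℝ) : ℂ) * f' h = ∫ h in Ioo (0 : ℝ) δ, Ex b (r * Real.cos (β + h)) z := by
    rw [intervalIntegral.integral_of_le hδ.le, integral_Ioc_eq_integral_Ioo]
    apply setIntegral_congr_fun measurableSet_Ioo
    intro h hh
    have h1 := hsn h ⟨hh.1.le, hh.2.le⟩
    have h2 : w h * -(r * Real.sin (β + h)) = 1 := by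
      simp only [hw]
      field_simp
    simp only [hf']
    rw [← mul_assoc]
    have h3 : ((w h : ℝ) : ℂ) * -((r * Real.sin (β + h) : ℝ) : ℂ) = 1 := by
      rw [← Complex.ofReal_neg, ← Complex.ofReal_mul, h2, Complex.ofReal_one]
    rw [h3, one_mul]
  rw [← hleft, hparts]
  -- bounds
  have hwb : ∀ h ∈ Icc 0 δ, |w h| ≤ 4 / 3 * (1 / (r * d)) := by
    intro h hh
    have h1 := hsl h hh
    simp only [hw]
    rw [abs_neg, abs_div, abs_one, abs_mul, abs_of_pos hr]
    rw [← mul_div_assoc, mul_one, div_le_div_iff₀ (by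
      have : 0 < |Real.sin (β + h)| := by linarith
      positivity) (by positivity)]
    have := mul_le_mul_of_nonneg_left h1 hr.le
    linarith
  have hw'b : ∀ h ∈ Icc 0 δ, |w' h| ≤ 4 / 9 * (1 / (r * d)) * δ⁻¹ := by
    intro h hh
    have h1 := hsl h hh
    have hs0 : 0 < |Real.sin (β + h)| := by linarith
    simp only [hw']
    rw [abs_div, abs_mul, abs_of_pos hr, abs_pow]
    have h2 : |Real.cos (β + h)| ≤ 1 := Real.abs_cos_le_one _
    calc |Real.cos (β + h)| / (r * |Real.sin (β + h)| ^ 2) ≤ 1 / (r * (3 / 4 * d) ^ 2) := by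
          apply div_le_div₀ zero_le_one h2 (by positivity)
          apply mul_le_mul_of_nonneg_left _ hr.le
          exact pow_le_pow_left₀ (by positivity) h1 2
      _ ≤ 4 / 9 * (1 / (r * d)) * δ⁻¹ := by
          have e : 4 / 9 * (1 / (r * d)) * δ⁻¹ = 4 / (9 * (r * d * δ)) := by field_simp
          rw [e, div_le_div_iff₀ (by positivity) (by positivity)]
          have h5 : 0 < r * d := by positivity
          nlinarith [mul_le_mul_of_nonneg_left hsin h5.le]
  have hn1 : ‖((w δ : ℝ) : ℂ) * f δ‖ ≤ 4 / 3 * (1 / (r * d)) * ‖f δ‖ := by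
    rw [norm_mul, Complex.norm_real, Real.norm_eq_abs]
    exact mul_le_mul_of_nonneg_right (hwb δ ⟨hδ.le, le_rfl⟩) (norm_nonneg _)
  have hn2 : ‖((w 0 : ℝ) : ℂ) * f 0‖ ≤ 4 / 3 * (1 / (r * d)) * ‖f 0‖ := by
    rw [norm_mul, Complex.norm_real, Real.norm_eq_abs]
    exact mul_le_mul_of_nonneg_right (hwb 0 ⟨le_rfl, hδ.le⟩) (norm_nonneg _)
  have hfc : Continuous f := hVc.comp (by fun_prop)
  have hn3 : ‖∫ h in (0 : ℝ)..δ, ((w' h : ℝ) : ℂ) * f h‖ ≤
      4 / 9 * (1 / (r * d)) * δ⁻¹ * ∫ h in Ioo (0 : ℝ) δ, ‖f h‖ := by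
    refine (intervalIntegral.norm_integral_le_integral_norm hδ.le).trans ?_
    rw [intervalIntegral.integral_of_le hδ.le, integral_Ioc_eq_integral_Ioo, ← integral_const_mul]
    apply setIntegral_mono_on
    · have : ContinuousOn (fun h => ‖((w' h : ℝ) : ℂ) * f h‖) (Icc 0 δ) :=
        ((Complex.continuous_ofReal.comp_continuousOn hw'c).mul hfc.continuousOn).norm
      exact (this.integrableOn_compact isCompact_Icc).mono_set Ioo_subset_Icc_self
    · exact ((continuous_const.mul hfc.norm).continuousOn.integrableOn_compact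
        isCompact_Icc).mono_set Ioo_subset_Icc_self
    · exact measurableSet_Ioo
    · intro h hh
      rw [norm_mul, Complex.norm_real, Real.norm_eq_abs]
      exact mul_le_mul_of_nonneg_right (hw'b h ⟨hh.1.le, hh.2.le⟩) (norm_nonneg _)
  have hf0 : f 0 = V (r * Real.cos β) := by simp only [hf, add_zero]
  have hfδ : f δ = V (r * Real.cos (β + δ)) := rfl
  have hint0 : 0 ≤ ∫ h in Ioo (0 : ℝ) δ, ‖f h‖ := integral_nonneg fun _ => norm_nonneg _
  have hrd : 0 < 1 / (r * d) := by positivity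
  have e2 : 2 / (r * d) = 2 * (1 / (r * d)) := by ring
  rw [e2]
  change _ ≤ 2 * (1 / (r * d)) * (‖f δ‖ + ‖V (r * Real.cos β)‖ + δ⁻¹ * ∫ h in Ioo (0 : ℝ) δ, ‖f h‖)
  rw [← hf0]
  have htri : ‖((w δ : ℝ) : ℂ) * f δ - ((w 0 : ℝ) : ℂ) * f 0 - ∫ h in (0 : ℝ)..δ, ((w' h : ℝ) : ℂ) * f h‖ ≤
      ‖((w δ : ℝ) : ℂ) * f δ‖ + ‖((w 0 : ℝ) : ℂ) * f 0‖ +
        ‖∫ h in (0 : ℝ)..δ, ((w' h : ℝ) : ℂ) * f h‖ :=
    (norm_sub_le _ _).trans (add_le_add (norm_sub_le _ _) le_rfl)
  refine htri.trans ?_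
  have hδi : 0 < δ⁻¹ := inv_pos.2 hδ
  have hX : 0 ≤ δ⁻¹ * ∫ h in Ioo (0 : ℝ) δ, ‖f h‖ := by positivity
  have hn3' : ‖∫ h in (0 : ℝ)..δ, ((w' h : ℝ) : ℂ) * f h‖ ≤
      4 / 9 * (1 / (r * d)) * (δ⁻¹ * ∫ h in Ioo (0 : ℝ) δ, ‖f h‖) := by
    refine hn3.trans (le_of_eq ?_)
    ring
  have p1 : 0 ≤ 1 / (r * d) * ‖f δ‖ := by positivity
  have p2 : 0 ≤ 1 / (r * d) * ‖f 0‖ := by positivity
  have p3 : 0 ≤ 1 / (r * d) * (δ⁻¹ * ∫ h in Ioo (0 : ℝ) δ, ‖f h‖) := by positivity
  nlinarith

end Pool.Agent.H789R2.FR
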