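import Mathlib
import Pool.Agent.H789R2.FR.Defs3
import Pool.Agent.H789R2.FR.Arch
set_option autoImplicit false

/-! Task Q9: polar representation of `T (avg δ G)`. -/

namespace Pool.Agent.H789R2.FR

open MeasureTheory Measure Set Metric Complex
open scoped ENNReal Pointwise RealInnerProductSpace

theorem rep_swap (μ ν : Measure ℝ) [IsFiniteMeasure μ] [IsFiniteMeasure ν] (f : ℝ → ℝ → ℂ)
    (hf : StronglyMeasurable (Function.uncurry f)) (M : ℝ) (hM : ∀ x y, ‖f x y‖ ≤ M) :
    ∫ x, ∫ y, f x y ∂ν ∂μ = ∫ y, ∫ x, f x y ∂μ ∂ν := by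
  apply integral_integral_swap
  exact Integrable.of_bound hf.aestronglyMeasurable M (Filter.Eventually.of_forall fun p => hM p.1 p.2)

theorem rep_pt_cont : Continuous (fun p : ℝ × ℝ => pt p.1 p.2) := by
  unfold pt sc
  apply (PiLp.continuous_toLp 2 _).comp
  apply continuous_pi
  intro i
  fin_cases i <;> simp <;> fun_prop

theorem rep_rot_cont : Continuous (fun p : E 3 × ℝ => rot (-p.2) p.1) := by
  unfold rot
  apply (PiLp.continuous_toLp 2 _).comp
  apply continuous_pi
  intro i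
  fin_cases i <;> simp <;> fun_prop

theorem rep_rot_pt (h c φ : ℝ) : rot (-h) (pt c φ) = pt c (φ - h) := by
  unfold rot pt
  ext i
  fin_cases i
  · simp [Real.cos_sub]; ring
  · simp [Real.sin_sub]; ring
  · simp

theorem rep_inner (r α z c φ : ℝ) :
    (⟪cyl r α z, pt c φ⟫ : ℝ) = r * Real.cos (φ - α) * sc c + z * c := by
  unfold cyl pt
  rw [PiLp.inner_apply, Fin.sum_univ_three]
  simp [Real.cos_sub]
  ring

theorem rep_avg_meas (δ : ℝ) (G : E 3 → ℂ) (hG : Measurable G) : Measurable (avg δ G) := by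
  unfold avg
  apply Measurable.const_mul
  apply StronglyMeasurable.measurable
  have h1 : StronglyMeasurable (fun p : E 3 × ℝ => G (rot (-p.2) p.1)) :=
    (hG.comp rep_rot_cont.measurable).stronglyMeasurable
  exact h1.integral_prod_right'

theorem rep_avg_bound (δ : ℝ) (hδ : 0 < δ) (G : E 3 → ℂ) (M : ℝ) (hM : ∀ x, ‖G x‖ ≤ M) (x : E 3) :
    ‖avg δ G x‖ ≤ M := by
  unfold avg
  rw [norm_mul, norm_inv, Complex.norm_real, Real.norm_of_nonneg hδ.le]
  have h1 : ‖∫ h in Ioo (0 : ℝ) δ, G (rot (-h) x)‖ ≤ M * (volume.real (Ioo (0 : ℝ) δ)) := by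
    apply norm_setIntegral_le_of_norm_le_const
    · simp
    · intro h _
      exact hM _
  rw [Real.volume_real_Ioo_of_le hδ.le, sub_zero] at h1
  calc δ⁻¹ * ‖∫ h in Ioo (0 : ℝ) δ, G (rot (-h) x)‖ ≤ δ⁻¹ * (M * δ) := by gcongr
    _ = M := by field_simp

theorem rep_shift (f : ℝ → ℂ) (hper : Function.Periodic f (2 * Real.pi)) (t : ℝ) :
    ∫ φ in Ioo (-Real.pi) Real.pi, f φ = ∫ β in Ioo (-Real.pi) Real.pi, f (β + t) := by
  have hpi : -Real.pi ≤ Real.pi := by linarith [Real.pi_pos]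
  rw [← integral_Ioc_eq_integral_Ioo, ← integral_Ioc_eq_integral_Ioo,
    ← intervalIntegral.integral_of_le hpi, ← intervalIntegral.integral_of_le hpi]
  have e3 := hper.intervalIntegral_add_eq (-Real.pi) (-Real.pi + t)
  have a3 : -Real.pi + 2 * Real.pi = Real.pi := by ring
  have a4 : -Real.pi + t + 2 * Real.pi = Real.pi + t := by ring
  rw [a3, a4] at e3
  rw [e3, ← intervalIntegral.integral_comp_add_right f t]

theorem rep_core (μc μφ μh : Measure ℝ) [IsFiniteMeasure μc] [IsFiniteMeasure μφ]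
    [IsFiniteMeasure μh] (Φ Ψ : ℝ → ℝ → ℝ → ℂ) (M : ℝ)
    (hΦb : ∀ c φ h, ‖Φ c φ h‖ ≤ M) (hΨb : ∀ c φ h, ‖Ψ c φ h‖ ≤ M)
    (hΦm : StronglyMeasurable (fun p : (ℝ × ℝ) × ℝ => Φ p.1.1 p.1.2 p.2))
    (hΨm : StronglyMeasurable (fun p : (ℝ × ℝ) × ℝ => Ψ p.1.1 p.1.2 p.2))
    (hrel : ∀ c h, ∫ φ, Φ c φ h ∂μφ = ∫ φ, Ψ c φ h ∂μφ) (k : ℂ) :
    ∫ c, ∫ φ, k * ∫ h, Φ c φ h ∂μh ∂μφ ∂μc = ∫ β, k * ∫ h, ∫ c, Ψ c β h ∂μc ∂μh ∂μφ := by
  have h2 : ∀ c : ℝ, ∫ φ, k * ∫ h, Φ c φ h ∂μh ∂μφ = ∫ β, k * ∫ h, Ψ c β h ∂μh ∂μφ := by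
    intro c
    rw [integral_const_mul, integral_const_mul]
    congr 1
    have m1 : StronglyMeasurable (Function.uncurry (Φ c)) :=
      hΦm.comp_measurable (by fun_prop : Measurable fun p : ℝ × ℝ => ((c, p.1), p.2))
    have m2 : StronglyMeasurable (Function.uncurry (Ψ c)) :=
      hΨm.comp_measurable (by fun_prop : Measurable fun p : ℝ × ℝ => ((c, p.1), p.2))
    rw [rep_swap μφ μh (Φ c) m1 M (hΦb c), rep_swap μφ μh (Ψ c) m2 M (hΨb c)]
    apply integral_congr_ae
    filter_upwards with h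
    exact hrel c h
  simp only [h2]
  have h3 : StronglyMeasurable (Function.uncurry (fun c β => k * ∫ h, Ψ c β h ∂μh)) := by
    apply StronglyMeasurable.const_mul
    exact hΨm.integral_prod_right'
  have h4 : ∀ c β, ‖k * ∫ h, Ψ c β h ∂μh‖ ≤ ‖k‖ * (M * μh.real univ) := by
    intro c β
    rw [norm_mul]
    apply mul_le_mul_of_nonneg_left _ (norm_nonneg _)
    exact norm_integral_le_of_norm_le_const (Filter.Eventually.of_forall fun h => hΨb c β h)
  rw [rep_swap μc μφ (fun c β => k * ∫ h, Ψ c β h ∂μh) h3 _ h4]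
  apply integral_congr_ae
  filter_upwards with β
  rw [integral_const_mul]
  congr 1
  have m3 : StronglyMeasurable (Function.uncurry (fun c h => Ψ c β h)) :=
    hΨm.comp_measurable (by fun_prop : Measurable fun p : ℝ × ℝ => ((p.1, β), p.2))
  exact rep_swap μc μh (fun c h => Ψ c β h) m3 M (fun c h => hΨb c β h)

theorem rep (G : E 3 → ℂ) (hG : Measurable G) (hb : ∃ M : ℝ, ∀ x, ‖G x‖ ≤ M) (δ : ℝ)
    (hδ : 0 < δ) (r α z : ℝ) :
    T (avg δ G) (cyl r α z) = ∫ β in Ioo (-Real.pi) Real.pi,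
      (δ : ℂ)⁻¹ * ∫ h in Ioo (0 : ℝ) δ, Ex (fun c => G (pt c (α + β))) (r * Real.cos (β + h)) z := by
  obtain ⟨M, hM⟩ := hb
  have hM0 : 0 ≤ M := (norm_nonneg _).trans (hM 0)
  have hsc : Continuous sc := by unfold sc; fun_prop
  have hexp : ∀ t : ℝ, ‖Complex.exp (-((t : ℝ) : ℂ) * I)‖ = 1 := by
    intro t
    have := Complex.norm_exp_ofReal_mul_I (-t)
    simpa using this
  have h1 : T (avg δ G) (cyl r α z) = ∫ c in Ioo (-1 : ℝ) 1, ∫ φ in Ioo (-Real.pi) Real.pi,
      (δ : ℂ)⁻¹ * ∫ h in Ioo (0 : ℝ) δ,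
        Complex.exp (-((r * Real.cos (φ - α) * sc c + z * c : ℝ) : ℂ) * I) * G (pt c (φ - h)) := by
    unfold T
    rw [arch_int]
    · apply integral_congr_ae
      filter_upwards with c
      apply integral_congr_ae
      filter_upwards with φ
      rw [rep_inner]
      unfold avg
      simp only [rep_rot_pt]
      rw [integral_const_mul]
      ring
    · apply Measurable.mul
      · apply Continuous.measurable
        fun_prop
      · exact rep_avg_meas δ G hG
    · refine ⟨M, fun x => ?_⟩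
      rw [norm_mul, hexp, one_mul]
      exact rep_avg_bound δ hδ G M hM x
  rw [h1]
  have h2 := rep_core (volume.restrict (Ioo (-1 : ℝ) 1)) (volume.restrict (Ioo (-Real.pi) Real.pi))
    (volume.restrict (Ioo (0 : ℝ) δ))
    (fun c φ h => Complex.exp (-((r * Real.cos (φ - α) * sc c + z * c : ℝ) : ℂ) * I) *
      G (pt c (φ - h)))
    (fun c β h => Complex.exp (-((r * Real.cos (β + h) * sc c + z * c : ℝ) : ℂ) * I) *
      G (pt c (α + β))) M
    (fun c φ h => by rw [norm_mul, hexp, one_mul]; exact hM _)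
    (fun c φ h => by rw [norm_mul, hexp, one_mul]; exact hM _)
    (by
      apply Measurable.stronglyMeasurable
      apply Measurable.mul
      · apply Continuous.measurable
        fun_prop
      · apply hG.comp
        apply Continuous.measurable
        exact rep_pt_cont.comp
          (by fun_prop : Continuous fun p : (ℝ × ℝ) × ℝ => (p.1.1, p.1.2 - p.2)))
    (by
      apply Measurable.stronglyMeasurable
      apply Measurable.mul
      · apply Continuous.measurable
        fun_prop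
      · apply hG.comp
        apply Continuous.measurable
        exact rep_pt_cont.comp
          (by fun_prop : Continuous fun p : (ℝ × ℝ) × ℝ => (p.1.1, α + p.1.2)))
    (by
      intro c h
      have hper : Function.Periodic (fun φ =>
          Complex.exp (-((r * Real.cos (φ - α) * sc c + z * c : ℝ) : ℂ) * I) *
            G (pt c (φ - h))) (2 * Real.pi) := by
        intro φ
        simp only [pt]
        have a1 : φ + 2 * Real.pi - α = (φ - α) + 2 * Real.pi := by ring
        have a2 : φ + 2 * Real.pi - h = (φ - h) + 2 * Real.pi := by ring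
        rw [a1, a2, Real.cos_add_two_pi, Real.cos_add_two_pi, Real.sin_add_two_pi]
      rw [rep_shift _ hper (α + h)]
      apply integral_congr_ae
      filter_upwards with β
      have a5 : β + (α + h) - α = β + h := by ring
      have a6 : β + (α + h) - h = α + β := by ring
      rw [a5, a6]) (δ : ℂ)⁻¹
  rw [h2]
  rfl

end Pool.Agent.H789R2.FR
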