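import Mathlib
import Pool.Agent.H789R2.FR.Defs3
set_option autoImplicit false

/-! Three elementary trigonometric integrals (task Q7). -/

namespace Pool.Agent.H789R2.FR

open MeasureTheory Measure Set Metric Complex
open scoped ENNReal Pointwise RealInnerProductSpace

/-- the basic integral -/
theorem trig_kap_aux {N : ℝ} (hN : 1 ≤ N) (h : ℝ) :
    ∫⁻ β in Ioo (-Real.pi) Real.pi, ENNReal.ofReal (N / (1 + N * |Real.cos (β + h)|)) ≤
      ENNReal.ofReal (2 * Real.pi * (1 + Real.log N)) := by
  have hpi := Real.pi_pos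
  set f : ℝ → ℝ := fun x => N / (1 + N * |Real.cos x|) with hf
  have hden : ∀ x, 0 < 1 + N * |Real.cos x| := fun x => by positivity
  have hfc : Continuous f := by
    apply Continuous.div continuous_const
    · exact continuous_const.add (continuous_const.mul Real.continuous_cos.abs)
    · exact fun x => (hden x).ne'
  have hf0 : ∀ x, 0 ≤ f x := fun x => div_nonneg (by linarith) (hden x).le
  have hper : Function.Periodic f Real.pi := by
    intro x
    simp only [hf, Real.cos_add_pi, abs_neg]
  have hper2 : Function.Periodic f (2 * Real.pi) := by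
    have := hper.nat_mul 2
    simpa using this
  have hI : ∀ a b, IntervalIntegrable f volume a b := fun a b => hfc.intervalIntegrable _ _
  -- reduction to an interval integral
  have h1 : ∫⁻ β in Ioo (-Real.pi) Real.pi, ENNReal.ofReal (N / (1 + N * |Real.cos (β + h)|)) =
      ENNReal.ofReal (∫ β in (-Real.pi)..Real.pi, f (β + h)) := by
    rw [intervalIntegral.integral_of_le (by linarith), integral_Ioc_eq_integral_Ioo,
      ofReal_integral_eq_lintegral_ofReal]
    · exact ((hfc.comp (continuous_id.add continuous_const)).continuousOn.integrableOn_compact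
        isCompact_Icc).mono_set Ioo_subset_Icc_self
    · exact Filter.Eventually.of_forall fun x => hf0 _
  rw [h1]
  apply ENNReal.ofReal_le_ofReal
  have h2 : ∫ β in (-Real.pi)..Real.pi, f (β + h) = ∫ x in (-(Real.pi / 2))..(-(Real.pi / 2) + 2 * Real.pi), f x := by
    rw [intervalIntegral.integral_comp_add_right]
    have := hper2.intervalIntegral_add_eq (-Real.pi + h) (-(Real.pi / 2))
    rw [← this]
    congr 1
    ring
  have h3 : ∫ x in (-(Real.pi / 2))..(-(Real.pi / 2) + 2 * Real.pi), f x =
      2 * ∫ x in (-(Real.pi / 2))..(Real.pi / 2), f x := by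
    have e1 := intervalIntegral.integral_add_adjacent_intervals (hI (-(Real.pi / 2)) (Real.pi / 2))
      (hI (Real.pi / 2) (-(Real.pi / 2) + 2 * Real.pi))
    have e2 := hper.intervalIntegral_add_eq (Real.pi / 2) (-(Real.pi / 2))
    have e3 : Real.pi / 2 + Real.pi = -(Real.pi / 2) + 2 * Real.pi := by ring
    have e4 : -(Real.pi / 2) + Real.pi = Real.pi / 2 := by ring
    rw [e3, e4] at e2
    rw [← e1, e2]
    ring
  have h4 : ∫ x in (-(Real.pi / 2))..(Real.pi / 2), f x = 2 * ∫ x in (0 : ℝ)..(Real.pi / 2), f x := by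
    have e1 := intervalIntegral.integral_add_adjacent_intervals (hI (-(Real.pi / 2)) 0)
      (hI 0 (Real.pi / 2))
    have e2 : ∫ x in (-(Real.pi / 2))..0, f x = ∫ x in (0 : ℝ)..(Real.pi / 2), f x := by
      have e3 := intervalIntegral.integral_comp_neg (a := 0) (b := Real.pi / 2) f
      rw [neg_zero] at e3
      rw [← e3]
      apply intervalIntegral.integral_congr
      intro x _
      simp only [hf, Real.cos_neg]
    rw [← e1, e2]
    ring
  -- the comparison function
  set g : ℝ → ℝ := fun x => N / (1 + N * (1 - 2 / Real.pi * x)) with hg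
  have hgden : ∀ x ∈ Icc 0 (Real.pi / 2), 1 ≤ 1 + N * (1 - 2 / Real.pi * x) := by
    intro x hx
    have : 2 / Real.pi * x ≤ 1 := by
      rw [div_mul_eq_mul_div, div_le_one hpi]
      linarith [hx.2]
    nlinarith
  have h5 : ∫ x in (0 : ℝ)..(Real.pi / 2), f x ≤ ∫ x in (0 : ℝ)..(Real.pi / 2), g x := by
    apply intervalIntegral.integral_mono_on (by linarith) (hI _ _)
    · apply ContinuousOn.intervalIntegrable
      rw [uIcc_of_le (by linarith)]
      apply ContinuousOn.div continuousOn_const (by fun_prop)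
      intro x hx
      linarith [hgden x hx]
    · intro x hx
      have h6 := hgden x hx
      have h7 : 1 - 2 / Real.pi * x ≤ Real.cos x := Real.one_sub_mul_le_cos hx.1 hx.2
      have h8 : 1 - 2 / Real.pi * x ≤ |Real.cos x| := h7.trans (le_abs_self _)
      apply div_le_div_of_nonneg_left (by linarith) (by linarith)
      have := mul_le_mul_of_nonneg_left h8 (by linarith : (0 : ℝ) ≤ N)
      linarith
  have h6 : ∫ x in (0 : ℝ)..(Real.pi / 2), g x = Real.pi / 2 * Real.log (1 + N) := by
    have hd : ∀ x ∈ uIcc 0 (Real.pi / 2),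
        HasDerivAt (fun x => -(Real.pi / 2) * Real.log (1 + N * (1 - 2 / Real.pi * x))) (g x) x := by
      intro x hx
      rw [uIcc_of_le (by linarith)] at hx
      have h7 := hgden x hx
      have h8 : HasDerivAt (fun x => 1 + N * (1 - 2 / Real.pi * x)) (N * (-(2 / Real.pi))) x := by
        have := ((((hasDerivAt_id x).const_mul (2 / Real.pi)).const_sub 1).const_mul N).const_add 1
        simpa using this
      have h9 := (h8.log (by linarith)).const_mul (-(Real.pi / 2))
      refine h9.congr_deriv ?_
      simp only [hg]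
      have h10 : 1 + N * (1 - 2 / Real.pi * x) ≠ 0 := by linarith
      rw [mul_div_assoc', div_eq_div_iff h10 h10]
      field_simp
    rw [intervalIntegral.integral_eq_sub_of_hasDerivAt hd]
    · have e1 : 2 / Real.pi * (Real.pi / 2) = 1 := by field_simp
      rw [e1]
      simp
    · apply ContinuousOn.intervalIntegrable
      rw [uIcc_of_le (by linarith)]
      apply ContinuousOn.div continuousOn_const (by fun_prop)
      intro x hx
      linarith [hgden x hx]
  have h7 : Real.log (1 + N) ≤ 1 + Real.log N := by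
    have h8 : Real.log (1 + N) ≤ Real.log (2 * N) := Real.log_le_log (by linarith) (by linarith)
    rw [Real.log_mul (by norm_num) (by linarith)] at h8
    have := Real.log_two_lt_d9
    linarith
  rw [h2, h3, h4]
  calc 2 * (2 * ∫ x in (0 : ℝ)..(Real.pi / 2), f x) ≤ 2 * (2 * (Real.pi / 2 * Real.log (1 + N))) := by
        rw [← h6]
        linarith
    _ = 2 * Real.pi * Real.log (1 + N) := by ring
    _ ≤ 2 * Real.pi * (1 + Real.log N) := mul_le_mul_of_nonneg_left h7 (by positivity)

theorem kap_int : ∃ C : ℝ, 0 < C ∧ ∀ N : ℝ, 1 ≤ N → ∀ h : ℝ,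
    ∫⁻ β in Ioo (-Real.pi) Real.pi, ENNReal.ofReal (N / (1 + N * |Real.cos (β + h)|)) ≤
      ENNReal.ofReal (C * (1 + Real.log N)) :=
  ⟨2 * Real.pi, by positivity, fun _ hN h => trig_kap_aux hN h⟩

theorem sin_int : ∃ C : ℝ, 0 < C ∧ ∀ δ : ℝ, 0 < δ → δ ≤ 1 / 8 →
    ∫⁻ β in {β | β ∈ Ioo (-Real.pi) Real.pi ∧ 4 * δ ≤ |Real.sin β|},
      ENNReal.ofReal (1 / |Real.sin β|) ≤ ENNReal.ofReal (C * (1 + Real.log (1 / δ))) := by
  refine ⟨4 * Real.pi, by positivity, fun δ hδ hδ' => ?_⟩
  have hpi := Real.pi_pos
  set N : ℝ := 1 / (4 * δ) with hN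
  have hN1 : 1 ≤ N := by
    rw [hN, le_div_iff₀ (by positivity)]
    linarith
  have hNδ : N * (4 * δ) = 1 := by rw [hN]; field_simp
  have h1 := trig_kap_aux hN1 (-(Real.pi / 2))
  have hms : MeasurableSet {β | β ∈ Ioo (-Real.pi) Real.pi ∧ 4 * δ ≤ |Real.sin β|} := by
    apply measurableSet_Ioo.inter
    exact measurableSet_le measurable_const Real.continuous_sin.abs.measurable
  calc ∫⁻ β in {β | β ∈ Ioo (-Real.pi) Real.pi ∧ 4 * δ ≤ |Real.sin β|},
        ENNReal.ofReal (1 / |Real.sin β|)
      ≤ ∫⁻ β in {β | β ∈ Ioo (-Real.pi) Real.pi ∧ 4 * δ ≤ |Real.sin β|},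
        2 * ENNReal.ofReal (N / (1 + N * |Real.cos (β + -(Real.pi / 2))|)) := by
        apply setLIntegral_mono' hms
        intro β hβ
        have h2 : Real.cos (β + -(Real.pi / 2)) = Real.sin β := by
          rw [← sub_eq_add_neg, Real.cos_sub_pi_div_two]
        rw [h2]
        have h3 : 4 * δ ≤ |Real.sin β| := hβ.2
        have h4 : 0 < |Real.sin β| := by linarith
        have e : (2 : ℝ≥0∞) = ENNReal.ofReal 2 := by simp
        rw [e, ← ENNReal.ofReal_mul (by norm_num)]
        apply ENNReal.ofReal_le_ofReal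
        have h5 : 1 ≤ N * |Real.sin β| := by
          rw [← hNδ]
          exact mul_le_mul_of_nonneg_left h3 (by linarith)
        rw [← mul_div_assoc, div_le_div_iff₀ h4 (by positivity)]
        linarith
    _ ≤ ∫⁻ β in Ioo (-Real.pi) Real.pi,
        2 * ENNReal.ofReal (N / (1 + N * |Real.cos (β + -(Real.pi / 2))|)) :=
        lintegral_mono_set fun β hβ => hβ.1
    _ = 2 * ∫⁻ β in Ioo (-Real.pi) Real.pi,
        ENNReal.ofReal (N / (1 + N * |Real.cos (β + -(Real.pi / 2))|)) :=
        lintegral_const_mul' _ _ (by simp)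
    _ ≤ 2 * ENNReal.ofReal (2 * Real.pi * (1 + Real.log N)) := by gcongr
    _ = ENNReal.ofReal (4 * Real.pi * (1 + Real.log N)) := by
        have e : (2 : ℝ≥0∞) = ENNReal.ofReal 2 := by simp
        rw [e, ← ENNReal.ofReal_mul (by norm_num)]
        congr 1
        ring
    _ ≤ ENNReal.ofReal (4 * Real.pi * (1 + Real.log (1 / δ))) := by
        apply ENNReal.ofReal_le_ofReal
        apply mul_le_mul_of_nonneg_left _ (by positivity)
        have : Real.log N ≤ Real.log (1 / δ) := by
          apply Real.log_le_log (by linarith)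
          rw [hN]
          apply one_div_le_one_div_of_le hδ
          linarith
        linarith

theorem bad_vol : ∀ δ : ℝ, 0 < δ → δ ≤ 1 / 8 →
    volume {β | β ∈ Ioo (-Real.pi) Real.pi ∧ |Real.sin β| < 4 * δ} ≤ ENNReal.ofReal (30 * δ) := by
  intro δ hδ _
  have hpi := Real.pi_pos
  have hpi4 : Real.pi < 3.15 := Real.pi_lt_d2
  have hsub : {β | β ∈ Ioo (-Real.pi) Real.pi ∧ |Real.sin β| < 4 * δ} ⊆
      Ioo (-(2 * Real.pi * δ)) (2 * Real.pi * δ) ∪ (Ioo (Real.pi - 2 * Real.pi * δ) Real.pi ∪
        Ioo (-Real.pi) (-Real.pi + 2 * Real.pi * δ)) := by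
    rintro β ⟨⟨hb1, hb2⟩, hb3⟩
    have key : ∀ x : ℝ, 0 ≤ x → x ≤ Real.pi / 2 → |Real.sin x| < 4 * δ → x < 2 * Real.pi * δ := by
      intro x hx0 hx1 hx2
      have h1 := Real.mul_le_sin hx0 hx1
      have h2 : 2 / Real.pi * x < 4 * δ := (h1.trans (le_abs_self _)).trans_lt hx2
      rw [div_mul_eq_mul_div, div_lt_iff₀ hpi] at h2
      linarith
    by_cases h1 : |β| ≤ Real.pi / 2
    · left
      have h2 := key |β| (abs_nonneg _) h1 (by
        rcases abs_choice β with h | h
        · rw [h]; exact hb3
        · rw [h, Real.sin_neg, abs_neg]; exact hb3)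
      exact abs_lt.1 h2
    · right
      push Not at h1
      rcases le_total 0 β with h0 | h0
      · left
        rw [abs_of_nonneg h0] at h1
        have h2 := key (Real.pi - β) (by linarith) (by linarith) (by
          rw [Real.sin_pi_sub]; exact hb3)
        exact ⟨by linarith, hb2⟩
      · right
        rw [abs_of_nonpos h0] at h1
        have h2 := key (Real.pi + β) (by linarith) (by linarith) (by
          rw [add_comm, Real.sin_add_pi, abs_neg]; exact hb3)
        exact ⟨hb1, by linarith⟩
  refine (measure_mono hsub).trans ((measure_union_le _ _).trans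
    ((add_le_add le_rfl (measure_union_le _ _)).trans ?_))
  rw [Real.volume_Ioo, Real.volume_Ioo, Real.volume_Ioo, ← ENNReal.ofReal_add (by
    have : 0 < Real.pi * δ := by positivity
    linarith) (by
    have : 0 < Real.pi * δ := by positivity
    linarith), ← ENNReal.ofReal_add (by
    have : 0 < Real.pi * δ := by positivity
    linarith) (by
    have : 0 < Real.pi * δ := by positivity
    linarith)]
  apply ENNReal.ofReal_le_ofReal
  nlinarith

end Pool.Agent.H789R2.FR
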