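import Mathlib
import Pool.Agent.H789R2.FR.Defs3
import Pool.Agent.H789R2.FR.Arch
import Pool.Agent.H789R2.FR.Cyl
import Pool.Agent.H789R2.FR.Trig
import Pool.Agent.H789R2.FR.Ibp
import Pool.Agent.H789R2.FR.Rep
import Pool.Agent.H789R2.FR.Avg
import Pool.Agent.H789R2.FR.Zl
import Pool.Agent.H789R2.FR.L2
set_option autoImplicit false

/-! Task Q10: `L^4` bound for the smoothed part. -/

namespace Pool.Agent.H789R2.FR

open MeasureTheory Measure Set Metric Complex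
open scoped ENNReal Pointwise RealInnerProductSpace

namespace M4N

theorem jensen4 {α : Type*} [MeasurableSpace α] (m : Measure α) (f : α → ℝ≥0∞)
    (hf : AEMeasurable f m) :
    (∫⁻ x, f x ∂m) ^ 4 ≤ (m univ) ^ 3 * ∫⁻ x, f x ^ 4 ∂m := by
  have hpq : (4 : ℝ).HolderConjugate (4 / 3) := by
    rw [Real.holderConjugate_iff]
    norm_num
  have h := ENNReal.lintegral_mul_le_Lp_mul_Lq m hpq hf
    (aemeasurable_const (b := (1 : ℝ≥0∞)))
  simp only [Pi.mul_apply, mul_one, ENNReal.one_rpow, lintegral_const, one_mul] at h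
  calc (∫⁻ x, f x ∂m) ^ 4 ≤ ((∫⁻ x, f x ^ (4 : ℝ) ∂m) ^ (1 / (4 : ℝ)) *
        (m univ) ^ (1 / (4 / 3 : ℝ))) ^ 4 := by gcongr
    _ = (m univ) ^ 3 * ∫⁻ x, f x ^ 4 ∂m := by
        rw [mul_pow, ← ENNReal.rpow_natCast, ← ENNReal.rpow_mul, ← ENNReal.rpow_natCast,
          ← ENNReal.rpow_mul, mul_comm]
        congr 1
        · rw [← ENNReal.rpow_natCast]
          congr 1
          norm_num
        · have : (1 / (4 : ℝ) * ((4 : ℕ) : ℝ)) = 1 := by norm_num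
          rw [this, ENNReal.rpow_one]
          apply lintegral_congr
          intro x
          rw [← ENNReal.rpow_natCast]
          norm_num

theorem add4 (a b : ℝ≥0∞) : (a + b) ^ 4 ≤ 16 * (a ^ 4 + b ^ 4) := by
  rcases le_total a b with h | h
  · calc (a + b) ^ 4 ≤ (b + b) ^ 4 := by gcongr
      _ = 16 * b ^ 4 := by rw [← two_mul, mul_pow]; norm_num
      _ ≤ _ := by gcongr; exact le_add_self
  · calc (a + b) ^ 4 ≤ (a + a) ^ 4 := by gcongr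
      _ = 16 * a ^ 4 := by rw [← two_mul, mul_pow]; norm_num
      _ ≤ _ := by gcongr; exact le_self_add

/-- the measure on the points `(α, r, z)` -/
noncomputable def nu (ρ : ℝ) : Measure (ℝ × ℝ × ℝ) :=
  (volume.restrict (Ioo (-Real.pi) Real.pi)).prod
    ((volume.restrict (Icc ρ (2 * ρ))).prod volume)

instance nu_sfinite (ρ : ℝ) : SFinite (nu ρ) := by unfold nu; infer_instance

/-- the points at which the extension is evaluated -/
noncomputable def pp (β h : ℝ) (p : ℝ × ℝ × ℝ) : ℝ × ℝ × ℝ := (p.1 + β, p.2.1 * Real.cos (β + h), p.2.2)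

theorem measurable_pp : Measurable fun q : (ℝ × ℝ) × (ℝ × ℝ × ℝ) => pp q.1.1 q.1.2 q.2 := by
  unfold pp
  fun_prop

theorem perbh (ρ : ℝ) (V : ℝ × ℝ × ℝ → ℝ≥0∞) (hV : Measurable V) (K : ℝ≥0∞)
    (κ : ℝ → ℝ≥0∞)
    (hK : ∀ γ θ : ℝ, ∫⁻ r in Icc ρ (2 * ρ), ∫⁻ z : ℝ, V (γ, r * Real.cos θ, z) ^ 4 ≤ K * κ θ)
    (β h : ℝ) : ∫⁻ p, V (pp β h p) ^ 4 ∂(nu ρ) ≤ ENNReal.ofReal (2 * Real.pi) * (K * κ (β + h)) := by
  have hm : Measurable fun p : ℝ × ℝ × ℝ => V (pp β h p) ^ 4 := by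
    apply Measurable.pow_const
    apply hV.comp
    unfold pp
    fun_prop
  unfold nu
  rw [lintegral_prod _ hm.aemeasurable]
  calc ∫⁻ α in Ioo (-Real.pi) Real.pi, ∫⁻ q, V (pp β h (α, q)) ^ 4
        ∂((volume.restrict (Icc ρ (2 * ρ))).prod volume)
      ≤ ∫⁻ α in Ioo (-Real.pi) Real.pi, K * κ (β + h) := by
        apply lintegral_mono
        intro α
        have hm2 : Measurable fun q : ℝ × ℝ => V (pp β h (α, q)) ^ 4 :=
          hm.comp (measurable_const.prodMk measurable_id)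
        simp only
        rw [lintegral_prod _ hm2.aemeasurable]
        exact hK (α + β) (β + h)
    _ = ENNReal.ofReal (2 * Real.pi) * (K * κ (β + h)) := by
        rw [lintegral_const, Measure.restrict_apply_univ, Real.volume_Ioo, mul_comm]
        congr 2
        ring

theorem gen (ρ : ℝ) (V : ℝ × ℝ × ℝ → ℝ≥0∞) (hV : Measurable V) (K : ℝ≥0∞)
    (κ : ℝ → ℝ≥0∞) (hκ : Measurable κ)
    (hK : ∀ γ θ : ℝ, ∫⁻ r in Icc ρ (2 * ρ), ∫⁻ z : ℝ, V (γ, r * Real.cos θ, z) ^ 4 ≤ K * κ θ)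
    (m n : Measure ℝ) [SFinite m] [SFinite n] (hn : n univ ≤ 1) (R : ℝ≥0∞)
    (hR : ∀ᵐ h ∂n, ∫⁻ β, κ (β + h) ∂m ≤ R) :
    ∫⁻ p, (∫⁻ β, ∫⁻ h, V (pp β h p) ∂n ∂m) ^ 4 ∂(nu ρ) ≤
      (m univ) ^ 3 * (ENNReal.ofReal (2 * Real.pi) * (K * R)) := by
  have hVp : Measurable fun q : (ℝ × ℝ) × (ℝ × ℝ × ℝ) => V (pp q.1.1 q.1.2 q.2) :=
    hV.comp measurable_pp
  -- for fixed p
  have hm1 : ∀ p : ℝ × ℝ × ℝ, Measurable fun q : ℝ × ℝ => V (pp q.1 q.2 p) := fun p =>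
    hVp.comp (measurable_id.prodMk measurable_const)
  have hm2 : ∀ p : ℝ × ℝ × ℝ, Measurable fun β : ℝ => ∫⁻ h, V (pp β h p) ∂n := fun p =>
    (hm1 p).lintegral_prod_right'
  have h1 : ∀ p : ℝ × ℝ × ℝ, (∫⁻ β, ∫⁻ h, V (pp β h p) ∂n ∂m) ^ 4 ≤
      (m univ) ^ 3 * ∫⁻ β, ∫⁻ h, V (pp β h p) ^ 4 ∂n ∂m := by
    intro p
    refine (jensen4 m _ (hm2 p).aemeasurable).trans ?_
    gcongr with β
    refine (jensen4 n _ ((hm1 p).comp (measurable_const.prodMk measurable_id)).aemeasurable).trans ?_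
    calc (n univ) ^ 3 * ∫⁻ h, V (pp β h p) ^ 4 ∂n ≤ 1 ^ 3 * ∫⁻ h, V (pp β h p) ^ 4 ∂n := by
          gcongr
      _ = _ := by rw [one_pow, one_mul]
  have hm4 : Measurable fun q : (ℝ × ℝ × ℝ) × (ℝ × ℝ) => V (pp q.2.1 q.2.2 q.1) ^ 4 :=
    (hVp.comp measurable_swap).pow_const 4
  have hm5 : Measurable fun q : (ℝ × ℝ × ℝ) × ℝ => ∫⁻ h, V (pp q.2 h q.1) ^ 4 ∂n := by
    have : Measurable fun q : ((ℝ × ℝ × ℝ) × ℝ) × ℝ => V (pp q.1.2 q.2 q.1.1) ^ 4 :=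
      hm4.comp ((measurable_fst.comp measurable_fst).prodMk
        ((measurable_snd.comp measurable_fst).prodMk measurable_snd))
    exact this.lintegral_prod_right'
  calc ∫⁻ p, (∫⁻ β, ∫⁻ h, V (pp β h p) ∂n ∂m) ^ 4 ∂(nu ρ)
      ≤ ∫⁻ p, (m univ) ^ 3 * ∫⁻ β, ∫⁻ h, V (pp β h p) ^ 4 ∂n ∂m ∂(nu ρ) := lintegral_mono h1
    _ = (m univ) ^ 3 * ∫⁻ p, ∫⁻ β, ∫⁻ h, V (pp β h p) ^ 4 ∂n ∂m ∂(nu ρ) := by
        rw [lintegral_const_mul _ hm5.lintegral_prod_right']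
    _ = (m univ) ^ 3 * ∫⁻ β, ∫⁻ p, ∫⁻ h, V (pp β h p) ^ 4 ∂n ∂(nu ρ) ∂m := by
        rw [lintegral_lintegral_swap hm5.aemeasurable]
    _ = (m univ) ^ 3 * ∫⁻ β, ∫⁻ h, ∫⁻ p, V (pp β h p) ^ 4 ∂(nu ρ) ∂n ∂m := by
        congr 1
        apply lintegral_congr
        intro β
        rw [lintegral_lintegral_swap]
        apply Measurable.aemeasurable
        exact hm4.comp (measurable_fst.prodMk (measurable_const.prodMk measurable_snd))
    _ ≤ (m univ) ^ 3 * ∫⁻ β, ∫⁻ h, ENNReal.ofReal (2 * Real.pi) * (K * κ (β + h)) ∂n ∂m := by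
        gcongr with β h
        exact perbh ρ V hV K κ hK β h
    _ = (m univ) ^ 3 * ∫⁻ h, ∫⁻ β, ENNReal.ofReal (2 * Real.pi) * (K * κ (β + h)) ∂m ∂n := by
        rw [lintegral_lintegral_swap]
        apply Measurable.aemeasurable
        have : Measurable fun q : ℝ × ℝ => κ (q.1 + q.2) := hκ.comp (by fun_prop)
        exact (this.const_mul K).const_mul _
    _ ≤ (m univ) ^ 3 * ∫⁻ h, ENNReal.ofReal (2 * Real.pi) * (K * R) ∂n := by
        gcongr (m univ) ^ 3 * ?_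
        apply lintegral_mono_ae
        filter_upwards [hR] with h hh
        have hmκ : Measurable fun β : ℝ => κ (β + h) := hκ.comp (by fun_prop)
        rw [lintegral_const_mul _ (hmκ.const_mul K), lintegral_const_mul _ hmκ]
        gcongr
    _ ≤ _ := by
        rw [lintegral_const]
        calc (m univ) ^ 3 * (ENNReal.ofReal (2 * Real.pi) * (K * R) * n univ) ≤
              (m univ) ^ 3 * (ENNReal.ofReal (2 * Real.pi) * (K * R) * 1) := by gcongr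
          _ = _ := by rw [mul_one]

theorem meas_Ex (b : ℝ → ℝ → ℂ) (hb : Measurable fun p : ℝ × ℝ => b p.1 p.2) :
    Measurable fun p : ℝ × ℝ × ℝ => Ex (b p.1) p.2.1 p.2.2 := by
  unfold Ex
  have h : StronglyMeasurable fun q : (ℝ × ℝ × ℝ) × ℝ =>
      Complex.exp (-((q.1.2.1 * sc q.2 + q.1.2.2 * q.2 : ℝ) : ℂ) * I) * b q.1.1 q.2 := by
    apply Measurable.stronglyMeasurable
    refine Measurable.mul ?_ (hb.comp ((measurable_fst.comp measurable_fst).prodMk measurable_snd))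
    have h1 : Measurable fun q : (ℝ × ℝ × ℝ) × ℝ => q.1.2.1 * sc q.2 + q.1.2.2 * q.2 := by
      have : Measurable fun q : (ℝ × ℝ × ℝ) × ℝ => sc q.2 := measurable_sc.comp measurable_snd
      fun_prop
    have h2 : Measurable fun q : (ℝ × ℝ × ℝ) × ℝ =>
        ((q.1.2.1 * sc q.2 + q.1.2.2 * q.2 : ℝ) : ℂ) := Complex.measurable_ofReal.comp h1
    exact Complex.measurable_exp.comp (h2.neg.mul_const I)
  exact h.integral_prod_right'.measurable

/-- the coefficients -/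
noncomputable def bG (G : E 3 → ℂ) (γ c : ℝ) : ℂ := G (pt c γ)

noncomputable def bH (G : E 3 → ℂ) (γ c : ℝ) : ℂ := G (pt c γ) / (-I * (sc c : ℂ))

theorem meas_bG (G : E 3 → ℂ) (hG : Measurable G) : Measurable fun p : ℝ × ℝ => bG G p.1 p.2 :=
  hG.comp (measurable_pt.comp measurable_swap)

theorem meas_bH (G : E 3 → ℂ) (hG : Measurable G) : Measurable fun p : ℝ × ℝ => bH G p.1 p.2 := by
  refine (meas_bG G hG).div ?_
  have : Measurable fun p : ℝ × ℝ => ((sc p.2 : ℝ) : ℂ) :=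
    Complex.measurable_ofReal.comp (measurable_sc.comp measurable_snd)
  exact this.const_mul _

theorem meas_bG1 (G : E 3 → ℂ) (hG : Measurable G) (γ : ℝ) : Measurable (bG G γ) := by
  have hg : Measurable fun c : ℝ => (γ, c) := by fun_prop
  have h0 := (meas_bG G hG).comp hg
  exact h0

theorem meas_bH1 (G : E 3 → ℂ) (hG : Measurable G) (γ : ℝ) : Measurable (bH G γ) := by
  have hg : Measurable fun c : ℝ => (γ, c) := by fun_prop
  have h0 := (meas_bH G hG).comp hg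
  exact h0

noncomputable def VG (G : E 3 → ℂ) (p : ℝ × ℝ × ℝ) : ℝ≥0∞ := ‖Ex (bG G p.1) p.2.1 p.2.2‖ₑ

noncomputable def VH (G : E 3 → ℂ) (p : ℝ × ℝ × ℝ) : ℝ≥0∞ := ‖Ex (bH G p.1) p.2.1 p.2.2‖ₑ

theorem meas_VG (G : E 3 → ℂ) (hG : Measurable G) : Measurable (VG G) :=
  (meas_Ex _ (meas_bG G hG)).enorm

theorem meas_VH (G : E 3 → ℂ) (hG : Measurable G) : Measurable (VH G) :=
  (meas_Ex _ (meas_bH G hG)).enorm

theorem pt_two (c γ : ℝ) : (pt c γ) 2 = c := rfl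

/-- the weight -/
noncomputable def kp (N θ : ℝ) : ℝ≥0∞ := ENNReal.ofReal (N / (1 + N * |Real.cos θ|))

theorem meas_kp (N : ℝ) : Measurable (kp N) := by
  unfold kp
  fun_prop

theorem hK_of_Zl {C μ ρ : ℝ} (hC : 0 < C) (hμ : 0 < μ) (hN : 1 ≤ ρ * μ)
    (hZ : ∀ (b : ℝ → ℂ), Measurable b → ∀ B : ℝ, (∀ c, ‖b c‖ ≤ B) → (∀ c, c ∉ band μ → b c = 0) →
    ∀ θ : ℝ, ∫⁻ r in Icc ρ (2 * ρ), ∫⁻ z : ℝ, ENNReal.ofReal (‖Ex b (r * Real.cos θ) z‖ ^ 4) ≤
      ENNReal.ofReal (C * B ^ 4 * μ ^ 5 * (1 + Real.log (ρ * μ)) *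
        (ρ * μ / (1 + ρ * μ * |Real.cos θ|)))) (b : ℝ → ℂ) (hb : Measurable b) (B : ℝ)
    (hB : ∀ c, ‖b c‖ ≤ B) (hs : ∀ c, c ∉ band μ → b c = 0) (θ : ℝ) :
    ∫⁻ r in Icc ρ (2 * ρ), ∫⁻ z : ℝ, ‖Ex b (r * Real.cos θ) z‖ₑ ^ 4 ≤
      ENNReal.ofReal (C * B ^ 4 * μ ^ 5 * (1 + Real.log (ρ * μ))) * kp (ρ * μ) θ := by
  have hlog : 0 ≤ Real.log (ρ * μ) := Real.log_nonneg hN
  have h := hZ b hb B hB hs θ
  unfold kp
  rw [← ENNReal.ofReal_mul (by positivity)]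
  refine le_trans (le_of_eq ?_) h
  apply lintegral_congr
  intro r
  apply lintegral_congr
  intro z
  rw [ENNReal.ofReal_pow (norm_nonneg _), ofReal_norm]

theorem bG_bound {M : ℝ} (G : E 3 → ℂ) (hM : ∀ x, ‖G x‖ ≤ M) (γ c : ℝ) : ‖bG G γ c‖ ≤ M :=
  hM _

theorem bG_supp {μ : ℝ} (G : E 3 → ℂ) (hs : ∀ x, x 2 ∉ band μ → G x = 0) (γ c : ℝ)
    (hc : c ∉ band μ) : bG G γ c = 0 := hs _ hc

theorem bH_supp {μ : ℝ} (G : E 3 → ℂ) (hs : ∀ x, x 2 ∉ band μ → G x = 0) (γ c : ℝ)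
    (hc : c ∉ band μ) : bH G γ c = 0 := by
  unfold bH
  rw [hs _ hc, zero_div]

theorem bH_bound {μ M : ℝ} (hμ : 0 < μ) (G : E 3 → ℂ) (hM : ∀ x, ‖G x‖ ≤ M)
    (hs : ∀ x, x 2 ∉ band μ → G x = 0) (γ c : ℝ) : ‖bH G γ c‖ ≤ 2 * M / μ := by
  have hM0 : 0 ≤ M := (norm_nonneg _).trans (hM 0)
  by_cases hc : c ∈ band μ
  · obtain ⟨_, h2, _⟩ := hc
    unfold bH
    rw [norm_div, norm_mul, norm_neg, Complex.norm_I, one_mul, Complex.norm_real,
      Real.norm_eq_abs, abs_of_pos (by linarith)]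
    rw [div_le_div_iff₀ (by linarith) hμ]
    have h3 := hM (pt c γ)
    have h4 : ‖G (pt c γ)‖ * μ ≤ M * μ := mul_le_mul_of_nonneg_right h3 hμ.le
    nlinarith
  · rw [bH_supp G hs γ c hc, norm_zero]
    positivity

/-- bad and good longitudes -/
def BAD (δ : ℝ) : Set ℝ := {β | β ∈ Ioo (-Real.pi) Real.pi ∧ |Real.sin β| < 4 * δ}

def GOOD (δ : ℝ) : Set ℝ := {β | β ∈ Ioo (-Real.pi) Real.pi ∧ 4 * δ ≤ |Real.sin β|}

theorem meas_BAD (δ : ℝ) : MeasurableSet (BAD δ) :=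
  measurableSet_Ioo.inter (measurableSet_lt (Real.measurable_sin.abs) measurable_const)

theorem meas_GOOD (δ : ℝ) : MeasurableSet (GOOD δ) :=
  measurableSet_Ioo.inter (measurableSet_le measurable_const (Real.measurable_sin.abs))

noncomputable def mG (δ : ℝ) : Measure ℝ :=
  (volume.restrict (GOOD δ)).withDensity (fun β => ENNReal.ofReal (1 / |Real.sin β|))

noncomputable def nd (δ : ℝ) : Measure ℝ := (ENNReal.ofReal δ)⁻¹ • volume.restrict (Ioo 0 δ)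

instance mG_sf (δ : ℝ) : SFinite (mG δ) := by unfold mG; infer_instance

instance nd_sf (δ : ℝ) : SFinite (nd δ) := by unfold nd; infer_instance

theorem nd_univ (δ : ℝ) : nd δ univ ≤ 1 := by
  unfold nd
  rw [Measure.smul_apply, Measure.restrict_apply_univ, Real.volume_Ioo, sub_zero, smul_eq_mul]
  exact ENNReal.inv_mul_le_one _

theorem kp_bad {N : ℝ} (hN : 0 < N) {β h : ℝ} (hs : |Real.sin β| ≤ 1 / 2) (h0 : 0 ≤ h)
    (h1 : h ≤ 1 / 8) : kp N (β + h) ≤ ENNReal.ofReal 2 := by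
  have hc : 3 / 4 ≤ |Real.cos β| := by
    have h2 := Real.sin_sq_add_cos_sq β
    have h3 : Real.sin β ^ 2 ≤ 1 / 4 := by
      rw [← sq_abs]
      nlinarith [abs_nonneg (Real.sin β)]
    rw [← abs_of_nonneg (show (0 : ℝ) ≤ 3 / 4 by norm_num)]
    apply sq_le_sq.1
    linarith
  have h4 := Real.abs_cos_sub_cos_le β (β + h)
  rw [show β - (β + h) = -h by ring, abs_neg, abs_of_nonneg h0] at h4
  have h5 := abs_sub_abs_le_abs_sub (Real.cos β) (Real.cos (β + h))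
  have h6 : 1 / 2 ≤ |Real.cos (β + h)| := by linarith
  unfold kp
  apply ENNReal.ofReal_le_ofReal
  rw [div_le_iff₀ (by positivity)]
  nlinarith

theorem int_bad {N δ : ℝ} (hN : 0 < N) (hδ : 0 < δ) (hδ1 : δ ≤ 1 / 8) {h : ℝ} (h0 : 0 ≤ h)
    (h1 : h ≤ δ) :
    ∫⁻ β, kp N (β + h) ∂(volume.restrict (BAD δ)) ≤ ENNReal.ofReal 2 * ENNReal.ofReal (30 * δ) := by
  calc ∫⁻ β in BAD δ, kp N (β + h) ≤ ∫⁻ β in BAD δ, ENNReal.ofReal 2 := by
        apply setLIntegral_mono' (meas_BAD δ)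
        intro β hβ
        exact kp_bad hN (by have := hβ.2; linarith) h0 (by linarith)
    _ = ENNReal.ofReal 2 * volume (BAD δ) := by
        rw [lintegral_const, Measure.restrict_apply_univ]
    _ ≤ _ := by gcongr; exact bad_vol δ hδ hδ1

theorem lint_mG (δ : ℝ) (f : ℝ → ℝ≥0∞) :
    ∫⁻ β, f β ∂(mG δ) = ∫⁻ β in GOOD δ, ENNReal.ofReal (1 / |Real.sin β|) * f β := by
  unfold mG
  rw [lintegral_withDensity_eq_lintegral_mul_non_measurable]
  · rfl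
  · have := Real.measurable_sin.abs
    fun_prop
  · exact Filter.Eventually.of_forall fun _ => ENNReal.ofReal_lt_top

theorem mG_univ {C δ : ℝ} (hC : ∫⁻ β in {β | β ∈ Ioo (-Real.pi) Real.pi ∧ 4 * δ ≤ |Real.sin β|},
      ENNReal.ofReal (1 / |Real.sin β|) ≤ ENNReal.ofReal (C * (1 + Real.log (1 / δ)))) :
    mG δ univ ≤ ENNReal.ofReal (C * (1 + Real.log (1 / δ))) := by
  rw [← lintegral_one, lint_mG]
  simp only [mul_one]
  exact hC

theorem int_good {N δ C1 C2 Λ : ℝ} (hN : 0 < N) (hδ : 0 < δ) (hδ1 : δ ≤ 1 / 8)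
    (hC1 : mG δ univ ≤ ENNReal.ofReal (C1 * Λ))
    (hC2 : ∀ h : ℝ, ∫⁻ β in Ioo (-Real.pi) Real.pi, ENNReal.ofReal (N / (1 + N * |Real.cos (β + h)|)) ≤
      ENNReal.ofReal (C2 * Λ)) (hC10 : 0 ≤ C1 * Λ) (hC20 : 0 ≤ C2 * Λ) {h : ℝ} (h0 : 0 ≤ h)
    (h1 : h ≤ δ) :
    ∫⁻ β, kp N (β + h) ∂(mG δ) ≤ ENNReal.ofReal (2 * (C1 * Λ) + 2 * (C2 * Λ)) := by
  rw [lint_mG]
  have hmk : Measurable fun β : ℝ => kp N (β + h) := (meas_kp N).comp (by fun_prop)
  have hms : Measurable fun β : ℝ => ENNReal.ofReal (1 / |Real.sin β|) := by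
    have := Real.measurable_sin.abs
    fun_prop
  calc ∫⁻ β in GOOD δ, ENNReal.ofReal (1 / |Real.sin β|) * kp N (β + h)
      ≤ ∫⁻ β in GOOD δ, (ENNReal.ofReal 2 * ENNReal.ofReal (1 / |Real.sin β|) +
          ENNReal.ofReal 2 * kp N (β + h)) := by
        apply lintegral_mono
        intro β
        simp only
        rcases le_total |Real.sin β| (1 / 2) with hb | hb
        · refine le_trans ?_ le_self_add
          rw [mul_comm]
          gcongr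
          exact kp_bad hN hb h0 (by linarith)
        · refine le_trans ?_ le_add_self
          gcongr
          rw [div_le_iff₀ (by linarith)]
          linarith
    _ = (ENNReal.ofReal 2 * ∫⁻ β in GOOD δ, ENNReal.ofReal (1 / |Real.sin β|)) +
          ENNReal.ofReal 2 * ∫⁻ β in GOOD δ, kp N (β + h) := by
        rw [lintegral_add_left (hms.const_mul _), lintegral_const_mul _ hms,
          lintegral_const_mul _ hmk]
    _ ≤ ENNReal.ofReal 2 * ENNReal.ofReal (C1 * Λ) + ENNReal.ofReal 2 * ENNReal.ofReal (C2 * Λ) := by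
        gcongr
        · rw [← lintegral_one, lint_mG] at hC1
          simpa using hC1
        · refine le_trans ?_ (hC2 h)
          exact lintegral_mono_set fun β hβ => hβ.1
    _ = _ := by
        rw [← ENNReal.ofReal_mul (by norm_num), ← ENNReal.ofReal_mul (by norm_num),
          ← ENNReal.ofReal_add (by positivity) (by positivity)]

theorem nd_ae (δ : ℝ) : ∀ᵐ h ∂(nd δ), 0 ≤ h ∧ h ≤ δ := by
  unfold nd
  apply Measure.ae_smul_measure
  filter_upwards [ae_restrict_mem measurableSet_Ioo] with h hh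
  exact ⟨hh.1.le, hh.2.le⟩

theorem meas_pp1 (h : ℝ) (p : ℝ × ℝ × ℝ) : Measurable fun β => pp β h p := by
  unfold pp
  fun_prop

theorem meas_pp2 (β : ℝ) (p : ℝ × ℝ × ℝ) : Measurable fun h => pp β h p := by
  unfold pp
  fun_prop

theorem meas_V1 (V : ℝ × ℝ × ℝ → ℝ≥0∞) (hV : Measurable V) (h : ℝ) (p : ℝ × ℝ × ℝ) :
    Measurable fun β => V (pp β h p) := hV.comp (meas_pp1 h p)

theorem meas_V2 (V : ℝ × ℝ × ℝ → ℝ≥0∞) (hV : Measurable V) (β : ℝ) (p : ℝ × ℝ × ℝ) :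
    Measurable fun h => V (pp β h p) := hV.comp (meas_pp2 β p)

theorem fin_step {δ ρ r s e1 e2 I1 X : ℝ} {v1 v2 J : ℝ≥0∞} (hδ : 0 < δ) (hρ : 0 < ρ)
    (hp : ρ ≤ r) (hs : 0 < s) (he1 : 0 ≤ e1) (he2 : 0 ≤ e2) (hI : 0 ≤ I1)
    (E1 : ENNReal.ofReal e1 = v1) (E2 : ENNReal.ofReal e2 = v2) (E3 : ENNReal.ofReal I1 ≤ J)
    (hX : X ≤ 2 / (r * s) * (e1 + e2 + δ⁻¹ * I1)) :
    (ENNReal.ofReal δ)⁻¹ * ENNReal.ofReal X ≤ ENNReal.ofReal (2 / (δ * ρ)) *
      (ENNReal.ofReal (1 / s) * v1 + (ENNReal.ofReal (1 / s) * v2 +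
        ENNReal.ofReal (1 / s) * ((ENNReal.ofReal δ)⁻¹ * J))) := by
  have hr : 0 < r := lt_of_lt_of_le hρ hp
  subst E1 E2
  calc (ENNReal.ofReal δ)⁻¹ * ENNReal.ofReal X
      ≤ (ENNReal.ofReal δ)⁻¹ * ENNReal.ofReal (2 / (r * s) * (e1 + e2 + δ⁻¹ * I1)) := by gcongr
    _ = ENNReal.ofReal (δ⁻¹ * (2 / (r * s) * (e1 + e2 + δ⁻¹ * I1))) := by
        rw [← ENNReal.ofReal_inv_of_pos hδ, ← ENNReal.ofReal_mul (by positivity)]
    _ ≤ ENNReal.ofReal (2 / (δ * ρ) * (1 / s * (e1 + (e2 + δ⁻¹ * I1)))) := by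
        apply ENNReal.ofReal_le_ofReal
        have hE : 0 ≤ e1 + (e2 + δ⁻¹ * I1) := by positivity
        have : δ⁻¹ * (2 / (r * s) * (e1 + e2 + δ⁻¹ * I1)) =
            (2 / (δ * r)) * (1 / s * (e1 + (e2 + δ⁻¹ * I1))) := by
          field_simp
          ring
        rw [this]
        gcongr
    _ = ENNReal.ofReal (2 / (δ * ρ)) *
      (ENNReal.ofReal (1 / s) * ENNReal.ofReal e1 + (ENNReal.ofReal (1 / s) * ENNReal.ofReal e2 +
        ENNReal.ofReal (1 / s) * ((ENNReal.ofReal δ)⁻¹ * ENNReal.ofReal I1))) := by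
        have hE : 0 ≤ e2 + δ⁻¹ * I1 := by positivity
        rw [ENNReal.ofReal_mul (by positivity), ENNReal.ofReal_mul (by positivity),
          ENNReal.ofReal_add he1 hE, ENNReal.ofReal_add he2 (by positivity),
          ENNReal.ofReal_mul (by positivity), ENNReal.ofReal_inv_of_pos hδ]
        ring
    _ ≤ _ := by gcongr

/-- the pointwise bound -/
theorem ptw {μ : ℝ} (hμ : 0 < μ) (G : E 3 → ℂ) (hG : Measurable G) {M : ℝ} (hM : ∀ x, ‖G x‖ ≤ M)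
    (hs : ∀ x, x 2 ∉ band μ → G x = 0) {δ β0 ρ : ℝ} (hδ : 0 < δ)
    (hδβ : δ ≤ β0) (hρ : 0 < ρ)
    (p : ℝ × ℝ × ℝ) (hp : ρ ≤ p.2.1) :
    ‖T (avg δ G) (cyl p.2.1 p.1 p.2.2)‖ₑ ≤
      (∫⁻ β, ∫⁻ h, VG G (pp β h p) ∂(nd δ) ∂(volume.restrict (BAD β0))) +
      ENNReal.ofReal (2 / (δ * ρ)) *
        ((∫⁻ β, ∫⁻ h, VH G (pp β h p) ∂(Measure.dirac δ) ∂(mG β0)) +
          ((∫⁻ β, ∫⁻ h, VH G (pp β h p) ∂(Measure.dirac 0) ∂(mG β0)) +
          ∫⁻ β, ∫⁻ h, VH G (pp β h p) ∂(nd δ) ∂(mG β0))) := by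
  obtain ⟨α, r, z⟩ := p
  simp only at hp ⊢
  have hr : 0 < r := lt_of_lt_of_le hρ hp
  rw [rep G hG ⟨M, hM⟩ δ hδ r α z]
  have hnd : ∀ f : ℝ → ℝ≥0∞, ∫⁻ h, f h ∂(nd δ) = (ENNReal.ofReal δ)⁻¹ * ∫⁻ h in Ioo 0 δ, f h := by
    intro f
    unfold nd
    rw [lintegral_smul_measure, smul_eq_mul]
  have hδe : ‖((δ : ℂ))⁻¹‖ₑ = (ENNReal.ofReal δ)⁻¹ := by
    rw [enorm_inv (by exact_mod_cast hδ.ne'), ← ofReal_norm, Complex.norm_real, Real.norm_eq_abs,
      abs_of_pos hδ]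
  set U : ℝ → ℂ := fun β => (δ : ℂ)⁻¹ * ∫ h in Ioo (0 : ℝ) δ,
    Ex (fun c => G (pt c (α + β))) (r * Real.cos (β + h)) z with hU
  have hsplit : Ioo (-Real.pi) Real.pi = BAD β0 ∪ GOOD β0 := by
    ext β
    constructor
    · intro hβ
      rcases lt_or_ge |Real.sin β| (4 * β0) with h | h
      · exact Or.inl ⟨hβ, h⟩
      · exact Or.inr ⟨hβ, h⟩
    · rintro (h | h)
      · exact h.1
      · exact h.1
  calc ‖∫ β in Ioo (-Real.pi) Real.pi, U β‖ₑ ≤ ∫⁻ β in Ioo (-Real.pi) Real.pi, ‖U β‖ₑ :=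
        enorm_integral_le_lintegral_enorm _
    _ ≤ (∫⁻ β in BAD β0, ‖U β‖ₑ) + ∫⁻ β in GOOD β0, ‖U β‖ₑ := by
        rw [hsplit]; exact lintegral_union_le _ _ _
    _ ≤ _ := by
        refine add_le_add ?_ ?_
        · apply lintegral_mono
          intro β
          rw [hU]
          simp only
          rw [enorm_mul, hδe, hnd]
          gcongr
          exact enorm_integral_le_lintegral_enorm _
        · rw [lint_mG, lint_mG, lint_mG]
          have hmV : ∀ h, Measurable fun β => VH G (pp β h (α, r, z)) := fun h =>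
            meas_V1 _ (meas_VH G hG) _ _
          have hms : Measurable fun β : ℝ => ENNReal.ofReal (1 / |Real.sin β|) := by
            have := Real.measurable_sin.abs
            fun_prop
          have hd : ∀ (a : ℝ), Measurable (fun h => VH G (pp a h (α, r, z))) := fun a =>
            meas_V2 _ (meas_VH G hG) _ _
          have hd1 : ∀ (a b : ℝ), ∫⁻ h, VH G (pp a h (α, r, z)) ∂(Measure.dirac b) =
              VH G (pp a b (α, r, z)) := fun a b => lintegral_dirac' b (hd a)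
          simp only [hd1]
          have hR : ENNReal.ofReal (2 / (δ * ρ)) *
              ((∫⁻ β in GOOD β0, ENNReal.ofReal (1 / |Real.sin β|) * VH G (pp β δ (α, r, z))) +
              ((∫⁻ β in GOOD β0, ENNReal.ofReal (1 / |Real.sin β|) * VH G (pp β 0 (α, r, z))) +
              ∫⁻ β in GOOD β0, ENNReal.ofReal (1 / |Real.sin β|) *
                ∫⁻ h, VH G (pp β h (α, r, z)) ∂(nd δ))) =
              ∫⁻ β in GOOD β0, ENNReal.ofReal (2 / (δ * ρ)) *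
                (ENNReal.ofReal (1 / |Real.sin β|) * VH G (pp β δ (α, r, z)) +
                (ENNReal.ofReal (1 / |Real.sin β|) * VH G (pp β 0 (α, r, z)) +
                ENNReal.ofReal (1 / |Real.sin β|) *
                ∫⁻ h, VH G (pp β h (α, r, z)) ∂(nd δ))) := by
            have hF1 : Measurable fun β =>
              ENNReal.ofReal (1 / |Real.sin β|) * VH G (pp β δ (α, r, z)) := hms.mul (hmV δ)
            have hF2 : Measurable fun β =>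
              ENNReal.ofReal (1 / |Real.sin β|) * VH G (pp β 0 (α, r, z)) := hms.mul (hmV 0)
            rw [lintegral_const_mul' _ _ ENNReal.ofReal_ne_top,
              lintegral_add_left hF1, lintegral_add_left hF2]
          rw [hR]
          · apply setLIntegral_mono' (meas_GOOD β0)
            intro β hβ
            have hβ2 : 4 * δ ≤ |Real.sin β| := by linarith [hβ.2]
            have hsb : 0 < |Real.sin β| := lt_of_lt_of_le (by positivity) hβ2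
            have hbm : Measurable fun c => G (pt c (α + β)) :=
              (meas_bG G hG).comp (measurable_const.prodMk measurable_id)
            have key := ibp μ hμ (fun c => G (pt c (α + β))) hbm
              ⟨M, fun c => hM _⟩ (fun c hc => hs _ hc) r z β δ hr hδ hβ2
            rw [hU]
            simp only
            rw [enorm_mul, hδe, ← ofReal_norm]
            set I1 := ∫ h in Ioo (0 : ℝ) δ, ‖Ex (fun c => G (pt c (α + β)) / (-I * (sc c : ℂ)))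
              (r * Real.cos (β + h)) z‖ with hI1
            set e1 := ‖Ex (fun c => G (pt c (α + β)) / (-I * (sc c : ℂ)))
              (r * Real.cos (β + δ)) z‖ with he1
            set e2 := ‖Ex (fun c => G (pt c (α + β)) / (-I * (sc c : ℂ)))
              (r * Real.cos β) z‖ with he2
            have hI10 : 0 ≤ I1 := integral_nonneg fun _ => norm_nonneg _
            have E1 : ENNReal.ofReal e1 = VH G (pp β δ (α, r, z)) := by
              rw [he1, ofReal_norm]; rfl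
            have E2 : ENNReal.ofReal e2 = VH G (pp β 0 (α, r, z)) := by
              rw [he2, ofReal_norm]
              show _ = ‖Ex (bH G (α + β)) (r * Real.cos (β + 0)) z‖ₑ
              rw [add_zero]; rfl
            have E3 : ENNReal.ofReal I1 ≤ ∫⁻ h in Ioo 0 δ, VH G (pp β h (α, r, z)) := by
              calc ENNReal.ofReal I1 ≤ ‖I1‖ₑ := by
                    rw [← ofReal_norm]
                    exact ENNReal.ofReal_le_ofReal (le_abs_self _)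
                _ ≤ ∫⁻ h in Ioo 0 δ, ‖(‖Ex (fun c => G (pt c (α + β)) / (-I * (sc c : ℂ)))
                      (r * Real.cos (β + h)) z‖)‖ₑ := enorm_integral_le_lintegral_enorm _
                _ = _ := by
                    simp only [enorm_norm]
                    rfl
            rw [hnd]
            exact fin_step hδ hρ hp hsb (norm_nonneg _) (norm_nonneg _) hI10 E1 E2 E3 key

theorem nu_ae (ρ : ℝ) : ∀ᵐ p ∂(nu ρ), p.2.1 ∈ Icc ρ (2 * ρ) := by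
  unfold nu
  have h1 : ∀ᵐ q ∂((volume.restrict (Icc ρ (2 * ρ))).prod (volume : Measure ℝ)),
      q.1 ∈ Icc ρ (2 * ρ) :=
    Measure.quasiMeasurePreserving_fst.ae (ae_restrict_mem measurableSet_Icc)
  exact Measure.quasiMeasurePreserving_snd.ae h1

theorem meas_pair (V : ℝ × ℝ × ℝ → ℝ≥0∞) (hV : Measurable V) (m n : Measure ℝ) [SFinite m]
    [SFinite n] : Measurable fun p : ℝ × ℝ × ℝ => ∫⁻ β, ∫⁻ h, V (pp β h p) ∂n ∂m := by
  have hVp : Measurable fun q : (ℝ × ℝ) × (ℝ × ℝ × ℝ) => V (pp q.1.1 q.1.2 q.2) :=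
    hV.comp measurable_pp
  have : Measurable fun q : ((ℝ × ℝ × ℝ) × ℝ) × ℝ => V (pp q.1.2 q.2 q.1.1) :=
    hVp.comp (((measurable_snd.comp measurable_fst).prodMk measurable_snd).prodMk
      (measurable_fst.comp measurable_fst))
  exact this.lintegral_prod_right'.lintegral_prod_right'

/-- the bound in `ENNReal` -/
theorem main_enn {μ : ℝ} (hμ : 0 < μ) (G : E 3 → ℂ) (hG : Measurable G) {M : ℝ}
    (hM : ∀ x, ‖G x‖ ≤ M) (hs : ∀ x, x 2 ∉ band μ → G x = 0) {δ ρ N K1 K2 C1 C2 Λ : ℝ} (hδ : 0 < δ)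
    (hδ1 : δ ≤ 1 / 8) (hρ : 0 < ρ) (hN : 0 < N) (hK1 : 0 ≤ K1) (hK2 : 0 ≤ K2)
    (hV : ∀ γ θ : ℝ, ∫⁻ r in Icc ρ (2 * ρ), ∫⁻ z : ℝ, VG G (γ, r * Real.cos θ, z) ^ 4 ≤
      ENNReal.ofReal K1 * kp N θ)
    (hW : ∀ γ θ : ℝ, ∫⁻ r in Icc ρ (2 * ρ), ∫⁻ z : ℝ, VH G (γ, r * Real.cos θ, z) ^ 4 ≤
      ENNReal.ofReal K2 * kp N θ)
    (hC1 : mG δ univ ≤ ENNReal.ofReal (C1 * Λ))
    (hC2 : ∀ h : ℝ, ∫⁻ β in Ioo (-Real.pi) Real.pi, ENNReal.ofReal (N / (1 + N * |Real.cos (β + h)|)) ≤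
      ENNReal.ofReal (C2 * Λ)) (hC10 : 0 ≤ C1 * Λ) (hC20 : 0 ≤ C2 * Λ) :
    ∫⁻ p, ‖T (avg δ G) (cyl p.2.1 p.1 p.2.2)‖ₑ ^ 4 ∂(nu ρ) ≤
      ENNReal.ofReal (16 * ((30 * δ) ^ 3 * (2 * Real.pi * (K1 * (2 * (30 * δ)))) +
        (2 / (δ * ρ)) ^ 4 * (16 * 49 * ((C1 * Λ) ^ 3 *
          (2 * Real.pi * (K2 * (2 * (C1 * Λ) + 2 * (C2 * Λ)))))))) := by
  have hpi := Real.pi_pos
  set c : ℝ≥0∞ := ENNReal.ofReal (2 / (δ * ρ)) with hc
  set SB : ℝ × ℝ × ℝ → ℝ≥0∞ := fun p =>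
    ∫⁻ β, ∫⁻ h, VG G (pp β h p) ∂(nd δ) ∂(volume.restrict (BAD δ)) with hSB
  set S1 : ℝ × ℝ × ℝ → ℝ≥0∞ := fun p =>
    ∫⁻ β, ∫⁻ h, VH G (pp β h p) ∂(Measure.dirac δ) ∂(mG δ) with hS1
  set S2 : ℝ × ℝ × ℝ → ℝ≥0∞ := fun p =>
    ∫⁻ β, ∫⁻ h, VH G (pp β h p) ∂(Measure.dirac 0) ∂(mG δ) with hS2
  set S3 : ℝ × ℝ × ℝ → ℝ≥0∞ := fun p =>
    ∫⁻ β, ∫⁻ h, VH G (pp β h p) ∂(nd δ) ∂(mG δ) with hS3
  have hmV := meas_VG G hG
  have hmW := meas_VH G hG
  have mB : Measurable SB := meas_pair _ hmV _ _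
  have m1 : Measurable S1 := meas_pair _ hmW _ _
  have m2 : Measurable S2 := meas_pair _ hmW _ _
  have m3 : Measurable S3 := meas_pair _ hmW _ _
  -- the four integrals
  have iB : ∫⁻ p, SB p ^ 4 ∂(nu ρ) ≤
      ENNReal.ofReal ((30 * δ) ^ 3 * (2 * Real.pi * (K1 * (2 * (30 * δ))))) := by
    have h := gen ρ (VG G) hmV (ENNReal.ofReal K1) (kp N) (meas_kp N) hV
      (volume.restrict (BAD δ)) (nd δ) (nd_univ δ) (ENNReal.ofReal 2 * ENNReal.ofReal (30 * δ))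
      ((nd_ae δ).mono fun h hh => int_bad hN hδ hδ1 hh.1 hh.2)
    refine h.trans ?_
    rw [Measure.restrict_apply_univ]
    calc volume (BAD δ) ^ 3 * (ENNReal.ofReal (2 * Real.pi) *
          (ENNReal.ofReal K1 * (ENNReal.ofReal 2 * ENNReal.ofReal (30 * δ))))
        ≤ ENNReal.ofReal (30 * δ) ^ 3 * (ENNReal.ofReal (2 * Real.pi) *
          (ENNReal.ofReal K1 * (ENNReal.ofReal 2 * ENNReal.ofReal (30 * δ)))) := by
          gcongr
          exact bad_vol δ hδ hδ1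
      _ = _ := by
          rw [← ENNReal.ofReal_pow (by positivity), ← ENNReal.ofReal_mul (by norm_num),
            ← ENNReal.ofReal_mul hK1, ← ENNReal.ofReal_mul (by positivity),
            ← ENNReal.ofReal_mul (by positivity)]
  have iG : ∀ (n : Measure ℝ) [SFinite n], n univ ≤ 1 → (∀ᵐ h ∂n, 0 ≤ h ∧ h ≤ δ) →
      ∫⁻ p, (∫⁻ β, ∫⁻ h, VH G (pp β h p) ∂n ∂(mG δ)) ^ 4 ∂(nu ρ) ≤
      ENNReal.ofReal ((C1 * Λ) ^ 3 * (2 * Real.pi * (K2 * (2 * (C1 * Λ) + 2 * (C2 * Λ))))) := by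
    intro n _ hn hn2
    have h := gen ρ (VH G) hmW (ENNReal.ofReal K2) (kp N) (meas_kp N) hW
      (mG δ) n hn (ENNReal.ofReal (2 * (C1 * Λ) + 2 * (C2 * Λ)))
      (hn2.mono fun h hh => int_good hN hδ hδ1 hC1 hC2 hC10 hC20 hh.1 hh.2)
    refine h.trans ?_
    calc mG δ univ ^ 3 * (ENNReal.ofReal (2 * Real.pi) *
          (ENNReal.ofReal K2 * ENNReal.ofReal (2 * (C1 * Λ) + 2 * (C2 * Λ))))
        ≤ ENNReal.ofReal (C1 * Λ) ^ 3 * (ENNReal.ofReal (2 * Real.pi) *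
          (ENNReal.ofReal K2 * ENNReal.ofReal (2 * (C1 * Λ) + 2 * (C2 * Λ)))) := by
          gcongr
      _ = _ := by
          rw [← ENNReal.ofReal_pow hC10,
            ← ENNReal.ofReal_mul hK2, ← ENNReal.ofReal_mul (by positivity),
            ← ENNReal.ofReal_mul (by positivity)]
  have i1 := iG (Measure.dirac δ) (by simp) (by
    rw [ae_dirac_iff (measurableSet_Icc (a := (0:ℝ)) (b := δ))]
    exact ⟨hδ.le, le_refl _⟩)
  have i2 := iG (Measure.dirac 0) (by simp) (by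
    rw [ae_dirac_iff (measurableSet_Icc (a := (0:ℝ)) (b := δ))]
    exact ⟨le_refl _, hδ.le⟩)
  have i3 := iG (nd δ) (nd_univ δ) (nd_ae δ)
  set R : ℝ := (C1 * Λ) ^ 3 * (2 * Real.pi * (K2 * (2 * (C1 * Λ) + 2 * (C2 * Λ)))) with hR
  have hR0 : 0 ≤ R := by positivity
  calc ∫⁻ p, ‖T (avg δ G) (cyl p.2.1 p.1 p.2.2)‖ₑ ^ 4 ∂(nu ρ)
      ≤ ∫⁻ p, 16 * (SB p ^ 4 + c ^ 4 * (16 * (S1 p ^ 4 + 16 * (S2 p ^ 4 + S3 p ^ 4)))) ∂(nu ρ) := by
        apply lintegral_mono_ae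
        filter_upwards [nu_ae ρ] with p hp
        have h1 := ptw hμ G hG hM hs hδ le_rfl hρ p hp.1
        calc ‖T (avg δ G) (cyl p.2.1 p.1 p.2.2)‖ₑ ^ 4
            ≤ (SB p + c * (S1 p + (S2 p + S3 p))) ^ 4 := by gcongr
          _ ≤ 16 * (SB p ^ 4 + (c * (S1 p + (S2 p + S3 p))) ^ 4) := add4 _ _
          _ ≤ _ := by
              rw [mul_pow]
              gcongr
              refine (add4 _ _).trans ?_
              gcongr
              exact add4 _ _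
    _ = 16 * ((∫⁻ p, SB p ^ 4 ∂(nu ρ)) + c ^ 4 * (16 * ((∫⁻ p, S1 p ^ 4 ∂(nu ρ)) +
          16 * ((∫⁻ p, S2 p ^ 4 ∂(nu ρ)) + ∫⁻ p, S3 p ^ 4 ∂(nu ρ))))) := by
        have q1 := m1.pow_const 4
        have q2 := m2.pow_const 4
        have q3 := m3.pow_const 4
        have qB := mB.pow_const 4
        rw [lintegral_const_mul _ (by fun_prop), lintegral_add_left qB,
          lintegral_const_mul _ (by fun_prop), lintegral_const_mul _ (by fun_prop),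
          lintegral_add_left q1, lintegral_const_mul _ (by fun_prop), lintegral_add_left q2]
    _ ≤ 16 * (ENNReal.ofReal ((30 * δ) ^ 3 * (2 * Real.pi * (K1 * (2 * (30 * δ))))) +
          c ^ 4 * (16 * (ENNReal.ofReal R + 16 * (ENNReal.ofReal R + ENNReal.ofReal R)))) := by
        gcongr
    _ ≤ _ := by
        have e16 : (16 : ℝ≥0∞) = ENNReal.ofReal 16 := by norm_num
        have h2 : ENNReal.ofReal R + 16 * (ENNReal.ofReal R + ENNReal.ofReal R) ≤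
            ENNReal.ofReal (49 * R) := by
          rw [e16, ← ENNReal.ofReal_add hR0 hR0, ← ENNReal.ofReal_mul (by norm_num),
            ← ENNReal.ofReal_add hR0 (by positivity)]
          apply ENNReal.ofReal_le_ofReal
          linarith
        calc 16 * (ENNReal.ofReal ((30 * δ) ^ 3 * (2 * Real.pi * (K1 * (2 * (30 * δ))))) +
              c ^ 4 * (16 * (ENNReal.ofReal R + 16 * (ENNReal.ofReal R + ENNReal.ofReal R))))
            ≤ 16 * (ENNReal.ofReal ((30 * δ) ^ 3 * (2 * Real.pi * (K1 * (2 * (30 * δ))))) +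
              c ^ 4 * (16 * ENNReal.ofReal (49 * R))) := by gcongr
          _ = _ := by
              rw [e16, hc, ← ENNReal.ofReal_pow (by positivity),
                ← ENNReal.ofReal_mul (by norm_num), ← ENNReal.ofReal_mul (by positivity),
                ← ENNReal.ofReal_add (by positivity) (by positivity),
                ← ENNReal.ofReal_mul (by norm_num)]
              congr 1
              ring

theorem nu_prod (ρ : ℝ) (F : ℝ × ℝ × ℝ → ℝ≥0∞) (hF : Measurable F) :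
    ∫⁻ p, F p ∂(nu ρ) = ∫⁻ α in Ioo (-Real.pi) Real.pi, ∫⁻ r in Icc ρ (2 * ρ), ∫⁻ z : ℝ,
      F (α, r, z) := by
  unfold nu
  rw [lintegral_prod _ hF.aemeasurable]
  apply lintegral_congr
  intro α
  have hg : Measurable fun q : ℝ × ℝ => F (α, q) := hF.comp (measurable_const.prodMk measurable_id)
  rw [lintegral_prod _ hg.aemeasurable]

/-- polar coordinates -/
theorem to_nu {ρ : ℝ} (hρ : 0 < ρ) (f : E 3 → ℂ) (hf : Measurable f) :
    ∫⁻ x in {x : E 3 | ρ ^ 2 ≤ x 0 ^ 2 + x 1 ^ 2 ∧ x 0 ^ 2 + x 1 ^ 2 < (2 * ρ) ^ 2},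
      ENNReal.ofReal (‖f x‖ ^ 4) ≤
    ENNReal.ofReal (2 * ρ) * ∫⁻ p, ‖f (cyl p.2.1 p.1 p.2.2)‖ₑ ^ 4 ∂(nu ρ) := by
  set S : Set (E 3) :=
    {x : E 3 | ρ ^ 2 ≤ x 0 ^ 2 + x 1 ^ 2 ∧ x 0 ^ 2 + x 1 ^ 2 < (2 * ρ) ^ 2} with hS
  have hq : Measurable fun x : E 3 => x 0 ^ 2 + x 1 ^ 2 := by fun_prop
  have hSm : MeasurableSet S :=
    (measurableSet_le measurable_const hq).inter (measurableSet_lt hq measurable_const)
  have hFm : Measurable (S.indicator fun x => ENNReal.ofReal (‖f x‖ ^ 4)) :=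
    ((hf.norm.pow_const 4).ennreal_ofReal).indicator hSm
  have hcm : Measurable fun p : ℝ × ℝ × ℝ => cyl p.2.1 p.1 p.2.2 :=
    measurable_cyl.comp ((measurable_fst.comp measurable_snd).prodMk
      (measurable_fst.prodMk (measurable_snd.comp measurable_snd)))
  have hH : Measurable fun p : ℝ × ℝ × ℝ => ‖f (cyl p.2.1 p.1 p.2.2)‖ₑ ^ 4 :=
    (hf.comp hcm).enorm.pow_const 4
  have hH1 : Measurable fun q : ℝ × ℝ => ∫⁻ z : ℝ, ‖f (cyl q.2 q.1 z)‖ₑ ^ 4 := by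
    have hg : Measurable fun q : (ℝ × ℝ) × ℝ => (q.1.1, q.1.2, q.2) := by fun_prop
    have h0 := hH.comp hg
    exact h0.lintegral_prod_right'
  rw [← lintegral_indicator hSm, cyl_lint _ hFm]
  calc ∫⁻ r in Ioi (0 : ℝ), ∫⁻ α in Ioo (-Real.pi) Real.pi, ∫⁻ z : ℝ,
        ENNReal.ofReal r * S.indicator (fun x => ENNReal.ofReal (‖f x‖ ^ 4)) (cyl r α z)
      ≤ ∫⁻ r in Ioi (0 : ℝ), (Icc ρ (2 * ρ)).indicator (fun r => ENNReal.ofReal (2 * ρ) *
          ∫⁻ α in Ioo (-Real.pi) Real.pi, ∫⁻ z : ℝ, ‖f (cyl r α z)‖ₑ ^ 4) r := by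
        apply setLIntegral_mono' measurableSet_Ioi
        intro r hr
        have hr0 : (0 : ℝ) < r := hr
        by_cases hrI : r ∈ Icc ρ (2 * ρ)
        · rw [indicator_of_mem hrI, ← lintegral_const_mul' _ _ ENNReal.ofReal_ne_top]
          apply lintegral_mono
          intro α
          simp only
          rw [← lintegral_const_mul' _ _ ENNReal.ofReal_ne_top]
          apply lintegral_mono
          intro z
          simp only
          gcongr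
          · exact hrI.2
          · refine (indicator_le_self' (fun _ _ => zero_le) _).trans ?_
            rw [ENNReal.ofReal_pow (norm_nonneg _), ofReal_norm]
        · rw [indicator_of_notMem hrI]
          apply le_of_eq
          rw [lintegral_eq_zero_of_ae_eq_zero]
          refine Filter.Eventually.of_forall fun α => ?_
          simp only [Pi.zero_apply]
          rw [lintegral_eq_zero_of_ae_eq_zero]
          refine Filter.Eventually.of_forall fun z => ?_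
          simp only [Pi.zero_apply]
          rw [indicator_of_notMem, mul_zero]
          rintro ⟨ha, hb⟩
          apply hrI
          have e : (cyl r α z) 0 ^ 2 + (cyl r α z) 1 ^ 2 = r ^ 2 := by
            show (r * Real.cos α) ^ 2 + (r * Real.sin α) ^ 2 = r ^ 2
            have := Real.sin_sq_add_cos_sq α
            linear_combination r ^ 2 * this
          rw [e] at ha hb
          constructor
          · exact (pow_le_pow_iff_left₀ hρ.le hr0.le (by norm_num)).1 ha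
          · exact ((pow_lt_pow_iff_left₀ hr0.le (by positivity) (by norm_num)).1 hb).le
    _ ≤ ∫⁻ r, (Icc ρ (2 * ρ)).indicator (fun r => ENNReal.ofReal (2 * ρ) *
          ∫⁻ α in Ioo (-Real.pi) Real.pi, ∫⁻ z : ℝ, ‖f (cyl r α z)‖ₑ ^ 4) r :=
        setLIntegral_le_lintegral _ _
    _ = ENNReal.ofReal (2 * ρ) * ∫⁻ r in Icc ρ (2 * ρ),
          ∫⁻ α in Ioo (-Real.pi) Real.pi, ∫⁻ z : ℝ, ‖f (cyl r α z)‖ₑ ^ 4 := by
        rw [lintegral_indicator measurableSet_Icc, lintegral_const_mul' _ _ ENNReal.ofReal_ne_top]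
    _ = ENNReal.ofReal (2 * ρ) * ∫⁻ α in Ioo (-Real.pi) Real.pi,
          ∫⁻ r in Icc ρ (2 * ρ), ∫⁻ z : ℝ, ‖f (cyl r α z)‖ₑ ^ 4 := by
        congr 1
        rw [lintegral_lintegral_swap]
        exact (hH1.comp measurable_swap).aemeasurable
    _ = ENNReal.ofReal (2 * ρ) * ∫⁻ p, ‖f (cyl p.2.1 p.1 p.2.2)‖ₑ ^ 4 ∂(nu ρ) := by
        rw [nu_prod ρ _ hH]

theorem final_real {CZ C1 C2 M μ ρ δ Λ : ℝ} (hCZ : 0 < CZ) (hC1 : 0 < C1) (hC2 : 0 < C2)
    (hμ : 0 < μ) (hρ : 0 < ρ) (hΛ : 1 ≤ Λ) (hδ2 : δ ^ 2 * (ρ * μ) = 1) :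
    2 * ρ * (16 * ((30 * δ) ^ 3 * (2 * Real.pi * ((CZ * M ^ 4 * μ ^ 5 * Λ) * (2 * (30 * δ)))) +
        (2 / (δ * ρ)) ^ 4 * (16 * 49 * ((C1 * Λ) ^ 3 *
          (2 * Real.pi * ((CZ * (2 * M / μ) ^ 4 * μ ^ 5 * Λ) * (2 * (C1 * Λ) + 2 * (C2 * Λ)))))))) ≤
      (32 * 30 ^ 4 * 4 * Real.pi * CZ + 32 * 16 * 784 * C1 ^ 3 * 2 * Real.pi * 16 * CZ * 2 *
        (C1 + C2)) * M ^ 4 * ρ⁻¹ * μ ^ 3 * Λ ^ 5 := by
  have hpi := Real.pi_pos
  have hd4 : δ ^ 4 = ((ρ * μ) ^ 2)⁻¹ := by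
    apply eq_inv_of_mul_eq_one_left
    calc δ ^ 4 * (ρ * μ) ^ 2 = (δ ^ 2 * (ρ * μ)) ^ 2 := by ring
      _ = 1 := by rw [hδ2]; norm_num
  have e1 : 2 * ρ * (16 * ((30 * δ) ^ 3 * (2 * Real.pi * ((CZ * M ^ 4 * μ ^ 5 * Λ) *
      (2 * (30 * δ)))))) = 32 * 30 ^ 4 * 4 * Real.pi * CZ * M ^ 4 * ρ⁻¹ * μ ^ 3 * Λ := by
    calc 2 * ρ * (16 * ((30 * δ) ^ 3 * (2 * Real.pi * ((CZ * M ^ 4 * μ ^ 5 * Λ) *
        (2 * (30 * δ)))))) = 32 * 30 ^ 4 * 4 * Real.pi * CZ * M ^ 4 * μ ^ 5 * Λ * ρ * δ ^ 4 := by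
          ring
      _ = _ := by
          rw [hd4]
          field_simp
  have e2 : 2 * ρ * (16 * ((2 / (δ * ρ)) ^ 4 * (16 * 49 * ((C1 * Λ) ^ 3 *
          (2 * Real.pi * ((CZ * (2 * M / μ) ^ 4 * μ ^ 5 * Λ) * (2 * (C1 * Λ) + 2 * (C2 * Λ)))))))) =
      32 * 16 * 784 * C1 ^ 3 * 2 * Real.pi * 16 * CZ * 2 * (C1 + C2) * M ^ 4 * ρ⁻¹ * μ ^ 3 *
        Λ ^ 5 := by
    have e3 : (2 / (δ * ρ)) ^ 4 = 16 * μ ^ 2 / ρ ^ 2 := by
      rw [div_pow, mul_pow, hd4]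
      field_simp
      norm_num
    rw [e3]
    field_simp
    ring
  have e4 : Λ ≤ Λ ^ 5 := by
    calc Λ = Λ ^ 1 := (pow_one _).symm
      _ ≤ Λ ^ 5 := pow_le_pow_right₀ hΛ (by norm_num)
  have e5 : 32 * 30 ^ 4 * 4 * Real.pi * CZ * M ^ 4 * ρ⁻¹ * μ ^ 3 * Λ ≤
      32 * 30 ^ 4 * 4 * Real.pi * CZ * M ^ 4 * ρ⁻¹ * μ ^ 3 * Λ ^ 5 :=
    mul_le_mul_of_nonneg_left e4 (by positivity)
  linarith

end M4N

open M4N in
theorem M4 : ∃ C : ℝ, 0 < C ∧ ∀ μ : ℝ, 0 < μ → μ ≤ 1 → ∀ ρ : ℝ, 64 ≤ ρ * μ →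
    ∀ G : E 3 → ℂ, Measurable G → ∀ M : ℝ, (∀ x, ‖G x‖ ≤ M) → (∀ x, x 2 ∉ band μ → G x = 0) →
    ∫⁻ x in {x : E 3 | ρ ^ 2 ≤ x 0 ^ 2 + x 1 ^ 2 ∧ x 0 ^ 2 + x 1 ^ 2 < (2 * ρ) ^ 2},
      ENNReal.ofReal (‖T (avg ((ρ * μ) ^ (-(1 / 2 : ℝ))) G) x‖ ^ 4) ≤
      ENNReal.ofReal (C * M ^ 4 * ρ⁻¹ * μ ^ 3 * (1 + Real.log (ρ * μ)) ^ 5) := by
  have hpi := Real.pi_pos
  have hfin : IsFiniteMeasure (sg 3) := sg_finite 3
  obtain ⟨CZ, hCZ, hZ⟩ := Zl
  obtain ⟨C1, hC1, h1⟩ := sin_int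
  obtain ⟨C2, hC2, h2⟩ := kap_int
  refine ⟨32 * 30 ^ 4 * 4 * Real.pi * CZ + 32 * 16 * 784 * C1 ^ 3 * 2 * Real.pi * 16 * CZ * 2 *
        (C1 + C2), by positivity, ?_⟩
  intro μ hμ hμ1 ρ hN64 G hG M hM hs
  have hN0 : 0 < ρ * μ := by linarith
  have hρ : 0 < ρ := by
    by_contra hcon
    push Not at hcon
    nlinarith
  have hM0 : 0 ≤ M := (norm_nonneg _).trans (hM 0)
  set N := ρ * μ with hNdef
  set δ : ℝ := N ^ (-(1 / 2 : ℝ)) with hδdef
  have hδ : 0 < δ := Real.rpow_pos_of_pos hN0 _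
  have hδ2 : δ ^ 2 * N = 1 := by
    rw [hδdef, ← Real.rpow_natCast, ← Real.rpow_mul hN0.le]
    have : (-(1 / 2 : ℝ) * ((2 : ℕ) : ℝ)) = -1 := by norm_num
    rw [this, Real.rpow_neg_one]
    exact inv_mul_cancel₀ hN0.ne'
  have hδ1 : δ ≤ 1 / 8 := by
    by_contra hcon
    push Not at hcon
    have h3 : (1 / 8 : ℝ) ^ 2 < δ ^ 2 := pow_lt_pow_left₀ hcon (by norm_num) (by norm_num)
    have h4 : (1 / 8 : ℝ) ^ 2 * N < δ ^ 2 * N := mul_lt_mul_of_pos_right h3 hN0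
    rw [hδ2] at h4
    linarith
  have hlogN : 0 ≤ Real.log N := Real.log_nonneg (by linarith)
  have hlogδ : Real.log (1 / δ) ≤ Real.log N := by
    rw [one_div, Real.log_inv, hδdef, Real.log_rpow hN0]
    linarith
  set Λ : ℝ := 1 + Real.log N with hΛ
  have hΛ1 : 1 ≤ Λ := by linarith
  have hlogδ0 : 0 ≤ Real.log (1 / δ) := Real.log_nonneg (by
    rw [le_div_iff₀ hδ]; linarith)
  have hmG : mG δ univ ≤ ENNReal.ofReal (C1 * Λ) := by
    refine (mG_univ (h1 δ hδ hδ1)).trans ?_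
    apply ENNReal.ofReal_le_ofReal
    apply mul_le_mul_of_nonneg_left _ hC1.le
    linarith
  have hZ' := hZ μ hμ hμ1 ρ (by linarith)
  have hV : ∀ γ θ : ℝ, ∫⁻ r in Icc ρ (2 * ρ), ∫⁻ z : ℝ, VG G (γ, r * Real.cos θ, z) ^ 4 ≤
      ENNReal.ofReal (CZ * M ^ 4 * μ ^ 5 * Λ) * kp N θ := fun γ θ =>
    hK_of_Zl hCZ hμ (by linarith) hZ' (bG G γ) (meas_bG1 G hG γ) M
      (fun c => bG_bound G hM γ c) (fun c hc => bG_supp G hs γ c hc) θ
  have hW : ∀ γ θ : ℝ, ∫⁻ r in Icc ρ (2 * ρ), ∫⁻ z : ℝ, VH G (γ, r * Real.cos θ, z) ^ 4 ≤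
      ENNReal.ofReal (CZ * (2 * M / μ) ^ 4 * μ ^ 5 * Λ) * kp N θ := fun γ θ =>
    hK_of_Zl hCZ hμ (by linarith) hZ' (bH G γ) (meas_bH1 G hG γ) (2 * M / μ)
      (fun c => bH_bound hμ G hM hs γ c) (fun c hc => bH_supp G hs γ c hc) θ
  have hmain := main_enn hμ G hG hM hs (δ := δ) (ρ := ρ) (N := N)
    (K1 := CZ * M ^ 4 * μ ^ 5 * Λ) (K2 := CZ * (2 * M / μ) ^ 4 * μ ^ 5 * Λ) (C1 := C1) (C2 := C2)
    (Λ := Λ) hδ hδ1 hρ hN0 (by positivity) (by positivity) hV hW hmG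
    (fun h => h2 N (by linarith) h) (by positivity) (by positivity)
  have hTm : Measurable (T (avg δ G)) := (L2.measurable_T _ (avg_meas δ G hG)).measurable
  refine (to_nu hρ _ hTm).trans ?_
  refine (mul_le_mul_right hmain _).trans ?_
  rw [← ENNReal.ofReal_mul (by positivity)]
  apply ENNReal.ofReal_le_ofReal
  exact final_real hCZ hC1 hC2 hμ hρ hΛ1 hδ2

end Pool.Agent.H789R2.FR
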