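import Mathlib
import Pool.Agent.H789R2.FR.Defs3
import Pool.Agent.H789R2.FR.E4
import Pool.Agent.H789R2.FR.Planch
import Pool.Agent.H789R2.FR.Zl

/-! Task Q6 refined. -/

set_option autoImplicit false

open MeasureTheory Set Complex
open scoped ENNReal

namespace Pool.Agent.H789R2.FR

namespace ZlAux

theorem Ex_sq_r (μ : ℝ) (hμ : 0 < μ) (hμ' : μ ≤ 1) (b : ℝ → ℂ) (hb : Measurable b) (B : ℝ)
    (hB : ∀ c, ‖b c‖ ≤ B) (hs : ∀ c, c ∉ band μ → b c = 0) (y : ℝ) :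
    ∫⁻ z : ℝ, ENNReal.ofReal (‖Ex b y z‖ ^ 2) ≤
      ENNReal.ofReal (2 * Real.pi * ∫ c, ‖b c‖ ^ 2) := by
  have hB0 : 0 ≤ B := (norm_nonneg _).trans (hB 0)
  have hsc : Measurable sc := by
    unfold sc
    exact (Continuous.sqrt (by fun_prop)).measurable
  have hF : Measurable fun c : ℝ => Complex.exp (-((y * sc c : ℝ) : ℂ) * I) * b c := by
    refine Measurable.mul ?_ hb
    refine Complex.continuous_exp.measurable.comp ?_
    refine Measurable.mul_const ?_ _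
    refine Measurable.neg ?_
    exact Complex.measurable_ofReal.comp (hsc.const_mul y)
  have h1 := pl_phase (Ioo (-1 : ℝ) 1) measurableSet_Ioo (by
      rw [Real.volume_Ioo]; exact ENNReal.ofReal_lt_top) (fun c => c) (fun _ => 1)
    measurable_id measurable_const (fun c _ => hasDerivWithinAt_id c _)
    (fun _ _ => one_ne_zero) (fun x _ y _ h => h)
    (fun c : ℝ => Complex.exp (-((y * sc c : ℝ) : ℂ) * I) * b c) hF
    ⟨B, fun c => by rw [norm_mul, norm_phase, one_mul]; exact hB c⟩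
  have hfin : volume (band μ) < ⊤ := (vol_band μ hμ hμ').trans_lt ENNReal.ofReal_lt_top
  have hlt : ∫⁻ c, ENNReal.ofReal (‖b c‖ ^ 2) < ⊤ := by
    calc ∫⁻ c, ENNReal.ofReal (‖b c‖ ^ 2)
        ≤ ∫⁻ c, (band μ).indicator (fun _ => ENNReal.ofReal (B ^ 2)) c := by
          refine lintegral_mono fun c => ?_
          simp only
          by_cases hc : c ∈ band μ
          · rw [indicator_of_mem hc]
            exact ENNReal.ofReal_le_ofReal (pow_le_pow_left₀ (norm_nonneg _) (hB c) 2)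
          · rw [indicator_of_notMem hc, hs c hc, norm_zero]
            simp
      _ ≤ ENNReal.ofReal (B ^ 2) * volume (band μ) := lintegral_indicator_const_le _ _
      _ < ⊤ := ENNReal.mul_lt_top ENNReal.ofReal_lt_top hfin
  have hint : Integrable (fun c => ‖b c‖ ^ 2) := by
    refine ⟨(hb.norm.pow_const 2).aestronglyMeasurable, ?_⟩
    rw [hasFiniteIntegral_iff_ofReal (Filter.Eventually.of_forall fun c => by positivity)]
    exact hlt
  calc ∫⁻ z : ℝ, ENNReal.ofReal (‖Ex b y z‖ ^ 2)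
      = ∫⁻ z : ℝ, ENNReal.ofReal (‖∫ c in Ioo (-1 : ℝ) 1,
        Complex.exp (-((z * c : ℝ) : ℂ) * I) *
          (Complex.exp (-((y * sc c : ℝ) : ℂ) * I) * b c)‖ ^ 2) := by
        refine lintegral_congr fun z => ?_
        congr 3
        unfold Ex
        refine setIntegral_congr_fun measurableSet_Ioo fun c _ => ?_
        rw [← mul_assoc, ← Complex.exp_add]
        congr 2
        push_cast
        ring
    _ ≤ _ := h1
    _ ≤ ENNReal.ofReal (2 * Real.pi) * ∫⁻ c, ENNReal.ofReal (‖b c‖ ^ 2) := by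
        refine mul_le_mul_right ?_ _
        refine (setLIntegral_le_lintegral _ _).trans (lintegral_mono fun c => ?_)
        simp only [abs_one, div_one]
        rw [norm_mul, norm_phase, one_mul]
    _ = ENNReal.ofReal (2 * Real.pi * ∫ c, ‖b c‖ ^ 2) := by
        rw [← ofReal_integral_eq_lintegral_ofReal hint
          (Filter.Eventually.of_forall fun c => by positivity),
          ← ENNReal.ofReal_mul (by positivity)]

theorem Ex_four_r (μ : ℝ) (hμ : 0 < μ) (hμ' : μ ≤ 1) (b : ℝ → ℂ) (hb : Measurable b) (B : ℝ)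
    (hB : ∀ c, ‖b c‖ ≤ B) (hs : ∀ c, c ∉ band μ → b c = 0) (y : ℝ) :
    ∫⁻ z : ℝ, ENNReal.ofReal (‖Ex b y z‖ ^ 4) ≤
      ENNReal.ofReal (8 * Real.pi * B ^ 2 * μ ^ 4 * ∫ c, ‖b c‖ ^ 2) := by
  have hB0 : 0 ≤ B := (norm_nonneg _).trans (hB 0)
  calc ∫⁻ z : ℝ, ENNReal.ofReal (‖Ex b y z‖ ^ 4)
      ≤ ∫⁻ z : ℝ, ENNReal.ofReal ((B * (2 * μ ^ 2)) ^ 2) * ENNReal.ofReal (‖Ex b y z‖ ^ 2) := by
        refine lintegral_mono fun z => ?_
        simp only
        rw [← ENNReal.ofReal_mul (by positivity)]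
        apply ENNReal.ofReal_le_ofReal
        have h1 := Ex_bound μ hμ hμ' b B hB hs y z
        have h2 := pow_le_pow_left₀ (norm_nonneg _) h1 2
        calc ‖Ex b y z‖ ^ 4 = ‖Ex b y z‖ ^ 2 * ‖Ex b y z‖ ^ 2 := by ring
          _ ≤ _ := by gcongr
    _ = ENNReal.ofReal ((B * (2 * μ ^ 2)) ^ 2) * ∫⁻ z : ℝ, ENNReal.ofReal (‖Ex b y z‖ ^ 2) :=
        lintegral_const_mul' _ _ ENNReal.ofReal_ne_top
    _ ≤ ENNReal.ofReal ((B * (2 * μ ^ 2)) ^ 2) *
        ENNReal.ofReal (2 * Real.pi * ∫ c, ‖b c‖ ^ 2) := by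
        gcongr
        exact Ex_sq_r μ hμ hμ' b hb B hB hs y
    _ = _ := by
        rw [← ENNReal.ofReal_mul (by positivity)]
        congr 1
        ring

end ZlAux

open ZlAux in
theorem Zlr : ∃ C : ℝ, 0 < C ∧ ∀ μ : ℝ, 0 < μ → μ ≤ 1 → ∀ ρ : ℝ, 1 ≤ ρ * μ →
    ∀ (b : ℝ → ℂ), Measurable b → ∀ B : ℝ, (∀ c, ‖b c‖ ≤ B) → (∀ c, c ∉ band μ → b c = 0) →
    ∀ θ : ℝ, ∫⁻ r in Icc ρ (2 * ρ), ∫⁻ z : ℝ, ENNReal.ofReal (‖Ex b (r * Real.cos θ) z‖ ^ 4) ≤
      ENNReal.ofReal (C * B ^ 2 * μ ^ 3 * (1 + Real.log (ρ * μ)) *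
        (ρ * μ / (1 + ρ * μ * |Real.cos θ|)) * ∫ c, ‖b c‖ ^ 2) := by
  obtain ⟨C4, hC4, h4⟩ := E4r
  have hpi := Real.pi_pos
  refine ⟨4 * C4 + 16 * Real.pi, by positivity, ?_⟩
  intro μ hμ hμ' ρ hρ b hb B hB hs θ
  have hB0 : 0 ≤ B := (norm_nonneg _).trans (hB 0)
  have hρ0 : 0 < ρ := by
    by_contra h
    push Not at h
    nlinarith
  have hN0 : 0 < ρ * μ := by positivity
  have hlog : 0 ≤ Real.log (ρ * μ) := Real.log_nonneg hρ
  set Q := ∫ c, ‖b c‖ ^ 2 with hQ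
  have hQ0 : 0 ≤ Q := integral_nonneg fun c => by positivity
  set a := |Real.cos θ| with ha
  have ha0 : 0 ≤ a := abs_nonneg _
  have ha1 : a ≤ 1 := Real.abs_cos_le_one θ
  rcases le_or_gt 1 (ρ * μ * a) with hN | hN
  · have hapos : 0 < a := by
      rcases ha0.lt_or_eq with h | h
      · exact h
      · rw [← h] at hN; norm_num at hN
    have hc : Real.cos θ ≠ 0 := abs_pos.1 hapos
    refine (scale (fun y => ∫⁻ z : ℝ, ENNReal.ofReal (‖Ex b y z‖ ^ 4)) (Real.cos θ) ρ hc ha1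
      hρ0.le).trans ?_
    have h5 := h4 μ hμ hμ' (2 * ρ) (by nlinarith) b hb B hB hs
    refine (mul_le_mul_right h5 _).trans ?_
    rw [← ENNReal.ofReal_mul (by positivity)]
    apply ENNReal.ofReal_le_ofReal
    have hl2 : Real.log (2 * ρ * μ) = Real.log 2 + Real.log (ρ * μ) := by
      rw [mul_assoc, Real.log_mul (by norm_num) hN0.ne']
    have hlog2 : Real.log 2 ≤ 1 := by
      have := Real.log_two_lt_d9
      linarith
    have e1 : 1 + Real.log (2 * ρ * μ) ≤ 2 * (1 + Real.log (ρ * μ)) := by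
      rw [hl2]; linarith
    have e2 : 1 / a ≤ 2 * (ρ * μ / (1 + ρ * μ * a)) := by
      rw [div_le_iff₀ hapos]
      have : 2 * (ρ * μ / (1 + ρ * μ * a)) * a = 2 * (ρ * μ * a) / (1 + ρ * μ * a) := by ring
      rw [this, le_div_iff₀ (by positivity)]
      linarith
    have e0 : 0 ≤ ρ * μ / (1 + ρ * μ * a) := by positivity
    have e4 : 0 ≤ Real.log (2 * ρ * μ) := by
      rw [hl2]
      have := Real.log_nonneg (one_le_two (α := ℝ))
      linarith
    calc 1 / a * (C4 * B ^ 2 * μ ^ 3 * (1 + Real.log (2 * ρ * μ)) * Q)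
        ≤ 2 * (ρ * μ / (1 + ρ * μ * a)) * (C4 * B ^ 2 * μ ^ 3 *
          (2 * (1 + Real.log (ρ * μ))) * Q) := by gcongr
      _ = 4 * C4 * (B ^ 2 * μ ^ 3 * (1 + Real.log (ρ * μ)) * (ρ * μ / (1 + ρ * μ * a)) * Q) := by
          ring
      _ ≤ (4 * C4 + 16 * Real.pi) * (B ^ 2 * μ ^ 3 * (1 + Real.log (ρ * μ)) *
          (ρ * μ / (1 + ρ * μ * a)) * Q) := by
          gcongr
          linarith
      _ = _ := by ring
  · calc ∫⁻ r in Icc ρ (2 * ρ), ∫⁻ z : ℝ, ENNReal.ofReal (‖Ex b (r * Real.cos θ) z‖ ^ 4)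
        ≤ ∫⁻ r in Icc ρ (2 * ρ), ENNReal.ofReal (8 * Real.pi * B ^ 2 * μ ^ 4 * Q) :=
          lintegral_mono fun r => Ex_four_r μ hμ hμ' b hb B hB hs _
      _ = ENNReal.ofReal (8 * Real.pi * B ^ 2 * μ ^ 4 * Q) * ENNReal.ofReal (2 * ρ - ρ) := by
          rw [setLIntegral_const, Real.volume_Icc]
      _ = ENNReal.ofReal (8 * Real.pi * B ^ 2 * μ ^ 4 * Q * (2 * ρ - ρ)) :=
          (ENNReal.ofReal_mul (by positivity)).symm
      _ ≤ _ := by
          apply ENNReal.ofReal_le_ofReal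
          have e2 : 1 ≤ 2 * (1 / (1 + ρ * μ * a)) := by
            rw [mul_one_div, le_div_iff₀ (by positivity)]
            linarith
          have e3 : 1 ≤ 1 + Real.log (ρ * μ) := by linarith
          calc 8 * Real.pi * B ^ 2 * μ ^ 4 * Q * (2 * ρ - ρ)
              = 8 * Real.pi * (B ^ 2 * μ ^ 3 * 1 * (ρ * μ * 1) * Q) := by ring
            _ ≤ 8 * Real.pi * (B ^ 2 * μ ^ 3 * (1 + Real.log (ρ * μ)) *
                (ρ * μ * (2 * (1 / (1 + ρ * μ * a)))) * Q) := by gcongr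
            _ = 16 * Real.pi * (B ^ 2 * μ ^ 3 * (1 + Real.log (ρ * μ)) *
                (ρ * μ / (1 + ρ * μ * a)) * Q) := by ring
            _ ≤ (4 * C4 + 16 * Real.pi) * (B ^ 2 * μ ^ 3 * (1 + Real.log (ρ * μ)) *
                (ρ * μ / (1 + ρ * μ * a)) * Q) := by
                gcongr
                linarith
            _ = _ := by ring

end Pool.Agent.H789R2.FR
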