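import Mathlib
import Pool.Agent.H789R2.FR.M4
import Pool.Agent.H789R2.FR.Zlr
set_option autoImplicit false

/-! Task Q10r: refined `L^4` bound for the smoothed part. -/

namespace Pool.Agent.H789R2.FR

open MeasureTheory Measure Set Metric Complex
open scoped ENNReal Pointwise RealInnerProductSpace

namespace M4R

open M4N

theorem perbhr (ρ : ℝ) (V : ℝ × ℝ × ℝ → ℝ≥0∞) (hV : Measurable V) (K : ℝ → ℝ≥0∞)
    (hKm : Measurable K) (Kt : ℝ≥0∞) (κ : ℝ → ℝ≥0∞)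
    (hK : ∀ γ θ : ℝ, ∫⁻ r in Icc ρ (2 * ρ), ∫⁻ z : ℝ, V (γ, r * Real.cos θ, z) ^ 4 ≤ K γ * κ θ)
    (hKt : ∀ β : ℝ, ∫⁻ α in Ioo (-Real.pi) Real.pi, K (α + β) ≤ Kt)
    (β h : ℝ) : ∫⁻ p, V (pp β h p) ^ 4 ∂(nu ρ) ≤ Kt * κ (β + h) := by
  have hm : Measurable fun p : ℝ × ℝ × ℝ => V (pp β h p) ^ 4 := by
    apply Measurable.pow_const
    apply hV.comp
    unfold pp
    fun_prop
  rw [nu_prod ρ _ hm]
  calc ∫⁻ α in Ioo (-Real.pi) Real.pi, ∫⁻ r in Icc ρ (2 * ρ), ∫⁻ z : ℝ,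
        V (pp β h (α, r, z)) ^ 4
      ≤ ∫⁻ α in Ioo (-Real.pi) Real.pi, K (α + β) * κ (β + h) :=
        lintegral_mono fun α => hK (α + β) (β + h)
    _ = (∫⁻ α in Ioo (-Real.pi) Real.pi, K (α + β)) * κ (β + h) := by
        have h0 : Measurable fun α => K (α + β) := hKm.comp (by fun_prop)
        rw [lintegral_mul_const _ h0]
    _ ≤ Kt * κ (β + h) := by
        gcongr
        exact hKt β

theorem genr (ρ : ℝ) (V : ℝ × ℝ × ℝ → ℝ≥0∞) (hV : Measurable V) (K : ℝ → ℝ≥0∞)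
    (hKm : Measurable K) (Kt : ℝ≥0∞) (κ : ℝ → ℝ≥0∞) (hκ : Measurable κ)
    (hK : ∀ γ θ : ℝ, ∫⁻ r in Icc ρ (2 * ρ), ∫⁻ z : ℝ, V (γ, r * Real.cos θ, z) ^ 4 ≤ K γ * κ θ)
    (hKt : ∀ β : ℝ, ∫⁻ α in Ioo (-Real.pi) Real.pi, K (α + β) ≤ Kt)
    (m n : Measure ℝ) [SFinite m] [SFinite n] (hn : n univ ≤ 1) (R : ℝ≥0∞)
    (hR : ∀ᵐ h ∂n, ∫⁻ β, κ (β + h) ∂m ≤ R) :
    ∫⁻ p, (∫⁻ β, ∫⁻ h, V (pp β h p) ∂n ∂m) ^ 4 ∂(nu ρ) ≤
      (m univ) ^ 3 * (Kt * R) := by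
  have hVp : Measurable fun q : (ℝ × ℝ) × (ℝ × ℝ × ℝ) => V (pp q.1.1 q.1.2 q.2) :=
    hV.comp measurable_pp
  have hm1 : ∀ p : ℝ × ℝ × ℝ, Measurable fun q : ℝ × ℝ => V (pp q.1 q.2 p) := fun p =>
    hVp.comp (measurable_id.prodMk measurable_const)
  have hm2 : ∀ p : ℝ × ℝ × ℝ, Measurable fun β : ℝ => ∫⁻ h, V (pp β h p) ∂n := fun p =>
    (hm1 p).lintegral_prod_right'
  have h1 : ∀ p : ℝ × ℝ × ℝ, (∫⁻ β, ∫⁻ h, V (pp β h p) ∂n ∂m) ^ 4 ≤
      (m univ) ^ 3 * ∫⁻ β, ∫⁻ h, V (pp β h p) ^ 4 ∂n ∂m := by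
    intro p
    refine (jensen4 m _ (hm2 p).aemeasurable).trans ?_
    gcongr with β
    refine (jensen4 n _ ((hm1 p).comp (measurable_const.prodMk measurable_id)).aemeasurable).trans ?_
    calc (n univ) ^ 3 * ∫⁻ h, V (pp β h p) ^ 4 ∂n ≤ 1 ^ 3 * ∫⁻ h, V (pp β h p) ^ 4 ∂n := by
          gcongr
      _ = _ := by rw [one_pow, one_mul]
  have hm4 : Measurable fun q : (ℝ × ℝ × ℝ) × (ℝ × ℝ) => V (pp q.2.1 q.2.2 q.1) ^ 4 :=
    (hVp.comp measurable_swap).pow_const 4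
  have hm5 : Measurable fun q : (ℝ × ℝ × ℝ) × ℝ => ∫⁻ h, V (pp q.2 h q.1) ^ 4 ∂n := by
    have : Measurable fun q : ((ℝ × ℝ × ℝ) × ℝ) × ℝ => V (pp q.1.2 q.2 q.1.1) ^ 4 :=
      hm4.comp ((measurable_fst.comp measurable_fst).prodMk
        ((measurable_snd.comp measurable_fst).prodMk measurable_snd))
    exact this.lintegral_prod_right'
  calc ∫⁻ p, (∫⁻ β, ∫⁻ h, V (pp β h p) ∂n ∂m) ^ 4 ∂(nu ρ)
      ≤ ∫⁻ p, (m univ) ^ 3 * ∫⁻ β, ∫⁻ h, V (pp β h p) ^ 4 ∂n ∂m ∂(nu ρ) := lintegral_mono h1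
    _ = (m univ) ^ 3 * ∫⁻ p, ∫⁻ β, ∫⁻ h, V (pp β h p) ^ 4 ∂n ∂m ∂(nu ρ) := by
        rw [lintegral_const_mul _ hm5.lintegral_prod_right']
    _ = (m univ) ^ 3 * ∫⁻ β, ∫⁻ p, ∫⁻ h, V (pp β h p) ^ 4 ∂n ∂(nu ρ) ∂m := by
        rw [lintegral_lintegral_swap hm5.aemeasurable]
    _ = (m univ) ^ 3 * ∫⁻ β, ∫⁻ h, ∫⁻ p, V (pp β h p) ^ 4 ∂(nu ρ) ∂n ∂m := by
        congr 1
        apply lintegral_congr
        intro β
        rw [lintegral_lintegral_swap]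
        apply Measurable.aemeasurable
        exact hm4.comp (measurable_fst.prodMk (measurable_const.prodMk measurable_snd))
    _ ≤ (m univ) ^ 3 * ∫⁻ β, ∫⁻ h, Kt * κ (β + h) ∂n ∂m := by
        gcongr with β h
        exact perbhr ρ V hV K hKm Kt κ hK hKt β h
    _ = (m univ) ^ 3 * ∫⁻ h, ∫⁻ β, Kt * κ (β + h) ∂m ∂n := by
        rw [lintegral_lintegral_swap]
        apply Measurable.aemeasurable
        have : Measurable fun q : ℝ × ℝ => κ (q.1 + q.2) := hκ.comp (by fun_prop)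
        exact this.const_mul Kt
    _ ≤ (m univ) ^ 3 * ∫⁻ h, Kt * R ∂n := by
        gcongr (m univ) ^ 3 * ?_
        apply lintegral_mono_ae
        filter_upwards [hR] with h hh
        have hmκ : Measurable fun β : ℝ => κ (β + h) := hκ.comp (by fun_prop)
        rw [lintegral_const_mul _ hmκ]
        gcongr
    _ ≤ _ := by
        rw [lintegral_const]
        calc (m univ) ^ 3 * (Kt * R * n univ) ≤ (m univ) ^ 3 * (Kt * R * 1) := by gcongr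
          _ = _ := by rw [mul_one]

theorem per_lint (f : ℝ → ℝ≥0∞) (hper : Function.Periodic f (2 * Real.pi)) (β : ℝ) :
    ∫⁻ α in Ioo (-Real.pi) Real.pi, f (α + β) = ∫⁻ α in Ioo (-Real.pi) Real.pi, f α := by
  have hpi := Real.pi_pos
  have e1 : ∀ g : ℝ → ℝ≥0∞, ∫⁻ α in Ioo (-Real.pi) Real.pi, g α =
      ∫⁻ α in Ioc (-Real.pi) Real.pi, g α := fun g => setLIntegral_congr Ioo_ae_eq_Ioc
  rw [e1, e1]
  have e2 : ∫⁻ α in Ioc (-Real.pi) Real.pi, f (α + β) =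
      ∫⁻ α in Ioc (-Real.pi + β) (Real.pi + β), f α := by
    rw [← lintegral_indicator measurableSet_Ioc, ← lintegral_indicator measurableSet_Ioc,
      ← lintegral_add_right_eq_self
        (fun α => (Ioc (-Real.pi + β) (Real.pi + β)).indicator (fun α => f α) α) β]
    apply lintegral_congr
    intro α
    by_cases h : α ∈ Ioc (-Real.pi) Real.pi
    · rw [indicator_of_mem h, indicator_of_mem]
      exact ⟨by linarith [h.1], by linarith [h.2]⟩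
    · rw [indicator_of_notMem h, indicator_of_notMem]
      rintro ⟨h1, h2⟩
      exact h ⟨by linarith, by linarith⟩
  rw [e2]
  have hT : (0 : ℝ) < 2 * Real.pi := by positivity
  have d1 := isAddFundamentalDomain_Ioc hT (-Real.pi + β) (volume : Measure ℝ)
  have d2 := isAddFundamentalDomain_Ioc hT (-Real.pi) (volume : Measure ℝ)
  rw [show -Real.pi + β + 2 * Real.pi = Real.pi + β by ring] at d1
  rw [show -Real.pi + 2 * Real.pi = Real.pi by ring] at d2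
  apply d1.setLIntegral_eq d2
  intro g x
  obtain ⟨g, k, rfl⟩ := g
  have := (hper.int_mul k) x
  show f (k • (2 * Real.pi) + x) = f x
  rw [zsmul_eq_mul, add_comm]
  exact this

/-- the squared mass along a meridian -/
noncomputable def ms (G : E 3 → ℂ) (γ : ℝ) : ℝ≥0∞ := ∫⁻ c : ℝ, ENNReal.ofReal (‖bG G γ c‖ ^ 2)

theorem meas_ms (G : E 3 → ℂ) (hG : Measurable G) : Measurable (ms G) := by
  have h : Measurable fun p : ℝ × ℝ => ENNReal.ofReal (‖bG G p.1 p.2‖ ^ 2) :=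
    ((meas_bG G hG).norm.pow_const 2).ennreal_ofReal
  exact h.lintegral_prod_right'

theorem band_sub_Ioo {μ : ℝ} : band μ ⊆ Ioo (-1 : ℝ) 1 := fun c hc => abs_lt.1 hc.1

theorem ms_eq {μ M : ℝ} (G : E 3 → ℂ) (hG : Measurable G) (hM : ∀ x, ‖G x‖ ≤ M)
    (hs : ∀ x, x 2 ∉ band μ → G x = 0) (γ : ℝ) :
    ms G γ = ENNReal.ofReal (∫ c, ‖bG G γ c‖ ^ 2) := by
  have hM0 : 0 ≤ M := (norm_nonneg _).trans (hM 0)
  have hint : Integrable fun c => ‖bG G γ c‖ ^ 2 := by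
    have h1 : Integrable ((Ioo (-1 : ℝ) 1).indicator fun _ => M ^ 2) :=
      (integrableOn_const (by simp)).integrable_indicator measurableSet_Ioo
    refine h1.mono' ((meas_bG1 G hG γ).norm.pow_const 2).aestronglyMeasurable
      (Filter.Eventually.of_forall fun c => ?_)
    rw [Real.norm_eq_abs, abs_of_nonneg (by positivity)]
    by_cases hc : c ∈ Ioo (-1 : ℝ) 1
    · rw [indicator_of_mem hc]
      exact pow_le_pow_left₀ (norm_nonneg _) (hM _) 2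
    · rw [indicator_of_notMem hc, bG_supp G hs γ c (fun h => hc (band_sub_Ioo h)), norm_zero]
      norm_num
  unfold ms
  rw [ofReal_integral_eq_lintegral_ofReal hint (Filter.Eventually.of_forall fun _ => by positivity)]

theorem pt_per (c γ : ℝ) : pt c (γ + 2 * Real.pi) = pt c γ := by
  unfold pt
  rw [Real.cos_add_two_pi, Real.sin_add_two_pi]

theorem ms_tot {μ M : ℝ} (G : E 3 → ℂ) (hG : Measurable G) (hM : ∀ x, ‖G x‖ ≤ M)
    (hs : ∀ x, x 2 ∉ band μ → G x = 0) (β : ℝ) :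
    ∫⁻ α in Ioo (-Real.pi) Real.pi, ms G (α + β) =
      ENNReal.ofReal (∫ w, ‖G w‖ ^ 2 ∂(sg 3)) := by
  have hfin : IsFiniteMeasure (sg 3) := sg_finite 3
  have hM0 : 0 ≤ M := (norm_nonneg _).trans (hM 0)
  have hper : Function.Periodic (ms G) (2 * Real.pi) := by
    intro γ
    unfold ms bG
    simp only [pt_per]
  rw [per_lint _ hper]
  have hint : Integrable (fun w => ‖G w‖ ^ 2) (sg 3) := by
    refine Integrable.mono' (integrable_const (M ^ 2)) (hG.norm.pow_const 2).aestronglyMeasurable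
      (Filter.Eventually.of_forall fun w => ?_)
    rw [Real.norm_eq_abs, abs_of_nonneg (by positivity)]
    exact pow_le_pow_left₀ (norm_nonneg _) (hM _) 2
  have hGm : Measurable fun x => ENNReal.ofReal (‖G x‖ ^ 2) := (hG.norm.pow_const 2).ennreal_ofReal
  rw [ofReal_integral_eq_lintegral_ofReal hint (Filter.Eventually.of_forall fun w => by positivity),
    arch _ hGm]
  have e1 : ∀ γ, ms G γ = ∫⁻ c in Ioo (-1 : ℝ) 1, ENNReal.ofReal (‖G (pt c γ)‖ ^ 2) := by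
    intro γ
    unfold ms
    rw [← lintegral_indicator measurableSet_Ioo]
    apply lintegral_congr
    intro c
    by_cases hc : c ∈ Ioo (-1 : ℝ) 1
    · rw [indicator_of_mem hc]; rfl
    · rw [indicator_of_notMem hc, bG_supp G hs γ c (fun h => hc (band_sub_Ioo h)), norm_zero]
      norm_num
  simp only [e1]
  rw [lintegral_lintegral_swap]
  apply Measurable.aemeasurable
  have hg : Measurable fun q : ℝ × ℝ => (q.2, q.1) := by fun_prop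
  have h0 := hGm.comp (measurable_pt.comp hg)
  exact h0

/-- the bound in `ENNReal` -/
theorem main_ennr {μ : ℝ} (hμ : 0 < μ) (G : E 3 → ℂ) (hG : Measurable G) {M : ℝ}
    (hM : ∀ x, ‖G x‖ ≤ M) (hs : ∀ x, x 2 ∉ band μ → G x = 0)
    {δ β0 ρ N K1 K2 C1 C2 Λ : ℝ} (hδ : 0 < δ) (hδβ : δ ≤ β0)
    (hβ1 : β0 ≤ 1 / 8) (hρ : 0 < ρ) (hN : 0 < N) (hK1 : 0 ≤ K1) (hK2 : 0 ≤ K2)
    (Kf Kg : ℝ → ℝ≥0∞) (hKf : Measurable Kf) (hKg : Measurable Kg)
    (hV : ∀ γ θ : ℝ, ∫⁻ r in Icc ρ (2 * ρ), ∫⁻ z : ℝ, VG G (γ, r * Real.cos θ, z) ^ 4 ≤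
      Kf γ * kp N θ)
    (hVt : ∀ β : ℝ, ∫⁻ α in Ioo (-Real.pi) Real.pi, Kf (α + β) ≤ ENNReal.ofReal K1)
    (hW : ∀ γ θ : ℝ, ∫⁻ r in Icc ρ (2 * ρ), ∫⁻ z : ℝ, VH G (γ, r * Real.cos θ, z) ^ 4 ≤
      Kg γ * kp N θ)
    (hWt : ∀ β : ℝ, ∫⁻ α in Ioo (-Real.pi) Real.pi, Kg (α + β) ≤ ENNReal.ofReal K2)
    (hC1 : mG β0 univ ≤ ENNReal.ofReal (C1 * Λ))
    (hC2 : ∀ h : ℝ, ∫⁻ β in Ioo (-Real.pi) Real.pi, ENNReal.ofReal (N / (1 + N * |Real.cos (β + h)|)) ≤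
      ENNReal.ofReal (C2 * Λ)) (hC10 : 0 ≤ C1 * Λ) (hC20 : 0 ≤ C2 * Λ) :
    ∫⁻ p, ‖T (avg δ G) (cyl p.2.1 p.1 p.2.2)‖ₑ ^ 4 ∂(nu ρ) ≤
      ENNReal.ofReal (16 * ((30 * β0) ^ 3 * (K1 * (2 * (30 * β0))) +
        (2 / (δ * ρ)) ^ 4 * (16 * 49 * ((C1 * Λ) ^ 3 *
          (K2 * (2 * (C1 * Λ) + 2 * (C2 * Λ))))))) := by
  have hβ0 : 0 < β0 := lt_of_lt_of_le hδ hδβ
  set c : ℝ≥0∞ := ENNReal.ofReal (2 / (δ * ρ)) with hc
  set SB : ℝ × ℝ × ℝ → ℝ≥0∞ := fun p =>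
    ∫⁻ β, ∫⁻ h, VG G (pp β h p) ∂(nd δ) ∂(volume.restrict (BAD β0)) with hSB
  set S1 : ℝ × ℝ × ℝ → ℝ≥0∞ := fun p =>
    ∫⁻ β, ∫⁻ h, VH G (pp β h p) ∂(Measure.dirac δ) ∂(mG β0) with hS1
  set S2 : ℝ × ℝ × ℝ → ℝ≥0∞ := fun p =>
    ∫⁻ β, ∫⁻ h, VH G (pp β h p) ∂(Measure.dirac 0) ∂(mG β0) with hS2
  set S3 : ℝ × ℝ × ℝ → ℝ≥0∞ := fun p =>
    ∫⁻ β, ∫⁻ h, VH G (pp β h p) ∂(nd δ) ∂(mG β0) with hS3
  have hmV := meas_VG G hG
  have hmW := meas_VH G hG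
  have mB : Measurable SB := meas_pair _ hmV _ _
  have m1 : Measurable S1 := meas_pair _ hmW _ _
  have m2 : Measurable S2 := meas_pair _ hmW _ _
  have m3 : Measurable S3 := meas_pair _ hmW _ _
  -- the four integrals
  have iB : ∫⁻ p, SB p ^ 4 ∂(nu ρ) ≤
      ENNReal.ofReal ((30 * β0) ^ 3 * (K1 * (2 * (30 * β0)))) := by
    have h := genr ρ (VG G) hmV Kf hKf (ENNReal.ofReal K1) (kp N) (meas_kp N) hV hVt
      (volume.restrict (BAD β0)) (nd δ) (nd_univ δ) (ENNReal.ofReal 2 * ENNReal.ofReal (30 * β0))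
      ((nd_ae δ).mono fun h hh => int_bad hN hβ0 hβ1 hh.1 (hh.2.trans hδβ))
    refine h.trans ?_
    rw [Measure.restrict_apply_univ]
    calc volume (BAD β0) ^ 3 * (ENNReal.ofReal K1 * (ENNReal.ofReal 2 * ENNReal.ofReal (30 * β0)))
        ≤ ENNReal.ofReal (30 * β0) ^ 3 *
          (ENNReal.ofReal K1 * (ENNReal.ofReal 2 * ENNReal.ofReal (30 * β0))) := by
          gcongr
          exact bad_vol β0 hβ0 hβ1
      _ = _ := by
          rw [← ENNReal.ofReal_pow (by positivity), ← ENNReal.ofReal_mul (by norm_num),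
            ← ENNReal.ofReal_mul hK1, ← ENNReal.ofReal_mul (by positivity)]
  have iG : ∀ (n : Measure ℝ) [SFinite n], n univ ≤ 1 → (∀ᵐ h ∂n, 0 ≤ h ∧ h ≤ δ) →
      ∫⁻ p, (∫⁻ β, ∫⁻ h, VH G (pp β h p) ∂n ∂(mG β0)) ^ 4 ∂(nu ρ) ≤
      ENNReal.ofReal ((C1 * Λ) ^ 3 * (K2 * (2 * (C1 * Λ) + 2 * (C2 * Λ)))) := by
    intro n _ hn hn2
    have h := genr ρ (VH G) hmW Kg hKg (ENNReal.ofReal K2) (kp N) (meas_kp N) hW hWt
      (mG β0) n hn (ENNReal.ofReal (2 * (C1 * Λ) + 2 * (C2 * Λ)))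
      (hn2.mono fun h hh => int_good hN hβ0 hβ1 hC1 hC2 hC10 hC20 hh.1 (hh.2.trans hδβ))
    refine h.trans ?_
    calc mG β0 univ ^ 3 * (ENNReal.ofReal K2 * ENNReal.ofReal (2 * (C1 * Λ) + 2 * (C2 * Λ)))
        ≤ ENNReal.ofReal (C1 * Λ) ^ 3 *
          (ENNReal.ofReal K2 * ENNReal.ofReal (2 * (C1 * Λ) + 2 * (C2 * Λ))) := by
          gcongr
      _ = _ := by
          rw [← ENNReal.ofReal_pow hC10,
            ← ENNReal.ofReal_mul hK2, ← ENNReal.ofReal_mul (by positivity)]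
  have i1 := iG (Measure.dirac δ) (by simp) (by
    rw [ae_dirac_iff (measurableSet_Icc (a := (0:ℝ)) (b := δ))]
    exact ⟨hδ.le, le_refl _⟩)
  have i2 := iG (Measure.dirac 0) (by simp) (by
    rw [ae_dirac_iff (measurableSet_Icc (a := (0:ℝ)) (b := δ))]
    exact ⟨le_refl _, hδ.le⟩)
  have i3 := iG (nd δ) (nd_univ δ) (nd_ae δ)
  set R : ℝ := (C1 * Λ) ^ 3 * (K2 * (2 * (C1 * Λ) + 2 * (C2 * Λ))) with hR
  have hR0 : 0 ≤ R := by positivity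
  calc ∫⁻ p, ‖T (avg δ G) (cyl p.2.1 p.1 p.2.2)‖ₑ ^ 4 ∂(nu ρ)
      ≤ ∫⁻ p, 16 * (SB p ^ 4 + c ^ 4 * (16 * (S1 p ^ 4 + 16 * (S2 p ^ 4 + S3 p ^ 4)))) ∂(nu ρ) := by
        apply lintegral_mono_ae
        filter_upwards [nu_ae ρ] with p hp
        have h1 := ptw hμ G hG hM hs hδ hδβ hρ p hp.1
        calc ‖T (avg δ G) (cyl p.2.1 p.1 p.2.2)‖ₑ ^ 4
            ≤ (SB p + c * (S1 p + (S2 p + S3 p))) ^ 4 := by gcongr
          _ ≤ 16 * (SB p ^ 4 + (c * (S1 p + (S2 p + S3 p))) ^ 4) := add4 _ _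
          _ ≤ _ := by
              rw [mul_pow]
              gcongr
              refine (add4 _ _).trans ?_
              gcongr
              exact add4 _ _
    _ = 16 * ((∫⁻ p, SB p ^ 4 ∂(nu ρ)) + c ^ 4 * (16 * ((∫⁻ p, S1 p ^ 4 ∂(nu ρ)) +
          16 * ((∫⁻ p, S2 p ^ 4 ∂(nu ρ)) + ∫⁻ p, S3 p ^ 4 ∂(nu ρ))))) := by
        have q1 := m1.pow_const 4
        have q2 := m2.pow_const 4
        have q3 := m3.pow_const 4
        have qB := mB.pow_const 4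
        rw [lintegral_const_mul _ (by fun_prop), lintegral_add_left qB,
          lintegral_const_mul _ (by fun_prop), lintegral_const_mul _ (by fun_prop),
          lintegral_add_left q1, lintegral_const_mul _ (by fun_prop), lintegral_add_left q2]
    _ ≤ 16 * (ENNReal.ofReal ((30 * β0) ^ 3 * (K1 * (2 * (30 * β0)))) +
          c ^ 4 * (16 * (ENNReal.ofReal R + 16 * (ENNReal.ofReal R + ENNReal.ofReal R)))) := by
        gcongr
    _ ≤ _ := by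
        have e16 : (16 : ℝ≥0∞) = ENNReal.ofReal 16 := by norm_num
        have h2 : ENNReal.ofReal R + 16 * (ENNReal.ofReal R + ENNReal.ofReal R) ≤
            ENNReal.ofReal (49 * R) := by
          rw [e16, ← ENNReal.ofReal_add hR0 hR0, ← ENNReal.ofReal_mul (by norm_num),
            ← ENNReal.ofReal_add hR0 (by positivity)]
          apply ENNReal.ofReal_le_ofReal
          linarith
        calc 16 * (ENNReal.ofReal ((30 * β0) ^ 3 * (K1 * (2 * (30 * β0)))) +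
              c ^ 4 * (16 * (ENNReal.ofReal R + 16 * (ENNReal.ofReal R + ENNReal.ofReal R))))
            ≤ 16 * (ENNReal.ofReal ((30 * β0) ^ 3 * (K1 * (2 * (30 * β0)))) +
              c ^ 4 * (16 * ENNReal.ofReal (49 * R))) := by gcongr
          _ = _ := by
              rw [e16, hc, ← ENNReal.ofReal_pow (by positivity),
                ← ENNReal.ofReal_mul (by norm_num), ← ENNReal.ofReal_mul (by positivity),
                ← ENNReal.ofReal_add (by positivity) (by positivity),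
                ← ENNReal.ofReal_mul (by norm_num)]
              congr 1
              ring

theorem final_realr {CZ C1 C2 M μ ρ δ β0 Λ J : ℝ} (hCZ : 0 < CZ) (hC1 : 0 < C1) (hC2 : 0 < C2)
    (hμ : 0 < μ) (hρ : 0 < ρ) (hδ : 0 < δ) (hΛ : 1 ≤ Λ) (hJ : 0 ≤ J)
    (hβ : β0 = 1 / (δ * (ρ * μ))) :
    2 * ρ * (16 * ((30 * β0) ^ 3 * ((CZ * M ^ 2 * μ ^ 3 * Λ * J) * (2 * (30 * β0))) +
        (2 / (δ * ρ)) ^ 4 * (16 * 49 * ((C1 * Λ) ^ 3 *
          ((16 * CZ * M ^ 2 * μ⁻¹ * Λ * J) * (2 * (C1 * Λ) + 2 * (C2 * Λ))))))) ≤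
      (32 * 30 ^ 3 * 60 * CZ + 32 * 16 * 784 * C1 ^ 3 * 16 * CZ * 2 * (C1 + C2)) * M ^ 2 * ρ *
        μ ^ 3 * (δ * (ρ * μ)) ^ (-4 : ℤ) * Λ ^ 5 * J := by
  have hz : (δ * (ρ * μ)) ^ (-4 : ℤ) = ((δ * (ρ * μ)) ^ 4)⁻¹ := by
    rw [zpow_neg]; norm_cast
  rw [hz]
  have e1 : 2 * ρ * (16 * ((30 * β0) ^ 3 * ((CZ * M ^ 2 * μ ^ 3 * Λ * J) * (2 * (30 * β0))))) =
      32 * 30 ^ 3 * 60 * CZ * M ^ 2 * ρ * μ ^ 3 * ((δ * (ρ * μ)) ^ 4)⁻¹ * Λ * J := by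
    rw [hβ]
    field_simp
    ring
  have e2 : 2 * ρ * (16 * ((2 / (δ * ρ)) ^ 4 * (16 * 49 * ((C1 * Λ) ^ 3 *
          ((16 * CZ * M ^ 2 * μ⁻¹ * Λ * J) * (2 * (C1 * Λ) + 2 * (C2 * Λ))))))) =
      32 * 16 * 784 * C1 ^ 3 * 16 * CZ * 2 * (C1 + C2) * M ^ 2 * ρ *
        μ ^ 3 * ((δ * (ρ * μ)) ^ 4)⁻¹ * Λ ^ 5 * J := by
    field_simp
    ring
  have e4 : Λ ≤ Λ ^ 5 := by
    calc Λ = Λ ^ 1 := (pow_one _).symm
      _ ≤ Λ ^ 5 := pow_le_pow_right₀ hΛ (by norm_num)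
  have e5 : 32 * 30 ^ 3 * 60 * CZ * M ^ 2 * ρ * μ ^ 3 * ((δ * (ρ * μ)) ^ 4)⁻¹ * Λ * J ≤
      32 * 30 ^ 3 * 60 * CZ * M ^ 2 * ρ * μ ^ 3 * ((δ * (ρ * μ)) ^ 4)⁻¹ * Λ ^ 5 * J :=
    mul_le_mul_of_nonneg_right (mul_le_mul_of_nonneg_left e4 (by positivity)) hJ
  linarith

end M4R

open M4N M4R in
theorem M4r : ∃ C : ℝ, 0 < C ∧ ∀ μ : ℝ, 0 < μ → μ ≤ 1 → ∀ ρ : ℝ, 64 ≤ ρ * μ →
    ∀ δ : ℝ, 8 / (ρ * μ) ≤ δ → δ ≤ (ρ * μ) ^ (-(1 / 2 : ℝ)) →
    ∀ G : E 3 → ℂ, Measurable G → ∀ M : ℝ, (∀ x, ‖G x‖ ≤ M) → (∀ x, x 2 ∉ band μ → G x = 0) →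
    ∫⁻ x in {x : E 3 | ρ ^ 2 ≤ x 0 ^ 2 + x 1 ^ 2 ∧ x 0 ^ 2 + x 1 ^ 2 < (2 * ρ) ^ 2},
      ENNReal.ofReal (‖T (avg δ G) x‖ ^ 4) ≤
      ENNReal.ofReal (C * M ^ 2 * ρ * μ ^ 3 * (δ * (ρ * μ)) ^ (-4 : ℤ) *
        (1 + Real.log (ρ * μ)) ^ 5 * ∫ w, ‖G w‖ ^ 2 ∂(sg 3)) := by
  have hfin : IsFiniteMeasure (sg 3) := sg_finite 3
  obtain ⟨CZ, hCZ, hZ⟩ := Zlr
  obtain ⟨C1, hC1, h1⟩ := sin_int
  obtain ⟨C2, hC2, h2⟩ := kap_int
  refine ⟨32 * 30 ^ 3 * 60 * CZ + 32 * 16 * 784 * C1 ^ 3 * 16 * CZ * 2 * (C1 + C2),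
    by positivity, ?_⟩
  intro μ hμ hμ1 ρ hN64 δ hδ8 hδN G hG M hM hs
  have hN0 : 0 < ρ * μ := by linarith
  have hρ : 0 < ρ := by
    by_contra hcon
    push Not at hcon
    nlinarith
  have hM0 : 0 ≤ M := (norm_nonneg _).trans (hM 0)
  set J : ℝ := ∫ w, ‖G w‖ ^ 2 ∂(sg 3) with hJdef
  have hJ0 : 0 ≤ J := integral_nonneg fun _ => by positivity
  set N := ρ * μ with hNdef
  have hδ : 0 < δ := lt_of_lt_of_le (by positivity) hδ8
  have hδ8' : 8 ≤ δ * N := by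
    rw [div_le_iff₀ hN0] at hδ8; exact hδ8
  have hδ2 : δ ^ 2 * N ≤ 1 := by
    have h3 : δ ^ 2 ≤ (N ^ (-(1 / 2 : ℝ))) ^ 2 := pow_le_pow_left₀ hδ.le hδN 2
    have h4 : (N ^ (-(1 / 2 : ℝ))) ^ 2 * N = 1 := by
      rw [← Real.rpow_natCast, ← Real.rpow_mul hN0.le]
      have : (-(1 / 2 : ℝ) * ((2 : ℕ) : ℝ)) = -1 := by norm_num
      rw [this, Real.rpow_neg_one]
      exact inv_mul_cancel₀ hN0.ne'
    calc δ ^ 2 * N ≤ (N ^ (-(1 / 2 : ℝ))) ^ 2 * N := mul_le_mul_of_nonneg_right h3 hN0.le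
      _ = 1 := h4
  have hδ1 : δ ≤ 1 := by
    by_contra hcon
    push Not at hcon
    have h3 : (1 : ℝ) < δ ^ 2 := by nlinarith
    nlinarith
  set β0 : ℝ := 1 / (δ * N) with hβ0def
  have hβpos : 0 < β0 := by positivity
  have hδβ : δ ≤ β0 := by
    rw [hβ0def, le_div_iff₀ (by positivity)]
    calc δ * (δ * N) = δ ^ 2 * N := by ring
      _ ≤ 1 := hδ2
  have hβ1 : β0 ≤ 1 / 8 := by
    rw [hβ0def]
    exact one_div_le_one_div_of_le (by norm_num) hδ8'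
  have hlogN : 0 ≤ Real.log N := Real.log_nonneg (by linarith)
  have hlogβ : Real.log (1 / β0) ≤ Real.log N := by
    rw [hβ0def, one_div_one_div]
    apply Real.log_le_log (by positivity)
    calc δ * N ≤ 1 * N := mul_le_mul_of_nonneg_right hδ1 hN0.le
      _ = N := one_mul _
  set Λ : ℝ := 1 + Real.log N with hΛ
  have hΛ1 : 1 ≤ Λ := by linarith
  have hmG : mG β0 univ ≤ ENNReal.ofReal (C1 * Λ) := by
    refine (mG_univ (h1 β0 hβpos hβ1)).trans ?_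
    apply ENNReal.ofReal_le_ofReal
    apply mul_le_mul_of_nonneg_left _ hC1.le
    linarith
  have hZ' := hZ μ hμ hμ1 ρ (by linarith)
  -- the bounds for every meridian
  set Kf : ℝ → ℝ≥0∞ := fun γ => ENNReal.ofReal (CZ * M ^ 2 * μ ^ 3 * Λ) * ms G γ with hKf
  set Kg : ℝ → ℝ≥0∞ := fun γ => ENNReal.ofReal (16 * CZ * M ^ 2 * μ⁻¹ * Λ) * ms G γ with hKg
  have hKfm : Measurable Kf := (meas_ms G hG).const_mul _
  have hKgm : Measurable Kg := (meas_ms G hG).const_mul _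
  have hV : ∀ γ θ : ℝ, ∫⁻ r in Icc ρ (2 * ρ), ∫⁻ z : ℝ, VG G (γ, r * Real.cos θ, z) ^ 4 ≤
      Kf γ * kp N θ := by
    intro γ θ
    have h := hZ' (bG G γ) (meas_bG1 G hG γ) M (fun c => bG_bound G hM γ c)
      (fun c hc => bG_supp G hs γ c hc) θ
    have e : ∫⁻ r in Icc ρ (2 * ρ), ∫⁻ z : ℝ, VG G (γ, r * Real.cos θ, z) ^ 4 =
        ∫⁻ r in Icc ρ (2 * ρ), ∫⁻ z : ℝ, ENNReal.ofReal (‖Ex (bG G γ) (r * Real.cos θ) z‖ ^ 4) := by
      apply lintegral_congr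
      intro r
      apply lintegral_congr
      intro z
      rw [ENNReal.ofReal_pow (norm_nonneg _), ofReal_norm]
      rfl
    rw [e]
    refine h.trans (le_of_eq ?_)
    simp only [hKf]
    unfold kp
    rw [ms_eq G hG hM hs γ, ← ENNReal.ofReal_mul (by positivity),
      ← ENNReal.ofReal_mul (mul_nonneg (by positivity) (integral_nonneg fun _ => by positivity))]
    congr 1
    ring
  have hW : ∀ γ θ : ℝ, ∫⁻ r in Icc ρ (2 * ρ), ∫⁻ z : ℝ, VH G (γ, r * Real.cos θ, z) ^ 4 ≤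
      Kg γ * kp N θ := by
    intro γ θ
    have h := hZ' (bH G γ) (meas_bH1 G hG γ) (2 * M / μ) (fun c => bH_bound hμ G hM hs γ c)
      (fun c hc => bH_supp G hs γ c hc) θ
    have e : ∫⁻ r in Icc ρ (2 * ρ), ∫⁻ z : ℝ, VH G (γ, r * Real.cos θ, z) ^ 4 =
        ∫⁻ r in Icc ρ (2 * ρ), ∫⁻ z : ℝ, ENNReal.ofReal (‖Ex (bH G γ) (r * Real.cos θ) z‖ ^ 4) := by
      apply lintegral_congr
      intro r
      apply lintegral_congr
      intro z
      rw [ENNReal.ofReal_pow (norm_nonneg _), ofReal_norm]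
      rfl
    rw [e]
    refine h.trans ?_
    simp only [hKg]
    unfold kp
    rw [ms_eq G hG hM hs γ, ← ENNReal.ofReal_mul (by positivity),
      ← ENNReal.ofReal_mul (mul_nonneg (by positivity) (integral_nonneg fun _ => by positivity))]
    apply ENNReal.ofReal_le_ofReal
    have hHG : ∫ c, ‖bH G γ c‖ ^ 2 ≤ (4 / μ ^ 2) * ∫ c, ‖bG G γ c‖ ^ 2 := by
      rw [← integral_const_mul]
      apply integral_mono_of_nonneg
      · exact Filter.Eventually.of_forall fun c => by positivity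
      · apply Integrable.const_mul
        have h1 : Integrable ((Ioo (-1 : ℝ) 1).indicator fun _ => M ^ 2) :=
          (integrableOn_const (by simp)).integrable_indicator measurableSet_Ioo
        refine h1.mono' ((meas_bG1 G hG γ).norm.pow_const 2).aestronglyMeasurable
          (Filter.Eventually.of_forall fun c => ?_)
        rw [Real.norm_eq_abs, abs_of_nonneg (by positivity)]
        by_cases hc : c ∈ Ioo (-1 : ℝ) 1
        · rw [indicator_of_mem hc]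
          exact pow_le_pow_left₀ (norm_nonneg _) (hM _) 2
        · rw [indicator_of_notMem hc, bG_supp G hs γ c (fun h => hc (band_sub_Ioo h)), norm_zero]
          norm_num
      · refine Filter.Eventually.of_forall fun c => ?_
        simp only
        by_cases hc : c ∈ band μ
        · obtain ⟨_, h2, _⟩ := hc
          have hsc : 0 < sc c := by linarith
          unfold bH bG
          rw [norm_div, norm_mul, norm_neg, Complex.norm_I, one_mul, Complex.norm_real,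
            Real.norm_eq_abs, abs_of_pos hsc, div_pow, div_le_iff₀ (by positivity)]
          have h3 : (μ / 2) ^ 2 ≤ sc c ^ 2 := pow_le_pow_left₀ (by positivity) h2.le 2
          have h4 : 1 ≤ 4 / μ ^ 2 * sc c ^ 2 := by
            rw [div_mul_eq_mul_div, le_div_iff₀ (by positivity)]
            nlinarith
          have h5 : 0 ≤ ‖G (pt c γ)‖ ^ 2 := by positivity
          nlinarith
        · rw [bH_supp G hs γ c hc, norm_zero, zero_pow two_ne_zero]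
          positivity
    have hint0 : 0 ≤ ∫ c, ‖bG G γ c‖ ^ 2 := integral_nonneg fun _ => by positivity
    have hk0 : 0 ≤ N / (1 + N * |Real.cos θ|) := by positivity
    calc CZ * (2 * M / μ) ^ 2 * μ ^ 3 * Λ * (N / (1 + N * |Real.cos θ|)) * ∫ c, ‖bH G γ c‖ ^ 2
        ≤ CZ * (2 * M / μ) ^ 2 * μ ^ 3 * Λ * (N / (1 + N * |Real.cos θ|)) *
          ((4 / μ ^ 2) * ∫ c, ‖bG G γ c‖ ^ 2) :=
          mul_le_mul_of_nonneg_left hHG (by positivity)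
      _ = 16 * CZ * M ^ 2 * μ⁻¹ * Λ * (∫ c, ‖bG G γ c‖ ^ 2) * (N / (1 + N * |Real.cos θ|)) := by
          field_simp
          ring
  have hVt : ∀ β : ℝ, ∫⁻ α in Ioo (-Real.pi) Real.pi, Kf (α + β) ≤
      ENNReal.ofReal (CZ * M ^ 2 * μ ^ 3 * Λ * J) := by
    intro β
    simp only [hKf]
    rw [lintegral_const_mul' _ _ ENNReal.ofReal_ne_top, ms_tot G hG hM hs β,
      ← ENNReal.ofReal_mul (by positivity)]
  have hWt : ∀ β : ℝ, ∫⁻ α in Ioo (-Real.pi) Real.pi, Kg (α + β) ≤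
      ENNReal.ofReal (16 * CZ * M ^ 2 * μ⁻¹ * Λ * J) := by
    intro β
    simp only [hKg]
    rw [lintegral_const_mul' _ _ ENNReal.ofReal_ne_top, ms_tot G hG hM hs β,
      ← ENNReal.ofReal_mul (by positivity)]
  have hmain := main_ennr hμ G hG hM hs (δ := δ) (β0 := β0) (ρ := ρ) (N := N)
    (K1 := CZ * M ^ 2 * μ ^ 3 * Λ * J) (K2 := 16 * CZ * M ^ 2 * μ⁻¹ * Λ * J) (C1 := C1) (C2 := C2)
    (Λ := Λ) hδ hδβ hβ1 hρ hN0 (by positivity) (by positivity) Kf Kg hKfm hKgm hV hVt hW hWt hmG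
    (fun h => h2 N (by linarith) h) (by positivity) (by positivity)
  have hTm : Measurable (T (avg δ G)) := (L2.measurable_T _ (avg_meas δ G hG)).measurable
  refine (to_nu hρ _ hTm).trans ?_
  refine (mul_le_mul_right hmain _).trans ?_
  rw [← ENNReal.ofReal_mul (by positivity)]
  apply ENNReal.ofReal_le_ofReal
  exact final_realr hCZ hC1 hC2 hμ hρ hδ hΛ1 hJ0 rfl

end Pool.Agent.H789R2.FR
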