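import Mathlib
import Pool.Agent.H789R2.FR.Sph
import Pool.Agent.H789R2.FR.M4r
import Pool.Agent.H789R2.FR.L2Cyl
import Pool.Agent.H789R2.FR.Interp
import Pool.Agent.H789R2.FR.Avg
set_option autoImplicit false

/-! Task Q13a: the smoothed part, by induction on the smoothing scale. -/

namespace Pool.Agent.H789R2.FR

open MeasureTheory Measure Set Metric Complex
open scoped ENNReal Pointwise RealInnerProductSpace

namespace SmP

/-! ### rotations -/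

theorem rot_rot (a b : ℝ) (x : E 3) : rot a (rot b x) = rot (a + b) x := by
  ext i
  fin_cases i
  · simp [rot, Real.cos_add, Real.sin_add]; ring
  · simp [rot, Real.cos_add, Real.sin_add]; ring
  · simp [rot]

theorem rot_zero (x : E 3) : rot 0 x = x := by
  ext i
  fin_cases i <;> simp [rot]

theorem rot_norm (h : ℝ) (x : E 3) : ‖rot h x‖ = ‖x‖ := by
  rw [EuclideanSpace.norm_eq, EuclideanSpace.norm_eq]
  congr 1
  simp only [Fin.sum_univ_three, Real.norm_eq_abs, sq_abs]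
  simp [rot]
  have := Real.sin_sq_add_cos_sq h
  linear_combination (x 0 ^ 2 + x 1 ^ 2) * this

/-- rotation as a linear isometry equivalence -/
noncomputable def rotL (h : ℝ) : E 3 ≃ₗᵢ[ℝ] E 3 where
  toFun := rot h
  invFun := rot (-h)
  left_inv x := by rw [rot_rot, neg_add_cancel, rot_zero]
  right_inv x := by rw [rot_rot, add_neg_cancel, rot_zero]
  map_add' x y := by
    ext i
    fin_cases i
    · simp [rot]; ring
    · simp [rot]; ring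
    · simp [rot]
  map_smul' c x := by
    ext i
    fin_cases i
    · simp [rot]; ring
    · simp [rot]; ring
    · simp [rot]
  norm_map' x := rot_norm h x

theorem rot_mp (h : ℝ) : MeasurePreserving (rot h) (sg 3) (sg 3) := sg_inv (rotL h)

theorem rot_cont : Continuous (fun p : E 3 × ℝ => rot (-p.2) p.1) := by
  unfold rot
  refine (PiLp.continuous_toLp 2 _).comp ?_
  refine continuous_pi ?_
  intro i
  fin_cases i
  · simp only [Fin.zero_eta, Matrix.cons_val_zero]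
    fun_prop
  · simp only [Fin.mk_one, Matrix.cons_val_one, Matrix.cons_val_zero]
    fun_prop
  · simp only [Fin.reduceFinMk, Matrix.cons_val]
    fun_prop

theorem G_meas (G : E 3 → ℂ) (hG : Measurable G) :
    Measurable (fun p : E 3 × ℝ => G (rot (-p.2) p.1)) :=
  hG.comp rot_cont.measurable

theorem G_meas_x (G : E 3 → ℂ) (hG : Measurable G) (x : E 3) :
    Measurable (fun h : ℝ => G (rot (-h) x)) :=
  (G_meas G hG).comp (measurable_const.prodMk measurable_id)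

theorem G_meas_h (G : E 3 → ℂ) (hG : Measurable G) (h : ℝ) :
    Measurable (fun x : E 3 => G (rot (-h) x)) :=
  (G_meas G hG).comp (measurable_id.prodMk measurable_const)

theorem G_int (G : E 3 → ℂ) (hG : Measurable G) (M : ℝ) (hM : ∀ x, ‖G x‖ ≤ M) (δ : ℝ) (x : E 3) :
    Integrable (fun h : ℝ => G (rot (-h) x)) (volume.restrict (Ioo (0 : ℝ) δ)) :=
  Integrable.of_bound (G_meas_x G hG x).aestronglyMeasurable M
    (Filter.Eventually.of_forall fun h => hM _)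

theorem cs_aux (δ : ℝ) (hδ : 0 < δ) (u : ℝ → ℝ) (hu : Measurable u) (M : ℝ)
    (hM : ∀ h, |u h| ≤ M) :
    (∫ h in Ioo (0:ℝ) δ, u h) ^ 2 ≤ δ * ∫ h in Ioo (0:ℝ) δ, u h ^ 2 := by
  set I := ∫ h in Ioo (0:ℝ) δ, u h with hI
  have h1 : Integrable u (volume.restrict (Ioo (0:ℝ) δ)) :=
    Integrable.of_bound hu.aestronglyMeasurable M
      (Filter.Eventually.of_forall (fun h => by simpa using hM h))
  have h2 : Integrable (fun h => u h ^ 2) (volume.restrict (Ioo (0:ℝ) δ)) := by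
    refine Integrable.of_bound (hu.pow_const 2).aestronglyMeasurable (M ^ 2)
      (Filter.Eventually.of_forall (fun h => ?_))
    rw [norm_pow, Real.norm_eq_abs]
    exact pow_le_pow_left₀ (abs_nonneg _) (hM h) 2
  have h3 : 0 ≤ ∫ h in Ioo (0:ℝ) δ, (u h - I / δ) ^ 2 := integral_nonneg (fun h => sq_nonneg _)
  have h4 : ∫ h in Ioo (0:ℝ) δ, (u h - I / δ) ^ 2 =
      (∫ h in Ioo (0:ℝ) δ, u h ^ 2) - 2 * (I / δ) * I + (I / δ) ^ 2 * δ := by
    have h5 : ∀ h, (u h - I / δ) ^ 2 = (u h ^ 2 - 2 * (I / δ) * u h) + (I / δ) ^ 2 := by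
      intro h; ring
    simp_rw [h5]
    rw [integral_add (f := fun h => u h ^ 2 - 2 * (I / δ) * u h) (g := fun _ => (I / δ) ^ 2)
      (h2.sub (h1.const_mul _)) (integrable_const _),
      integral_sub h2 (h1.const_mul _), integral_const_mul, integral_const]
    simp only [MeasurableSet.univ, measureReal_restrict_apply, univ_inter, Real.volume_real_Ioo,
      sub_zero, smul_eq_mul]
    rw [max_eq_left hδ.le]
    ring
  rw [h4] at h3
  have h6 : 2 * (I / δ) * I - (I / δ) ^ 2 * δ = I ^ 2 / δ := by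
    field_simp
    ring
  have h7 : I ^ 2 / δ ≤ ∫ h in Ioo (0:ℝ) δ, u h ^ 2 := by linarith
  rw [div_le_iff₀ hδ] at h7
  linarith

/-- averaging is a contraction of `L^2` -/
theorem avg_L2 (δ : ℝ) (hδ : 0 < δ) (f : E 3 → ℂ) (hf : Measurable f) (M : ℝ)
    (hM : ∀ x, ‖f x‖ ≤ M) :
    ∫ x, ‖avg δ f x‖ ^ 2 ∂(sg 3) ≤ ∫ x, ‖f x‖ ^ 2 ∂(sg 3) := by
  have hfin := sg_finite 3
  have hmeas2 : Measurable (fun p : E 3 × ℝ => ‖f (rot (-p.2) p.1)‖ ^ 2) :=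
    ((G_meas f hf).norm).pow_const 2
  have hpt : ∀ x : E 3, ‖avg δ f x‖ ^ 2 ≤
      δ⁻¹ * ∫ h in Ioo (0:ℝ) δ, ‖f (rot (-h) x)‖ ^ 2 := by
    intro x
    have h1 : ‖avg δ f x‖ ≤ δ⁻¹ * ∫ h in Ioo (0:ℝ) δ, ‖f (rot (-h) x)‖ := by
      unfold avg
      rw [norm_mul, norm_inv, Complex.norm_real, Real.norm_of_nonneg hδ.le]
      gcongr
      exact norm_integral_le_integral_norm _
    have h2 := cs_aux δ hδ (fun h => ‖f (rot (-h) x)‖)
      ((G_meas_x f hf x).norm) M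
      (fun h => by rw [abs_of_nonneg (norm_nonneg _)]; exact hM _)
    calc ‖avg δ f x‖ ^ 2 ≤ (δ⁻¹ * ∫ h in Ioo (0:ℝ) δ, ‖f (rot (-h) x)‖) ^ 2 :=
          pow_le_pow_left₀ (norm_nonneg _) h1 2
      _ = δ⁻¹ ^ 2 * (∫ h in Ioo (0:ℝ) δ, ‖f (rot (-h) x)‖) ^ 2 := by ring
      _ ≤ δ⁻¹ ^ 2 * (δ * ∫ h in Ioo (0:ℝ) δ, ‖f (rot (-h) x)‖ ^ 2) := by
          gcongr
      _ = δ⁻¹ * ∫ h in Ioo (0:ℝ) δ, ‖f (rot (-h) x)‖ ^ 2 := by
          field_simp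
  have hprod : Integrable (Function.uncurry fun (x : E 3) (h : ℝ) => ‖f (rot (-h) x)‖ ^ 2)
      ((sg 3).prod (volume.restrict (Ioo (0:ℝ) δ))) := by
    refine Integrable.of_bound hmeas2.aestronglyMeasurable (M ^ 2)
      (Filter.Eventually.of_forall (fun p => ?_))
    simp only [Function.uncurry]
    rw [norm_pow, norm_norm]
    exact pow_le_pow_left₀ (norm_nonneg _) (hM _) 2
  have hint_r : Integrable (fun x : E 3 => δ⁻¹ * ∫ h in Ioo (0:ℝ) δ, ‖f (rot (-h) x)‖ ^ 2)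
      (sg 3) := by
    refine Integrable.const_mul ?_ _
    exact hprod.integral_prod_left
  have hint_l : Integrable (fun x : E 3 => ‖avg δ f x‖ ^ 2) (sg 3) := by
    refine Integrable.of_bound
      (((avg_meas δ f hf).norm).pow_const 2).aestronglyMeasurable (M ^ 2)
      (Filter.Eventually.of_forall (fun x => ?_))
    rw [norm_pow, norm_norm]
    exact pow_le_pow_left₀ (norm_nonneg _) (avg_bound δ hδ f M hM x) 2
  have hrot : ∀ h : ℝ, ∫ x, ‖f (rot (-h) x)‖ ^ 2 ∂(sg 3) = ∫ x, ‖f x‖ ^ 2 ∂(sg 3) := by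
    intro h
    have e1 := (rot_mp (-h)).integral_comp (rotL (-h)).toHomeomorph.measurableEmbedding
      (fun x => ‖f x‖ ^ 2)
    exact e1
  calc ∫ x, ‖avg δ f x‖ ^ 2 ∂(sg 3)
      ≤ ∫ x, (δ⁻¹ * ∫ h in Ioo (0:ℝ) δ, ‖f (rot (-h) x)‖ ^ 2) ∂(sg 3) :=
        integral_mono hint_l hint_r hpt
    _ = δ⁻¹ * ∫ x, (∫ h in Ioo (0:ℝ) δ, ‖f (rot (-h) x)‖ ^ 2) ∂(sg 3) :=
        integral_const_mul _ _
    _ = δ⁻¹ * ∫ h in Ioo (0:ℝ) δ, (∫ x, ‖f (rot (-h) x)‖ ^ 2 ∂(sg 3)) := by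
        rw [integral_integral_swap hprod]
    _ = ∫ x, ‖f x‖ ^ 2 ∂(sg 3) := by
        simp_rw [hrot]
        rw [integral_const]
        simp only [MeasurableSet.univ, measureReal_restrict_apply, univ_inter,
          Real.volume_real_Ioo, sub_zero, smul_eq_mul]
        rw [max_eq_left hδ.le]
        field_simp

/-- averaging does not increase the modulus of continuity -/
theorem avg_reg (δ : ℝ) (hδ : 0 < δ) (G : E 3 → ℂ) (hG : Measurable G) (M : ℝ)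
    (hM : ∀ x, ‖G x‖ ≤ M) (h : ℝ) :
    ∫ x, ‖avg δ G (rot (-h) x) - avg δ G x‖ ^ 2 ∂(sg 3) ≤
      ∫ x, ‖G (rot (-h) x) - G x‖ ^ 2 ∂(sg 3) := by
  have e : ∀ x, avg δ G (rot (-h) x) - avg δ G x = avg δ (fun y => G (rot (-h) y) - G y) x := by
    intro x
    unfold avg
    rw [← mul_sub]
    congr 1
    rw [← integral_sub (G_int G hG M hM δ (rot (-h) x)) (G_int G hG M hM δ x)]
    congr 1
    ext t
    show G (rot (-t) (rot (-h) x)) - G (rot (-t) x) =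
      G (rot (-h) (rot (-t) x)) - G (rot (-t) x)
    rw [rot_rot, rot_rot (-h) (-t), add_comm (-t) (-h)]
  simp_rw [e]
  exact avg_L2 δ hδ (fun y => G (rot (-h) y) - G y) ((G_meas_h G hG h).sub hG) (M + M)
    (fun x => (norm_sub_le _ _).trans (add_le_add (hM _) (hM _)))

/-- averages commute -/
theorem avg_comm (δ δ' : ℝ) (G : E 3 → ℂ) (hG : Measurable G) (M : ℝ)
    (hM : ∀ x, ‖G x‖ ≤ M) (x : E 3) : avg δ (avg δ' G) x = avg δ' (avg δ G) x := by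
  have key : ∀ a b : ℝ, avg a (avg b G) x = (a : ℂ)⁻¹ * ((b : ℂ)⁻¹ *
      ∫ h in Ioo (0 : ℝ) a, ∫ t in Ioo (0 : ℝ) b, G (rot (-(h + t)) x)) := by
    intro a b
    unfold avg
    congr 1
    rw [← integral_const_mul]
    congr 1
    ext h
    congr 2
    ext t
    rw [rot_rot]
    congr 2
    ring
  rw [key, key]
  have hm : Measurable (fun q : ℝ × ℝ => G (rot (-(q.1 + q.2)) x)) :=
    (G_meas_x G hG x).comp (measurable_fst.add measurable_snd)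
  have hsw : ∫ h in Ioo (0 : ℝ) δ, ∫ t in Ioo (0 : ℝ) δ', G (rot (-(h + t)) x) =
      ∫ t in Ioo (0 : ℝ) δ', ∫ h in Ioo (0 : ℝ) δ, G (rot (-(h + t)) x) := by
    refine integral_integral_swap (f := fun h t => G (rot (-(h + t)) x)) ?_
    exact Integrable.of_bound hm.aestronglyMeasurable M (Filter.Eventually.of_forall fun q => hM _)
  rw [hsw]
  have e2 : ∀ t h : ℝ, G (rot (-(h + t)) x) = G (rot (-(t + h)) x) := by
    intro t h
    rw [add_comm]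
  simp_rw [e2 _ _]
  ring

theorem avg_sub (δ : ℝ) (G F : E 3 → ℂ) (hG : Measurable G) (hF : Measurable F) (M : ℝ)
    (hM : ∀ x, ‖G x‖ ≤ M) (hM' : ∀ x, ‖F x‖ ≤ M) (x : E 3) :
    avg δ (fun y => G y - F y) x = avg δ G x - avg δ F x := by
  unfold avg
  rw [integral_sub (G_int G hG M hM δ x) (G_int F hF M hM' δ x), mul_sub]

/-! ### the operator `T` -/

theorem T_cont {n : ℕ} (f : E n → ℂ) (hf : Measurable f) (M : ℝ) (hM : ∀ x, ‖f x‖ ≤ M) :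
    Continuous (T f) := by
  have := sg_finite n
  unfold T
  refine continuous_of_dominated (F := fun (x : E n) (w : E n) =>
    Complex.exp (-((⟪x, w⟫ : ℝ) : ℂ) * I) * f w) (bound := fun _ => M) ?_ ?_ ?_ ?_
  · intro x
    have h1 : Measurable fun w : E n => (⟪x, w⟫ : ℝ) := measurable_const.inner measurable_id
    have h2 : Measurable fun w : E n => Complex.exp (-((⟪x, w⟫ : ℝ) : ℂ) * I) * f w := by fun_prop
    exact h2.aestronglyMeasurable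
  · intro x
    refine Filter.Eventually.of_forall fun w => ?_
    rw [norm_mul]
    have : -((⟪x, w⟫ : ℝ) : ℂ) * I = ((-⟪x, w⟫ : ℝ) : ℂ) * I := by push_cast; ring
    rw [this, Complex.norm_exp_ofReal_mul_I, one_mul]
    exact hM w
  · exact integrable_const _
  · refine Filter.Eventually.of_forall fun w => ?_
    fun_prop

theorem T_add {n : ℕ} (f g : E n → ℂ) (hf : Measurable f) (hg : Measurable g) (M : ℝ)
    (hM : ∀ x, ‖f x‖ ≤ M) (hM' : ∀ x, ‖g x‖ ≤ M) (x : E n) :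
    T (fun y => f y + g y) x = T f x + T g x := by
  have := sg_finite n
  unfold T
  have h1 : Measurable fun w : E n => (⟪x, w⟫ : ℝ) := measurable_const.inner measurable_id
  have key : ∀ f : E n → ℂ, Measurable f → (∀ x, ‖f x‖ ≤ M) →
      Integrable (fun w => Complex.exp (-((⟪x, w⟫ : ℝ) : ℂ) * I) * f w) (sg n) := by
    intro f hf hM
    have h2 : Measurable fun w : E n => Complex.exp (-((⟪x, w⟫ : ℝ) : ℂ) * I) * f w := by fun_prop
    refine Integrable.of_bound h2.aestronglyMeasurable M (Filter.Eventually.of_forall fun w => ?_)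
    rw [norm_mul]
    have : -((⟪x, w⟫ : ℝ) : ℂ) * I = ((-⟪x, w⟫ : ℝ) : ℂ) * I := by push_cast; ring
    rw [this, Complex.norm_exp_ofReal_mul_I, one_mul]
    exact hM w
  rw [← integral_add (key f hf hM) (key g hg hM')]
  congr 1
  ext w
  ring

/-- the shell -/
def shell (ρ : ℝ) : Set (E 3) :=
  {x : E 3 | ρ ^ 2 ≤ x 0 ^ 2 + x 1 ^ 2 ∧ x 0 ^ 2 + x 1 ^ 2 < (2 * ρ) ^ 2}

theorem meas_shell (ρ : ℝ) : MeasurableSet (shell ρ) := by
  have h1 : Measurable fun x : E 3 => x 0 ^ 2 + x 1 ^ 2 := by fun_prop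
  exact (measurableSet_le measurable_const h1).inter (measurableSet_lt h1 measurable_const)

theorem add_rpow_le (x y p : ℝ) (hx : 0 ≤ x) (hy : 0 ≤ y) (hp : 0 ≤ p) :
    (x + y) ^ p ≤ 2 ^ p * (x ^ p + y ^ p) := by
  have hx' : 0 ≤ x ^ p := Real.rpow_nonneg hx _
  have hy' : 0 ≤ y ^ p := Real.rpow_nonneg hy _
  have h2 : (0 : ℝ) < 2 ^ p := by positivity
  rcases le_total x y with h | h
  · calc (x + y) ^ p ≤ (2 * y) ^ p := Real.rpow_le_rpow (by positivity) (by linarith) hp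
      _ = 2 ^ p * y ^ p := Real.mul_rpow (by norm_num) hy
      _ ≤ _ := by nlinarith
  · calc (x + y) ^ p ≤ (2 * x) ^ p := Real.rpow_le_rpow (by positivity) (by linarith) hp
      _ = 2 ^ p * x ^ p := Real.mul_rpow (by norm_num) hx
      _ ≤ _ := by nlinarith

/-- numerical interpolation -/
theorem num (p A1 A2 a b N μ Λ : ℝ) (hp : 3 < p) (hp' : p < 4) (hA1 : 0 ≤ A1) (hA2 : 0 ≤ A2)
    (hN0 : 0 < N) (hμ : 0 < μ) (hΛ : 1 ≤ Λ) :
    (A1 * N ^ a) ^ ((4 - p) / 2) * (A2 * μ ^ 4 * N ^ b * Λ ^ 5) ^ ((p - 2) / 2) ≤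
      A1 ^ ((4 - p) / 2) * A2 ^ ((p - 2) / 2) *
        (μ ^ (2 * (p - 2)) * (N ^ (a * ((4 - p) / 2) + b * ((p - 2) / 2)) * Λ ^ 5)) := by
  rw [Real.mul_rpow hA1 (by positivity), Real.mul_rpow (by positivity) (by positivity),
    Real.mul_rpow (by positivity) (by positivity), Real.mul_rpow hA2 (by positivity)]
  have h1 : (μ ^ 4) ^ ((p - 2) / 2) = μ ^ (2 * (p - 2)) := by
    rw [← Real.rpow_natCast, ← Real.rpow_mul hμ.le]
    congr 1
    push_cast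
    ring
  have h2 : (N ^ a) ^ ((4 - p) / 2) * (N ^ b) ^ ((p - 2) / 2) =
      N ^ (a * ((4 - p) / 2) + b * ((p - 2) / 2)) := by
    rw [← Real.rpow_mul hN0.le, ← Real.rpow_mul hN0.le, ← Real.rpow_add hN0]
  have h3 : (Λ ^ 5) ^ ((p - 2) / 2) ≤ Λ ^ 5 := by
    have h4 : (1 : ℝ) ≤ Λ ^ 5 := one_le_pow₀ hΛ
    calc (Λ ^ 5) ^ ((p - 2) / 2) ≤ (Λ ^ 5) ^ (1 : ℝ) :=
        Real.rpow_le_rpow_of_exponent_le h4 (by linarith)
      _ = Λ ^ 5 := Real.rpow_one _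
  rw [h1]
  calc A1 ^ ((4 - p) / 2) * (N ^ a) ^ ((4 - p) / 2) *
        (A2 ^ ((p - 2) / 2) * μ ^ (2 * (p - 2)) * (N ^ b) ^ ((p - 2) / 2) * (Λ ^ 5) ^ ((p - 2) / 2)) =
      A1 ^ ((4 - p) / 2) * A2 ^ ((p - 2) / 2) * (μ ^ (2 * (p - 2)) *
        (((N ^ a) ^ ((4 - p) / 2) * (N ^ b) ^ ((p - 2) / 2)) * (Λ ^ 5) ^ ((p - 2) / 2))) := by ring
    _ = A1 ^ ((4 - p) / 2) * A2 ^ ((p - 2) / 2) * (μ ^ (2 * (p - 2)) *
        (N ^ (a * ((4 - p) / 2) + b * ((p - 2) / 2)) * (Λ ^ 5) ^ ((p - 2) / 2))) := by rw [h2]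
    _ ≤ _ := by
      gcongr

/-- logarithms are absorbed -/
theorem log_abs (ε : ℝ) (hε : 0 < ε) (N : ℝ) (hN : 1 ≤ N) (e : ℝ) (he : e ≤ -(2 * ε)) :
    N ^ e * (1 + Real.log N) ^ 5 ≤ (1 + 5 / ε) ^ 5 * N ^ (-ε) := by
  have hN0 : 0 < N := by linarith
  have h1 : Real.log N ≤ N ^ (ε / 5) / (ε / 5) := Real.log_le_rpow_div hN0.le (by positivity)
  have h2 : 1 ≤ N ^ (ε / 5) := Real.one_le_rpow hN (by positivity)
  have h3 : 1 + Real.log N ≤ (1 + 5 / ε) * N ^ (ε / 5) := by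
    have : N ^ (ε / 5) / (ε / 5) = 5 / ε * N ^ (ε / 5) := by field_simp
    rw [this] at h1
    linarith
  have h0 : 0 ≤ 1 + Real.log N := by
    have := Real.log_nonneg hN
    linarith
  calc N ^ e * (1 + Real.log N) ^ 5 ≤ N ^ (-(2 * ε)) * ((1 + 5 / ε) * N ^ (ε / 5)) ^ 5 := by
        gcongr
    _ = (1 + 5 / ε) ^ 5 * (N ^ (-(2 * ε)) * (N ^ (ε / 5)) ^ 5) := by ring
    _ = (1 + 5 / ε) ^ 5 * N ^ (-ε) := by
        rw [← Real.rpow_natCast (N ^ (ε / 5)) 5, ← Real.rpow_mul hN0.le, ← Real.rpow_add hN0]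
        congr 2
        push_cast
        ring

/-- one application of the `L^2` and `L^4` bounds -/
theorem est (p : ℝ) (hp : 3 < p) (hp' : p < 4) (M K : ℝ) (hM0 : 0 ≤ M) (hK : 0 ≤ K) :
    ∃ C : ℝ, 0 ≤ C ∧ ∀ μ : ℝ, 0 < μ → μ ≤ 1 → ∀ ρ : ℝ, 512 ≤ ρ * μ →
    ∀ lam : ℝ, 1 / 2 ≤ lam → lam ≤ 2 / 3 →
    ∀ f : E 3 → ℂ, Measurable f → (∀ x, ‖f x‖ ≤ M) → (∀ x, x 2 ∉ band μ → f x = 0) →
    ∀ a : ℝ, ∫ x, ‖f x‖ ^ 2 ∂(sg 3) ≤ K * μ ^ 2 * (ρ * μ) ^ (-a) →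
    ∫⁻ x in shell ρ, ENNReal.ofReal (‖T (avg ((ρ * μ) ^ (-lam)) f) x‖ ^ p) ≤
      ENNReal.ofReal (C * (μ ^ (2 * (p - 2)) *
        ((ρ * μ) ^ ((1 - a) * ((4 - p) / 2) + (-3 + 4 * lam - a) * ((p - 2) / 2)) *
          (1 + Real.log (ρ * μ)) ^ 5))) := by
  obtain ⟨C2, hC2, h2⟩ := L2_cyl
  obtain ⟨C4, hC4, h4⟩ := M4r
  refine ⟨(2 * C2 * K) ^ ((4 - p) / 2) * (C4 * M ^ 2 * K) ^ ((p - 2) / 2), by positivity, ?_⟩
  intro μ hμ hμ1 ρ hρ lam hl hl' f hf hfM hfs a hfa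
  set N : ℝ := ρ * μ with hN
  have hN0 : 0 < N := by linarith
  have hρ0 : 0 < ρ := by
    by_contra hcon
    push Not at hcon
    have : ρ * μ ≤ 0 := mul_nonpos_of_nonpos_of_nonneg hcon hμ.le
    linarith
  have hρN : ρ = N / μ := by rw [hN]; field_simp
  set δ : ℝ := N ^ (-lam) with hδ
  have hδ0 : 0 < δ := by positivity
  have hgm : Measurable (avg δ f) := avg_meas δ f hf
  have hgb : ∀ x, ‖avg δ f x‖ ≤ M := avg_bound δ hδ0 f M hfM
  have hgs : ∀ x, x 2 ∉ band μ → avg δ f x = 0 := avg_supp δ μ f hfs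
  have hg2 : ∫ x, ‖avg δ f x‖ ^ 2 ∂(sg 3) ≤ K * μ ^ 2 * N ^ (-a) :=
    (avg_L2 δ hδ0 f hf M hfM).trans hfa
  have hsub : shell ρ ⊆ {x : E 3 | x 0 ^ 2 + x 1 ^ 2 ≤ (2 * ρ) ^ 2} := fun x hx => hx.2.le
  have ea2 : ∫⁻ x in shell ρ, ENNReal.ofReal (‖T (avg δ f) x‖ ^ 2) ≤
      ENNReal.ofReal (2 * C2 * K * N ^ (1 - a)) := by
    refine (lintegral_mono_set hsub).trans ((h2 μ hμ hμ1 (2 * ρ) (by positivity) (avg δ f) hgm
      ⟨M, hgb⟩ hgs).trans (ENNReal.ofReal_le_ofReal ?_))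
    have e2 : min (2 * ρ / μ) ((2 * ρ) ^ 2) ≤ 2 * ρ / μ := min_le_left _ _
    have e3 : 0 ≤ ∫ w, ‖avg δ f w‖ ^ 2 ∂(sg 3) := integral_nonneg fun _ => by positivity
    have e4 : N ^ (1 - a) = N * N ^ (-a) := by
      rw [sub_eq_add_neg, Real.rpow_add hN0, Real.rpow_one]
    calc C2 * min (2 * ρ / μ) ((2 * ρ) ^ 2) * ∫ w, ‖avg δ f w‖ ^ 2 ∂(sg 3) ≤
        C2 * (2 * ρ / μ) * (K * μ ^ 2 * N ^ (-a)) := by gcongr
      _ = 2 * C2 * K * N ^ (1 - a) := by rw [e4, hρN]; field_simp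
  have hd1 : 8 / (ρ * μ) ≤ δ := by
    have h8 : (8 : ℝ) ≤ N ^ (1 - lam) := by
      have e1 : (512 : ℝ) ^ (1 / 3 : ℝ) = 8 := by
        rw [show (512 : ℝ) = 8 ^ (3 : ℝ) by norm_num, ← Real.rpow_mul (by norm_num)]
        norm_num
      calc (8 : ℝ) = (512 : ℝ) ^ (1 / 3 : ℝ) := e1.symm
        _ ≤ N ^ (1 / 3 : ℝ) := Real.rpow_le_rpow (by norm_num) hρ (by norm_num)
        _ ≤ N ^ (1 - lam) := Real.rpow_le_rpow_of_exponent_le (by linarith) (by linarith)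
    rw [← hN, div_le_iff₀ hN0]
    have e2 : δ * N = N ^ (1 - lam) := by
      rw [hδ, sub_eq_add_neg, add_comm, Real.rpow_add hN0, Real.rpow_one]
    rw [e2]
    exact h8
  have hd2 : δ ≤ (ρ * μ) ^ (-(1 / 2 : ℝ)) :=
    Real.rpow_le_rpow_of_exponent_le (by linarith) (by linarith)
  have ea4 : ∫⁻ x in shell ρ, ENNReal.ofReal (‖T (avg δ f) x‖ ^ 4) ≤
      ENNReal.ofReal (C4 * M ^ 2 * K * μ ^ 4 * N ^ (-3 + 4 * lam - a) * (1 + Real.log N) ^ 5) := by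
    refine (h4 μ hμ hμ1 ρ (by linarith) δ hd1 hd2 f hf M hfM hfs).trans
      (ENNReal.ofReal_le_ofReal ?_)
    have hlog : 0 ≤ Real.log (ρ * μ) := Real.log_nonneg (by linarith)
    have e5 : (δ * (ρ * μ)) ^ (-4 : ℤ) = N ^ (-4 + 4 * lam) := by
      have e2 : δ * (ρ * μ) = N ^ (1 - lam) := by
        rw [← hN, hδ, sub_eq_add_neg, add_comm, Real.rpow_add hN0, Real.rpow_one]
      rw [e2, ← Real.rpow_intCast, ← Real.rpow_mul hN0.le]
      congr 1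
      push_cast
      ring
    have e6 : N ^ (-3 + 4 * lam - a) = N * N ^ (-4 + 4 * lam) * N ^ (-a) := by
      rw [show N * N ^ (-4 + 4 * lam) * N ^ (-a) = N ^ (1 : ℝ) * N ^ (-4 + 4 * lam) * N ^ (-a) by
        rw [Real.rpow_one], ← Real.rpow_add hN0, ← Real.rpow_add hN0]
      congr 1
      ring
    calc C4 * M ^ 2 * ρ * μ ^ 3 * (δ * (ρ * μ)) ^ (-4 : ℤ) *
        (1 + Real.log (ρ * μ)) ^ 5 * ∫ w, ‖f w‖ ^ 2 ∂(sg 3) ≤
        C4 * M ^ 2 * ρ * μ ^ 3 * (δ * (ρ * μ)) ^ (-4 : ℤ) *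
        (1 + Real.log (ρ * μ)) ^ 5 * (K * μ ^ 2 * N ^ (-a)) := by
          gcongr
      _ = C4 * M ^ 2 * K * μ ^ 4 * N ^ (-3 + 4 * lam - a) * (1 + Real.log N) ^ 5 := by
          rw [e5, e6, hρN]
          field_simp
  refine (interp_24 p (by linarith) hp' (shell ρ) (meas_shell ρ)
    (fun x => ‖T (avg δ f) x‖)
    (T_cont (avg δ f) hgm M hgb).norm.measurable (fun x => norm_nonneg _) _ _ ?_
    ?_ ea2 ea4).trans (ENNReal.ofReal_le_ofReal ?_)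
  · positivity
  · have hlog : 0 ≤ Real.log N := Real.log_nonneg (by linarith)
    positivity
  · have hlog : 0 ≤ Real.log N := Real.log_nonneg (by linarith)
    exact num p (2 * C2 * K) (C4 * M ^ 2 * K) (1 - a) (-3 + 4 * lam - a) N μ (1 + Real.log N)
      hp hp' (by positivity) (by positivity) hN0 hμ (by linarith)

/-- the statement at the scale `N^{-lam}` -/
def Stm (p s lam : ℝ) : Prop := ∀ M K : ℝ,
    0 ≤ M → 0 ≤ K → ∃ C ε : ℝ, 0 < C ∧ 0 < ε ∧ ∀ μ : ℝ, 0 < μ → μ ≤ 1 → ∀ ρ : ℝ, 512 ≤ ρ * μ →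
    ∀ G : E 3 → ℂ, Measurable G → (∀ x, ‖G x‖ ≤ M) → (∀ x, x 2 ∉ band μ → G x = 0) →
    (∀ h : ℝ, 0 < h → h ≤ 1 →
      ∫ x, ‖G (rot (-h) x) - G x‖ ^ 2 ∂(sg 3) ≤ K * h ^ (2 * s) * μ ^ 2) →
    ∫⁻ x in shell ρ,
      ENNReal.ofReal (‖T (avg ((ρ * μ) ^ (-lam)) G) x‖ ^ p) ≤
      ENNReal.ofReal (C * μ ^ (2 * (p - 2)) * (ρ * μ) ^ (-ε))

theorem base (p s : ℝ) (hp : 3 < p) (hp' : p < 4) : Stm p s (1 / 2) := by
  intro M K hM0 hK0
  obtain ⟨C, hC, h⟩ := est p hp hp' M (20 * M ^ 2) hM0 (by positivity)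
  refine ⟨C * (1 + 5 / ((p - 3) / 2)) ^ 5 + 1, (p - 3) / 2, ?_, by linarith, ?_⟩
  · have : 0 < (p - 3) / 2 := by linarith
    positivity
  intro μ hμ hμ1 ρ hρ G hG hGM hGs hreg
  have e1 := h μ hμ hμ1 ρ hρ (1 / 2) le_rfl (by norm_num) G hG hGM hGs 0 (by
    rw [neg_zero, Real.rpow_zero, mul_one]
    exact (band_mass μ hμ hμ1 G hG M hGM hGs).2)
  refine e1.trans (ENNReal.ofReal_le_ofReal ?_)
  have hε : 0 < (p - 3) / 2 := by linarith
  have e2 := log_abs ((p - 3) / 2) hε (ρ * μ) (by linarith)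
    ((1 - 0) * ((4 - p) / 2) + (-3 + 4 * (1 / 2) - 0) * ((p - 2) / 2)) (by linarith)
  have hm : 0 < μ ^ (2 * (p - 2)) := Real.rpow_pos_of_pos hμ _
  have hNε : 0 < (ρ * μ) ^ (-((p - 3) / 2)) := Real.rpow_pos_of_pos (by linarith) _
  calc C * (μ ^ (2 * (p - 2)) *
        ((ρ * μ) ^ ((1 - 0) * ((4 - p) / 2) + (-3 + 4 * (1 / 2) - 0) * ((p - 2) / 2)) *
          (1 + Real.log (ρ * μ)) ^ 5)) ≤
      C * (μ ^ (2 * (p - 2)) * ((1 + 5 / ((p - 3) / 2)) ^ 5 * (ρ * μ) ^ (-((p - 3) / 2)))) := by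
        gcongr
    _ = C * (1 + 5 / ((p - 3) / 2)) ^ 5 * μ ^ (2 * (p - 2)) * (ρ * μ) ^ (-((p - 3) / 2)) := by ring
    _ ≤ _ := by
        gcongr
        linarith

theorem step (p s : ℝ) (hp : 3 < p) (hp' : p < 4) (hs : 1 / 4 < s) (hs' : s ≤ 1)
    (lam0 lam : ℝ) (hl0 : 1 / 2 ≤ lam0) (hll : lam0 ≤ lam) (hl' : lam ≤ 2 / 3)
    (hstep : lam - (4 * s - 1) / (12 * s) ≤ lam0) (ih : Stm p s lam0) : Stm p s lam := by
  intro M K hM0 hK0
  obtain ⟨C1, ε1, hC1, hε1, h1⟩ := ih M K hM0 hK0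
  obtain ⟨C, hC, h⟩ := est p hp hp' (2 * M) K (by positivity) hK0
  set ε2 : ℝ := (4 * s - 1) / 12 with hε2d
  have hε2 : 0 < ε2 := by rw [hε2d]; linarith
  refine ⟨2 ^ p * (C1 + C * (1 + 5 / ε2) ^ 5), min ε1 ε2, by positivity, lt_min hε1 hε2, ?_⟩
  intro μ hμ hμ1 ρ hρ G hG hGM hGs hreg
  set N : ℝ := ρ * μ with hN
  have hN0 : 0 < N := by linarith
  have hN1 : 1 ≤ N := by linarith
  set δ : ℝ := N ^ (-lam) with hδ
  set δ0 : ℝ := N ^ (-lam0) with hδ0d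
  have hδ0 : 0 < δ := by positivity
  have hδ00 : 0 < δ0 := by positivity
  have hδ01 : δ0 ≤ 1 := Real.rpow_le_one_of_one_le_of_nonpos hN1 (by linarith)
  set G1 : E 3 → ℂ := avg δ G with hG1
  set G2 : E 3 → ℂ := fun x => G x - avg δ0 G x with hG2
  have hG1m : Measurable G1 := avg_meas δ G hG
  have hG1b : ∀ x, ‖G1 x‖ ≤ M := avg_bound δ hδ0 G M hGM
  have hG1s : ∀ x, x 2 ∉ band μ → G1 x = 0 := avg_supp δ μ G hGs
  have ha0m : Measurable (avg δ0 G) := avg_meas δ0 G hG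
  have ha0b : ∀ x, ‖avg δ0 G x‖ ≤ M := avg_bound δ0 hδ00 G M hGM
  have ha0s : ∀ x, x 2 ∉ band μ → avg δ0 G x = 0 := avg_supp δ0 μ G hGs
  have hG2m : Measurable G2 := hG.sub ha0m
  have hG2b : ∀ x, ‖G2 x‖ ≤ 2 * M := by
    intro x
    calc ‖G x - avg δ0 G x‖ ≤ ‖G x‖ + ‖avg δ0 G x‖ := norm_sub_le _ _
      _ ≤ 2 * M := by linarith [hGM x, ha0b x]
  have hG2s : ∀ x, x 2 ∉ band μ → G2 x = 0 := by
    intro x hx
    simp only [hG2]
    rw [hGs x hx, ha0s x hx, sub_zero]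
  have hG2L : ∫ x, ‖G2 x‖ ^ 2 ∂(sg 3) ≤ K * μ ^ 2 * N ^ (-(2 * lam0 * s)) := by
    have e1 := avg_diff δ0 hδ00 G hG ⟨M, hGM⟩ (K * μ ^ 2) s (by positivity) (by linarith)
      (fun t ht ht' => (hreg t ht (ht'.trans hδ01)).trans (le_of_eq (by ring)))
    refine e1.trans (le_of_eq ?_)
    rw [hδ0d, ← Real.rpow_mul hN0.le]
    congr 2
    ring
  -- the two pieces
  have eA : ∫⁻ x in shell ρ, ENNReal.ofReal (‖T (avg δ0 G1) x‖ ^ p) ≤
      ENNReal.ofReal (C1 * μ ^ (2 * (p - 2)) * N ^ (-ε1)) :=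
    h1 μ hμ hμ1 ρ hρ G1 hG1m hG1b hG1s (fun t ht ht' =>
      (avg_reg δ hδ0 G hG M hGM t).trans (hreg t ht ht'))
  have eB : ∫⁻ x in shell ρ, ENNReal.ofReal (‖T (avg δ G2) x‖ ^ p) ≤
      ENNReal.ofReal (C * (1 + 5 / ε2) ^ 5 * μ ^ (2 * (p - 2)) * N ^ (-ε2)) := by
    refine (h μ hμ hμ1 ρ hρ lam (hl0.trans hll) hl' G2 hG2m hG2b hG2s (2 * lam0 * s) hG2L).trans
      (ENNReal.ofReal_le_ofReal ?_)
    have hexp : (1 - 2 * lam0 * s) * ((4 - p) / 2) +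
        (-3 + 4 * lam - 2 * lam0 * s) * ((p - 2) / 2) ≤ -(2 * ε2) := by
      have hs0 : 0 < s := by linarith
      have hη : (4 * s - 1) / (12 * s) * s = (4 * s - 1) / 12 := by field_simp
      have h3 : (lam - (4 * s - 1) / (12 * s)) * s ≤ lam0 * s := by gcongr
      have h4 : lam * s - (4 * s - 1) / 12 ≤ lam0 * s := by
        rw [sub_mul, hη] at h3
        exact h3
      have h5 : lam * (1 - s) ≤ 2 / 3 * (1 - s) := by
        apply mul_le_mul_of_nonneg_right hl'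
        linarith
      have h6 : 0 ≤ (p - 3) * (1 - lam) := mul_nonneg (by linarith) (by linarith)
      have h7 : (1 - 2 * lam0 * s) * ((4 - p) / 2) +
        (-3 + 4 * lam - 2 * lam0 * s) * ((p - 2) / 2) =
          2 * lam - 2 * (lam0 * s) - 1 - 2 * ((p - 3) * (1 - lam)) := by ring
      rw [h7, hε2d]
      nlinarith
    have e2 := log_abs ε2 hε2 N hN1 _ hexp
    have hm : 0 < μ ^ (2 * (p - 2)) := Real.rpow_pos_of_pos hμ _
    calc C * (μ ^ (2 * (p - 2)) *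
        (N ^ ((1 - 2 * lam0 * s) * ((4 - p) / 2) +
          (-3 + 4 * lam - 2 * lam0 * s) * ((p - 2) / 2)) * (1 + Real.log N) ^ 5)) ≤
      C * (μ ^ (2 * (p - 2)) * ((1 + 5 / ε2) ^ 5 * N ^ (-ε2))) := by gcongr
      _ = _ := by ring
  have hTG : ∀ x, T (avg δ G) x = T (avg δ0 G1) x + T (avg δ G2) x := by
    intro x
    have e1 : avg δ G = fun y => avg δ0 G1 y + avg δ G2 y := by
      ext y
      have e3 : avg δ G2 y = avg δ G y - avg δ (avg δ0 G) y :=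
        avg_sub δ G (avg δ0 G) hG ha0m M hGM ha0b y
      rw [e3, avg_comm δ δ0 G hG M hGM y]
      ring
    have e2 := T_add (avg δ0 G1) (avg δ G2) (avg_meas δ0 G1 hG1m) (avg_meas δ G2 hG2m)
      (2 * M) (fun y => (avg_bound δ0 hδ00 G1 M hG1b y).trans (by linarith))
      (avg_bound δ hδ0 G2 (2 * M) hG2b) x
    rw [← e1] at e2
    exact e2
  have hpt : ∀ x, ENNReal.ofReal (‖T (avg δ G) x‖ ^ p) ≤ ENNReal.ofReal (2 ^ p) *
      (ENNReal.ofReal (‖T (avg δ0 G1) x‖ ^ p) + ENNReal.ofReal (‖T (avg δ G2) x‖ ^ p)) := by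
    intro x
    rw [← ENNReal.ofReal_add (by positivity) (by positivity), ← ENNReal.ofReal_mul (by positivity)]
    apply ENNReal.ofReal_le_ofReal
    rw [hTG x]
    calc ‖T (avg δ0 G1) x + T (avg δ G2) x‖ ^ p ≤
        (‖T (avg δ0 G1) x‖ + ‖T (avg δ G2) x‖) ^ p :=
        Real.rpow_le_rpow (norm_nonneg _) (norm_add_le _ _) (by linarith)
      _ ≤ _ := add_rpow_le _ _ p (norm_nonneg _) (norm_nonneg _) (by linarith)
  have hTam : Measurable fun x => ENNReal.ofReal (‖T (avg δ0 G1) x‖ ^ p) := by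
    have : Measurable fun x => ‖T (avg δ0 G1) x‖ :=
      (T_cont (avg δ0 G1) (avg_meas δ0 G1 hG1m) M
        (avg_bound δ0 hδ00 G1 M hG1b)).norm.measurable
    fun_prop
  have hμp : 0 < μ ^ (2 * (p - 2)) := Real.rpow_pos_of_pos hμ _
  calc ∫⁻ x in shell ρ, ENNReal.ofReal (‖T (avg δ G) x‖ ^ p) ≤
      ∫⁻ x in shell ρ, ENNReal.ofReal (2 ^ p) *
      (ENNReal.ofReal (‖T (avg δ0 G1) x‖ ^ p) + ENNReal.ofReal (‖T (avg δ G2) x‖ ^ p)) :=
        lintegral_mono hpt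
    _ = ENNReal.ofReal (2 ^ p) * ((∫⁻ x in shell ρ, ENNReal.ofReal (‖T (avg δ0 G1) x‖ ^ p)) +
        ∫⁻ x in shell ρ, ENNReal.ofReal (‖T (avg δ G2) x‖ ^ p)) := by
        rw [lintegral_const_mul' _ _ ENNReal.ofReal_ne_top, lintegral_add_left hTam]
    _ ≤ ENNReal.ofReal (2 ^ p) * (ENNReal.ofReal (C1 * μ ^ (2 * (p - 2)) * N ^ (-ε1)) +
        ENNReal.ofReal (C * (1 + 5 / ε2) ^ 5 * μ ^ (2 * (p - 2)) * N ^ (-ε2))) := by
        gcongr
    _ = ENNReal.ofReal (2 ^ p * (C1 * μ ^ (2 * (p - 2)) * N ^ (-ε1) +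
        C * (1 + 5 / ε2) ^ 5 * μ ^ (2 * (p - 2)) * N ^ (-ε2))) := by
        rw [← ENNReal.ofReal_add (by positivity) (by positivity),
          ← ENNReal.ofReal_mul (by positivity)]
    _ ≤ _ := by
        apply ENNReal.ofReal_le_ofReal
        have e1 : N ^ (-ε1) ≤ N ^ (-(min ε1 ε2)) :=
          Real.rpow_le_rpow_of_exponent_le hN1 (by linarith [min_le_left ε1 ε2])
        have e2 : N ^ (-ε2) ≤ N ^ (-(min ε1 ε2)) :=
          Real.rpow_le_rpow_of_exponent_le hN1 (by linarith [min_le_right ε1 ε2])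
        calc 2 ^ p * (C1 * μ ^ (2 * (p - 2)) * N ^ (-ε1) +
            C * (1 + 5 / ε2) ^ 5 * μ ^ (2 * (p - 2)) * N ^ (-ε2)) ≤
            2 ^ p * (C1 * μ ^ (2 * (p - 2)) * N ^ (-(min ε1 ε2)) +
            C * (1 + 5 / ε2) ^ 5 * μ ^ (2 * (p - 2)) * N ^ (-(min ε1 ε2))) := by gcongr
          _ = _ := by ring

theorem all (p s : ℝ) (hp : 3 < p) (hp' : p < 4) (hs : 1 / 4 < s) (hs' : s ≤ 1) (k : ℕ) :
    ∀ lam : ℝ, 1 / 2 ≤ lam → lam ≤ 2 / 3 → lam ≤ 1 / 2 + k * ((4 * s - 1) / (12 * s)) →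
      Stm p s lam := by
  have hη : 0 < (4 * s - 1) / (12 * s) := by
    have h1 : 0 < 4 * s - 1 := by linarith
    have h2 : 0 < 12 * s := by linarith
    positivity
  induction k with
  | zero =>
    intro lam h1 _ h3
    have : lam = 1 / 2 := by
      apply le_antisymm _ h1
      simpa using h3
    rw [this]
    exact base p s hp hp'
  | succ k ih =>
    intro lam h1 h2 h3
    set η := (4 * s - 1) / (12 * s) with hηd
    have hk : 0 ≤ (k : ℝ) * η := by positivity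
    have hm1 : 1 / 2 ≤ max (1 / 2) (lam - η) := le_max_left _ _
    have hm2 : max (1 / 2) (lam - η) ≤ lam := max_le h1 (by linarith)
    refine step p s hp hp' hs hs' (max (1 / 2) (lam - η)) lam hm1 hm2 h2 (le_max_right _ _) ?_
    apply ih _ hm1 (hm2.trans h2)
    apply max_le (by linarith)
    push_cast at h3
    linarith

end SmP

/-- Task Q13a: the smoothed part, by induction on the smoothing scale -/
theorem smooth_part (p s : ℝ) (hp : 3 < p) (hp' : p < 4) (hs : 1 / 4 < s) (hs' : s ≤ 1)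
    (lam : ℝ) (hl : 1 / 2 ≤ lam) (hl' : lam ≤ 2 / 3) : ∀ M K : ℝ,
    0 ≤ M → 0 ≤ K → ∃ C ε : ℝ, 0 < C ∧ 0 < ε ∧ ∀ μ : ℝ, 0 < μ → μ ≤ 1 → ∀ ρ : ℝ, 512 ≤ ρ * μ →
    ∀ G : E 3 → ℂ, Measurable G → (∀ x, ‖G x‖ ≤ M) → (∀ x, x 2 ∉ band μ → G x = 0) →
    (∀ h : ℝ, 0 < h → h ≤ 1 →
      ∫ x, ‖G (rot (-h) x) - G x‖ ^ 2 ∂(sg 3) ≤ K * h ^ (2 * s) * μ ^ 2) →
    ∫⁻ x in {x : E 3 | ρ ^ 2 ≤ x 0 ^ 2 + x 1 ^ 2 ∧ x 0 ^ 2 + x 1 ^ 2 < (2 * ρ) ^ 2},
      ENNReal.ofReal (‖T (avg ((ρ * μ) ^ (-lam)) G) x‖ ^ p) ≤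
      ENNReal.ofReal (C * μ ^ (2 * (p - 2)) * (ρ * μ) ^ (-ε)) := by
  have hη : 0 < (4 * s - 1) / (12 * s) := by
    have h1 : 0 < 4 * s - 1 := by linarith
    have h2 : 0 < 12 * s := by linarith
    positivity
  obtain ⟨k, hk⟩ := exists_nat_gt (1 / ((4 * s - 1) / (12 * s)))
  have hk2 : 1 < k * ((4 * s - 1) / (12 * s)) := by
    rwa [div_lt_iff₀ hη] at hk
  exact SmP.all p s hp hp' hs hs' k lam hl hl' (by linarith)

end Pool.Agent.H789R2.FR
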