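import Mathlib
import Pool.Agent.H789R2.FR.Core
set_option autoImplicit false

/-! Stubs for theorem 1': bounded densities in `H^s`, `s > (n-1)/(2(2n-1))`, all `n`. -/

namespace Pool.Agent.H789R2.FR

open MeasureTheory Measure Set Metric Complex
open scoped ENNReal Pointwise RealInnerProductSpace

/- Task U1 -> Pool/Agent/H789R2/FR/Caps.lean -/
theorem cap_upper_stub (n : ℕ) (hn : 2 ≤ n) : ∃ C : ℝ, 0 < C ∧ ∀ κ : ℝ, 0 < κ → ∀ y : E n,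
    ‖y‖ = 1 → (sg n).real {w | ‖y - w‖ < κ} ≤ C * κ ^ (n - 1) := sorry

theorem cap_lower_stub (n : ℕ) (hn : 2 ≤ n) : ∃ c : ℝ, 0 < c ∧ ∀ κ : ℝ, 0 < κ → κ ≤ 1 →
    ∀ y : E n, ‖y‖ = 1 → c * κ ^ (n - 1) ≤ (sg n).real {w | ‖y - w‖ < κ} := sorry

/- Task U2 -> Pool/Agent/H789R2/FR/Tail.lean -/
theorem tail_stub (n : ℕ) (hn : 2 ≤ n) : ∃ C : ℝ, 0 < C ∧ ∀ R : ℝ, 1 ≤ R → ∀ x : E n, x ≠ 0 →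
    ‖x‖ ≤ 4 * R → ∀ g : E n → ℂ, Measurable g → ∀ M : ℝ, (∀ y, ‖g y‖ ≤ M) → ∀ κ : ℝ, 0 < κ →
    (∀ w : E n, ‖w‖ = 1 → ‖(‖x‖⁻¹ • x) - w‖ < κ → g w = 0) →
    (∀ w : E n, ‖w‖ = 1 → ‖(‖x‖⁻¹ • x) + w‖ < κ → g w = 0) →
    ‖T (A R g) x‖ ≤ C * M * Real.exp (-(‖x‖ ^ 2 * κ ^ 2 / (200 * R))) := sorry

/- Task U3 -> Pool/Agent/H789R2/FR/AOp.lean -/
theorem A_L2_stub (n : ℕ) (hn : 2 ≤ n) (R : ℝ) (hR : 0 < R) (g : E n → ℂ) (hg : Measurable g)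
    (hb : ∃ M : ℝ, ∀ x, ‖g x‖ ≤ M) :
    ∫ w, ‖A R g w‖ ^ 2 ∂(sg n) ≤ ∫ w, ‖g w‖ ^ 2 ∂(sg n) := sorry

theorem A_sub_stub (n : ℕ) (R : ℝ) (hR : 0 < R) (g h : E n → ℂ) (hg : Measurable g)
    (hh : Measurable h) (hb : ∃ M : ℝ, ∀ x, ‖g x‖ ≤ M) (hb' : ∃ M : ℝ, ∀ x, ‖h x‖ ≤ M) (y : E n) :
    A R (fun x => g x - h x) y = A R g y - A R h y := sorry

theorem A_comm_stub (n : ℕ) (hn : 2 ≤ n) (R R' : ℝ) (hR : 0 < R) (hR' : 0 < R') (g : E n → ℂ)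
    (hg : Measurable g) (hb : ∃ M : ℝ, ∀ x, ‖g x‖ ≤ M) (y : E n) (hy : ‖y‖ = 1) :
    A R (A R' g) y = A R' (A R g) y := sorry

/- Task U4 -> Pool/Agent/H789R2/FR/Block.lean (uses U1, U2, U3, Lp_bound) -/
theorem block_stub (n : ℕ) (hn : 2 ≤ n) (p : ℝ) (hp : 2 < p)
    (hp' : p < 2 * ((n : ℝ) + 1) / ((n : ℝ) - 1)) (ε : ℝ) (hε : 0 < ε) : ∃ C : ℝ, 0 < C ∧
    ∀ ρ : ℝ, 1 ≤ ρ → ∀ R : ℝ, 1 ≤ R → ρ / 2 ≤ R → ρ ^ ε * R ^ (1 / 2 : ℝ) ≤ ρ →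
    ∀ g : E n → ℂ, Measurable g → ∀ M : ℝ, (∀ x, ‖g x‖ ≤ M) →
    ∫⁻ x in {x : E n | ρ ≤ ‖x‖ ∧ ‖x‖ < 2 * ρ}, ENNReal.ofReal (‖T (A R g) x‖ ^ p) ≤
      ENNReal.ofReal (C * (ρ ^ (1 - ((n : ℝ) - 1) * (p - 2) / 4) *
        (ρ ^ ε * R ^ (1 / 2 : ℝ) / ρ) ^ (((n : ℝ) - 1) * (p - 2) / 2) * M ^ (p - 2) *
          (∫ w, ‖g w‖ ^ 2 ∂(sg n)) + M ^ p * ρ ^ (-1 : ℝ))) := sorry

/- Task U5 -> Pool/Agent/H789R2/FR/Induct.lean (uses U3, U4, smooth_bound) -/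
theorem induct_stub (n : ℕ) (hn : 2 ≤ n) (s : ℝ) (hs : ((n : ℝ) - 1) / (2 * (2 * n - 1)) < s)
    (hs' : s ≤ 1 / 2) (p : ℝ) (hp : 2 * (n : ℝ) / ((n : ℝ) - 1) < p)
    (hp' : p < 2 * ((n : ℝ) + 1) / ((n : ℝ) - 1)) (lam : ℝ) (hl : 1 / 2 ≤ lam)
    (hl' : lam ≤ (2 * (n : ℝ) - 1) / (2 * n)) (M K : ℝ) (hM : 0 ≤ M) (hK : 0 ≤ K) :
    ∃ C ε : ℝ, 0 < C ∧ 0 < ε ∧ ∀ ρ : ℝ, 2 ≤ ρ → ∀ g : E n → ℂ, Measurable g →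
      (∀ x, ‖g x‖ ≤ M) →
      (∀ R : ℝ, 1 ≤ R → ∫ w, ‖g w - A R g w‖ ^ 2 ∂(sg n) ≤ K * R ^ (-s)) →
      ∫⁻ x in {x : E n | ρ ≤ ‖x‖ ∧ ‖x‖ < 2 * ρ},
        ENNReal.ofReal (‖T (A (ρ ^ (2 * lam) / 2) g) x‖ ^ p) ≤
        ENNReal.ofReal (C * ρ ^ (-ε)) := sorry

/- Task U6 -> Pool/Agent/H789R2/FR/Core1.lean (uses U5, Lp_bound) -/
theorem core1_stub (n : ℕ) (hn : 2 ≤ n) (s : ℝ) (hs : ((n : ℝ) - 1) / (2 * (2 * n - 1)) < s)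
    (g : E n → ℂ) (hg : Measurable g) (M : ℝ) (hM : ∀ x, ‖g x‖ ≤ M) (K : ℝ) (hK : 0 ≤ K)
    (hreg : ∀ R : ℝ, 1 ≤ R → ∫ w, ‖g w - A R g w‖ ^ 2 ∂(sg n) ≤ K * R ^ (-s))
    (p : ℝ) (hp : 2 * (n : ℝ) / ((n : ℝ) - 1) < p) :
    ∫⁻ x, ENNReal.ofReal (‖T g x‖ ^ p) < ∞ := sorry

end Pool.Agent.H789R2.FR
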