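import Mathlib
import Pool.Agent.H789R2.FR.Defs6
set_option autoImplicit false

/-! Stubs for the theorem in `ℝ^3` with regularity only in longitude, threshold `1/5`. -/

namespace Pool.Agent.H789R2.FR

open MeasureTheory Measure Set Metric Complex
open scoped ENNReal Pointwise RealInnerProductSpace

/- Task V1 -> Pool/Agent/H789R2/FR/Ker.lean -/
theorem kz_lower_stub (κ : ℝ) (hκ : 1 ≤ κ) : κ ^ (-(1 / 2 : ℝ)) ≤ kz κ := sorry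

theorem ker_bound_stub (κ : ℝ) (hκ : 1 ≤ κ) (ν θ : ℝ) (hν : |ν| ≤ 2 * κ) :
    ‖∫ h in Ioo (-Real.pi) Real.pi, ((Real.exp (-κ * (1 - Real.cos h)) : ℝ) : ℂ) *
      Complex.exp (-((ν * Real.cos (θ + h) : ℝ) : ℂ) * I)‖ ≤
      2 * Real.pi * Real.exp (-(ν ^ 2 * Real.sin θ ^ 2) / (10 * κ)) := sorry

/- Task V2 -> Pool/Agent/H789R2/FR/AvOp.lean -/
theorem Av_meas_stub (κ : ℝ) (G : E 3 → ℂ) (hG : Measurable G) : Measurable (Av κ G) := sorry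

theorem Av_bound_stub (κ : ℝ) (G : E 3 → ℂ) (M : ℝ) (hM : ∀ x, ‖G x‖ ≤ M) (x : E 3) :
    ‖Av κ G x‖ ≤ M := sorry

theorem Av_supp_stub (κ μ : ℝ) (G : E 3 → ℂ) (hs : ∀ x, x 2 ∉ band μ → G x = 0) (x : E 3)
    (hx : x 2 ∉ band μ) : Av κ G x = 0 := sorry

theorem Av_L2_stub (κ : ℝ) (G : E 3 → ℂ) (hG : Measurable G) (M : ℝ) (hM : ∀ x, ‖G x‖ ≤ M) :
    ∫ x, ‖Av κ G x‖ ^ 2 ∂(sg 3) ≤ ∫ x, ‖G x‖ ^ 2 ∂(sg 3) := sorry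

theorem Av_add_stub (κ : ℝ) (G H : E 3 → ℂ) (hG : Measurable G) (hH : Measurable H) (M : ℝ)
    (hM : ∀ x, ‖G x‖ ≤ M) (hM' : ∀ x, ‖H x‖ ≤ M) (x : E 3) :
    Av κ (fun y => G y + H y) x = Av κ G x + Av κ H x := sorry

theorem Av_sub_stub (κ : ℝ) (G H : E 3 → ℂ) (hG : Measurable G) (hH : Measurable H) (M : ℝ)
    (hM : ∀ x, ‖G x‖ ≤ M) (hM' : ∀ x, ‖H x‖ ≤ M) (x : E 3) :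
    Av κ (fun y => G y - H y) x = Av κ G x - Av κ H x := sorry

theorem Av_comm_stub (κ κ' : ℝ) (G : E 3 → ℂ) (hG : Measurable G) (M : ℝ) (hM : ∀ x, ‖G x‖ ≤ M)
    (x : E 3) : Av κ (Av κ' G) x = Av κ' (Av κ G) x := sorry

theorem Av_reg_stub (κ : ℝ) (G : E 3 → ℂ) (hG : Measurable G) (M : ℝ) (hM : ∀ x, ‖G x‖ ≤ M)
    (h : ℝ) :
    ∫ x, ‖Av κ G (rot (-h) x) - Av κ G x‖ ^ 2 ∂(sg 3) ≤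
      ∫ x, ‖G (rot (-h) x) - G x‖ ^ 2 ∂(sg 3) := sorry

theorem Av_diff_stub : ∃ C : ℝ, 0 < C ∧ ∀ κ : ℝ, 1 ≤ κ → ∀ s : ℝ, 0 ≤ s → s ≤ 1 →
    ∀ G : E 3 → ℂ, Measurable G → (∃ M : ℝ, ∀ x, ‖G x‖ ≤ M) → ∀ K : ℝ, 0 ≤ K →
    (∀ h : ℝ, 0 < h → h ≤ 1 →
      ∫ x, ‖G (rot (-h) x) - G x‖ ^ 2 ∂(sg 3) ≤ K * h ^ (2 * s)) →
    ∫ x, ‖G x - Av κ G x‖ ^ 2 ∂(sg 3) ≤ C * K * κ ^ (-s) := sorry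

/- Task V3 -> Pool/Agent/H789R2/FR/Loc.lean -/
theorem far_stub (ε : ℝ) (hε : 0 < ε) (m : ℝ) (hm : 0 < m) : ∃ C : ℝ, 0 < C ∧
    ∀ μ : ℝ, 0 < μ → μ ≤ 1 → ∀ ρ : ℝ, 1 ≤ ρ * μ → ∀ κ : ℝ, ρ * μ ≤ κ → κ ≤ (ρ * μ) ^ 2 →
    ∀ W : ℝ, W = (ρ * μ) ^ ε * κ ^ (1 / 2 : ℝ) / (ρ * μ) → ∀ a : ℝ,
    ∀ G : E 3 → ℂ, Measurable G → ∀ M : ℝ, (∀ x, ‖G x‖ ≤ M) → (∀ x, x 2 ∉ band μ → G x = 0) →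
    (∀ x ∈ St a (2 * W), G x = 0) →
    ∫⁻ x in shl ρ ∩ St a W, ENNReal.ofReal (‖T (Av κ G) x‖ ^ 4) ≤
      ENNReal.ofReal (C * M ^ 4 * μ ^ 4 * (ρ * μ) ^ (-m)) := sorry

theorem near_tail_stub (ε : ℝ) (hε : 0 < ε) (m : ℝ) (hm : 0 < m) : ∃ C : ℝ, 0 < C ∧
    ∀ N : ℝ, 1 ≤ N → ∀ κ : ℝ, N ≤ κ → κ ≤ N ^ 2 → ∀ W : ℝ, W = N ^ ε * κ ^ (1 / 2 : ℝ) / N →
    ∀ a : ℝ, ∀ G : E 3 → ℂ, ∀ M : ℝ, (∀ x, ‖G x‖ ≤ M) → (∀ x, x ∉ St a (2 * W) → G x = 0) →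
    ∀ x : E 3, x ∉ St a (4 * W) → ‖Av κ G x‖ ≤ C * M * N ^ (-m) := sorry

/- Task V4b -> Pool/Agent/H789R2/FR/E4t.lean (uses E4r of E4.lean) -/
theorem E4t_stub : ∃ C : ℝ, 0 < C ∧ ∀ μ : ℝ, 0 < μ → μ ≤ 1 → ∀ Y : ℝ, 1 ≤ Y * μ →
    ∀ τ : ℝ, 4 / 5 ≤ τ → τ ≤ 1 → ∀ b : ℝ → ℂ, Measurable b → ∀ B : ℝ, (∀ c, ‖b c‖ ≤ B) →
    (∀ c, b c ≠ 0 → |c| < τ ∧ 2 / 5 * μ ≤ Real.sqrt (τ ^ 2 - c ^ 2) ∧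
      Real.sqrt (τ ^ 2 - c ^ 2) ≤ μ) →
    ∫⁻ y in Icc (-Y) Y, ∫⁻ z : ℝ, ENNReal.ofReal (‖∫ c : ℝ,
      Complex.exp (-((y * Real.sqrt (τ ^ 2 - c ^ 2) + z * c : ℝ) : ℂ) * I) * b c‖ ^ 4) ≤
      ENNReal.ofReal (C * B ^ 2 * μ ^ 3 * (1 + Real.log (Y * μ)) * ∫ c, ‖b c‖ ^ 2) := sorry

/- Task V4a -> Pool/Agent/H789R2/FR/Strip.lean (uses Arch, Cyl, Planch, V4b) -/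
theorem strip_stub : ∃ C : ℝ, 0 < C ∧ ∀ μ : ℝ, 0 < μ → μ ≤ 1 → ∀ ρ : ℝ, 1 ≤ ρ * μ →
    ∀ w : ℝ, 0 < w → w ≤ 1 / 2 → ∀ a : ℝ, ∀ H : E 3 → ℂ, Measurable H →
    ∀ M : ℝ, (∀ x, ‖H x‖ ≤ M) → (∀ x, x 2 ∉ band μ → H x = 0) → (∀ x, x ∉ St a w → H x = 0) →
    ∫⁻ x in {x : E 3 | x 0 ^ 2 + x 1 ^ 2 < (2 * ρ) ^ 2}, ENNReal.ofReal (‖T H x‖ ^ 4) ≤
      ENNReal.ofReal (C * w ^ 2 * μ ^ 2 * M ^ 2 * (1 + Real.log (ρ * μ)) *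
        ∫ x, ‖H x‖ ^ 2 ∂(sg 3)) := sorry

/- Task V5 -> Pool/Agent/H789R2/FR/M4s.lean (uses V2, V3, V4a, L2Cyl) -/
theorem M4s_stub (ε : ℝ) (hε : 0 < ε) : ∃ C : ℝ, 0 < C ∧ ∀ μ : ℝ, 0 < μ → μ ≤ 1 →
    ∀ ρ : ℝ, 1 ≤ ρ * μ → ∀ κ : ℝ, ρ * μ ≤ κ → 8 * (ρ * μ) ^ ε * κ ^ (1 / 2 : ℝ) ≤ ρ * μ →
    ∀ G : E 3 → ℂ, Measurable G → ∀ M : ℝ, (∀ x, ‖G x‖ ≤ M) → (∀ x, x 2 ∉ band μ → G x = 0) →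
    ∫⁻ x in shl ρ, ENNReal.ofReal (‖T (Av κ G) x‖ ^ 4) ≤
      ENNReal.ofReal (C * ((ρ * μ) ^ (3 * ε) * (κ / (ρ * μ) ^ 2) * μ ^ 2 * M ^ 2 *
        (∫ x, ‖G x‖ ^ 2 ∂(sg 3)) + M ^ 4 * μ ^ 4 * (ρ * μ) ^ (-2 : ℝ))) := sorry

/- Task V6 -> Pool/Agent/H789R2/FR/Smooth2.lean (uses V2, V5, L2Cyl, Interp) -/
theorem smooth2_stub (p s : ℝ) (hp : 3 < p) (hp' : p < 4) (hs : 1 / 5 < s) (hs' : s ≤ 1 / 2)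
    (lam : ℝ) (hl : 1 / 2 ≤ lam) (hl' : lam ≤ 5 / 6) (M K : ℝ) (hM : 0 ≤ M) (hK : 0 ≤ K) :
    ∃ C ε : ℝ, 0 < C ∧ 0 < ε ∧ ∀ μ : ℝ, 0 < μ → μ ≤ 1 → ∀ ρ : ℝ, 2 ≤ ρ * μ →
    ∀ G : E 3 → ℂ, Measurable G → (∀ x, ‖G x‖ ≤ M) → (∀ x, x 2 ∉ band μ → G x = 0) →
    (∀ h : ℝ, 0 < h → h ≤ 1 →
      ∫ x, ‖G (rot (-h) x) - G x‖ ^ 2 ∂(sg 3) ≤ K * h ^ (2 * s) * μ ^ 2) →
    ∫⁻ x in shl ρ, ENNReal.ofReal (‖T (Av ((ρ * μ) ^ (2 * lam)) G) x‖ ^ p) ≤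
      ENNReal.ofReal (C * μ ^ (2 * (p - 2)) * (ρ * μ) ^ (-ε)) := sorry

/- Task V7 -> Pool/Agent/H789R2/FR/Piece5.lean: piece with 1/5 < s (= C3.PieceStmt p s) -/
theorem piece5_stub (p s : ℝ) (hp : 3 < p) (hp' : p < 4) (hs : 1 / 5 < s) : ∀ M K : ℝ,
    0 ≤ M → 0 ≤ K → ∃ C : ℝ, 0 < C ∧ ∀ μ : ℝ, 0 < μ → μ ≤ 1 →
    ∀ G : E 3 → ℂ, Measurable G → (∀ x, ‖G x‖ ≤ M) → (∀ x, x 2 ∉ band μ → G x = 0) →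
    (∀ h : ℝ, 0 < h → h ≤ 1 →
      ∫ x, ‖G (rot (-h) x) - G x‖ ^ 2 ∂(sg 3) ≤ K * h ^ (2 * s) * μ ^ 2) →
    ∫⁻ x, ENNReal.ofReal (‖T G x‖ ^ p) ≤ ENNReal.ofReal (C * μ ^ (2 * (p - 2))) := sorry

end Pool.Agent.H789R2.FR
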